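import Pool.Agent.XE31.F2
import Pool.Agent.N799.DT.Main

/-!
# A power saving bound for the number of fixed points on `SL(2,ℤ) ⧸ Γ`
-/

set_option autoImplicit false

open CongruenceSubgroup ModularGroup
open scoped MatrixGroups

namespace Pool.Agent.XE31

open Pool.Agent.N799.DT

namespace F3

theorem dvd_val_iff {N m : ℕ} [NeZero N] (hm : m ∣ N) (x : ZMod N) :
    m ∣ x.val ↔ ∃ y : ZMod N, x = (m : ZMod N) * y := by
  constructor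
  · rintro ⟨k, hk⟩
    exact ⟨k, by rw [← ZMod.natCast_zmod_val x, hk]; push_cast; rfl⟩
  · rintro ⟨y, rfl⟩
    have h1 : ((m * y.val : ℕ) : ZMod N) = (m : ZMod N) * y := by
      push_cast
      rw [ZMod.natCast_zmod_val]
    rw [← h1, ZMod.val_natCast]
    exact (Nat.dvd_mod_iff hm).2 (dvd_mul_right _ _)

theorem dvd_lev_iff {N m : ℕ} [NeZero N] (hm : m ∣ N) (h : SL(2, ZMod N)) :
    m ∣ lev N h ↔ (∃ y : ZMod N, h 0 1 = (m : ZMod N) * y) ∧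
      (∃ y : ZMod N, h 1 0 = (m : ZMod N) * y) ∧ ∃ y : ZMod N, h 0 0 - h 1 1 = (m : ZMod N) * y := by
  unfold lev
  rw [Nat.dvd_gcd_iff, Nat.dvd_gcd_iff, Nat.dvd_gcd_iff, dvd_val_iff hm, dvd_val_iff hm,
    dvd_val_iff hm]
  exact ⟨fun h => h.2, fun h => ⟨hm, h⟩⟩

theorem lev_conj_dvd {N : ℕ} [NeZero N] (k h : SL(2, ZMod N)) :
    lev N h ∣ lev N (k * h * k⁻¹) := by
  have hd := Count.lev_dvd N h
  obtain ⟨⟨a, ha⟩, ⟨b, hb⟩, ⟨c, hc⟩⟩ := (dvd_lev_iff hd h).1 dvd_rfl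
  rw [dvd_lev_iff hd]
  obtain ⟨e10, e01, ed⟩ := F2.conj_entries k h
  rw [ha, hb, hc] at e10 e01 ed
  exact ⟨⟨k 0 0 ^ 2 * a - k 0 1 ^ 2 * b - k 0 0 * k 0 1 * c, by rw [e01]; ring⟩,
    ⟨k 1 0 * k 1 1 * c + k 1 1 ^ 2 * b - k 1 0 ^ 2 * a, by rw [e10]; ring⟩,
    ⟨c * (k 0 0 * k 1 1 + k 0 1 * k 1 0) + 2 * k 0 1 * k 1 1 * b - 2 * k 0 0 * k 1 0 * a, by
      rw [← neg_sub, ed]; ring⟩⟩

theorem lev_conj {N : ℕ} [NeZero N] {g h : SL(2, ZMod N)} (hc : IsConj g h) :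
    lev N g = lev N h := by
  obtain ⟨k, hk⟩ := isConj_iff.1 hc
  apply Nat.dvd_antisymm
  · rw [← hk]; exact lev_conj_dvd k g
  · have : g = k⁻¹ * h * (k⁻¹)⁻¹ := by rw [← hk]; group
    rw [this]; exact lev_conj_dvd k⁻¹ h

/-- the sum of the squares of the levels -/
theorem levsq (Γ : Subgroup SL(2, ℤ)) (N : ℕ) (hN : IsLevel Γ N) (S : Finset SL(2, ZMod N))
    (hS : ∀ h ∈ S, h ∈ Γ.map (red N)) :
    ∑ h ∈ S, lev N h ^ 2 ≤ 4 * N ^ 2 * N.divisors.card ^ 2 := by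
  have : NeZero N := ⟨hN.1.ne'⟩
  have e1 : ∑ h ∈ S, lev N h ^ 2 =
      ∑ m ∈ N.divisors, ∑ h ∈ S.filter (fun h => lev N h = m), lev N h ^ 2 := by
    refine (Finset.sum_fiberwise_of_maps_to ?_ _).symm
    intro h _
    exact Nat.mem_divisors.2 ⟨Count.lev_dvd N h, hN.1.ne'⟩
  rw [e1]
  have e2 : ∀ m ∈ N.divisors, ∑ h ∈ S.filter (fun h => lev N h = m), lev N h ^ 2 ≤
      4 * N ^ 2 * N.divisors.card := by
    intro m hm
    have hmd : m ∣ N := Nat.dvd_of_mem_divisors hm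
    have e3 : ∑ h ∈ S.filter (fun h => lev N h = m), lev N h ^ 2 =
        (S.filter (fun h => lev N h = m)).card * m ^ 2 := by
      rw [Finset.sum_congr rfl (fun h hh => by rw [(Finset.mem_filter.1 hh).2]), Finset.sum_const,
        smul_eq_mul]
    rw [e3]
    have e4 := LevSum.card_level index_all level Γ N hN m hmd S hS
    have e5 : m * (N / m) = N := Nat.mul_div_cancel' hmd
    calc (S.filter (fun h => lev N h = m)).card * m ^ 2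
        ≤ 2 * (N / m) ^ 2 * (2 * N.divisors.card) * m ^ 2 := Nat.mul_le_mul_right _ e4
      _ = 4 * (m * (N / m)) ^ 2 * N.divisors.card := by ring
      _ = 4 * N ^ 2 * N.divisors.card := by rw [e5]
  calc ∑ m ∈ N.divisors, ∑ h ∈ S.filter (fun h => lev N h = m), lev N h ^ 2
      ≤ ∑ m ∈ N.divisors, 4 * N ^ 2 * N.divisors.card := Finset.sum_le_sum e2
    _ = 4 * N ^ 2 * N.divisors.card ^ 2 := by
        rw [Finset.sum_const, smul_eq_mul]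
        ring

/-- the number of elements of `Γ` modulo `N` with a given trace -/
theorem card_conj (Γ : Subgroup SL(2, ℤ)) (N : ℕ) (hN : IsLevel Γ N) (t : ZMod N)
    (S : Finset SL(2, ZMod N)) (hS : ∀ h ∈ S, h ∈ Γ.map (red N) ∧ F2.tr h = t) :
    S.card ^ 2 ≤ N * (N.divisors.card * Nat.sqrt N) * (4 * N ^ 2 * N.divisors.card ^ 2) := by
  classical
  have : NeZero N := ⟨hN.1.ne'⟩
  have : Fintype SL(2, ZMod N) := Fintype.ofFinite _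
  set H : Finset SL(2, ZMod N) := Finset.univ.filter (fun h => h ∈ Γ.map (red N)) with hH
  have h1 : (S ×ˢ S).card = ∑ g ∈ H, ((S ×ˢ S).filter (fun p => p.1 * p.2 = g)).card := by
    refine Finset.card_eq_sum_card_fiberwise ?_
    intro p hp
    rw [Finset.mem_coe, Finset.mem_product] at hp
    simp only [hH, Finset.coe_filter, Finset.mem_univ, true_and, Set.mem_ofPred_eq]
    exact Subgroup.mul_mem _ (hS _ hp.1).1 (hS _ hp.2).1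
  have h2 : ∀ g ∈ H, ((S ×ˢ S).filter (fun p => p.1 * p.2 = g)).card ≤
      N * (N.divisors.card * Nat.sqrt N) * lev N g ^ 2 := by
    intro g _
    refine le_trans ?_ (F2.r_bound N g t)
    refine Finset.card_le_card_of_injOn (fun p => p.1) ?_ ?_
    · intro p hp
      rw [Finset.mem_coe, Finset.mem_filter, Finset.mem_product] at hp
      simp only [Finset.coe_filter, Finset.mem_univ, true_and, Set.mem_ofPred_eq]
      refine ⟨(hS _ hp.1.1).2, ?_⟩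
      rw [← hp.2, inv_mul_cancel_left]
      exact (hS _ hp.1.2).2
    · intro p hp q hq hpq
      rw [Finset.mem_coe, Finset.mem_filter] at hp hq
      have h3 : p.1 = q.1 := hpq
      have h4 : p.1 * p.2 = p.1 * q.2 := by rw [hp.2, h3, hq.2]
      exact Prod.ext h3 (mul_left_cancel h4)
  rw [sq, ← Finset.card_product, h1]
  calc ∑ g ∈ H, ((S ×ˢ S).filter (fun p => p.1 * p.2 = g)).card
      ≤ ∑ g ∈ H, N * (N.divisors.card * Nat.sqrt N) * lev N g ^ 2 := Finset.sum_le_sum h2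
    _ = N * (N.divisors.card * Nat.sqrt N) * ∑ g ∈ H, lev N g ^ 2 := by rw [Finset.mul_sum]
    _ ≤ _ := Nat.mul_le_mul_left _ (levsq Γ N hN H fun h hh => (Finset.mem_filter.1 hh).2)

/-- the number of fixed points -/
theorem fix_sq (Γ : Subgroup SL(2, ℤ)) (N : ℕ) (hN : IsLevel Γ N) (τ : SL(2, ℤ)) :
    (fix Γ τ : ℝ) ^ 2 * N ≤
      16 * (N.divisors.card : ℝ) ^ 9 * (Γ.index : ℝ) ^ 2 * (lev N (red N τ) : ℝ) ^ 4 *
        Real.sqrt N := by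
  classical
  obtain ⟨hN0, hΓ, _⟩ := id hN
  have : NeZero N := ⟨hN0.ne'⟩
  have : Fintype SL(2, ZMod N) := Fintype.ofFinite _
  obtain ⟨H, hH⟩ : ∃ H : Finset SL(2, ZMod N), ∀ h, h ∈ H ↔ h ∈ Γ.map (red N) :=
    ⟨Finset.univ.filter fun h => h ∈ Γ.map (red N), fun h => by simp⟩
  have hcard : Nat.card (Γ.map (red N)) = H.card := by
    rw [← Nat.card_eq_finsetCard]
    exact Nat.card_congr (Equiv.subtypeEquivRight fun h => (hH h).symm)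
  have hHpos : 0 < H.card := Finset.card_pos.2 ⟨1, (hH 1).2 (one_mem _)⟩
  have a1 := Count.index_eq surj Γ N hN0 hΓ
  rw [hcard] at a1
  have a2 := Count.card_ge N
  have a3 := Pool.Agent.H369R2.S6c.le_totient_mul N hN0
  have a5 : N ^ 3 ≤ N.divisors.card * (Γ.index * H.card) := by
    calc N ^ 3 = N * (N * N) := by ring
      _ ≤ N.divisors.card * N.totient * (N * N) := Nat.mul_le_mul_right _ a3
      _ = N.divisors.card * (N.totient * (N * N)) := by ring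
      _ ≤ N.divisors.card * (Γ.index * H.card) := Nat.mul_le_mul_left _ (a2.trans a1.ge)
  set S := H.filter (fun h => IsConj (red N τ) h) with hS
  have hdbl := dbl Γ N hN0 hΓ H hH {τ}
  rw [Finset.sum_singleton] at hdbl
  obtain ⟨ℓ, hℓ⟩ : ∃ ℓ, ℓ = lev N (red N τ) := ⟨_, rfl⟩
  obtain ⟨D, hD⟩ : ∃ D : ℝ, D = N.divisors.card := ⟨_, rfl⟩
  have b1 : ∑ h ∈ H, Nat.card {g : SL(2, ZMod N) // g * h = h * g} *
        Nat.card {δ : SL(2, ℤ) // δ ∈ ({τ} : Finset SL(2, ℤ)) ∧ IsConj (red N δ) h} ≤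
      ∑ h ∈ S, Nat.card {g : SL(2, ZMod N) // g * h = h * g} := by
    rw [hS, Finset.sum_filter]
    refine Finset.sum_le_sum fun h _ => ?_
    split_ifs with hc
    · have : Nat.card {δ : SL(2, ℤ) // δ ∈ ({τ} : Finset SL(2, ℤ)) ∧ IsConj (red N δ) h} ≤ 1 := by
        have hsub : Subsingleton {δ : SL(2, ℤ) // δ ∈ ({τ} : Finset SL(2, ℤ)) ∧
            IsConj (red N δ) h} := by
          constructor
          rintro ⟨x, hx, _⟩ ⟨y, hy, _⟩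
          rw [Finset.mem_singleton] at hx hy
          exact Subtype.ext (hx.trans hy.symm)
        exact Finite.card_le_one_iff_subsingleton.2 hsub
      calc _ ≤ Nat.card {g : SL(2, ZMod N) // g * h = h * g} * 1 := Nat.mul_le_mul_left _ this
        _ = _ := mul_one _
    · have : IsEmpty {δ : SL(2, ℤ) // δ ∈ ({τ} : Finset SL(2, ℤ)) ∧ IsConj (red N δ) h} := by
        constructor
        rintro ⟨x, hx, hx'⟩
        rw [Finset.mem_singleton] at hx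
        rw [hx] at hx'
        exact hc hx'
      have h0 : Nat.card {δ : SL(2, ℤ) // δ ∈ ({τ} : Finset SL(2, ℤ)) ∧ IsConj (red N δ) h} = 0 :=
        Nat.card_of_isEmpty
      rw [h0, mul_zero]
  have b2 : (H.card : ℝ) * fix Γ τ ≤ S.card * (2 * D ^ 2 * N * (ℓ : ℝ) ^ 2) := by
    have c1 : ((H.card * fix Γ τ : ℕ) : ℝ) ≤
        ((∑ h ∈ S, Nat.card {g : SL(2, ZMod N) // g * h = h * g} : ℕ) : ℝ) := by
      exact_mod_cast hdbl.trans b1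
    push_cast at c1
    refine c1.trans ?_
    have c2 : ∀ h ∈ S, (Nat.card {g : SL(2, ZMod N) // g * h = h * g} : ℝ) ≤
        2 * D ^ 2 * N * (ℓ : ℝ) ^ 2 := by
      intro h hh
      have c3 := Count.cent_le cent N h
      rw [hS, Finset.mem_filter] at hh
      rw [← lev_conj hh.2, ← hℓ, ← hD] at c3
      exact c3
    refine (Finset.sum_le_sum c2).trans ?_
    rw [Finset.sum_const, nsmul_eq_mul]
  have b3 : (S.card : ℝ) ^ 2 ≤ N * (D * Real.sqrt N) * (4 * (N : ℝ) ^ 2 * D ^ 2) := by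
    have c1 := card_conj Γ N hN (F2.tr (red N τ)) S (by
      intro h hh
      rw [hS, Finset.mem_filter] at hh
      refine ⟨(hH h).1 hh.1, ?_⟩
      obtain ⟨k, hk⟩ := isConj_iff.1 hh.2
      rw [← hk, F2.tr_conj])
    have c2 : ((S.card ^ 2 : ℕ) : ℝ) ≤
        ((N * (N.divisors.card * Nat.sqrt N) * (4 * N ^ 2 * N.divisors.card ^ 2) : ℕ) : ℝ) := by
      exact_mod_cast c1
    push_cast at c2
    refine c2.trans ?_
    rw [hD]
    have c3 : ((Nat.sqrt N : ℕ) : ℝ) ≤ Real.sqrt N := Real.nat_sqrt_le_real_sqrt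
    gcongr
  have b4 : (N : ℝ) ^ 3 ≤ D * (Γ.index * H.card) := by
    rw [hD]; exact_mod_cast a5
  have hD1 : (1 : ℝ) ≤ D := by
    rw [hD]
    exact_mod_cast Finset.card_pos.2 ⟨1, Nat.one_mem_divisors.2 hN0.ne'⟩
  have hNr : (0 : ℝ) < N := by exact_mod_cast hN0
  have hc0 : (0 : ℝ) < H.card := by exact_mod_cast hHpos
  obtain ⟨c, hc⟩ : ∃ c : ℝ, c = H.card := ⟨_, rfl⟩
  obtain ⟨n, hn⟩ : ∃ n : ℝ, n = Γ.index := ⟨_, rfl⟩
  obtain ⟨f, hf⟩ : ∃ f : ℝ, f = fix Γ τ := ⟨_, rfl⟩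
  obtain ⟨σ, hσ⟩ : ∃ σ : ℝ, σ = S.card := ⟨_, rfl⟩
  rw [← hc, ← hf, ← hσ] at b2
  rw [← hσ] at b3
  rw [← hn, ← hc] at b4
  rw [← hc] at hc0
  rw [← hf, ← hn, ← hℓ, ← hD]
  have hn0 : 0 ≤ n := by rw [hn]; positivity
  have hf0 : 0 ≤ f := by rw [hf]; positivity
  have hσ0 : 0 ≤ σ := by rw [hσ]; positivity
  have hs0 : 0 ≤ Real.sqrt N := Real.sqrt_nonneg _
  have c1 : (c * f) ^ 2 ≤ 16 * D ^ 7 * (N : ℝ) ^ 5 * Real.sqrt N * (ℓ : ℝ) ^ 4 := by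
    calc (c * f) ^ 2 ≤ (σ * (2 * D ^ 2 * N * (ℓ : ℝ) ^ 2)) ^ 2 :=
          pow_le_pow_left₀ (by positivity) b2 2
      _ = σ ^ 2 * (2 * D ^ 2 * N * (ℓ : ℝ) ^ 2) ^ 2 := by ring
      _ ≤ (N * (D * Real.sqrt N) * (4 * (N : ℝ) ^ 2 * D ^ 2)) * (2 * D ^ 2 * N * (ℓ : ℝ) ^ 2) ^ 2 :=
          mul_le_mul_of_nonneg_right b3 (by positivity)
      _ = _ := by ring
  have c2 : ((N : ℝ) ^ 3) ^ 2 ≤ (D * (n * c)) ^ 2 := pow_le_pow_left₀ (by positivity) b4 2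
  have c3 : f ^ 2 * N * (c ^ 2 * (N : ℝ) ^ 5) ≤
      16 * D ^ 9 * n ^ 2 * (ℓ : ℝ) ^ 4 * Real.sqrt N * (c ^ 2 * (N : ℝ) ^ 5) := by
    calc f ^ 2 * N * (c ^ 2 * (N : ℝ) ^ 5) = (c * f) ^ 2 * ((N : ℝ) ^ 3) ^ 2 := by ring
      _ ≤ (16 * D ^ 7 * (N : ℝ) ^ 5 * Real.sqrt N * (ℓ : ℝ) ^ 4) * (D * (n * c)) ^ 2 :=
          mul_le_mul c1 c2 (by positivity) (by positivity)
      _ = _ := by ring
  exact le_of_mul_le_mul_right c3 (by positivity)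

/-- power saving for the number of fixed points -/
theorem fix_bound : ∃ C : ℝ, 0 < C ∧ ∀ (Γ : Subgroup SL(2, ℤ)) (N : ℕ), IsLevel Γ N →
    ∀ τ : SL(2, ℤ), (fix Γ τ : ℝ) ≤
      C * Γ.index * (lev N (red N τ) : ℝ) ^ 2 * (N : ℝ) ^ (-(1 / 5) : ℝ) := by
  obtain ⟨K, hK, hdiv⟩ := Pool.Agent.H369R2.divisor_bound (1 / 90) (by norm_num)
  refine ⟨4 * Real.sqrt (K ^ 9), by positivity, fun Γ N hN τ => ?_⟩
  have hN1 : (1 : ℝ) ≤ N := by exact_mod_cast hN.1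
  have hN0 : (0 : ℝ) < N := by linarith
  have h1 := fix_sq Γ N hN τ
  have h2 := hdiv N hN.1
  obtain ⟨f, hf⟩ : ∃ f : ℝ, f = fix Γ τ := ⟨_, rfl⟩
  obtain ⟨n, hn⟩ : ∃ n : ℝ, n = Γ.index := ⟨_, rfl⟩
  obtain ⟨ℓ, hℓ⟩ : ∃ ℓ : ℝ, ℓ = lev N (red N τ) := ⟨_, rfl⟩
  obtain ⟨D, hD⟩ : ∃ D : ℝ, D = N.divisors.card := ⟨_, rfl⟩
  rw [← hf, ← hn, ← hℓ, ← hD] at h1
  rw [← hD] at h2
  rw [← hf, ← hn, ← hℓ]
  have hn0 : 0 ≤ n := by rw [hn]; positivity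
  have hf0 : 0 ≤ f := by rw [hf]; positivity
  have hl0 : 0 ≤ ℓ := by rw [hℓ]; positivity
  have hD0 : 0 ≤ D := by rw [hD]; positivity
  have h3 : D ^ 9 ≤ K ^ 9 * (N : ℝ) ^ (1 / 10 : ℝ) := by
    calc D ^ 9 ≤ (K * (N : ℝ) ^ (1 / 90 : ℝ)) ^ 9 := pow_le_pow_left₀ hD0 h2 9
      _ = K ^ 9 * ((N : ℝ) ^ (1 / 90 : ℝ)) ^ (9 : ℕ) := by ring
      _ = K ^ 9 * (N : ℝ) ^ (1 / 10 : ℝ) := by
          rw [← Real.rpow_natCast ((N : ℝ) ^ (1 / 90 : ℝ)) 9, ← Real.rpow_mul hN0.le]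
          norm_num
  have h4 : f ^ 2 ≤ (4 * Real.sqrt (K ^ 9) * n * ℓ ^ 2 * (N : ℝ) ^ (-(1 / 5) : ℝ)) ^ 2 := by
    have h5 : (4 * Real.sqrt (K ^ 9) * n * ℓ ^ 2 * (N : ℝ) ^ (-(1 / 5) : ℝ)) ^ 2 =
        16 * K ^ 9 * n ^ 2 * ℓ ^ 4 * (N : ℝ) ^ (-(2 / 5) : ℝ) := by
      have h6 : ((N : ℝ) ^ (-(1 / 5) : ℝ)) ^ 2 = (N : ℝ) ^ (-(2 / 5) : ℝ) := by
        rw [← Real.rpow_natCast, ← Real.rpow_mul hN0.le]
        norm_num
      have h7 : Real.sqrt (K ^ 9) ^ 2 = K ^ 9 := Real.sq_sqrt (by positivity)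
      calc (4 * Real.sqrt (K ^ 9) * n * ℓ ^ 2 * (N : ℝ) ^ (-(1 / 5) : ℝ)) ^ 2
          = 16 * Real.sqrt (K ^ 9) ^ 2 * n ^ 2 * ℓ ^ 4 * ((N : ℝ) ^ (-(1 / 5) : ℝ)) ^ 2 := by ring
        _ = _ := by rw [h6, h7]
    rw [h5]
    have h8 : f ^ 2 * N ≤ 16 * K ^ 9 * n ^ 2 * ℓ ^ 4 * (N : ℝ) ^ (-(2 / 5) : ℝ) * N := by
      have h9 : Real.sqrt N = (N : ℝ) ^ (1 / 2 : ℝ) := Real.sqrt_eq_rpow _
      have h10 : (N : ℝ) ^ (1 / 10 : ℝ) * (N : ℝ) ^ (1 / 2 : ℝ) = (N : ℝ) ^ (-(2 / 5) : ℝ) * N := by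
        conv_rhs => rw [← Real.rpow_add_one hN0.ne']
        rw [← Real.rpow_add hN0]
        norm_num
      calc f ^ 2 * N ≤ 16 * D ^ 9 * n ^ 2 * ℓ ^ 4 * Real.sqrt N := h1
        _ ≤ 16 * (K ^ 9 * (N : ℝ) ^ (1 / 10 : ℝ)) * n ^ 2 * ℓ ^ 4 * Real.sqrt N := by gcongr
        _ = 16 * K ^ 9 * n ^ 2 * ℓ ^ 4 * ((N : ℝ) ^ (1 / 10 : ℝ) * (N : ℝ) ^ (1 / 2 : ℝ)) := by
            rw [h9]; ring
        _ = _ := by rw [h10]; ring
    exact le_of_mul_le_mul_right h8 hN0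
  exact (le_abs_self _).trans (abs_le_of_sq_le_sq h4 (by positivity))

end F3

end Pool.Agent.XE31
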