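import Pool.Agent.XE31.G3
import Pool.Agent.XE31.F3

/-!
# Points which are moved by a bounded distance
-/

set_option autoImplicit false

open UpperHalfPlane MeasureTheory Metric ModularGroup CongruenceSubgroup
open scoped MatrixGroups ENNReal Modular Topology NNReal

namespace Pool.Agent.XE31

open Pool.Agent.H369R2 Pool.Agent.N799.DT

noncomputable section

namespace G4

theorem near {h : SL(2, ℝ)} {z : ℍ} {L : ℝ} (hd : dist (h • z) z ≤ L) :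
    (h 1 0 * z.re + h 1 1) ^ 2 + (h 1 0 * z.im) ^ 2 ≤ Real.exp L ∧
    (h 1 0 * (z.re ^ 2 - z.im ^ 2) + (h 1 1 - h 0 0) * z.re - h 0 1) ^ 2 +
      (2 * h 1 0 * z.re * z.im + (h 1 1 - h 0 0) * z.im) ^ 2 ≤ Real.exp L * z.im ^ 2 := by
  obtain ⟨w, hw⟩ : ∃ w : ℍ, w = h • z := ⟨_, rfl⟩
  rw [← hw] at hd
  have hdet := Matrix.SpecialLinearGroup.det_coe h
  rw [Matrix.det_fin_two] at hdet
  have h1 : (w : ℂ) = ((h 0 0 : ℂ) * z + h 0 1) / ((h 1 0 : ℂ) * z + h 1 1) := by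
    rw [hw, coe_specialLinearGroup_apply]
    rfl
  have hy := z.im_pos
  have hne : (h 1 0 : ℂ) * z + h 1 1 ≠ 0 := by
    intro h0
    have e1 := congrArg Complex.re h0
    have e2 := congrArg Complex.im h0
    simp only [Complex.add_re, Complex.mul_re, Complex.ofReal_re, Complex.ofReal_im, zero_mul,
      sub_zero, Complex.zero_re, Complex.add_im, Complex.mul_im, add_zero, Complex.zero_im,
      coe_im, coe_re] at e1 e2
    rcases mul_eq_zero.1 e2 with e3 | e3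
    · rw [e3] at e1 hdet
      rw [zero_mul, zero_add] at e1
      rw [e1] at hdet
      simp at hdet
    · exact hy.ne' e3
  rw [eq_div_iff hne] at h1
  have e1 := congrArg Complex.re h1
  have e2 := congrArg Complex.im h1
  simp only [Complex.add_re, Complex.mul_re, Complex.ofReal_re, Complex.ofReal_im, zero_mul,
    sub_zero, Complex.add_im, Complex.mul_im, add_zero, coe_im, coe_re] at e1 e2
  have hv := w.im_pos
  obtain ⟨u, hu⟩ : ∃ u, u = w.re := ⟨_, rfl⟩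
  obtain ⟨v, hv'⟩ : ∃ v, v = w.im := ⟨_, rfl⟩
  obtain ⟨x, hx⟩ : ∃ x, x = z.re := ⟨_, rfl⟩
  obtain ⟨y, hy'⟩ : ∃ y, y = z.im := ⟨_, rfl⟩
  obtain ⟨a, ha⟩ : ∃ a, a = h 0 0 := ⟨_, rfl⟩
  obtain ⟨b, hb⟩ : ∃ b, b = h 0 1 := ⟨_, rfl⟩
  obtain ⟨c, hc⟩ : ∃ c, c = h 1 0 := ⟨_, rfl⟩
  obtain ⟨d, hd'⟩ : ∃ d, d = h 1 1 := ⟨_, rfl⟩
  have him := im_le_im_mul_exp_dist z w
  have hcosh := cosh_dist' w z
  rw [← hu, ← hv', ← hx, ← hy'] at e1 e2 hcosh
  rw [← hv', ← hy', dist_comm] at him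
  rw [← hv'] at hv
  rw [← hy'] at hy
  rw [← hx, ← hy']
  simp only [← ha, ← hb, ← hc, ← hd'] at e1 e2 hdet ⊢
  have hq : v * ((c * x + d) ^ 2 + (c * y) ^ 2) = y := by
    linear_combination (c * x + d) * e2 - (c * y) * e1 + y * hdet
  have hexp : Real.exp (dist w z) ≤ Real.exp L := Real.exp_le_exp.2 hd
  have k1 : (c * x + d) ^ 2 + (c * y) ^ 2 ≤ Real.exp L := by
    have : v * ((c * x + d) ^ 2 + (c * y) ^ 2) ≤ v * Real.exp L := by
      rw [hq]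
      exact him.trans (mul_le_mul_of_nonneg_left hexp hv.le)
    exact le_of_mul_le_mul_left this hv
  refine ⟨k1, ?_⟩
  have k2 : (u - x) ^ 2 + (v - y) ^ 2 ≤ v * y * Real.exp L := by
    have h3 : Real.cosh (dist w z) ≤ 1 + Real.exp (dist w z) / 2 := by
      rw [Real.cosh_eq]
      have : Real.exp (-dist w z) ≤ 1 := Real.exp_le_one_iff.2 (by simp [dist_nonneg])
      linarith
    rw [hcosh, div_le_iff₀ (by positivity)] at h3
    have h4 : v * y * Real.exp (dist w z) ≤ v * y * Real.exp L :=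
      mul_le_mul_of_nonneg_left hexp (by positivity)
    nlinarith
  have k3 : (c * (x ^ 2 - y ^ 2) + (d - a) * x - b) ^ 2 + (2 * c * x * y + (d - a) * y) ^ 2 =
      ((u - x) ^ 2 + (v - y) ^ 2) * ((c * x + d) ^ 2 + (c * y) ^ 2) := by
    have f1 : c * (x ^ 2 - y ^ 2) + (d - a) * x - b =
        -((u - x) * (c * x + d) - (v - y) * (c * y)) := by linear_combination e1
    have f2 : 2 * c * x * y + (d - a) * y = -((u - x) * (c * y) + (v - y) * (c * x + d)) := by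
      linear_combination e2
    rw [f1, f2]
    ring
  rw [k3]
  have hq0 : 0 ≤ (c * x + d) ^ 2 + (c * y) ^ 2 := by positivity
  calc ((u - x) ^ 2 + (v - y) ^ 2) * ((c * x + d) ^ 2 + (c * y) ^ 2)
      ≤ (v * y * Real.exp L) * ((c * x + d) ^ 2 + (c * y) ^ 2) :=
        mul_le_mul_of_nonneg_right k2 hq0
    _ = (v * ((c * x + d) ^ 2 + (c * y) ^ 2)) * y * Real.exp L := by ring
    _ = Real.exp L * y ^ 2 := by rw [hq]; ring

theorem near2 {h : SL(2, ℝ)} {z : ℍ} {L : ℝ} (hd : dist (h • z) z ≤ L) :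
    (h 1 0 * z.re + h 1 1) ^ 2 + (h 1 0 * z.im) ^ 2 ≤ Real.exp L ∧
    (h 1 0 * (z.re ^ 2 - z.im ^ 2) + (h 1 1 - h 0 0) * z.re - h 0 1) ^ 2 +
      (2 * h 1 0 * z.re * z.im + (h 1 1 - h 0 0) * z.im) ^ 2 ≤
        2 * (Real.cosh L - 1) * z.im ^ 2 := by
  obtain ⟨w, hw⟩ : ∃ w : ℍ, w = h • z := ⟨_, rfl⟩
  rw [← hw] at hd
  have hdet := Matrix.SpecialLinearGroup.det_coe h
  rw [Matrix.det_fin_two] at hdet
  have h1 : (w : ℂ) = ((h 0 0 : ℂ) * z + h 0 1) / ((h 1 0 : ℂ) * z + h 1 1) := by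
    rw [hw, coe_specialLinearGroup_apply]
    rfl
  have hy := z.im_pos
  have hne : (h 1 0 : ℂ) * z + h 1 1 ≠ 0 := by
    intro h0
    have e1 := congrArg Complex.re h0
    have e2 := congrArg Complex.im h0
    simp only [Complex.add_re, Complex.mul_re, Complex.ofReal_re, Complex.ofReal_im, zero_mul,
      sub_zero, Complex.zero_re, Complex.add_im, Complex.mul_im, add_zero, Complex.zero_im,
      coe_im, coe_re] at e1 e2
    rcases mul_eq_zero.1 e2 with e3 | e3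
    · rw [e3] at e1 hdet
      rw [zero_mul, zero_add] at e1
      rw [e1] at hdet
      simp at hdet
    · exact hy.ne' e3
  rw [eq_div_iff hne] at h1
  have e1 := congrArg Complex.re h1
  have e2 := congrArg Complex.im h1
  simp only [Complex.add_re, Complex.mul_re, Complex.ofReal_re, Complex.ofReal_im, zero_mul,
    sub_zero, Complex.add_im, Complex.mul_im, add_zero, coe_im, coe_re] at e1 e2
  have hv := w.im_pos
  obtain ⟨u, hu⟩ : ∃ u, u = w.re := ⟨_, rfl⟩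
  obtain ⟨v, hv'⟩ : ∃ v, v = w.im := ⟨_, rfl⟩
  obtain ⟨x, hx⟩ : ∃ x, x = z.re := ⟨_, rfl⟩
  obtain ⟨y, hy'⟩ : ∃ y, y = z.im := ⟨_, rfl⟩
  obtain ⟨a, ha⟩ : ∃ a, a = h 0 0 := ⟨_, rfl⟩
  obtain ⟨b, hb⟩ : ∃ b, b = h 0 1 := ⟨_, rfl⟩
  obtain ⟨c, hc⟩ : ∃ c, c = h 1 0 := ⟨_, rfl⟩
  obtain ⟨d, hd'⟩ : ∃ d, d = h 1 1 := ⟨_, rfl⟩
  have him := im_le_im_mul_exp_dist z w
  have hcosh := cosh_dist' w z
  rw [← hu, ← hv', ← hx, ← hy'] at e1 e2 hcosh
  rw [← hv', ← hy', dist_comm] at him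
  rw [← hv'] at hv
  rw [← hy'] at hy
  rw [← hx, ← hy']
  simp only [← ha, ← hb, ← hc, ← hd'] at e1 e2 hdet ⊢
  have hq : v * ((c * x + d) ^ 2 + (c * y) ^ 2) = y := by
    linear_combination (c * x + d) * e2 - (c * y) * e1 + y * hdet
  have hexp : Real.exp (dist w z) ≤ Real.exp L := Real.exp_le_exp.2 hd
  have k1 : (c * x + d) ^ 2 + (c * y) ^ 2 ≤ Real.exp L := by
    have : v * ((c * x + d) ^ 2 + (c * y) ^ 2) ≤ v * Real.exp L := by
      rw [hq]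
      exact him.trans (mul_le_mul_of_nonneg_left hexp hv.le)
    exact le_of_mul_le_mul_left this hv
  refine ⟨k1, ?_⟩
  have hcL : Real.cosh (dist w z) ≤ Real.cosh L := by
    rw [Real.cosh_le_cosh, abs_of_nonneg dist_nonneg]
    exact hd.trans (le_abs_self L)
  have k2 : (u - x) ^ 2 + (v - y) ^ 2 ≤ v * y * (2 * (Real.cosh L - 1)) := by
    rw [hcosh, div_le_iff₀ (by positivity)] at hcL
    nlinarith
  have k3 : (c * (x ^ 2 - y ^ 2) + (d - a) * x - b) ^ 2 + (2 * c * x * y + (d - a) * y) ^ 2 =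
      ((u - x) ^ 2 + (v - y) ^ 2) * ((c * x + d) ^ 2 + (c * y) ^ 2) := by
    have f1 : c * (x ^ 2 - y ^ 2) + (d - a) * x - b =
        -((u - x) * (c * x + d) - (v - y) * (c * y)) := by linear_combination e1
    have f2 : 2 * c * x * y + (d - a) * y = -((u - x) * (c * y) + (v - y) * (c * x + d)) := by
      linear_combination e2
    rw [f1, f2]
    ring
  rw [k3]
  have hq0 : 0 ≤ (c * x + d) ^ 2 + (c * y) ^ 2 := by positivity
  calc ((u - x) ^ 2 + (v - y) ^ 2) * ((c * x + d) ^ 2 + (c * y) ^ 2)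
      ≤ (v * y * (2 * (Real.cosh L - 1))) * ((c * x + d) ^ 2 + (c * y) ^ 2) :=
        mul_le_mul_of_nonneg_right k2 hq0
    _ = (v * ((c * x + d) ^ 2 + (c * y) ^ 2)) * y * (2 * (Real.cosh L - 1)) := by ring
    _ = 2 * (Real.cosh L - 1) * y ^ 2 := by rw [hq]; ring

/-- from the distance to the set `SS` -/
theorem mem_SS {h : SL(2, ℝ)} {z : ℍ} {L D Y : ℝ} {a b c d : ℤ}
    (ha : D * h 0 0 = a) (hb : D * h 0 1 = b) (hc : D * h 1 0 = c) (hd' : D * h 1 1 = d)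
    (hz : z ∈ (𝒟ᵒ : Set ℍ)) (hY : z.im ≤ Y) (hd : dist (h • z) z ≤ L) :
    z ∈ G3.SS (D * Real.exp (L / 2)) Y a b c d := by
  obtain ⟨h1, h2⟩ := near hd
  have he : Real.exp (L / 2) ^ 2 = Real.exp L := by
    rw [← Real.exp_nat_mul]; congr 1; push_cast; ring
  refine ⟨hz, hY, ?_, ?_⟩
  · rw [← hc, ← hd', mul_pow D (Real.exp _), he]
    calc (D * h 1 0 * z.re + D * h 1 1) ^ 2 + (D * h 1 0 * z.im) ^ 2
        = D ^ 2 * ((h 1 0 * z.re + h 1 1) ^ 2 + (h 1 0 * z.im) ^ 2) := by ring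
      _ ≤ D ^ 2 * Real.exp L := mul_le_mul_of_nonneg_left h1 (by positivity)
  · rw [← ha, ← hb, ← hc, ← hd', mul_pow D (Real.exp _), he]
    calc (D * h 1 0 * (z.re ^ 2 - z.im ^ 2) + (D * h 1 1 - D * h 0 0) * z.re - D * h 0 1) ^ 2 +
        (2 * (D * h 1 0) * z.re * z.im + (D * h 1 1 - D * h 0 0) * z.im) ^ 2
        = D ^ 2 * ((h 1 0 * (z.re ^ 2 - z.im ^ 2) + (h 1 1 - h 0 0) * z.re - h 0 1) ^ 2 +
      (2 * h 1 0 * z.re * z.im + (h 1 1 - h 0 0) * z.im) ^ 2) := by ring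
      _ ≤ D ^ 2 * (Real.exp L * z.im ^ 2) := mul_le_mul_of_nonneg_left h2 (by positivity)
      _ = _ := by ring

/-- the level of an element of `SL(2,ℤ)` in terms of a proportional integral matrix -/
theorem lev_le {N : ℕ} (hN : 0 < N) (τ : SL(2, ℤ)) {a b c d : ℤ} {m : ℤ}
    (h0 : (a : ZMod N) = m * (τ 0 0 : ℤ)) (h1 : (b : ZMod N) = m * (τ 0 1 : ℤ))
    (h2 : (c : ZMod N) = m * (τ 1 0 : ℤ)) (h3 : (d : ZMod N) = m * (τ 1 1 : ℤ)) :
    lev N (red N τ) ≤ G3.lv N a b c d := by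
  have : NeZero N := ⟨hN.ne'⟩
  apply Nat.le_of_dvd (Nat.gcd_pos_of_pos_left _ hN)
  have hd := Count.lev_dvd N (red N τ)
  obtain ⟨⟨x, hx⟩, ⟨y, hy⟩, ⟨t, ht⟩⟩ := (F3.dvd_lev_iff hd (red N τ)).1 dvd_rfl
  obtain ⟨ℓ, hℓ⟩ : ∃ ℓ, ℓ = lev N (red N τ) := ⟨_, rfl⟩
  rw [← hℓ] at hx hy ht hd ⊢
  have hx' : ((τ 0 1 : ℤ) : ZMod N) = (ℓ : ZMod N) * x := hx
  have hy' : ((τ 1 0 : ℤ) : ZMod N) = (ℓ : ZMod N) * y := hy
  have ht' : ((τ 0 0 : ℤ) : ZMod N) - ((τ 1 1 : ℤ) : ZMod N) = (ℓ : ZMod N) * t := ht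
  have key : ∀ u : ℤ, (∃ v : ZMod N, (u : ZMod N) = (ℓ : ZMod N) * v) → ℓ ∣ u.natAbs := by
    rintro u ⟨v, hv⟩
    have e1 : ((u : ZMod N).val : ℤ) = u % N := ZMod.val_intCast u
    have e2 : ℓ ∣ (u : ZMod N).val := (F3.dvd_val_iff hd _).2 ⟨v, hv⟩
    rw [← Int.natCast_dvd_natCast, e1] at e2
    have e3 : (ℓ : ℤ) ∣ u := by
      have e4 : (ℓ : ℤ) ∣ (N : ℤ) := Int.natCast_dvd_natCast.2 hd
      rw [Int.dvd_iff_emod_eq_zero, Int.emod_emod_of_dvd u e4] at e2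
      exact Int.dvd_iff_emod_eq_zero.2 e2
    exact Int.natCast_dvd.1 e3
  refine Nat.dvd_gcd hd (Nat.dvd_gcd (key b ⟨m * x, ?_⟩) (Nat.dvd_gcd (key c ⟨m * y, ?_⟩)
    (key (a - d) ⟨m * t, ?_⟩)))
  · rw [h1, hx']; ring
  · rw [h2, hy']; ring
  · push_cast
    rw [h0, h3]
    linear_combination (m : ZMod N) * ht'

end G4

end

end Pool.Agent.XE31
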