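import Pool.Agent.XE31.K3
import Pool.Agent.XE31.G4

/-!
# The final inequality for cuspidal eigenvectors
-/

set_option autoImplicit false

open UpperHalfPlane MeasureTheory Metric ModularGroup CongruenceSubgroup
open scoped MatrixGroups ENNReal Modular Topology NNReal ComplexConjugate

namespace Pool.Agent.XE31

open Pool.Agent.H369R2 Pool.Agent.N799.DT

noncomputable section

namespace E1

open M1 M2 M3 K2 K3

lemma fix_le_index {Γ : Subgroup SL(2, ℤ)} (hΓ : Γ.FiniteIndex) (τ : SL(2, ℤ)) :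
    fix Γ τ ≤ Γ.index := by
  unfold fix Subgroup.index
  have : Finite (SL(2, ℤ) ⧸ Γ) := Subgroup.finite_quotient_of_finiteIndex
  exact Finite.card_subtype_le _

/-- power saving bound, linear in the level -/
theorem fix_lin : ∃ C : ℝ, 0 < C ∧ ∀ (Γ : Subgroup SL(2, ℤ)) (N : ℕ), IsLevel Γ N →
    ∀ τ : SL(2, ℤ), (fix Γ τ : ℝ) ≤
      C * Γ.index * (lev N (red N τ) : ℝ) * (N : ℝ) ^ (-(1 / 10) : ℝ) := by
  obtain ⟨C, hC, h⟩ := F3.fix_bound
  refine ⟨Real.sqrt C, by positivity, fun Γ N hN τ => ?_⟩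
  have hN1 : (1 : ℝ) ≤ N := by exact_mod_cast hN.1
  have hN0 : (0 : ℝ) < N := by linarith
  have : NeZero N := ⟨hN.1.ne'⟩
  have hfin : Γ.FiniteIndex := Subgroup.finiteIndex_of_le hN.2.1
  have h1 := h Γ N hN τ
  have h2 : (fix Γ τ : ℝ) ≤ Γ.index := by exact_mod_cast fix_le_index hfin τ
  obtain ⟨f, hf⟩ : ∃ f : ℝ, f = fix Γ τ := ⟨_, rfl⟩
  obtain ⟨n, hn⟩ : ∃ n : ℝ, n = Γ.index := ⟨_, rfl⟩
  obtain ⟨ℓ, hℓ⟩ : ∃ ℓ : ℝ, ℓ = lev N (red N τ) := ⟨_, rfl⟩
  rw [← hf, ← hn, ← hℓ] at h1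
  rw [← hf, ← hn] at h2
  rw [← hf, ← hn, ← hℓ]
  have hf0 : 0 ≤ f := by rw [hf]; positivity
  have hn0 : 0 ≤ n := by rw [hn]; positivity
  have hl0 : 0 ≤ ℓ := by rw [hℓ]; positivity
  have h3 : f ^ 2 ≤ (Real.sqrt C * n * ℓ * (N : ℝ) ^ (-(1 / 10) : ℝ)) ^ 2 := by
    have e1 : ((N : ℝ) ^ (-(1 / 10) : ℝ)) ^ 2 = (N : ℝ) ^ (-(1 / 5) : ℝ) := by
      rw [← Real.rpow_natCast, ← Real.rpow_mul hN0.le]
      norm_num
    have e2 : Real.sqrt C ^ 2 = C := Real.sq_sqrt hC.le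
    calc f ^ 2 = f * f := sq f
      _ ≤ n * (C * n * ℓ ^ 2 * (N : ℝ) ^ (-(1 / 5) : ℝ)) := mul_le_mul h2 h1 hf0 hn0
      _ = Real.sqrt C ^ 2 * n ^ 2 * ℓ ^ 2 * ((N : ℝ) ^ (-(1 / 10) : ℝ)) ^ 2 := by
          rw [e1, e2]; ring
      _ = _ := by ring
  exact (le_abs_self _).trans (abs_le_of_sq_le_sq h3 (by positivity))

/-- the entries of an element of `SL(2,ℤ)` -/
def ent (τ : SL(2, ℤ)) : ℤ × ℤ × ℤ × ℤ := (τ 0 0, τ 0 1, τ 1 0, τ 1 1)

lemma ent_inj : Function.Injective ent := by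
  intro σ τ h
  unfold ent at h
  simp only [Prod.mk.injEq] at h
  obtain ⟨h1, h2, h3, h4⟩ := h
  apply Subtype.ext
  ext i j
  fin_cases i <;> fin_cases j
  · exact h1
  · exact h2
  · exact h3
  · exact h4

/-- `τ` is scalar -/
def Sc (τ : SL(2, ℤ)) : Prop := τ 0 1 = 0 ∧ τ 1 0 = 0 ∧ τ 0 0 = τ 1 1

lemma Sc_cases {τ : SL(2, ℤ)} (h : Sc τ) : τ = 1 ∨ τ = -1 := by
  obtain ⟨h1, h2, h3⟩ := h
  have hdet := Matrix.SpecialLinearGroup.det_coe τ
  rw [Matrix.det_fin_two, h1, h2, h3, mul_zero, sub_zero] at hdet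
  have h4 : τ 1 1 = 1 ∨ τ 1 1 = -1 := by
    have : τ 1 1 * τ 1 1 = 1 := hdet
    exact Int.isUnit_iff.1 (IsUnit.of_mul_eq_one _ this)
  rcases h4 with h4 | h4
  · left
    apply Subtype.ext
    ext i j
    fin_cases i <;> fin_cases j
    · exact h3.trans h4
    · exact h1
    · exact h2
    · exact h4
  · right
    apply Subtype.ext
    ext i j
    fin_cases i <;> fin_cases j
    · exact h3.trans h4
    · simpa using h1
    · simpa using h2
    · exact h4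

/-- the geometric side -/
theorem geo {N : ℕ} (hN : 0 < N) {n M : ℕ} {Y A : ℝ} (hY : 1 ≤ Y) (hA : 0 ≤ A)
    (φ : SL(2, ℤ) → ℝ) (h1 : ∀ τ, φ τ ≤ n)
    (h2 : ∀ τ, φ τ ≤ A * (lev N (red N τ) : ℝ)) :
    ∫⁻ z in 𝒟ᵒ ∩ (cuspRegion Y)ᶜ, ∑' δ : SL(2, ℤ), ENNReal.ofReal (φ δ) * k2 M z (δ • z) ≤
      ENNReal.ofReal (192 * n * M + 48 * M * A *
        (10560 * Real.exp M ^ 6 * (N.divisors.card * (1 + Real.log (2 * Real.exp M * Y))))) := by
  classical
  have hE : 1 ≤ Real.exp (M : ℝ) := Real.one_le_exp (by positivity)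
  have hms : MeasurableSet (𝒟ᵒ ∩ (cuspRegion Y)ᶜ : Set ℍ) :=
    isOpen_fdo.measurableSet.inter (measurableSet_cuspRegion Y).compl
  rw [lintegral_tsum fun δ => ((measurable_k2_smul M δ).const_mul _).aemeasurable]
  have hvol : volume (𝒟ᵒ ∩ (cuspRegion Y)ᶜ : Set ℍ) ≤ ENNReal.ofReal 2 :=
    (measure_mono Set.inter_subset_left).trans G3.vol_fdo
  have him : ∀ z ∈ (𝒟ᵒ ∩ (cuspRegion Y)ᶜ : Set ℍ), z.im ≤ Y := by
    rintro z ⟨_, hz⟩
    by_contra hcon
    push Not at hcon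
    exact hz ⟨1, by rw [one_smul]; exact hcon⟩
  have key : ∀ δ : SL(2, ℤ), ∫⁻ z in 𝒟ᵒ ∩ (cuspRegion Y)ᶜ, ENNReal.ofReal (φ δ) * k2 M z (δ • z) ≤
      (if Sc δ then ENNReal.ofReal (96 * n * M) else 0) +
      ENNReal.ofReal (48 * M * A) * (if (ent δ).2.1 = 0 ∧ (ent δ).2.2.1 = 0 ∧
        (ent δ).1 = (ent δ).2.2.2 then 0 else
        (G3.lv N (ent δ).1 (ent δ).2.1 (ent δ).2.2.1 (ent δ).2.2.2 : ℝ≥0∞) *
        volume (G3.SS (Real.exp M) Y (ent δ).1 (ent δ).2.1 (ent δ).2.2.1 (ent δ).2.2.2)) := by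
    intro δ
    rw [lintegral_const_mul _ (measurable_k2_smul M δ)]
    by_cases hs : Sc δ
    · rw [if_pos hs]
      refine le_trans ?_ le_self_add
      calc ENNReal.ofReal (φ δ) * ∫⁻ z in 𝒟ᵒ ∩ (cuspRegion Y)ᶜ, k2 M z (δ • z)
          ≤ ENNReal.ofReal n * ∫⁻ z in 𝒟ᵒ ∩ (cuspRegion Y)ᶜ, ENNReal.ofReal (48 * M) :=
            mul_le_mul' (ENNReal.ofReal_le_ofReal (h1 δ)) (lintegral_mono fun z => k2_le M _ _)
        _ ≤ ENNReal.ofReal n * (ENNReal.ofReal (48 * M) * ENNReal.ofReal 2) := by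
            rw [lintegral_const, Measure.restrict_apply_univ]
            gcongr
        _ = ENNReal.ofReal (96 * n * M) := by
            rw [← ENNReal.ofReal_mul (by positivity), ← ENNReal.ofReal_mul (by positivity)]
            congr 1
            ring
    · have hs' : ¬ ((ent δ).2.1 = 0 ∧ (ent δ).2.2.1 = 0 ∧ (ent δ).1 = (ent δ).2.2.2) := hs
      rw [if_neg hs, if_neg hs', zero_add]
      have h3 : ∫⁻ z in 𝒟ᵒ ∩ (cuspRegion Y)ᶜ, k2 M z (δ • z) ≤ ENNReal.ofReal (48 * M) *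
          volume (G3.SS (Real.exp M) Y (δ 0 0) (δ 0 1) (δ 1 0) (δ 1 1)) := by
        have h4 : ∀ z ∈ (𝒟ᵒ ∩ (cuspRegion Y)ᶜ : Set ℍ), k2 M z (δ • z) ≤
            (toMeasurable volume (G3.SS (Real.exp M) Y (δ 0 0) (δ 0 1) (δ 1 0) (δ 1 1))).indicator
              (fun _ => ENNReal.ofReal (48 * M)) z := by
          intro z hz
          by_cases hd : dist z (δ • z) ≤ 2 * M
          · have hmem : z ∈ G3.SS (Real.exp M) Y (δ 0 0) (δ 0 1) (δ 1 0) (δ 1 1) := by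
              have h5 := G4.mem_SS (h := (δ : SL(2, ℝ))) (z := z) (L := 2 * M) (D := 1) (Y := Y)
                (a := δ 0 0) (b := δ 0 1) (c := δ 1 0) (d := δ 1 1) (by simp) (by simp) (by simp)
                (by simp) hz.1 (him z hz) (by rw [dist_comm]; exact hd)
              rw [one_mul] at h5
              have e : (2 * (M : ℝ) / 2) = M := by ring
              rw [e] at h5
              exact h5
            rw [Set.indicator_of_mem (subset_toMeasurable _ _ hmem)]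
            exact k2_le M _ _
          · rw [k2_zero M hd]
            exact zero_le
        refine (setLIntegral_mono' hms h4).trans ?_
        refine (setLIntegral_le_lintegral _ _).trans ?_
        rw [lintegral_indicator (measurableSet_toMeasurable _ _), lintegral_const,
          Measure.restrict_apply_univ, measure_toMeasurable]
      have h6 : ENNReal.ofReal (φ δ) ≤ ENNReal.ofReal A *
          (G3.lv N (δ 0 0) (δ 0 1) (δ 1 0) (δ 1 1) : ℝ≥0∞) := by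
        rw [← ENNReal.ofReal_natCast, ← ENNReal.ofReal_mul hA]
        apply ENNReal.ofReal_le_ofReal
        refine (h2 δ).trans (mul_le_mul_of_nonneg_left ?_ hA)
        have := G4.lev_le hN δ (a := δ 0 0) (b := δ 0 1) (c := δ 1 0) (d := δ 1 1) (m := 1)
          (by simp) (by simp) (by simp) (by simp)
        exact_mod_cast this
      calc ENNReal.ofReal (φ δ) * ∫⁻ z in 𝒟ᵒ ∩ (cuspRegion Y)ᶜ, k2 M z (δ • z)
          ≤ (ENNReal.ofReal A * (G3.lv N (δ 0 0) (δ 0 1) (δ 1 0) (δ 1 1) : ℝ≥0∞)) *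
            (ENNReal.ofReal (48 * M) *
              volume (G3.SS (Real.exp M) Y (δ 0 0) (δ 0 1) (δ 1 0) (δ 1 1))) := mul_le_mul' h6 h3
        _ = _ := by
            rw [ENNReal.ofReal_mul (by positivity : (0 : ℝ) ≤ 48 * M)]
            unfold ent
            ring
  refine (ENNReal.tsum_le_tsum key).trans ?_
  rw [ENNReal.tsum_add, ENNReal.tsum_mul_left]
  have s1 : ∑' δ : SL(2, ℤ), (if Sc δ then ENNReal.ofReal (96 * n * M) else 0) ≤
      ENNReal.ofReal (192 * n * M) := by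
    have hsup : ∀ δ : SL(2, ℤ), δ ∉ ({1, -1} : Finset SL(2, ℤ)) →
        (if Sc δ then ENNReal.ofReal (96 * n * M) else 0) = 0 := by
      intro δ hδ
      rw [if_neg]
      intro h
      apply hδ
      rcases Sc_cases h with h | h <;> simp [h]
    rw [tsum_eq_sum hsup]
    have hb : ∀ δ ∈ ({1, -1} : Finset SL(2, ℤ)), (if Sc δ then ENNReal.ofReal (96 * n * M) else 0) ≤
        ENNReal.ofReal (96 * n * M) := by
      intro δ _
      split_ifs
      · exact le_rfl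
      · exact zero_le
    refine (Finset.sum_le_sum hb).trans ?_
    rw [Finset.sum_const, nsmul_eq_mul]
    calc ((({1, -1} : Finset SL(2, ℤ)).card : ℕ) : ℝ≥0∞) * ENNReal.ofReal (96 * n * M)
        ≤ 2 * ENNReal.ofReal (96 * n * M) := by
          gcongr
          exact_mod_cast Finset.card_le_two
      _ = ENNReal.ofReal (192 * n * M) := by
          rw [← ENNReal.ofReal_ofNat, ← ENNReal.ofReal_mul (by norm_num)]
          congr 1
          ring
  have s2 := (ENNReal.tsum_comp_le_tsum_of_injective ent_inj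
    (fun p : ℤ × ℤ × ℤ × ℤ => (if p.2.1 = 0 ∧ p.2.2.1 = 0 ∧ p.1 = p.2.2.2 then 0 else
      (G3.lv N p.1 p.2.1 p.2.2.1 p.2.2.2 : ℝ≥0∞) *
        volume (G3.SS (Real.exp M) Y p.1 p.2.1 p.2.2.1 p.2.2.2)))).trans (G3.geo_sum hN hE hY)
  rw [ENNReal.ofReal_add (by positivity)]
  · refine add_le_add s1 ?_
    rw [ENNReal.ofReal_mul (by positivity : (0 : ℝ) ≤ 48 * M * A)]
    exact mul_le_mul' le_rfl s2
  · have h7 : 0 ≤ Real.log (2 * Real.exp M * Y) := Real.log_nonneg (by nlinarith)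
    positivity

end E1

end

end Pool.Agent.XE31
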