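import Pool.Agent.XE31.E1

/-!
# The final inequality for cuspidal eigenvectors, conclusion
-/

set_option autoImplicit false

open UpperHalfPlane MeasureTheory Metric ModularGroup CongruenceSubgroup
open scoped MatrixGroups ENNReal Modular Topology NNReal ComplexConjugate

namespace Pool.Agent.XE31

open Pool.Agent.H369R2 Pool.Agent.N799.DT

noncomputable section

namespace E2

open M1 M2 M3 K2 K3 E1

/-- the error term -/
theorem err : ∃ C : ℝ, 0 < C ∧ ∀ N M : ℕ, 1 ≤ N →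
    (N : ℝ) ^ (-(1 / 10) : ℝ) * (Real.exp M ^ 6 *
      (N.divisors.card * (1 + Real.log (2 * Real.exp M * (200 * N))))) ≤
      C * (Real.exp (7 * M) * (N : ℝ) ^ (-(3 / 40) : ℝ)) := by
  obtain ⟨C, hC, hdiv⟩ := Pool.Agent.H369R2.divisor_bound (1 / 80) (by norm_num)
  refine ⟨C * 88, by positivity, fun N M hN => ?_⟩
  have hN1 : (1 : ℝ) ≤ N := by exact_mod_cast hN
  have hN0 : (0 : ℝ) < N := by linarith
  have h1 := hdiv N hN
  obtain ⟨x, hx⟩ : ∃ x, x = (N : ℝ) ^ (1 / 80 : ℝ) := ⟨_, rfl⟩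
  have hx1 : 1 ≤ x := by rw [hx]; exact Real.one_le_rpow hN1 (by norm_num)
  have hM0 : (0 : ℝ) ≤ M := by positivity
  have h2 : 1 + Real.log (2 * Real.exp M * (200 * N)) ≤ 88 * (Real.exp M * x) := by
    have e1 : Real.log (2 * Real.exp M * (200 * N)) = Real.log 400 + M + Real.log N := by
      rw [show 2 * Real.exp (M : ℝ) * (200 * N) = 400 * Real.exp M * N by ring,
        Real.log_mul (by positivity) (by positivity), Real.log_mul (by norm_num) (by positivity),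
        Real.log_exp]
    have e2 : Real.log 400 ≤ 6 := by
      have h3 : (400 : ℝ) ≤ Real.exp 1 ^ 6 := by
        have h4 := Real.exp_one_gt_d9
        have h5 : (2.7182818283 : ℝ) ^ 6 ≤ Real.exp 1 ^ 6 :=
          pow_le_pow_left₀ (by norm_num) h4.le 6
        refine le_trans ?_ h5
        norm_num
      have h6 := Real.log_le_log (by norm_num) h3
      rw [Real.log_pow, Real.log_exp] at h6
      norm_num at h6
      exact h6
    have e3 : Real.log N ≤ 80 * x := by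
      have := Real.log_le_rpow_div hN0.le (ε := 1 / 80) (by norm_num)
      rw [hx]
      linarith
    have e4 := Real.add_one_le_exp (M : ℝ)
    have e5 : 1 ≤ Real.exp (M : ℝ) := Real.one_le_exp hM0
    rw [e1]
    have e6 : 80 * x ≤ 80 * (Real.exp M * x) := by nlinarith
    have e7 : (M : ℝ) ≤ Real.exp M * x := by nlinarith
    have e8 : 1 ≤ Real.exp M * x := by nlinarith
    linarith
  have h3 : Real.exp M ^ 6 * Real.exp M = Real.exp (7 * M) := by
    rw [← Real.exp_nat_mul, ← Real.exp_add]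
    congr 1
    push_cast
    ring
  have h4 : (N : ℝ) ^ (-(1 / 10) : ℝ) * (x * x) = (N : ℝ) ^ (-(3 / 40) : ℝ) := by
    rw [hx, ← Real.rpow_add hN0, ← Real.rpow_add hN0]
    norm_num
  rw [← hx] at h1
  have hlog : 0 ≤ 1 + Real.log (2 * Real.exp M * (200 * N)) := by
    have : 0 ≤ Real.log (2 * Real.exp M * (200 * N)) := by
      apply Real.log_nonneg
      have : 1 ≤ Real.exp (M : ℝ) := Real.one_le_exp hM0
      nlinarith
    linarith
  calc (N : ℝ) ^ (-(1 / 10) : ℝ) * (Real.exp M ^ 6 *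
      (N.divisors.card * (1 + Real.log (2 * Real.exp M * (200 * N)))))
      ≤ (N : ℝ) ^ (-(1 / 10) : ℝ) * (Real.exp M ^ 6 * ((C * x) * (88 * (Real.exp M * x)))) := by
        gcongr
    _ = C * 88 * ((Real.exp M ^ 6 * Real.exp M) * ((N : ℝ) ^ (-(1 / 10) : ℝ) * (x * x))) := by
        ring
    _ = _ := by rw [h3, h4]

/-- the inequality for cuspidal eigenvectors -/
theorem final_EV : ∃ C : ℝ, 0 < C ∧ ∀ (Γ : Subgroup SL(2, ℤ)) (N : ℕ), IsLevel Γ N →
    ∀ (k : ℕ) (ν : Fin k → ℝ) (φ : Fin k → LW N), (∀ i, 0 ≤ ν i) →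
      (∀ i, φ i ∈ EV N Γ (lam (ν i))) → LinearIndependent ℂ φ →
      ∑ i, (Γ.index : ℝ) ^ (ν i / 840) ≤ C * Γ.index / (1 + Real.log Γ.index) ^ 3 := by
  obtain ⟨C₁, hC₁, hfix⟩ := fix_lin
  obtain ⟨C₂, hC₂, herr⟩ := err
  obtain ⟨C₃, hC₃⟩ : ∃ C₃ : ℝ, C₃ = 576 + 1520640 * C₁ * C₂ * Real.exp 21 := ⟨_, rfl⟩
  have hC₃0 : 0 < C₃ := by rw [hC₃]; positivity
  refine ⟨16384 * C₃ * 841 ^ 3, by positivity, fun Γ N hN k ν φ hν hφ hli => ?_⟩
  have hN0 := hN.1
  have : NeZero N := ⟨hN0.ne'⟩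
  have hN1 : (1 : ℝ) ≤ N := by exact_mod_cast hN0
  obtain ⟨e, he, hm⟩ := exists_orthonormal hN0 (fun i => lam (ν i)) φ hφ hli
  have hfin : Γ.FiniteIndex := Subgroup.finiteIndex_of_le hN.2.1
  have hn0 : 0 < Γ.index := Nat.pos_of_ne_zero hfin.index_ne_zero
  have hn1 : (1 : ℝ) ≤ Γ.index := by exact_mod_cast hn0
  obtain ⟨n, hn⟩ : ∃ n : ℝ, n = Γ.index := ⟨_, rfl⟩
  rw [← hn] at hn1 ⊢
  have hnpos : 0 < n := by linarith
  have hlog : 0 ≤ Real.log n := Real.log_nonneg hn1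
  -- the parameter
  obtain ⟨K, hK⟩ : ∃ K : ℕ, K = ⌊Real.log n / 840⌋₊ + 1 := ⟨_, rfl⟩
  have hK1 : 1 ≤ K := by omega
  have hKr1 : (1 : ℝ) ≤ K := by exact_mod_cast hK1
  have hKlo : Real.log n / 840 ≤ K := by
    rw [hK]
    push_cast
    exact (Nat.lt_floor_add_one _).le
  have hKhi : (K : ℝ) ≤ Real.log n / 840 + 1 := by
    rw [hK]
    push_cast
    linarith [Nat.floor_le (a := Real.log n / 840) (by positivity)]
  -- the mass
  have hexp3 : Real.exp 3 ≤ 200 := by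
    have h4 := Real.exp_one_lt_d9
    have h3 : Real.exp 3 = Real.exp 1 ^ 3 := by rw [← Real.exp_nat_mul]; norm_num
    rw [h3]
    have h5 : Real.exp 1 ^ 3 ≤ (2.7182818286 : ℝ) ^ 3 :=
      pow_le_pow_left₀ (Real.exp_pos 1).le h4.le 3
    refine h5.trans ?_
    norm_num
  have hmass : ∀ i, ENNReal.ofReal (1 / 2) ≤
      ∫⁻ z in (cuspRegion (200 * N))ᶜ, ‖(e i : ℍ → ℂ) z‖ₑ ^ 2 ∂(nu N) := by
    intro i
    have b1 := bv_lower (le_refl 3)
    have b2 := L1.lam_ge (hν i) (le_refl 3)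
    have b3 : 3 / 32 * Real.exp (-(3 / 2)) ≤ lam (ν i) 3 := by
      refine le_trans ?_ b2
      have : 1 ≤ Real.exp (ν i * 3 / 4) := Real.one_le_exp (by have := hν i; positivity)
      nlinarith [Real.exp_pos (-(3 / 2))]
    have hl0 : 0 < lam (ν i) 3 := lt_of_lt_of_le (by positivity) b3
    have b4 : 3 / 256 * Real.exp (3 / 2) ≤ bv 3 * lam (ν i) 3 := by
      calc 3 / 256 * Real.exp (3 / 2) = Real.exp 3 / 8 * (3 / 32 * Real.exp (-(3 / 2))) := by
            have : Real.exp (3 / 2) = Real.exp 3 * Real.exp (-(3 / 2)) := by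
              rw [← Real.exp_add]; congr 1; norm_num
            rw [this]; ring
        _ ≤ bv 3 * lam (ν i) 3 := mul_le_mul b1 b3 (by positivity) (bv_nonneg 3)
    have b5 : 9 / 65536 * Real.exp 3 ≤ (bv 3 * lam (ν i) 3) ^ 2 := by
      calc 9 / 65536 * Real.exp 3 = (3 / 256 * Real.exp (3 / 2)) ^ 2 := by
            have : Real.exp 3 = Real.exp (3 / 2) ^ 2 := by
              rw [← Real.exp_nat_mul]; congr 1; norm_num
            rw [this]; ring
        _ ≤ _ := pow_le_pow_left₀ (by positivity) b4 2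
    have h6 := half hN0 (R := 3) (by norm_num) hl0.ne' (hm i) (Y := 200 * N)
      (by nlinarith) (by
        refine le_trans ?_ b5
        have : 2 * ((N : ℝ) ^ 2 * Real.exp 3 / (200 * N) ^ 2) = 2 / 40000 * Real.exp 3 := by
          field_simp
          norm_num
        rw [this]
        have := Real.exp_pos 3
        nlinarith)
    rw [he.1 i, one_pow] at h6
    exact h6
  have h1 := K3.trace hN0 hN.2.1 (fun i => lam (ν i)) e he hm (3 * K) hmass
  -- the geometric side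
  have hNpow : (N : ℝ) ^ (-(1 / 10) : ℝ) ≤ 1 := by
    apply Real.rpow_le_one_of_one_le_of_nonpos hN1 (by norm_num)
  have h2 := E1.geo hN0 (n := Γ.index) (M := 3 * K) (Y := 200 * N)
    (A := C₁ * n * (N : ℝ) ^ (-(1 / 10) : ℝ)) (by nlinarith) (by positivity)
    (fun τ => (fix Γ τ : ℝ)) (fun τ => by exact_mod_cast fix_le_index hfin τ)
    (fun τ => by
      refine (hfix Γ N hN τ).trans (le_of_eq ?_)
      rw [← hn]
      ring)
  have e0 : ∀ δ : SL(2, ℤ), ENNReal.ofReal (fix Γ δ : ℝ) = (fix Γ δ : ℝ≥0∞) :=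
    fun δ => ENNReal.ofReal_natCast _
  simp only [e0] at h2
  have h3 := h1.trans h2
  rw [← ENNReal.ofReal_sum_of_nonneg fun i _ => sq_nonneg _] at h3
  have hbig0 : 0 ≤ 192 * (Γ.index : ℝ) * (3 * K : ℕ) + 48 * (3 * K : ℕ) *
      (C₁ * n * (N : ℝ) ^ (-(1 / 10) : ℝ)) * (10560 * Real.exp (3 * K : ℕ) ^ 6 *
        (N.divisors.card * (1 + Real.log (2 * Real.exp (3 * K : ℕ) * (200 * N))))) := by
    have hl : 0 ≤ Real.log (2 * Real.exp (3 * K : ℕ) * (200 * N)) := by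
      apply Real.log_nonneg
      have : 1 ≤ Real.exp ((3 * K : ℕ) : ℝ) := Real.one_le_exp (by positivity)
      nlinarith
    positivity
  rw [ENNReal.ofReal_le_ofReal_iff hbig0] at h3
  have h4 := herr N (3 * K) hN0
  have h5 : Real.exp (7 * (3 * K : ℕ)) * (N : ℝ) ^ (-(3 / 40) : ℝ) ≤ Real.exp 21 := by
    have hNn : Real.log n ≤ 3 * Real.log N := by
      have i1 : Γ.index ≤ N ^ 3 := by
        have i2 := Pool.Agent.H369R2.index_Gamma_le N hN0.ne'
        have i3 : Γ.index ≤ (Gamma N).index :=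
          Nat.le_of_dvd (Nat.pos_of_ne_zero Subgroup.FiniteIndex.index_ne_zero)
            (Subgroup.index_dvd_of_le hN.2.1)
        exact i3.trans i2
      have i4 : n ≤ (N : ℝ) ^ 3 := by rw [hn]; exact_mod_cast i1
      have i5 := Real.log_le_log hnpos i4
      rw [Real.log_pow] at i5
      exact_mod_cast i5
    rw [Real.rpow_def_of_pos (by linarith), ← Real.exp_add]
    apply Real.exp_le_exp.2
    push_cast
    nlinarith
  have h6 : ∑ i, hh (lam (ν i)) (3 * K) ^ 2 ≤ C₃ * n * K := by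
    refine h3.trans ?_
    rw [← hn]
    calc 192 * n * ((3 * K : ℕ) : ℝ) + 48 * ((3 * K : ℕ) : ℝ) *
        (C₁ * n * (N : ℝ) ^ (-(1 / 10) : ℝ)) * (10560 * Real.exp ((3 * K : ℕ) : ℝ) ^ 6 *
        (N.divisors.card * (1 + Real.log (2 * Real.exp ((3 * K : ℕ) : ℝ) * (200 * N)))))
        = 576 * n * K + 1520640 * C₁ * n * K * ((N : ℝ) ^ (-(1 / 10) : ℝ) *
          (Real.exp ((3 * K : ℕ) : ℝ) ^ 6 *
          (N.divisors.card * (1 + Real.log (2 * Real.exp ((3 * K : ℕ) : ℝ) * (200 * N)))))) := by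
          push_cast
          ring
      _ ≤ 576 * n * K + 1520640 * C₁ * n * K * (C₂ * Real.exp 21) := by
          have := h4.trans (mul_le_mul_of_nonneg_left h5 hC₂.le)
          gcongr
      _ = C₃ * n * K := by rw [hC₃]; ring
  have h7 : ∀ i, (K : ℝ) ^ 4 / 16384 * n ^ (ν i / 840) ≤ hh (lam (ν i)) (3 * K) ^ 2 := by
    intro i
    have i1 := K3.hh_ge (hν i) hK1
    have i2 : ((K : ℝ) ^ 2 / 128 * Real.exp (ν i * K / 2)) ^ 2 ≤ hh (lam (ν i)) (3 * K) ^ 2 :=
      pow_le_pow_left₀ (by positivity) i1 2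
    refine le_trans ?_ i2
    have i3 : Real.exp (ν i * K / 2) ^ 2 = Real.exp (ν i * K) := by
      rw [← Real.exp_nat_mul]; congr 1; push_cast; ring
    have i4 : n ^ (ν i / 840) ≤ Real.exp (ν i * K) := by
      rw [Real.rpow_def_of_pos hnpos]
      apply Real.exp_le_exp.2
      calc Real.log n * (ν i / 840) = ν i * (Real.log n / 840) := by ring
        _ ≤ ν i * K := mul_le_mul_of_nonneg_left hKlo (hν i)
    rw [mul_pow, i3]
    calc (K : ℝ) ^ 4 / 16384 * n ^ (ν i / 840) ≤ (K : ℝ) ^ 4 / 16384 * Real.exp (ν i * K) := by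
          gcongr
      _ = _ := by ring
  have h8 : (K : ℝ) ^ 4 / 16384 * ∑ i, n ^ (ν i / 840) ≤ C₃ * n * K := by
    rw [Finset.mul_sum]
    exact (Finset.sum_le_sum fun i _ => h7 i).trans h6
  have hK0 : (0 : ℝ) < K := by linarith
  have h9 : (K : ℝ) ^ 3 * ∑ i, n ^ (ν i / 840) ≤ 16384 * C₃ * n := by
    have i1 : (K : ℝ) * ((K : ℝ) ^ 3 * ∑ i, n ^ (ν i / 840)) ≤ K * (16384 * C₃ * n) := by
      calc (K : ℝ) * ((K : ℝ) ^ 3 * ∑ i, n ^ (ν i / 840))
          = 16384 * ((K : ℝ) ^ 4 / 16384 * ∑ i, n ^ (ν i / 840)) := by ring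
        _ ≤ 16384 * (C₃ * n * K) := by gcongr
        _ = _ := by ring
    exact le_of_mul_le_mul_left i1 hK0
  have h10 : 1 + Real.log n ≤ 841 * K := by linarith
  have hl1 : 0 < 1 + Real.log n := by linarith
  rw [le_div_iff₀ (by positivity)]
  have hS0 : 0 ≤ ∑ i, n ^ (ν i / 840) := Finset.sum_nonneg fun i _ => by positivity
  calc (∑ i, n ^ (ν i / 840)) * (1 + Real.log n) ^ 3
      ≤ (∑ i, n ^ (ν i / 840)) * (841 * K) ^ 3 := by gcongr
    _ = 841 ^ 3 * ((K : ℝ) ^ 3 * ∑ i, n ^ (ν i / 840)) := by ring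
    _ ≤ 841 ^ 3 * (16384 * C₃ * n) := by gcongr
    _ = 16384 * C₃ * 841 ^ 3 * n := by ring

end E2

end

end Pool.Agent.XE31
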