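import Mathlib

/-!
# Quadratic congruences and values of binary quadratic forms prime to `M`
-/

set_option autoImplicit false

namespace Pool.Agent.XE31

namespace F1

/-- the number of elements of `ZMod (ℓ * M)` with a given residue modulo `M` -/
theorem card_fibre {ℓ M : ℕ} [NeZero (ℓ * M)] (s : Finset (ZMod (ℓ * M)))
    (h : ∀ x ∈ s, ∀ y ∈ s, ZMod.castHom (dvd_mul_left M ℓ) (ZMod M) x =
      ZMod.castHom (dvd_mul_left M ℓ) (ZMod M) y) : s.card ≤ ℓ := by
  classical
  have hpos : 0 < ℓ * M := Nat.pos_of_ne_zero (NeZero.ne _)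
  have hM : 0 < M := Nat.pos_of_mul_pos_left hpos
  have hℓ : 0 < ℓ := Nat.pos_of_mul_pos_right hpos
  have hmod : ∀ x ∈ s, ∀ y ∈ s, x.val % M = y.val % M := by
    intro x hx y hy
    have h1 := h x hx y hy
    rw [← ZMod.natCast_zmod_val x, ← ZMod.natCast_zmod_val y, map_natCast, map_natCast,
      ZMod.natCast_eq_natCast_iff] at h1
    exact h1
  have : s.card ≤ (Finset.range ℓ).card := by
    refine Finset.card_le_card_of_injOn (fun x => x.val / M) ?_ ?_
    · intro x _
      simp only [Finset.coe_range, Set.mem_Iio]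
      rw [Nat.div_lt_iff_lt_mul hM]
      exact ZMod.val_lt x
    · intro x hx y hy hxy
      have h1 := hmod x hx y hy
      simp only at hxy
      apply ZMod.val_injective
      rw [← Nat.div_add_mod x.val M, ← Nat.div_add_mod y.val M, hxy, h1]
  simpa using this

/-- the roots `y` of `y (u y + B)`, with `gcd (y, M) = g` -/
theorem roots_gcd (M : ℕ) [NeZero M] (u B : ZMod M) (hu : IsUnit u) (g : ℕ) :
    (Finset.univ.filter (fun y : ZMod M => y * (u * y + B) = 0 ∧ Nat.gcd y.val M = g)).card ≤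
      Nat.sqrt M := by
  classical
  set s := Finset.univ.filter (fun y : ZMod M => y * (u * y + B) = 0 ∧ Nat.gcd y.val M = g)
    with hs
  rcases s.eq_empty_or_nonempty with he | ⟨y0, hy0⟩
  · rw [he]; simp
  have hM : 0 < M := Nat.pos_of_ne_zero (NeZero.ne _)
  have hgM : g ∣ M := by
    have := (Finset.mem_filter.1 hy0).2.2
    rw [← this]
    exact Nat.gcd_dvd_right _ _
  obtain ⟨k, hk⟩ := hgM
  have hg0 : 0 < g := by
    rcases Nat.eq_zero_or_pos g with h | h
    · rw [h, zero_mul] at hk; omega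
    · exact h
  have hk0 : 0 < k := by
    rcases Nat.eq_zero_or_pos k with h | h
    · rw [h, mul_zero] at hk; omega
    · exact h
  -- modulo `k`
  have hmodk : ∀ y ∈ s, (k : ℤ) ∣ (u.val : ℤ) * y.val + B.val := by
    intro y hy
    obtain ⟨h1, h2⟩ := (Finset.mem_filter.1 hy).2
    have h3 : (M : ℤ) ∣ (y.val : ℤ) * ((u.val : ℤ) * y.val + B.val) := by
      rw [← ZMod.intCast_zmod_eq_zero_iff_dvd]
      push_cast
      simp only [ZMod.natCast_val, ZMod.cast_id', id_eq]
      exact h1
    obtain ⟨y', hy'⟩ : g ∣ y.val := by rw [← h2]; exact Nat.gcd_dvd_left _ _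
    have h4 : Nat.Coprime y' k := by
      have h5 : Nat.gcd (g * y') (g * k) = g := by rw [← hy', ← hk, h2]
      rw [Nat.gcd_mul_left] at h5
      have := Nat.eq_of_mul_eq_mul_left hg0 (h5.trans (mul_one g).symm)
      exact this
    obtain ⟨W, hW⟩ : ∃ W : ℤ, W = (u.val : ℤ) * y.val + B.val := ⟨_, rfl⟩
    rw [← hW] at h3 ⊢
    have h3' : ((g * k : ℕ) : ℤ) ∣ ((g * y' : ℕ) : ℤ) * W := by
      rw [← hk, ← hy']
      exact h3
    push_cast at h3'
    rw [mul_assoc, mul_dvd_mul_iff_left (by exact_mod_cast hg0.ne')] at h3'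
    have h6 : IsCoprime (k : ℤ) (y' : ℤ) := (Nat.isCoprime_iff_coprime.2 h4).symm
    exact h6.dvd_of_dvd_mul_left h3'
  have hdiff : ∀ y ∈ s, (k : ℤ) ∣ (y.val : ℤ) - y0.val := by
    intro y hy
    have h1 := dvd_sub (hmodk y hy) (hmodk y0 hy0)
    have h2 : (u.val : ℤ) * y.val + B.val - ((u.val : ℤ) * y0.val + B.val) =
        (u.val : ℤ) * ((y.val : ℤ) - y0.val) := by ring
    rw [h2] at h1
    have h3 : Nat.Coprime u.val M := by
      have := ZMod.val_coe_unit_coprime hu.unit
      rwa [IsUnit.unit_spec] at this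
    have h4 : Nat.Coprime u.val k := Nat.Coprime.coprime_dvd_right ⟨g, by rw [hk]; ring⟩ h3
    have h5 : IsCoprime (k : ℤ) (u.val : ℤ) := (Nat.isCoprime_iff_coprime.2 h4).symm
    exact h5.dvd_of_dvd_mul_left h1
  have hdiff2 : ∀ y ∈ s, (g : ℤ) ∣ (y.val : ℤ) - y0.val := by
    intro y hy
    have h1 : g ∣ y.val := by
      rw [← (Finset.mem_filter.1 hy).2.2]; exact Nat.gcd_dvd_left _ _
    have h2 : g ∣ y0.val := by
      rw [← (Finset.mem_filter.1 hy0).2.2]; exact Nat.gcd_dvd_left _ _
    exact dvd_sub (by exact_mod_cast h1) (by exact_mod_cast h2)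
  set L := Nat.lcm g k with hL
  set e := Nat.gcd g k with he
  have heL : e * L = M := by rw [he, hL, Nat.gcd_mul_lcm, ← hk]
  have hL0 : 0 < L := Nat.lcm_pos hg0 hk0
  have hLd : ∀ y ∈ s, (L : ℤ) ∣ (y.val : ℤ) - y0.val := by
    intro y hy
    rw [Int.natCast_dvd, hL]
    exact Nat.lcm_dvd (Int.natCast_dvd.1 (hdiff2 y hy)) (Int.natCast_dvd.1 (hdiff y hy))
  have hcard : s.card ≤ (Finset.range e).card := by
    refine Finset.card_le_card_of_injOn (fun x => x.val / L) ?_ ?_
    · intro x _
      simp only [Finset.coe_range, Set.mem_Iio]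
      rw [Nat.div_lt_iff_lt_mul hL0, heL]
      exact ZMod.val_lt x
    · intro x hx y hy hxy
      have h1 : x.val % L = y.val % L := by
        have a := dvd_sub (hLd y hy) (hLd x hx)
        rw [sub_sub_sub_cancel_right] at a
        exact (Nat.modEq_iff_dvd.2 a)
      simp only at hxy
      apply ZMod.val_injective
      rw [← Nat.div_add_mod x.val L, ← Nat.div_add_mod y.val L, hxy, h1]
  rw [Finset.card_range] at hcard
  refine hcard.trans ?_
  rw [Nat.le_sqrt, ← heL]
  apply Nat.mul_le_mul_left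
  rw [he, hL]
  exact Nat.le_of_dvd (Nat.lcm_pos hg0 hk0) ((Nat.gcd_dvd_left _ _).trans (Nat.dvd_lcm_left _ _))

/-- the number of roots of a quadratic polynomial with unit leading coefficient -/
theorem quad_roots (M : ℕ) [NeZero M] (u b c : ZMod M) (hu : IsUnit u) :
    (Finset.univ.filter (fun x : ZMod M => u * x ^ 2 + b * x + c = 0)).card ≤
      M.divisors.card * Nat.sqrt M := by
  classical
  set s := Finset.univ.filter (fun x : ZMod M => u * x ^ 2 + b * x + c = 0) with hs
  rcases s.eq_empty_or_nonempty with he | ⟨x0, hx0⟩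
  · rw [he]; simp
  have h0 : u * x0 ^ 2 + b * x0 + c = 0 := (Finset.mem_filter.1 hx0).2
  set B := 2 * u * x0 + b with hB
  set t := Finset.univ.filter (fun y : ZMod M => y * (u * y + B) = 0) with ht
  have h1 : s.card ≤ t.card := by
    refine Finset.card_le_card_of_injOn (fun x => x - x0) ?_ ?_
    · intro x hx
      have hx' : u * x ^ 2 + b * x + c = 0 := (Finset.mem_filter.1 hx).2
      simp only [ht, Finset.coe_filter, Finset.mem_univ, true_and, Set.mem_ofPred_eq]
      rw [hB]
      linear_combination hx' - h0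
    · intro x _ y _ hxy
      exact sub_left_injective hxy
  refine h1.trans ?_
  have h2 : t.card = ∑ g ∈ M.divisors,
      (t.filter (fun y => Nat.gcd y.val M = g)).card := by
    refine Finset.card_eq_sum_card_fiberwise ?_
    intro y _
    simp only [Finset.mem_coe, Nat.mem_divisors]
    exact ⟨Nat.gcd_dvd_right _ _, NeZero.ne _⟩
  rw [h2]
  calc ∑ g ∈ M.divisors, (t.filter (fun y => Nat.gcd y.val M = g)).card
      ≤ ∑ g ∈ M.divisors, Nat.sqrt M := by
        refine Finset.sum_le_sum fun g _ => ?_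
        refine le_trans (le_of_eq ?_) (roots_gcd M u B hu g)
        rw [ht, Finset.filter_filter]
    _ = M.divisors.card * Nat.sqrt M := by rw [Finset.sum_const, smul_eq_mul]

/-- a primitive binary quadratic form takes a value prime to `M` at coprime integers -/
theorem coprime_value (A B C : ℤ) (M : ℕ) (hM : M ≠ 0)
    (h : Int.gcd (M : ℤ) (Int.gcd A (Int.gcd B C)) = 1) :
    ∃ x y : ℤ, IsCoprime x y ∧ IsCoprime (A * x ^ 2 + B * x * y + C * y ^ 2) (M : ℤ) := by
  classical
  set P1 := M.primeFactors.filter (fun p : ℕ => (p : ℤ) ∣ A ∧ ¬ (p : ℤ) ∣ C) with hP1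
  set P2 := M.primeFactors.filter (fun p : ℕ => ¬ (p : ℤ) ∣ A) with hP2
  set x : ℤ := ∏ p ∈ P1, (p : ℤ) with hx
  set y : ℤ := ∏ p ∈ P2, (p : ℤ) with hy
  have hprime : ∀ p ∈ M.primeFactors, Prime (p : ℤ) := fun p hp =>
    Nat.prime_iff_prime_int.1 (Nat.prime_of_mem_primeFactors hp)
  have hdx : ∀ p : ℕ, p ∈ M.primeFactors → ((p : ℤ) ∣ x ↔ p ∈ P1) := by
    intro p hp
    constructor
    · intro h1
      obtain ⟨q, hq, h2⟩ := (Prime.dvd_finsetProd_iff (hprime p hp) _).1 h1
      have hq' : q ∈ M.primeFactors := (Finset.mem_filter.1 hq).1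
      have h3 : p ∣ q := by exact_mod_cast h2
      have h4 := (Nat.prime_dvd_prime_iff_eq (Nat.prime_of_mem_primeFactors hp)
        (Nat.prime_of_mem_primeFactors hq')).1 h3
      rwa [h4]
    · intro h1
      exact Finset.dvd_prod_of_mem _ h1
  have hdy : ∀ p : ℕ, p ∈ M.primeFactors → ((p : ℤ) ∣ y ↔ p ∈ P2) := by
    intro p hp
    constructor
    · intro h1
      obtain ⟨q, hq, h2⟩ := (Prime.dvd_finsetProd_iff (hprime p hp) _).1 h1
      have hq' : q ∈ M.primeFactors := (Finset.mem_filter.1 hq).1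
      have h3 : p ∣ q := by exact_mod_cast h2
      have h4 := (Nat.prime_dvd_prime_iff_eq (Nat.prime_of_mem_primeFactors hp)
        (Nat.prime_of_mem_primeFactors hq')).1 h3
      rwa [h4]
    · intro h1
      exact Finset.dvd_prod_of_mem _ h1
  refine ⟨x, y, ?_, ?_⟩
  · rw [hx, hy]
    refine IsCoprime.prod_left fun p hp => IsCoprime.prod_right fun q hq => ?_
    have hp' := Finset.mem_filter.1 hp
    have hq' := Finset.mem_filter.1 hq
    have hne : p ≠ q := by
      rintro rfl
      exact hq'.2 hp'.2.1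
    exact Nat.isCoprime_iff_coprime.2 ((Nat.coprime_primes
      (Nat.prime_of_mem_primeFactors hp'.1) (Nat.prime_of_mem_primeFactors hq'.1)).2 hne)
  · rw [Int.isCoprime_iff_gcd_eq_one]
    by_contra hcon
    obtain ⟨p, hp, hpd⟩ := Nat.exists_prime_and_dvd hcon
    have hpM : p ∣ M := by
      have : ((p : ℕ) : ℤ) ∣ (M : ℤ) :=
        (Int.natCast_dvd_natCast.2 hpd).trans (Int.gcd_dvd_right _ _)
      exact_mod_cast this
    have hpv : (p : ℤ) ∣ A * x ^ 2 + B * x * y + C * y ^ 2 :=
      (Int.natCast_dvd_natCast.2 hpd).trans (Int.gcd_dvd_left _ _)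
    have hpm : p ∈ M.primeFactors := Nat.mem_primeFactors.2 ⟨hp, hpM, hM⟩
    have hpp := hprime p hpm
    have ex := hdx p hpm
    have ey := hdy p hpm
    by_cases hA : (p : ℤ) ∣ A
    · have hy0 : ¬ (p : ℤ) ∣ y := by
        rw [ey, hP2, Finset.mem_filter]
        push Not
        exact fun _ => hA
      by_cases hC : (p : ℤ) ∣ C
      · have hx0 : ¬ (p : ℤ) ∣ x := by
          rw [ex, hP1, Finset.mem_filter]
          push Not
          exact fun _ _ => hC
        have hBxy : (p : ℤ) ∣ B * x * y := by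
          have h1 : (p : ℤ) ∣ A * x ^ 2 := hA.mul_right _
          have h2 : (p : ℤ) ∣ C * y ^ 2 := hC.mul_right _
          have h3 := dvd_sub (dvd_sub hpv h1) h2
          have h4 : A * x ^ 2 + B * x * y + C * y ^ 2 - A * x ^ 2 - C * y ^ 2 = B * x * y := by
            ring
          rwa [h4] at h3
        have hB : (p : ℤ) ∣ B := by
          rcases hpp.dvd_mul.1 hBxy with h1 | h1
          · rcases hpp.dvd_mul.1 h1 with h2 | h2
            · exact h2
            · exact absurd h2 hx0
          · exact absurd h1 hy0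
        have h5 : (p : ℤ) ∣ ((Int.gcd (M : ℤ) (Int.gcd A (Int.gcd B C)) : ℕ) : ℤ) := by
          refine Int.dvd_coe_gcd (by exact_mod_cast hpM) (Int.dvd_coe_gcd hA ?_)
          exact Int.dvd_coe_gcd hB hC
        rw [h] at h5
        have h6 : p ∣ 1 := by exact_mod_cast h5
        exact hp.one_lt.ne' (Nat.dvd_one.1 h6)
      · have hx1 : (p : ℤ) ∣ x := by
          rw [ex, hP1, Finset.mem_filter]
          exact ⟨hpm, hA, hC⟩
        have h1 : (p : ℤ) ∣ C * y ^ 2 := by
          have h2 : (p : ℤ) ∣ A * x ^ 2 + B * x * y := by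
            have h3 : (p : ℤ) ∣ x * (A * x + B * y) := hx1.mul_right _
            have h4 : x * (A * x + B * y) = A * x ^ 2 + B * x * y := by ring
            rwa [h4] at h3
          have h3 := dvd_sub hpv h2
          rwa [add_sub_cancel_left] at h3
        rcases hpp.dvd_mul.1 h1 with h2 | h2
        · exact hC h2
        · exact hy0 (hpp.dvd_of_dvd_pow h2)
    · have hy1 : (p : ℤ) ∣ y := by
        rw [ey, hP2, Finset.mem_filter]
        exact ⟨hpm, hA⟩
      have hx0 : ¬ (p : ℤ) ∣ x := by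
        rw [ex, hP1, Finset.mem_filter]
        push Not
        exact fun _ h => absurd h hA
      have h1 : (p : ℤ) ∣ A * x ^ 2 := by
        have h2 : (p : ℤ) ∣ B * x * y + C * y ^ 2 := by
          have h3 : (p : ℤ) ∣ y * (B * x + C * y) := hy1.mul_right _
          have h4 : y * (B * x + C * y) = B * x * y + C * y ^ 2 := by ring
          rwa [h4] at h3
        have h3 := dvd_sub hpv h2
        have h4 : A * x ^ 2 + B * x * y + C * y ^ 2 - (B * x * y + C * y ^ 2) = A * x ^ 2 := by
          ring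
        rwa [h4] at h3
      rcases hpp.dvd_mul.1 h1 with h2 | h2
      · exact hA h2
      · exact hx0 (hpp.dvd_of_dvd_pow h2)

end F1

end Pool.Agent.XE31
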