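import Pool.Agent.XE31.F1
import Pool.Agent.N799.DT.Count

/-!
# Products of two elements with the same trace in `SL(2,ℤ/N)`
-/

set_option autoImplicit false

open CongruenceSubgroup ModularGroup
open scoped MatrixGroups

namespace Pool.Agent.XE31

open Pool.Agent.N799.DT

namespace F2

/-- the trace -/
def tr {R : Type*} [CommRing R] (s : SL(2, R)) : R := s 0 0 + s 1 1

theorem tr_inv_mul {R : Type*} [CommRing R] (s g : SL(2, R)) :
    tr (s⁻¹ * g) = s 1 1 * g 0 0 - s 0 1 * g 1 0 - s 1 0 * g 0 1 + s 0 0 * g 1 1 := by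
  unfold tr
  have key : ((s⁻¹ * g : SL(2, R)) : Matrix (Fin 2) (Fin 2) R) =
      !![s 1 1, -s 0 1; -s 1 0, s 0 0] * !![g 0 0, g 0 1; g 1 0, g 1 1] := by
    rw [Matrix.SpecialLinearGroup.coe_mul, Matrix.SpecialLinearGroup.coe_inv,
      Matrix.adjugate_fin_two, ← Matrix.eta_fin_two g.1]
  rw [Matrix.mul_fin_two] at key
  have k00 := congrFun (congrFun key 0) 0
  have k11 := congrFun (congrFun key 1) 1
  simp only [Matrix.of_apply, Matrix.cons_val_zero, Matrix.cons_val_one, Matrix.cons_val',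
    Matrix.cons_val_fin_one] at k00 k11
  rw [k00, k11]
  ring

theorem tr_conj {R : Type*} [CommRing R] (k s : SL(2, R)) : tr (k * s * k⁻¹) = tr s := by
  have h1 : ∀ x : SL(2, R), tr x = Matrix.trace (x : Matrix (Fin 2) (Fin 2) R) := by
    intro x
    rw [Matrix.trace_fin_two]
    rfl
  rw [h1, h1, Matrix.SpecialLinearGroup.coe_mul, Matrix.trace_mul_comm, ← Matrix.SpecialLinearGroup.coe_mul,
    inv_mul_cancel_left]

theorem det_eq {R : Type*} [CommRing R] (s : SL(2, R)) : s 0 0 * s 1 1 - s 0 1 * s 1 0 = 1 := by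
  have := s.2
  rw [Matrix.det_fin_two] at this
  exact this

/-- entries of a conjugate -/
theorem conj_entries {R : Type*} [CommRing R] (k h : SL(2, R)) :
    (k * h * k⁻¹) 1 0 = k 1 0 * k 1 1 * (h 0 0 - h 1 1) + k 1 1 ^ 2 * h 1 0 - k 1 0 ^ 2 * h 0 1 ∧
    (k * h * k⁻¹) 0 1 = k 0 0 ^ 2 * h 0 1 - k 0 1 ^ 2 * h 1 0 -
      k 0 0 * k 0 1 * (h 0 0 - h 1 1) ∧
    (k * h * k⁻¹) 1 1 - (k * h * k⁻¹) 0 0 = -((h 0 0 - h 1 1) * (k 0 0 * k 1 1 + k 0 1 * k 1 0)) -
      2 * k 0 1 * k 1 1 * h 1 0 + 2 * k 0 0 * k 1 0 * h 0 1 := by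
  have key : ((k * h * k⁻¹ : SL(2, R)) : Matrix (Fin 2) (Fin 2) R) =
      !![k 0 0, k 0 1; k 1 0, k 1 1] * !![h 0 0, h 0 1; h 1 0, h 1 1] *
        !![k 1 1, -k 0 1; -k 1 0, k 0 0] := by
    rw [Matrix.SpecialLinearGroup.coe_mul, Matrix.SpecialLinearGroup.coe_mul,
      Matrix.SpecialLinearGroup.coe_inv, Matrix.adjugate_fin_two, ← Matrix.eta_fin_two h.1,
      ← Matrix.eta_fin_two k.1]
  rw [Matrix.mul_fin_two, Matrix.mul_fin_two] at key
  have k01 := congrFun (congrFun key 0) 1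
  have k10 := congrFun (congrFun key 1) 0
  have k00 := congrFun (congrFun key 0) 0
  have k11 := congrFun (congrFun key 1) 1
  simp only [Matrix.of_apply, Matrix.cons_val_zero, Matrix.cons_val_one, Matrix.cons_val',
    Matrix.cons_val_fin_one] at k01 k10 k00 k11
  refine ⟨?_, ?_, ?_⟩
  · rw [k10]; ring
  · rw [k01]; ring
  · rw [k00, k11]; ring

theorem mul_eq_zero_cast {ℓ M : ℕ} [NeZero (ℓ * M)] {x : ZMod (ℓ * M)}
    (h : (ℓ : ZMod (ℓ * M)) * x = 0) : ZMod.castHom (dvd_mul_left M ℓ) (ZMod M) x = 0 := by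
  have hpos : 0 < ℓ * M := Nat.pos_of_ne_zero (NeZero.ne _)
  have hℓ : 0 < ℓ := Nat.pos_of_mul_pos_right hpos
  rw [← ZMod.natCast_zmod_val x, map_natCast]
  rw [← ZMod.natCast_zmod_val x, ← Nat.cast_mul, ZMod.natCast_eq_zero_iff] at h
  rw [ZMod.natCast_eq_zero_iff]
  exact Nat.dvd_of_mul_dvd_mul_left hℓ h

/-- the count if the lower left entry has the smallest divisor -/
theorem r_aux (N ℓ M : ℕ) (hN : N = ℓ * M) [NeZero N] (g : SL(2, ZMod N)) (t β α γ : ZMod N)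
    (h10 : g 1 0 = ℓ * β) (hd : g 1 1 - g 0 0 = ℓ * α) (h01 : g 0 1 = ℓ * γ)
    (hu : IsUnit (ZMod.castHom (show M ∣ N from ⟨ℓ, by rw [hN, mul_comm]⟩) (ZMod M) β))
    [Fintype SL(2, ZMod N)] [DecidableEq (ZMod N)] :
    (Finset.univ.filter (fun s : SL(2, ZMod N) => tr s = t ∧ tr (s⁻¹ * g) = t)).card ≤
      N * (M.divisors.card * Nat.sqrt M * ℓ * ℓ) := by
  classical
  subst hN
  have hpos : 0 < ℓ * M := Nat.pos_of_ne_zero (NeZero.ne _)
  have hM : 0 < M := Nat.pos_of_mul_pos_left hpos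
  have : NeZero M := ⟨hM.ne'⟩
  obtain ⟨φ, hφ⟩ : ∃ φ : ZMod (ℓ * M) →+* ZMod M, φ = ZMod.castHom (dvd_mul_left M ℓ) (ZMod M) :=
    ⟨_, rfl⟩
  change IsUnit (ZMod.castHom (dvd_mul_left M ℓ) (ZMod M) β) at hu
  rw [← hφ] at hu
  set S := Finset.univ.filter (fun s : SL(2, ZMod (ℓ * M)) => tr s = t ∧ tr (s⁻¹ * g) = t) with hS
  rcases S.eq_empty_or_nonempty with he | ⟨s0, hs0⟩
  · rw [he]; simp
  have hmem : ∀ s ∈ S, s 1 1 = t - s 0 0 ∧
      (ℓ : ZMod (ℓ * M)) * (s 0 0 * α - s 0 1 * β - s 1 0 * γ) = t - t * g 0 0 := by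
    intro s hs
    obtain ⟨h1, h2⟩ := (Finset.mem_filter.1 hs).2
    have h3 : s 1 1 = t - s 0 0 := by rw [← h1]; unfold tr; ring
    refine ⟨h3, ?_⟩
    rw [tr_inv_mul, h3] at h2
    linear_combination h2 - s 0 0 * hd + s 0 1 * h10 + s 1 0 * h01
  have hmod : ∀ s ∈ S, φ (s 0 0) * φ α - φ (s 0 1) * φ β - φ (s 1 0) * φ γ =
      φ (s0 0 0 * α - s0 0 1 * β - s0 1 0 * γ) := by
    intro s hs
    have h1 := (hmem s hs).2
    rw [← (hmem s0 hs0).2, ← sub_eq_zero, ← mul_sub] at h1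
    have h2 := mul_eq_zero_cast h1
    rw [← hφ] at h2
    rw [map_sub, sub_eq_zero] at h2
    rw [← h2]
    simp only [map_sub, map_mul]
  obtain ⟨κ, hκ⟩ : ∃ κ, κ = φ (s0 0 0 * α - s0 0 1 * β - s0 1 0 * γ) := ⟨_, rfl⟩
  rw [← hκ] at hmod
  have hquad : ∀ s ∈ S, φ β * φ (s 0 0) ^ 2 + (φ (s 1 0) * φ α - φ β * φ t) * φ (s 0 0) +
      (φ β - φ (s 1 0) ^ 2 * φ γ - φ (s 1 0) * κ) = 0 := by
    intro s hs
    have h1 := hmod s hs
    have h2 := det_eq s
    rw [(hmem s hs).1] at h2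
    have h3 := congrArg φ h2
    rw [map_sub, map_mul, map_mul, map_sub, map_one] at h3
    linear_combination φ (s 1 0) * h1 - φ β * h3
  -- fibres of `c`
  have hc : ∀ c ∈ S.image (fun s => s 1 0), (S.filter (fun s => s 1 0 = c)).card ≤
      M.divisors.card * Nat.sqrt M * ℓ * ℓ := by
    intro c _
    set Sc := S.filter (fun s => s 1 0 = c) with hSc
    have h1 : ∀ a ∈ Sc.image (fun s => s 0 0), (Sc.filter (fun s => s 0 0 = a)).card ≤ ℓ := by
      intro a _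
      set Sa := Sc.filter (fun s => s 0 0 = a) with hSa
      have hSa' : ∀ s ∈ Sa, s ∈ S ∧ s 1 0 = c ∧ s 0 0 = a := by
        intro s hs
        rw [hSa, Finset.mem_filter, hSc, Finset.mem_filter] at hs
        exact ⟨hs.1.1, hs.1.2, hs.2⟩
      have h2 : Sa.card = (Sa.image (fun s => s 0 1)).card := by
        rw [Finset.card_image_of_injOn]
        intro x hx y hy hxy
        obtain ⟨x1, x2, x3⟩ := hSa' x hx
        obtain ⟨y1, y2, y3⟩ := hSa' y hy
        ext i j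
        fin_cases i <;> fin_cases j
        · exact x3.trans y3.symm
        · exact hxy
        · exact x2.trans y2.symm
        · have e1 := (hmem x x1).1
          have e2 := (hmem y y1).1
          rw [x3] at e1
          rw [y3] at e2
          exact e1.trans e2.symm
      rw [h2]
      refine F1.card_fibre _ ?_
      intro b hb b' hb'
      rw [Finset.mem_image] at hb hb'
      obtain ⟨x, hx, rfl⟩ := hb
      obtain ⟨y, hy, rfl⟩ := hb'
      obtain ⟨x1, x2, x3⟩ := hSa' x hx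
      obtain ⟨y1, y2, y3⟩ := hSa' y hy
      have e1 := hmod x x1
      have e2 := hmod y y1
      rw [x2, x3] at e1
      rw [y2, y3] at e2
      rw [← hφ]
      have e3 : φ β * φ (x 0 1) = φ β * φ (y 0 1) := by linear_combination e2 - e1
      exact hu.mul_left_cancel e3
    have h2 := Finset.card_le_mul_card_image Sc ℓ h1
    have h3 : (Sc.image (fun s => s 0 0)).card ≤ ℓ * (M.divisors.card * Nat.sqrt M) := by
      have h4 : ∀ a ∈ (Sc.image (fun s => s 0 0)).image (fun a => φ a),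
          ((Sc.image (fun s => s 0 0)).filter (fun x => φ x = a)).card ≤ ℓ := by
        intro a _
        refine F1.card_fibre _ ?_
        intro x hx y hy
        rw [Finset.mem_filter] at hx hy
        rw [← hφ, hx.2, hy.2]
      refine (Finset.card_le_mul_card_image _ ℓ h4).trans ?_
      apply Nat.mul_le_mul_left
      refine le_trans (Finset.card_le_card ?_) (F1.quad_roots M (φ β)
        (φ c * φ α - φ β * φ t) (φ β - φ c ^ 2 * φ γ - φ c * κ) hu)
      intro a ha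
      rw [Finset.mem_image] at ha
      obtain ⟨a', ha', rfl⟩ := ha
      rw [Finset.mem_image] at ha'
      obtain ⟨s, hs, rfl⟩ := ha'
      rw [hSc, Finset.mem_filter] at hs
      rw [Finset.mem_filter]
      refine ⟨Finset.mem_univ _, ?_⟩
      have := hquad s hs.1
      rw [hs.2] at this
      exact this
    calc Sc.card ≤ ℓ * (Sc.image (fun s => s 0 0)).card := h2
      _ ≤ ℓ * (ℓ * (M.divisors.card * Nat.sqrt M)) := Nat.mul_le_mul_left _ h3
      _ = M.divisors.card * Nat.sqrt M * ℓ * ℓ := by ring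
  have h5 := Finset.card_le_mul_card_image S _ hc
  have h6 : (S.image (fun s => s 1 0)).card ≤ ℓ * M := by
    refine (Finset.card_le_univ _).trans ?_
    rw [ZMod.card]
  calc S.card ≤ (M.divisors.card * Nat.sqrt M * ℓ * ℓ) * (S.image (fun s => s 1 0)).card := h5
    _ ≤ (M.divisors.card * Nat.sqrt M * ℓ * ℓ) * (ℓ * M) := Nat.mul_le_mul_left _ h6
    _ = _ := by ring

theorem r_bound (N : ℕ) [NeZero N] (g : SL(2, ZMod N)) (t : ZMod N)
    [Fintype SL(2, ZMod N)] [DecidableEq (ZMod N)] :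
    (Finset.univ.filter (fun s : SL(2, ZMod N) => tr s = t ∧ tr (s⁻¹ * g) = t)).card ≤
      N * (N.divisors.card * Nat.sqrt N) * lev N g ^ 2 := by
  classical
  have hN0 : 0 < N := Nat.pos_of_ne_zero (NeZero.ne N)
  obtain ⟨ℓ, hℓ⟩ : ∃ ℓ, ℓ = lev N g := ⟨_, rfl⟩
  have hℓ0 : 0 < ℓ := by rw [hℓ]; exact Count.lev_pos hN0 g
  obtain ⟨M, hM⟩ : ℓ ∣ N := by rw [hℓ]; exact Count.lev_dvd N g
  have d0 : ℓ ∣ Nat.gcd (g 0 1).val (Nat.gcd (g 1 0).val (g 0 0 - g 1 1).val) := by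
    rw [hℓ]; exact Nat.gcd_dvd_right _ _
  obtain ⟨P, hP⟩ : ℓ ∣ (g 0 1).val := d0.trans (Nat.gcd_dvd_left _ _)
  obtain ⟨R, hR⟩ : ℓ ∣ (g 1 0).val := d0.trans ((Nat.gcd_dvd_right _ _).trans (Nat.gcd_dvd_left _ _))
  obtain ⟨Q, hQ⟩ : ℓ ∣ (g 0 0 - g 1 1).val :=
    d0.trans ((Nat.gcd_dvd_right _ _).trans (Nat.gcd_dvd_right _ _))
  have hM0 : M ≠ 0 := by
    rintro rfl
    rw [mul_zero] at hM
    omega
  have hgcd : Nat.gcd M (Nat.gcd P (Nat.gcd R Q)) = 1 := by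
    have h1 : Nat.gcd N (Nat.gcd (g 0 1).val (Nat.gcd (g 1 0).val (g 0 0 - g 1 1).val)) = ℓ := by
      rw [hℓ]; rfl
    rw [hP, hR, hQ, Nat.gcd_mul_left, Nat.gcd_mul_left] at h1
    have h2 : Nat.gcd (ℓ * M) (ℓ * Nat.gcd P (Nat.gcd R Q)) = ℓ := by rw [← hM]; exact h1
    rw [Nat.gcd_mul_left] at h2
    exact Nat.eq_of_mul_eq_mul_left hℓ0 (h2.trans (mul_one ℓ).symm)
  have hgcd' : Int.gcd (M : ℤ) (Int.gcd (-(P : ℤ)) (Int.gcd (Q : ℤ) (R : ℤ))) = 1 := by
    rw [Int.neg_gcd]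
    simp only [Int.gcd_natCast_natCast]
    rw [Nat.gcd_comm Q R]
    exact hgcd
  obtain ⟨x, y, hxy, hv⟩ := F1.coprime_value (-(P : ℤ)) Q R M hM0 hgcd'
  obtain ⟨u, v, huv⟩ := hxy
  let k0 : SL(2, ℤ) := ⟨!![v, -u; x, y], by rw [Matrix.det_fin_two_of]; linarith⟩
  set k : SL(2, ZMod N) := red N k0 with hk
  have k00 : k 0 0 = ((v : ℤ) : ZMod N) := rfl
  have k01 : k 0 1 = ((-u : ℤ) : ZMod N) := rfl
  have k10 : k 1 0 = ((x : ℤ) : ZMod N) := rfl
  have k11 : k 1 1 = ((y : ℤ) : ZMod N) := rfl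
  have g01 : g 0 1 = (ℓ : ZMod N) * P := by
    rw [← ZMod.natCast_zmod_val (g 0 1), hP]; push_cast; rfl
  have g10 : g 1 0 = (ℓ : ZMod N) * R := by
    rw [← ZMod.natCast_zmod_val (g 1 0), hR]; push_cast; rfl
  have gd : g 0 0 - g 1 1 = (ℓ : ZMod N) * Q := by
    rw [← ZMod.natCast_zmod_val (g 0 0 - g 1 1), hQ]; push_cast; rfl
  obtain ⟨e10, e01, ed⟩ := conj_entries k g
  rw [k10, k11, gd, g10, g01] at e10
  rw [k00, k01, gd, g10, g01] at e01
  rw [k00, k01, k10, k11, gd, g10, g01] at ed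
  -- transport
  have hcard : (Finset.univ.filter (fun s : SL(2, ZMod N) => tr s = t ∧ tr (s⁻¹ * g) = t)).card ≤
      (Finset.univ.filter (fun s : SL(2, ZMod N) =>
        tr s = t ∧ tr (s⁻¹ * (k * g * k⁻¹)) = t)).card := by
    refine Finset.card_le_card_of_injOn (fun s => k * s * k⁻¹) ?_ ?_
    · intro s hs
      have hs' := (Finset.mem_filter.1 hs).2
      simp only [Finset.coe_filter, Finset.mem_univ, true_and, Set.mem_ofPred_eq]
      refine ⟨by rw [tr_conj]; exact hs'.1, ?_⟩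
      have : (k * s * k⁻¹)⁻¹ * (k * g * k⁻¹) = k * (s⁻¹ * g) * k⁻¹ := by group
      rw [this, tr_conj]
      exact hs'.2
    · intro s _ s' _ h
      simpa using h
  refine hcard.trans ?_
  have hmain := r_aux N ℓ M hM (k * g * k⁻¹) t
    (((-(P : ℤ) * x ^ 2 + Q * x * y + R * y ^ 2 : ℤ)) : ZMod N)
    (((-((Q : ℤ) * (v * y + -u * x)) - 2 * (-u) * y * R + 2 * v * x * P : ℤ)) : ZMod N)
    (((v ^ 2 * P - (-u) ^ 2 * R - v * (-u) * Q : ℤ)) : ZMod N)
    (by rw [e10]; push_cast; ring) (by rw [ed]; push_cast; ring) (by rw [e01]; push_cast; ring)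
    (by
      rw [map_intCast]
      obtain ⟨a, b, hab⟩ := hv
      refine IsUnit.of_mul_eq_one (a : ZMod M) ?_
      have h1 : ((a * (-(P : ℤ) * x ^ 2 + Q * x * y + R * y ^ 2) + b * M : ℤ) : ZMod M) = 1 := by
        rw [hab, Int.cast_one]
      rw [Int.cast_add, Int.cast_mul, Int.cast_mul b, Int.cast_natCast M, ZMod.natCast_self,
        mul_zero, add_zero] at h1
      rw [mul_comm]
      exact h1)
  refine hmain.trans ?_
  have hMN : M ≤ N := by
    rw [hM]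
    exact Nat.le_mul_of_pos_left M hℓ0
  have hdiv : M.divisors.card ≤ N.divisors.card :=
    Finset.card_le_card (Nat.divisors_subset_of_dvd hN0.ne' ⟨ℓ, by rw [hM]; ring⟩)
  calc N * (M.divisors.card * Nat.sqrt M * ℓ * ℓ) ≤ N * (N.divisors.card * Nat.sqrt N * ℓ * ℓ) := by
        gcongr
    _ = N * (N.divisors.card * Nat.sqrt N) * lev N g ^ 2 := by rw [hℓ]; ring

end F2

end Pool.Agent.XE31
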