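import Mathlib

/-!
# Arithmetic sums for the geometric side
-/

set_option autoImplicit false

open scoped ENNReal

namespace Pool.Agent.XE31

namespace G1

/-- the sum of `gcd (N, b) / b` -/
theorem gcd_sum (N : ℕ) (hN : 0 < N) (J : ℕ) :
    ∑ b ∈ Finset.Icc 1 J, (Nat.gcd N b : ℝ) / b ≤ N.divisors.card * (1 + Real.log J) := by
  have h1 : ∀ b ∈ Finset.Icc 1 J, (Nat.gcd N b : ℝ) / b ≤
      ∑ d ∈ N.divisors, if d ∣ b then (d : ℝ) / b else 0 := by
    intro b hb
    have hb0 : 0 < b := (Finset.mem_Icc.1 hb).1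
    have hmem : Nat.gcd N b ∈ N.divisors := Nat.mem_divisors.2 ⟨Nat.gcd_dvd_left _ _, hN.ne'⟩
    refine le_trans ?_ (Finset.single_le_sum (f := fun d : ℕ => if d ∣ b then (d : ℝ) / b else 0)
      (fun d _ => ?_) hmem)
    · rw [if_pos (Nat.gcd_dvd_right N b)]
    · show 0 ≤ (if d ∣ b then (d : ℝ) / b else 0)
      split_ifs <;> positivity
  refine (Finset.sum_le_sum h1).trans ?_
  rw [Finset.sum_comm]
  have h2 : ∀ d ∈ N.divisors, ∑ b ∈ Finset.Icc 1 J, (if d ∣ b then (d : ℝ) / b else 0) ≤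
      1 + Real.log J := by
    intro d hd
    have hd0 : 0 < d := Nat.pos_of_mem_divisors hd
    have hdr : (0 : ℝ) < d := by exact_mod_cast hd0
    rw [← Finset.sum_filter]
    have h3 : ∑ b ∈ (Finset.Icc 1 J).filter (fun b => d ∣ b), (d : ℝ) / b ≤
        ∑ m ∈ Finset.Icc 1 J, ((m : ℝ))⁻¹ := by
      have h5 : (Finset.Icc 1 J).filter (fun b => d ∣ b) ⊆
          (Finset.Icc 1 J).image (fun m => d * m) := by
        intro b hb
        rw [Finset.mem_filter, Finset.mem_Icc] at hb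
        obtain ⟨⟨hb1, hb2⟩, m, rfl⟩ := hb
        rw [Finset.mem_image]
        have hm : 0 < m := Nat.pos_of_mul_pos_left hb1
        exact ⟨m, Finset.mem_Icc.2 ⟨hm, (Nat.le_mul_of_pos_left m hd0).trans hb2⟩, rfl⟩
      refine (Finset.sum_le_sum_of_subset_of_nonneg h5 fun b _ _ => by positivity).trans ?_
      rw [Finset.sum_image fun a _ b _ h => Nat.eq_of_mul_eq_mul_left hd0 h]
      refine Finset.sum_le_sum fun m hm => ?_
      have hm0 : (0 : ℝ) < m := by exact_mod_cast (Finset.mem_Icc.1 hm).1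
      push_cast
      apply le_of_eq
      field_simp
    have h4 := harmonic_le_one_add_log J
    rw [harmonic_eq_sum_Icc] at h4
    push_cast at h4
    exact h3.trans h4
  calc ∑ d ∈ N.divisors, ∑ b ∈ Finset.Icc 1 J, (if d ∣ b then (d : ℝ) / b else 0)
      ≤ ∑ d ∈ N.divisors, (1 + Real.log J) := Finset.sum_le_sum h2
    _ = _ := by rw [Finset.sum_const, nsmul_eq_mul]

end G1

end Pool.Agent.XE31
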