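import Pool.Agent.XE31.G1
import Pool.Agent.N799.DT.Main

/-!
# The geometric side: counting integral matrices
-/

set_option autoImplicit false

open UpperHalfPlane MeasureTheory Metric ModularGroup CongruenceSubgroup
open scoped MatrixGroups ENNReal Modular Topology NNReal

namespace Pool.Agent.XE31

open Pool.Agent.H369R2

noncomputable section

namespace G2

/-- elementary inequalities for the entries -/
theorem ineqs {a b c d x y E : ℝ} (hE : 1 ≤ E) (hy0 : 0 < y) (hx : |x| < 1 / 2)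
    (hxy : 1 < x ^ 2 + y ^ 2) (h1 : (c * x + d) ^ 2 + (c * y) ^ 2 ≤ E ^ 2)
    (h2 : (c * (x ^ 2 - y ^ 2) + (d - a) * x - b) ^ 2 + (2 * c * x * y + (d - a) * y) ^ 2 ≤
      E ^ 2 * y ^ 2) :
    |c| * y ≤ E ∧ |c| ≤ 2 * E ∧ |d| ≤ 2 * E ∧ |a| ≤ 5 * E ∧ |a - d| ≤ 3 * E ∧
      (1 ≤ |c| → |b| ≤ 4 * E ^ 2) ∧ (c = 0 → |b| ≤ 2 * E * y) := by
  have hE0 : 0 ≤ E := by linarith
  have hx2 : x ^ 2 < 1 / 4 := by
    rw [← sq_abs]; nlinarith [abs_nonneg x]
  have hy2 : 3 / 4 < y ^ 2 := by linarith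
  have hy : 4 / 5 < y := by nlinarith
  have a1 : |c * x + d| ≤ E := abs_le_of_sq_le_sq (by nlinarith [sq_nonneg (c * y)]) hE0
  have a2 : |c * y| ≤ E := abs_le_of_sq_le_sq (by nlinarith [sq_nonneg (c * x + d)]) hE0
  have a3 : |c * (x ^ 2 - y ^ 2) + (d - a) * x - b| ≤ E * y :=
    abs_le_of_sq_le_sq (by nlinarith [sq_nonneg (2 * c * x * y + (d - a) * y)]) (by positivity)
  have a4 : |2 * c * x * y + (d - a) * y| ≤ E * y :=
    abs_le_of_sq_le_sq (by nlinarith [sq_nonneg (c * (x ^ 2 - y ^ 2) + (d - a) * x - b)])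
      (by positivity)
  rw [abs_mul, abs_of_pos hy0] at a2
  have b1 : |c| ≤ 5 / 4 * E := by nlinarith [abs_nonneg c]
  have b2 : |c * x| ≤ |c| / 2 := by
    rw [abs_mul]; nlinarith [abs_nonneg c, abs_nonneg x]
  have b3 : |d| ≤ 2 * E := by
    have : d = (c * x + d) - c * x := by ring
    rw [this]
    refine (abs_sub _ _).trans ?_
    linarith
  have a5 : |2 * c * x + (d - a)| ≤ E := by
    have e : 2 * c * x * y + (d - a) * y = (2 * c * x + (d - a)) * y := by ring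
    rw [e, abs_mul, abs_of_pos hy0] at a4
    exact le_of_mul_le_mul_right a4 hy0
  have b4 : |a - d| ≤ E + |c| := by
    have : a - d = 2 * (c * x) - (2 * c * x + (d - a)) := by ring
    rw [this]
    refine (abs_sub _ _).trans ?_
    rw [abs_mul, abs_two]
    linarith
  have b5 : |a - d| ≤ 3 * E := by linarith
  have b6 : |a| ≤ 5 * E := by
    have : a = (a - d) + d := by ring
    rw [this]
    refine (abs_add_le _ _).trans ?_
    linarith
  have b7 : |b| ≤ E * y + |c| * (x ^ 2 + y ^ 2) + |a - d| / 2 := by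
    have e : b = (c * (x ^ 2 - y ^ 2)) + (d - a) * x - (c * (x ^ 2 - y ^ 2) + (d - a) * x - b) := by
      ring
    have e1 : |c * (x ^ 2 - y ^ 2)| ≤ |c| * (x ^ 2 + y ^ 2) := by
      rw [abs_mul]
      refine mul_le_mul_of_nonneg_left ((abs_sub _ _).trans (le_of_eq ?_)) (abs_nonneg c)
      rw [abs_of_nonneg (sq_nonneg x), abs_of_nonneg (sq_nonneg y)]
    have e2 : |(d - a) * x| ≤ |a - d| / 2 := by
      rw [abs_mul, abs_sub_comm d a]
      have := mul_le_mul_of_nonneg_left hx.le (abs_nonneg (a - d))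
      linarith
    rw [e]
    refine (abs_sub _ _).trans ?_
    have := abs_add_le (c * (x ^ 2 - y ^ 2)) ((d - a) * x)
    linarith
  refine ⟨a2, by linarith, b3, b6, b5, fun hc => ?_, fun hc => ?_⟩
  · have c1 : y ≤ E := by
      have := mul_le_mul_of_nonneg_right hc hy0.le
      linarith
    have c2 : |c| * (x ^ 2 + y ^ 2) ≤ E * E + 5 / 16 * E := by
      have : |c| * y ^ 2 ≤ E * E := by
        calc |c| * y ^ 2 = (|c| * y) * y := by ring
          _ ≤ E * E := mul_le_mul a2 c1 hy0.le hE0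
      have c3 : |c| * x ^ 2 ≤ 5 / 16 * E := by
        have := mul_le_mul_of_nonneg_left hx2.le (abs_nonneg c)
        linarith
      rw [mul_add]
      linarith
    have c4 : E * y ≤ E * E := mul_le_mul_of_nonneg_left c1 hE0
    have c5 : E ≤ E * E := le_mul_of_one_le_left hE0 hE
    rw [sq]
    linarith
  · subst hc
    simp only [abs_zero, zero_mul, add_zero] at b4 b7
    have c1 : E * (4 / 5) ≤ E * y := mul_le_mul_of_nonneg_left hy.le hE0
    linarith

/-- indicator of an interval -/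
def bx (A : ℝ) (n : ℤ) : ℝ≥0∞ := if |(n : ℝ)| ≤ A then 1 else 0

theorem bx_eq {A : ℝ} {n : ℤ} (h : |(n : ℝ)| ≤ A) : bx A n = 1 := if_pos h

theorem tsum_bx (A : ℝ) (hA : 0 ≤ A) : ∑' n : ℤ, bx A n ≤ ENNReal.ofReal (2 * A + 1) := by
  have h1 : ∀ n : ℤ, n ∉ Finset.Icc (-⌊A⌋) ⌊A⌋ → bx A n = 0 := by
    intro n hn
    unfold bx
    rw [if_neg]
    intro h
    apply hn
    rw [abs_le] at h
    rw [Finset.mem_Icc]
    constructor
    · rw [neg_le]
      apply Int.le_floor.2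
      push_cast
      linarith
    · exact Int.le_floor.2 h.2
  rw [tsum_eq_sum fun n hn => h1 n hn]
  have h2 : ∀ n ∈ Finset.Icc (-⌊A⌋) ⌊A⌋, bx A n ≤ 1 := by
    intro n _
    unfold bx
    split_ifs
    · exact le_rfl
    · exact zero_le
  refine (Finset.sum_le_sum h2).trans ?_
  rw [Finset.sum_const, nsmul_eq_mul, mul_one, Int.card_Icc]
  have h3 : (((⌊A⌋ + 1 - -⌊A⌋).toNat : ℕ) : ℝ) ≤ 2 * A + 1 := by
    have h4 : 0 ≤ ⌊A⌋ := Int.floor_nonneg.2 hA
    have h5 : (((⌊A⌋ + 1 - -⌊A⌋).toNat : ℕ) : ℝ) = ((⌊A⌋ + 1 - -⌊A⌋ : ℤ) : ℝ) := by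
      have := Int.toNat_of_nonneg (by linarith : 0 ≤ ⌊A⌋ + 1 - -⌊A⌋)
      exact_mod_cast congrArg (Int.cast : ℤ → ℝ) this
    rw [h5]
    push_cast
    linarith [Int.floor_le A]
  rw [← ENNReal.ofReal_natCast]
  exact ENNReal.ofReal_le_ofReal h3

/-- the weighted sum over the upper right entry -/
def gb (N : ℕ) (A : ℝ) (n : ℤ) : ℝ≥0∞ :=
  if n ≠ 0 ∧ |(n : ℝ)| ≤ A then ENNReal.ofReal (Nat.gcd N n.natAbs / |(n : ℝ)|) else 0

theorem tsum_gb (N : ℕ) (hN : 0 < N) (A : ℝ) (hA : 1 ≤ A) :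
    ∑' n : ℤ, gb N A n ≤ ENNReal.ofReal (2 * (N.divisors.card * (1 + Real.log A))) := by
  set J := ⌊A⌋₊ with hJ
  have hJ1 : 1 ≤ J := Nat.le_floor (by exact_mod_cast hA)
  set f : ℕ → ℝ≥0∞ := fun b => if b ∈ Finset.Icc 1 J then
    ENNReal.ofReal ((Nat.gcd N b : ℝ) / b) else 0 with hf
  have h1 : ∀ n : ℤ, gb N A n ≤ f n.natAbs := by
    intro n
    unfold gb
    split_ifs with h
    · rw [hf]
      simp only
      have h2 : n.natAbs ∈ Finset.Icc 1 J := by
        rw [Finset.mem_Icc]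
        refine ⟨Int.natAbs_pos.2 h.1, ?_⟩
        apply Nat.le_floor
        rw [Nat.cast_natAbs]
        push_cast
        exact h.2
      rw [if_pos h2]
      apply le_of_eq
      congr 2
      rw [Nat.cast_natAbs]
      push_cast
      rfl
    · exact zero_le
  have h2 : ∑' n : ℤ, f n.natAbs ≤ 2 * ∑' b : ℕ, f b := by
    rw [tsum_of_nat_of_neg_add_one (f := fun n : ℤ => f n.natAbs) ENNReal.summable
      ENNReal.summable]
    have e1 : ∀ n : ℕ, f (-((n : ℤ) + 1)).natAbs = f (n + 1) := by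
      intro n
      congr 1
    have e2 : ∀ n : ℕ, f ((n : ℤ)).natAbs = f n := fun n => by rw [Int.natAbs_natCast]
    simp only [e1, e2]
    rw [two_mul]
    refine add_le_add_right ?_ _
    exact ENNReal.tsum_comp_le_tsum_of_injective (f := fun n : ℕ => n + 1)
      (fun a b h => by simpa using h) f
  refine (ENNReal.tsum_le_tsum h1).trans (h2.trans ?_)
  have h4 : ∑' b : ℕ, f b = ∑ b ∈ Finset.Icc 1 J, ENNReal.ofReal ((Nat.gcd N b : ℝ) / b) := by
    rw [tsum_eq_sum (s := Finset.Icc 1 J) (fun b hb => if_neg hb)]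
    exact Finset.sum_congr rfl fun b hb => if_pos hb
  rw [h4, ← ENNReal.ofReal_sum_of_nonneg fun b _ => by positivity, ← ENNReal.ofReal_ofNat,
    ← ENNReal.ofReal_mul (by norm_num)]
  apply ENNReal.ofReal_le_ofReal
  refine mul_le_mul_of_nonneg_left ((G1.gcd_sum N hN J).trans ?_) (by norm_num)
  have h5 : Real.log J ≤ Real.log A :=
    Real.log_le_log (by exact_mod_cast hJ1) (Nat.floor_le (by linarith))
  gcongr

end G2

end

end Pool.Agent.XE31
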