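import Pool.Agent.XE31.G2

/-!
# The geometric side: the weighted sum over integral matrices
-/

set_option autoImplicit false

open UpperHalfPlane MeasureTheory Metric ModularGroup CongruenceSubgroup
open scoped MatrixGroups ENNReal Modular Topology NNReal

namespace Pool.Agent.XE31

open Pool.Agent.H369R2

noncomputable section

namespace G3

open G2

/-- the level of an integral matrix -/
def lv (N : ℕ) (a b c d : ℤ) : ℕ :=
  Nat.gcd N (Nat.gcd b.natAbs (Nat.gcd c.natAbs (a - d).natAbs))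

/-- the points which are moved by a bounded amount -/
def SS (E Y : ℝ) (a b c d : ℤ) : Set ℍ :=
  {z | z ∈ (𝒟ᵒ : Set ℍ) ∧ z.im ≤ Y ∧
    ((c : ℝ) * z.re + d) ^ 2 + ((c : ℝ) * z.im) ^ 2 ≤ E ^ 2 ∧
    ((c : ℝ) * (z.re ^ 2 - z.im ^ 2) + ((d : ℝ) - a) * z.re - b) ^ 2 +
      (2 * (c : ℝ) * z.re * z.im + ((d : ℝ) - a) * z.im) ^ 2 ≤ E ^ 2 * z.im ^ 2}

theorem fdo_bounds {z : ℍ} (hz : z ∈ (𝒟ᵒ : Set ℍ)) :
    |z.re| < 1 / 2 ∧ 1 < z.re ^ 2 + z.im ^ 2 ∧ 4 / 5 < z.im := by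
  have h1 : 1 < z.re ^ 2 + z.im ^ 2 := by
    have := hz.1
    rw [Complex.normSq_apply] at this
    simp only [UpperHalfPlane.coe_re, UpperHalfPlane.coe_im] at this
    nlinarith
  have h2 : |z.re| < 1 / 2 := hz.2
  refine ⟨h2, h1, ?_⟩
  have h3 : z.re ^ 2 < 1 / 4 := by
    rw [← sq_abs]; nlinarith [abs_nonneg z.re]
  nlinarith [z.im_pos]

theorem vol_fdo : volume (𝒟ᵒ : Set ℍ) ≤ ENNReal.ofReal 2 := by
  have h1 : (𝒟ᵒ : Set ℍ) ⊆ {z : ℍ | |z.re| < 1 / 2 ∧ 1 / 2 < z.im} := by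
    intro z hz
    obtain ⟨h1, _, h3⟩ := fdo_bounds hz
    exact ⟨h1, by linarith⟩
  refine (measure_mono h1).trans ?_
  rw [vol_strip (1 / 2) (by norm_num)]
  norm_num

theorem term_le {N : ℕ} (hN : 0 < N) {E Y : ℝ} (hE : 1 ≤ E) (a b c d : ℤ)
    (hs : ¬ (b = 0 ∧ c = 0 ∧ a = d)) :
    (lv N a b c d : ℝ≥0∞) * volume (SS E Y a b c d) ≤
      bx (5 * E) a * (bx (2 * E) d * (bx (2 * E) c * (bx (4 * E ^ 2) b * ENNReal.ofReal (4 * E)) +
        (if c = 0 then 1 else 0) * (gb N (2 * E * Y) b * ENNReal.ofReal (3 * E) +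
          (if b = 0 then 1 else 0) * ENNReal.ofReal (6 * E)))) := by
  by_cases hne : (SS E Y a b c d).Nonempty
  swap
  · rw [Set.not_nonempty_iff_eq_empty.1 hne, measure_empty, mul_zero]
    exact zero_le
  obtain ⟨z, hz, hzY, hz1, hz2⟩ := hne
  obtain ⟨f1, f2, f3⟩ := fdo_bounds hz
  have hE0 : 0 < E := by linarith
  obtain ⟨i1, i2, i3, i4, i5, i6, i7⟩ := ineqs hE z.im_pos f1 f2 hz1 hz2
  rw [bx_eq i4, bx_eq i3, one_mul, one_mul]
  have hv : volume (SS E Y a b c d) ≤ ENNReal.ofReal 2 :=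
    (measure_mono fun w hw => hw.1).trans vol_fdo
  by_cases hc : c = 0
  · subst hc
    rw [if_pos rfl, one_mul]
    refine le_trans ?_ le_add_self
    by_cases hb : b = 0
    · subst hb
      rw [if_pos rfl, one_mul]
      refine le_trans ?_ le_add_self
      have had : a ≠ d := fun h => hs ⟨rfl, rfl, h⟩
      have h1 : (lv N a 0 0 d : ℝ) ≤ 3 * E := by
        have h2 : lv N a 0 0 d ∣ (a - d).natAbs := by
          unfold lv
          simp only [Int.natAbs_zero, Nat.gcd_zero_left]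
          exact Nat.gcd_dvd_right _ _
        have h3 := Nat.le_of_dvd (Int.natAbs_pos.2 (sub_ne_zero.2 had)) h2
        have h4 : ((a - d).natAbs : ℝ) = |(a : ℝ) - d| := by
          rw [Nat.cast_natAbs]; push_cast; rfl
        calc (lv N a 0 0 d : ℝ) ≤ ((a - d).natAbs : ℝ) := by exact_mod_cast h3
          _ ≤ 3 * E := by rw [h4]; exact i5
      calc (lv N a 0 0 d : ℝ≥0∞) * volume (SS E Y a 0 0 d)
          ≤ ENNReal.ofReal (3 * E) * ENNReal.ofReal 2 := by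
            gcongr
            rw [← ENNReal.ofReal_natCast]
            exact ENNReal.ofReal_le_ofReal h1
        _ = ENNReal.ofReal (6 * E) := by
            rw [← ENNReal.ofReal_mul (by positivity)]; congr 1; ring
    · refine le_trans ?_ le_self_add
      have hb0 : 0 < |(b : ℝ)| := abs_pos.2 (by exact_mod_cast hb)
      have h1 : |(b : ℝ)| ≤ 2 * E * Y := by
        refine (i7 (by simp)).trans ?_
        exact mul_le_mul_of_nonneg_left hzY (by positivity)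
      have h2 : gb N (2 * E * Y) b = ENNReal.ofReal (Nat.gcd N b.natAbs / |(b : ℝ)|) :=
        if_pos ⟨hb, h1⟩
      rw [h2, ← ENNReal.ofReal_mul (by positivity)]
      have h3 : volume (SS E Y a b 0 d) ≤ ENNReal.ofReal (3 * E / |(b : ℝ)|) := by
        have h4 : SS E Y a b 0 d ⊆ {z : ℍ | |z.re| < 1 / 2 ∧ |(b : ℝ)| / (3 * E) < z.im} := by
          intro w hw
          obtain ⟨w1, w2, w3, w4⟩ := hw
          obtain ⟨g1, g2, g3⟩ := fdo_bounds w1
          obtain ⟨-, -, -, -, -, -, j7⟩ := ineqs hE w.im_pos g1 g2 w3 w4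
          refine ⟨g1, ?_⟩
          rw [div_lt_iff₀ (by positivity)]
          have := j7 (by simp)
          nlinarith [mul_pos hE0 w.im_pos]
        refine (measure_mono h4).trans ?_
        rw [vol_strip _ (by positivity), inv_div]
      have h5 : lv N a b 0 d ≤ Nat.gcd N b.natAbs := by
        apply Nat.le_of_dvd (Nat.gcd_pos_of_pos_left _ hN)
        unfold lv
        exact Nat.gcd_dvd_gcd_of_dvd_right _ (Nat.gcd_dvd_left _ _)
      calc (lv N a b 0 d : ℝ≥0∞) * volume (SS E Y a b 0 d)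
          ≤ ENNReal.ofReal (Nat.gcd N b.natAbs) * ENNReal.ofReal (3 * E / |(b : ℝ)|) := by
            gcongr
            rw [ENNReal.ofReal_natCast]
            exact_mod_cast h5
        _ = _ := by
            rw [← ENNReal.ofReal_mul (by positivity)]
            congr 1
            ring
  · refine le_trans ?_ le_self_add
    have hc1 : 1 ≤ |(c : ℝ)| := by
      have := Int.one_le_abs hc
      exact_mod_cast this
    rw [bx_eq i2, bx_eq (i6 hc1), one_mul, one_mul]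
    have h1 : (lv N a b c d : ℝ) ≤ 2 * E := by
      have h2 : lv N a b c d ∣ c.natAbs :=
        (Nat.gcd_dvd_right _ _).trans ((Nat.gcd_dvd_right _ _).trans (Nat.gcd_dvd_left _ _))
      have h3 := Nat.le_of_dvd (Int.natAbs_pos.2 hc) h2
      have h4 : (c.natAbs : ℝ) = |(c : ℝ)| := by
        rw [Nat.cast_natAbs]; push_cast; rfl
      calc (lv N a b c d : ℝ) ≤ (c.natAbs : ℝ) := by exact_mod_cast h3
        _ ≤ 2 * E := by rw [h4]; exact i2
    calc (lv N a b c d : ℝ≥0∞) * volume (SS E Y a b c d)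
        ≤ ENNReal.ofReal (2 * E) * ENNReal.ofReal 2 := by
          gcongr
          rw [← ENNReal.ofReal_natCast]
          exact ENNReal.ofReal_le_ofReal h1
      _ = ENNReal.ofReal (4 * E) := by
          rw [← ENNReal.ofReal_mul (by positivity)]; congr 1; ring

/-- the weighted sum over integral matrices -/
theorem geo_sum {N : ℕ} (hN : 0 < N) {E Y : ℝ} (hE : 1 ≤ E) (hY : 1 ≤ Y) :
    ∑' p : ℤ × ℤ × ℤ × ℤ, (if p.2.1 = 0 ∧ p.2.2.1 = 0 ∧ p.1 = p.2.2.2 then 0 else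
      (lv N p.1 p.2.1 p.2.2.1 p.2.2.2 : ℝ≥0∞) * volume (SS E Y p.1 p.2.1 p.2.2.1 p.2.2.2)) ≤
      ENNReal.ofReal (10560 * E ^ 6 * (N.divisors.card * (1 + Real.log (2 * E * Y)))) := by
  have hE0 : 0 < E := by linarith
  have h1 : ∀ p : ℤ × ℤ × ℤ × ℤ, (if p.2.1 = 0 ∧ p.2.2.1 = 0 ∧ p.1 = p.2.2.2 then 0 else
      (lv N p.1 p.2.1 p.2.2.1 p.2.2.2 : ℝ≥0∞) * volume (SS E Y p.1 p.2.1 p.2.2.1 p.2.2.2)) ≤
      bx (5 * E) p.1 * (bx (2 * E) p.2.2.2 * (bx (2 * E) p.2.2.1 *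
        (bx (4 * E ^ 2) p.2.1 * ENNReal.ofReal (4 * E)) +
        (if p.2.2.1 = 0 then 1 else 0) * (gb N (2 * E * Y) p.2.1 * ENNReal.ofReal (3 * E) +
          (if p.2.1 = 0 then 1 else 0) * ENNReal.ofReal (6 * E)))) := by
    intro p
    by_cases h : p.2.1 = 0 ∧ p.2.2.1 = 0 ∧ p.1 = p.2.2.2
    · rw [if_pos h]
      exact zero_le
    · rw [if_neg h]
      exact term_le hN hE _ _ _ _ h
  refine (ENNReal.tsum_le_tsum h1).trans ?_
  have e0 : ∑' n : ℤ, (if n = 0 then (1 : ℝ≥0∞) else 0) = 1 := tsum_ite_eq 0 _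
  obtain ⟨X, hX⟩ : ∃ X : ℤ → ℝ≥0∞, X = fun b => bx (4 * E ^ 2) b * ENNReal.ofReal (4 * E) :=
    ⟨_, rfl⟩
  obtain ⟨Z, hZ⟩ : ∃ Z : ℤ → ℝ≥0∞, Z = fun b => gb N (2 * E * Y) b * ENNReal.ofReal (3 * E) +
          (if b = 0 then 1 else 0) * ENNReal.ofReal (6 * E) := ⟨_, rfl⟩
  have k0 : ∑' p : ℤ × ℤ × ℤ × ℤ, bx (5 * E) p.1 * (bx (2 * E) p.2.2.2 * (bx (2 * E) p.2.2.1 *
        (bx (4 * E ^ 2) p.2.1 * ENNReal.ofReal (4 * E)) +
        (if p.2.2.1 = 0 then 1 else 0) * (gb N (2 * E * Y) p.2.1 * ENNReal.ofReal (3 * E) +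
          (if p.2.1 = 0 then 1 else 0) * ENNReal.ofReal (6 * E)))) =
      ∑' (a : ℤ) (b : ℤ) (c : ℤ) (d : ℤ), bx (5 * E) a * (bx (2 * E) d * (bx (2 * E) c * X b +
        (if c = 0 then 1 else 0) * Z b)) := by
    rw [ENNReal.tsum_prod']
    refine tsum_congr fun a => ?_
    rw [ENNReal.tsum_prod']
    refine tsum_congr fun b => ?_
    rw [ENNReal.tsum_prod']
    refine tsum_congr fun c => ?_
    rw [hX, hZ]
  have k1 : ∀ a b c : ℤ, ∑' d : ℤ, bx (5 * E) a * (bx (2 * E) d * (bx (2 * E) c * X b +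
        (if c = 0 then 1 else 0) * Z b)) = bx (5 * E) a * ((∑' d : ℤ, bx (2 * E) d) *
        (bx (2 * E) c * X b + (if c = 0 then 1 else 0) * Z b)) := by
    intro a b c
    rw [ENNReal.tsum_mul_left, ENNReal.tsum_mul_right]
  have k2 : ∀ a b : ℤ, ∑' c : ℤ, bx (5 * E) a * ((∑' d : ℤ, bx (2 * E) d) *
        (bx (2 * E) c * X b + (if c = 0 then 1 else 0) * Z b)) = bx (5 * E) a *
        ((∑' d : ℤ, bx (2 * E) d) * ((∑' c : ℤ, bx (2 * E) c) * X b + Z b)) := by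
    intro a b
    rw [ENNReal.tsum_mul_left, ENNReal.tsum_mul_left, ENNReal.tsum_add, ENNReal.tsum_mul_right,
      ENNReal.tsum_mul_right, e0, one_mul]
  have k3 : ∀ a : ℤ, ∑' b : ℤ, bx (5 * E) a *
        ((∑' d : ℤ, bx (2 * E) d) * ((∑' c : ℤ, bx (2 * E) c) * X b + Z b)) = bx (5 * E) a *
        ((∑' d : ℤ, bx (2 * E) d) * ((∑' c : ℤ, bx (2 * E) c) * (∑' b : ℤ, X b) + ∑' b : ℤ, Z b)) := by
    intro a
    rw [ENNReal.tsum_mul_left, ENNReal.tsum_mul_left, ENNReal.tsum_add, ENNReal.tsum_mul_left]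
  rw [k0]
  simp only [k1, k2, k3]
  rw [ENNReal.tsum_mul_right, hX, hZ, ENNReal.tsum_mul_right, ENNReal.tsum_add,
    ENNReal.tsum_mul_right, ENNReal.tsum_mul_right, e0, one_mul]
  obtain ⟨τ, hτ⟩ : ∃ τ : ℝ, τ = N.divisors.card := ⟨_, rfl⟩
  obtain ⟨ℓ, hℓ⟩ : ∃ ℓ : ℝ, ℓ = 1 + Real.log (2 * E * Y) := ⟨_, rfl⟩
  have hEY : 1 ≤ 2 * E * Y := by nlinarith
  have hℓ1 : 1 ≤ ℓ := by
    rw [hℓ]
    linarith [Real.log_nonneg hEY]
  have hτ1 : 1 ≤ τ := by
    rw [hτ]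
    exact_mod_cast Finset.card_pos.2 ⟨1, Nat.one_mem_divisors.2 hN.ne'⟩
  have t1 := tsum_bx (5 * E) (by positivity)
  have t2 := tsum_bx (2 * E) (by positivity)
  have t3 := tsum_bx (4 * E ^ 2) (by positivity)
  have t4 := tsum_gb N hN (2 * E * Y) hEY
  rw [← hτ, ← hℓ] at t4
  rw [← hτ, ← hℓ]
  have s1 : ∑' n : ℤ, bx (5 * E) n ≤ ENNReal.ofReal (11 * E) :=
    t1.trans (ENNReal.ofReal_le_ofReal (by linarith))
  have s2 : ∑' n : ℤ, bx (2 * E) n ≤ ENNReal.ofReal (5 * E) :=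
    t2.trans (ENNReal.ofReal_le_ofReal (by linarith))
  have s3 : ∑' n : ℤ, bx (4 * E ^ 2) n ≤ ENNReal.ofReal (9 * E ^ 2) :=
    t3.trans (ENNReal.ofReal_le_ofReal (by nlinarith))
  calc (∑' n : ℤ, bx (5 * E) n) * ((∑' n : ℤ, bx (2 * E) n) * ((∑' n : ℤ, bx (2 * E) n) *
        ((∑' n : ℤ, bx (4 * E ^ 2) n) * ENNReal.ofReal (4 * E)) +
        ((∑' n : ℤ, gb N (2 * E * Y) n) * ENNReal.ofReal (3 * E) +
          ENNReal.ofReal (6 * E))))
      ≤ ENNReal.ofReal (11 * E) * (ENNReal.ofReal (5 * E) * (ENNReal.ofReal (5 * E) *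
        (ENNReal.ofReal (9 * E ^ 2) * ENNReal.ofReal (4 * E)) +
        (ENNReal.ofReal (2 * (τ * ℓ)) * ENNReal.ofReal (3 * E) +
          ENNReal.ofReal (6 * E)))) := by
        gcongr
    _ = ENNReal.ofReal (11 * E * (5 * E * (5 * E * (9 * E ^ 2 * (4 * E)) +
        (2 * (τ * ℓ) * (3 * E) + 6 * E)))) := by
        have hp : 0 ≤ τ * ℓ := by positivity
        rw [← ENNReal.ofReal_mul (by positivity), ← ENNReal.ofReal_mul (by positivity),
          ← ENNReal.ofReal_mul (by positivity), ← ENNReal.ofReal_add (by positivity) (by positivity),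
          ← ENNReal.ofReal_add (by positivity) (by positivity),
          ← ENNReal.ofReal_mul (by positivity), ← ENNReal.ofReal_mul (by positivity)]
    _ ≤ _ := by
        apply ENNReal.ofReal_le_ofReal
        have hp : 1 ≤ τ * ℓ := one_le_mul_of_one_le_of_one_le hτ1 hℓ1
        have g1 : E ≤ E ^ 4 := le_self_pow₀ hE (by norm_num)
        have g2 : E ^ 4 ≤ E ^ 4 * (τ * ℓ) := le_mul_of_one_le_right (by positivity) hp
        have g3 : E * (τ * ℓ) ≤ E ^ 4 * (τ * ℓ) := mul_le_mul_of_nonneg_right g1 (by positivity)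
        have g4 : 5 * E * (9 * E ^ 2 * (4 * E)) + (2 * (τ * ℓ) * (3 * E) + 6 * E) ≤
            192 * (E ^ 4 * (τ * ℓ)) := by
          have e1 : 5 * E * (9 * E ^ 2 * (4 * E)) = 180 * E ^ 4 := by ring
          have e2 : 2 * (τ * ℓ) * (3 * E) = 6 * (E * (τ * ℓ)) := by ring
          rw [e1, e2]
          linarith
        calc 11 * E * (5 * E * (5 * E * (9 * E ^ 2 * (4 * E)) + (2 * (τ * ℓ) * (3 * E) + 6 * E)))
            ≤ 11 * E * (5 * E * (192 * (E ^ 4 * (τ * ℓ)))) := by gcongr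
          _ = 10560 * E ^ 6 * (τ * ℓ) := by ring

end G3

end

end Pool.Agent.XE31
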