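import Pool.Agent.N799.DT.Main

/-!
# Horocyclic coordinates
-/

set_option autoImplicit false

open UpperHalfPlane MeasureTheory Metric ModularGroup CongruenceSubgroup
open scoped MatrixGroups ENNReal Modular Topology NNReal

namespace Pool.Agent.XE31

open Pool.Agent.H369R2 Pool.Agent.N799.DT

noncomputable section

namespace M1

/-- the point with given coordinates -/
def pt (p : ℝ × ℝ) : ℍ := ⟨⟨p.1, if 0 < p.2 then p.2 else 1⟩, by
  show 0 < (if 0 < p.2 then p.2 else 1)
  split_ifs with h
  · exact h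
  · exact one_pos⟩

lemma pt_re (p : ℝ × ℝ) : (pt p).re = p.1 := rfl

lemma pt_im {p : ℝ × ℝ} (h : 0 < p.2) : (pt p).im = p.2 := if_pos h

lemma pt_self (z : ℍ) : pt (z.re, z.im) = z := by
  apply UpperHalfPlane.ext
  apply Complex.ext
  · rfl
  · exact pt_im z.im_pos

lemma pt_eq {x y : ℝ} (hy : 0 < y) : pt (x, y) = ⟨⟨x, y⟩, hy⟩ := by
  apply UpperHalfPlane.ext
  apply Complex.ext
  · rfl
  · exact pt_im hy

lemma measurable_pt : Measurable pt := by
  rw [← measurableEmbedding_coe.measurable_comp_iff]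
  have h : (UpperHalfPlane.coe ∘ pt) = fun p : ℝ × ℝ =>
      Complex.measurableEquivRealProd.symm (p.1, if 0 < p.2 then p.2 else 1) := by
    ext p
    rfl
  rw [h]
  apply Complex.measurableEquivRealProd.symm.measurable.comp
  exact measurable_fst.prodMk (Measurable.ite (measurableSet_lt measurable_const measurable_snd)
    measurable_snd measurable_const)

/-- the measure `dy / y²` -/
def ny : Measure ℝ := (volume.restrict (Set.Ioi 0)).withDensity fun y => ENNReal.ofReal (1 / y ^ 2)

instance : SFinite ny := by unfold ny; infer_instance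

lemma lint_pt {G : ℍ → ℝ≥0∞} (hG : Measurable G) :
    ∫⁻ z, G z = ∫⁻ y, (∫⁻ x : ℝ, G (pt (x, y))) ∂ny := by
  have h1 := lint_H (fun p => G (pt p)) (hG.comp measurable_pt)
  simp only [pt_self] at h1
  rw [h1]
  have hm : Measurable fun p : ℝ × ℝ => ENNReal.ofReal (1 / p.2 ^ 2) * G (pt p) := by
    refine Measurable.mul ?_ (hG.comp measurable_pt)
    exact (measurable_const.div (measurable_snd.pow_const 2)).ennreal_ofReal
  have hs : {p : ℝ × ℝ | 0 < p.2} = Set.univ ×ˢ Set.Ioi 0 := by
    ext p; simp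
  rw [hs, Measure.volume_eq_prod, ← Measure.prod_restrict, Measure.restrict_univ,
    lintegral_prod_symm _ hm.aemeasurable]
  unfold ny
  rw [lintegral_withDensity_eq_lintegral_mul]
  · refine lintegral_congr fun y => ?_
    simp only [Pi.mul_apply]
    rw [lintegral_const_mul]
    exact (hG.comp measurable_pt).comp (measurable_id.prodMk measurable_const)
  · exact (measurable_const.div (measurable_id.pow_const 2)).ennreal_ofReal
  · exact Measurable.lintegral_prod_left' (f := fun p : ℝ × ℝ => G (pt p))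
      (hG.comp measurable_pt)

lemma vol_eq_map : (volume : Measure ℍ) = Measure.map pt (volume.prod ny) := by
  refine Measure.ext fun s hs => ?_
  rw [Measure.map_apply measurable_pt hs, ← lintegral_indicator_one hs,
    lint_pt (measurable_one.indicator hs), Measure.prod_apply_symm (measurable_pt hs)]
  refine lintegral_congr fun y => ?_
  rw [← lintegral_indicator_one]
  · rfl
  · exact (measurable_pt.comp (measurable_id.prodMk measurable_const)) hs

lemma int_pt {F : ℍ → ℂ} (hF : Integrable F) :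
    ∫ z, F z = ∫ y, (∫ x : ℝ, F (pt (x, y))) ∂ny := by
  have h0 : Integrable F (Measure.map pt (volume.prod ny)) := by rw [← vol_eq_map]; exact hF
  have h1 : Integrable (fun p => F (pt p)) ((volume : Measure ℝ).prod ny) :=
    (integrable_map_measure h0.1 measurable_pt.aemeasurable).1 h0
  rw [vol_eq_map, integral_map measurable_pt.aemeasurable h0.1]
  exact integral_prod_symm _ h1

lemma ny_Ioi {Y : ℝ} (hY : 0 < Y) : ny (Set.Ioi Y) = ENNReal.ofReal Y⁻¹ := by
  unfold ny
  rw [withDensity_apply _ measurableSet_Ioi, Measure.restrict_restrict measurableSet_Ioi]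
  have h0 : Set.Ioi Y ∩ Set.Ioi 0 = Set.Ioi Y := by
    rw [Set.inter_eq_left]
    exact Set.Ioi_subset_Ioi hY.le
  rw [h0]
  have h6 : ∫ y in Set.Ioi Y, y ^ (-2 : ℝ) = Y⁻¹ := by
    rw [integral_Ioi_rpow_of_lt (by norm_num) hY]
    norm_num
    rw [Real.rpow_neg_one]
  have h7 : ∫⁻ y in Set.Ioi Y, ENNReal.ofReal (1 / y ^ 2) =
      ∫⁻ y in Set.Ioi Y, ENNReal.ofReal (y ^ (-2 : ℝ)) := by
    refine setLIntegral_congr_fun measurableSet_Ioi fun y hy => ?_
    have hy0 : 0 < y := hY.trans hy
    congr 1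
    rw [Real.rpow_neg hy0.le, Real.rpow_two, one_div]
  rw [h7, ← ofReal_integral_eq_lintegral_ofReal, h6]
  · exact integrableOn_Ioi_rpow_of_lt (by norm_num) hY
  · refine (ae_restrict_mem measurableSet_Ioi).mono fun y hy => ?_
    exact Real.rpow_nonneg (hY.trans hy).le _

lemma ny_pos : ∀ᵐ y ∂ny, 0 < y := by
  have h : ny ≪ volume.restrict (Set.Ioi 0) := withDensity_absolutelyContinuous _ _
  exact h.ae_le (ae_restrict_mem measurableSet_Ioi)

/-- balls in coordinates -/
lemma mem_ball {R : ℝ} (hR : 0 ≤ R) (z w : ℍ) : w ∈ closedBall z R ↔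
    (w.re - z.re) ^ 2 + w.im ^ 2 + z.im ^ 2 ≤ 2 * w.im * z.im * Real.cosh R := by
  rw [mem_closedBall]
  have h := cosh_dist' w z
  have h2 : dist w z ≤ R ↔ Real.cosh (dist w z) ≤ Real.cosh R := by
    rw [Real.cosh_le_cosh, abs_of_nonneg dist_nonneg, abs_of_nonneg hR]
  have hz := z.im_pos
  have hw := w.im_pos
  rw [h2, h, div_le_iff₀ (by positivity)]
  constructor <;> intro h <;> linarith

/-- integrals of periodic functions with mean zero -/
lemma slice {N : ℕ} (hN : 0 < N) {F : ℝ → ℂ} (hF : Continuous F) (hper : ∀ x, F (x + N) = F x)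
    (h0 : ∫ x in (0 : ℝ)..N, F x = 0) (a b c : ℝ) :
    ‖∫ x in a..b, F x‖ ≤ ∫ x in c..(c + N), ‖F x‖ := by
  have hNr : (0 : ℝ) < N := by exact_mod_cast hN
  have hp : Function.Periodic F (N : ℝ) := hper
  have hpn : Function.Periodic (fun x => ‖F x‖) (N : ℝ) := fun x => by
    simp only [hper x]
  have hint : ∀ s t : ℝ, IntervalIntegrable F volume s t := fun s t => hF.intervalIntegrable s t
  have hintn : ∀ s t : ℝ, IntervalIntegrable (fun x => ‖F x‖) volume s t :=
    fun s t => hF.norm.intervalIntegrable s t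
  obtain ⟨q, hq⟩ : ∃ q : ℤ, q = ⌊(b - a) / N⌋ := ⟨_, rfl⟩
  have hq1 : (q : ℝ) * N ≤ b - a := by
    have := Int.floor_le ((b - a) / N)
    rw [← hq] at this
    rwa [le_div_iff₀ hNr] at this
  have hq2 : b - a < (q + 1) * N := by
    have := Int.lt_floor_add_one ((b - a) / N)
    rw [← hq] at this
    rwa [div_lt_iff₀ hNr] at this
  have h1 : ∫ x in a..(a + q • (N : ℝ)), F x = 0 := by
    rw [hp.intervalIntegral_add_zsmul_eq q a hint, hp.intervalIntegral_add_eq a 0, zero_add, h0,
      smul_zero]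
  have h2 : ∫ x in a..b, F x = ∫ x in (a + q • (N : ℝ))..b, F x := by
    rw [← intervalIntegral.integral_add_adjacent_intervals (hint a (a + q • (N : ℝ))) (hint _ b),
      h1, zero_add]
  have e : q • (N : ℝ) = (q : ℝ) * N := zsmul_eq_mul _ _
  rw [h2, e]
  have h3 : a + (q : ℝ) * N ≤ b := by linarith
  have h4 : b ≤ (a + (q : ℝ) * N) + N := by linarith
  refine (intervalIntegral.norm_integral_le_integral_norm h3).trans ?_
  refine le_trans ?_ (hpn.intervalIntegral_add_eq (a + (q : ℝ) * N) c).le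
  exact intervalIntegral.integral_mono_interval le_rfl h3 h4
    (.of_forall fun x => norm_nonneg _) (hintn _ _)

end M1

end

end Pool.Agent.XE31
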