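import Pool.Agent.XE31.G4
import Pool.Agent.XE31.M1

/-!
# The geometric side for small displacements
-/

set_option autoImplicit false

open UpperHalfPlane MeasureTheory Metric ModularGroup CongruenceSubgroup
open scoped MatrixGroups ENNReal Modular Topology NNReal

namespace Pool.Agent.XE31

open Pool.Agent.H369R2 Pool.Agent.N799.DT

noncomputable section

namespace G5

open G2 G3

/-- the right hand side of the pointwise bound -/
def rhs (N : ℕ) (E Y : ℝ) (a b c d : ℤ) : ℝ≥0∞ :=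
  bx (5 * E) a * (bx (2 * E) d * (bx (2 * E) c * (bx (4 * E ^ 2) b * ENNReal.ofReal (4 * E)) +
        (if c = 0 then 1 else 0) * (gb N (2 * E * Y) b * ENNReal.ofReal (3 * E) +
          (if b = 0 then 1 else 0) * ENNReal.ofReal (6 * E))))

theorem rhs_sum {N : ℕ} (hN : 0 < N) {E Y : ℝ} (hE : 1 ≤ E) (hY : 1 ≤ Y) :
    ∑' p : ℤ × ℤ × ℤ × ℤ, rhs N E Y p.1 p.2.1 p.2.2.1 p.2.2.2 ≤
      ENNReal.ofReal (10560 * E ^ 6 * (N.divisors.card * (1 + Real.log (2 * E * Y)))) := by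
  have hE0 : 0 < E := by linarith
  unfold rhs
  have e0 : ∑' n : ℤ, (if n = 0 then (1 : ℝ≥0∞) else 0) = 1 := tsum_ite_eq 0 _
  obtain ⟨X, hX⟩ : ∃ X : ℤ → ℝ≥0∞, X = fun b => bx (4 * E ^ 2) b * ENNReal.ofReal (4 * E) :=
    ⟨_, rfl⟩
  obtain ⟨Z, hZ⟩ : ∃ Z : ℤ → ℝ≥0∞, Z = fun b => gb N (2 * E * Y) b * ENNReal.ofReal (3 * E) +
          (if b = 0 then 1 else 0) * ENNReal.ofReal (6 * E) := ⟨_, rfl⟩
  have k0 : ∑' p : ℤ × ℤ × ℤ × ℤ, bx (5 * E) p.1 * (bx (2 * E) p.2.2.2 * (bx (2 * E) p.2.2.1 *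
        (bx (4 * E ^ 2) p.2.1 * ENNReal.ofReal (4 * E)) +
        (if p.2.2.1 = 0 then 1 else 0) * (gb N (2 * E * Y) p.2.1 * ENNReal.ofReal (3 * E) +
          (if p.2.1 = 0 then 1 else 0) * ENNReal.ofReal (6 * E)))) =
      ∑' (a : ℤ) (b : ℤ) (c : ℤ) (d : ℤ), bx (5 * E) a * (bx (2 * E) d * (bx (2 * E) c * X b +
        (if c = 0 then 1 else 0) * Z b)) := by
    rw [ENNReal.tsum_prod']
    refine tsum_congr fun a => ?_
    rw [ENNReal.tsum_prod']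
    refine tsum_congr fun b => ?_
    rw [ENNReal.tsum_prod']
    refine tsum_congr fun c => ?_
    rw [hX, hZ]
  have k1 : ∀ a b c : ℤ, ∑' d : ℤ, bx (5 * E) a * (bx (2 * E) d * (bx (2 * E) c * X b +
        (if c = 0 then 1 else 0) * Z b)) = bx (5 * E) a * ((∑' d : ℤ, bx (2 * E) d) *
        (bx (2 * E) c * X b + (if c = 0 then 1 else 0) * Z b)) := by
    intro a b c
    rw [ENNReal.tsum_mul_left, ENNReal.tsum_mul_right]
  have k2 : ∀ a b : ℤ, ∑' c : ℤ, bx (5 * E) a * ((∑' d : ℤ, bx (2 * E) d) *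
        (bx (2 * E) c * X b + (if c = 0 then 1 else 0) * Z b)) = bx (5 * E) a *
        ((∑' d : ℤ, bx (2 * E) d) * ((∑' c : ℤ, bx (2 * E) c) * X b + Z b)) := by
    intro a b
    rw [ENNReal.tsum_mul_left, ENNReal.tsum_mul_left, ENNReal.tsum_add, ENNReal.tsum_mul_right,
      ENNReal.tsum_mul_right, e0, one_mul]
  have k3 : ∀ a : ℤ, ∑' b : ℤ, bx (5 * E) a *
        ((∑' d : ℤ, bx (2 * E) d) * ((∑' c : ℤ, bx (2 * E) c) * X b + Z b)) = bx (5 * E) a *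
        ((∑' d : ℤ, bx (2 * E) d) * ((∑' c : ℤ, bx (2 * E) c) * (∑' b : ℤ, X b) + ∑' b : ℤ, Z b)) := by
    intro a
    rw [ENNReal.tsum_mul_left, ENNReal.tsum_mul_left, ENNReal.tsum_add, ENNReal.tsum_mul_left]
  rw [k0]
  simp only [k1, k2, k3]
  rw [ENNReal.tsum_mul_right, hX, hZ, ENNReal.tsum_mul_right, ENNReal.tsum_add,
    ENNReal.tsum_mul_right, ENNReal.tsum_mul_right, e0, one_mul]
  obtain ⟨τ, hτ⟩ : ∃ τ : ℝ, τ = N.divisors.card := ⟨_, rfl⟩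
  obtain ⟨ℓ, hℓ⟩ : ∃ ℓ : ℝ, ℓ = 1 + Real.log (2 * E * Y) := ⟨_, rfl⟩
  have hEY : 1 ≤ 2 * E * Y := by nlinarith
  have hℓ1 : 1 ≤ ℓ := by
    rw [hℓ]
    linarith [Real.log_nonneg hEY]
  have hτ1 : 1 ≤ τ := by
    rw [hτ]
    exact_mod_cast Finset.card_pos.2 ⟨1, Nat.one_mem_divisors.2 hN.ne'⟩
  have t1 := tsum_bx (5 * E) (by positivity)
  have t2 := tsum_bx (2 * E) (by positivity)
  have t3 := tsum_bx (4 * E ^ 2) (by positivity)
  have t4 := tsum_gb N hN (2 * E * Y) hEY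
  rw [← hτ, ← hℓ] at t4
  rw [← hτ, ← hℓ]
  have s1 : ∑' n : ℤ, bx (5 * E) n ≤ ENNReal.ofReal (11 * E) :=
    t1.trans (ENNReal.ofReal_le_ofReal (by linarith))
  have s2 : ∑' n : ℤ, bx (2 * E) n ≤ ENNReal.ofReal (5 * E) :=
    t2.trans (ENNReal.ofReal_le_ofReal (by linarith))
  have s3 : ∑' n : ℤ, bx (4 * E ^ 2) n ≤ ENNReal.ofReal (9 * E ^ 2) :=
    t3.trans (ENNReal.ofReal_le_ofReal (by nlinarith))
  calc (∑' n : ℤ, bx (5 * E) n) * ((∑' n : ℤ, bx (2 * E) n) * ((∑' n : ℤ, bx (2 * E) n) *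
        ((∑' n : ℤ, bx (4 * E ^ 2) n) * ENNReal.ofReal (4 * E)) +
        ((∑' n : ℤ, gb N (2 * E * Y) n) * ENNReal.ofReal (3 * E) +
          ENNReal.ofReal (6 * E))))
      ≤ ENNReal.ofReal (11 * E) * (ENNReal.ofReal (5 * E) * (ENNReal.ofReal (5 * E) *
        (ENNReal.ofReal (9 * E ^ 2) * ENNReal.ofReal (4 * E)) +
        (ENNReal.ofReal (2 * (τ * ℓ)) * ENNReal.ofReal (3 * E) +
          ENNReal.ofReal (6 * E)))) := by
        gcongr
    _ = ENNReal.ofReal (11 * E * (5 * E * (5 * E * (9 * E ^ 2 * (4 * E)) +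
        (2 * (τ * ℓ) * (3 * E) + 6 * E)))) := by
        have hp : 0 ≤ τ * ℓ := by positivity
        rw [← ENNReal.ofReal_mul (by positivity), ← ENNReal.ofReal_mul (by positivity),
          ← ENNReal.ofReal_mul (by positivity), ← ENNReal.ofReal_add (by positivity) (by positivity),
          ← ENNReal.ofReal_add (by positivity) (by positivity),
          ← ENNReal.ofReal_mul (by positivity), ← ENNReal.ofReal_mul (by positivity)]
    _ ≤ _ := by
        apply ENNReal.ofReal_le_ofReal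
        have hp : 1 ≤ τ * ℓ := one_le_mul_of_one_le_of_one_le hτ1 hℓ1
        have g1 : E ≤ E ^ 4 := le_self_pow₀ hE (by norm_num)
        have g2 : E ^ 4 ≤ E ^ 4 * (τ * ℓ) := le_mul_of_one_le_right (by positivity) hp
        have g3 : E * (τ * ℓ) ≤ E ^ 4 * (τ * ℓ) := mul_le_mul_of_nonneg_right g1 (by positivity)
        have g4 : 5 * E * (9 * E ^ 2 * (4 * E)) + (2 * (τ * ℓ) * (3 * E) + 6 * E) ≤
            192 * (E ^ 4 * (τ * ℓ)) := by
          have e1 : 5 * E * (9 * E ^ 2 * (4 * E)) = 180 * E ^ 4 := by ring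
          have e2 : 2 * (τ * ℓ) * (3 * E) = 6 * (E * (τ * ℓ)) := by ring
          rw [e1, e2]
          linarith
        calc 11 * E * (5 * E * (5 * E * (9 * E ^ 2 * (4 * E)) + (2 * (τ * ℓ) * (3 * E) + 6 * E)))
            ≤ 11 * E * (5 * E * (192 * (E ^ 4 * (τ * ℓ)))) := by gcongr
          _ = 10560 * E ^ 6 * (τ * ℓ) := by ring


/-- the points which are moved by a small amount -/
def SS2 (E ε Y : ℝ) (a b c d : ℤ) : Set ℍ :=
  {z | z ∈ (𝒟ᵒ : Set ℍ) ∧ z.im ≤ Y ∧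
    ((c : ℝ) * z.re + d) ^ 2 + ((c : ℝ) * z.im) ^ 2 ≤ E ^ 2 ∧
    ((c : ℝ) * (z.re ^ 2 - z.im ^ 2) + ((d : ℝ) - a) * z.re - b) ^ 2 +
      (2 * (c : ℝ) * z.re * z.im + ((d : ℝ) - a) * z.im) ^ 2 ≤ ε ^ 2 * z.im ^ 2}

open M1 in
/-- the volume of a half strip of given width -/
theorem vol_strip2 {a b Y : ℝ} (hab : a ≤ b) (hY : 0 < Y) :
    volume {z : ℍ | z.re ∈ Set.Icc a b ∧ Y < z.im} = ENNReal.ofReal ((b - a) / Y) := by
  have hm : MeasurableSet {z : ℍ | z.re ∈ Set.Icc a b ∧ Y < z.im} :=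
    (measurableSet_Icc.preimage continuous_re.measurable).inter
      (isOpen_lt continuous_const continuous_im).measurableSet
  rw [← lintegral_indicator_one hm, lint_pt (measurable_one.indicator hm)]
  have h1 : ∀ᵐ y ∂ny, ∫⁻ x : ℝ, {z : ℍ | z.re ∈ Set.Icc a b ∧ Y < z.im}.indicator 1 (pt (x, y)) =
      (Set.Ioi Y).indicator (fun _ => ENNReal.ofReal (b - a)) y := by
    filter_upwards [ny_pos] with y hy
    by_cases hyY : y ∈ Set.Ioi Y
    · rw [Set.indicator_of_mem hyY]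
      have h2 : ∀ x : ℝ, {z : ℍ | z.re ∈ Set.Icc a b ∧ Y < z.im}.indicator (1 : ℍ → ℝ≥0∞)
          (pt (x, y)) = (Set.Icc a b).indicator 1 x := by
        intro x
        by_cases hx : x ∈ Set.Icc a b
        · rw [Set.indicator_of_mem hx, Set.indicator_of_mem]
          · rfl
          · exact ⟨hx, by rw [pt_im hy]; exact hyY⟩
        · rw [Set.indicator_of_notMem hx, Set.indicator_of_notMem]
          exact fun h => hx h.1
      simp only [h2]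
      rw [lintegral_indicator_one measurableSet_Icc, Real.volume_Icc]
    · rw [Set.indicator_of_notMem hyY]
      have h2 : ∀ x : ℝ, {z : ℍ | z.re ∈ Set.Icc a b ∧ Y < z.im}.indicator (1 : ℍ → ℝ≥0∞)
          (pt (x, y)) = 0 := by
        intro x
        rw [Set.indicator_of_notMem]
        intro h
        apply hyY
        have := h.2
        rw [pt_im hy] at this
        exact this
      simp only [h2, lintegral_zero]
  rw [lintegral_congr_ae h1, lintegral_indicator measurableSet_Ioi, lintegral_const,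
    Measure.restrict_apply_univ, ny_Ioi hY, ← ENNReal.ofReal_mul (by linarith)]
  rfl

theorem small {E ε Y : ℝ} (hε : 0 < ε) (a b c d : ℤ) :
    ∀ w ∈ SS2 E ε Y a b c d, |2 * (c : ℝ) * w.re + ((d : ℝ) - a)| ≤ ε ∧
      |(c : ℝ) * (w.re ^ 2 - w.im ^ 2) + ((d : ℝ) - a) * w.re - b| ≤ ε * w.im := by
  rintro w ⟨_, _, _, w4⟩
  have hw0 := w.im_pos
  constructor
  · have h1 : |2 * (c : ℝ) * w.re * w.im + ((d : ℝ) - a) * w.im| ≤ ε * w.im := by
      apply abs_le_of_sq_le_sq _ (by positivity)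
      rw [mul_pow]
      have h0 := sq_nonneg ((c : ℝ) * (w.re ^ 2 - w.im ^ 2) + ((d : ℝ) - a) * w.re - b)
      linarith
    have e : 2 * (c : ℝ) * w.re * w.im + ((d : ℝ) - a) * w.im =
        (2 * (c : ℝ) * w.re + ((d : ℝ) - a)) * w.im := by ring
    rw [e, abs_mul, abs_of_pos hw0] at h1
    exact le_of_mul_le_mul_right h1 hw0
  · apply abs_le_of_sq_le_sq _ (by positivity)
    rw [mul_pow]
    have h0 := sq_nonneg (2 * (c : ℝ) * w.re * w.im + ((d : ℝ) - a) * w.im)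
    linarith

theorem vol_b {E ε Y : ℝ} (hε : 0 < ε) (a b d : ℤ) (hb : b ≠ 0) :
    volume (SS2 E ε Y a b 0 d) ≤ ENNReal.ofReal (3 * ε / |(b : ℝ)|) := by
  have hb0 : 0 < |(b : ℝ)| := abs_pos.2 (by exact_mod_cast hb)
  have h4 : SS2 E ε Y a b 0 d ⊆ {z : ℍ | |z.re| < 1 / 2 ∧ |(b : ℝ)| / (3 * ε) < z.im} := by
    intro w hw
    obtain ⟨s1, s2⟩ := small hε a b 0 d w hw
    obtain ⟨g1, g2, g3⟩ := fdo_bounds hw.1
    simp only [Int.cast_zero, mul_zero, zero_mul, zero_add] at s1 s2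
    refine ⟨g1, ?_⟩
    rw [div_lt_iff₀ (by positivity)]
    have s3 : |((d : ℝ) - a) * w.re| ≤ ε / 2 := by
      rw [abs_mul]
      have := mul_le_mul s1 g1.le (abs_nonneg _) hε.le
      linarith
    have s4 : |(b : ℝ)| ≤ ε * w.im + ε / 2 := by
      have e : (b : ℝ) = ((d : ℝ) - a) * w.re - (((d : ℝ) - a) * w.re - b) := by ring
      rw [e]
      refine (abs_sub _ _).trans ?_
      linarith
    have s5 : ε * (4 / 5) < ε * w.im := mul_lt_mul_of_pos_left g3 hε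
    have s6 : w.im * (3 * ε) = 3 * (ε * w.im) := by ring
    rw [s6]
    linarith
  refine (measure_mono h4).trans ?_
  rw [vol_strip _ (by positivity), inv_div]

theorem vol_c {E ε Y : ℝ} (hε : 0 < ε) (a b c d : ℤ) (hc : c ≠ 0) :
    volume (SS2 E ε Y a b c d) ≤ ENNReal.ofReal (2 * ε) := by
  have hc1 : 1 ≤ |(c : ℝ)| := by
    have := Int.one_le_abs hc
    exact_mod_cast this
  have hcr : (c : ℝ) ≠ 0 := by exact_mod_cast hc
  obtain ⟨m, hm⟩ : ∃ m : ℝ, m = -(((d : ℝ) - a) / (2 * c)) := ⟨_, rfl⟩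
  have h4 : SS2 E ε Y a b c d ⊆
      {z : ℍ | z.re ∈ Set.Icc (m - ε / 2) (m + ε / 2) ∧ 4 / 5 < z.im} := by
    intro w hw
    obtain ⟨s1, s2⟩ := small hε a b c d w hw
    obtain ⟨g1, g2, g3⟩ := fdo_bounds hw.1
    refine ⟨?_, g3⟩
    have e : 2 * (c : ℝ) * w.re + ((d : ℝ) - a) = (2 * c) * (w.re - m) := by
      rw [hm]
      field_simp
      ring
    rw [e, abs_mul, abs_mul, abs_two] at s1
    have s3 : |w.re - m| ≤ ε / 2 := by
      have s4 : 1 * |w.re - m| ≤ |(c : ℝ)| * |w.re - m| :=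
        mul_le_mul_of_nonneg_right hc1 (abs_nonneg _)
      linarith
    rw [abs_le] at s3
    constructor <;> linarith [s3.1, s3.2]
  refine (measure_mono h4).trans ?_
  rw [vol_strip2 (by linarith) (by norm_num)]
  apply ENNReal.ofReal_le_ofReal
  have : (m + ε / 2 - (m - ε / 2)) / (4 / 5) = 5 / 4 * ε := by ring
  rw [this]
  linarith

theorem term_a {N : ℕ} {E ε Y : ℝ} (hE : 1 ≤ E) (hε : 0 < ε)
    (a d : ℤ) (had : a ≠ d) (hne : (SS2 E ε Y a 0 0 d).Nonempty) (i5 : |(a : ℝ) - d| ≤ 3 * E) :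
    (lv N a 0 0 d : ℝ≥0∞) * volume (SS2 E ε Y a 0 0 d) ≤
      ENNReal.ofReal ε * ENNReal.ofReal (6 * E) := by
  have hE0 : 0 < E := by linarith
  obtain ⟨z, hz2⟩ := hne
  have hε1 : 1 ≤ ε := by
    have h1 := (small hε a 0 0 d z hz2).1
    have h2 : (1 : ℝ) ≤ |(d : ℝ) - a| := by
      have h3 : (1 : ℤ) ≤ |d - a| := Int.one_le_abs (sub_ne_zero.2 had.symm)
      have h4 : ((1 : ℤ) : ℝ) ≤ ((|d - a| : ℤ) : ℝ) := by exact_mod_cast h3
      push_cast at h4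
      exact h4
    simp only [Int.cast_zero, mul_zero, zero_mul, zero_add] at h1
    linarith
  have hv : volume (SS2 E ε Y a 0 0 d) ≤ ENNReal.ofReal 2 :=
    (measure_mono fun w hw => hw.1).trans vol_fdo
  have h1 : (lv N a 0 0 d : ℝ) ≤ 3 * E := by
    have h2 : lv N a 0 0 d ∣ (a - d).natAbs := by
      unfold lv
      simp only [Int.natAbs_zero, Nat.gcd_zero_left]
      exact Nat.gcd_dvd_right _ _
    have h3 := Nat.le_of_dvd (Int.natAbs_pos.2 (sub_ne_zero.2 had)) h2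
    have h4 : ((a - d).natAbs : ℝ) = |(a : ℝ) - d| := by
      rw [Nat.cast_natAbs]; push_cast; rfl
    calc (lv N a 0 0 d : ℝ) ≤ ((a - d).natAbs : ℝ) := by exact_mod_cast h3
      _ ≤ 3 * E := by rw [h4]; exact i5
  calc (lv N a 0 0 d : ℝ≥0∞) * volume (SS2 E ε Y a 0 0 d)
      ≤ ENNReal.ofReal (3 * E) * ENNReal.ofReal 2 := by
        gcongr
        rw [← ENNReal.ofReal_natCast]
        exact ENNReal.ofReal_le_ofReal h1
    _ ≤ ENNReal.ofReal ε * ENNReal.ofReal (6 * E) := by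
        rw [← ENNReal.ofReal_mul (by positivity), ← ENNReal.ofReal_mul hε.le]
        apply ENNReal.ofReal_le_ofReal
        nlinarith

theorem term_b {N : ℕ} (hN : 0 < N) {E ε Y : ℝ} (hE : 1 ≤ E) (hε : 0 < ε)
    (a b d : ℤ) (hb : b ≠ 0) (h1 : |(b : ℝ)| ≤ 2 * E * Y) :
    (lv N a b 0 d : ℝ≥0∞) * volume (SS2 E ε Y a b 0 d) ≤
      ENNReal.ofReal ε * (gb N (2 * E * Y) b * ENNReal.ofReal (3 * E)) := by
  have hE0 : 0 < E := by linarith
  have hb0 : 0 < |(b : ℝ)| := abs_pos.2 (by exact_mod_cast hb)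
  have h2 : gb N (2 * E * Y) b = ENNReal.ofReal (Nat.gcd N b.natAbs / |(b : ℝ)|) :=
    if_pos ⟨hb, h1⟩
  rw [h2, ← ENNReal.ofReal_mul (by positivity)]
  have h5 : lv N a b 0 d ≤ Nat.gcd N b.natAbs := by
    apply Nat.le_of_dvd (Nat.gcd_pos_of_pos_left _ hN)
    unfold lv
    exact Nat.gcd_dvd_gcd_of_dvd_right _ (Nat.gcd_dvd_left _ _)
  calc (lv N a b 0 d : ℝ≥0∞) * volume (SS2 E ε Y a b 0 d)
      ≤ ENNReal.ofReal (Nat.gcd N b.natAbs) * ENNReal.ofReal (3 * ε / |(b : ℝ)|) := by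
        refine mul_le_mul' ?_ (vol_b hε a b d hb)
        rw [ENNReal.ofReal_natCast]
        exact_mod_cast h5
    _ ≤ _ := by
        rw [← ENNReal.ofReal_mul (by positivity), ← ENNReal.ofReal_mul hε.le]
        apply ENNReal.ofReal_le_ofReal
        have e1 : (Nat.gcd N b.natAbs : ℝ) * (3 * ε / |(b : ℝ)|) =
            ε * ((Nat.gcd N b.natAbs : ℝ) / |(b : ℝ)| * 3) := by ring
        rw [e1]
        refine mul_le_mul_of_nonneg_left ?_ hε.le
        refine mul_le_mul_of_nonneg_left ?_ (by positivity)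
        linarith

theorem term_c {N : ℕ} {E ε Y : ℝ} (hE : 1 ≤ E) (hε : 0 < ε)
    (a b c d : ℤ) (hc : c ≠ 0) (i2 : |(c : ℝ)| ≤ 2 * E) :
    (lv N a b c d : ℝ≥0∞) * volume (SS2 E ε Y a b c d) ≤
      ENNReal.ofReal ε * ENNReal.ofReal (4 * E) := by
  have hE0 : 0 < E := by linarith
  have h1 : (lv N a b c d : ℝ) ≤ 2 * E := by
    have h2 : lv N a b c d ∣ c.natAbs :=
      (Nat.gcd_dvd_right _ _).trans ((Nat.gcd_dvd_right _ _).trans (Nat.gcd_dvd_left _ _))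
    have h3 := Nat.le_of_dvd (Int.natAbs_pos.2 hc) h2
    have h4 : (c.natAbs : ℝ) = |(c : ℝ)| := by
      rw [Nat.cast_natAbs]; push_cast; rfl
    calc (lv N a b c d : ℝ) ≤ (c.natAbs : ℝ) := by exact_mod_cast h3
      _ ≤ 2 * E := by rw [h4]; exact i2
  calc (lv N a b c d : ℝ≥0∞) * volume (SS2 E ε Y a b c d)
      ≤ ENNReal.ofReal (2 * E) * ENNReal.ofReal (2 * ε) := by
        refine mul_le_mul' ?_ (vol_c hε a b c d hc)
        rw [← ENNReal.ofReal_natCast]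
        exact ENNReal.ofReal_le_ofReal h1
    _ = _ := by
        rw [← ENNReal.ofReal_mul (by positivity), ← ENNReal.ofReal_mul hε.le]
        congr 1
        ring

theorem term_le2 {N : ℕ} (hN : 0 < N) {E ε Y : ℝ} (hE : 1 ≤ E) (hε : 0 < ε) (hεE : ε ≤ E)
    (a b c d : ℤ) (hs : ¬ (b = 0 ∧ c = 0 ∧ a = d)) :
    (lv N a b c d : ℝ≥0∞) * volume (SS2 E ε Y a b c d) ≤ ENNReal.ofReal ε * rhs N E Y a b c d := by
  by_cases hne : (SS2 E ε Y a b c d).Nonempty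
  swap
  · rw [Set.not_nonempty_iff_eq_empty.1 hne, measure_empty, mul_zero]
    exact zero_le
  have hE0 : 0 < E := by linarith
  have hsub : SS2 E ε Y a b c d ⊆ SS E Y a b c d := by
    rintro w ⟨w1, w2, w3, w4⟩
    refine ⟨w1, w2, w3, w4.trans ?_⟩
    exact mul_le_mul_of_nonneg_right (pow_le_pow_left₀ hε.le hεE 2) (sq_nonneg _)
  obtain ⟨z, hz2⟩ := hne
  obtain ⟨hz, hzY, hz1, hz4⟩ := hsub hz2
  obtain ⟨f1, f2, f3⟩ := fdo_bounds hz
  obtain ⟨i1, i2, i3, i4, i5, i6, i7⟩ := ineqs hE z.im_pos f1 f2 hz1 hz4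
  unfold rhs
  rw [bx_eq i4, bx_eq i3, one_mul, one_mul]
  by_cases hc : c = 0
  · subst hc
    rw [if_pos rfl, one_mul]
    refine le_trans ?_ (mul_le_mul' le_rfl le_add_self)
    by_cases hb : b = 0
    · subst hb
      rw [if_pos rfl, one_mul]
      refine le_trans ?_ (mul_le_mul' le_rfl le_add_self)
      exact term_a hE hε a d (fun h => hs ⟨rfl, rfl, h⟩) ⟨z, hz2⟩ i5
    · refine le_trans ?_ (mul_le_mul' le_rfl le_self_add)
      have h1 : |(b : ℝ)| ≤ 2 * E * Y := by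
        refine (i7 (by simp)).trans ?_
        exact mul_le_mul_of_nonneg_left hzY (by positivity)
      exact term_b hN hE hε a b d hb h1
  · refine le_trans ?_ (mul_le_mul' le_rfl le_self_add)
    have hc1 : 1 ≤ |(c : ℝ)| := by
      have := Int.one_le_abs hc
      exact_mod_cast this
    rw [bx_eq i2, bx_eq (i6 hc1), one_mul, one_mul]
    exact term_c hE hε a b c d hc i2

/-- the weighted sum over integral matrices, small displacements -/
theorem geo_sum2 {N : ℕ} (hN : 0 < N) {E ε Y : ℝ} (hE : 1 ≤ E) (hε : 0 < ε) (hεE : ε ≤ E)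
    (hY : 1 ≤ Y) :
    ∑' p : ℤ × ℤ × ℤ × ℤ, (if p.2.1 = 0 ∧ p.2.2.1 = 0 ∧ p.1 = p.2.2.2 then 0 else
      (lv N p.1 p.2.1 p.2.2.1 p.2.2.2 : ℝ≥0∞) * volume (SS2 E ε Y p.1 p.2.1 p.2.2.1 p.2.2.2)) ≤
      ENNReal.ofReal (ε * (10560 * E ^ 6 * (N.divisors.card * (1 + Real.log (2 * E * Y))))) := by
  have h1 : ∀ p : ℤ × ℤ × ℤ × ℤ, (if p.2.1 = 0 ∧ p.2.2.1 = 0 ∧ p.1 = p.2.2.2 then 0 else
      (lv N p.1 p.2.1 p.2.2.1 p.2.2.2 : ℝ≥0∞) * volume (SS2 E ε Y p.1 p.2.1 p.2.2.1 p.2.2.2)) ≤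
      ENNReal.ofReal ε * rhs N E Y p.1 p.2.1 p.2.2.1 p.2.2.2 := by
    intro p
    by_cases h : p.2.1 = 0 ∧ p.2.2.1 = 0 ∧ p.1 = p.2.2.2
    · rw [if_pos h]
      exact zero_le
    · rw [if_neg h]
      exact term_le2 hN hE hε hεE _ _ _ _ h
  refine (ENNReal.tsum_le_tsum h1).trans ?_
  rw [ENNReal.tsum_mul_left, ENNReal.ofReal_mul hε.le]
  exact mul_le_mul' le_rfl (rhs_sum hN hE hY)

/-- from the distance to the set `SS2` -/
theorem mem_SS2 {h : SL(2, ℝ)} {z : ℍ} {δ D Y : ℝ} (hδ : 0 < δ) (hδ2 : δ ≤ 1 / 2) {a b c d : ℤ}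
    (ha : D * h 0 0 = a) (hb : D * h 0 1 = b) (hc : D * h 1 0 = c) (hd' : D * h 1 1 = d)
    (hz : z ∈ (𝒟ᵒ : Set ℍ)) (hY : z.im ≤ Y) (hd : dist (h • z) z ≤ 2 * δ) :
    z ∈ SS2 (2 * D) (4 * D * δ) Y a b c d := by
  obtain ⟨h1, h2⟩ := G4.near2 hd
  have he : Real.exp (2 * δ) ≤ 4 := by
    have h3 : Real.exp (2 * δ) ≤ Real.exp 1 := Real.exp_le_exp.2 (by linarith)
    have := Real.exp_one_lt_d9
    linarith
  have hch : 2 * (Real.cosh (2 * δ) - 1) ≤ 16 * δ ^ 2 := by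
    have h3 := Real.cosh_le_exp_half_sq (2 * δ)
    have h4 : |(2 * δ) ^ 2 / 2| ≤ 1 := by
      rw [abs_of_nonneg (by positivity)]
      nlinarith
    have h5 := Real.abs_exp_sub_one_le h4
    rw [abs_of_nonneg (show 0 ≤ (2 * δ) ^ 2 / 2 by positivity)] at h5
    have h6 := (abs_le.1 h5).2
    nlinarith
  refine ⟨hz, hY, ?_, ?_⟩
  · rw [← hc, ← hd']
    calc (D * h 1 0 * z.re + D * h 1 1) ^ 2 + (D * h 1 0 * z.im) ^ 2
        = D ^ 2 * ((h 1 0 * z.re + h 1 1) ^ 2 + (h 1 0 * z.im) ^ 2) := by ring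
      _ ≤ D ^ 2 * Real.exp (2 * δ) := mul_le_mul_of_nonneg_left h1 (by positivity)
      _ ≤ D ^ 2 * 4 := mul_le_mul_of_nonneg_left he (by positivity)
      _ = (2 * D) ^ 2 := by ring
  · rw [← ha, ← hb, ← hc, ← hd']
    calc (D * h 1 0 * (z.re ^ 2 - z.im ^ 2) + (D * h 1 1 - D * h 0 0) * z.re - D * h 0 1) ^ 2 +
        (2 * (D * h 1 0) * z.re * z.im + (D * h 1 1 - D * h 0 0) * z.im) ^ 2
        = D ^ 2 * ((h 1 0 * (z.re ^ 2 - z.im ^ 2) + (h 1 1 - h 0 0) * z.re - h 0 1) ^ 2 +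
      (2 * h 1 0 * z.re * z.im + (h 1 1 - h 0 0) * z.im) ^ 2) := by ring
      _ ≤ D ^ 2 * (2 * (Real.cosh (2 * δ) - 1) * z.im ^ 2) :=
          mul_le_mul_of_nonneg_left h2 (by positivity)
      _ ≤ D ^ 2 * (16 * δ ^ 2 * z.im ^ 2) := by
          refine mul_le_mul_of_nonneg_left ?_ (by positivity)
          exact mul_le_mul_of_nonneg_right hch (by positivity)
      _ = (4 * D * δ) ^ 2 * z.im ^ 2 := by ring

end G5

end

end Pool.Agent.XE31
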