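import Pool.Agent.XE31.K2

/-!
# The trace inequality for finite families of isometries
-/

set_option autoImplicit false

open UpperHalfPlane MeasureTheory Metric ModularGroup CongruenceSubgroup
open scoped MatrixGroups ENNReal Modular Topology NNReal ComplexConjugate

namespace Pool.Agent.XE31

open Pool.Agent.H369R2 Pool.Agent.N799.DT

noncomputable section

namespace H1

open M1 M2 M3 K2

/-- the volume of the intersection of two balls -/
def vv (δ : ℝ) (z z' : ℍ) : ℝ≥0∞ := volume (closedBall z δ ∩ closedBall z' δ)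

lemma vv_le {δ : ℝ} (z z' : ℍ) : vv δ z z' ≤ ENNReal.ofReal (bv δ) := by
  unfold vv
  rw [← vol_eq δ z]
  exact measure_mono Set.inter_subset_left

lemma vv_zero {δ : ℝ} {z z' : ℍ} (h : ¬ dist z z' ≤ 2 * δ) : vv δ z z' = 0 := by
  unfold vv
  have h1 : closedBall z δ ∩ closedBall z' δ = ∅ := by
    rw [Set.eq_empty_iff_forall_notMem]
    rintro w ⟨hw1, hw2⟩
    apply h
    rw [mem_closedBall] at hw1 hw2
    calc dist z z' ≤ dist w z + dist w z' := dist_triangle_left z z' w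
      _ ≤ 2 * δ := by linarith
  rw [h1, measure_empty]

lemma vv_smul (δ : ℝ) (g : SL(2, ℤ)) (z z' : ℍ) : vv δ (g • z) (g • z') = vv δ z z' := by
  unfold vv
  have h := (mp_int g).measure_preimage_emb (me_int g) (closedBall (g • z) δ ∩ closedBall (g • z') δ)
  rw [← h]
  congr 1
  ext w
  simp only [Set.mem_preimage, Set.mem_inter_iff, mem_closedBall, dist_smul_int]

lemma measurable_vv (δ : ℝ) : Measurable fun p : ℍ × ℍ => vv δ p.1 p.2 := by
  have h : (fun p : ℍ × ℍ => vv δ p.1 p.2) = fun p : ℍ × ℍ =>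
      ∫⁻ w, {q : (ℍ × ℍ) × ℍ | dist q.2 q.1.1 ≤ δ ∧ dist q.2 q.1.2 ≤ δ}.indicator
        (1 : (ℍ × ℍ) × ℍ → ℝ≥0∞) (p, w) := by
    ext p
    unfold vv
    rw [← lintegral_indicator_one
      (isClosed_closedBall.measurableSet.inter isClosed_closedBall.measurableSet)]
    refine lintegral_congr fun w => ?_
    by_cases hw : w ∈ closedBall p.1 δ ∩ closedBall p.2 δ
    · rw [Set.indicator_of_mem hw, Set.indicator_of_mem]
      · rfl
      · exact hw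
    · rw [Set.indicator_of_notMem hw, Set.indicator_of_notMem]
      exact hw
  rw [h]
  apply Measurable.lintegral_prod_right'
  refine measurable_one.indicator ?_
  have h1 : IsClosed {q : (ℍ × ℍ) × ℍ | dist q.2 q.1.1 ≤ δ} :=
    isClosed_le (by fun_prop) continuous_const
  have h2 : IsClosed {q : (ℍ × ℍ) × ℍ | dist q.2 q.1.2 ≤ δ} :=
    isClosed_le (by fun_prop) continuous_const
  exact (h1.inter h2).measurableSet

variable {I : Type} [Fintype I] {N : ℕ} {Γ : Subgroup SL(2, ℤ)}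

/-- the function whose periodisation is the kernel -/
def bq (c : I → ℝ) (h : I → SL(2, ℝ)) (δ : ℝ) (z w : ℍ) : ℝ≥0∞ :=
  ∑ i, ENNReal.ofReal (c i) * (closedBall (h i • z) δ).indicator 1 w

lemma measurable_bq (c : I → ℝ) (h : I → SL(2, ℝ)) (δ : ℝ) (z : ℍ) : Measurable (bq c h δ z) := by
  unfold bq
  exact Finset.measurable_fun_sum _ fun i _ =>
    (measurable_one.indicator isClosed_closedBall.measurableSet).const_mul _

lemma lint_bq (c : I → ℝ) (h : I → SL(2, ℝ)) (δ : ℝ) (z : ℍ) {u : ℍ → ℝ≥0∞} (hu : Measurable u) :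
    ∫⁻ w, bq c h δ z w * u w = ∑ i, ENNReal.ofReal (c i) * ∫⁻ w in closedBall (h i • z) δ, u w := by
  have h1 : ∀ w, bq c h δ z w * u w = ∑ i, ENNReal.ofReal (c i) *
      (closedBall (h i • z) δ).indicator u w := by
    intro w
    unfold bq
    rw [Finset.sum_mul]
    refine Finset.sum_congr rfl fun i _ => ?_
    rw [mul_assoc]
    congr 1
    by_cases hw : w ∈ closedBall (h i • z) δ
    · rw [Set.indicator_of_mem hw, Set.indicator_of_mem hw, Pi.one_apply, one_mul]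
    · rw [Set.indicator_of_notMem hw, Set.indicator_of_notMem hw, zero_mul]
  rw [lintegral_congr h1, lintegral_finsetSum]
  · refine Finset.sum_congr rfl fun i _ => ?_
    rw [lintegral_const_mul _ (hu.indicator isClosed_closedBall.measurableSet),
      lintegral_indicator isClosed_closedBall.measurableSet]
  · exact fun i _ => (hu.indicator isClosed_closedBall.measurableSet).const_mul _

/-- the functional -/
def fn (c : I → ℝ) (h : I → SL(2, ℝ)) (δ : ℝ) (z : ℍ) : LW N →ₗ[ℂ] ℂ where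
  toFun u := ∑ i, (c i : ℂ) * ∫ w in closedBall (h i • z) δ, (u : ℍ → ℂ) w
  map_add' u v := by
    rw [← Finset.sum_add_distrib]
    refine Finset.sum_congr rfl fun i _ => ?_
    rw [← mul_add, ← integral_add (cont_intOn (LW.cont u) _ _) (cont_intOn (LW.cont v) _ _)]
    rfl
  map_smul' a u := by
    rw [RingHom.id_apply, smul_eq_mul, Finset.mul_sum]
    refine Finset.sum_congr rfl fun i _ => ?_
    have h : ∫ w in closedBall (h i • z) δ, ((a • u : LW N) : ℍ → ℂ) w =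
        a * ∫ w in closedBall (h i • z) δ, (u : ℍ → ℂ) w := by
      rw [← integral_const_mul]
      rfl
    rw [h, mul_left_comm]

lemma fn_apply (c : I → ℝ) (h : I → SL(2, ℝ)) (δ : ℝ) (z : ℍ) (u : LW N) :
    fn c h δ z u = ∑ i, (c i : ℂ) * ∫ w in closedBall (h i • z) δ, (u : ℍ → ℂ) w := rfl

lemma fn_le {c : I → ℝ} (hc : ∀ i, 0 ≤ c i) (h : I → SL(2, ℝ)) (δ : ℝ) (z : ℍ) (u : LW N) :
    ‖fn c h δ z u‖ₑ ≤ ∫⁻ w, bq c h δ z w * ‖(u : ℍ → ℂ) w‖ₑ := by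
  rw [lint_bq c h δ z (LW.cont u).measurable.enorm, fn_apply]
  refine (enorm_sum_le _ _).trans (Finset.sum_le_sum fun i _ => ?_)
  rw [enorm_mul]
  refine mul_le_mul' (le_of_eq ?_) (enorm_integral_le_lintegral_enorm _)
  rw [← ofReal_norm, Complex.norm_real, Real.norm_of_nonneg (hc i)]

/-- the kernel -/
def qq (c : I → ℝ) (h : I → SL(2, ℝ)) (δ : ℝ) (τ : SL(2, ℤ)) (z : ℍ) : ℝ≥0∞ :=
  ∑ i, ∑ j, ENNReal.ofReal (c i) * (ENNReal.ofReal (c j) * vv δ (h i • z) (τ • h j • z))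

lemma measurable_vv_smul (δ : ℝ) (g g' : SL(2, ℝ)) (τ : SL(2, ℤ)) :
    Measurable fun z : ℍ => vv δ (g • z) (τ • g' • z) := by
  have h : Measurable fun z : ℍ => (g • z, τ • g' • z) :=
    (mp_real g).measurable.prodMk ((cont_smul_int τ).measurable.comp (mp_real g').measurable)
  exact Measurable.comp (g := fun p : ℍ × ℍ => vv δ p.1 p.2)
    (f := fun z : ℍ => (g • z, τ • g' • z)) (measurable_vv δ) h

lemma measurable_qq (c : I → ℝ) (h : I → SL(2, ℝ)) (δ : ℝ) (τ : SL(2, ℤ)) :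
    Measurable (qq c h δ τ) := by
  unfold qq
  exact Finset.measurable_fun_sum _ fun i _ => Finset.measurable_fun_sum _ fun j _ =>
    ((measurable_vv_smul δ (h i) (h j) τ).const_mul _).const_mul _

lemma bq_conv (c : I → ℝ) (h : I → SL(2, ℝ)) (δ : ℝ) (z : ℍ) (γ : SL(2, ℤ)) :
    ∫⁻ w, bq c h δ z w * bq c h δ z (γ⁻¹ • w) = qq c h δ γ z := by
  rw [lint_bq c h δ z (u := fun w => bq c h δ z (γ⁻¹ • w))
    ((measurable_bq c h δ z).comp (cont_smul_int γ⁻¹).measurable)]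
  unfold qq
  refine Finset.sum_congr rfl fun i _ => ?_
  rw [← Finset.mul_sum]
  congr 1
  unfold bq
  rw [lintegral_finsetSum]
  · refine Finset.sum_congr rfl fun j _ => ?_
    have hm : Measurable fun w : ℍ => (closedBall (h j • z) δ).indicator (1 : ℍ → ℝ≥0∞) (γ⁻¹ • w) :=
      (measurable_one.indicator isClosed_closedBall.measurableSet).comp
        (cont_smul_int γ⁻¹).measurable
    rw [lintegral_const_mul _ hm]
    congr 1
    have h1 : ∀ w : ℍ, (closedBall (h j • z) δ).indicator (1 : ℍ → ℝ≥0∞) (γ⁻¹ • w) =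
        (closedBall (γ • h j • z) δ).indicator 1 w := by
      intro w
      have h2 : γ⁻¹ • w ∈ closedBall (h j • z) δ ↔ w ∈ closedBall (γ • h j • z) δ := by
        rw [mem_closedBall, mem_closedBall, ← dist_smul_int γ, smul_inv_smul]
      by_cases hw : w ∈ closedBall (γ • h j • z) δ
      · rw [Set.indicator_of_mem hw, Set.indicator_of_mem (h2.2 hw)]
        rfl
      · rw [Set.indicator_of_notMem hw, Set.indicator_of_notMem fun h => hw (h2.1 h)]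
    simp only [h1]
    rw [lintegral_indicator_one isClosed_closedBall.measurableSet,
      Measure.restrict_apply isClosed_closedBall.measurableSet, Set.inter_comm]
    rfl
  · intro j _
    exact ((measurable_one.indicator isClosed_closedBall.measurableSet).comp
        (cont_smul_int γ⁻¹).measurable).const_mul _

/-- compatibility of the family with the modular group -/
def HP (N : ℕ) (c : I → ℝ) (h : I → SL(2, ℝ)) : Prop :=
  ∀ σ : SL(2, ℤ), ∃ (π : Equiv.Perm I) (γ : I → SL(2, ℤ)), (∀ i, γ i ∈ Gamma N) ∧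
    (∀ i, c (π i) = c i) ∧
    ∀ i, h i * (σ : SL(2, ℝ)) = (σ : SL(2, ℝ)) * (γ i : SL(2, ℝ)) * h (π i)

lemma sl_eq (σ : SL(2, ℤ)) (z : ℍ) : (σ : SL(2, ℝ)) • z = σ • z := rfl

lemma HP_sum {c : I → ℝ} {h : I → SL(2, ℝ)} (hΓ : Gamma N ≤ Γ) (hp : HP N c h) (δ : ℝ)
    (σ : SL(2, ℤ)) (z : ℍ) :
    ∑' γ : Γ, qq c h δ γ (σ • z) = ∑' γ : Γ, qq c h δ (σ⁻¹ * γ * σ) z := by
  obtain ⟨π, γ, hγ, hc, hh⟩ := hp σ
  have hact : ∀ i, h i • (σ • z) = σ • γ i • h (π i) • z := by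
    intro i
    rw [← sl_eq σ z, ← mul_smul (h i) (σ : SL(2, ℝ)) z, hh i,
      mul_smul ((σ : SL(2, ℝ)) * (γ i : SL(2, ℝ))) (h (π i)) z,
      mul_smul (σ : SL(2, ℝ)) (γ i : SL(2, ℝ)) (h (π i) • z), sl_eq, sl_eq]
  have hpair : ∀ i j, ∑' g : Γ, vv δ (h i • (σ • z)) ((g : SL(2, ℤ)) • h j • (σ • z)) =
      ∑' g : Γ, vv δ (h (π i) • z) ((σ⁻¹ * (g : SL(2, ℤ)) * σ) • h (π j) • z) := by
    intro i j
    have hi : σ * γ i * σ⁻¹ ∈ Γ := hΓ ((Gamma_normal N).conj_mem _ (hγ i) σ)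
    have hj : σ * γ j * σ⁻¹ ∈ Γ := hΓ ((Gamma_normal N).conj_mem _ (hγ j) σ)
    obtain ⟨x, hx⟩ : ∃ x : Γ, (x : SL(2, ℤ)) = σ * γ i * σ⁻¹ := ⟨⟨_, hi⟩, rfl⟩
    obtain ⟨y, hy⟩ : ∃ y : Γ, (y : SL(2, ℤ)) = σ * γ j * σ⁻¹ := ⟨⟨_, hj⟩, rfl⟩
    rw [← ((Equiv.mulLeft x).trans (Equiv.mulRight y⁻¹)).tsum_eq]
    refine tsum_congr fun g => ?_
    rw [hact, hact]
    have e : ((((Equiv.mulLeft x).trans (Equiv.mulRight y⁻¹)) g : Γ) : SL(2, ℤ)) =
        σ * γ i * σ⁻¹ * g * (σ * γ j * σ⁻¹)⁻¹ := by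
      simp [hx, hy]
    rw [e]
    have e2 : (σ * γ i * σ⁻¹ * (g : SL(2, ℤ)) * (σ * γ j * σ⁻¹)⁻¹) • σ • γ j • h (π j) • z =
        σ • γ i • (σ⁻¹ * (g : SL(2, ℤ)) * σ) • h (π j) • z := by
      simp only [← mul_smul]
      congr 1
      group
    rw [e2, vv_smul, vv_smul]
  have hswap : ∀ (h' : I → ℍ) (f : Γ → SL(2, ℤ)), ∑' g : Γ, ∑ i, ∑ j, ENNReal.ofReal (c i) *
      (ENNReal.ofReal (c j) * vv δ (h' i) (f g • h' j)) =
      ∑ i, ∑ j, ENNReal.ofReal (c i) * (ENNReal.ofReal (c j) *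
        ∑' g : Γ, vv δ (h' i) (f g • h' j)) := by
    intro h' f
    rw [Summable.tsum_finsetSum fun _ _ => ENNReal.summable]
    refine Finset.sum_congr rfl fun i _ => ?_
    rw [Summable.tsum_finsetSum fun _ _ => ENNReal.summable]
    refine Finset.sum_congr rfl fun j _ => ?_
    rw [ENNReal.tsum_mul_left, ENNReal.tsum_mul_left]
  unfold qq
  rw [hswap (fun i => h i • (σ • z)) (fun g => g), hswap (fun i => h i • z)
    (fun g => σ⁻¹ * g * σ)]
  simp only [hpair]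
  rw [← Equiv.sum_comp π (fun i => ∑ j, ENNReal.ofReal (c i) * (ENNReal.ofReal (c j) *
        ∑' g : Γ, vv δ (h i • z) ((σ⁻¹ * (g : SL(2, ℤ)) * σ) • h j • z)))]
  refine Finset.sum_congr rfl fun i _ => ?_
  rw [← Equiv.sum_comp π (fun j => ENNReal.ofReal (c (π i)) * (ENNReal.ofReal (c j) *
        ∑' g : Γ, vv δ (h (π i) • z) ((σ⁻¹ * (g : SL(2, ℤ)) * σ) • h j • z)))]
  refine Finset.sum_congr rfl fun j _ => ?_
  rw [hc i, hc j]

/-- the trace inequality -/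
theorem trace (hN : 0 < N) (hΓ : Gamma N ≤ Γ) {c : I → ℝ} (hc : ∀ i, 0 ≤ c i)
    {h : I → SL(2, ℝ)} (hp : HP N c h) (δ : ℝ) {k : ℕ} (e : Fin k → LW N)
    (he : Orthonormal ℂ e)
    (hinv : ∀ i, ∀ γ ∈ Γ, ∀ z : ℍ, (e i : ℍ → ℂ) (γ • z) = (e i : ℍ → ℂ) z) (ψ : Fin k → LW N)
    (hψ : ∀ i z, fn c h δ z (e i) = (ψ i : ℍ → ℂ) z) (Y : ℝ) :
    2 * ∑ i, ∫⁻ z in (cuspRegion Y)ᶜ, ‖(ψ i : ℍ → ℂ) z‖ₑ ^ 2 ∂(nu N) ≤
      ∫⁻ z in 𝒟ᵒ ∩ (cuspRegion Y)ᶜ, ∑' τ : SL(2, ℤ), (fix Γ τ : ℝ≥0∞) * qq c h δ τ z := by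
  have hr0 : ((Gamma N).relIndex Γ : ℝ≥0∞) ≠ 0 := by exact_mod_cast relIndex_ne hN Γ
  have hrt : ((Gamma N).relIndex Γ : ℝ≥0∞) ≠ ∞ := ENNReal.natCast_ne_top _
  obtain ⟨P, hP⟩ : ∃ P : ℍ → ℝ≥0∞, P = fun z => ∑' γ : Γ, qq c h δ γ z := ⟨_, rfl⟩
  have hpt : ∀ z : ℍ, 2 * ((Gamma N).relIndex Γ : ℝ≥0∞) *
      ∑ i, ‖(ψ i : ℍ → ℂ) z‖ₑ ^ 2 ≤ P z := by
    intro z
    have h1 := fam_gen hN hΓ e he hinv (fn c h δ z) (measurable_bq c h δ z) (fn_le hc h δ z)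
    have h2 : ∑' γ : Γ, ∫⁻ w, bq c h δ z w * bq c h δ z ((γ : SL(2, ℤ)) • w) = P z := by
      rw [hP]
      simp only
      rw [← (Equiv.inv Γ).tsum_eq]
      refine tsum_congr fun γ => ?_
      rw [← bq_conv]
      rfl
    rw [h2] at h1
    simp only [hψ] at h1
    exact h1
  have hPσ : ∀ (σ : SL(2, ℤ)) (z : ℍ), P (σ • z) =
      ∑' γ : Γ, (qq c h δ) (σ⁻¹ * γ * σ) z := by
    intro σ z
    rw [hP]
    exact HP_sum hΓ hp δ σ z
  have h1 := lintegral_mono (μ := (nu N).restrict (cuspRegion Y)ᶜ) hpt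
  rw [K1.unf_gen hN hΓ P (qq c h δ) (measurable_qq c h δ) hPσ Y] at h1
  have hmeas : ∀ i, Measurable fun z => ‖(ψ i : ℍ → ℂ) z‖ₑ ^ 2 :=
    fun i => (LW.cont (ψ i)).measurable.enorm.pow_const 2
  rw [lintegral_const_mul _ (Finset.measurable_fun_sum _ fun i _ => hmeas i),
    lintegral_finsetSum _ fun i _ => hmeas i] at h1
  have h3 : ((Gamma N).relIndex Γ : ℝ≥0∞) * (2 * ∑ i, ∫⁻ z in (cuspRegion Y)ᶜ,
      ‖(ψ i : ℍ → ℂ) z‖ₑ ^ 2 ∂(nu N)) ≤
      ((Gamma N).relIndex Γ : ℝ≥0∞) * ∫⁻ z in 𝒟ᵒ ∩ (cuspRegion Y)ᶜ,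
        ∑' τ : SL(2, ℤ), (fix Γ τ : ℝ≥0∞) * qq c h δ τ z := by
    refine le_trans (le_of_eq ?_) h1
    ring
  exact (ENNReal.mul_le_mul_iff_right hr0 hrt).mp h3

end H1

end

end Pool.Agent.XE31
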