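import Pool.Agent.XE31.H9

/-!
# The inequality for families of Hecke operators, conclusion
-/

set_option autoImplicit false
set_option linter.all false

open UpperHalfPlane MeasureTheory Metric ModularGroup CongruenceSubgroup
open scoped MatrixGroups ENNReal Modular Topology NNReal

namespace Pool.Agent.XE31

open Pool.Agent.H369R2 Pool.Agent.N799.DT

noncomputable section

namespace H10

open H1 H4 H5 H6 H7 H8 H9 M1 K2 X3

/-- the inequality for families of Hecke operators -/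
theorem ineq : ∃ C : ℝ, 0 < C ∧ ∀ (Γ : Subgroup SL(2, ℤ)) (N : ℕ), IsLevel Γ N → ∀ T : ℝ, 1 ≤ T →
    ∀ (Ms : Finset ℕ) (S : ℕ → Finset MZ), (∀ m ∈ Ms, 0 < m) → (∀ m ∈ Ms, Nat.Coprime m N) →
    (∀ m ∈ Ms, (m : ℝ) ≤ (Γ.index * T) ^ (1 / 1000 : ℝ)) → (∀ m ∈ Ms, Reps N m (S m)) →
    ∀ (k : ℕ) (κ : Fin k → ℝ) (φ : Fin k → LW N), (∀ i, 0 ≤ κ i) → (∀ i, κ i ≤ T ^ 2) →
      (∀ i, φ i ∈ EV N Γ (aK (κ i))) → LinearIndependent ℂ φ →
      ∀ Λ : Fin k → ℕ → ℝ, (∀ i, ∀ m ∈ Ms, ∀ z : ℍ, ∑ g ∈ S m, (φ i : ℍ → ℂ) (nm m g • z) =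
        ((m * Λ i m : ℝ) : ℂ) * (φ i : ℍ → ℂ) z) →
      ∑ i, (∑ m ∈ Ms, Λ i m) ^ 2 ≤ C * Γ.index * T ^ 2 * (SG Ms + 1) := by
  obtain ⟨C₁, hC₁, hfix⟩ := E1.fix_lin
  obtain ⟨C₂, hC₂, herr⟩ := err
  refine ⟨1024 + 692060160 * C₁ * C₂, by positivity, ?_⟩
  intro Γ N hN T hT Ms S hM hMc hMM hS k κ φ hκ hκ2 hφ hli Λ hΛ
  have hN0 := hN.1
  have : NeZero N := ⟨hN0.ne'⟩
  have hN1 : (1 : ℝ) ≤ N := by exact_mod_cast hN0
  have hT0 : 0 < T := by linarith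
  have hfin : Γ.FiniteIndex := Subgroup.finiteIndex_of_le hN.2.1
  have hn0 : 0 < Γ.index := Nat.pos_of_ne_zero hfin.index_ne_zero
  have hn1 : (1 : ℝ) ≤ Γ.index := by exact_mod_cast hn0
  obtain ⟨n, hn⟩ : ∃ n : ℝ, n = Γ.index := ⟨_, rfl⟩
  rw [← hn] at hn1 hMM ⊢
  have hnN : n ≤ (N : ℝ) ^ 3 := by
    have i1 : Γ.index ≤ N ^ 3 := by
      have i2 := Pool.Agent.H369R2.index_Gamma_le N hN0.ne'
      have i3 : Γ.index ≤ (Gamma N).index :=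
        Nat.le_of_dvd (Nat.pos_of_ne_zero Subgroup.FiniteIndex.index_ne_zero)
          (Subgroup.index_dvd_of_le hN.2.1)
      exact i3.trans i2
    rw [hn]; exact_mod_cast i1
  obtain ⟨M, hMdef⟩ : ∃ M, M = (n * T) ^ (1 / 1000 : ℝ) := ⟨_, rfl⟩
  have hM1 : 1 ≤ M := by
    rw [hMdef]
    exact Real.one_le_rpow (one_le_mul_of_one_le_of_one_le hn1 hT) (by norm_num)
  have herr' := herr N n T hN0 hT hn1 hnN
  rw [← hMdef] at hMM herr'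
  obtain ⟨δ, hδd⟩ : ∃ δ : ℝ, δ = 1 / (8 * T) := ⟨_, rfl⟩
  rw [← hδd] at herr'
  have hδ : 0 < δ := by rw [hδd]; positivity
  have hδT : δ * T = 1 / 8 := by rw [hδd]; field_simp
  have hδ8 : δ ≤ 1 / 8 := by
    have : δ * 1 ≤ δ * T := mul_le_mul_of_nonneg_left hT hδ.le
    linarith
  have hδ2 : δ ≤ 1 / 2 := by linarith
  obtain ⟨Y, hYd⟩ : ∃ Y : ℝ, Y = 256 * N * T ^ 2 := ⟨_, rfl⟩
  rw [← hYd] at herr'
  have hT2 : 1 ≤ T ^ 2 := one_le_pow₀ hT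
  have hY256 : 256 ≤ Y := by rw [hYd]; nlinarith
  have hY1 : 1 ≤ Y := by linarith
  have hexp : Real.exp δ ≤ 2 := by
    have h1 : Real.exp δ ≤ Real.exp (1 / 8) := Real.exp_le_exp.2 hδ8
    have h2 : Real.exp (1 / 8) ≤ 2 := by
      have h3 := Real.exp_bound_div_one_sub_of_interval (x := 1 / 8) (by norm_num) (by norm_num)
      refine h3.trans ?_
      norm_num
    linarith
  have ha : ∀ i, 1 / 2 ≤ aK (κ i) δ := by
    intro i
    apply aK_lower (hκ i) hδ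
    have h1 : δ ^ 2 * (1 + κ i) ≤ δ ^ 2 * (T ^ 2 + T ^ 2) := by
      apply mul_le_mul_of_nonneg_left _ (sq_nonneg _)
      have := hκ2 i
      linarith
    have h2 : δ ^ 2 * (T ^ 2 + T ^ 2) = 2 * (δ * T) ^ 2 := by ring
    rw [h2, hδT] at h1
    linarith
  have hbv := bv_small hδ hδ2
  have hbv0 : 0 < bv δ := bv_pos hδ
  have hprod : ∀ i, bv δ / 2 ≤ bv δ * aK (κ i) δ := by
    intro i
    have := mul_le_mul_of_nonneg_left (ha i) hbv0.le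
    linarith
  have hY2 : ∀ i, 2 * (N ^ 2 * Real.exp δ / Y ^ 2) ≤ (bv δ * aK (κ i) δ) ^ 2 := by
    intro i
    have h1 : δ ^ 2 / 2 ≤ bv δ * aK (κ i) δ := (by linarith : δ ^ 2 / 2 ≤ bv δ / 2).trans (hprod i)
    have h2 : (δ ^ 2 / 2) ^ 2 ≤ (bv δ * aK (κ i) δ) ^ 2 :=
      pow_le_pow_left₀ (by positivity) h1 2
    refine le_trans ?_ h2
    have h3 : (δ ^ 2 / 2) ^ 2 = 1 / (16384 * T ^ 4) := by
      rw [hδd]
      field_simp
      norm_num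
    rw [h3, hYd]
    have h4 : 2 * ((N : ℝ) ^ 2 * Real.exp δ / (256 * N * T ^ 2) ^ 2) =
        Real.exp δ / 2 * (1 / (16384 * T ^ 4)) := by
      field_simp
      norm_num
    rw [h4]
    have h5 : 0 < 1 / (16384 * T ^ 4) := by positivity
    nlinarith
  have hΛ' : ∀ i z, ∑ l, (cc Ms S l : ℂ) * (φ i : ℍ → ℂ) (hh Ms S l • z) =
      ((∑ m ∈ Ms, Λ i m : ℝ) : ℂ) * (φ i : ℍ → ℂ) z := by
    intro i z
    have h1 : ∑ l : IX Ms S, (cc Ms S l : ℂ) * (φ i : ℍ → ℂ) (hh Ms S l • z) =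
        ∑ m ∈ Ms, ∑ g ∈ S m, ((1 / (m : ℝ) : ℝ) : ℂ) * (φ i : ℍ → ℂ) (nm m g • z) :=
      sum_IX (fun m g => ((1 / (m : ℝ) : ℝ) : ℂ) * (φ i : ℍ → ℂ) (nm m g • z))
    rw [h1]
    push_cast
    rw [Finset.sum_mul]
    refine Finset.sum_congr rfl fun m hm => ?_
    rw [← Finset.mul_sum, hΛ i m hm z]
    have : (m : ℂ) ≠ 0 := by exact_mod_cast (hM m hm).ne'
    push_cast
    field_simp
  have h1 := H2.joint hN0 hN.2.1 (cc_nonneg Ms S) (HP_IX hM hS) hδ (fun i => aK (κ i)) φ hφ hli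
    (fun i => ∑ m ∈ Ms, Λ i m) hΛ' (by linarith : Real.exp δ ≤ Y)
    (fun i => by have := ha i; exact (by linarith : (0 : ℝ) < aK (κ i) δ).ne') hY2
  have h2 := geoR hN0 hM hMc hS (n := Γ.index) (δ := δ) (Y := Y)
    (A := C₁ * n * (N : ℝ) ^ (-(1 / 10) : ℝ)) (M := M) (by positivity) hδ hδ2 hY1 (by positivity)
    hM1 hMM (fun τ => (fix Γ τ : ℝ)) (fun τ => by exact_mod_cast E1.fix_le_index hfin τ)
    (fun τ => by
      refine (hfix Γ N hN τ).trans (le_of_eq ?_)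
      rw [← hn]
      ring)
  have e0 : ∀ τ : SL(2, ℤ), ENNReal.ofReal (fix Γ τ : ℝ) = (fix Γ τ : ℝ≥0∞) :=
    fun τ => ENNReal.ofReal_natCast _
  simp only [e0] at h2
  have h3 := h1.trans h2
  rw [← ENNReal.ofReal_sum_of_nonneg fun i _ => sq_nonneg _, ← hn] at h3
  have hSG := SG_nonneg Ms
  have hlog : 0 ≤ Real.log (4 * M ^ 2 * Y) := by
    apply Real.log_nonneg
    have : 1 ≤ M ^ 2 := one_le_pow₀ hM1
    nlinarith
  rw [ENNReal.ofReal_le_ofReal_iff (by positivity)] at h3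
  have h4 : ∑ i, (bv δ * aK (κ i) δ * ∑ m ∈ Ms, Λ i m) ^ 2 ≥
      (bv δ / 2) ^ 2 * ∑ i, (∑ m ∈ Ms, Λ i m) ^ 2 := by
    rw [Finset.mul_sum]
    refine Finset.sum_le_sum fun i _ => ?_
    rw [mul_pow (bv δ * aK (κ i) δ)]
    exact mul_le_mul_of_nonneg_right (pow_le_pow_left₀ (by positivity) (hprod i) 2) (sq_nonneg _)
  obtain ⟨X, hX⟩ : ∃ X, X = ∑ i, (∑ m ∈ Ms, Λ i m) ^ 2 := ⟨_, rfl⟩
  rw [← hX] at h4 ⊢
  have hX0 : 0 ≤ X := by
    rw [hX]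
    exact Finset.sum_nonneg fun i _ => sq_nonneg _
  obtain ⟨G, hG⟩ : ∃ G, G = 4 * n * SG Ms + C₁ * n * (N : ℝ) ^ (-(1 / 10) : ℝ) *
      (2703360 * δ * M ^ 22 * (N.divisors.card * (1 + Real.log (4 * M ^ 2 * Y)))) := ⟨_, rfl⟩
  rw [← hG] at h3
  have hGle : G ≤ n * (4 * SG Ms + 2703360 * C₁ * C₂) := by
    have : C₁ * n * (N : ℝ) ^ (-(1 / 10) : ℝ) *
        (2703360 * δ * M ^ 22 * (N.divisors.card * (1 + Real.log (4 * M ^ 2 * Y)))) =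
        2703360 * C₁ * n * ((N : ℝ) ^ (-(1 / 10) : ℝ) * (δ * (M ^ 22 *
          (N.divisors.card * (1 + Real.log (4 * M ^ 2 * Y)))))) := by ring
    rw [hG, this]
    have h5 : 2703360 * C₁ * n * ((N : ℝ) ^ (-(1 / 10) : ℝ) * (δ * (M ^ 22 *
          (N.divisors.card * (1 + Real.log (4 * M ^ 2 * Y)))))) ≤ 2703360 * C₁ * n * C₂ :=
      mul_le_mul_of_nonneg_left herr' (by positivity)
    linarith
  have h6 : bv δ * (bv δ / 4 * X) ≤ bv δ * G := by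
    calc bv δ * (bv δ / 4 * X) = (bv δ / 2) ^ 2 * X := by ring
      _ ≤ _ := h4
      _ ≤ bv δ * G := h3
  have h7 : bv δ / 4 * X ≤ G := le_of_mul_le_mul_left h6 hbv0
  have h8 : δ ^ 2 / 4 * X ≤ G := by
    refine le_trans ?_ h7
    exact mul_le_mul_of_nonneg_right (by linarith) hX0
  have h9 : X ≤ 256 * T ^ 2 * G := by
    have e1 : δ ^ 2 * T ^ 2 = 1 / 64 := by
      calc δ ^ 2 * T ^ 2 = (δ * T) ^ 2 := by ring
        _ = 1 / 64 := by rw [hδT]; norm_num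
    calc X = 256 * T ^ 2 * (δ ^ 2 / 4 * X) := by
          have : 256 * T ^ 2 * (δ ^ 2 / 4 * X) = 64 * (δ ^ 2 * T ^ 2) * X := by ring
          rw [this, e1]
          ring
      _ ≤ 256 * T ^ 2 * G := mul_le_mul_of_nonneg_left h8 (by positivity)
  calc X ≤ 256 * T ^ 2 * G := h9
    _ ≤ 256 * T ^ 2 * (n * (4 * SG Ms + 2703360 * C₁ * C₂)) :=
        mul_le_mul_of_nonneg_left hGle (by positivity)
    _ = n * T ^ 2 * (1024 * SG Ms + 692060160 * C₁ * C₂) := by ring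
    _ ≤ n * T ^ 2 * ((1024 + 692060160 * C₁ * C₂) * (SG Ms + 1)) := by
        apply mul_le_mul_of_nonneg_left _ (by positivity)
        have : 0 ≤ C₁ * C₂ := by positivity
        nlinarith
    _ = _ := by ring

end H10

end

end Pool.Agent.XE31
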