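import Pool.Agent.XE31.H10

/-!
# The inequality for families of Hecke operators with coefficients
-/

set_option autoImplicit false
set_option linter.all false

open UpperHalfPlane MeasureTheory Metric ModularGroup CongruenceSubgroup
open scoped MatrixGroups ENNReal Modular Topology NNReal

namespace Pool.Agent.XE31

open Pool.Agent.H369R2 Pool.Agent.N799.DT

noncomputable section

namespace H11

open H1 H4 H5 H6 H7 H8 H9 M1 K2 X3

variable {J : Type} [Fintype J]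

/-- the index type of a family of Hecke operators -/
abbrev IJ (mm : J → ℕ) (S : ℕ → Finset MZ) : Type := Σ v : J, S (mm v)

/-- the coefficients -/
def cJ (c : J → ℝ) (mm : J → ℕ) (S : ℕ → Finset MZ) : IJ mm S → ℝ := fun i => c i.1 / (mm i.1 : ℕ)

/-- the isometries -/
def hJ (mm : J → ℕ) (S : ℕ → Finset MZ) : IJ mm S → SL(2, ℝ) := fun i => nm (mm i.1) i.2

lemma cJ_nonneg {c : J → ℝ} (hc : ∀ v, 0 ≤ c v) (mm : J → ℕ) (S : ℕ → Finset MZ) (i : IJ mm S) :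
    0 ≤ cJ c mm S i := by
  unfold cJ
  exact div_nonneg (hc _) (Nat.cast_nonneg _)

theorem HP_IJ {N : ℕ} {mm : J → ℕ} {S : ℕ → Finset MZ} (c : J → ℝ) (hM : ∀ v, 0 < mm v)
    (hS : ∀ v, Reps N (mm v) (S (mm v))) : HP N (cJ c mm S) (hJ mm S) := by
  intro σ
  have h1 : ∀ v : J, ∃ (π : Equiv.Perm (S (mm v))) (γ : S (mm v) → SL(2, ℤ)),
      (∀ i, γ i ∈ Gamma N) ∧
      ∀ i : S (mm v), (i : MZ) * (σ : MZ) = (σ : MZ) * (γ i : MZ) * (π i : MZ) :=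
    fun v => perm (hS v) σ
  choose π γ hγ hπ using h1
  refine ⟨Equiv.sigmaCongrRight π, fun i => γ i.1 i.2, fun i => hγ i.1 i.2, fun i => rfl,
    fun i => ?_⟩
  exact nm_compat (hM i.1) ((hS i.1).mem _ i.2.2)
    ((hS i.1).mem _ (π i.1 i.2).2) (hπ i.1 i.2)

lemma sum_IJ {mm : J → ℕ} {S : ℕ → Finset MZ} {E : Type} [AddCommMonoid E]
    (F : J → MZ → E) :
    ∑ i : IJ mm S, F i.1 i.2 = ∑ v, ∑ g ∈ S (mm v), F v g := by
  rw [Fintype.sum_sigma]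
  refine Finset.sum_congr rfl fun v _ => ?_
  rw [← Finset.sum_coe_sort (S (mm v))]

/-- the inequality, geometric side -/
theorem geo {N : ℕ} (hN : 0 < N) {mm : J → ℕ} {S : ℕ → Finset MZ} {c : J → ℝ}
    (hM : ∀ v, 0 < mm v)
    (hMc : ∀ v, Nat.Coprime (mm v) N) (hS : ∀ v, Reps N (mm v) (S (mm v)))
    {n δ Y A : ℝ} (hn : 0 ≤ n) (hδ : 0 < δ) (hδ2 : δ ≤ 1 / 2)
    (hY : 1 ≤ Y) (hA : 0 ≤ A) (φ : SL(2, ℤ) → ℝ) (h1 : ∀ τ, φ τ ≤ n)
    (h2 : ∀ τ, φ τ ≤ A * (lev N (red N τ) : ℝ)) :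
    ∫⁻ z in 𝒟ᵒ ∩ (cuspRegion Y)ᶜ, ∑' τ : SL(2, ℤ), ENNReal.ofReal (φ τ) *
      qq (cJ c mm S) (hJ mm S) δ τ z ≤
    ∑ v, ∑ v', (ENNReal.ofReal (c v / (mm v : ℝ)) * (ENNReal.ofReal (c v' / (mm v' : ℝ)) *
      (ENNReal.ofReal (2 * n * bv δ) *
        (2 * ((∑ e ∈ ((Nat.gcd (mm v) (mm v')) ^ 2).divisors, e : ℕ) : ℝ≥0∞)) +
      (((S (mm v)).card : ℝ≥0∞) * ((S (mm v')).card : ℝ≥0∞)) *
        ENNReal.ofReal (A * bv δ * ((4 * ((mm v : ℝ) * mm v') * δ) *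
          (10560 * (2 * ((mm v : ℝ) * mm v')) ^ 6 *
        (N.divisors.card * (1 + Real.log (2 * (2 * ((mm v : ℝ) * mm v')) * Y))))))))) := by
  classical
  have e1 : ∀ z : ℍ, ∑' τ : SL(2, ℤ), ENNReal.ofReal (φ τ) * qq (cJ c mm S) (hJ mm S) δ τ z =
      ∑ i, ∑ j, ENNReal.ofReal (cJ c mm S i) * (ENNReal.ofReal (cJ c mm S j) *
        ∑' τ : SL(2, ℤ), ENNReal.ofReal (φ τ) * vv δ (hJ mm S i • z) (τ • hJ mm S j • z)) := by
    intro z
    unfold qq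
    have e2 : ∀ τ : SL(2, ℤ), ENNReal.ofReal (φ τ) * ∑ i, ∑ j, ENNReal.ofReal (cJ c mm S i) *
        (ENNReal.ofReal (cJ c mm S j) * vv δ (hJ mm S i • z) (τ • hJ mm S j • z)) =
        ∑ i, ∑ j, ENNReal.ofReal (cJ c mm S i) * (ENNReal.ofReal (cJ c mm S j) *
        (ENNReal.ofReal (φ τ) * vv δ (hJ mm S i • z) (τ • hJ mm S j • z))) := by
      intro τ
      rw [Finset.mul_sum]
      refine Finset.sum_congr rfl fun i _ => ?_
      rw [Finset.mul_sum]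
      refine Finset.sum_congr rfl fun j _ => ?_
      ring
    rw [tsum_congr e2, Summable.tsum_finsetSum fun _ _ => ENNReal.summable]
    refine Finset.sum_congr rfl fun i _ => ?_
    rw [Summable.tsum_finsetSum fun _ _ => ENNReal.summable]
    refine Finset.sum_congr rfl fun j _ => ?_
    rw [ENNReal.tsum_mul_left, ENNReal.tsum_mul_left]
  have hmeas : ∀ i j : IJ mm S, Measurable fun z : ℍ =>
      ∑' τ : SL(2, ℤ), ENNReal.ofReal (φ τ) * vv δ (hJ mm S i • z) (τ • hJ mm S j • z) :=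
    fun i j => Measurable.ennreal_tsum fun τ => (measurable_vv_smul δ _ _ τ).const_mul _
  rw [lintegral_congr e1, lintegral_finsetSum _ fun i _ => Finset.measurable_fun_sum _ fun j _ =>
    ((hmeas i j).const_mul _).const_mul _]
  have e3 : ∀ i : IJ mm S, ∫⁻ z in 𝒟ᵒ ∩ (cuspRegion Y)ᶜ, ∑ j : IJ mm S,
      ENNReal.ofReal (cJ c mm S i) * (ENNReal.ofReal (cJ c mm S j) *
        ∑' τ : SL(2, ℤ), ENNReal.ofReal (φ τ) * vv δ (hJ mm S i • z) (τ • hJ mm S j • z)) ≤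
      ∑ j : IJ mm S, ENNReal.ofReal (c i.1 / (mm i.1 : ℝ)) *
        (ENNReal.ofReal (c j.1 / (mm j.1 : ℝ)) *
        (ENNReal.ofReal (2 * n * bv δ) * (∑' τ : SL(2, ℤ),
          (if Sc (i.2 : MZ) (j.2 : MZ) τ then 1 else 0)) +
      ENNReal.ofReal (A * bv δ * ((4 * ((mm i.1 : ℝ) * (mm j.1 : ℕ)) * δ) *
        (10560 * (2 * ((mm i.1 : ℝ) * (mm j.1 : ℕ))) ^ 6 *
        (N.divisors.card * (1 + Real.log (2 * (2 * ((mm i.1 : ℝ) * (mm j.1 : ℕ))) * Y)))))))) := by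
    intro i
    rw [lintegral_finsetSum _ fun j _ => ((hmeas i j).const_mul _).const_mul _]
    refine Finset.sum_le_sum fun j _ => ?_
    rw [lintegral_const_mul _ ((hmeas i j).const_mul _), lintegral_const_mul _ (hmeas i j)]
    refine mul_le_mul' le_rfl (mul_le_mul' le_rfl ?_)
    exact pair hN (hM i.1) (hM j.1) ((hS i.1).mem _ i.2.2) ((hS j.1).mem _ j.2.2)
      hn hδ hδ2 hY hA φ h1 h2
  refine (Finset.sum_le_sum fun i _ => e3 i).trans ?_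
  obtain ⟨G, hG⟩ : ∃ G : J → J → ℝ≥0∞, G = fun v v' : J => ENNReal.ofReal (A * bv δ *
    ((4 * ((mm v : ℝ) * mm v') * δ) * (10560 * (2 * ((mm v : ℝ) * mm v')) ^ 6 *
        (N.divisors.card * (1 + Real.log (2 * (2 * ((mm v : ℝ) * mm v')) * Y)))))) := ⟨_, rfl⟩
  have e4 : ∀ i : IJ mm S, ∑ j : IJ mm S, ENNReal.ofReal (c i.1 / (mm i.1 : ℝ)) *
      (ENNReal.ofReal (c j.1 / (mm j.1 : ℝ)) *
        (ENNReal.ofReal (2 * n * bv δ) * (∑' τ : SL(2, ℤ),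
          (if Sc (i.2 : MZ) (j.2 : MZ) τ then 1 else 0)) + G i.1 j.1)) =
      ∑ v', ∑ g' ∈ S (mm v'), ENNReal.ofReal (c i.1 / (mm i.1 : ℝ)) *
      (ENNReal.ofReal (c v' / (mm v' : ℝ)) *
        (ENNReal.ofReal (2 * n * bv δ) * (∑' τ : SL(2, ℤ),
          (if Sc (i.2 : MZ) g' τ then 1 else 0)) + G i.1 v')) := fun i =>
    sum_IJ (fun v' g' => ENNReal.ofReal (c i.1 / (mm i.1 : ℝ)) *
      (ENNReal.ofReal (c v' / (mm v' : ℝ)) *
        (ENNReal.ofReal (2 * n * bv δ) * (∑' τ : SL(2, ℤ),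
          (if Sc (i.2 : MZ) g' τ then 1 else 0)) + G i.1 v')))
  have e5 : ∑ i : IJ mm S, ∑ v', ∑ g' ∈ S (mm v'), ENNReal.ofReal (c i.1 / (mm i.1 : ℝ)) *
      (ENNReal.ofReal (c v' / (mm v' : ℝ)) *
        (ENNReal.ofReal (2 * n * bv δ) * (∑' τ : SL(2, ℤ),
          (if Sc (i.2 : MZ) g' τ then 1 else 0)) + G i.1 v')) =
      ∑ v, ∑ g ∈ S (mm v), ∑ v', ∑ g' ∈ S (mm v'), ENNReal.ofReal (c v / (mm v : ℝ)) *
      (ENNReal.ofReal (c v' / (mm v' : ℝ)) *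
        (ENNReal.ofReal (2 * n * bv δ) * (∑' τ : SL(2, ℤ),
          (if Sc g g' τ then 1 else 0)) + G v v')) :=
    sum_IJ (fun v g => ∑ v', ∑ g' ∈ S (mm v'), ENNReal.ofReal (c v / (mm v : ℝ)) *
      (ENNReal.ofReal (c v' / (mm v' : ℝ)) *
        (ENNReal.ofReal (2 * n * bv δ) * (∑' τ : SL(2, ℤ),
          (if Sc g g' τ then 1 else 0)) + G v v')))
  have e6 : ∑ v, ∑ g ∈ S (mm v), ∑ v', ∑ g' ∈ S (mm v'), ENNReal.ofReal (c v / (mm v : ℝ)) *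
      (ENNReal.ofReal (c v' / (mm v' : ℝ)) *
        (ENNReal.ofReal (2 * n * bv δ) * (∑' τ : SL(2, ℤ),
          (if Sc g g' τ then 1 else 0)) + G v v')) ≤
      ∑ v, ∑ v', (ENNReal.ofReal (c v / (mm v : ℝ)) * (ENNReal.ofReal (c v' / (mm v' : ℝ)) *
      (ENNReal.ofReal (2 * n * bv δ) *
        (2 * ((∑ e ∈ ((Nat.gcd (mm v) (mm v')) ^ 2).divisors, e : ℕ) : ℝ≥0∞)) +
      (((S (mm v)).card : ℝ≥0∞) * ((S (mm v')).card : ℝ≥0∞)) * G v v'))) := by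
    refine Finset.sum_le_sum fun v _ => ?_
    rw [Finset.sum_comm]
    refine Finset.sum_le_sum fun v' _ => ?_
    have e7 : ∑ g ∈ S (mm v), ∑ g' ∈ S (mm v'), ENNReal.ofReal (c v / (mm v : ℝ)) *
      (ENNReal.ofReal (c v' / (mm v' : ℝ)) *
        (ENNReal.ofReal (2 * n * bv δ) * (∑' τ : SL(2, ℤ),
          (if Sc g g' τ then 1 else 0)) + G v v')) =
        ENNReal.ofReal (c v / (mm v : ℝ)) * (ENNReal.ofReal (c v' / (mm v' : ℝ)) *
        (ENNReal.ofReal (2 * n * bv δ) * (∑ g ∈ S (mm v), ∑ g' ∈ S (mm v'), ∑' τ : SL(2, ℤ),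
          (if Sc g g' τ then (1 : ℝ≥0∞) else 0)) +
            ((S (mm v)).card : ℝ≥0∞) * ((S (mm v')).card : ℝ≥0∞) * G v v')) := by
      simp only [mul_add, Finset.sum_add_distrib, ← Finset.mul_sum, Finset.sum_const,
        nsmul_eq_mul]
      ring
    rw [e7]
    refine mul_le_mul' le_rfl (mul_le_mul' le_rfl (add_le_add (mul_le_mul' le_rfl ?_) le_rfl))
    exact scal_count (hM v) (hM v') (hMc v) (hMc v') (hS v) (hS v')
  rw [hG] at e4 e5 e6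
  calc _ = _ := Finset.sum_congr rfl fun i _ => e4 i
    _ = _ := e5
    _ ≤ _ := e6

/-- the diagonal sum -/
def QJ (c : J → ℝ) (mm : J → ℕ) : ℝ :=
  ∑ v, ∑ v', c v * c v' * ((sg (Nat.gcd (mm v) (mm v')) : ℝ) / ((mm v : ℝ) * mm v'))

lemma QJ_nonneg {c : J → ℝ} (hc : ∀ v, 0 ≤ c v) (mm : J → ℕ) : 0 ≤ QJ c mm := by
  unfold QJ
  exact Finset.sum_nonneg fun v _ => Finset.sum_nonneg fun v' _ => by
    have := hc v
    have := hc v'
    positivity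

/-- the geometric side, real form -/
theorem geoR {N : ℕ} (hN : 0 < N) {mm : J → ℕ} {S : ℕ → Finset MZ} {c : J → ℝ}
    (hc : ∀ v, 0 ≤ c v) (hM : ∀ v, 0 < mm v)
    (hMc : ∀ v, Nat.Coprime (mm v) N) (hS : ∀ v, Reps N (mm v) (S (mm v)))
    {n δ Y A M : ℝ} (hn : 0 ≤ n) (hδ : 0 < δ) (hδ2 : δ ≤ 1 / 2)
    (hY : 1 ≤ Y) (hA : 0 ≤ A) (hM1 : 1 ≤ M) (hMM : ∀ v, (mm v : ℝ) ≤ M) (hcM : ∑ v, c v ≤ M)
    (φ : SL(2, ℤ) → ℝ) (h1 : ∀ τ, φ τ ≤ n)
    (h2 : ∀ τ, φ τ ≤ A * (lev N (red N τ) : ℝ)) :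
    ∫⁻ z in 𝒟ᵒ ∩ (cuspRegion Y)ᶜ, ∑' τ : SL(2, ℤ), ENNReal.ofReal (φ τ) *
      qq (cJ c mm S) (hJ mm S) δ τ z ≤
    ENNReal.ofReal (bv δ * (4 * n * QJ c mm + A * (2703360 * δ * M ^ 22 *
      (N.divisors.card * (1 + Real.log (4 * M ^ 2 * Y)))))) := by
  refine (geo hN hM hMc hS hn hδ hδ2 hY hA φ h1 h2).trans ?_
  have hbv := bv_nonneg δ
  have hM0 : 0 < M := by linarith
  obtain ⟨L, hL⟩ : ∃ L : ℝ, L = N.divisors.card * (1 + Real.log (4 * M ^ 2 * Y)) := ⟨_, rfl⟩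
  have hL0 : 0 ≤ L := by
    rw [hL]
    have : 0 ≤ Real.log (4 * M ^ 2 * Y) := Real.log_nonneg (by nlinarith)
    positivity
  rw [← hL]
  obtain ⟨E, hE⟩ : ∃ E : ℝ, E = A * bv δ * (2703360 * δ * M ^ 20 * L) := ⟨_, rfl⟩
  have hE0 : 0 ≤ E := by rw [hE]; positivity
  have key : ∀ v v' : J,
      (ENNReal.ofReal (c v / (mm v : ℝ)) * (ENNReal.ofReal (c v' / (mm v' : ℝ)) *
      (ENNReal.ofReal (2 * n * bv δ) *
        (2 * ((∑ e ∈ ((Nat.gcd (mm v) (mm v')) ^ 2).divisors, e : ℕ) : ℝ≥0∞)) +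
      (((S (mm v)).card : ℝ≥0∞) * ((S (mm v')).card : ℝ≥0∞)) *
        ENNReal.ofReal (A * bv δ * ((4 * ((mm v : ℝ) * mm v') * δ) *
          (10560 * (2 * ((mm v : ℝ) * mm v')) ^ 6 *
        (N.divisors.card * (1 + Real.log (2 * (2 * ((mm v : ℝ) * mm v')) * Y))))))))) ≤
      ENNReal.ofReal (bv δ * (4 * n * (c v * c v' *
        ((sg (Nat.gcd (mm v) (mm v')) : ℝ) / ((mm v : ℝ) * mm v')))) + c v * c v' * E) := by
    intro v v'
    have p1 := hc v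
    have p2 := hc v'
    have a1 : (1 : ℝ) ≤ mm v := by exact_mod_cast hM v
    have a2 : (1 : ℝ) ≤ mm v' := by exact_mod_cast hM v'
    have a0 : (0 : ℝ) < mm v := by linarith
    have a0' : (0 : ℝ) < mm v' := by linarith
    have b1 := hMM v
    have b2 := hMM v'
    have c1 : ((S (mm v)).card : ℝ) ≤ (mm v : ℝ) ^ 4 := by
      have := (Reps_card (hM v) (hMc v) (hS v)).trans (sg_le (hM v))
      exact_mod_cast this
    have c2 : ((S (mm v')).card : ℝ) ≤ (mm v' : ℝ) ^ 4 := by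
      have := (Reps_card (hM v') (hMc v') (hS v')).trans (sg_le (hM v'))
      exact_mod_cast this
    obtain ⟨s, hs⟩ : ∃ s : ℝ, s = ((S (mm v)).card : ℝ) := ⟨_, rfl⟩
    obtain ⟨s', hs'⟩ : ∃ s' : ℝ, s' = ((S (mm v')).card : ℝ) := ⟨_, rfl⟩
    have hs0 : 0 ≤ s := by rw [hs]; positivity
    have hs0' : 0 ≤ s' := by rw [hs']; positivity
    have e0 : ((∑ e ∈ ((Nat.gcd (mm v) (mm v')) ^ 2).divisors, e : ℕ) : ℝ≥0∞) =
        ENNReal.ofReal (sg (Nat.gcd (mm v) (mm v')) : ℝ) := by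
      rw [ENNReal.ofReal_natCast]
      rfl
    rw [e0, ← ENNReal.ofReal_natCast (S (mm v)).card, ← ENNReal.ofReal_natCast (S (mm v')).card,
      ← hs, ← hs']
    rw [← hs] at c1
    rw [← hs'] at c2
    obtain ⟨a, ha⟩ : ∃ a : ℝ, a = mm v := ⟨_, rfl⟩
    obtain ⟨b, hb⟩ : ∃ b : ℝ, b = mm v' := ⟨_, rfl⟩
    obtain ⟨x, hx⟩ : ∃ x : ℝ, x = (sg (Nat.gcd (mm v) (mm v')) : ℝ) := ⟨_, rfl⟩
    have hx0 : 0 ≤ x := by rw [hx]; positivity
    rw [← ha] at a1 a0 b1 c1 ⊢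
    rw [← hb] at a2 a0' b2 c2 ⊢
    rw [← hx]
    have d0 : 1 ≤ a * b := one_le_mul_of_one_le_of_one_le a1 a2
    have d1 : a * b ≤ M ^ 2 := by
      rw [sq]; exact mul_le_mul b1 b2 a0'.le hM0.le
    have d2 : (N.divisors.card * (1 + Real.log (2 * (2 * (a * b)) * Y))) ≤ L := by
      rw [hL]
      have : Real.log (2 * (2 * (a * b)) * Y) ≤ Real.log (4 * M ^ 2 * Y) := by
        apply Real.log_le_log (by positivity)
        have : 2 * (2 * (a * b)) ≤ 4 * M ^ 2 := by linarith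
        exact mul_le_mul_of_nonneg_right this (by linarith)
      gcongr
    have d3 : 0 ≤ Real.log (2 * (2 * (a * b)) * Y) := Real.log_nonneg (by nlinarith)
    obtain ⟨L', hL'⟩ : ∃ L' : ℝ, L' = N.divisors.card * (1 + Real.log (2 * (2 * (a * b)) * Y)) :=
      ⟨_, rfl⟩
    have hL'0 : 0 ≤ L' := by rw [hL']; positivity
    rw [← hL'] at d2 ⊢
    have e2 : (2 : ℝ≥0∞) = ENNReal.ofReal 2 := by simp
    rw [e2, ← ENNReal.ofReal_mul (by positivity), ← ENNReal.ofReal_mul (by positivity),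
      ← ENNReal.ofReal_mul (by positivity), ← ENNReal.ofReal_mul (by positivity),
      ← ENNReal.ofReal_add (by positivity) (by positivity), ← ENNReal.ofReal_mul (by positivity),
      ← ENNReal.ofReal_mul (by positivity)]
    apply ENNReal.ofReal_le_ofReal
    rw [mul_add, mul_add]
    refine add_le_add (le_of_eq ?_) ?_
    · field_simp
      ring
    · calc c v / a * (c v' / b * (s * s' *
            (A * bv δ * ((4 * (a * b) * δ) * (10560 * (2 * (a * b)) ^ 6 * L')))))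
          ≤ c v / a * (c v' / b * (a ^ 4 * b ^ 4 *
            (A * bv δ * ((4 * (a * b) * δ) * (10560 * (2 * (a * b)) ^ 6 * L))))) := by
            gcongr
        _ = c v * c v' * (A * bv δ * (2703360 * δ * (a * b) ^ 10 * L)) := by
            field_simp
            ring
        _ ≤ c v * c v' * (A * bv δ * (2703360 * δ * (M ^ 2) ^ 10 * L)) := by gcongr
        _ = c v * c v' * E := by rw [hE]; ring
  refine (Finset.sum_le_sum fun v _ => Finset.sum_le_sum fun v' _ => key v v').trans ?_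
  have hpos : ∀ v v' : J, 0 ≤ bv δ * (4 * n * (c v * c v' *
        ((sg (Nat.gcd (mm v) (mm v')) : ℝ) / ((mm v : ℝ) * mm v')))) + c v * c v' * E :=
    fun v v' => by
      have := hc v
      have := hc v'
      positivity
  have e1 : ∀ v, ∑ v', ENNReal.ofReal (bv δ * (4 * n * (c v * c v' *
        ((sg (Nat.gcd (mm v) (mm v')) : ℝ) / ((mm v : ℝ) * mm v')))) + c v * c v' * E) =
      ENNReal.ofReal (∑ v', (bv δ * (4 * n * (c v * c v' *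
        ((sg (Nat.gcd (mm v) (mm v')) : ℝ) / ((mm v : ℝ) * mm v')))) + c v * c v' * E)) :=
    fun v => (ENNReal.ofReal_sum_of_nonneg fun v' _ => hpos v v').symm
  rw [Finset.sum_congr rfl fun v _ => e1 v, ← ENNReal.ofReal_sum_of_nonneg fun v _ =>
    Finset.sum_nonneg fun v' _ => hpos v v']
  apply ENNReal.ofReal_le_ofReal
  have hs0 : 0 ≤ ∑ v, c v := Finset.sum_nonneg fun v _ => hc v
  have e3 : ∑ v, ∑ v', c v * c v' * E = (∑ v, c v) * (∑ v, c v) * E := by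
    rw [Finset.sum_mul_sum, Finset.sum_mul]
    refine Finset.sum_congr rfl fun v _ => ?_
    rw [Finset.sum_mul]
  calc ∑ v, ∑ v', (bv δ * (4 * n * (c v * c v' *
        ((sg (Nat.gcd (mm v) (mm v')) : ℝ) / ((mm v : ℝ) * mm v')))) + c v * c v' * E)
      = bv δ * (4 * n * QJ c mm) + ∑ v, ∑ v', c v * c v' * E := by
        unfold QJ
        simp only [Finset.sum_add_distrib, ← Finset.mul_sum]
    _ ≤ bv δ * (4 * n * QJ c mm) + M * M * E := by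
        rw [e3]
        gcongr
    _ = _ := by rw [hE]; ring

/-- the inequality for families of Hecke operators with coefficients -/
theorem ineq : ∃ C : ℝ, 0 < C ∧ ∀ (Γ : Subgroup SL(2, ℤ)) (N : ℕ), IsLevel Γ N → ∀ T : ℝ, 1 ≤ T →
    ∀ (J : Type) [Fintype J] (c : J → ℝ) (mm : J → ℕ) (S : ℕ → Finset MZ), (∀ v, 0 ≤ c v) →
    (∀ v, 0 < mm v) → (∀ v, Nat.Coprime (mm v) N) →
    (∀ v, (mm v : ℝ) ≤ (Γ.index * T) ^ (1 / 1000 : ℝ)) →
    (∑ v, c v ≤ (Γ.index * T) ^ (1 / 1000 : ℝ)) → (∀ v, Reps N (mm v) (S (mm v))) →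
    ∀ (k : ℕ) (κ : Fin k → ℝ) (φ : Fin k → LW N), (∀ i, 0 ≤ κ i) → (∀ i, κ i ≤ T ^ 2) →
      (∀ i, φ i ∈ EV N Γ (aK (κ i))) → LinearIndependent ℂ φ →
      ∀ Λ : Fin k → J → ℝ, (∀ i, ∀ v, ∀ z : ℍ, ∑ g ∈ S (mm v), (φ i : ℍ → ℂ) (nm (mm v) g • z) =
        ((mm v * Λ i v : ℝ) : ℂ) * (φ i : ℍ → ℂ) z) →
      ∑ i, (∑ v, c v * Λ i v) ^ 2 ≤ C * Γ.index * T ^ 2 * (QJ c mm + 1) := by
  obtain ⟨C₁, hC₁, hfix⟩ := E1.fix_lin
  obtain ⟨C₂, hC₂, herr⟩ := err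
  refine ⟨1024 + 692060160 * C₁ * C₂, by positivity, ?_⟩
  intro Γ N hN T hT J _ c mm S hc hM hMc hMM hcM hS k κ φ hκ hκ2 hφ hli Λ hΛ
  have hN0 := hN.1
  have : NeZero N := ⟨hN0.ne'⟩
  have hN1 : (1 : ℝ) ≤ N := by exact_mod_cast hN0
  have hT0 : 0 < T := by linarith
  have hfin : Γ.FiniteIndex := Subgroup.finiteIndex_of_le hN.2.1
  have hn0 : 0 < Γ.index := Nat.pos_of_ne_zero hfin.index_ne_zero
  have hn1 : (1 : ℝ) ≤ Γ.index := by exact_mod_cast hn0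
  obtain ⟨n, hn⟩ : ∃ n : ℝ, n = Γ.index := ⟨_, rfl⟩
  rw [← hn] at hn1 hMM hcM ⊢
  have hnN : n ≤ (N : ℝ) ^ 3 := by
    have i1 : Γ.index ≤ N ^ 3 := by
      have i2 := Pool.Agent.H369R2.index_Gamma_le N hN0.ne'
      have i3 : Γ.index ≤ (Gamma N).index :=
        Nat.le_of_dvd (Nat.pos_of_ne_zero Subgroup.FiniteIndex.index_ne_zero)
          (Subgroup.index_dvd_of_le hN.2.1)
      exact i3.trans i2
    rw [hn]; exact_mod_cast i1
  obtain ⟨M, hMdef⟩ : ∃ M, M = (n * T) ^ (1 / 1000 : ℝ) := ⟨_, rfl⟩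
  have hM1 : 1 ≤ M := by
    rw [hMdef]
    exact Real.one_le_rpow (one_le_mul_of_one_le_of_one_le hn1 hT) (by norm_num)
  have herr' := herr N n T hN0 hT hn1 hnN
  rw [← hMdef] at hMM hcM herr'
  obtain ⟨δ, hδd⟩ : ∃ δ : ℝ, δ = 1 / (8 * T) := ⟨_, rfl⟩
  rw [← hδd] at herr'
  have hδ : 0 < δ := by rw [hδd]; positivity
  have hδT : δ * T = 1 / 8 := by rw [hδd]; field_simp
  have hδ8 : δ ≤ 1 / 8 := by
    have : δ * 1 ≤ δ * T := mul_le_mul_of_nonneg_left hT hδ.le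
    linarith
  have hδ2 : δ ≤ 1 / 2 := by linarith
  obtain ⟨Y, hYd⟩ : ∃ Y : ℝ, Y = 256 * N * T ^ 2 := ⟨_, rfl⟩
  rw [← hYd] at herr'
  have hT2 : 1 ≤ T ^ 2 := one_le_pow₀ hT
  have hY256 : 256 ≤ Y := by rw [hYd]; nlinarith
  have hY1 : 1 ≤ Y := by linarith
  have hexp : Real.exp δ ≤ 2 := by
    have h1 : Real.exp δ ≤ Real.exp (1 / 8) := Real.exp_le_exp.2 hδ8
    have h2 : Real.exp (1 / 8) ≤ 2 := by
      have h3 := Real.exp_bound_div_one_sub_of_interval (x := 1 / 8) (by norm_num) (by norm_num)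
      refine h3.trans ?_
      norm_num
    linarith
  have ha : ∀ i, 1 / 2 ≤ aK (κ i) δ := by
    intro i
    apply aK_lower (hκ i) hδ
    have h1 : δ ^ 2 * (1 + κ i) ≤ δ ^ 2 * (T ^ 2 + T ^ 2) := by
      apply mul_le_mul_of_nonneg_left _ (sq_nonneg _)
      have := hκ2 i
      linarith
    have h2 : δ ^ 2 * (T ^ 2 + T ^ 2) = 2 * (δ * T) ^ 2 := by ring
    rw [h2, hδT] at h1
    linarith
  have hbv := bv_small hδ hδ2
  have hbv0 : 0 < bv δ := bv_pos hδ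
  have hprod : ∀ i, bv δ / 2 ≤ bv δ * aK (κ i) δ := by
    intro i
    have := mul_le_mul_of_nonneg_left (ha i) hbv0.le
    linarith
  have hY2 : ∀ i, 2 * (N ^ 2 * Real.exp δ / Y ^ 2) ≤ (bv δ * aK (κ i) δ) ^ 2 := by
    intro i
    have h1 : δ ^ 2 / 2 ≤ bv δ * aK (κ i) δ := (by linarith : δ ^ 2 / 2 ≤ bv δ / 2).trans (hprod i)
    have h2 : (δ ^ 2 / 2) ^ 2 ≤ (bv δ * aK (κ i) δ) ^ 2 :=
      pow_le_pow_left₀ (by positivity) h1 2
    refine le_trans ?_ h2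
    have h3 : (δ ^ 2 / 2) ^ 2 = 1 / (16384 * T ^ 4) := by
      rw [hδd]
      field_simp
      norm_num
    rw [h3, hYd]
    have h4 : 2 * ((N : ℝ) ^ 2 * Real.exp δ / (256 * N * T ^ 2) ^ 2) =
        Real.exp δ / 2 * (1 / (16384 * T ^ 4)) := by
      field_simp
      norm_num
    rw [h4]
    have h5 : 0 < 1 / (16384 * T ^ 4) := by positivity
    nlinarith
  have hΛ' : ∀ i z, ∑ l, (cJ c mm S l : ℂ) * (φ i : ℍ → ℂ) (hJ mm S l • z) =
      ((∑ v, c v * Λ i v : ℝ) : ℂ) * (φ i : ℍ → ℂ) z := by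
    intro i z
    have h1 : ∑ l : IJ mm S, (cJ c mm S l : ℂ) * (φ i : ℍ → ℂ) (hJ mm S l • z) =
        ∑ v, ∑ g ∈ S (mm v), ((c v / (mm v : ℝ) : ℝ) : ℂ) * (φ i : ℍ → ℂ) (nm (mm v) g • z) :=
      sum_IJ (fun v g => ((c v / (mm v : ℝ) : ℝ) : ℂ) * (φ i : ℍ → ℂ) (nm (mm v) g • z))
    rw [h1]
    push_cast
    rw [Finset.sum_mul]
    refine Finset.sum_congr rfl fun v _ => ?_
    rw [← Finset.mul_sum, hΛ i v z]
    have : (mm v : ℂ) ≠ 0 := by exact_mod_cast (hM v).ne'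
    push_cast
    field_simp
  have h1 := H2.joint hN0 hN.2.1 (cJ_nonneg hc mm S) (HP_IJ c hM hS) hδ (fun i => aK (κ i)) φ hφ
    hli (fun i => ∑ v, c v * Λ i v) hΛ' (by linarith : Real.exp δ ≤ Y)
    (fun i => by have := ha i; exact (by linarith : (0 : ℝ) < aK (κ i) δ).ne') hY2
  have h2 := geoR hN0 hc hM hMc hS (n := Γ.index) (δ := δ) (Y := Y)
    (A := C₁ * n * (N : ℝ) ^ (-(1 / 10) : ℝ)) (M := M) (by positivity) hδ hδ2 hY1 (by positivity)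
    hM1 hMM hcM (fun τ => (fix Γ τ : ℝ)) (fun τ => by exact_mod_cast E1.fix_le_index hfin τ)
    (fun τ => by
      refine (hfix Γ N hN τ).trans (le_of_eq ?_)
      rw [← hn]
      ring)
  have e0 : ∀ τ : SL(2, ℤ), ENNReal.ofReal (fix Γ τ : ℝ) = (fix Γ τ : ℝ≥0∞) :=
    fun τ => ENNReal.ofReal_natCast _
  simp only [e0] at h2
  have h3 := h1.trans h2
  rw [← ENNReal.ofReal_sum_of_nonneg fun i _ => sq_nonneg _, ← hn] at h3
  have hSG := QJ_nonneg hc mm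
  have hlog : 0 ≤ Real.log (4 * M ^ 2 * Y) := by
    apply Real.log_nonneg
    have : 1 ≤ M ^ 2 := one_le_pow₀ hM1
    nlinarith
  rw [ENNReal.ofReal_le_ofReal_iff (by positivity)] at h3
  have h4 : ∑ i, (bv δ * aK (κ i) δ * ∑ v, c v * Λ i v) ^ 2 ≥
      (bv δ / 2) ^ 2 * ∑ i, (∑ v, c v * Λ i v) ^ 2 := by
    rw [Finset.mul_sum]
    refine Finset.sum_le_sum fun i _ => ?_
    rw [mul_pow (bv δ * aK (κ i) δ)]
    exact mul_le_mul_of_nonneg_right (pow_le_pow_left₀ (by positivity) (hprod i) 2) (sq_nonneg _)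
  obtain ⟨X, hX⟩ : ∃ X, X = ∑ i, (∑ v, c v * Λ i v) ^ 2 := ⟨_, rfl⟩
  rw [← hX] at h4 ⊢
  have hX0 : 0 ≤ X := by
    rw [hX]
    exact Finset.sum_nonneg fun i _ => sq_nonneg _
  obtain ⟨G, hG⟩ : ∃ G, G = 4 * n * QJ c mm + C₁ * n * (N : ℝ) ^ (-(1 / 10) : ℝ) *
      (2703360 * δ * M ^ 22 * (N.divisors.card * (1 + Real.log (4 * M ^ 2 * Y)))) := ⟨_, rfl⟩
  rw [← hG] at h3
  have hGle : G ≤ n * (4 * QJ c mm + 2703360 * C₁ * C₂) := by
    have : C₁ * n * (N : ℝ) ^ (-(1 / 10) : ℝ) *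
        (2703360 * δ * M ^ 22 * (N.divisors.card * (1 + Real.log (4 * M ^ 2 * Y)))) =
        2703360 * C₁ * n * ((N : ℝ) ^ (-(1 / 10) : ℝ) * (δ * (M ^ 22 *
          (N.divisors.card * (1 + Real.log (4 * M ^ 2 * Y)))))) := by ring
    rw [hG, this]
    have h5 : 2703360 * C₁ * n * ((N : ℝ) ^ (-(1 / 10) : ℝ) * (δ * (M ^ 22 *
          (N.divisors.card * (1 + Real.log (4 * M ^ 2 * Y)))))) ≤ 2703360 * C₁ * n * C₂ :=
      mul_le_mul_of_nonneg_left herr' (by positivity)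
    linarith
  have h6 : bv δ * (bv δ / 4 * X) ≤ bv δ * G := by
    calc bv δ * (bv δ / 4 * X) = (bv δ / 2) ^ 2 * X := by ring
      _ ≤ _ := h4
      _ ≤ bv δ * G := h3
  have h7 : bv δ / 4 * X ≤ G := le_of_mul_le_mul_left h6 hbv0
  have h8 : δ ^ 2 / 4 * X ≤ G := by
    refine le_trans ?_ h7
    exact mul_le_mul_of_nonneg_right (by linarith) hX0
  have h9 : X ≤ 256 * T ^ 2 * G := by
    have e1 : δ ^ 2 * T ^ 2 = 1 / 64 := by
      calc δ ^ 2 * T ^ 2 = (δ * T) ^ 2 := by ring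
        _ = 1 / 64 := by rw [hδT]; norm_num
    calc X = 256 * T ^ 2 * (δ ^ 2 / 4 * X) := by
          have : 256 * T ^ 2 * (δ ^ 2 / 4 * X) = 64 * (δ ^ 2 * T ^ 2) * X := by ring
          rw [this, e1]
          ring
      _ ≤ 256 * T ^ 2 * G := mul_le_mul_of_nonneg_left h8 (by positivity)
  calc X ≤ 256 * T ^ 2 * G := h9
    _ ≤ 256 * T ^ 2 * (n * (4 * QJ c mm + 2703360 * C₁ * C₂)) :=
        mul_le_mul_of_nonneg_left hGle (by positivity)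
    _ = n * T ^ 2 * (1024 * QJ c mm + 692060160 * C₁ * C₂) := by ring
    _ ≤ n * T ^ 2 * ((1024 + 692060160 * C₁ * C₂) * (QJ c mm + 1)) := by
        apply mul_le_mul_of_nonneg_left _ (by positivity)
        have : 0 ≤ C₁ * C₂ := by positivity
        nlinarith
    _ = _ := by ring

end H11

end

end Pool.Agent.XE31
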