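import Pool.Agent.XE31.H1

/-!
# Triangular families and the trace inequality for joint eigenfunctions
-/

set_option autoImplicit false

open UpperHalfPlane MeasureTheory Metric ModularGroup CongruenceSubgroup
open scoped MatrixGroups ENNReal Modular Topology NNReal ComplexConjugate

namespace Pool.Agent.XE31

open Pool.Agent.H369R2 Pool.Agent.N799.DT InnerProductSpace

noncomputable section

namespace H2

open M1 M2 M3 K2 H1

variable {I : Type} [Fintype I] {N : ℕ} {Γ : Subgroup SL(2, ℤ)}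

/-- triangular shape of the Gram-Schmidt family, compatible with the eigenspaces -/
theorem tri (hN : 0 < N) {k : ℕ} (a : Fin k → ℝ → ℝ) (φ : Fin k → LW N)
    (hφ : ∀ i, φ i ∈ EV N Γ (a i)) (i : Fin k) :
    ∃ t : Fin k → ℂ, gramSchmidt ℂ φ i = ∑ j, t j • φ j ∧ t i = 1 ∧ (∀ j, i < j → t j = 0) ∧
      ∀ j, t j ≠ 0 → ∀ R : ℝ, 0 < R → a j R = a i R := by
  classical
  induction i using WellFoundedLT.induction with
  | ind i ih =>
    have h1 : ∀ j : Fin k, ∃ c : ℂ, ((ℂ ∙ gramSchmidt ℂ φ j).starProjection (φ i)) =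
        c • gramSchmidt ℂ φ j ∧ (c ≠ 0 → ∀ R : ℝ, 0 < R → a j R = a i R) := by
      intro j
      by_cases h : ∀ R : ℝ, 0 < R → a j R = a i R
      · have : ((ℂ ∙ gramSchmidt ℂ φ j).starProjection (φ i)) ∈ (ℂ ∙ gramSchmidt ℂ φ j) :=
          Submodule.starProjection_apply_mem _ _
        obtain ⟨c, hc⟩ := Submodule.mem_span_singleton.1 this
        exact ⟨c, hc.symm, fun _ => h⟩
      · push Not at h
        obtain ⟨R, hR, hne⟩ := h
        refine ⟨0, ?_, fun h => absurd rfl h⟩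
        have h3 : inner ℂ (gramSchmidt ℂ φ j) (φ i) = 0 :=
          EV_orth hN hR hne (gs_mem hN a φ hφ j) (hφ i)
        rw [Submodule.starProjection_singleton, h3]
        simp
    choose c hc hc' using h1
    have h2 : ∀ j : Fin k, ∃ t : Fin k → ℂ, j < i → (gramSchmidt ℂ φ j = ∑ l, t l • φ l ∧
        t j = 1 ∧ (∀ l, j < l → t l = 0) ∧ ∀ l, t l ≠ 0 → ∀ R : ℝ, 0 < R → a l R = a j R) := by
      intro j
      by_cases hj : j < i
      · obtain ⟨t, ht⟩ := ih j hj
        exact ⟨t, fun _ => ht⟩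
      · exact ⟨0, fun h => absurd h hj⟩
    choose t ht using h2
    refine ⟨fun l => (if l = i then 1 else 0) - ∑ j ∈ Finset.Iio i, c j * t j l, ?_, ?_, ?_, ?_⟩
    · rw [gramSchmidt_def]
      have e1 : ∀ j ∈ Finset.Iio i, ((ℂ ∙ gramSchmidt ℂ φ j).starProjection (φ i)) =
          ∑ l, (c j * t j l) • φ l := by
        intro j hj
        rw [hc j, (ht j (Finset.mem_Iio.1 hj)).1, Finset.smul_sum]
        exact Finset.sum_congr rfl fun l _ => smul_smul _ _ _
      rw [Finset.sum_congr rfl e1, Finset.sum_comm]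
      have e2 : φ i = ∑ l, (if l = i then (1 : ℂ) else 0) • φ l := by
        simp [ite_smul]
      conv_lhs => rw [e2]
      rw [← Finset.sum_sub_distrib]
      refine Finset.sum_congr rfl fun l _ => ?_
      rw [sub_smul, Finset.sum_smul]
    · simp only [if_true]
      rw [Finset.sum_eq_zero, sub_zero]
      intro j hj
      have hj' := Finset.mem_Iio.1 hj
      rw [(ht j hj').2.2.1 i hj', mul_zero]
    · intro l hl
      simp only [if_neg hl.ne']
      rw [Finset.sum_eq_zero, sub_zero]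
      intro j hj
      have hj' := Finset.mem_Iio.1 hj
      rw [(ht j hj').2.2.1 l (hj'.trans hl), mul_zero]
    · intro l hl R hR
      by_cases h : l = i
      · rw [h]
      · simp only [if_neg h, zero_sub, ne_eq, neg_eq_zero] at hl
        obtain ⟨j, hj, hj2⟩ := Finset.exists_ne_zero_of_sum_ne_zero hl
        have hj' := Finset.mem_Iio.1 hj
        have h3 : c j ≠ 0 := left_ne_zero_of_mul hj2
        have h4 : t j l ≠ 0 := right_ne_zero_of_mul hj2
        rw [(ht j hj').2.2.2 l h4 R hR, hc' j h3 R hR]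

/-- the trace inequality for joint eigenfunctions -/
theorem joint (hN : 0 < N) (hΓ : Gamma N ≤ Γ) {c : I → ℝ} (hc : ∀ i, 0 ≤ c i)
    {h : I → SL(2, ℝ)} (hp : HP N c h) {δ : ℝ} (hδ : 0 < δ) {k : ℕ} (a : Fin k → ℝ → ℝ)
    (φ : Fin k → LW N) (hφ : ∀ i, φ i ∈ EV N Γ (a i)) (hli : LinearIndependent ℂ φ)
    (Λ : Fin k → ℝ) (hΛ : ∀ i z, ∑ l, (c l : ℂ) * (φ i : ℍ → ℂ) (h l • z) =
      (Λ i : ℂ) * (φ i : ℍ → ℂ) z) {Y : ℝ} (hY : Real.exp δ ≤ Y) (ha : ∀ i, a i δ ≠ 0)
    (hY2 : ∀ i, 2 * (N ^ 2 * Real.exp δ / Y ^ 2) ≤ (bv δ * a i δ) ^ 2) :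
    ∑ i, ENNReal.ofReal ((bv δ * a i δ * Λ i) ^ 2) ≤
      ∫⁻ z in 𝒟ᵒ ∩ (cuspRegion Y)ᶜ, ∑' τ : SL(2, ℤ), (fix Γ τ : ℝ≥0∞) * qq c h δ τ z := by
  classical
  have hbv := bv_pos hδ
  choose t ht1 ht2 ht3 ht4 using tri hN a φ hφ
  set g := gramSchmidt ℂ φ with hg
  have hg0 : ∀ i, g i ≠ 0 := fun i => gramSchmidt_ne_zero i hli
  have hgn : ∀ i, (‖g i‖ : ℂ) ≠ 0 := fun i => by exact_mod_cast (norm_ne_zero_iff.2 (hg0 i))
  -- the values of the functional
  have hfn : ∀ i z, fn c h δ z (φ i) = ((bv δ * a i δ * Λ i : ℝ) : ℂ) * (φ i : ℍ → ℂ) z := by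
    intro i z
    rw [fn_apply]
    have h1 : ∀ l, (c l : ℂ) * ∫ w in closedBall (h l • z) δ, (φ i : ℍ → ℂ) w =
        ((bv δ * a i δ : ℝ) : ℂ) * ((c l : ℂ) * (φ i : ℍ → ℂ) (h l • z)) := by
      intro l
      have h2 := (hφ i).2.1 δ hδ (h l • z)
      unfold Av at h2
      rw [inv_smul_eq_iff₀ hbv.ne'] at h2
      rw [h2, Complex.real_smul]
      push_cast
      ring
    rw [Finset.sum_congr rfl fun l _ => h1 l, ← Finset.mul_sum, hΛ i z]
    push_cast
    ring
  set e : Fin k → LW N := gramSchmidtNormed ℂ φ with he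
  have horth : Orthonormal ℂ e := gramSchmidtNormed_orthonormal hli
  have hedef : ∀ i, e i = ((‖g i‖ : ℂ)⁻¹) • g i := fun i => rfl
  have hem : ∀ i, e i ∈ EV N Γ (a i) := fun i => by
    rw [hedef]
    exact Submodule.smul_mem _ _ (gs_mem hN a φ hφ i)
  set ψ : Fin k → LW N := fun i =>
    (((bv δ * a i δ : ℝ) : ℂ) * (‖g i‖ : ℂ)⁻¹) • ∑ j, (t i j * (Λ j : ℂ)) • φ j with hψdef
  have hψm : ∀ i, ψ i ∈ EV N Γ (a i) := by
    intro i
    refine Submodule.smul_mem _ _ (Submodule.sum_mem _ fun j _ => ?_)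
    by_cases h0 : t i j = 0
    · rw [h0, zero_mul, zero_smul]
      exact Submodule.zero_mem _
    · rw [← EV_congr (ht4 i j h0)]
      exact Submodule.smul_mem _ _ (hφ j)
  have hval : ∀ (u : Fin k → ℂ) (z : ℍ), ((∑ j, u j • φ j : LW N) : ℍ → ℂ) z =
      ∑ j, u j * (φ j : ℍ → ℂ) z := by
    intro u z
    have h1 : ∀ s : Finset (Fin k), ((∑ j ∈ s, u j • φ j : LW N) : ℍ → ℂ) z =
        ∑ j ∈ s, u j * (φ j : ℍ → ℂ) z := by
      intro s
      induction s using Finset.induction_on with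
      | empty => simp
      | insert i s hi ih =>
        rw [Finset.sum_insert hi, Finset.sum_insert hi, Submodule.coe_add, Pi.add_apply, ih,
          Submodule.coe_smul, Pi.smul_apply, smul_eq_mul]
    exact h1 _
  have hψ : ∀ i z, fn c h δ z (e i) = (ψ i : ℍ → ℂ) z := by
    intro i z
    have h2 : fn c h δ z (g i) = ∑ j, fn c h δ z (t i j • φ j) := by
      conv_lhs => rw [ht1 i]
      rw [map_sum]
    rw [hedef, map_smul, h2, smul_eq_mul, hψdef]
    simp only
    rw [Submodule.coe_smul, Pi.smul_apply, smul_eq_mul, hval]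
    have h1 : ∀ j, fn c h δ z (t i j • φ j) =
        ((bv δ * a i δ : ℝ) : ℂ) * (t i j * (Λ j : ℂ) * (φ j : ℍ → ℂ) z) := by
      intro j
      rw [map_smul, smul_eq_mul, hfn]
      by_cases h0 : t i j = 0
      · rw [h0]; ring
      · rw [ht4 i j h0 δ hδ]
        push_cast
        ring
    rw [Finset.sum_congr rfl fun j _ => h1 j, ← Finset.mul_sum]
    ring
  have hinner : ∀ i, inner ℂ (e i) (ψ i) = ((bv δ * a i δ * Λ i : ℝ) : ℂ) := by
    intro i
    have h1 : ∑ j, (t i j * (Λ j : ℂ)) • φ j = (Λ i : ℂ) • g i +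
        ∑ j, (t i j * ((Λ j : ℂ) - Λ i)) • φ j := by
      rw [ht1 i, Finset.smul_sum, ← Finset.sum_add_distrib]
      refine Finset.sum_congr rfl fun j _ => ?_
      rw [smul_smul, ← add_smul]
      congr 1
      ring
    have h2 : inner ℂ (g i) (∑ j, (t i j * ((Λ j : ℂ) - Λ i)) • φ j) = 0 := by
      rw [inner_sum]
      refine Finset.sum_eq_zero fun j _ => ?_
      rw [inner_smul_right]
      rcases lt_trichotomy j i with hj | hj | hj
      · rw [gramSchmidt_inv_triangular ℂ φ hj, mul_zero]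
      · rw [hj]; simp
      · rw [ht3 i j hj]; simp
    rw [hψdef]
    simp only
    have h4 : inner ℂ (g i) (g i) = ((‖g i‖ : ℝ) : ℂ) ^ 2 := by
      rw [inner_self_eq_norm_sq_to_K]
      rfl
    rw [hedef, inner_smul_left, inner_smul_right, h1, inner_add_right, h2, add_zero,
      inner_smul_right, h4]
    have h3 := hgn i
    rw [map_inv₀, Complex.conj_ofReal]
    push_cast
    field_simp
  have hnorm : ∀ i, (bv δ * a i δ * Λ i) ^ 2 ≤ ‖ψ i‖ ^ 2 := by
    intro i
    have h1 := norm_inner_le_norm (𝕜 := ℂ) (e i) (ψ i)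
    rw [hinner, horth.1 i, one_mul, Complex.norm_real, Real.norm_eq_abs] at h1
    rw [← sq_abs]
    exact pow_le_pow_left₀ (abs_nonneg _) h1 2
  have hlow : ∀ i, ENNReal.ofReal ((bv δ * a i δ * Λ i) ^ 2 / 2) ≤
      ∫⁻ z in (cuspRegion Y)ᶜ, ‖(ψ i : ℍ → ℂ) z‖ₑ ^ 2 ∂(nu N) := by
    intro i
    refine le_trans ?_ (half hN hδ (ha i) (hψm i) hY (hY2 i))
    apply ENNReal.ofReal_le_ofReal
    linarith [hnorm i]
  have htr := H1.trace hN hΓ hc hp δ e horth (fun i => (hem i).1) ψ hψ Y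
  refine le_trans ?_ htr
  rw [Finset.mul_sum]
  refine Finset.sum_le_sum fun i _ => ?_
  refine le_trans ?_ (mul_le_mul' le_rfl (hlow i))
  rw [← ENNReal.ofReal_ofNat, ← ENNReal.ofReal_mul (by norm_num)]
  apply ENNReal.ofReal_le_ofReal
  linarith

end H2

end

end Pool.Agent.XE31
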