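import Pool.Agent.XE31.H2
import Pool.Agent.XE31.G5
import Mathlib.LinearAlgebra.Matrix.FixedDetMatrices
import Mathlib.NumberTheory.ArithmeticFunction.Misc

/-!
# Hecke representatives
-/

set_option autoImplicit false
set_option linter.all false

open UpperHalfPlane MeasureTheory Metric ModularGroup CongruenceSubgroup
open scoped MatrixGroups ENNReal Modular Topology NNReal

namespace Pool.Agent.XE31

open Pool.Agent.H369R2 Pool.Agent.N799.DT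

noncomputable section

namespace H4

/-- integral matrices -/
abbrev MZ := Matrix (Fin 2) (Fin 2) ℤ

/-- integral matrices of determinant `m ^ 2` congruent to `m` modulo `N` -/
structure HM (N m : ℕ) (g : MZ) : Prop where
  det : g 0 0 * g 1 1 - g 0 1 * g 1 0 = (m : ℤ) ^ 2
  e00 : ((g 0 0 : ℤ) : ZMod N) = m
  e01 : ((g 0 1 : ℤ) : ZMod N) = 0
  e10 : ((g 1 0 : ℤ) : ZMod N) = 0
  e11 : ((g 1 1 : ℤ) : ZMod N) = m

/-- complete systems of representatives modulo `Γ(N)` on the left -/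
structure Reps (N m : ℕ) (S : Finset MZ) : Prop where
  mem : ∀ g ∈ S, HM N m g
  cover : ∀ g, HM N m g → ∃ γ ∈ Gamma N, ∃ s ∈ S, g = (γ : MZ) * s
  uniq : ∀ s ∈ S, ∀ t ∈ S, ∀ γ ∈ Gamma N, s = (γ : MZ) * t → s = t

lemma mul00 (a b : MZ) : (a * b) 0 0 = a 0 0 * b 0 0 + a 0 1 * b 1 0 := by
  simp [Matrix.mul_apply, Fin.sum_univ_two]
lemma mul01 (a b : MZ) : (a * b) 0 1 = a 0 0 * b 0 1 + a 0 1 * b 1 1 := by
  simp [Matrix.mul_apply, Fin.sum_univ_two]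
lemma mul10 (a b : MZ) : (a * b) 1 0 = a 1 0 * b 0 0 + a 1 1 * b 1 0 := by
  simp [Matrix.mul_apply, Fin.sum_univ_two]
lemma mul11 (a b : MZ) : (a * b) 1 1 = a 1 0 * b 0 1 + a 1 1 * b 1 1 := by
  simp [Matrix.mul_apply, Fin.sum_univ_two]

lemma mz_ext {a b : MZ} (h0 : a 0 0 = b 0 0) (h1 : a 0 1 = b 0 1) (h2 : a 1 0 = b 1 0)
    (h3 : a 1 1 = b 1 1) : a = b := by
  ext i j
  fin_cases i <;> fin_cases j
  · exact h0
  · exact h1
  · exact h2
  · exact h3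

lemma sl_det (τ : SL(2, ℤ)) : τ 0 0 * τ 1 1 - τ 0 1 * τ 1 0 = 1 := by
  have := Matrix.SpecialLinearGroup.det_coe τ
  rwa [Matrix.det_fin_two] at this

lemma Gamma_iff {N : ℕ} (γ : SL(2, ℤ)) : γ ∈ Gamma N ↔ ((γ 0 0 : ℤ) : ZMod N) = 1 ∧
    ((γ 0 1 : ℤ) : ZMod N) = 0 ∧ ((γ 1 0 : ℤ) : ZMod N) = 0 ∧ ((γ 1 1 : ℤ) : ZMod N) = 1 :=
  Gamma_mem

/-- proportional elements in the same class are equivalent modulo `Γ(N)` -/
lemma cong {N m : ℕ} (hc : Nat.Coprime m N) {g g' : MZ} (hg : HM N m g) (hg' : HM N m g')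
    {τ : SL(2, ℤ)} (h : g = (τ : MZ) * g') : τ ∈ Gamma N := by
  have hu : IsUnit (m : ZMod N) := (ZMod.isUnit_iff_coprime m N).2 hc
  rw [Gamma_iff]
  have a0 := congrArg (fun M : MZ => ((M 0 0 : ℤ) : ZMod N)) h
  have a1 := congrArg (fun M : MZ => ((M 0 1 : ℤ) : ZMod N)) h
  have a2 := congrArg (fun M : MZ => ((M 1 0 : ℤ) : ZMod N)) h
  have a3 := congrArg (fun M : MZ => ((M 1 1 : ℤ) : ZMod N)) h
  simp only [mul00, mul01, mul10, mul11] at a0 a1 a2 a3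
  push_cast at a0 a1 a2 a3
  rw [hg.e00, hg'.e00, hg'.e10, mul_zero, add_zero] at a0
  rw [hg.e01, hg'.e01, hg'.e11, mul_zero, zero_add] at a1
  rw [hg.e10, hg'.e00, hg'.e10, mul_zero, add_zero] at a2
  rw [hg.e11, hg'.e01, hg'.e11, mul_zero, zero_add] at a3
  refine ⟨?_, ?_, ?_, ?_⟩
  · exact hu.mul_right_cancel (by rw [one_mul]; exact a0.symm)
  · exact hu.mul_right_cancel (by rw [zero_mul]; exact a1.symm)
  · exact hu.mul_right_cancel (by rw [zero_mul]; exact a2.symm)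
  · exact hu.mul_right_cancel (by rw [one_mul]; exact a3.symm)

/-- conjugation by the modular group -/
lemma conj_HM {N m : ℕ} {g : MZ} (hg : HM N m g) (σ : SL(2, ℤ)) :
    HM N m (((σ⁻¹ : SL(2, ℤ)) : MZ) * g * (σ : MZ)) := by
  have hd := sl_det σ
  have i0 : ((σ⁻¹ : SL(2, ℤ)) : MZ) 0 0 = σ 1 1 := by
    rw [Matrix.SpecialLinearGroup.coe_inv, Matrix.adjugate_fin_two]; rfl
  have i1 : ((σ⁻¹ : SL(2, ℤ)) : MZ) 0 1 = -σ 0 1 := by
    rw [Matrix.SpecialLinearGroup.coe_inv, Matrix.adjugate_fin_two]; rfl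
  have i2 : ((σ⁻¹ : SL(2, ℤ)) : MZ) 1 0 = -σ 1 0 := by
    rw [Matrix.SpecialLinearGroup.coe_inv, Matrix.adjugate_fin_two]; rfl
  have i3 : ((σ⁻¹ : SL(2, ℤ)) : MZ) 1 1 = σ 0 0 := by
    rw [Matrix.SpecialLinearGroup.coe_inv, Matrix.adjugate_fin_two]; rfl
  have hdN : ((σ 0 0 : ℤ) : ZMod N) * ((σ 1 1 : ℤ) : ZMod N) -
      ((σ 0 1 : ℤ) : ZMod N) * ((σ 1 0 : ℤ) : ZMod N) = 1 := by
    have := congrArg (fun x : ℤ => (x : ZMod N)) hd
    push_cast at this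
    exact this
  constructor
  · simp only [mul00, mul01, mul10, mul11, i0, i1, i2, i3]
    have := hg.det
    linear_combination (σ 0 0 * σ 1 1 - σ 0 1 * σ 1 0) ^ 2 * this +
      (m : ℤ) ^ 2 * (σ 0 0 * σ 1 1 - σ 0 1 * σ 1 0 + 1) * hd
  · simp only [mul00, mul01, mul10, mul11, i0, i1, i2, i3]
    push_cast
    rw [hg.e00, hg.e01, hg.e10, hg.e11]
    linear_combination (m : ZMod N) * hdN
  · simp only [mul00, mul01, mul10, mul11, i0, i1, i2, i3]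
    push_cast
    rw [hg.e00, hg.e01, hg.e10, hg.e11]
    ring
  · simp only [mul00, mul01, mul10, mul11, i0, i1, i2, i3]
    push_cast
    rw [hg.e00, hg.e01, hg.e10, hg.e11]
    ring
  · simp only [mul00, mul01, mul10, mul11, i0, i1, i2, i3]
    push_cast
    rw [hg.e00, hg.e01, hg.e10, hg.e11]
    linear_combination (m : ZMod N) * hdN

lemma coe_mul3 (a b c : SL(2, ℤ)) : ((a * b * c : SL(2, ℤ)) : MZ) = (a : MZ) * b * c := by
  rw [Matrix.SpecialLinearGroup.coe_mul, Matrix.SpecialLinearGroup.coe_mul]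

lemma inv_mul_coe (a : SL(2, ℤ)) : ((a⁻¹ : SL(2, ℤ)) : MZ) * (a : MZ) = 1 := by
  rw [← Matrix.SpecialLinearGroup.coe_mul, inv_mul_cancel, Matrix.SpecialLinearGroup.coe_one]

lemma mul_inv_coe (a : SL(2, ℤ)) : (a : MZ) * ((a⁻¹ : SL(2, ℤ)) : MZ) = 1 := by
  rw [← Matrix.SpecialLinearGroup.coe_mul, mul_inv_cancel, Matrix.SpecialLinearGroup.coe_one]

/-- the permutation of a system of representatives -/
theorem perm {N m : ℕ} {S : Finset MZ} (hS : Reps N m S) (σ : SL(2, ℤ)) :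
    ∃ (π : Equiv.Perm S) (γ : S → SL(2, ℤ)), (∀ i, γ i ∈ Gamma N) ∧
      ∀ i : S, (i : MZ) * (σ : MZ) = (σ : MZ) * (γ i : MZ) * (π i : MZ) := by
  have h1 : ∀ i : S, ∃ γ : SL(2, ℤ), γ ∈ Gamma N ∧ ∃ s : S,
      (i : MZ) * (σ : MZ) = (σ : MZ) * (γ : MZ) * (s : MZ) := by
    intro i
    obtain ⟨γ, hγ, s, hs, e⟩ := hS.cover _ (conj_HM (hS.mem i i.2) σ)
    refine ⟨γ, hγ, ⟨s, hs⟩, ?_⟩
    calc (i : MZ) * (σ : MZ) = (σ : MZ) * (((σ⁻¹ : SL(2, ℤ)) : MZ) * i * (σ : MZ)) := by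
          rw [← mul_assoc, ← mul_assoc, mul_inv_coe, one_mul]
      _ = _ := by rw [e, mul_assoc]
  choose γ hγ s hs using h1
  have hinj : Function.Injective s := by
    intro i j hij
    have e1 := hs i
    have e2 := hs j
    rw [hij] at e1
    have key : (i : MZ) = ((σ * (γ i * (γ j)⁻¹) * σ⁻¹ : SL(2, ℤ)) : MZ) * (j : MZ) := by
      calc (i : MZ) = (i : MZ) * (σ : MZ) * ((σ⁻¹ : SL(2, ℤ)) : MZ) := by
            rw [mul_assoc, mul_inv_coe, mul_one]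
        _ = (σ : MZ) * (γ i : MZ) * (s j : MZ) * ((σ⁻¹ : SL(2, ℤ)) : MZ) := by rw [e1]
        _ = (σ : MZ) * ((γ i : MZ) * (((γ j)⁻¹ : SL(2, ℤ)) : MZ)) * (((σ⁻¹ : SL(2, ℤ)) : MZ) *
            ((σ : MZ) * (γ j : MZ) * (s j : MZ))) * ((σ⁻¹ : SL(2, ℤ)) : MZ) := by
            have a1 : ((σ⁻¹ : SL(2, ℤ)) : MZ) * ((σ : MZ) * (γ j : MZ) * (s j : MZ)) =
                (γ j : MZ) * (s j : MZ) := by
              rw [← mul_assoc, ← mul_assoc, inv_mul_coe, one_mul]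
            have a2 : (γ i : MZ) * (((γ j)⁻¹ : SL(2, ℤ)) : MZ) * ((γ j : MZ) * (s j : MZ)) =
                (γ i : MZ) * (s j : MZ) := by
              rw [mul_assoc (γ i : MZ), ← mul_assoc (((γ j)⁻¹ : SL(2, ℤ)) : MZ), inv_mul_coe, one_mul]
            rw [a1, mul_assoc (σ : MZ) _ ((γ j : MZ) * (s j : MZ)), a2, mul_assoc (σ : MZ)]
        _ = (σ : MZ) * ((γ i : MZ) * (((γ j)⁻¹ : SL(2, ℤ)) : MZ)) * (((σ⁻¹ : SL(2, ℤ)) : MZ) *
            ((j : MZ) * (σ : MZ))) * ((σ⁻¹ : SL(2, ℤ)) : MZ) := by rw [← e2]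
        _ = _ := by
            rw [coe_mul3, Matrix.SpecialLinearGroup.coe_mul]
            simp only [mul_assoc]
            rw [mul_inv_coe, mul_one]
    have hmem : σ * (γ i * (γ j)⁻¹) * σ⁻¹ ∈ Gamma N :=
      (Gamma_normal N).conj_mem _ ((Gamma N).mul_mem (hγ i) ((Gamma N).inv_mem (hγ j))) σ
    exact Subtype.ext (hS.uniq _ i.2 _ j.2 _ hmem key)
  exact ⟨Equiv.ofBijective s (Finite.injective_iff_bijective.1 hinj), γ, hγ, hs⟩

/-- the values at the representatives do not depend on the system -/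
theorem indep {N m : ℕ} {S S' : Finset MZ} (hS : Reps N m S) (hS' : Reps N m S')
    (F : MZ → ℂ) (hF : ∀ γ ∈ Gamma N, ∀ g, HM N m g → F ((γ : MZ) * g) = F g) :
    ∑ g ∈ S, F g = ∑ g ∈ S', F g := by
  have h1 : ∀ g ∈ S, ∃ s ∈ S', ∃ γ ∈ Gamma N, g = (γ : MZ) * s := by
    intro g hg
    obtain ⟨γ, hγ, s, hs, e⟩ := hS'.cover g (hS.mem g hg)
    exact ⟨s, hs, γ, hγ, e⟩
  choose! s hs γ hγ e using h1
  refine Finset.sum_bij (fun g _ => s g) (fun g hg => hs g hg) ?_ ?_ ?_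
  · intro a ha b hb hab
    refine hS.uniq a ha b hb (γ a * (γ b)⁻¹)
      ((Gamma N).mul_mem (hγ a ha) ((Gamma N).inv_mem (hγ b hb))) ?_
    have e1 := e a ha
    have e2 := e b hb
    have hab' : s a = s b := hab
    rw [hab'] at e1
    calc a = (γ a : MZ) * s b := e1
      _ = (γ a : MZ) * ((((γ b)⁻¹ : SL(2, ℤ)) : MZ) * ((γ b : MZ) * s b)) := by
          rw [← mul_assoc (((γ b)⁻¹ : SL(2, ℤ)) : MZ), inv_mul_coe, one_mul]
      _ = (γ a : MZ) * ((((γ b)⁻¹ : SL(2, ℤ)) : MZ) * b) := by rw [← e2]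
      _ = _ := by rw [Matrix.SpecialLinearGroup.coe_mul, mul_assoc]
  · intro b hb
    obtain ⟨δ, hδ, a, ha, ee⟩ := hS.cover b (hS'.mem b hb)
    refine ⟨a, ha, ?_⟩
    have e1 := e a ha
    refine (hS'.uniq b hb (s a) (hs a ha) (δ * γ a) ((Gamma N).mul_mem hδ (hγ a ha)) ?_).symm
    rw [Matrix.SpecialLinearGroup.coe_mul, mul_assoc, ← e1]
    exact ee
  · intro g hg
    have e3 := hF _ (hγ g hg) _ (hS'.mem _ (hs g hg))
    rw [← e g hg] at e3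
    exact e3

end H4

end

end Pool.Agent.XE31
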