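import Pool.Agent.XE31.H4

/-!
# Counting Hecke representatives
-/

set_option autoImplicit false
set_option linter.all false

open UpperHalfPlane MeasureTheory Metric ModularGroup CongruenceSubgroup
open scoped MatrixGroups ENNReal Modular Topology NNReal

namespace Pool.Agent.XE31

open Pool.Agent.H369R2 Pool.Agent.N799.DT

noncomputable section

namespace H5

open H4 FixedDetMatrices

theorem reduce_orbit {m : ℤ} (A : FixedDetMatrix (Fin 2) ℤ m) :
    ∃ γ : SL(2, ℤ), reduce A = γ • A := by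
  induction A using reduce_rec with
  | step A h1 h2 =>
    obtain ⟨γ, hγ⟩ := h2
    rw [← reduce_reduceStep h1]
    refine ⟨γ * (S * T ^ (-(A.1 0 0 / A.1 1 0))), ?_⟩
    rw [hγ, mul_smul, mul_smul]
    rfl
  | base A h =>
    by_cases h1 : 0 < A.1 0 0
    · exact ⟨_, reduce_of_pos h h1⟩
    · refine ⟨(T ^ (-(-A.1 0 1 / -A.1 1 1))) * (S * S), ?_⟩
      rw [reduce_of_not_pos h h1, mul_smul, mul_smul]

/-- the Hermite normal forms -/
def HF (M : ℕ) : Finset (Σ _ : ℕ, ℕ) := M.divisors.sigma fun e => Finset.range e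

lemma HF_card (M : ℕ) : (HF M).card = ∑ e ∈ M.divisors, e := by
  unfold HF
  rw [Finset.card_sigma]
  simp

theorem herm {M : ℕ} (hM : 0 < M) : ∃ F : MZ → (Σ _ : ℕ, ℕ),
    (∀ g : MZ, g.det = (M : ℤ) → F g ∈ HF M) ∧
    ∀ g g' : MZ, g.det = (M : ℤ) → g'.det = (M : ℤ) → F g = F g' →
      ∃ τ : SL(2, ℤ), g = (τ : MZ) * g' := by
  classical
  have hMz : (M : ℤ) ≠ 0 := by exact_mod_cast hM.ne'
  have hMp : (0 : ℤ) < M := by exact_mod_cast hM
  have key : ∀ g : MZ, g.det = (M : ℤ) → ∃ (γ : SL(2, ℤ)) (B : MZ),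
      B = (γ : MZ) * g ∧ B 1 0 = 0 ∧ B 0 0 * B 1 1 = M ∧ 0 < B 1 1 ∧ 0 ≤ B 0 1 ∧
        B 0 1 < B 1 1 := by
    intro g hg
    obtain ⟨A, hA⟩ : ∃ A : FixedDetMatrix (Fin 2) ℤ M, A.1 = g := ⟨⟨g, hg⟩, rfl⟩
    obtain ⟨γ, hγ⟩ := reduce_orbit A
    obtain ⟨h1, h2, h3, h4⟩ := reduce_mem_reps hMz A
    obtain ⟨B, hB⟩ : ∃ B : MZ, B = (reduce A).1 := ⟨_, rfl⟩
    have hdet : B.det = (M : ℤ) := by rw [hB]; exact (reduce A).2
    have hBγ : B = (γ : MZ) * g := by
      rw [hB, ← hA]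
      exact congrArg Subtype.val hγ
    have k1 : B 1 0 = 0 := by rw [hB]; exact h1
    have k2 : 0 < B 0 0 := by rw [hB]; exact h2
    have k3 : 0 ≤ B 0 1 := by rw [hB]; exact h3
    have k4 : |B 0 1| < |B 1 1| := by rw [hB]; exact h4
    have h5 : B 0 0 * B 1 1 = M := by
      rw [Matrix.det_fin_two, k1, mul_zero, sub_zero] at hdet
      exact hdet
    have h6 : 0 < B 1 1 := by
      have : 0 < B 0 0 * B 1 1 := by rw [h5]; exact hMp
      exact (mul_pos_iff_of_pos_left k2).1 this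
    refine ⟨γ, B, hBγ, k1, h5, h6, k3, ?_⟩
    rwa [abs_of_nonneg k3, abs_of_pos h6] at k4
  choose! γ B hB h1 h2 h3 h4 h5 using key
  refine ⟨fun g => ⟨(B g 1 1).toNat, (B g 0 1).toNat⟩, ?_, ?_⟩
  · intro g hg
    unfold HF
    rw [Finset.mem_sigma, Nat.mem_divisors, Finset.mem_range]
    have a2 := h2 g hg
    have a3 := h3 g hg
    have a4 := h4 g hg
    have a5 := h5 g hg
    refine ⟨⟨?_, hM.ne'⟩, ?_⟩
    · rw [← Int.natCast_dvd_natCast]
      show ((B g 1 1).toNat : ℤ) ∣ _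
      rw [Int.toNat_of_nonneg a3.le]
      exact ⟨B g 0 0, by rw [← a2]; ring⟩
    · show (B g 0 1).toNat < (B g 1 1).toNat
      omega
  · intro g g' hg hg' h
    rw [Sigma.mk.injEq] at h
    obtain ⟨e1, e2⟩ := h
    have e2' := eq_of_heq e2
    have b3 := h3 g hg
    have b3' := h3 g' hg'
    have b4 := h4 g hg
    have b4' := h4 g' hg'
    have c1 : B g 1 1 = B g' 1 1 := by omega
    have c2 : B g 0 1 = B g' 0 1 := by omega
    have c3 : B g 0 0 = B g' 0 0 := by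
      have a2 := h2 g hg
      have a2' := h2 g' hg'
      rw [← a2', c1] at a2
      rw [c1] at b3
      exact mul_right_cancel₀ b3.ne' a2
    have c4 : B g = B g' := mz_ext c3 c2 ((h1 g hg).trans (h1 g' hg').symm) c1
    have d1 := hB g hg
    have d2 := hB g' hg'
    refine ⟨(γ g)⁻¹ * γ g', ?_⟩
    rw [Matrix.SpecialLinearGroup.coe_mul, mul_assoc, ← d2, ← c4, d1, ← mul_assoc, inv_mul_coe,
      one_mul]

/-- the number of representatives -/
theorem Reps_card {N m : ℕ} (hm : 0 < m) (hc : Nat.Coprime m N) {S : Finset MZ}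
    (hS : Reps N m S) : S.card ≤ ∑ e ∈ (m ^ 2).divisors, e := by
  obtain ⟨F, hF1, hF2⟩ := herm (M := m ^ 2) (by positivity)
  rw [← HF_card]
  have hdet : ∀ g ∈ S, g.det = ((m ^ 2 : ℕ) : ℤ) := by
    intro g hg
    rw [Matrix.det_fin_two, (hS.mem g hg).det]
    push_cast
    rfl
  refine Finset.card_le_card_of_injOn F (fun g hg => hF1 g (hdet g hg)) ?_
  intro g hg g' hg' h
  obtain ⟨τ, hτ⟩ := hF2 g g' (hdet g hg) (hdet g' hg') h
  exact hS.uniq g hg g' hg' τ (cong hc (hS.mem g hg) (hS.mem g' hg') hτ) hτ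

/-- the matrix of the displacement -/
def eta (g g' : MZ) (τ : SL(2, ℤ)) : MZ := g.adjugate * (τ : MZ) * g'

lemma adj00 (g : MZ) : g.adjugate 0 0 = g 1 1 := by rw [Matrix.adjugate_fin_two]; rfl
lemma adj01 (g : MZ) : g.adjugate 0 1 = -g 0 1 := by rw [Matrix.adjugate_fin_two]; rfl
lemma adj10 (g : MZ) : g.adjugate 1 0 = -g 1 0 := by rw [Matrix.adjugate_fin_two]; rfl
lemma adj11 (g : MZ) : g.adjugate 1 1 = g 0 0 := by rw [Matrix.adjugate_fin_two]; rfl

/-- scalar displacement -/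
def Sc (g g' : MZ) (τ : SL(2, ℤ)) : Prop :=
  (eta g g' τ) 0 1 = 0 ∧ (eta g g' τ) 1 0 = 0 ∧ (eta g g' τ) 0 0 = (eta g g' τ) 1 1

lemma det_of_HM {N m : ℕ} {g : MZ} (hg : HM N m g) : g.det = (m : ℤ) ^ 2 := by
  rw [Matrix.det_fin_two]; exact hg.det

lemma Sc_eq {N m m' : ℕ} (hm : 0 < m) (hm' : 0 < m') {g g' : MZ} (hg : HM N m g)
    (hg' : HM N m' g') {τ : SL(2, ℤ)} (h : Sc g g' τ) :
    (m : ℤ) • ((τ : MZ) * g') = (m' : ℤ) • g ∨ (m : ℤ) • ((τ : MZ) * g') = (-(m' : ℤ)) • g := by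
  obtain ⟨h1, h2, h3⟩ := h
  obtain ⟨η, hη⟩ : ∃ η, η = eta g g' τ := ⟨_, rfl⟩
  rw [← hη] at h1 h2 h3
  have hmz : (m : ℤ) ≠ 0 := by exact_mod_cast hm.ne'
  have hdet : η.det = ((m : ℤ) * m') ^ 2 := by
    rw [hη, eta, Matrix.det_mul, Matrix.det_mul, Matrix.det_adjugate, Matrix.SpecialLinearGroup.det_coe,
      det_of_HM hg, det_of_HM hg']
    simp
    ring
  rw [Matrix.det_fin_two, h1, h2, h3, mul_zero, sub_zero] at hdet
  have h4 : η 1 1 = (m : ℤ) * m' ∨ η 1 1 = -((m : ℤ) * m') := by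
    apply sq_eq_sq_iff_eq_or_eq_neg.1
    rw [← hdet]; ring
  have h5 : g * η = ((m : ℤ) ^ 2) • ((τ : MZ) * g') := by
    rw [hη, eta, mul_assoc, ← mul_assoc g, Matrix.mul_adjugate, det_of_HM hg]
    rw [smul_mul_assoc, one_mul]
  have h6 : ∀ s : ℤ, η 1 1 = s → g * η = s • g := by
    intro s hs
    have : η = s • (1 : MZ) := by
      apply mz_ext
      · rw [h3, hs]; simp
      · rw [h1]; simp
      · rw [h2]; simp
      · rw [hs]; simp
    rw [this, mul_smul_comm, mul_one]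
  rcases h4 with h4 | h4
  · left
    have h7 := h6 _ h4
    rw [h5] at h7
    have : (m : ℤ) • ((m : ℤ) • ((τ : MZ) * g')) = (m : ℤ) • ((m' : ℤ) • g) := by
      rw [smul_smul, smul_smul, ← sq, h7]
    exact smul_right_injective _ hmz this
  · right
    have h7 := h6 _ h4
    rw [h5] at h7
    have : (m : ℤ) • ((m : ℤ) • ((τ : MZ) * g')) = (m : ℤ) • ((-(m' : ℤ)) • g) := by
      rw [smul_smul, smul_smul, ← sq, h7]
      congr 1
      ring
    exact smul_right_injective _ hmz this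

end H5

end

end Pool.Agent.XE31
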