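import Pool.Agent.XE31.H5
import Pool.Agent.XE31.E1

/-!
# The geometric side for pairs of Hecke representatives
-/

set_option autoImplicit false
set_option linter.all false

open UpperHalfPlane MeasureTheory Metric ModularGroup CongruenceSubgroup
open scoped MatrixGroups ENNReal Modular Topology NNReal

namespace Pool.Agent.XE31

open Pool.Agent.H369R2 Pool.Agent.N799.DT

noncomputable section

namespace H6

open H1 H4 H5 M1

lemma sl_cancel {m : ℕ} (hm : 0 < m) {N : ℕ} {g : MZ} (hg : HM N m g) {x y : MZ}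
    (h : x * g = y * g) : x = y := by
  have hmz : ((m : ℤ) ^ 2) ≠ 0 := by positivity
  have h1 : x * (g * g.adjugate) = y * (g * g.adjugate) := by
    rw [← mul_assoc, ← mul_assoc, h]
  rw [Matrix.mul_adjugate, det_of_HM hg, mul_smul_comm, mul_one, mul_smul_comm, mul_one] at h1
  exact smul_right_injective _ hmz h1

lemma adj_cancel {m : ℕ} (hm : 0 < m) {N : ℕ} {g : MZ} (hg : HM N m g) {x y : MZ}
    (h : g.adjugate * x = g.adjugate * y) : x = y := by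
  have hmz : ((m : ℤ) ^ 2) ≠ 0 := by positivity
  have h1 : (g * g.adjugate) * x = (g * g.adjugate) * y := by
    rw [mul_assoc, mul_assoc, h]
  rw [Matrix.mul_adjugate, det_of_HM hg, smul_mul_assoc, one_mul, smul_mul_assoc, one_mul] at h1
  exact smul_right_injective _ hmz h1

lemma sl_coe_inj {a b : SL(2, ℤ)} (h : (a : MZ) = (b : MZ)) : a = b := Subtype.ext h

/-- the entries of the displacement matrix -/
def ent4 (A : MZ) : ℤ × ℤ × ℤ × ℤ := (A 0 0, A 0 1, A 1 0, A 1 1)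

lemma ent4_inj : Function.Injective ent4 := by
  intro A B h
  unfold ent4 at h
  simp only [Prod.mk.injEq] at h
  obtain ⟨h1, h2, h3, h4⟩ := h
  exact mz_ext h1 h2 h3 h4

lemma eta_inj {N m m' : ℕ} (hm : 0 < m) (hm' : 0 < m') {g g' : MZ} (hg : HM N m g)
    (hg' : HM N m' g') : Function.Injective fun τ : SL(2, ℤ) => ent4 (eta g g' τ) := by
  intro a b h
  have h1 : eta g g' a = eta g g' b := ent4_inj h
  unfold eta at h1
  exact sl_coe_inj (adj_cancel hm hg (sl_cancel hm' hg' h1))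

instance (g g' : MZ) (τ : SL(2, ℤ)) : Decidable (Sc g g' τ) := by
  unfold H5.Sc
  infer_instance

/-- the triples with scalar displacement -/
def XS (S S' : Finset MZ) : Set (S × S' × SL(2, ℤ)) := {x | Sc (x.1 : MZ) (x.2.1 : MZ) x.2.2}

lemma XS_sum (S S' : Finset MZ) :
    ∑ g ∈ S, ∑ g' ∈ S', ∑' τ : SL(2, ℤ), (if Sc g g' τ then (1 : ℝ≥0∞) else 0) =
      ∑' x : XS S S', (1 : ℝ≥0∞) := by
  rw [tsum_subtype (XS S S') (fun _ => (1 : ℝ≥0∞)), ENNReal.tsum_prod', ← Finset.sum_coe_sort S,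
    tsum_fintype]
  refine Finset.sum_congr rfl fun g _ => ?_
  rw [ENNReal.tsum_prod', ← Finset.sum_coe_sort S', tsum_fintype]
  refine Finset.sum_congr rfl fun g' _ => tsum_congr fun τ => ?_
  classical
  rw [Set.indicator_apply]
  by_cases h : Sc (g : MZ) (g' : MZ) τ
  · rw [if_pos h, if_pos (show (g, g', τ) ∈ XS S S' from h)]
  · rw [if_neg h, if_neg (show ¬ (g, g', τ) ∈ XS S S' from h)]

/-- the scalar displacements -/
theorem scal_count {N m m' : ℕ} (hm : 0 < m) (hm' : 0 < m') (hc : Nat.Coprime m N)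
    (hc' : Nat.Coprime m' N) {S S' : Finset MZ} (hS : Reps N m S) (hS' : Reps N m' S') :
    ∑ g ∈ S, ∑ g' ∈ S', ∑' τ : SL(2, ℤ), (if Sc g g' τ then (1 : ℝ≥0∞) else 0) ≤
      2 * ((∑ e ∈ ((Nat.gcd m m') ^ 2).divisors, e : ℕ) : ℝ≥0∞) := by
  classical
  obtain ⟨d, hd⟩ : ∃ d, d = Nat.gcd m m' := ⟨_, rfl⟩
  have hd0 : 0 < d := by rw [hd]; exact Nat.gcd_pos_of_pos_left _ hm
  obtain ⟨a, b, hab, ha, hb⟩ := Nat.exists_coprime m m'
  rw [← hd] at ha hb ⊢
  have ha0 : 0 < a := Nat.pos_of_mul_pos_right (by rw [← ha]; exact hm) |> fun h => by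
    rcases Nat.eq_zero_or_pos a with h0 | h0
    · rw [h0, zero_mul] at ha; omega
    · exact h0
  have hdz : (d : ℤ) ≠ 0 := by exact_mod_cast hd0.ne'
  have haz : (a : ℤ) ≠ 0 := by exact_mod_cast ha0.ne'
  have hmz : (m : ℤ) ≠ 0 := by exact_mod_cast hm.ne'
  obtain ⟨F, hF1, hF2⟩ := herm (M := d ^ 2) (by positivity)
  -- divisibility
  have hdiv : ∀ g g' : MZ, HM N m g → HM N m' g' → ∀ τ : SL(2, ℤ), Sc g g' τ →
      ∃ g₀ : MZ, g = (a : ℤ) • g₀ ∧ g₀.det = ((d ^ 2 : ℕ) : ℤ) := by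
    intro g g' hg hg' τ hsc
    have h1 : ∀ i j, (a : ℤ) ∣ g i j := by
      intro i j
      have h2 : (a : ℤ) ∣ (b : ℤ) * g i j := by
        rcases Sc_eq hm hm' hg hg' hsc with h | h
        · have h3 := congrFun (congrFun h i) j
          rw [Matrix.smul_apply, Matrix.smul_apply, smul_eq_mul, smul_eq_mul, ha, hb] at h3
          push_cast at h3
          have h4 : (d : ℤ) * ((a : ℤ) * (((τ : MZ) * g') i j)) = (d : ℤ) * ((b : ℤ) * g i j) := by
            linear_combination h3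
          exact ⟨_, (mul_left_cancel₀ hdz h4).symm⟩
        · have h3 := congrFun (congrFun h i) j
          rw [Matrix.smul_apply, Matrix.smul_apply, smul_eq_mul, smul_eq_mul, ha, hb] at h3
          push_cast at h3
          have h4 : (d : ℤ) * ((a : ℤ) * (-((τ : MZ) * g') i j)) = (d : ℤ) * ((b : ℤ) * g i j) := by
            linear_combination -h3
          exact ⟨_, (mul_left_cancel₀ hdz h4).symm⟩
      exact (Nat.isCoprime_iff_coprime.2 hab).dvd_of_dvd_mul_left h2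
    choose q hq using h1
    refine ⟨Matrix.of q, ?_, ?_⟩
    · ext i j
      rw [Matrix.smul_apply, smul_eq_mul, Matrix.of_apply]
      exact hq i j
    · have h3 := hg.det
      rw [hq 0 0, hq 1 1, hq 0 1, hq 1 0, ha] at h3
      rw [Matrix.det_fin_two]
      simp only [Matrix.of_apply]
      push_cast at h3 ⊢
      have h4 : (a : ℤ) ^ 2 * (q 0 0 * q 1 1 - q 0 1 * q 1 0) = (a : ℤ) ^ 2 * (d : ℤ) ^ 2 := by
        linear_combination h3
      exact mul_left_cancel₀ (pow_ne_zero 2 haz) h4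
  choose! g₀ hg₀ hg₀d using hdiv
  have hsc : ∀ x : XS S S', Sc (x.1.1 : MZ) (x.1.2.1 : MZ) x.1.2.2 := fun x => x.2
  obtain ⟨Φ, hΦ⟩ : ∃ Φ : XS S S' → Bool × HF (d ^ 2), ∀ x : XS S S', Φ x =
      (decide ((m : ℤ) • ((x.1.2.2 : MZ) * (x.1.2.1 : MZ)) = (m' : ℤ) • (x.1.1 : MZ)),
        ⟨F (g₀ x.1.1 x.1.2.1 x.1.2.2), hF1 _ (hg₀d _ _ (hS.mem _ x.1.1.2)
          (hS'.mem _ x.1.2.1.2) _ (hsc x))⟩) :=
    ⟨fun x => _, fun x => rfl⟩
  have hΦi : Function.Injective Φ := by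
    rintro x₁ x₂ h
    rw [hΦ, hΦ] at h
    simp only [Prod.mk.injEq, Subtype.mk.injEq] at h
    obtain ⟨h1, h2⟩ := h
    have s₁ := hsc x₁
    have s₂ := hsc x₂
    obtain ⟨⟨g₁, g₁', τ₁⟩, hx₁⟩ := x₁
    obtain ⟨⟨g₂, g₂', τ₂⟩, hx₂⟩ := x₂
    simp only at s₁ s₂ h1 h2
    have m₁ := hS.mem _ g₁.2
    have m₂ := hS.mem _ g₂.2
    have m₁' := hS'.mem _ g₁'.2
    have m₂' := hS'.mem _ g₂'.2
    obtain ⟨τ, hτ⟩ := hF2 _ _ (hg₀d _ _ m₁ m₁' _ s₁) (hg₀d _ _ m₂ m₂' _ s₂) h2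
    have h3 : (g₁ : MZ) = (τ : MZ) * (g₂ : MZ) := by
      rw [hg₀ _ _ m₁ m₁' _ s₁, hτ, ← mul_smul_comm, ← hg₀ _ _ m₂ m₂' _ s₂]
    have h4 : (g₁ : MZ) = g₂ := hS.uniq _ g₁.2 _ g₂.2 τ (cong hc m₁ m₂ h3) h3
    have h5 : (m : ℤ) • ((τ₁ : MZ) * (g₁' : MZ)) = (m : ℤ) • ((τ₂ : MZ) * (g₂' : MZ)) := by
      by_cases hs : (m : ℤ) • ((τ₁ : MZ) * (g₁' : MZ)) = (m' : ℤ) • (g₁ : MZ)
      · have hs2 : (m : ℤ) • ((τ₂ : MZ) * (g₂' : MZ)) = (m' : ℤ) • (g₂ : MZ) := by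
          rw [decide_eq_true hs] at h1
          exact of_decide_eq_true h1.symm
        rw [hs, hs2, h4]
      · have hs2 : ¬ (m : ℤ) • ((τ₂ : MZ) * (g₂' : MZ)) = (m' : ℤ) • (g₂ : MZ) := by
          rw [decide_eq_false hs] at h1
          exact of_decide_eq_false h1.symm
        have t1 := (Sc_eq hm hm' m₁ m₁' s₁).resolve_left hs
        have t2 := (Sc_eq hm hm' m₂ m₂' s₂).resolve_left hs2
        rw [t1, t2, h4]
    have h6 : (τ₁ : MZ) * (g₁' : MZ) = (τ₂ : MZ) * (g₂' : MZ) :=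
      smul_right_injective _ hmz h5
    have h7 : (g₁' : MZ) = ((τ₁⁻¹ * τ₂ : SL(2, ℤ)) : MZ) * (g₂' : MZ) := by
      rw [Matrix.SpecialLinearGroup.coe_mul, mul_assoc, ← h6, ← mul_assoc, inv_mul_coe, one_mul]
    have h8 : (g₁' : MZ) = g₂' := hS'.uniq _ g₁'.2 _ g₂'.2 _ (cong hc' m₁' m₂' h7) h7
    rw [h8] at h6
    have h9 : τ₁ = τ₂ := sl_coe_inj (sl_cancel hm' m₂' h6)
    have e1 : g₁ = g₂ := Subtype.ext h4
    have e2 : g₁' = g₂' := Subtype.ext h8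
    subst e1 e2 h9
    rfl
  rw [XS_sum]
  calc ∑' x : XS S S', (1 : ℝ≥0∞) =
      ∑' x : XS S S', (fun _ : Bool × HF (d ^ 2) => (1 : ℝ≥0∞)) (Φ x) := rfl
    _ ≤ ∑' y : Bool × HF (d ^ 2), (1 : ℝ≥0∞) := ENNReal.tsum_comp_le_tsum_of_injective hΦi _
    _ = _ := by
        rw [tsum_fintype, Finset.sum_const, Finset.card_univ, Fintype.card_prod, Fintype.card_bool,
          Fintype.card_coe, HF_card]
        simp

end H6

end

end Pool.Agent.XE31
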