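import Pool.Agent.XE31.H6

/-!
# The geometric side for pairs of Hecke representatives, integrals
-/

set_option autoImplicit false
set_option linter.all false

open UpperHalfPlane MeasureTheory Metric ModularGroup CongruenceSubgroup
open scoped MatrixGroups ENNReal Modular Topology NNReal

namespace Pool.Agent.XE31

open Pool.Agent.H369R2 Pool.Agent.N799.DT

noncomputable section

namespace H7

open H1 H4 H5 H6 M1

/-- the normalised real matrix -/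
def nm (m : ℕ) (g : MZ) : SL(2, ℝ) :=
  if h : (g.map (fun x : ℤ => (x : ℝ) / m)).det = 1 then ⟨g.map (fun x : ℤ => (x : ℝ) / m), h⟩
  else 1

lemma nm_det {N m : ℕ} (hm : 0 < m) {g : MZ} (hg : HM N m g) :
    (g.map (fun x : ℤ => (x : ℝ) / m)).det = 1 := by
  have hm' : (m : ℝ) ≠ 0 := by exact_mod_cast hm.ne'
  have h := hg.det
  have h2 : (g 0 0 : ℝ) * g 1 1 - g 0 1 * g 1 0 = (m : ℝ) ^ 2 := by exact_mod_cast h
  rw [Matrix.det_fin_two]
  simp only [Matrix.map_apply]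
  field_simp
  linear_combination h2

lemma nm_apply {N m : ℕ} (hm : 0 < m) {g : MZ} (hg : HM N m g) (i j : Fin 2) :
    nm m g i j = (g i j : ℝ) / m := by
  have h : nm m g = ⟨g.map (fun x : ℤ => (x : ℝ) / m), nm_det hm hg⟩ := dif_pos (nm_det hm hg)
  rw [h]
  rfl

lemma sl_ext {a b : SL(2, ℝ)} (h0 : a 0 0 = b 0 0) (h1 : a 0 1 = b 0 1) (h2 : a 1 0 = b 1 0)
    (h3 : a 1 1 = b 1 1) : a = b := by
  apply Subtype.ext
  ext i j
  fin_cases i <;> fin_cases j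
  · exact h0
  · exact h1
  · exact h2
  · exact h3

lemma r00 (a b : SL(2, ℝ)) : (a * b) 0 0 = a 0 0 * b 0 0 + a 0 1 * b 1 0 := by
  rw [Matrix.SpecialLinearGroup.coe_mul, Matrix.mul_apply, Fin.sum_univ_two]
lemma r01 (a b : SL(2, ℝ)) : (a * b) 0 1 = a 0 0 * b 0 1 + a 0 1 * b 1 1 := by
  rw [Matrix.SpecialLinearGroup.coe_mul, Matrix.mul_apply, Fin.sum_univ_two]
lemma r10 (a b : SL(2, ℝ)) : (a * b) 1 0 = a 1 0 * b 0 0 + a 1 1 * b 1 0 := by
  rw [Matrix.SpecialLinearGroup.coe_mul, Matrix.mul_apply, Fin.sum_univ_two]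
lemma r11 (a b : SL(2, ℝ)) : (a * b) 1 1 = a 1 0 * b 0 1 + a 1 1 * b 1 1 := by
  rw [Matrix.SpecialLinearGroup.coe_mul, Matrix.mul_apply, Fin.sum_univ_two]

lemma c00 (τ : SL(2, ℤ)) (i j : Fin 2) : (τ : SL(2, ℝ)) i j = ((τ i j : ℤ) : ℝ) := by simp

lemma inv00 (a : SL(2, ℝ)) : a⁻¹ 0 0 = a 1 1 := by
  rw [Matrix.SpecialLinearGroup.SL2_inv_expl]; rfl
lemma inv01 (a : SL(2, ℝ)) : a⁻¹ 0 1 = -a 0 1 := by
  rw [Matrix.SpecialLinearGroup.SL2_inv_expl]; rfl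
lemma inv10 (a : SL(2, ℝ)) : a⁻¹ 1 0 = -a 1 0 := by
  rw [Matrix.SpecialLinearGroup.SL2_inv_expl]; rfl
lemma inv11 (a : SL(2, ℝ)) : a⁻¹ 1 1 = a 0 0 := by
  rw [Matrix.SpecialLinearGroup.SL2_inv_expl]; rfl

/-- compatibility of the normalised matrices with the permutation -/
lemma nm_compat {N m : ℕ} (hm : 0 < m) {g g' : MZ} (hg : HM N m g) (hg' : HM N m g')
    {σ γ : SL(2, ℤ)} (h : g * (σ : MZ) = (σ : MZ) * (γ : MZ) * g') :
    nm m g * (σ : SL(2, ℝ)) = (σ : SL(2, ℝ)) * (γ : SL(2, ℝ)) * nm m g' := by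
  have hm' : (m : ℝ) ≠ 0 := by exact_mod_cast hm.ne'
  have e : ∀ i j, (((g * (σ : MZ)) i j : ℤ) : ℝ) = ((((σ : MZ) * (γ : MZ) * g') i j : ℤ) : ℝ) :=
    fun i j => by rw [h]
  have e0 := e 0 0
  have e1 := e 0 1
  have e2 := e 1 0
  have e3 := e 1 1
  simp only [mul00, mul01, mul10, mul11] at e0 e1 e2 e3
  push_cast at e0 e1 e2 e3
  apply sl_ext
  · rw [r00, r00, r00, r01]
    simp only [c00, nm_apply hm hg, nm_apply hm hg']
    field_simp
    linear_combination e0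
  · rw [r01, r01, r00, r01]
    simp only [c00, nm_apply hm hg, nm_apply hm hg']
    field_simp
    linear_combination e1
  · rw [r10, r10, r10, r11]
    simp only [c00, nm_apply hm hg, nm_apply hm hg']
    field_simp
    linear_combination e2
  · rw [r11, r11, r10, r11]
    simp only [c00, nm_apply hm hg, nm_apply hm hg']
    field_simp
    linear_combination e3

/-- the displacement -/
def disp (m m' : ℕ) (g g' : MZ) (τ : SL(2, ℤ)) : SL(2, ℝ) :=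
  (nm m g)⁻¹ * (τ : SL(2, ℝ)) * nm m' g'

lemma disp_apply {N m m' : ℕ} (hm : 0 < m) (hm' : 0 < m') {g g' : MZ} (hg : HM N m g)
    (hg' : HM N m' g') (τ : SL(2, ℤ)) :
    ((m : ℝ) * m') * disp m m' g g' τ 0 0 = (((eta g g' τ) 0 0 : ℤ) : ℝ) ∧
    ((m : ℝ) * m') * disp m m' g g' τ 0 1 = (((eta g g' τ) 0 1 : ℤ) : ℝ) ∧
    ((m : ℝ) * m') * disp m m' g g' τ 1 0 = (((eta g g' τ) 1 0 : ℤ) : ℝ) ∧
    ((m : ℝ) * m') * disp m m' g g' τ 1 1 = (((eta g g' τ) 1 1 : ℤ) : ℝ) := by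
  have h1 : (m : ℝ) ≠ 0 := by exact_mod_cast hm.ne'
  have h2 : (m' : ℝ) ≠ 0 := by exact_mod_cast hm'.ne'
  unfold disp eta
  refine ⟨?_, ?_, ?_, ?_⟩
  · rw [r00, r00, r01, inv00, inv01]
    simp only [mul00, mul01, mul10, mul11, adj00, adj01, adj10, adj11, c00, nm_apply hm hg,
      nm_apply hm' hg']
    push_cast
    field_simp
  · rw [r01, r00, r01, inv00, inv01]
    simp only [mul00, mul01, mul10, mul11, adj00, adj01, adj10, adj11, c00, nm_apply hm hg,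
      nm_apply hm' hg']
    push_cast
    field_simp
  · rw [r10, r10, r11, inv10, inv11]
    simp only [mul00, mul01, mul10, mul11, adj00, adj01, adj10, adj11, c00, nm_apply hm hg,
      nm_apply hm' hg']
    push_cast
    field_simp
  · rw [r11, r10, r11, inv10, inv11]
    simp only [mul00, mul01, mul10, mul11, adj00, adj01, adj10, adj11, c00, nm_apply hm hg,
      nm_apply hm' hg']
    push_cast
    field_simp

lemma eta_mod {N m m' : ℕ} {g g' : MZ} (hg : HM N m g) (hg' : HM N m' g') (τ : SL(2, ℤ)) :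
    (((eta g g' τ) 0 0 : ℤ) : ZMod N) = ((m * m' : ℕ) : ℤ) * (τ 0 0 : ℤ) ∧
    (((eta g g' τ) 0 1 : ℤ) : ZMod N) = ((m * m' : ℕ) : ℤ) * (τ 0 1 : ℤ) ∧
    (((eta g g' τ) 1 0 : ℤ) : ZMod N) = ((m * m' : ℕ) : ℤ) * (τ 1 0 : ℤ) ∧
    (((eta g g' τ) 1 1 : ℤ) : ZMod N) = ((m * m' : ℕ) : ℤ) * (τ 1 1 : ℤ) := by
  unfold eta
  refine ⟨?_, ?_, ?_, ?_⟩ <;>
  · simp only [mul00, mul01, mul10, mul11, adj00, adj01, adj10, adj11]
    push_cast
    simp only [hg.e00, hg.e01, hg.e10, hg.e11, hg'.e00, hg'.e01, hg'.e10, hg'.e11]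
    ring

lemma dist_disp {m m' : ℕ} (g g' : MZ) (τ : SL(2, ℤ)) (z : ℍ) :
    dist (disp m m' g g' τ • z) z = dist (nm m g • z) (τ • nm m' g' • z) := by
  have h1 : disp m m' g g' τ • z = (nm m g)⁻¹ • (τ • nm m' g' • z) := by
    unfold disp
    rw [mul_smul ((nm m g)⁻¹ * (τ : SL(2, ℝ))) (nm m' g') z, mul_smul (nm m g)⁻¹ (τ : SL(2, ℝ))]
    rfl
  rw [h1, ← dist_smul (nm m g) ((nm m g)⁻¹ • (τ • nm m' g' • z)) z, smul_inv_smul, dist_comm]

/-- the integral for a pair of representatives -/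
theorem pair {N : ℕ} (hN : 0 < N) {m m' : ℕ} (hm : 0 < m) (hm' : 0 < m') {g g' : MZ}
    (hg : HM N m g) (hg' : HM N m' g') {n δ Y A : ℝ} (hn : 0 ≤ n) (hδ : 0 < δ) (hδ2 : δ ≤ 1 / 2)
    (hY : 1 ≤ Y) (hA : 0 ≤ A) (φ : SL(2, ℤ) → ℝ) (h1 : ∀ τ, φ τ ≤ n)
    (h2 : ∀ τ, φ τ ≤ A * (lev N (red N τ) : ℝ)) :
    ∫⁻ z in 𝒟ᵒ ∩ (cuspRegion Y)ᶜ, ∑' τ : SL(2, ℤ), ENNReal.ofReal (φ τ) *
      vv δ (nm m g • z) (τ • nm m' g' • z) ≤
    ENNReal.ofReal (2 * n * bv δ) * (∑' τ : SL(2, ℤ), (if Sc g g' τ then 1 else 0)) +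
      ENNReal.ofReal (A * bv δ * ((4 * ((m : ℝ) * m') * δ) * (10560 * (2 * ((m : ℝ) * m')) ^ 6 *
        (N.divisors.card * (1 + Real.log (2 * (2 * ((m : ℝ) * m')) * Y)))))) := by
  classical
  have hm1 : (1 : ℝ) ≤ m := by exact_mod_cast hm
  have hm1' : (1 : ℝ) ≤ m' := by exact_mod_cast hm'
  obtain ⟨D, hD⟩ : ∃ D : ℝ, D = (m : ℝ) * m' := ⟨_, rfl⟩
  have hD1 : 1 ≤ D := by rw [hD]; exact one_le_mul_of_one_le_of_one_le hm1 hm1'
  have hE : 1 ≤ 2 * D := by linarith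
  have hε : 0 < 4 * D * δ := by positivity
  have hεE : 4 * D * δ ≤ 2 * D := by nlinarith
  rw [← hD]
  have hms : MeasurableSet (𝒟ᵒ ∩ (cuspRegion Y)ᶜ : Set ℍ) :=
    isOpen_fdo.measurableSet.inter (measurableSet_cuspRegion Y).compl
  rw [lintegral_tsum fun τ => ((measurable_vv_smul δ _ _ τ).const_mul _).aemeasurable]
  have hvol : volume (𝒟ᵒ ∩ (cuspRegion Y)ᶜ : Set ℍ) ≤ ENNReal.ofReal 2 :=
    (measure_mono Set.inter_subset_left).trans G3.vol_fdo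
  have him : ∀ z ∈ (𝒟ᵒ ∩ (cuspRegion Y)ᶜ : Set ℍ), z.im ≤ Y := by
    rintro z ⟨_, hz⟩
    by_contra hcon
    push Not at hcon
    exact hz ⟨1, by rw [one_smul]; exact hcon⟩
  have hbv := bv_nonneg δ
  have key : ∀ τ : SL(2, ℤ), ∫⁻ z in 𝒟ᵒ ∩ (cuspRegion Y)ᶜ, ENNReal.ofReal (φ τ) *
      vv δ (nm m g • z) (τ • nm m' g' • z) ≤
      ENNReal.ofReal (2 * n * bv δ) * (if Sc g g' τ then 1 else 0) +
      ENNReal.ofReal (A * bv δ) * (fun p : ℤ × ℤ × ℤ × ℤ =>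
        if p.2.1 = 0 ∧ p.2.2.1 = 0 ∧ p.1 = p.2.2.2 then 0 else
        (G3.lv N p.1 p.2.1 p.2.2.1 p.2.2.2 : ℝ≥0∞) *
        volume (G5.SS2 (2 * D) (4 * D * δ) Y p.1 p.2.1 p.2.2.1 p.2.2.2))
          (ent4 (eta g g' τ)) := by
    intro τ
    rw [lintegral_const_mul _ (measurable_vv_smul δ _ _ τ)]
    by_cases hs : Sc g g' τ
    · rw [if_pos hs, mul_one]
      refine le_trans ?_ le_self_add
      calc ENNReal.ofReal (φ τ) * ∫⁻ z in 𝒟ᵒ ∩ (cuspRegion Y)ᶜ, vv δ (nm m g • z) (τ • nm m' g' • z)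
          ≤ ENNReal.ofReal n * ∫⁻ z in 𝒟ᵒ ∩ (cuspRegion Y)ᶜ, ENNReal.ofReal (bv δ) :=
            mul_le_mul' (ENNReal.ofReal_le_ofReal (h1 τ)) (lintegral_mono fun z => vv_le _ _)
        _ ≤ ENNReal.ofReal n * (ENNReal.ofReal (bv δ) * ENNReal.ofReal 2) := by
            rw [lintegral_const, Measure.restrict_apply_univ]
            gcongr
        _ = ENNReal.ofReal (2 * n * bv δ) := by
            rw [← ENNReal.ofReal_mul hbv, ← ENNReal.ofReal_mul hn]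
            congr 1
            ring
    · have hs' : ¬ ((ent4 (eta g g' τ)).2.1 = 0 ∧ (ent4 (eta g g' τ)).2.2.1 = 0 ∧
        (ent4 (eta g g' τ)).1 = (ent4 (eta g g' τ)).2.2.2) := hs
      simp only
      rw [if_neg hs, if_neg hs', mul_zero, zero_add]
      obtain ⟨d0, d1, d2, d3⟩ := disp_apply hm hm' hg hg' τ
      obtain ⟨t0, t1, t2, t3⟩ := eta_mod hg hg' τ
      rw [← hD] at d0 d1 d2 d3
      have h3 : ∫⁻ z in 𝒟ᵒ ∩ (cuspRegion Y)ᶜ, vv δ (nm m g • z) (τ • nm m' g' • z) ≤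
          ENNReal.ofReal (bv δ) *
          volume (G5.SS2 (2 * D) (4 * D * δ) Y (eta g g' τ 0 0) (eta g g' τ 0 1)
            (eta g g' τ 1 0) (eta g g' τ 1 1)) := by
        have h4 : ∀ z ∈ (𝒟ᵒ ∩ (cuspRegion Y)ᶜ : Set ℍ), vv δ (nm m g • z) (τ • nm m' g' • z) ≤
            (toMeasurable volume (G5.SS2 (2 * D) (4 * D * δ) Y (eta g g' τ 0 0) (eta g g' τ 0 1)
            (eta g g' τ 1 0) (eta g g' τ 1 1))).indicator (fun _ => ENNReal.ofReal (bv δ)) z := by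
          intro z hz
          by_cases hd : dist (nm m g • z) (τ • nm m' g' • z) ≤ 2 * δ
          · rw [← dist_disp] at hd
            have hmem := G5.mem_SS2 hδ hδ2 d0 d1 d2 d3 hz.1 (him z hz) hd
            rw [Set.indicator_of_mem (subset_toMeasurable _ _ hmem)]
            exact vv_le _ _
          · rw [vv_zero hd]
            exact zero_le
        refine (setLIntegral_mono' hms h4).trans ?_
        refine (setLIntegral_le_lintegral _ _).trans ?_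
        rw [lintegral_indicator (measurableSet_toMeasurable _ _), lintegral_const,
          Measure.restrict_apply_univ, measure_toMeasurable]
      have h6 : ENNReal.ofReal (φ τ) ≤ ENNReal.ofReal A *
          (G3.lv N (eta g g' τ 0 0) (eta g g' τ 0 1) (eta g g' τ 1 0) (eta g g' τ 1 1) : ℝ≥0∞) := by
        rw [← ENNReal.ofReal_natCast, ← ENNReal.ofReal_mul hA]
        apply ENNReal.ofReal_le_ofReal
        refine (h2 τ).trans (mul_le_mul_of_nonneg_left ?_ hA)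
        have := G4.lev_le hN τ t0 t1 t2 t3
        exact_mod_cast this
      calc ENNReal.ofReal (φ τ) * ∫⁻ z in 𝒟ᵒ ∩ (cuspRegion Y)ᶜ, vv δ (nm m g • z) (τ • nm m' g' • z)
          ≤ (ENNReal.ofReal A * (G3.lv N (eta g g' τ 0 0) (eta g g' τ 0 1) (eta g g' τ 1 0)
            (eta g g' τ 1 1) : ℝ≥0∞)) * (ENNReal.ofReal (bv δ) *
              volume (G5.SS2 (2 * D) (4 * D * δ) Y (eta g g' τ 0 0) (eta g g' τ 0 1)
            (eta g g' τ 1 0) (eta g g' τ 1 1))) := mul_le_mul' h6 h3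
        _ = _ := by
            rw [ENNReal.ofReal_mul hA]
            unfold ent4
            ring
  refine (ENNReal.tsum_le_tsum key).trans ?_
  rw [ENNReal.tsum_add, ENNReal.tsum_mul_left, ENNReal.tsum_mul_left]
  refine add_le_add le_rfl ?_
  rw [ENNReal.ofReal_mul (by positivity : 0 ≤ A * bv δ)]
  refine mul_le_mul' le_rfl ?_
  exact (ENNReal.tsum_comp_le_tsum_of_injective (eta_inj hm hm' hg hg')
    (fun p : ℤ × ℤ × ℤ × ℤ => if p.2.1 = 0 ∧ p.2.2.1 = 0 ∧ p.1 = p.2.2.2 then 0 else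
        (G3.lv N p.1 p.2.1 p.2.2.1 p.2.2.2 : ℝ≥0∞) *
        volume (G5.SS2 (2 * D) (4 * D * δ) Y p.1 p.2.1 p.2.2.1 p.2.2.2))).trans
    (G5.geo_sum2 hN hE hε hεE hY)

end H7

end

end Pool.Agent.XE31
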