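import Pool.Agent.XE31.X2

/-!
# The mean value property for arbitrary real eigenvalues
-/

set_option autoImplicit false

open UpperHalfPlane MeasureTheory Metric Set Filter
open scoped MatrixGroups ENNReal Modular Topology NNReal ComplexConjugate

namespace Pool.Agent.XE31

open Pool.Agent.H369R2 Pool.Agent.N799.DT

noncomputable section

namespace X3

open X1 X2

/-- a spectral parameter -/
def sK (κ : ℝ) : ℂ :=
  1 / 2 + (if κ ≤ 1 / 4 then ((√(1 / 4 - κ) : ℝ) : ℂ) else ((√(κ - 1 / 4) : ℝ) : ℂ) * Complex.I)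

lemma sK_eq (κ : ℝ) : sK κ * (1 - sK κ) = (κ : ℂ) := by
  unfold sK
  split_ifs with h
  · have e : ((√(1 / 4 - κ) : ℝ) : ℂ) ^ 2 = ((1 / 4 - κ : ℝ) : ℂ) := by
      rw [← Complex.ofReal_pow, Real.sq_sqrt (by linarith)]
    push_cast at e
    linear_combination -e
  · have e : ((√(κ - 1 / 4) : ℝ) : ℂ) ^ 2 = ((κ - 1 / 4 : ℝ) : ℂ) := by
      rw [← Complex.ofReal_pow, Real.sq_sqrt (by linarith)]
    push_cast at e
    linear_combination e - ((√(κ - 1 / 4) : ℝ) : ℂ) ^ 2 * Complex.I_sq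

lemma sK_norm {κ : ℝ} (h0 : 0 ≤ κ) : ‖sK κ‖ ^ 2 ≤ 1 + κ := by
  rw [← Complex.normSq_eq_norm_sq, Complex.normSq_apply]
  unfold sK
  split_ifs with h
  · have e1 : √(1 / 4 - κ) ^ 2 = 1 / 4 - κ := Real.sq_sqrt (by linarith)
    have e2 : 0 ≤ √(1 / 4 - κ) := Real.sqrt_nonneg _
    have e3 : √(1 / 4 - κ) ≤ 1 / 2 := by
      rw [Real.sqrt_le_left (by norm_num)]; linarith
    simp
    nlinarith
  · have e1 : √(κ - 1 / 4) ^ 2 = κ - 1 / 4 := Real.sq_sqrt (by linarith)
    simp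
    nlinarith

/-- powers of the imaginary part -/
def gS (s : ℂ) (w : ℂ) : ℂ := Complex.exp (s * (Real.log w.im : ℂ))

lemma gS_ne (s w : ℂ) : gS s w ≠ 0 := Complex.exp_ne_zero _

theorem gS_lap {s : ℂ} {κ : ℝ} (hs : s * (1 - s) = (κ : ℂ)) : LapK κ (gS s) where
  smooth := by
    have h1 : ContDiffOn ℝ (⊤ : ℕ∞) (fun w : ℂ => Real.log w.im) {w : ℂ | 0 < w.im} :=
      Complex.imCLM.contDiff.contDiffOn.log fun w hw => (ne_of_gt hw)
    have h2 : ContDiffOn ℝ (⊤ : ℕ∞) (fun w : ℂ => (Real.log w.im : ℂ)) {w : ℂ | 0 < w.im} :=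
      Complex.ofRealCLM.contDiff.comp_contDiffOn h1
    exact (contDiffOn_const.mul h2).cexp
  eq z := by
    have hz := z.im_pos
    have e1 : ∀ t : ℝ, deriv (fun t : ℝ => gS s ((t : ℂ) + (z.im : ℂ) * Complex.I)) t = 0 := by
      intro t
      have : (fun t : ℝ => gS s ((t : ℂ) + (z.im : ℂ) * Complex.I)) =
          fun _ => Complex.exp (s * (Real.log z.im : ℂ)) := by
        funext t
        simp [gS]
      rw [this, deriv_const]
    have e2 : (fun t : ℝ => gS s ((z.re : ℂ) + (t : ℂ) * Complex.I)) =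
        fun t : ℝ => Complex.exp (s * (Real.log t : ℂ)) := by
      funext t
      simp [gS]
    have d1 : ∀ t : ℝ, 0 < t → HasDerivAt (fun t : ℝ => Complex.exp (s * (Real.log t : ℂ)))
        (Complex.exp (s * (Real.log t : ℂ)) * (s * ((t⁻¹ : ℝ) : ℂ))) t := by
      intro t ht
      exact ((Real.hasDerivAt_log ht.ne').ofReal_comp.const_mul s).cexp
    have e3 : ∀ t : ℝ, 0 < t → deriv (fun t : ℝ => Complex.exp (s * (Real.log t : ℂ))) t =
        Complex.exp (s * (Real.log t : ℂ)) * (s * ((t⁻¹ : ℝ) : ℂ)) := fun t ht => (d1 t ht).deriv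
    have e4 : deriv (fun t : ℝ => deriv (fun t : ℝ => Complex.exp (s * (Real.log t : ℂ))) t) z.im =
        Complex.exp (s * (Real.log z.im : ℂ)) * (s * ((z.im⁻¹ : ℝ) : ℂ)) *
          (s * ((z.im⁻¹ : ℝ) : ℂ)) +
        Complex.exp (s * (Real.log z.im : ℂ)) * (s * ((-(z.im ^ 2)⁻¹ : ℝ) : ℂ)) := by
      have h : (fun t : ℝ => deriv (fun t : ℝ => Complex.exp (s * (Real.log t : ℂ))) t) =ᶠ[𝓝 z.im]
          fun t => Complex.exp (s * (Real.log t : ℂ)) * (s * ((t⁻¹ : ℝ) : ℂ)) := by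
        filter_upwards [lt_mem_nhds hz] with t ht using e3 t ht
      rw [h.deriv_eq]
      have d2 : HasDerivAt (fun t : ℝ => s * ((t⁻¹ : ℝ) : ℂ)) (s * ((-(z.im ^ 2)⁻¹ : ℝ) : ℂ)) z.im :=
        ((hasDerivAt_inv hz.ne').ofReal_comp).const_mul s
      exact ((d1 z.im hz).mul d2).deriv
    have e5 : gS s (z : ℂ) = Complex.exp (s * (Real.log z.im : ℂ)) := rfl
    simp only [e1, e2, e4, e5, deriv_const, zero_add]
    have hne : (z.im : ℂ) ≠ 0 := by exact_mod_cast hz.ne'
    rw [← hs]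
    push_cast
    field_simp
    ring

theorem lap_cont {κ : ℝ} {f : ℂ → ℂ} (hf : LapK κ f) : Continuous fun w : ℍ => f w := by
  have h := hf.smooth.continuousOn
  exact h.comp_continuous continuous_coe fun w => w.im_pos

/-- circle means are proportional -/
theorem circleK {κ : ℝ} {f g : ℂ → ℂ} (hf : LapK κ f) (hg : LapK κ g) (z : ℍ) (ζ : ℂ)
    (hζ : ‖ζ‖ < 1) :
    (∫ θ in (0 : ℝ)..(2 * Real.pi), f (dc z (Complex.exp (θ * Complex.I) * ζ))) * g z =
        (∫ θ in (0 : ℝ)..(2 * Real.pi), g (dc z (Complex.exp (θ * Complex.I) * ζ))) * f z := by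
  obtain ⟨G, G₁, hG, hG', hG₁', hGl, hG₁l⟩ := meanK confK κ f hf z
  obtain ⟨K, K₁, hK, hK', hK₁', hKl, hK₁l⟩ := meanK confK κ g hg z
  by_cases h0 : ζ = 0
  · subst h0
    have h1 : dc z 0 = z := by simp [dc]
    simp only [mul_zero, h1, intervalIntegral.integral_const, sub_zero]
    simp only [Complex.real_smul]
    ring
  have hu : Real.log ‖ζ‖ < 0 := Real.log_neg (norm_pos_iff.2 h0) hζ
  rw [CirAux.shift z h0, CirAux.shift z h0, ← hG _ hu, ← hK _ hu]
  have h := uniq (κ := κ) (D := fun u => G u * g z - K u * f z)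
    (D₁ := fun u => G₁ u * g z - K₁ u * f z)
    (fun u hu => ((hG' u hu).mul_const _).sub ((hK' u hu).mul_const _))
    (fun u hu => by
      have := ((hG₁' u hu).mul_const (g z)).sub ((hK₁' u hu).mul_const (f z))
      convert! this using 1
      ring)
    (by
      have := (hGl.mul_const (g z)).sub (hKl.mul_const (f z))
      have e : 2 * (Real.pi : ℂ) * f z * g z - 2 * (Real.pi : ℂ) * g z * f z = 0 := by ring
      rw [e] at this
      exact this)
    (by
      have := (hG₁l.mul_const (g z)).sub (hK₁l.mul_const (f z))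
      simpa using this) _ hu
  exact sub_eq_zero.1 h

/-- integrals over balls are proportional -/
theorem ballK {κ : ℝ} {f g : ℂ → ℂ} (hf : LapK κ f) (hg : LapK κ g) (z : ℍ) (R : ℝ) :
    (∫ w in closedBall z R, f (w : ℍ)) * g z = (∫ w in closedBall z R, g (w : ℍ)) * f z := by
  have hc := fun w : ℍ => circleK hf hg z (zt z w) (norm_zt_lt z w)
  have hrot : ∀ (F : ℂ → ℂ) (w : ℍ), (∫ φ in (0 : ℝ)..(2 * Real.pi),
      F ((rot z (-(φ / 2)) • w : ℍ) : ℂ)) =
      ∫ φ in (0 : ℝ)..(2 * Real.pi), F (dc z (Complex.exp (φ * Complex.I) * zt z w)) := by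
    intro F w
    congr 1
    funext φ
    rw [rot_smul]
    rfl
  have s1 := Mv.swap z R (fun w : ℍ => f w) (lap_cont hf)
  have s2 := Mv.swap z R (fun w : ℍ => g w) (lap_cont hg)
  simp only [hrot] at s1 s2
  have hpi : (2 * Real.pi : ℂ) ≠ 0 := by
    exact_mod_cast (by positivity : (2 * Real.pi : ℝ) ≠ 0)
  have h1 : ((2 * Real.pi : ℂ) * ∫ w in closedBall z R, f (w : ℍ)) * g z =
      ((2 * Real.pi : ℂ) * ∫ w in closedBall z R, g (w : ℍ)) * f z := by
    rw [s1, s2, ← integral_mul_const, ← integral_mul_const]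
    congr 1
    funext w
    exact hc w
  refine mul_left_cancel₀ hpi ?_
  rw [← mul_assoc, ← mul_assoc]
  exact h1

/-- the complex spherical function -/
def AK (κ R : ℝ) : ℂ := ((bv R)⁻¹ : ℝ) * ∫ w in closedBall (I : ℍ) R, gS (sK κ) (w : ℍ)

theorem mvC {κ : ℝ} {f : ℂ → ℂ} (hf : LapK κ f) (z : ℍ) (R : ℝ) :
    Av R (fun w : ℍ => f w) z = AK κ R * f z := by
  have hg : LapK κ (gS (sK κ)) := gS_lap (sK_eq κ)
  have key := ballK hf hg z R
  have hJ : ∫ w in closedBall z R, gS (sK κ) (w : ℍ) =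
      gS (sK κ) z * ∫ w in closedBall (I : ℍ) R, gS (sK κ) (w : ℍ) := by
    rw [Mv.aff_int z R fun w : ℍ => gS (sK κ) w, ← integral_const_mul]
    congr 1
    funext w
    unfold gS
    have h1 : ((aff z • w : ℍ) : ℂ).im = z.im * w.im := im_aff z w
    rw [h1, Real.log_mul z.im_pos.ne' w.im_pos.ne']
    push_cast
    rw [mul_add, Complex.exp_add]
    rfl
  rw [hJ] at key
  have hne := gS_ne (sK κ) z
  have key2 : (∫ w in closedBall z R, f (w : ℍ)) =
      (∫ w in closedBall (I : ℍ) R, gS (sK κ) (w : ℍ)) * f z := by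
    refine mul_right_cancel₀ hne ?_
    rw [key]
    ring
  rw [Av, key2, AK, Complex.real_smul]
  ring

lemma AK_conj (κ R : ℝ) : conj (AK κ R) = AK κ R := by
  have hs : conj (sK κ) * (1 - conj (sK κ)) = (κ : ℂ) := by
    have := congrArg conj (sK_eq κ)
    simpa using this
  have h1 := mvC (gS_lap hs) I R
  have h2 : gS (conj (sK κ)) (I : ℍ) = 1 := by simp [gS]
  rw [h2, mul_one] at h1
  refine Eq.trans ?_ h1
  unfold AK Av
  rw [map_mul, ← integral_conj, Complex.conj_ofReal, Complex.real_smul]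
  congr 2
  funext w
  unfold gS
  rw [← Complex.exp_conj, map_mul, Complex.conj_ofReal]

/-- the spherical function -/
def aK (κ R : ℝ) : ℝ := (AK κ R).re

lemma AK_eq (κ R : ℝ) : AK κ R = (aK κ R : ℂ) := (Complex.conj_eq_iff_re.1 (AK_conj κ R)).symm

/-- the mean value property -/
theorem mvK {κ : ℝ} {f : ℂ → ℂ} (hf : LapK κ f) (z : ℍ) (R : ℝ) :
    Av R (fun w : ℍ => f w) z = (aK κ R : ℂ) * f z := by
  rw [mvC hf, AK_eq]

/-- the lower bound for small radii -/
theorem aK_lower {κ δ : ℝ} (h0 : 0 ≤ κ) (hδ : 0 < δ) (h : δ ^ 2 * (1 + κ) ≤ 1 / 16) :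
    1 / 2 ≤ aK κ δ := by
  have hbv := bv_pos hδ
  have hn : ‖sK κ‖ * δ ≤ 1 / 4 := by
    have h1 := sK_norm h0
    have h2 : (‖sK κ‖ * δ) ^ 2 ≤ (1 / 4) ^ 2 := by
      rw [mul_pow]
      nlinarith [sq_nonneg δ]
    exact (abs_le_of_sq_le_sq h2 (by norm_num)).trans' (le_abs_self _)
  have hcont : Continuous fun w : ℍ => gS (sK κ) (w : ℂ) := lap_cont (gS_lap (sK_eq κ))
  have hint : IntegrableOn (fun w : ℍ => gS (sK κ) (w : ℂ)) (closedBall (I : ℍ) δ) :=
    cont_intOn hcont I δ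
  have hpt : ∀ w ∈ closedBall (I : ℍ) δ, 1 / 2 ≤ (gS (sK κ) (w : ℂ)).re := by
    intro w hw
    rw [mem_closedBall] at hw
    have hlog : |Real.log w.im| ≤ δ := by
      have h1 := im_le_im_mul_exp_dist w I
      have h2 := im_le_im_mul_exp_dist I w
      rw [I_im] at h1 h2
      rw [one_mul] at h1
      rw [dist_comm] at h2
      have hw0 := w.im_pos
      rw [abs_le]
      constructor
      · have h3 := Real.log_le_log one_pos h2
        rw [Real.log_one, Real.log_mul hw0.ne' (Real.exp_pos _).ne', Real.log_exp] at h3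
        linarith
      · have h3 := Real.log_le_log hw0 h1
        rw [Real.log_exp] at h3
        linarith
    have h4 : ‖sK κ * (Real.log w.im : ℂ)‖ ≤ 1 / 4 := by
      rw [norm_mul, Complex.norm_real, Real.norm_eq_abs]
      exact (mul_le_mul_of_nonneg_left hlog (norm_nonneg _)).trans hn
    have h5 := Complex.norm_exp_sub_one_le (x := sK κ * (Real.log w.im : ℂ)) (by linarith)
    have h6 := Complex.abs_re_le_norm (Complex.exp (sK κ * (Real.log w.im : ℂ)) - 1)
    rw [Complex.sub_re, Complex.one_re] at h6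
    have h7 := (abs_le.1 h6).1
    have h8 : (gS (sK κ) (w : ℂ)).re = (Complex.exp (sK κ * (Real.log w.im : ℂ))).re := rfl
    rw [h8]
    linarith
  have h1 : aK κ δ = (bv δ)⁻¹ * ∫ w in closedBall (I : ℍ) δ, (gS (sK κ) (w : ℂ)).re := by
    unfold aK AK
    rw [Complex.re_ofReal_mul]
    congr 1
    have := Complex.reCLM.integral_comp_comm hint
    simpa using this.symm
  rw [h1, inv_mul_eq_div, le_div_iff₀ hbv]
  have h2 : (1 / 2 : ℝ) * bv δ = ∫ _w in closedBall (I : ℍ) δ, (1 / 2 : ℝ) := by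
    rw [setIntegral_const, smul_eq_mul, mul_comm]
    rfl
  rw [h2]
  refine setIntegral_mono_on ?_ ?_ isClosed_closedBall.measurableSet hpt
  · exact integrableOn_const (vol_ball_ne_top δ I)
  · exact Complex.reCLM.integrable_comp hint

end X3

end

end Pool.Agent.XE31
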