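import Pool.Agent.XE31.H7
import Pool.Agent.XE31.X3

/-!
# The inequality for families of Hecke operators
-/

set_option autoImplicit false
set_option linter.all false

open UpperHalfPlane MeasureTheory Metric ModularGroup CongruenceSubgroup
open scoped MatrixGroups ENNReal Modular Topology NNReal

namespace Pool.Agent.XE31

open Pool.Agent.H369R2 Pool.Agent.N799.DT

noncomputable section

namespace H8

open H1 H4 H5 H6 H7 M1 K2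

lemma cosh_ge (δ : ℝ) (hδ : 0 ≤ δ) : 1 + δ ^ 2 / 2 ≤ Real.cosh δ := by
  have h1 := Real.cosh_sq (δ / 2)
  have h2 := Real.cosh_two_mul (δ / 2)
  have e : 2 * (δ / 2) = δ := by ring
  rw [e] at h2
  have h3 : δ / 2 ≤ Real.sinh (δ / 2) := Real.self_le_sinh_iff.2 (by positivity)
  nlinarith

/-- the volume of small balls -/
theorem bv_small {δ : ℝ} (hδ : 0 < δ) (hδ2 : δ ≤ 1 / 2) : δ ^ 2 ≤ bv δ := by
  obtain ⟨A, hA⟩ : ∃ A : Set ℍ, A = {z : ℍ | z.re ∈ Set.Icc (-(δ / 2)) (δ / 2) ∧ 1 - δ / 2 < z.im} :=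
    ⟨_, rfl⟩
  obtain ⟨B, hB⟩ : ∃ B : Set ℍ, B = {z : ℍ | z.re ∈ Set.Icc (-(δ / 2)) (δ / 2) ∧ 1 + δ / 2 < z.im} :=
    ⟨_, rfl⟩
  have vA : volume A = ENNReal.ofReal (δ / (1 - δ / 2)) := by
    rw [hA, G5.vol_strip2 (by linarith) (by linarith)]
    congr 2
    ring
  have vB : volume B = ENNReal.ofReal (δ / (1 + δ / 2)) := by
    rw [hB, G5.vol_strip2 (by linarith) (by linarith)]
    congr 2
    ring
  have hsub : A ⊆ closedBall (I : ℍ) δ ∪ B := by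
    intro z hz
    rw [hA] at hz
    obtain ⟨⟨h1, h2⟩, h3⟩ := hz
    by_cases h4 : 1 + δ / 2 < z.im
    · right
      rw [hB]
      exact ⟨⟨h1, h2⟩, h4⟩
    · left
      push Not at h4
      rw [mem_ball hδ.le, I_re, I_im]
      have hc := cosh_ge δ hδ.le
      have e1 : z.re ^ 2 ≤ (δ / 2) ^ 2 := by
        rw [← sq_abs]
        exact pow_le_pow_left₀ (abs_nonneg _) (abs_le.2 ⟨h1, h2⟩) 2
      have e2 : (z.im - 1) ^ 2 ≤ (δ / 2) ^ 2 := by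
        rw [← sq_abs]
        exact pow_le_pow_left₀ (abs_nonneg _) (abs_le.2 ⟨by linarith, by linarith⟩) 2
      have e3 : 1 / 2 ≤ z.im := by linarith
      have e4 : 2 * z.im * (1 + δ ^ 2 / 2) ≤ 2 * z.im * Real.cosh δ :=
        mul_le_mul_of_nonneg_left hc (by linarith)
      have e5 : 1 / 2 * δ ^ 2 ≤ z.im * δ ^ 2 := mul_le_mul_of_nonneg_right e3 (sq_nonneg _)
      nlinarith
  have h1 := (measure_mono (μ := (volume : Measure ℍ)) hsub).trans (measure_union_le _ _)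
  rw [vA, vB, vol_eq, ← ENNReal.ofReal_add (bv_nonneg δ) (by positivity)] at h1
  rw [ENNReal.ofReal_le_ofReal_iff (by have := bv_nonneg δ; positivity)] at h1
  have h2 : δ / (1 - δ / 2) - δ / (1 + δ / 2) = δ ^ 2 / (1 - δ ^ 2 / 4) := by
    have a1 : (1 - δ / 2) ≠ 0 := by linarith
    have a2 : (1 + δ / 2) ≠ 0 := by linarith
    have a3 : (1 - δ ^ 2 / 4) ≠ 0 := by nlinarith
    rw [div_sub_div _ _ a1 a2, div_eq_div_iff (mul_ne_zero a1 a2) a3]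
    ring
  have h3 : δ ^ 2 ≤ δ ^ 2 / (1 - δ ^ 2 / 4) := by
    rw [le_div_iff₀ (by nlinarith)]
    nlinarith [sq_nonneg δ]
  linarith

/-- the index type of a family of Hecke operators -/
abbrev IX (Ms : Finset ℕ) (S : ℕ → Finset MZ) : Type := Σ m : Ms, S m

/-- the coefficients -/
def cc (Ms : Finset ℕ) (S : ℕ → Finset MZ) : IX Ms S → ℝ := fun i => 1 / (i.1 : ℕ)

/-- the isometries -/
def hh (Ms : Finset ℕ) (S : ℕ → Finset MZ) : IX Ms S → SL(2, ℝ) := fun i => nm i.1 i.2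

lemma cc_nonneg (Ms : Finset ℕ) (S : ℕ → Finset MZ) (i : IX Ms S) : 0 ≤ cc Ms S i := by
  unfold cc
  positivity

theorem HP_IX {N : ℕ} {Ms : Finset ℕ} {S : ℕ → Finset MZ} (hM : ∀ m ∈ Ms, 0 < m)
    (hS : ∀ m ∈ Ms, Reps N m (S m)) : HP N (cc Ms S) (hh Ms S) := by
  intro σ
  have h1 : ∀ m : Ms, ∃ (π : Equiv.Perm (S m)) (γ : S m → SL(2, ℤ)), (∀ i, γ i ∈ Gamma N) ∧
      ∀ i : S m, (i : MZ) * (σ : MZ) = (σ : MZ) * (γ i : MZ) * (π i : MZ) :=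
    fun m => perm (hS m m.2) σ
  choose π γ hγ hπ using h1
  refine ⟨Equiv.sigmaCongrRight π, fun i => γ i.1 i.2, fun i => hγ i.1 i.2, fun i => rfl,
    fun i => ?_⟩
  exact nm_compat (hM i.1 i.1.2) ((hS i.1 i.1.2).mem _ i.2.2)
    ((hS i.1 i.1.2).mem _ (π i.1 i.2).2) (hπ i.1 i.2)

lemma sum_IX {Ms : Finset ℕ} {S : ℕ → Finset MZ} {E : Type} [AddCommMonoid E]
    (F : ℕ → MZ → E) :
    ∑ i : IX Ms S, F i.1 i.2 = ∑ m ∈ Ms, ∑ g ∈ S m, F m g := by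
  rw [Fintype.sum_sigma, ← Finset.sum_coe_sort Ms]
  refine Finset.sum_congr rfl fun m _ => ?_
  rw [← Finset.sum_coe_sort (S m)]

/-- the inequality, geometric side -/
theorem geo {N : ℕ} (hN : 0 < N) {Ms : Finset ℕ} {S : ℕ → Finset MZ} (hM : ∀ m ∈ Ms, 0 < m)
    (hMc : ∀ m ∈ Ms, Nat.Coprime m N) (hS : ∀ m ∈ Ms, Reps N m (S m))
    {n δ Y A : ℝ} (hn : 0 ≤ n) (hδ : 0 < δ) (hδ2 : δ ≤ 1 / 2)
    (hY : 1 ≤ Y) (hA : 0 ≤ A) (φ : SL(2, ℤ) → ℝ) (h1 : ∀ τ, φ τ ≤ n)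
    (h2 : ∀ τ, φ τ ≤ A * (lev N (red N τ) : ℝ)) :
    ∫⁻ z in 𝒟ᵒ ∩ (cuspRegion Y)ᶜ, ∑' τ : SL(2, ℤ), ENNReal.ofReal (φ τ) *
      qq (cc Ms S) (hh Ms S) δ τ z ≤
    ∑ m ∈ Ms, ∑ m' ∈ Ms, (ENNReal.ofReal (1 / (m : ℝ)) * (ENNReal.ofReal (1 / (m' : ℝ)) *
      (ENNReal.ofReal (2 * n * bv δ) * (2 * ((∑ e ∈ ((Nat.gcd m m') ^ 2).divisors, e : ℕ) : ℝ≥0∞)) +
      (((S m).card : ℝ≥0∞) * ((S m').card : ℝ≥0∞)) *
        ENNReal.ofReal (A * bv δ * ((4 * ((m : ℝ) * m') * δ) * (10560 * (2 * ((m : ℝ) * m')) ^ 6 *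
        (N.divisors.card * (1 + Real.log (2 * (2 * ((m : ℝ) * m')) * Y))))))))) := by
  classical
  have e1 : ∀ z : ℍ, ∑' τ : SL(2, ℤ), ENNReal.ofReal (φ τ) * qq (cc Ms S) (hh Ms S) δ τ z =
      ∑ i, ∑ j, ENNReal.ofReal (cc Ms S i) * (ENNReal.ofReal (cc Ms S j) *
        ∑' τ : SL(2, ℤ), ENNReal.ofReal (φ τ) * vv δ (hh Ms S i • z) (τ • hh Ms S j • z)) := by
    intro z
    unfold qq
    have e2 : ∀ τ : SL(2, ℤ), ENNReal.ofReal (φ τ) * ∑ i, ∑ j, ENNReal.ofReal (cc Ms S i) *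
        (ENNReal.ofReal (cc Ms S j) * vv δ (hh Ms S i • z) (τ • hh Ms S j • z)) =
        ∑ i, ∑ j, ENNReal.ofReal (cc Ms S i) * (ENNReal.ofReal (cc Ms S j) *
        (ENNReal.ofReal (φ τ) * vv δ (hh Ms S i • z) (τ • hh Ms S j • z))) := by
      intro τ
      rw [Finset.mul_sum]
      refine Finset.sum_congr rfl fun i _ => ?_
      rw [Finset.mul_sum]
      refine Finset.sum_congr rfl fun j _ => ?_
      ring
    rw [tsum_congr e2, Summable.tsum_finsetSum fun _ _ => ENNReal.summable]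
    refine Finset.sum_congr rfl fun i _ => ?_
    rw [Summable.tsum_finsetSum fun _ _ => ENNReal.summable]
    refine Finset.sum_congr rfl fun j _ => ?_
    rw [ENNReal.tsum_mul_left, ENNReal.tsum_mul_left]
  have hmeas : ∀ i j : IX Ms S, Measurable fun z : ℍ =>
      ∑' τ : SL(2, ℤ), ENNReal.ofReal (φ τ) * vv δ (hh Ms S i • z) (τ • hh Ms S j • z) :=
    fun i j => Measurable.ennreal_tsum fun τ => (measurable_vv_smul δ _ _ τ).const_mul _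
  rw [lintegral_congr e1, lintegral_finsetSum _ fun i _ => Finset.measurable_fun_sum _ fun j _ =>
    ((hmeas i j).const_mul _).const_mul _]
  have e3 : ∀ i : IX Ms S, ∫⁻ z in 𝒟ᵒ ∩ (cuspRegion Y)ᶜ, ∑ j : IX Ms S,
      ENNReal.ofReal (cc Ms S i) * (ENNReal.ofReal (cc Ms S j) *
        ∑' τ : SL(2, ℤ), ENNReal.ofReal (φ τ) * vv δ (hh Ms S i • z) (τ • hh Ms S j • z)) ≤
      ∑ j : IX Ms S, ENNReal.ofReal (1 / ((i.1 : ℕ) : ℝ)) * (ENNReal.ofReal (1 / ((j.1 : ℕ) : ℝ)) *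
        (ENNReal.ofReal (2 * n * bv δ) * (∑' τ : SL(2, ℤ),
          (if Sc (i.2 : MZ) (j.2 : MZ) τ then 1 else 0)) +
      ENNReal.ofReal (A * bv δ * ((4 * (((i.1 : ℕ) : ℝ) * (j.1 : ℕ)) * δ) *
        (10560 * (2 * (((i.1 : ℕ) : ℝ) * (j.1 : ℕ))) ^ 6 *
        (N.divisors.card * (1 + Real.log (2 * (2 * (((i.1 : ℕ) : ℝ) * (j.1 : ℕ))) * Y)))))))) := by
    intro i
    rw [lintegral_finsetSum _ fun j _ => ((hmeas i j).const_mul _).const_mul _]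
    refine Finset.sum_le_sum fun j _ => ?_
    rw [lintegral_const_mul _ ((hmeas i j).const_mul _), lintegral_const_mul _ (hmeas i j)]
    refine mul_le_mul' le_rfl (mul_le_mul' le_rfl ?_)
    exact pair hN (hM _ i.1.2) (hM _ j.1.2) ((hS _ i.1.2).mem _ i.2.2) ((hS _ j.1.2).mem _ j.2.2)
      hn hδ hδ2 hY hA φ h1 h2
  refine (Finset.sum_le_sum fun i _ => e3 i).trans ?_
  obtain ⟨G, hG⟩ : ∃ G : ℕ → ℕ → ℝ≥0∞, G = fun m m' : ℕ => ENNReal.ofReal (A * bv δ *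
    ((4 * ((m : ℝ) * m') * δ) * (10560 * (2 * ((m : ℝ) * m')) ^ 6 *
        (N.divisors.card * (1 + Real.log (2 * (2 * ((m : ℝ) * m')) * Y)))))) := ⟨_, rfl⟩
  have e4 : ∀ i : IX Ms S, ∑ j : IX Ms S, ENNReal.ofReal (1 / ((i.1 : ℕ) : ℝ)) *
      (ENNReal.ofReal (1 / ((j.1 : ℕ) : ℝ)) *
        (ENNReal.ofReal (2 * n * bv δ) * (∑' τ : SL(2, ℤ),
          (if Sc (i.2 : MZ) (j.2 : MZ) τ then 1 else 0)) + G i.1 j.1)) =
      ∑ m' ∈ Ms, ∑ g' ∈ S m', ENNReal.ofReal (1 / ((i.1 : ℕ) : ℝ)) *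
      (ENNReal.ofReal (1 / (m' : ℝ)) *
        (ENNReal.ofReal (2 * n * bv δ) * (∑' τ : SL(2, ℤ),
          (if Sc (i.2 : MZ) g' τ then 1 else 0)) + G i.1 m')) := fun i =>
    sum_IX (fun m' g' => ENNReal.ofReal (1 / ((i.1 : ℕ) : ℝ)) *
      (ENNReal.ofReal (1 / (m' : ℝ)) *
        (ENNReal.ofReal (2 * n * bv δ) * (∑' τ : SL(2, ℤ),
          (if Sc (i.2 : MZ) g' τ then 1 else 0)) + G i.1 m')))
  have e5 : ∑ i : IX Ms S, ∑ m' ∈ Ms, ∑ g' ∈ S m', ENNReal.ofReal (1 / ((i.1 : ℕ) : ℝ)) *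
      (ENNReal.ofReal (1 / (m' : ℝ)) *
        (ENNReal.ofReal (2 * n * bv δ) * (∑' τ : SL(2, ℤ),
          (if Sc (i.2 : MZ) g' τ then 1 else 0)) + G i.1 m')) =
      ∑ m ∈ Ms, ∑ g ∈ S m, ∑ m' ∈ Ms, ∑ g' ∈ S m', ENNReal.ofReal (1 / (m : ℝ)) *
      (ENNReal.ofReal (1 / (m' : ℝ)) *
        (ENNReal.ofReal (2 * n * bv δ) * (∑' τ : SL(2, ℤ),
          (if Sc g g' τ then 1 else 0)) + G m m')) :=
    sum_IX (fun m g => ∑ m' ∈ Ms, ∑ g' ∈ S m', ENNReal.ofReal (1 / (m : ℝ)) *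
      (ENNReal.ofReal (1 / (m' : ℝ)) *
        (ENNReal.ofReal (2 * n * bv δ) * (∑' τ : SL(2, ℤ),
          (if Sc g g' τ then 1 else 0)) + G m m')))
  have e6 : ∑ m ∈ Ms, ∑ g ∈ S m, ∑ m' ∈ Ms, ∑ g' ∈ S m', ENNReal.ofReal (1 / (m : ℝ)) *
      (ENNReal.ofReal (1 / (m' : ℝ)) *
        (ENNReal.ofReal (2 * n * bv δ) * (∑' τ : SL(2, ℤ),
          (if Sc g g' τ then 1 else 0)) + G m m')) ≤
      ∑ m ∈ Ms, ∑ m' ∈ Ms, (ENNReal.ofReal (1 / (m : ℝ)) * (ENNReal.ofReal (1 / (m' : ℝ)) *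
      (ENNReal.ofReal (2 * n * bv δ) * (2 * ((∑ e ∈ ((Nat.gcd m m') ^ 2).divisors, e : ℕ) : ℝ≥0∞)) +
      (((S m).card : ℝ≥0∞) * ((S m').card : ℝ≥0∞)) * G m m'))) := by
    refine Finset.sum_le_sum fun m hm => ?_
    rw [Finset.sum_comm]
    refine Finset.sum_le_sum fun m' hm' => ?_
    have e7 : ∑ g ∈ S m, ∑ g' ∈ S m', ENNReal.ofReal (1 / (m : ℝ)) *
      (ENNReal.ofReal (1 / (m' : ℝ)) *
        (ENNReal.ofReal (2 * n * bv δ) * (∑' τ : SL(2, ℤ),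
          (if Sc g g' τ then 1 else 0)) + G m m')) =
        ENNReal.ofReal (1 / (m : ℝ)) * (ENNReal.ofReal (1 / (m' : ℝ)) *
        (ENNReal.ofReal (2 * n * bv δ) * (∑ g ∈ S m, ∑ g' ∈ S m', ∑' τ : SL(2, ℤ),
          (if Sc g g' τ then (1 : ℝ≥0∞) else 0)) + ((S m).card : ℝ≥0∞) * ((S m').card : ℝ≥0∞) *
            G m m')) := by
      simp only [mul_add, Finset.sum_add_distrib, ← Finset.mul_sum, Finset.sum_const,
        nsmul_eq_mul]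
      ring
    rw [e7]
    refine mul_le_mul' le_rfl (mul_le_mul' le_rfl (add_le_add (mul_le_mul' le_rfl ?_) le_rfl))
    exact scal_count (hM m hm) (hM m' hm') (hMc m hm) (hMc m' hm') (hS m hm) (hS m' hm')
  rw [hG] at e4 e5 e6
  calc _ = _ := Finset.sum_congr rfl fun i _ => e4 i
    _ = _ := e5
    _ ≤ _ := e6

end H8

end

end Pool.Agent.XE31
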