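import Pool.Agent.XE31.H8

/-!
# The inequality for families of Hecke operators, real form
-/

set_option autoImplicit false
set_option linter.all false

open UpperHalfPlane MeasureTheory Metric ModularGroup CongruenceSubgroup
open scoped MatrixGroups ENNReal Modular Topology NNReal

namespace Pool.Agent.XE31

open Pool.Agent.H369R2 Pool.Agent.N799.DT

noncomputable section

namespace H9

open H1 H4 H5 H6 H7 H8 M1 K2 X3

/-- the sum of the divisors of `m ^ 2` -/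
def sg (m : ℕ) : ℕ := ∑ e ∈ (m ^ 2).divisors, e

lemma sg_le {m : ℕ} (hm : 0 < m) : sg m ≤ m ^ 4 := by
  unfold sg
  calc ∑ e ∈ (m ^ 2).divisors, e ≤ ∑ _e ∈ (m ^ 2).divisors, m ^ 2 :=
        Finset.sum_le_sum fun e he => Nat.divisor_le he
    _ = (m ^ 2).divisors.card * m ^ 2 := by rw [Finset.sum_const, smul_eq_mul]
    _ ≤ m ^ 2 * m ^ 2 := Nat.mul_le_mul_right _ (Nat.card_divisors_le_self _)
    _ = m ^ 4 := by ring

/-- the diagonal sum -/
def SG (Ms : Finset ℕ) : ℝ := ∑ m ∈ Ms, ∑ m' ∈ Ms, (sg (Nat.gcd m m') : ℝ) / ((m : ℝ) * m')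

lemma SG_nonneg (Ms : Finset ℕ) : 0 ≤ SG Ms := by
  unfold SG
  exact Finset.sum_nonneg fun m _ => Finset.sum_nonneg fun m' _ => by positivity

lemma card_le {Ms : Finset ℕ} {M : ℝ} (hM0 : 0 ≤ M) (hM : ∀ m ∈ Ms, 0 < m)
    (hMM : ∀ m ∈ Ms, (m : ℝ) ≤ M) : (Ms.card : ℝ) ≤ M := by
  have h1 : Ms ⊆ Finset.Icc 1 ⌊M⌋₊ := by
    intro m hm
    rw [Finset.mem_Icc]
    exact ⟨hM m hm, Nat.le_floor (hMM m hm)⟩
  have h2 := Finset.card_le_card h1
  rw [Nat.card_Icc] at h2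
  have h3 : Ms.card ≤ ⌊M⌋₊ := by omega
  calc (Ms.card : ℝ) ≤ (⌊M⌋₊ : ℝ) := by exact_mod_cast h3
    _ ≤ M := Nat.floor_le hM0

/-- the geometric side, real form -/
theorem geoR {N : ℕ} (hN : 0 < N) {Ms : Finset ℕ} {S : ℕ → Finset MZ} (hM : ∀ m ∈ Ms, 0 < m)
    (hMc : ∀ m ∈ Ms, Nat.Coprime m N) (hS : ∀ m ∈ Ms, Reps N m (S m))
    {n δ Y A M : ℝ} (hn : 0 ≤ n) (hδ : 0 < δ) (hδ2 : δ ≤ 1 / 2)
    (hY : 1 ≤ Y) (hA : 0 ≤ A) (hM1 : 1 ≤ M) (hMM : ∀ m ∈ Ms, (m : ℝ) ≤ M)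
    (φ : SL(2, ℤ) → ℝ) (h1 : ∀ τ, φ τ ≤ n)
    (h2 : ∀ τ, φ τ ≤ A * (lev N (red N τ) : ℝ)) :
    ∫⁻ z in 𝒟ᵒ ∩ (cuspRegion Y)ᶜ, ∑' τ : SL(2, ℤ), ENNReal.ofReal (φ τ) *
      qq (cc Ms S) (hh Ms S) δ τ z ≤
    ENNReal.ofReal (bv δ * (4 * n * SG Ms + A * (2703360 * δ * M ^ 22 *
      (N.divisors.card * (1 + Real.log (4 * M ^ 2 * Y)))))) := by
  refine (geo hN hM hMc hS hn hδ hδ2 hY hA φ h1 h2).trans ?_
  have hbv := bv_nonneg δ
  have hM0 : 0 < M := by linarith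
  obtain ⟨L, hL⟩ : ∃ L : ℝ, L = N.divisors.card * (1 + Real.log (4 * M ^ 2 * Y)) := ⟨_, rfl⟩
  have hL0 : 0 ≤ L := by
    rw [hL]
    have : 0 ≤ Real.log (4 * M ^ 2 * Y) := Real.log_nonneg (by nlinarith)
    positivity
  rw [← hL]
  have key : ∀ m ∈ Ms, ∀ m' ∈ Ms,
      (ENNReal.ofReal (1 / (m : ℝ)) * (ENNReal.ofReal (1 / (m' : ℝ)) *
      (ENNReal.ofReal (2 * n * bv δ) * (2 * ((∑ e ∈ ((Nat.gcd m m') ^ 2).divisors, e : ℕ) : ℝ≥0∞)) +
      (((S m).card : ℝ≥0∞) * ((S m').card : ℝ≥0∞)) *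
        ENNReal.ofReal (A * bv δ * ((4 * ((m : ℝ) * m') * δ) * (10560 * (2 * ((m : ℝ) * m')) ^ 6 *
        (N.divisors.card * (1 + Real.log (2 * (2 * ((m : ℝ) * m')) * Y))))))))) ≤
      ENNReal.ofReal (bv δ * (4 * n * ((sg (Nat.gcd m m') : ℝ) / ((m : ℝ) * m'))) +
        A * bv δ * (2703360 * δ * M ^ 20 * L)) := by
    intro m hm m' hm'
    have a1 : (1 : ℝ) ≤ m := by exact_mod_cast hM m hm
    have a2 : (1 : ℝ) ≤ m' := by exact_mod_cast hM m' hm'
    have a0 : (0 : ℝ) < m := by linarith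
    have a0' : (0 : ℝ) < m' := by linarith
    have b1 := hMM m hm
    have b2 := hMM m' hm'
    have c1 : ((S m).card : ℝ) ≤ (m : ℝ) ^ 4 := by
      have := (Reps_card (hM m hm) (hMc m hm) (hS m hm)).trans (sg_le (hM m hm))
      exact_mod_cast this
    have c2 : ((S m').card : ℝ) ≤ (m' : ℝ) ^ 4 := by
      have := (Reps_card (hM m' hm') (hMc m' hm') (hS m' hm')).trans (sg_le (hM m' hm'))
      exact_mod_cast this
    have d0 : 1 ≤ (m : ℝ) * m' := one_le_mul_of_one_le_of_one_le a1 a2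
    have d1 : (m : ℝ) * m' ≤ M ^ 2 := by
      rw [sq]; exact mul_le_mul b1 b2 a0'.le hM0.le
    have d2 : (N.divisors.card * (1 + Real.log (2 * (2 * ((m : ℝ) * m')) * Y))) ≤ L := by
      rw [hL]
      have : Real.log (2 * (2 * ((m : ℝ) * m')) * Y) ≤ Real.log (4 * M ^ 2 * Y) := by
        apply Real.log_le_log (by positivity)
        have : 2 * (2 * ((m : ℝ) * m')) ≤ 4 * M ^ 2 := by linarith
        exact mul_le_mul_of_nonneg_right this (by linarith)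
      gcongr
    have d3 : 0 ≤ Real.log (2 * (2 * ((m : ℝ) * m')) * Y) := Real.log_nonneg (by nlinarith)
    have e0 : ((∑ e ∈ ((Nat.gcd m m') ^ 2).divisors, e : ℕ) : ℝ≥0∞) =
        ENNReal.ofReal (sg (Nat.gcd m m') : ℝ) := by
      rw [ENNReal.ofReal_natCast]
      rfl
    have e2 : (2 : ℝ≥0∞) = ENNReal.ofReal 2 := by simp
    rw [e0, ← ENNReal.ofReal_natCast, ← ENNReal.ofReal_natCast, e2,
      ← ENNReal.ofReal_mul (by positivity), ← ENNReal.ofReal_mul (by positivity),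
      ← ENNReal.ofReal_mul (by positivity), ← ENNReal.ofReal_mul (by positivity),
      ← ENNReal.ofReal_add (by positivity) (by positivity), ← ENNReal.ofReal_mul (by positivity),
      ← ENNReal.ofReal_mul (by positivity)]
    apply ENNReal.ofReal_le_ofReal
    rw [mul_add, mul_add]
    refine add_le_add (le_of_eq ?_) ?_
    · field_simp
      ring
    · calc 1 / (m : ℝ) * (1 / (m' : ℝ) * (((S m).card : ℝ) * ((S m').card : ℝ) *
            (A * bv δ * ((4 * ((m : ℝ) * m') * δ) * (10560 * (2 * ((m : ℝ) * m')) ^ 6 *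
        (N.divisors.card * (1 + Real.log (2 * (2 * ((m : ℝ) * m')) * Y))))))))
          ≤ 1 / (m : ℝ) * (1 / (m' : ℝ) * ((m : ℝ) ^ 4 * (m' : ℝ) ^ 4 *
            (A * bv δ * ((4 * ((m : ℝ) * m') * δ) * (10560 * (2 * ((m : ℝ) * m')) ^ 6 * L))))) := by
            gcongr
        _ = A * bv δ * (2703360 * δ * ((m : ℝ) * m') ^ 10 * L) := by
            field_simp
            ring
        _ ≤ A * bv δ * (2703360 * δ * (M ^ 2) ^ 10 * L) := by gcongr
        _ = A * bv δ * (2703360 * δ * M ^ 20 * L) := by ring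
  refine (Finset.sum_le_sum fun m hm => Finset.sum_le_sum fun m' hm' => key m hm m' hm').trans ?_
  have hpos : ∀ m m' : ℕ, 0 ≤ bv δ * (4 * n * ((sg (Nat.gcd m m') : ℝ) / ((m : ℝ) * m'))) +
        A * bv δ * (2703360 * δ * M ^ 20 * L) := fun m m' => by positivity
  have e1 : ∀ m ∈ Ms, ∑ m' ∈ Ms, ENNReal.ofReal (bv δ * (4 * n * ((sg (Nat.gcd m m') : ℝ) /
      ((m : ℝ) * m'))) + A * bv δ * (2703360 * δ * M ^ 20 * L)) =
      ENNReal.ofReal (∑ m' ∈ Ms, (bv δ * (4 * n * ((sg (Nat.gcd m m') : ℝ) /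
      ((m : ℝ) * m'))) + A * bv δ * (2703360 * δ * M ^ 20 * L))) := fun m _ =>
    (ENNReal.ofReal_sum_of_nonneg fun m' _ => hpos m m').symm
  rw [Finset.sum_congr rfl e1, ← ENNReal.ofReal_sum_of_nonneg fun m _ =>
    Finset.sum_nonneg fun m' _ => hpos m m']
  apply ENNReal.ofReal_le_ofReal
  have hcard := card_le hM0.le hM hMM
  calc ∑ m ∈ Ms, ∑ m' ∈ Ms, (bv δ * (4 * n * ((sg (Nat.gcd m m') : ℝ) /
      ((m : ℝ) * m'))) + A * bv δ * (2703360 * δ * M ^ 20 * L))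
      = bv δ * (4 * n * SG Ms) + (Ms.card : ℝ) * ((Ms.card : ℝ) *
        (A * bv δ * (2703360 * δ * M ^ 20 * L))) := by
        unfold SG
        simp only [Finset.sum_add_distrib, ← Finset.mul_sum, Finset.sum_const, nsmul_eq_mul]
        ring
    _ ≤ bv δ * (4 * n * SG Ms) + M * (M * (A * bv δ * (2703360 * δ * M ^ 20 * L))) := by
        gcongr
    _ = _ := by ring

/-- the error term -/
theorem err : ∃ C : ℝ, 0 < C ∧ ∀ (N : ℕ) (n T : ℝ), 1 ≤ N → 1 ≤ T → 1 ≤ n → n ≤ (N : ℝ) ^ 3 →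
    (N : ℝ) ^ (-(1 / 10) : ℝ) * ((1 / (8 * T)) * (((n * T) ^ (1 / 1000 : ℝ)) ^ 22 *
      (N.divisors.card * (1 + Real.log (4 * ((n * T) ^ (1 / 1000 : ℝ)) ^ 2 *
        (256 * N * T ^ 2)))))) ≤ C := by
  obtain ⟨C, hC, hdiv⟩ := Pool.Agent.H369R2.divisor_bound (1 / 80) (by norm_num)
  refine ⟨C * 100, by positivity, fun N n T hN hT hn hnN => ?_⟩
  have hN1 : (1 : ℝ) ≤ N := by exact_mod_cast hN
  have hN0 : (0 : ℝ) < N := by linarith
  have hT0 : 0 < T := by linarith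
  have h1 := hdiv N hN
  obtain ⟨x, hx⟩ : ∃ x, x = (N : ℝ) ^ (1 / 80 : ℝ) := ⟨_, rfl⟩
  rw [← hx] at h1
  have hx1 : 1 ≤ x := by rw [hx]; exact Real.one_le_rpow hN1 (by norm_num)
  obtain ⟨M, hM⟩ : ∃ M, M = (n * T) ^ (1 / 1000 : ℝ) := ⟨_, rfl⟩
  rw [← hM]
  have hnT : 1 ≤ n * T := one_le_mul_of_one_le_of_one_le hn hT
  have hM1 : 1 ≤ M := by rw [hM]; exact Real.one_le_rpow hnT (by norm_num)
  obtain ⟨s, hs⟩ : ∃ s, s = T ^ (1 / 2 : ℝ) := ⟨_, rfl⟩
  have hs1 : 1 ≤ s := by rw [hs]; exact Real.one_le_rpow hT (by norm_num)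
  have h2 : 1 + Real.log (4 * M ^ 2 * (256 * N * T ^ 2)) ≤ 100 * (M * x * s) := by
    have e1 : Real.log (4 * M ^ 2 * (256 * N * T ^ 2)) =
        Real.log 1024 + 2 * Real.log M + Real.log N + 2 * Real.log T := by
      rw [show 4 * M ^ 2 * (256 * (N : ℝ) * T ^ 2) = 1024 * M ^ 2 * N * T ^ 2 by ring,
        Real.log_mul (by positivity) (by positivity), Real.log_mul (by positivity) (by positivity),
        Real.log_mul (by norm_num) (by positivity), Real.log_pow, Real.log_pow]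
      push_cast
      ring
    have e2 : Real.log 1024 ≤ 7 := by
      have h3 : (1024 : ℝ) ≤ Real.exp 1 ^ 7 := by
        have h4 := Real.exp_one_gt_d9
        have h5 : (2.7182818283 : ℝ) ^ 7 ≤ Real.exp 1 ^ 7 :=
          pow_le_pow_left₀ (by norm_num) h4.le 7
        refine le_trans ?_ h5
        norm_num
      have h6 := Real.log_le_log (by norm_num) h3
      rw [Real.log_pow, Real.log_exp] at h6
      norm_num at h6
      exact h6
    have e3 : Real.log N ≤ 80 * x := by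
      have := Real.log_le_rpow_div hN0.le (ε := 1 / 80) (by norm_num)
      rw [hx]
      linarith
    have e4 : Real.log M ≤ M := (Real.log_le_sub_one_of_pos (by linarith)).trans (by linarith)
    have e5 : Real.log T ≤ 2 * s := by
      have := Real.log_le_rpow_div hT0.le (ε := 1 / 2) (by norm_num)
      rw [hs]
      linarith
    have f0 : 1 ≤ M * x := one_le_mul_of_one_le_of_one_le hM1 hx1
    have f1 : 1 ≤ M * x * s := one_le_mul_of_one_le_of_one_le f0 hs1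
    have f2 : M ≤ M * x * s := by
      rw [mul_assoc]
      exact le_mul_of_one_le_right (by linarith) (one_le_mul_of_one_le_of_one_le hx1 hs1)
    have f3 : x ≤ M * x * s := by
      have : x ≤ x * (M * s) :=
        le_mul_of_one_le_right (by linarith) (one_le_mul_of_one_le_of_one_le hM1 hs1)
      linarith [show x * (M * s) = M * x * s by ring]
    have f4 : s ≤ M * x * s := le_mul_of_one_le_left (by linarith) f0
    rw [e1]
    linarith
  have hlog : 0 ≤ 1 + Real.log (4 * M ^ 2 * (256 * N * T ^ 2)) := by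
    have : 0 ≤ Real.log (4 * M ^ 2 * (256 * N * T ^ 2)) := by
      apply Real.log_nonneg
      have g1 : 1 ≤ M ^ 2 := one_le_pow₀ hM1
      have g2 : 1 ≤ T ^ 2 := one_le_pow₀ hT
      have g3 : 1 ≤ 256 * (N : ℝ) * T ^ 2 := by nlinarith
      nlinarith
    linarith
  have h3 : M ^ 23 ≤ (N : ℝ) ^ (3 / 40 : ℝ) * T ^ (1 / 2 : ℝ) := by
    have e1 : M ≤ ((N : ℝ) ^ 3 * T) ^ (1 / 1000 : ℝ) := by
      rw [hM]
      apply Real.rpow_le_rpow (by positivity) _ (by norm_num)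
      gcongr
    have e2 : M ^ 23 ≤ (((N : ℝ) ^ 3 * T) ^ (1 / 1000 : ℝ)) ^ 23 :=
      pow_le_pow_left₀ (by linarith) e1 23
    refine e2.trans ?_
    rw [Real.mul_rpow (by positivity) hT0.le, mul_pow, ← Real.rpow_natCast, ← Real.rpow_natCast,
      ← Real.rpow_natCast, ← Real.rpow_mul (by positivity), ← Real.rpow_mul (by positivity),
      ← Real.rpow_mul (by positivity)]
    apply mul_le_mul
    · apply Real.rpow_le_rpow_of_exponent_le hN1
      norm_num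
    · apply Real.rpow_le_rpow_of_exponent_le hT
      norm_num
    · positivity
    · positivity
  have h4 : (N : ℝ) ^ (-(1 / 10) : ℝ) * (x * x) * (N : ℝ) ^ (3 / 40 : ℝ) = 1 := by
    rw [hx, ← Real.rpow_add hN0, ← Real.rpow_add hN0, ← Real.rpow_add hN0]
    norm_num
  have h5 : s * T ^ (1 / 2 : ℝ) = T := by
    rw [hs, ← Real.rpow_add hT0]
    norm_num
  calc (N : ℝ) ^ (-(1 / 10) : ℝ) * ((1 / (8 * T)) * (M ^ 22 *
      (N.divisors.card * (1 + Real.log (4 * M ^ 2 * (256 * N * T ^ 2))))))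
      ≤ (N : ℝ) ^ (-(1 / 10) : ℝ) * ((1 / (8 * T)) * (M ^ 22 *
      ((C * x) * (100 * (M * x * s))))) := by
        gcongr
    _ = C * 100 * ((N : ℝ) ^ (-(1 / 10) : ℝ) * (x * x)) * (s * M ^ 23) * (1 / (8 * T)) := by
        ring
    _ ≤ C * 100 * ((N : ℝ) ^ (-(1 / 10) : ℝ) * (x * x)) *
        (s * ((N : ℝ) ^ (3 / 40 : ℝ) * T ^ (1 / 2 : ℝ))) * (1 / (8 * T)) := by
        gcongr
    _ = C * 100 * ((N : ℝ) ^ (-(1 / 10) : ℝ) * (x * x) * (N : ℝ) ^ (3 / 40 : ℝ)) *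
        (s * T ^ (1 / 2 : ℝ)) * (1 / (8 * T)) := by ring
    _ = C * 100 * (T / (8 * T)) := by rw [h4, h5]; ring
    _ ≤ C * 100 := by
        have : T / (8 * T) = 1 / 8 := by field_simp
        rw [this]
        nlinarith

end H9

end

end Pool.Agent.XE31
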