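import Pool.Agent.N799.DT.Main

/-!
# A general pointwise inequality and the unfolding of the trace
-/

set_option autoImplicit false

open UpperHalfPlane MeasureTheory Metric ModularGroup CongruenceSubgroup
open scoped MatrixGroups ENNReal Modular Topology NNReal ComplexConjugate

namespace Pool.Agent.XE31

open Pool.Agent.H369R2 Pool.Agent.N799.DT

noncomputable section

namespace K1

variable {N : ℕ} {Γ : Subgroup SL(2, ℤ)}

/-- the periodisation -/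
def PG (Γ : Subgroup SL(2, ℤ)) (B : ℍ → ℝ≥0∞) (w : ℍ) : ℝ≥0∞ :=
  ∑' δ : Γ, B ((δ : SL(2, ℤ)) • w)

lemma measurable_PG {B : ℍ → ℝ≥0∞} (hB : Measurable B) : Measurable (PG Γ B) := by
  apply Measurable.tsum
  intro δ
  exact hB.comp (cont_smul_int (δ : SL(2, ℤ))).measurable

lemma PG_inv (B : ℍ → ℝ≥0∞) (γ : Γ) (w : ℍ) : PG Γ B ((γ : SL(2, ℤ)) • w) = PG Γ B w := by
  unfold PG
  rw [← (Equiv.mulRight γ).tsum_eq (fun δ : Γ => B ((δ : SL(2, ℤ)) • w))]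
  congr 1
  ext δ
  simp [mul_smul]

lemma lint_PG_sq [NeZero N] (hN : Gamma N ≤ Γ) {B : ℍ → ℝ≥0∞} (hB : Measurable B) :
    ∫⁻ w, PG Γ B w ^ 2 ∂(nu N) = 2 * ((Gamma N).relIndex Γ : ℝ≥0∞) *
      ∑' δ : Γ, ∫⁻ w, B w * B ((δ : SL(2, ℤ)) • w) := by
  have hm := measurable_PG (Γ := Γ) hB
  have h1 : ∀ w, PG Γ B w ^ 2 =
      ∑' δ : Γ, (fun w => B w * PG Γ B w) ((δ : SL(2, ℤ)) • w) := by
    intro w
    simp only [PG_inv]
    rw [ENNReal.tsum_mul_right, sq]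
    rfl
  rw [lintegral_congr h1,
    Bessel.unfold_rel hN (F := fun w => B w * PG Γ B w) (hB.mul hm)]
  congr 1
  have h2 : ∀ w, B w * PG Γ B w = ∑' δ : Γ, B w * B ((δ : SL(2, ℤ)) • w) := by
    intro w
    unfold PG
    rw [← ENNReal.tsum_mul_left]
  rw [lintegral_congr h2, lintegral_tsum]
  intro δ
  exact (hB.mul (hB.comp (cont_smul_int (δ : SL(2, ℤ))).measurable)).aemeasurable

/-- the general inequality -/
theorem bessel_gen (hN0 : 0 < N) (hN : Gamma N ≤ Γ) {B u : ℍ → ℝ≥0∞} (hB : Measurable B)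
    (hu : Measurable u) (hinv : ∀ γ ∈ Γ, ∀ z : ℍ, u (γ • z) = u z) :
    2 * ((Gamma N).relIndex Γ : ℝ≥0∞) * (∫⁻ w, B w * u w) ^ 2 ≤
      (∑' δ : Γ, ∫⁻ w, B w * B ((δ : SL(2, ℤ)) • w)) * ∫⁻ w, u w ^ 2 ∂(nu N) := by
  have : NeZero N := ⟨hN0.ne'⟩
  set r : ℝ≥0∞ := 2 * ((Gamma N).relIndex Γ : ℝ≥0∞) with hr
  have hr0 : r ≠ 0 := by
    have h : (Gamma N).relIndex Γ ≠ 0 := relIndex_ne hN0 Γ
    rw [hr]
    refine mul_ne_zero two_ne_zero ?_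
    exact_mod_cast h
  have hrt : r ≠ ∞ := ENNReal.mul_ne_top (by norm_num) (ENNReal.natCast_ne_top _)
  have h1 : r * ∫⁻ w, B w * u w = ∫⁻ w, PG Γ B w * u w ∂(nu N) := by
    rw [hr, ← Bessel.unfold_rel hN (F := fun w => B w * u w) (hB.mul hu)]
    apply lintegral_congr
    intro w
    have hi : ∀ δ : Γ, u ((δ : SL(2, ℤ)) • w) = u w := fun δ => hinv δ δ.2 w
    simp only [hi]
    rw [ENNReal.tsum_mul_right]
    rfl
  have h2 := PB.cs (nu N) (measurable_PG (Γ := Γ) hB) hu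
  rw [← h1, lint_PG_sq hN hB] at h2
  have h3 : r * (r * (∫⁻ w, B w * u w) ^ 2) ≤
      r * ((∑' δ : Γ, ∫⁻ w, B w * B ((δ : SL(2, ℤ)) • w)) * ∫⁻ w, u w ^ 2 ∂(nu N)) := by
    calc r * (r * (∫⁻ w, B w * u w) ^ 2) = (r * ∫⁻ w, B w * u w) ^ 2 := by ring
      _ ≤ _ := h2
      _ = _ := by
        rw [← hr]
        ring
  exact (ENNReal.mul_le_mul_iff_right hr0 hrt).1 h3

/-- the sum over `Γ` at a translate -/
theorem conj_sum (Γ : Subgroup SL(2, ℤ)) (σ : SL(2, ℤ)) (q : SL(2, ℤ) → ℝ≥0∞) :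
    ∑' δ : Γ, q (σ⁻¹ * δ * σ) = ∑' δ : SL(2, ℤ), Unf.c Γ σ δ * q δ := by
  classical
  rw [← (MulAut.conj σ⁻¹).toEquiv.tsum_eq (fun δ => Unf.c Γ σ δ * q δ)]
  have h2 : ∀ δ : SL(2, ℤ), Unf.c Γ σ ((MulAut.conj σ⁻¹).toEquiv δ) *
      q ((MulAut.conj σ⁻¹).toEquiv δ) =
      Set.indicator (Γ : Set SL(2, ℤ)) (fun δ => q (σ⁻¹ * δ * σ)) δ := by
    intro δ
    have e : (MulAut.conj σ⁻¹).toEquiv δ = σ⁻¹ * δ * σ := by
      show σ⁻¹ * δ * (σ⁻¹)⁻¹ = _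
      rw [inv_inv]
    rw [e]
    unfold Unf.c
    have e2 : σ * (σ⁻¹ * δ * σ) * σ⁻¹ = δ := by group
    rw [e2]
    by_cases h : δ ∈ Γ
    · rw [if_pos h, Set.indicator_of_mem (show δ ∈ (Γ : Set SL(2, ℤ)) from h), one_mul]
    · rw [if_neg h, Set.indicator_of_notMem (show δ ∉ (Γ : Set SL(2, ℤ)) from h), zero_mul]
  simp only [h2]
  exact tsum_subtype (Γ : Set SL(2, ℤ)) (fun δ => q (σ⁻¹ * δ * σ))

/-- the general unfolding -/
theorem unf_gen (hN : 0 < N) (hΓ : Gamma N ≤ Γ) (P : ℍ → ℝ≥0∞) (q : SL(2, ℤ) → ℍ → ℝ≥0∞)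
    (hq : ∀ τ, Measurable (q τ))
    (hP : ∀ (σ : SL(2, ℤ)) (z : ℍ), P (σ • z) = ∑' δ : Γ, q (σ⁻¹ * δ * σ) z) (Y : ℝ) :
    ∫⁻ z in (cuspRegion Y)ᶜ, P z ∂(nu N) =
      ((Gamma N).relIndex Γ : ℝ≥0∞) * ∫⁻ z in 𝒟ᵒ ∩ (cuspRegion Y)ᶜ,
        ∑' δ : SL(2, ℤ), (fix Γ δ : ℝ≥0∞) * q δ z := by
  have : NeZero N := ⟨hN.ne'⟩
  have : Countable (SL(2, ℤ) ⧸ Gamma N) := Quotient.countable
  have hms : MeasurableSet (cuspRegion Y)ᶜ := (measurableSet_cuspRegion Y).compl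
  rw [← lintegral_indicator hms, NU2.lint_nu]
  have h1 : ∀ g : SL(2, ℤ) ⧸ Gamma N, ∫⁻ z in 𝒟ᵒ, (cuspRegion Y)ᶜ.indicator
      (fun z => P z) (g.out • z) =
      ∫⁻ z in 𝒟ᵒ ∩ (cuspRegion Y)ᶜ, ∑' δ : SL(2, ℤ), Unf.c Γ g.out δ * q δ z := by
    intro g
    have e1 : ∀ z : ℍ, (cuspRegion Y)ᶜ.indicator (fun z => P z) (g.out • z) =
        (cuspRegion Y)ᶜ.indicator
          (fun z => ∑' δ : SL(2, ℤ), Unf.c Γ g.out δ * q δ z) z := by
      intro z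
      by_cases hz : z ∈ (cuspRegion Y)ᶜ
      · have hz' : g.out • z ∈ (cuspRegion Y)ᶜ := fun h => hz ((cuspRegion_smul Y g.out z).1 h)
        rw [Set.indicator_of_mem hz, Set.indicator_of_mem hz', hP,
          conj_sum Γ g.out (fun δ => q δ z)]
      · have hz' : g.out • z ∉ (cuspRegion Y)ᶜ := by
          intro h
          apply hz
          exact fun h2 => h ((cuspRegion_smul Y g.out z).2 h2)
        rw [Set.indicator_of_notMem hz, Set.indicator_of_notMem hz']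
    simp only [e1]
    rw [lintegral_indicator hms, Measure.restrict_restrict hms, Set.inter_comm]
  simp only [h1]
  rw [← lintegral_tsum]
  · have h2 : ∀ z : ℍ, ∑' g : SL(2, ℤ) ⧸ Gamma N, ∑' δ : SL(2, ℤ), Unf.c Γ g.out δ * q δ z =
        ((Gamma N).relIndex Γ : ℝ≥0∞) * ∑' δ : SL(2, ℤ), (fix Γ δ : ℝ≥0∞) * q δ z := by
      intro z
      rw [ENNReal.tsum_comm, ← ENNReal.tsum_mul_left]
      congr 1
      ext δ
      rw [ENNReal.tsum_mul_right, Unf.sum_c N hN Γ hΓ, mul_assoc]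
    simp only [h2]
    rw [lintegral_const_mul]
    exact Measurable.tsum fun δ => (hq δ).const_mul _
  · intro g
    exact (Measurable.tsum fun δ => (hq δ).const_mul _).aemeasurable

end K1

end

end Pool.Agent.XE31
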