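import Pool.Agent.XE31.M2
import Pool.Agent.XE31.G3

/-!
# The mass of cusp forms in the cusps
-/

set_option autoImplicit false

open UpperHalfPlane MeasureTheory Metric ModularGroup CongruenceSubgroup
open scoped MatrixGroups ENNReal Modular Topology NNReal

namespace Pool.Agent.XE31

open Pool.Agent.H369R2 Pool.Agent.N799.DT

noncomputable section

namespace M3

open M1 M2

/-- vanishing of all constant terms -/
def Cusp (N : ℕ) (u : ℍ → ℂ) : Prop :=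
  ∀ (g : SL(2, ℤ)) (y : ℝ), 0 < y → ∫ x in (0 : ℝ)..N, u (g • pt (x, y)) = 0

lemma T_pow_pt (j : ℕ) {x y : ℝ} (hy : 0 < y) : T ^ j • pt (x, y) = pt (x + j, y) := by
  have h1 : (T ^ (j : ℤ) • pt (x, y) : ℍ) = pt (x + j, y) := by
    apply UpperHalfPlane.ext
    apply Complex.ext
    · have := ModularGroup.re_T_zpow_smul (pt (x, y)) (j : ℤ)
      rw [UpperHalfPlane.coe_re, this, UpperHalfPlane.coe_re, pt_re, pt_re]
      simp
    · have := ModularGroup.im_T_zpow_smul (pt (x, y)) (j : ℤ)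
      rw [UpperHalfPlane.coe_im, this, UpperHalfPlane.coe_im, pt_im hy, pt_im hy]
  rw [← h1, zpow_natCast]

/-- the energy of a translate in the unit strip -/
def Gs (u : ℍ → ℂ) (t : ℝ) (h : SL(2, ℤ)) : ℝ≥0∞ :=
  ∫⁻ y in Set.Ioi t, (∫⁻ x in Set.Ioc (-(1 / 2) : ℝ) (-(1 / 2) + 1), ‖u (h • pt (x, y))‖ₑ ^ 2) ∂ny

lemma Es_eq {N : ℕ} {u : ℍ → ℂ} (hu : Continuous u) {t : ℝ} (ht : 0 < t) (g : SL(2, ℤ)) :
    Es (fun w => u (g • w)) (-(1 / 2)) N t = ∑ j ∈ Finset.range N, Gs u t (g * T ^ j) := by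
  unfold Es Gs
  rw [← lintegral_finsetSum]
  · refine setLIntegral_congr_fun measurableSet_Ioi fun y hy => ?_
    have hy0 : 0 < y := ht.trans hy
    simp only
    rw [split]
    refine Finset.sum_congr rfl fun j _ => ?_
    refine lintegral_congr fun x => ?_
    rw [mul_smul, T_pow_pt j hy0]
  · intro j _
    have hm : Measurable fun p : ℝ × ℝ => ‖u ((g * T ^ j) • pt p)‖ₑ ^ 2 :=
      (((hu.comp (cont_smul_int (g * T ^ j))).measurable.comp measurable_pt).enorm.pow_const 2)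
    exact Measurable.lintegral_prod_left' (f := fun p : ℝ × ℝ => ‖u ((g * T ^ j) • pt p)‖ₑ ^ 2) hm

lemma Gs_mul {N : ℕ} {u : ℍ → ℂ} (hi : Inv N u) (t : ℝ) {σ τ : SL(2, ℤ)}
    (h : (QuotientGroup.mk σ : SL(2, ℤ) ⧸ Gamma N) = QuotientGroup.mk τ) : Gs u t σ = Gs u t τ := by
  unfold Gs
  rw [QuotientGroup.eq] at h
  have h1 : τ * σ⁻¹ ∈ Gamma N := by
    have := (Gamma_normal N).conj_mem _ h σ
    simpa using this
  have h2 : ∀ w : ℍ, u (σ • w) = u (τ • w) := by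
    intro w
    rw [← hi _ h1 (σ • w), ← mul_smul, inv_mul_cancel_right]
  simp only [h2]

lemma Gs_sum {N : ℕ} {u : ℍ → ℂ} (hi : Inv N u) (t : ℝ) (τ : SL(2, ℤ)) :
    ∑' g : SL(2, ℤ) ⧸ Gamma N, Gs u t (g.out * τ) = ∑' g : SL(2, ℤ) ⧸ Gamma N, Gs u t g.out := by
  rw [← (Equiv.mulRight (QuotientGroup.mk τ : SL(2, ℤ) ⧸ Gamma N)).tsum_eq
    (fun g => Gs u t (Quotient.out g))]
  refine tsum_congr fun g => ?_
  apply Gs_mul hi
  rw [QuotientGroup.mk_mul, QuotientGroup.out_eq']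
  simp

lemma Gs_le {u : ℍ → ℂ} (hu : Continuous u) {t : ℝ} (ht : 1 ≤ t) (h : SL(2, ℤ)) :
    Gs u t h ≤ ∫⁻ z in 𝒟ᵒ, ‖u (h • z)‖ₑ ^ 2 := by
  have hm0 : Measurable fun z : ℍ => ‖u (h • z)‖ₑ ^ 2 :=
    (hu.comp (cont_smul_int h)).measurable.enorm.pow_const 2
  have hms : MeasurableSet (𝒟ᵒ : Set ℍ) := isOpen_fdo.measurableSet
  rw [← lintegral_indicator hms, lint_pt (hm0.indicator hms)]
  unfold Gs
  rw [← lintegral_indicator measurableSet_Ioi]
  refine lintegral_mono fun y => ?_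
  by_cases hy : y ∈ Set.Ioi t
  · rw [Set.indicator_of_mem hy, ← lintegral_indicator measurableSet_Ioc]
    have hy1 : 1 < y := lt_of_le_of_lt ht hy
    have hy0 : 0 < y := by linarith
    refine lintegral_mono_ae ?_
    have h7 : ∀ᵐ x : ℝ, x ≠ 1 / 2 := by
      rw [ae_iff]; simp
    filter_upwards [h7] with x hx
    by_cases hxI : x ∈ Set.Ioc (-(1 / 2) : ℝ) (-(1 / 2) + 1)
    · rw [Set.indicator_of_mem hxI]
      have hz : pt (x, y) ∈ (𝒟ᵒ : Set ℍ) := by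
        refine ⟨?_, ?_⟩
        · rw [Complex.normSq_apply]
          simp only [UpperHalfPlane.coe_re, UpperHalfPlane.coe_im]
          rw [pt_im hy0]
          simp only
          nlinarith [mul_self_nonneg (pt (x, y)).re]
        · rw [pt_re, abs_lt]
          obtain ⟨a1, a2⟩ := hxI
          constructor
          · exact a1
          · exact lt_of_le_of_ne (by norm_num at a2 ⊢; exact a2) hx
      rw [Set.indicator_of_mem hz]
    · rw [Set.indicator_of_notMem hxI]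
      exact zero_le
  · rw [Set.indicator_of_notMem hy]
    exact zero_le

lemma sum_Es {N : ℕ} {u : ℍ → ℂ} (hu : Continuous u) (hi : Inv N u) {t : ℝ} (ht : 1 ≤ t) :
    ∑' g : SL(2, ℤ) ⧸ Gamma N, Es (fun w => u (g.out • w)) (-(1 / 2)) N t ≤
      N * ∫⁻ z, ‖u z‖ₑ ^ 2 ∂(nu N) := by
  have h0 : 0 < t := by linarith
  calc ∑' g : SL(2, ℤ) ⧸ Gamma N, Es (fun w => u (g.out • w)) (-(1 / 2)) N t
      = ∑' g : SL(2, ℤ) ⧸ Gamma N, ∑ j ∈ Finset.range N, Gs u t (g.out * T ^ j) :=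
        tsum_congr fun g => Es_eq hu h0 g.out
    _ = ∑ j ∈ Finset.range N, ∑' g : SL(2, ℤ) ⧸ Gamma N, Gs u t (g.out * T ^ j) :=
        Summable.tsum_finsetSum fun _ _ => ENNReal.summable
    _ = ∑ j ∈ Finset.range N, ∑' g : SL(2, ℤ) ⧸ Gamma N, Gs u t g.out :=
        Finset.sum_congr rfl fun j _ => Gs_sum hi t (T ^ j)
    _ = N * ∑' g : SL(2, ℤ) ⧸ Gamma N, Gs u t g.out := by
        rw [Finset.sum_const, Finset.card_range, nsmul_eq_mul]
    _ ≤ N * ∫⁻ z, ‖u z‖ₑ ^ 2 ∂(nu N) := by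
        rw [NU2.lint_nu]
        gcongr with g
        exact Gs_le hu ht g.out

lemma per {N : ℕ} {u : ℍ → ℂ} (hi : Inv N u) (g : SL(2, ℤ)) (x y : ℝ) (hy : 0 < y) :
    u (g • pt (x + N, y)) = u (g • pt (x, y)) := by
  rw [← T_pow_pt N hy, ← mul_smul]
  have h1 : g * T ^ N * g⁻¹ ∈ Gamma N := by
    apply (Gamma_normal N).conj_mem
    have := ModularGroup_T_pow_mem_Gamma (N : ℤ) (N : ℤ) dvd_rfl
    rw [Int.natAbs_natCast, zpow_natCast] at this
    exact this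
  have h2 : (g * T ^ N) = (g * T ^ N * g⁻¹) * g := by group
  rw [h2, mul_smul, hi _ h1]

lemma strip {N : ℕ} (hN : 0 < N) {u : ℍ → ℂ} (hu : Continuous u) (hi : Inv N u)
    (hc : Cusp N u) {R : ℝ} (hR : 0 < R) {a : ℂ} (ha : ∀ z, ∫ w in closedBall z R, u w = a * u z)
    {Y : ℝ} (hY0 : 0 < Y) (g : SL(2, ℤ)) : ‖a‖ₑ ^ 2 * ∫⁻ z in 𝒟ᵒ, (cuspRegion Y).indicator
      (fun z => ‖u z‖ₑ ^ 2) (g • z) ≤
      ENNReal.ofReal (N * Real.exp R / Y ^ 2) *
        Es (fun w => u (g • w)) (-(1 / 2)) N (Y * Real.exp (-R)) := by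
  have hNr : (0 : ℝ) < N := by exact_mod_cast hN
  have hms : MeasurableSet (cuspRegion Y) := measurableSet_cuspRegion Y
  have hcg : Continuous fun w => u (g • w) := hu.comp (cont_smul_int g)
  have hm1 : MeasurableSet {z : ℍ | |z.re| < 1 / 2 ∧ Y < z.im} :=
    ((isOpen_lt (continuous_abs.comp continuous_re) continuous_const).inter
      (isOpen_lt continuous_const continuous_im)).measurableSet
  have hmf : Measurable fun z : ℍ => (cuspRegion Y).indicator (fun z => ‖u z‖ₑ ^ 2) (g • z) :=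
    ((hu.measurable.enorm.pow_const 2).indicator hms).comp (cont_smul_int g).measurable
  rw [← lintegral_const_mul _ hmf]
  obtain ⟨K, hK⟩ : ∃ K, K = ENNReal.ofReal (N * Real.exp R / Y) *
    Es (fun w => u (g • w)) (-(1 / 2)) N (Y * Real.exp (-R)) := ⟨_, rfl⟩
  have hpt : ∀ z ∈ (𝒟ᵒ : Set ℍ), ‖a‖ₑ ^ 2 * (cuspRegion Y).indicator
      (fun z => ‖u z‖ₑ ^ 2) (g • z) ≤ {z : ℍ | |z.re| < 1 / 2 ∧ Y < z.im}.indicator
        (fun _ => K) z := by
    intro z hz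
    by_cases hzc : g • z ∈ cuspRegion Y
    · obtain ⟨γ, hγ⟩ := (cuspRegion_smul Y g z).1 hzc
      have hz2 : Y < z.im := hγ.trans_le (im_smul_le_of_mem_fdo hz γ)
      have hz3 : z ∈ {z : ℍ | |z.re| < 1 / 2 ∧ Y < z.im} := ⟨hz.2, hz2⟩
      rw [Set.indicator_of_mem hzc, Set.indicator_of_mem hz3, ← mul_pow, ← enorm_mul, ← ha,
        int_ball_smul_int, hK]
      refine (Jsq hN hcg (per hi g) (hc g) hR z (-(1 / 2))).trans ?_
      have k1 : ENNReal.ofReal (N * Real.exp R / z.im) ≤ ENNReal.ofReal (N * Real.exp R / Y) := by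
        apply ENNReal.ofReal_le_ofReal
        exact div_le_div_of_nonneg_left (by positivity) hY0 hz2.le
      have k2 : Es (fun w => u (g • w)) (-(1 / 2)) N (z.im * Real.exp (-R)) ≤
          Es (fun w => u (g • w)) (-(1 / 2)) N (Y * Real.exp (-R)) := by
        unfold Es
        apply lintegral_mono_set
        apply Set.Ioi_subset_Ioi
        exact mul_le_mul_of_nonneg_right hz2.le (Real.exp_pos _).le
      exact mul_le_mul' k1 k2
    · rw [Set.indicator_of_notMem hzc, mul_zero]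
      exact zero_le
  refine (setLIntegral_mono' isOpen_fdo.measurableSet hpt).trans ?_
  refine (setLIntegral_le_lintegral _ _).trans ?_
  rw [lintegral_indicator hm1, lintegral_const, Measure.restrict_apply_univ, vol_strip Y hY0, hK]
  apply le_of_eq
  have e : ENNReal.ofReal (N * Real.exp R / Y ^ 2) =
      ENNReal.ofReal (N * Real.exp R / Y) * ENNReal.ofReal Y⁻¹ := by
    rw [← ENNReal.ofReal_mul (by positivity)]
    congr 1
    field_simp
  rw [e, mul_assoc, mul_assoc, mul_comm (ENNReal.ofReal Y⁻¹)]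

/-- the mass in the cusps -/
theorem mass {N : ℕ} (hN : 0 < N) {u : ℍ → ℂ} (hu : Continuous u) (hi : Inv N u)
    (hc : Cusp N u) {R : ℝ} (hR : 0 < R) {a : ℂ} (ha : ∀ z, ∫ w in closedBall z R, u w = a * u z)
    {Y : ℝ} (hY : Real.exp R ≤ Y) :
    ‖a‖ₑ ^ 2 * ∫⁻ z in cuspRegion Y, ‖u z‖ₑ ^ 2 ∂(nu N) ≤
      ENNReal.ofReal (N ^ 2 * Real.exp R / Y ^ 2) * ∫⁻ z, ‖u z‖ₑ ^ 2 ∂(nu N) := by
  have hNr : (0 : ℝ) < N := by exact_mod_cast hN
  have hY0 : 0 < Y := lt_of_lt_of_le (Real.exp_pos R) hY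
  have ht1 : 1 ≤ Y * Real.exp (-R) := by
    rw [Real.exp_neg, ← div_eq_mul_inv, le_div_iff₀ (Real.exp_pos R), one_mul]
    exact hY
  rw [← lintegral_indicator (measurableSet_cuspRegion Y), NU2.lint_nu]
  obtain ⟨J, hJ⟩ : ∃ J : SL(2, ℤ) ⧸ Gamma N → ℝ≥0∞, J = fun g => ∫⁻ z in 𝒟ᵒ,
    (cuspRegion Y).indicator (fun z => ‖u z‖ₑ ^ 2) (g.out • z) := ⟨_, rfl⟩
  obtain ⟨E, hE⟩ : ∃ E : SL(2, ℤ) ⧸ Gamma N → ℝ≥0∞, E = fun g =>
    Es (fun w => u (g.out • w)) (-(1 / 2)) N (Y * Real.exp (-R)) := ⟨_, rfl⟩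
  have h0 : ∀ g, ‖a‖ₑ ^ 2 * J g ≤ ENNReal.ofReal (N * Real.exp R / Y ^ 2) * E g := by
    intro g
    rw [hJ, hE]
    exact strip hN hu hi hc hR ha hY0 g.out
  have h1 : ∑' g, E g ≤ N * ∫⁻ z, ‖u z‖ₑ ^ 2 ∂(nu N) := by
    rw [hE]
    exact sum_Es hu hi ht1
  have h2 : ∑' g, J g = ∑' g : SL(2, ℤ) ⧸ Gamma N, ∫⁻ z in 𝒟ᵒ,
    (cuspRegion Y).indicator (fun z => ‖u z‖ₑ ^ 2) (g.out • z) := by rw [hJ]
  rw [← h2]
  obtain ⟨I, hI⟩ : ∃ I, I = ∫⁻ z, ‖u z‖ₑ ^ 2 ∂(nu N) := ⟨_, rfl⟩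
  rw [← hI] at h1
  rw [← hI]
  calc ‖a‖ₑ ^ 2 * ∑' g, J g = ∑' g, ‖a‖ₑ ^ 2 * J g := ENNReal.tsum_mul_left.symm
    _ ≤ ∑' g, ENNReal.ofReal (N * Real.exp R / Y ^ 2) * E g := ENNReal.tsum_le_tsum h0
    _ = ENNReal.ofReal (N * Real.exp R / Y ^ 2) * ∑' g, E g := ENNReal.tsum_mul_left
    _ ≤ ENNReal.ofReal (N * Real.exp R / Y ^ 2) * (N * I) := mul_le_mul' le_rfl h1
    _ = _ := by
        rw [← mul_assoc, ← ENNReal.ofReal_natCast, ← ENNReal.ofReal_mul (by positivity)]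
        congr 2
        ring

end M3

end

end Pool.Agent.XE31
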