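import Pool.Agent.XE31.K1
import Pool.Agent.XE31.M3

/-!
# Cuspidal eigenvectors of the averaging operators and orthonormal families
-/

set_option autoImplicit false

open UpperHalfPlane MeasureTheory Metric ModularGroup CongruenceSubgroup
open scoped MatrixGroups ENNReal Modular Topology NNReal ComplexConjugate

namespace Pool.Agent.XE31

open Pool.Agent.H369R2 Pool.Agent.N799.DT

noncomputable section

namespace K2

open M1 M2 M3

variable {N : ℕ} {Γ : Subgroup SL(2, ℤ)}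

lemma slice_int {v : ℍ → ℂ} (hv : Continuous v) (g : SL(2, ℤ)) {y : ℝ} (hy : 0 < y) (a b : ℝ) :
    IntervalIntegrable (fun x : ℝ => v (g • pt (x, y))) volume a b :=
  (cont_slice (hv.comp (cont_smul_int g)) hy).intervalIntegrable a b

/-- `Γ`-invariant cuspidal simultaneous eigenvectors of the averaging operators -/
def EV (N : ℕ) (Γ : Subgroup SL(2, ℤ)) (a : ℝ → ℝ) : Submodule ℂ (LW N) where
  carrier := {u | (∀ γ ∈ Γ, ∀ z : ℍ, (u : ℍ → ℂ) (γ • z) = (u : ℍ → ℂ) z) ∧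
    (∀ R : ℝ, 0 < R → ∀ z, Av R (u : ℍ → ℂ) z = (a R : ℂ) * (u : ℍ → ℂ) z) ∧
    Cusp N (u : ℍ → ℂ)}
  add_mem' := by
    rintro u v ⟨hu1, hu2, hu3⟩ ⟨hv1, hv2, hv3⟩
    refine ⟨fun γ hγ z => ?_, fun R hR z => ?_, fun g y hy => ?_⟩
    · simp only [Submodule.coe_add, Pi.add_apply, hu1 γ hγ z, hv1 γ hγ z]
    · rw [Submodule.coe_add, Av_add' (LW.cont u) (LW.cont v), hu2 R hR, hv2 R hR, Pi.add_apply,
        mul_add]
    · simp only [Submodule.coe_add, Pi.add_apply]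
      rw [intervalIntegral.integral_add (slice_int (LW.cont u) g hy _ _)
        (slice_int (LW.cont v) g hy _ _), hu3 g y hy, hv3 g y hy, add_zero]
  zero_mem' := by
    refine ⟨fun γ _ z => rfl, fun R _ z => ?_, fun g y _ => ?_⟩
    · simp [Av]
    · simp
  smul_mem' := by
    rintro c u ⟨hu1, hu2, hu3⟩
    refine ⟨fun γ hγ z => ?_, fun R hR z => ?_, fun g y hy => ?_⟩
    · simp only [Submodule.coe_smul, Pi.smul_apply, hu1 γ hγ z]
    · rw [Submodule.coe_smul, Av_smul', hu2 R hR, Pi.smul_apply, smul_eq_mul]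
      ring
    · simp only [Submodule.coe_smul, Pi.smul_apply, smul_eq_mul]
      rw [intervalIntegral.integral_const_mul, hu3 g y hy, mul_zero]

lemma EV_congr {a b : ℝ → ℝ} (h : ∀ R : ℝ, 0 < R → a R = b R) : EV N Γ a = EV N Γ b := by
  ext u
  constructor
  · rintro ⟨h1, h2, h3⟩
    exact ⟨h1, fun R hR z => by rw [← h R hR]; exact h2 R hR z, h3⟩
  · rintro ⟨h1, h2, h3⟩
    exact ⟨h1, fun R hR z => by rw [h R hR]; exact h2 R hR z, h3⟩

lemma EV_orth (hN : 0 < N) {a b : ℝ → ℝ} {R : ℝ} (hR : 0 < R) (hne : a R ≠ b R) {u v : LW N}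
    (hu : u ∈ EV N Γ a) (hv : v ∈ EV N Γ b) : inner ℂ u v = 0 := by
  rw [LW.inner_def]
  exact orth N hN R hR u v (LW.cont u) (LW.cont v) (LW.inv u) (LW.inv v) (LW.fin u) (LW.fin v) _ _
    (hu.2.1 R hR) (hv.2.1 R hR) hne

open InnerProductSpace in
/-- Gram-Schmidt inside the eigenspaces -/
lemma gs_mem (hN : 0 < N) {k : ℕ} (a : Fin k → ℝ → ℝ) (φ : Fin k → LW N)
    (hφ : ∀ i, φ i ∈ EV N Γ (a i)) (i : Fin k) : gramSchmidt ℂ φ i ∈ EV N Γ (a i) := by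
  induction i using WellFoundedLT.induction with
  | ind i ih =>
    rw [gramSchmidt_def]
    refine Submodule.sub_mem _ (hφ i) (Submodule.sum_mem _ fun j hj => ?_)
    have hj' : j < i := Finset.mem_Iio.1 hj
    have hjm := ih j hj'
    by_cases h : ∀ R : ℝ, 0 < R → a j R = a i R
    · rw [← EV_congr h]
      have : ((ℂ ∙ gramSchmidt ℂ φ j).starProjection (φ i)) ∈ (ℂ ∙ gramSchmidt ℂ φ j) :=
        Submodule.starProjection_apply_mem _ _
      obtain ⟨c, hc⟩ := Submodule.mem_span_singleton.1 this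
      rw [← hc]
      exact Submodule.smul_mem _ _ hjm
    · push Not at h
      obtain ⟨R, hR, hne⟩ := h
      have h3 : inner ℂ (gramSchmidt ℂ φ j) (φ i) = 0 :=
        EV_orth hN hR hne hjm (hφ i)
      rw [Submodule.starProjection_singleton, h3]
      simp

open InnerProductSpace in
/-- an orthonormal family of eigenvectors with the same parameters -/
lemma exists_orthonormal (hN : 0 < N) {k : ℕ} (a : Fin k → ℝ → ℝ) (φ : Fin k → LW N)
    (hφ : ∀ i, φ i ∈ EV N Γ (a i)) (hli : LinearIndependent ℂ φ) :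
    ∃ e : Fin k → LW N, Orthonormal ℂ e ∧ ∀ i, e i ∈ EV N Γ (a i) :=
  ⟨gramSchmidtNormed ℂ φ, gramSchmidtNormed_orthonormal hli, fun i => by
    unfold gramSchmidtNormed
    exact Submodule.smul_mem _ _ (gs_mem hN a φ hφ i)⟩

/-- pointwise bound for orthonormal families and a general functional -/
theorem fam_gen (hN : 0 < N) (hΓ : Gamma N ≤ Γ) {k : ℕ} (e : Fin k → LW N)
    (he : Orthonormal ℂ e) (hinv : ∀ i, ∀ γ ∈ Γ, ∀ z : ℍ, (e i : ℍ → ℂ) (γ • z) = (e i : ℍ → ℂ) z)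
    (ℓ : LW N →ₗ[ℂ] ℂ) {B : ℍ → ℝ≥0∞} (hB : Measurable B)
    (hℓ : ∀ u : LW N, ‖ℓ u‖ₑ ≤ ∫⁻ w, B w * ‖(u : ℍ → ℂ) w‖ₑ) :
    2 * ((Gamma N).relIndex Γ : ℝ≥0∞) * ∑ i, ‖ℓ (e i)‖ₑ ^ 2 ≤
      ∑' δ : Γ, ∫⁻ w, B w * B ((δ : SL(2, ℤ)) • w) := by
  set c : Fin k → ℂ := fun i => ℓ (e i) with hc
  set u : LW N := ∑ i, conj (c i) • e i with hu
  set S : ℝ := ∑ i, ‖c i‖ ^ 2 with hSdef
  have hS0 : 0 ≤ S := Finset.sum_nonneg fun i _ => by positivity
  have hS : ∑ i, ‖ℓ (e i)‖ₑ ^ 2 = ENNReal.ofReal S := by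
    rw [hSdef, ENNReal.ofReal_sum_of_nonneg fun i _ => by positivity]
    refine Finset.sum_congr rfl fun i _ => ?_
    rw [enorm_sq_eq]
  have hnorm : ‖u‖ ^ 2 = S := by
    have h1 : ((‖u‖ ^ 2 : ℝ) : ℂ) = inner ℂ u u := by
      rw [inner_self_eq_norm_sq_to_K]; push_cast; rfl
    rw [hu, he.inner_sum] at h1
    have h2 : ∀ i, conj (conj (c i)) * conj (c i) = ((‖c i‖ ^ 2 : ℝ) : ℂ) := by
      intro i
      rw [Complex.conj_conj, Complex.mul_conj, Complex.normSq_eq_norm_sq]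
    rw [Finset.sum_congr rfl fun i _ => h2 i, ← Complex.ofReal_sum] at h1
    exact_mod_cast h1
  have hval : ℓ u = (S : ℂ) := by
    rw [hu, map_sum, hSdef, Complex.ofReal_sum]
    refine Finset.sum_congr rfl fun i _ => ?_
    rw [map_smul, smul_eq_mul]
    change conj (c i) * c i = _
    rw [mul_comm, Complex.mul_conj, Complex.normSq_eq_norm_sq]
  have hinvu : ∀ γ ∈ Γ, ∀ w : ℍ, ‖(u : ℍ → ℂ) (γ • w)‖ₑ = ‖(u : ℍ → ℂ) w‖ₑ := by
    intro γ hγ w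
    have h1 : ∀ s : Finset (Fin k), ((∑ i ∈ s, conj (c i) • e i : LW N) : ℍ → ℂ) (γ • w) =
        ((∑ i ∈ s, conj (c i) • e i : LW N) : ℍ → ℂ) w := by
      classical
      intro s
      induction s using Finset.induction_on with
      | empty => simp
      | insert i s hi ih =>
        rw [Finset.sum_insert hi, Submodule.coe_add, Pi.add_apply, Pi.add_apply, ih,
          Submodule.coe_smul, Pi.smul_apply, Pi.smul_apply, hinv i γ hγ w]
    rw [hu, h1]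
  have hkey := K1.bessel_gen hN hΓ hB (LW.cont u).measurable.enorm hinvu
  rw [LW.lint_sq, hnorm] at hkey
  have hle : ENNReal.ofReal S ≤ ∫⁻ w, B w * ‖(u : ℍ → ℂ) w‖ₑ := by
    have h1 := hℓ u
    rw [hval] at h1
    have h2 : ‖(S : ℂ)‖ₑ = ENNReal.ofReal S := by
      rw [← ofReal_norm, Complex.norm_real, Real.norm_of_nonneg hS0]
    rwa [h2] at h1
  rw [hS]
  by_cases h0 : ENNReal.ofReal S = 0
  · rw [h0, mul_zero]; exact bot_le
  · have h3 : 2 * ((Gamma N).relIndex Γ : ℝ≥0∞) * ENNReal.ofReal S * ENNReal.ofReal S ≤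
        (∑' δ : Γ, ∫⁻ w, B w * B ((δ : SL(2, ℤ)) • w)) * ENNReal.ofReal S := by
      refine le_trans ?_ hkey
      calc 2 * ((Gamma N).relIndex Γ : ℝ≥0∞) * ENNReal.ofReal S * ENNReal.ofReal S
          = 2 * ((Gamma N).relIndex Γ : ℝ≥0∞) * (ENNReal.ofReal S) ^ 2 := by ring
        _ ≤ 2 * ((Gamma N).relIndex Γ : ℝ≥0∞) * (∫⁻ w, B w * ‖(u : ℍ → ℂ) w‖ₑ) ^ 2 := by
          gcongr
    exact (ENNReal.mul_le_mul_iff_left h0 ENNReal.ofReal_ne_top).mp h3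

/-- half of the mass of a cuspidal eigenvector is outside the cusps -/
theorem half (hN : 0 < N) {a : ℝ → ℝ} {R : ℝ} (hR : 0 < R) (ha : a R ≠ 0) {e : LW N}
    (he : e ∈ EV N Γ a) {Y : ℝ} (hY : Real.exp R ≤ Y)
    (hY2 : 2 * (N ^ 2 * Real.exp R / Y ^ 2) ≤ (bv R * a R) ^ 2) :
    ENNReal.ofReal (‖e‖ ^ 2 / 2) ≤
      ∫⁻ z in (cuspRegion Y)ᶜ, ‖(e : ℍ → ℂ) z‖ₑ ^ 2 ∂(nu N) := by
  have hbv := bv_pos hR
  have h1 := mass hN (LW.cont e) (LW.inv e) he.2.2 hR (a := ((bv R * a R : ℝ) : ℂ)) (by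
    intro z
    have h2 := he.2.1 R hR z
    unfold Av at h2
    rw [inv_smul_eq_iff₀ hbv.ne'] at h2
    rw [h2, Complex.real_smul]
    push_cast
    ring) hY
  have htot : ∫⁻ z, ‖(e : ℍ → ℂ) z‖ₑ ^ 2 ∂(nu N) = ENNReal.ofReal (‖e‖ ^ 2) := LW.lint_sq e
  have hsplit := lintegral_add_compl (μ := nu N) (fun z => ‖(e : ℍ → ℂ) z‖ₑ ^ 2)
    (measurableSet_cuspRegion Y)
  rw [htot] at h1 hsplit
  obtain ⟨x, hx⟩ : ∃ x, x = ∫⁻ z in cuspRegion Y, ‖(e : ℍ → ℂ) z‖ₑ ^ 2 ∂(nu N) := ⟨_, rfl⟩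
  obtain ⟨y, hy⟩ : ∃ y, y = ∫⁻ z in (cuspRegion Y)ᶜ, ‖(e : ℍ → ℂ) z‖ₑ ^ 2 ∂(nu N) := ⟨_, rfl⟩
  rw [← hx] at h1 hsplit
  rw [← hy] at hsplit ⊢
  have hY0 : 0 < Y := lt_of_lt_of_le (Real.exp_pos R) hY
  obtain ⟨E, hE⟩ : ∃ E, E = ‖e‖ ^ 2 := ⟨_, rfl⟩
  rw [← hE] at h1 hsplit ⊢
  have hE0 : 0 ≤ E := by rw [hE]; positivity
  obtain ⟨b, hb⟩ : ∃ b, b = (bv R * a R) ^ 2 := ⟨_, rfl⟩
  have hb0 : 0 < b := by rw [hb]; positivity
  rw [← hb] at hY2
  have e1 : ‖((bv R * a R : ℝ) : ℂ)‖ₑ ^ 2 = ENNReal.ofReal b := by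
    rw [enorm_sq_eq, Complex.norm_real, Real.norm_eq_abs, sq_abs, hb]
  rw [e1] at h1
  have hxt : x ≠ ∞ := by
    intro h
    rw [h, top_add] at hsplit
    exact ENNReal.ofReal_ne_top hsplit.symm
  have hyt : y ≠ ∞ := by
    intro h
    rw [h, add_top] at hsplit
    exact ENNReal.ofReal_ne_top hsplit.symm
  obtain ⟨x', hx'0, rfl⟩ : ∃ x' : ℝ, 0 ≤ x' ∧ x = ENNReal.ofReal x' :=
    ⟨x.toReal, ENNReal.toReal_nonneg, (ENNReal.ofReal_toReal hxt).symm⟩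
  obtain ⟨y', hy'0, rfl⟩ : ∃ y' : ℝ, 0 ≤ y' ∧ y = ENNReal.ofReal y' :=
    ⟨y.toReal, ENNReal.toReal_nonneg, (ENNReal.ofReal_toReal hyt).symm⟩
  rw [← ENNReal.ofReal_mul hb0.le, ← ENNReal.ofReal_mul (by positivity),
    ENNReal.ofReal_le_ofReal_iff (by positivity)] at h1
  rw [← ENNReal.ofReal_add hx'0 hy'0, ENNReal.ofReal_eq_ofReal_iff (by positivity) hE0] at hsplit
  apply ENNReal.ofReal_le_ofReal
  have h2 : b * x' ≤ b * (E / 2) := by
    calc b * x' ≤ N ^ 2 * Real.exp R / Y ^ 2 * E := h1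
      _ ≤ (b / 2) * E := mul_le_mul_of_nonneg_right (by linarith) hE0
      _ = b * (E / 2) := by ring
  have h3 := le_of_mul_le_mul_left h2 hb0
  linarith

end K2

end

end Pool.Agent.XE31
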