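import Pool.Agent.XE31.M1

/-!
# Lower bound for the spherical functions near the bottom of the spectrum
-/

set_option autoImplicit false

open UpperHalfPlane MeasureTheory Metric ModularGroup CongruenceSubgroup
open scoped MatrixGroups ENNReal Modular Topology NNReal

namespace Pool.Agent.XE31

open Pool.Agent.H369R2 Pool.Agent.N799.DT

noncomputable section

namespace L1

open M1

theorem lam_ge {ν R : ℝ} (h0 : 0 ≤ ν) (hR : 3 ≤ R) :
    R / 32 * Real.exp (-(R / 2)) * Real.exp (ν * R / 4) ≤ lam ν R := by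
  have hbvpos : 0 < bv R := bv_pos (by linarith)
  have h3 := Lam.bv_upper (R := R) (by linarith)
  have hR0 : 0 < R := by linarith
  have hnn : 0 ≤ ∫ w in closedBall (I : ℍ) R, w.im ^ (1 / 2 + ν) :=
    integral_nonneg fun w => Real.rpow_nonneg w.im_pos.le _
  have key : Real.exp (R / 2) * Real.exp (ν * R / 4) * (R / 4) ≤
      ∫ w in closedBall (I : ℍ) R, w.im ^ (1 / 2 + ν) := by
    rw [← ENNReal.ofReal_le_ofReal_iff hnn, Lam.ofReal_int]
    obtain ⟨a, ha⟩ : ∃ a : ℝ, a = Real.exp (R / 4) := ⟨_, rfl⟩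
    obtain ⟨b, hb⟩ : ∃ b : ℝ, b = Real.exp R / 4 := ⟨_, rfl⟩
    have ha0 : 0 < a := by rw [ha]; positivity
    have ha1 : 1 ≤ a := by rw [ha]; exact Real.one_le_exp (by positivity)
    have hb0 : 0 < b := by rw [hb]; positivity
    have hlog4 : Real.log 4 ≤ 3 / 2 := by
      have h1 : Real.log 4 = 2 * Real.log 2 := by
        rw [show (4 : ℝ) = 2 ^ 2 by norm_num, Real.log_pow]; norm_num
      have := Real.log_two_lt_d9
      rw [h1]; linarith
    have hlog : R / 4 ≤ Real.log (b / a) := by
      rw [Real.log_div hb0.ne' ha0.ne', ha, hb, Real.log_div (Real.exp_pos R).ne' (by norm_num),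
        Real.log_exp, Real.log_exp]
      linarith
    have hab : a ≤ b := by
      have h1 : 0 < Real.log (b / a) := by linarith
      have h2 : 1 < b / a := (Real.log_pos_iff (by positivity)).1 h1
      rw [lt_div_iff₀ ha0] at h2
      linarith
    have hB : MeasurableSet (closedBall (I : ℍ) R) := isClosed_closedBall.measurableSet
    have hm : Measurable fun w : ℍ => ENNReal.ofReal (w.im ^ (1 / 2 + ν)) :=
      (Lam.cont_im_rpow _).measurable.ennreal_ofReal
    rw [← lintegral_indicator hB, lint_pt (hm.indicator hB)]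
    unfold ny
    rw [lintegral_withDensity_eq_lintegral_mul]
    rotate_left
    · exact (measurable_const.div (measurable_id.pow_const 2)).ennreal_ofReal
    · exact Measurable.lintegral_prod_left' (f := fun p : ℝ × ℝ =>
        (closedBall (I : ℍ) R).indicator (fun w : ℍ => ENNReal.ofReal (w.im ^ (1 / 2 + ν))) (pt p))
        ((hm.indicator hB).comp measurable_pt)
    have hcont : ContinuousOn (fun y : ℝ => Real.exp (R / 2) * Real.exp (ν * R / 4) * y⁻¹)
        (Set.Icc a b) :=
      continuousOn_const.mul (continuousOn_inv₀.mono fun y hy => (ha0.trans_le hy.1).ne')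
    have e1 : ENNReal.ofReal (Real.exp (R / 2) * Real.exp (ν * R / 4) * (R / 4)) ≤
        ∫⁻ y in Set.Icc a b, ENNReal.ofReal (Real.exp (R / 2) * Real.exp (ν * R / 4) * y⁻¹) := by
      rw [← ofReal_integral_eq_lintegral_ofReal hcont.integrableOn_Icc
        ((ae_restrict_iff' measurableSet_Icc).2 (.of_forall fun y hy => by
          have := ha0.trans_le hy.1; positivity))]
      apply ENNReal.ofReal_le_ofReal
      rw [integral_Icc_eq_integral_Ioc, ← intervalIntegral.integral_of_le hab,
        intervalIntegral.integral_const_mul, integral_inv_of_pos ha0 hb0]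
      gcongr
    refine e1.trans ?_
    rw [← lintegral_indicator measurableSet_Icc, ← lintegral_indicator measurableSet_Ioi]
    refine lintegral_mono fun y => ?_
    by_cases hy : y ∈ Set.Icc a b
    swap
    · rw [Set.indicator_of_notMem hy]; exact zero_le
    have hy0 : 0 < y := ha0.trans_le hy.1
    rw [Set.indicator_of_mem hy, Set.indicator_of_mem (show y ∈ Set.Ioi (0 : ℝ) from hy0)]
    simp only [Pi.mul_apply]
    obtain ⟨ρ, hρ⟩ : ∃ ρ, ρ = √(y * Real.exp R / 2) := ⟨_, rfl⟩
    have hρ0 : 0 ≤ ρ := by rw [hρ]; exact Real.sqrt_nonneg _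
    have e2 : ENNReal.ofReal (y ^ (1 / 2 + ν)) * ENNReal.ofReal (2 * ρ) ≤
        ∫⁻ x : ℝ, (closedBall (I : ℍ) R).indicator
          (fun w : ℍ => ENNReal.ofReal (w.im ^ (1 / 2 + ν))) (pt (x, y)) := by
      have e3 : ENNReal.ofReal (y ^ (1 / 2 + ν)) * ENNReal.ofReal (2 * ρ) =
          ∫⁻ x in Set.Icc (-ρ) ρ, ENNReal.ofReal (y ^ (1 / 2 + ν)) := by
        rw [lintegral_const, Measure.restrict_apply_univ, Real.volume_Icc]
        congr 2
        ring
      rw [e3, ← lintegral_indicator measurableSet_Icc]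
      refine lintegral_mono fun x => ?_
      by_cases hx : x ∈ Set.Icc (-ρ) ρ
      swap
      · rw [Set.indicator_of_notMem hx]; exact zero_le
      rw [Set.indicator_of_mem hx]
      have hx2 : x ^ 2 ≤ y * Real.exp R / 2 := by
        have : |x| ≤ ρ := abs_le.2 hx
        rw [hρ, Real.le_sqrt (abs_nonneg _) (by positivity), sq_abs] at this
        exact this
      have hmem : pt (x, y) ∈ closedBall (I : ℍ) R := by
        rw [mem_ball_I R hR0.le, pt_re, pt_im hy0]
        simp only
        have h10 := two_cosh_ge R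
        have h12 : y * Real.exp R ≤ y * (2 * Real.cosh R) :=
          mul_le_mul_of_nonneg_left h10 hy0.le
        have h13 : y ^ 2 ≤ y * Real.exp R / 4 := by
          have : y ≤ Real.exp R / 4 := by rw [← hb]; exact hy.2
          nlinarith
        have h14 : 1 ≤ y * Real.exp R / 4 := by
          have h15 : 1 ≤ y := ha1.trans hy.1
          have h16 : (4 : ℝ) ≤ Real.exp R := by
            have := Real.add_one_le_exp R
            linarith
          nlinarith
        linarith
      rw [Set.indicator_of_mem hmem, pt_im hy0]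
    refine le_trans ?_ (mul_le_mul' le_rfl e2)
    rw [← ENNReal.ofReal_mul (by positivity), ← ENNReal.ofReal_mul (by positivity)]
    apply ENNReal.ofReal_le_ofReal
    have f1 : ρ = √y * (Real.exp (R / 2) / √2) := by
      rw [hρ, mul_div_assoc, Real.sqrt_mul hy0.le, Real.sqrt_div (Real.exp_pos R).le]
      congr 2
      rw [show Real.exp R = Real.exp (R / 2) ^ 2 by
        rw [← Real.exp_nat_mul]; congr 1; push_cast; ring]
      exact Real.sqrt_sq (Real.exp_pos _).le
    have f2 : y ^ (1 / 2 + ν) = √y * y ^ ν := by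
      rw [Real.rpow_add hy0, ← Real.sqrt_eq_rpow]
    have f3 : √y * √y = y := Real.mul_self_sqrt hy0.le
    have f4 : Real.exp (ν * R / 4) ≤ y ^ ν := by
      calc Real.exp (ν * R / 4) = a ^ ν := by
            rw [ha, ← Real.exp_mul]; congr 1; ring
        _ ≤ y ^ ν := Real.rpow_le_rpow ha0.le hy.1 h0
    have f5 : 1 ≤ 2 / √2 := by
      rw [le_div_iff₀ (by positivity), one_mul, Real.sqrt_le_left (by norm_num)]
      norm_num
    have f6 : 1 / y ^ 2 * (y ^ (1 / 2 + ν) * (2 * ρ)) =
        (2 / √2) * (Real.exp (R / 2) * y ^ ν) * y⁻¹ := by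
      rw [f1, f2]
      have : 1 / y ^ 2 * (√y * y ^ ν * (2 * (√y * (Real.exp (R / 2) / √2)))) =
        (2 / √2) * (Real.exp (R / 2) * y ^ ν) * ((√y * √y) / y ^ 2) := by ring
      rw [this, f3]
      congr 1
      field_simp
    rw [f6]
    have f7 : Real.exp (R / 2) * Real.exp (ν * R / 4) ≤ (2 / √2) * (Real.exp (R / 2) * y ^ ν) := by
      calc Real.exp (R / 2) * Real.exp (ν * R / 4) ≤ Real.exp (R / 2) * y ^ ν := by gcongr
        _ ≤ (2 / √2) * (Real.exp (R / 2) * y ^ ν) := le_mul_of_one_le_left (by positivity) f5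
    exact mul_le_mul_of_nonneg_right f7 (by positivity)
  unfold lam
  rw [inv_mul_eq_div, le_div_iff₀ hbvpos]
  refine le_trans ?_ key
  have h4 : Real.exp (-(R / 2)) * Real.exp R = Real.exp (R / 2) := by
    rw [← Real.exp_add]
    congr 1
    ring
  calc R / 32 * Real.exp (-(R / 2)) * Real.exp (ν * R / 4) * bv R
      ≤ R / 32 * Real.exp (-(R / 2)) * Real.exp (ν * R / 4) * (8 * Real.exp R) := by gcongr
    _ = R / 4 * (Real.exp (-(R / 2)) * Real.exp R) * Real.exp (ν * R / 4) := by ring
    _ = _ := by rw [h4]; ring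

/-- different parameters give different spherical functions -/
theorem lam_ne0 : ∀ ν ν' : ℝ, 0 ≤ ν → ν < ν' → ν' ≤ 1 / 2 → ∃ R : ℝ, 0 < R ∧ lam ν R ≠ lam ν' R := by
  intro ν ν' h0 h1 h2
  by_contra hcon
  push Not at hcon
  obtain ⟨c, hc, hl⟩ := lam_lower
  obtain ⟨δ, hδ⟩ : ∃ δ, δ = ν' - ν := ⟨_, rfl⟩
  have hδ0 : 0 < δ := by linarith
  have key : ∀ R : ℝ, 3 ≤ R → c * Real.exp (δ * R) ≤ 46 * R := by
    intro R hR
    have a1 := hl ν' R (by linarith) h2 hR
    rw [← hcon R (by linarith)] at a1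
    have a2 := a1.trans (Lam.lam_le (ν := ν) h0 (R := R) (by linarith))
    have a3 : Real.exp (ν * R) * lam 0 R ≤ Real.exp (ν * R) * (46 * R * Real.exp (-(R / 2))) :=
      mul_le_mul_of_nonneg_left (Lam.lam_zero_le hR) (Real.exp_pos _).le
    have a4 := a2.trans a3
    have e1 : Real.exp ((ν' - 1 / 2) * R) = Real.exp (δ * R) * Real.exp ((ν - 1 / 2) * R) := by
      rw [← Real.exp_add, hδ]
      congr 1
      ring
    have e2 : Real.exp (ν * R) * (46 * R * Real.exp (-(R / 2))) =
        46 * R * Real.exp ((ν - 1 / 2) * R) := by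
      have : Real.exp ((ν - 1 / 2) * R) = Real.exp (ν * R) * Real.exp (-(R / 2)) := by
        rw [← Real.exp_add]
        congr 1
        ring
      rw [this]
      ring
    rw [e1, e2, ← mul_assoc] at a4
    exact le_of_mul_le_mul_right a4 (Real.exp_pos _)
  obtain ⟨R, hR⟩ : ∃ R : ℝ, R = 3 + 92 / (c * δ ^ 2) := ⟨_, rfl⟩
  have hp : 0 < 92 / (c * δ ^ 2) := by positivity
  have h3 : 3 ≤ R := by linarith
  have h4 := key R h3
  have h5 := Real.quadratic_le_exp_of_nonneg (x := δ * R) (by positivity)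
  have h6 : c * ((δ * R) ^ 2 / 2) ≤ 46 * R := by
    refine le_trans (mul_le_mul_of_nonneg_left ?_ hc.le) h4
    have : 0 ≤ δ * R := by positivity
    linarith
  have h7 : c * δ ^ 2 * R ≤ 92 := by
    have hR0 : 0 < R := by linarith
    have : c * δ ^ 2 * R * R ≤ 92 * R := by nlinarith
    exact le_of_mul_le_mul_right this hR0
  have h8 : c * δ ^ 2 * R = c * δ ^ 2 * 3 + 92 := by
    rw [hR]
    field_simp
  have h9 : 0 < c * δ ^ 2 * 3 := by positivity
  linarith

end L1

end

end Pool.Agent.XE31
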