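import Pool.Agent.XE31.K2
import Pool.Agent.XE31.L1

/-!
# The kernel
-/

set_option autoImplicit false

open UpperHalfPlane MeasureTheory Metric ModularGroup CongruenceSubgroup
open scoped MatrixGroups ENNReal Modular Topology NNReal ComplexConjugate

namespace Pool.Agent.XE31

open Pool.Agent.H369R2 Pool.Agent.N799.DT

noncomputable section

namespace K3

open M1 M2 M3 K2

/-- the weights -/
def wt (r : ℕ) : ℝ := Real.exp (-(r / 2 : ℝ))

lemma wt_pos (r : ℕ) : 0 < wt r := Real.exp_pos _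

/-- the kernel -/
def kr (M : ℕ) (z w : ℍ) : ℝ≥0∞ :=
  ∑ r ∈ Finset.Icc 1 M, ENNReal.ofReal (wt r) * (closedBall z (r : ℝ)).indicator 1 w

lemma measurable_kr2 (M : ℕ) : Measurable fun p : ℍ × ℍ => kr M p.1 p.2 := by
  unfold kr
  refine Finset.measurable_fun_sum _ fun r _ => ?_
  refine Measurable.const_mul ?_ _
  have hs : MeasurableSet {p : ℍ × ℍ | dist p.2 p.1 ≤ (r : ℝ)} :=
    (isClosed_le (continuous_snd.dist continuous_fst) continuous_const).measurableSet
  have h : (fun p : ℍ × ℍ => (closedBall p.1 (r : ℝ)).indicator (1 : ℍ → ℝ≥0∞) p.2) =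
      {p : ℍ × ℍ | dist p.2 p.1 ≤ (r : ℝ)}.indicator 1 := by
    ext p
    by_cases hp : dist p.2 p.1 ≤ (r : ℝ)
    · rw [Set.indicator_of_mem (show p ∈ {p : ℍ × ℍ | dist p.2 p.1 ≤ (r : ℝ)} from hp),
        Set.indicator_of_mem (mem_closedBall.2 hp)]
      rfl
    · rw [Set.indicator_of_notMem (show p ∉ {p : ℍ × ℍ | dist p.2 p.1 ≤ (r : ℝ)} from hp),
        Set.indicator_of_notMem fun h => hp (mem_closedBall.1 h)]
  rw [h]
  exact measurable_one.indicator hs

lemma measurable_kr (M : ℕ) (z : ℍ) : Measurable (kr M z) := by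
  have h : Measurable fun w : ℍ => (z, w) := measurable_const.prodMk measurable_id
  exact Measurable.comp (g := fun p : ℍ × ℍ => kr M p.1 p.2) (f := fun w : ℍ => (z, w))
    (measurable_kr2 M) h

lemma kr_smul (M : ℕ) (g : SL(2, ℤ)) (z w : ℍ) : kr M (g • z) (g • w) = kr M z w := by
  unfold kr
  refine Finset.sum_congr rfl fun r _ => ?_
  congr 1
  by_cases h : w ∈ closedBall z (r : ℝ)
  · rw [Set.indicator_of_mem h, Set.indicator_of_mem]
    · rfl
    · rw [mem_closedBall, dist_smul_int]; exact h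
  · rw [Set.indicator_of_notMem h, Set.indicator_of_notMem]
    rw [mem_closedBall, dist_smul_int]; exact h

lemma lint_kr (M : ℕ) (z : ℍ) {u : ℍ → ℝ≥0∞} (hu : Measurable u) :
    ∫⁻ w, kr M z w * u w =
      ∑ r ∈ Finset.Icc 1 M, ENNReal.ofReal (wt r) * ∫⁻ w in closedBall z (r : ℝ), u w := by
  have h1 : ∀ w, kr M z w * u w = ∑ r ∈ Finset.Icc 1 M, ENNReal.ofReal (wt r) *
      (closedBall z (r : ℝ)).indicator u w := by
    intro w
    unfold kr
    rw [Finset.sum_mul]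
    refine Finset.sum_congr rfl fun r _ => ?_
    rw [mul_assoc]
    congr 1
    by_cases h : w ∈ closedBall z (r : ℝ)
    · rw [Set.indicator_of_mem h, Set.indicator_of_mem h, Pi.one_apply, one_mul]
    · rw [Set.indicator_of_notMem h, Set.indicator_of_notMem h, zero_mul]
  rw [lintegral_congr h1, lintegral_finsetSum]
  · refine Finset.sum_congr rfl fun r _ => ?_
    rw [lintegral_const_mul _ (hu.indicator isClosed_closedBall.measurableSet),
      lintegral_indicator isClosed_closedBall.measurableSet]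
  · exact fun r _ => (hu.indicator isClosed_closedBall.measurableSet).const_mul _

/-- the functional -/
def fn (M : ℕ) (z : ℍ) {N : ℕ} : LW N →ₗ[ℂ] ℂ where
  toFun u := ∑ r ∈ Finset.Icc 1 M, (wt r : ℂ) * ∫ w in closedBall z (r : ℝ), (u : ℍ → ℂ) w
  map_add' u v := by
    rw [← Finset.sum_add_distrib]
    refine Finset.sum_congr rfl fun r _ => ?_
    rw [← mul_add, ← integral_add (cont_intOn (LW.cont u) z _) (cont_intOn (LW.cont v) z _)]
    rfl
  map_smul' c u := by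
    rw [RingHom.id_apply, smul_eq_mul, Finset.mul_sum]
    refine Finset.sum_congr rfl fun r _ => ?_
    have h : ∫ w in closedBall z (r : ℝ), ((c • u : LW N) : ℍ → ℂ) w =
        c * ∫ w in closedBall z (r : ℝ), (u : ℍ → ℂ) w := by
      rw [← integral_const_mul]
      rfl
    rw [h, mul_left_comm]

lemma fn_le (M : ℕ) (z : ℍ) {N : ℕ} (u : LW N) :
    ‖fn M z u‖ₑ ≤ ∫⁻ w, kr M z w * ‖(u : ℍ → ℂ) w‖ₑ := by
  rw [lint_kr M z (LW.cont u).measurable.enorm]
  change ‖∑ r ∈ Finset.Icc 1 M, (wt r : ℂ) * ∫ w in closedBall z (r : ℝ), (u : ℍ → ℂ) w‖ₑ ≤ _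
  refine (enorm_sum_le _ _).trans (Finset.sum_le_sum fun r _ => ?_)
  rw [enorm_mul]
  refine mul_le_mul' (le_of_eq ?_) (enorm_integral_le_lintegral_enorm _)
  rw [← ofReal_norm, Complex.norm_real, Real.norm_of_nonneg (wt_pos r).le]

/-- the eigenvalue -/
def hh (a : ℝ → ℝ) (M : ℕ) : ℝ := ∑ r ∈ Finset.Icc 1 M, wt r * (bv r * a r)

lemma fn_eq (M : ℕ) (z : ℍ) {N : ℕ} {Γ : Subgroup SL(2, ℤ)} {a : ℝ → ℝ} {u : LW N}
    (hu : u ∈ EV N Γ a) : fn M z u = (hh a M : ℂ) * (u : ℍ → ℂ) z := by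
  change ∑ r ∈ Finset.Icc 1 M, (wt r : ℂ) * ∫ w in closedBall z (r : ℝ), (u : ℍ → ℂ) w = _
  unfold hh
  push_cast
  rw [Finset.sum_mul]
  refine Finset.sum_congr rfl fun r hr => ?_
  have hr0 : (0 : ℝ) < r := by exact_mod_cast (Finset.mem_Icc.1 hr).1
  have hbv := bv_pos hr0
  have h2 := hu.2.1 r hr0 z
  unfold Av at h2
  rw [inv_smul_eq_iff₀ hbv.ne'] at h2
  rw [h2, Complex.real_smul]
  ring

/-- the iterated kernel -/
def k2 (M : ℕ) (z z' : ℍ) : ℝ≥0∞ := ∫⁻ w, kr M z w * kr M z' w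

lemma measurable_k2 (M : ℕ) : Measurable fun p : ℍ × ℍ => k2 M p.1 p.2 := by
  unfold k2
  have h1 : Measurable fun q : (ℍ × ℍ) × ℍ => (q.1.1, q.2) :=
    (measurable_fst.comp measurable_fst).prodMk measurable_snd
  have h2 : Measurable fun q : (ℍ × ℍ) × ℍ => (q.1.2, q.2) :=
    (measurable_snd.comp measurable_fst).prodMk measurable_snd
  have h3 : Measurable fun q : (ℍ × ℍ) × ℍ => kr M q.1.1 q.2 :=
    Measurable.comp (g := fun p : ℍ × ℍ => kr M p.1 p.2)
      (f := fun q : (ℍ × ℍ) × ℍ => (q.1.1, q.2)) (measurable_kr2 M) h1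
  have h4 : Measurable fun q : (ℍ × ℍ) × ℍ => kr M q.1.2 q.2 :=
    Measurable.comp (g := fun p : ℍ × ℍ => kr M p.1 p.2)
      (f := fun q : (ℍ × ℍ) × ℍ => (q.1.2, q.2)) (measurable_kr2 M) h2
  exact Measurable.lintegral_prod_right'
    (f := fun q : (ℍ × ℍ) × ℍ => kr M q.1.1 q.2 * kr M q.1.2 q.2) (h3.mul h4)

lemma measurable_k2_smul (M : ℕ) (τ : SL(2, ℤ)) : Measurable fun z : ℍ => k2 M z (τ • z) := by
  have h : Measurable fun z : ℍ => (z, τ • z) := measurable_id.prodMk (cont_smul_int τ).measurable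
  exact Measurable.comp (g := fun p : ℍ × ℍ => k2 M p.1 p.2) (f := fun z : ℍ => (z, τ • z))
    (measurable_k2 M) h

lemma k2_smul (M : ℕ) (g : SL(2, ℤ)) (z z' : ℍ) : k2 M (g • z) (g • z') = k2 M z z' := by
  unfold k2
  have hm : Measurable fun w => kr M (g • z) w * kr M (g • z') w :=
    (measurable_kr M (g • z)).mul (measurable_kr M (g • z'))
  rw [← (mp_int g).lintegral_comp hm]
  refine lintegral_congr fun w => ?_
  rw [kr_smul, kr_smul]

/-- geometric sums over injective families -/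
lemma inj_geom {x : ℝ} (h0 : 0 ≤ x) (h1 : x ≤ 2 / 3) (S : Finset ℕ) (g : ℕ → ℕ)
    (hg : Set.InjOn g S) : ∑ s ∈ S, x ^ g s ≤ 3 := by
  have h2 : ∑ s ∈ S, x ^ g s = ∑ k ∈ S.image g, x ^ k := (Finset.sum_image hg).symm
  rw [h2]
  have hs : Summable fun k : ℕ => x ^ k := summable_geometric_of_lt_one h0 (by linarith)
  refine (hs.sum_le_tsum _ fun k _ => by positivity).trans ?_
  rw [tsum_geometric_of_lt_one h0 (by linarith), inv_le_comm₀ (by linarith) (by norm_num)]
  linarith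

lemma exp_half : Real.exp (-(1 / 2)) ≤ 2 / 3 := by
  rw [Real.exp_neg, inv_le_comm₀ (Real.exp_pos _) (by norm_num)]
  have := Real.add_one_le_exp (1 / 2 : ℝ)
  linarith

/-- the double sum -/
lemma dsum (M : ℕ) (r : ℕ) : ∑ s ∈ Finset.Icc 1 M, wt r * wt s * Real.exp (min (r : ℝ) s) ≤ 6 := by
  have h1 : ∀ s ∈ Finset.Icc 1 M, wt r * wt s * Real.exp (min (r : ℝ) s) ≤
      (if s ≤ r then Real.exp (-(1 / 2)) ^ (r - s) else 0) +
      (if r ≤ s then Real.exp (-(1 / 2)) ^ (s - r) else 0) := by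
    intro s _
    have hp : ∀ k : ℕ, 0 < Real.exp (-(1 / 2)) ^ k := fun k => by positivity
    unfold wt
    rw [← Real.exp_add, ← Real.exp_add]
    rcases le_total s r with h | h
    · rw [if_pos h, min_eq_right (by exact_mod_cast h)]
      have e : Real.exp (-(r / 2 : ℝ) + -(s / 2 : ℝ) + s) = Real.exp (-(1 / 2)) ^ (r - s) := by
        rw [← Real.exp_nat_mul]
        congr 1
        rw [Nat.cast_sub h]
        ring
      rw [e]
      split_ifs
      · linarith [hp (s - r)]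
      · linarith
    · rw [if_pos h, min_eq_left (by exact_mod_cast h)]
      have e : Real.exp (-(r / 2 : ℝ) + -(s / 2 : ℝ) + r) = Real.exp (-(1 / 2)) ^ (s - r) := by
        rw [← Real.exp_nat_mul]
        congr 1
        rw [Nat.cast_sub h]
        ring
      rw [e]
      split_ifs
      · linarith [hp (r - s)]
      · linarith
  refine (Finset.sum_le_sum h1).trans ?_
  rw [Finset.sum_add_distrib, ← Finset.sum_filter, ← Finset.sum_filter]
  have h2 := inj_geom (Real.exp_pos (-(1 / 2))).le exp_half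
    ((Finset.Icc 1 M).filter fun s => s ≤ r) (fun s => r - s) (by
      intro a ha b hb hab
      simp only [Finset.coe_filter, Set.mem_ofPred_eq] at ha hb
      simp only at hab
      omega)
  have h3 := inj_geom (Real.exp_pos (-(1 / 2))).le exp_half
    ((Finset.Icc 1 M).filter fun s => r ≤ s) (fun s => s - r) (by
      intro a ha b hb hab
      simp only [Finset.coe_filter, Set.mem_ofPred_eq] at ha hb
      simp only at hab
      omega)
  linarith

lemma k2_eq (M : ℕ) (z z' : ℍ) : k2 M z z' = ∑ r ∈ Finset.Icc 1 M, ∑ s ∈ Finset.Icc 1 M,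
    ENNReal.ofReal (wt r) * (ENNReal.ofReal (wt s) *
      volume (closedBall z (r : ℝ) ∩ closedBall z' (s : ℝ))) := by
  unfold k2
  rw [lint_kr M z (measurable_kr M z')]
  refine Finset.sum_congr rfl fun r _ => ?_
  rw [← Finset.mul_sum]
  congr 1
  unfold kr
  rw [lintegral_finsetSum]
  · refine Finset.sum_congr rfl fun s _ => ?_
    rw [lintegral_const_mul _ (measurable_one.indicator isClosed_closedBall.measurableSet),
      lintegral_indicator_one isClosed_closedBall.measurableSet,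
      Measure.restrict_apply isClosed_closedBall.measurableSet, Set.inter_comm]
  · exact fun s _ => (measurable_one.indicator isClosed_closedBall.measurableSet).const_mul _

/-- the upper bound for the iterated kernel -/
lemma k2_le (M : ℕ) (z z' : ℍ) : k2 M z z' ≤ ENNReal.ofReal (48 * M) := by
  rw [k2_eq]
  have h1 : ∀ r ∈ Finset.Icc 1 M, ∑ s ∈ Finset.Icc 1 M,
      ENNReal.ofReal (wt r) * (ENNReal.ofReal (wt s) *
      volume (closedBall z (r : ℝ) ∩ closedBall z' (s : ℝ))) ≤ ENNReal.ofReal 48 := by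
    intro r hr
    have hr0 : (0 : ℝ) < r := by exact_mod_cast (Finset.mem_Icc.1 hr).1
    have h2 : ∀ s ∈ Finset.Icc 1 M, ENNReal.ofReal (wt r) * (ENNReal.ofReal (wt s) *
        volume (closedBall z (r : ℝ) ∩ closedBall z' (s : ℝ))) ≤
        ENNReal.ofReal (8 * (wt r * wt s * Real.exp (min (r : ℝ) s))) := by
      intro s hs
      have hs0 : (0 : ℝ) < s := by exact_mod_cast (Finset.mem_Icc.1 hs).1
      have h3 : volume (closedBall z (r : ℝ) ∩ closedBall z' (s : ℝ)) ≤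
          ENNReal.ofReal (8 * Real.exp (min (r : ℝ) s)) := by
        rcases le_total (r : ℝ) s with h | h
        · rw [min_eq_left h]
          refine (measure_mono Set.inter_subset_left).trans ?_
          rw [vol_eq]
          exact ENNReal.ofReal_le_ofReal (Lam.bv_upper hr0)
        · rw [min_eq_right h]
          refine (measure_mono Set.inter_subset_right).trans ?_
          rw [vol_eq]
          exact ENNReal.ofReal_le_ofReal (Lam.bv_upper hs0)
      calc ENNReal.ofReal (wt r) * (ENNReal.ofReal (wt s) *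
          volume (closedBall z (r : ℝ) ∩ closedBall z' (s : ℝ)))
          ≤ ENNReal.ofReal (wt r) * (ENNReal.ofReal (wt s) *
            ENNReal.ofReal (8 * Real.exp (min (r : ℝ) s))) := by gcongr
        _ = _ := by
            rw [← ENNReal.ofReal_mul (wt_pos s).le, ← ENNReal.ofReal_mul (wt_pos r).le]
            congr 1
            ring
    refine (Finset.sum_le_sum h2).trans ?_
    rw [← ENNReal.ofReal_sum_of_nonneg fun s _ => by
      have := wt_pos r; have := wt_pos s; positivity]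
    apply ENNReal.ofReal_le_ofReal
    rw [← Finset.mul_sum]
    linarith [dsum M r]
  refine (Finset.sum_le_sum h1).trans ?_
  rw [Finset.sum_const, Nat.card_Icc, nsmul_eq_mul, ← ENNReal.ofReal_natCast,
    ← ENNReal.ofReal_mul (by positivity)]
  apply ENNReal.ofReal_le_ofReal
  simp
  linarith

/-- the support of the iterated kernel -/
lemma k2_zero (M : ℕ) {z z' : ℍ} (h : ¬ dist z z' ≤ 2 * M) : k2 M z z' = 0 := by
  rw [k2_eq]
  refine Finset.sum_eq_zero fun r hr => Finset.sum_eq_zero fun s hs => ?_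
  have h1 : closedBall z (r : ℝ) ∩ closedBall z' (s : ℝ) = ∅ := by
    rw [Set.eq_empty_iff_forall_notMem]
    rintro w ⟨hw1, hw2⟩
    apply h
    rw [mem_closedBall] at hw1 hw2
    have hr2 : (r : ℝ) ≤ M := by exact_mod_cast (Finset.mem_Icc.1 hr).2
    have hs2 : (s : ℝ) ≤ M := by exact_mod_cast (Finset.mem_Icc.1 hs).2
    calc dist z z' ≤ dist w z + dist w z' := dist_triangle_left z z' w
      _ ≤ 2 * M := by linarith
  rw [h1, measure_empty, mul_zero, mul_zero]

/-- the trace inequality -/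
theorem trace {N : ℕ} (hN : 0 < N) {Γ : Subgroup SL(2, ℤ)} (hΓ : Gamma N ≤ Γ) {k : ℕ}
    (a : Fin k → ℝ → ℝ) (e : Fin k → LW N) (he : Orthonormal ℂ e)
    (hm : ∀ i, e i ∈ EV N Γ (a i)) (M : ℕ) {Y : ℝ}
    (hY : ∀ i, ENNReal.ofReal (1 / 2) ≤
      ∫⁻ z in (cuspRegion Y)ᶜ, ‖(e i : ℍ → ℂ) z‖ₑ ^ 2 ∂(nu N)) :
    ∑ i, ENNReal.ofReal (hh (a i) M ^ 2) ≤
      ∫⁻ z in 𝒟ᵒ ∩ (cuspRegion Y)ᶜ, ∑' δ : SL(2, ℤ), (fix Γ δ : ℝ≥0∞) * k2 M z (δ • z) := by
  have hr0 : ((Gamma N).relIndex Γ : ℝ≥0∞) ≠ 0 := by exact_mod_cast relIndex_ne hN Γ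
  have hrt : ((Gamma N).relIndex Γ : ℝ≥0∞) ≠ ∞ := ENNReal.natCast_ne_top _
  obtain ⟨P, hP⟩ : ∃ P : ℍ → ℝ≥0∞, P = fun z => ∑' δ : Γ, k2 M z ((δ : SL(2, ℤ)) • z) := ⟨_, rfl⟩
  have hpt : ∀ z : ℍ, 2 * ((Gamma N).relIndex Γ : ℝ≥0∞) *
      ∑ i, ENNReal.ofReal (hh (a i) M ^ 2) * ‖(e i : ℍ → ℂ) z‖ₑ ^ 2 ≤ P z := by
    intro z
    have h1 := fam_gen hN hΓ e he (fun i => (hm i).1) (fn M z) (measurable_kr M z) (fn_le M z)
    have h2 : ∑' δ : Γ, ∫⁻ w, kr M z w * kr M z ((δ : SL(2, ℤ)) • w) = P z := by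
      rw [hP]
      simp only
      rw [← (Equiv.inv Γ).tsum_eq]
      refine tsum_congr fun δ => ?_
      unfold k2
      refine lintegral_congr fun w => ?_
      congr 1
      have e : (((Equiv.inv Γ) δ : Γ) : SL(2, ℤ)) = (δ : SL(2, ℤ))⁻¹ := rfl
      rw [e, ← kr_smul M (δ : SL(2, ℤ)) z ((δ : SL(2, ℤ))⁻¹ • w), smul_inv_smul]
    rw [h2] at h1
    refine le_trans (le_of_eq ?_) h1
    congr 1
    refine Finset.sum_congr rfl fun i _ => ?_
    rw [fn_eq M z (hm i), enorm_mul, mul_pow]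
    congr 1
    rw [enorm_sq_eq, Complex.norm_real, Real.norm_eq_abs, sq_abs]
  have hPσ : ∀ (σ : SL(2, ℤ)) (z : ℍ), P (σ • z) =
      ∑' δ : Γ, (fun τ z => k2 M z (τ • z)) (σ⁻¹ * δ * σ) z := by
    intro σ z
    rw [hP]
    refine tsum_congr fun δ => ?_
    simp only
    rw [← k2_smul M σ z, ← mul_smul, ← mul_smul]
    congr 2
    group
  have hq : ∀ τ : SL(2, ℤ), Measurable ((fun (τ : SL(2, ℤ)) (z : ℍ) => k2 M z (τ • z)) τ) :=
    fun τ => measurable_k2_smul M τ
  have h1 := lintegral_mono (μ := (nu N).restrict (cuspRegion Y)ᶜ) hpt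
  rw [K1.unf_gen hN hΓ P (fun τ z => k2 M z (τ • z)) hq hPσ Y] at h1
  have hmeas : ∀ i, Measurable fun z => ‖(e i : ℍ → ℂ) z‖ₑ ^ 2 :=
    fun i => (LW.cont (e i)).measurable.enorm.pow_const 2
  rw [lintegral_const_mul _ (Finset.measurable_fun_sum _ fun i _ => (hmeas i).const_mul _),
    lintegral_finsetSum _ fun i _ => (hmeas i).const_mul _] at h1
  have h2 : ∀ i, ∫⁻ z in (cuspRegion Y)ᶜ, ENNReal.ofReal (hh (a i) M ^ 2) *
      ‖(e i : ℍ → ℂ) z‖ₑ ^ 2 ∂(nu N) = ENNReal.ofReal (hh (a i) M ^ 2) *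
      ∫⁻ z in (cuspRegion Y)ᶜ, ‖(e i : ℍ → ℂ) z‖ₑ ^ 2 ∂(nu N) :=
    fun i => lintegral_const_mul _ (hmeas i)
  simp only [h2] at h1
  have h3 : ((Gamma N).relIndex Γ : ℝ≥0∞) * ∑ i, ENNReal.ofReal (hh (a i) M ^ 2) ≤
      ((Gamma N).relIndex Γ : ℝ≥0∞) * ∫⁻ z in 𝒟ᵒ ∩ (cuspRegion Y)ᶜ,
        ∑' δ : SL(2, ℤ), (fix Γ δ : ℝ≥0∞) * k2 M z (δ • z) := by
    refine le_trans ?_ h1
    have h4 : ∑ i, ENNReal.ofReal (hh (a i) M ^ 2) =
        2 * ∑ i, ENNReal.ofReal (hh (a i) M ^ 2) * ENNReal.ofReal (1 / 2) := by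
      rw [← Finset.sum_mul, mul_comm, mul_assoc, ← ENNReal.ofReal_ofNat,
        ← ENNReal.ofReal_mul (by norm_num)]
      norm_num
    rw [h4, mul_left_comm, ← mul_assoc]
    refine mul_le_mul' le_rfl (Finset.sum_le_sum fun i _ => mul_le_mul' le_rfl (hY i))
  exact (ENNReal.mul_le_mul_iff_right hr0 hrt).mp h3

/-- the lower bound for the eigenvalue -/
theorem hh_ge {ν : ℝ} (h0 : 0 ≤ ν) {K : ℕ} (hK : 1 ≤ K) :
    (K : ℝ) ^ 2 / 128 * Real.exp (ν * K / 2) ≤ hh (lam ν) (3 * K) := by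
  unfold hh
  have hlam0 : ∀ r : ℝ, 0 ≤ lam ν r := by
    intro r
    unfold lam
    exact mul_nonneg (inv_nonneg.2 (bv_nonneg r))
      (integral_nonneg fun w => Real.rpow_nonneg w.im_pos.le _)
  have hsub : Finset.Icc (2 * K + 1) (3 * K) ⊆ Finset.Icc 1 (3 * K) :=
    Finset.Icc_subset_Icc (by omega) le_rfl
  refine le_trans ?_ (Finset.sum_le_sum_of_subset_of_nonneg hsub fun r _ _ =>
    mul_nonneg (wt_pos r).le (mul_nonneg (bv_nonneg r) (hlam0 r)))
  have h1 : ∀ r ∈ Finset.Icc (2 * K + 1) (3 * K), (K : ℝ) / 128 * Real.exp (ν * K / 2) ≤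
      wt r * (bv r * lam ν r) := by
    intro r hr
    rw [Finset.mem_Icc] at hr
    have hrK : 2 * (K : ℝ) + 1 ≤ r := by exact_mod_cast hr.1
    have hK1 : (1 : ℝ) ≤ K := by exact_mod_cast hK
    have hr3 : (3 : ℝ) ≤ r := by linarith
    have b1 := bv_lower hr3
    have b2 := L1.lam_ge h0 hr3
    unfold wt
    have e1 : Real.exp (-(r / 2 : ℝ)) * (Real.exp r * Real.exp (-((r : ℝ) / 2))) = 1 := by
      rw [← Real.exp_add, ← Real.exp_add]
      have : -(r / 2 : ℝ) + ((r : ℝ) + -((r : ℝ) / 2)) = 0 := by ring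
      rw [this, Real.exp_zero]
    calc (K : ℝ) / 128 * Real.exp (ν * K / 2)
        ≤ (r : ℝ) / 256 * Real.exp (ν * r / 4) := by
          have e2 : Real.exp (ν * K / 2) ≤ Real.exp (ν * r / 4) := by
            apply Real.exp_le_exp.2
            nlinarith
          have e3 : (K : ℝ) / 128 ≤ (r : ℝ) / 256 := by linarith
          exact mul_le_mul e3 e2 (Real.exp_pos _).le (by positivity)
      _ = Real.exp (-(r / 2 : ℝ)) * (Real.exp r / 8 * (r / 32 * Real.exp (-(r / 2 : ℝ)) *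
            Real.exp (ν * r / 4))) := by
          linear_combination (-(r : ℝ) / 256 * Real.exp (ν * r / 4)) * e1
      _ ≤ Real.exp (-(r / 2 : ℝ)) * (bv r * lam ν r) := by
          refine mul_le_mul_of_nonneg_left ?_ (Real.exp_pos _).le
          exact mul_le_mul b1 b2 (by positivity) (bv_nonneg _)
  calc (K : ℝ) ^ 2 / 128 * Real.exp (ν * K / 2)
      = ∑ _r ∈ Finset.Icc (2 * K + 1) (3 * K), (K : ℝ) / 128 * Real.exp (ν * K / 2) := by
        rw [Finset.sum_const, Nat.card_Icc, nsmul_eq_mul]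
        have : 3 * K + 1 - (2 * K + 1) = K := by omega
        rw [this]
        ring
    _ ≤ _ := Finset.sum_le_sum h1

end K3

end

end Pool.Agent.XE31
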