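import Pool.Agent.XE31.M1

/-!
# Ball averages of functions with vanishing constant term
-/

set_option autoImplicit false

open UpperHalfPlane MeasureTheory Metric ModularGroup CongruenceSubgroup
open scoped MatrixGroups ENNReal Modular Topology NNReal

namespace Pool.Agent.XE31

open Pool.Agent.H369R2 Pool.Agent.N799.DT

noncomputable section

namespace M2

open M1

/-- the energy in a strip -/
def Es (v : ℍ → ℂ) (c : ℝ) (N : ℕ) (t : ℝ) : ℝ≥0∞ :=
  ∫⁻ y in Set.Ioi t, (∫⁻ x in Set.Ioc c (c + N), ‖v (pt (x, y))‖ₑ ^ 2) ∂ny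

lemma cont_slice {v : ℍ → ℂ} (hv : Continuous v) {y : ℝ} (hy : 0 < y) :
    Continuous fun x : ℝ => v (pt (x, y)) := by
  apply hv.comp
  rw [isEmbedding_coe.continuous_iff]
  have h : (UpperHalfPlane.coe ∘ fun x : ℝ => pt (x, y)) = fun x : ℝ => (⟨x, y⟩ : ℂ) := by
    ext x
    simp only [Function.comp]
    rw [pt_eq hy]
  rw [h]
  have h2 : (fun x : ℝ => (⟨x, y⟩ : ℂ)) = fun x : ℝ => (x : ℂ) + y * Complex.I := by
    ext x
    apply Complex.ext <;> simp
  rw [h2]
  fun_prop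

lemma Jbound {N : ℕ} (hN : 0 < N) {v : ℍ → ℂ} (hv : Continuous v)
    (hper : ∀ x y : ℝ, 0 < y → v (pt (x + N, y)) = v (pt (x, y)))
    (h0 : ∀ y : ℝ, 0 < y → ∫ x in (0 : ℝ)..N, v (pt (x, y)) = 0) {R : ℝ} (hR : 0 < R) (z : ℍ)
    (c : ℝ) :
    ‖∫ w in closedBall z R, v w‖ₑ ≤ ∫⁻ y in Set.Ioi (z.im * Real.exp (-R)),
      (∫⁻ x in Set.Ioc c (c + N), ‖v (pt (x, y))‖ₑ) ∂ny := by
  have hNr : (0 : ℝ) < N := by exact_mod_cast hN
  have hB : MeasurableSet (closedBall z R) := isClosed_closedBall.measurableSet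
  have hint : Integrable ((closedBall z R).indicator v) :=
    (integrable_indicator_iff hB).2 (cont_intOn hv z R)
  rw [← integral_indicator hB, int_pt hint]
  refine (enorm_integral_le_lintegral_enorm _).trans ?_
  rw [← lintegral_indicator measurableSet_Ioi]
  refine lintegral_mono_ae ?_
  filter_upwards [ny_pos] with y hy
  obtain ⟨Y, hY⟩ : ∃ Y, Y = z.im := ⟨_, rfl⟩
  have hY0 : 0 < Y := by rw [hY]; exact z.im_pos
  obtain ⟨ρ, hρ⟩ : ∃ ρ, ρ = 2 * y * Y * Real.cosh R - y ^ 2 - Y ^ 2 := ⟨_, rfl⟩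
  have hmem : ∀ x : ℝ, pt (x, y) ∈ closedBall z R ↔ (x - z.re) ^ 2 ≤ ρ := by
    intro x
    rw [mem_ball hR.le, pt_re, pt_im hy, ← hY, hρ]
    simp only
    constructor <;> intro h <;> linarith
  have hexp : Real.exp R * Real.exp (-R) = 1 := by rw [← Real.exp_add]; simp
  have hfac : ρ = -((y - Y * Real.exp R) * (y - Y * Real.exp (-R))) := by
    rw [hρ, Real.cosh_eq]
    linear_combination (Y ^ 2) * hexp
  rw [← hY]
  by_cases hρ0 : 0 < ρ
  · have hyI : y ∈ Set.Ioi (Y * Real.exp (-R)) := by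
      rw [Set.mem_Ioi]
      by_contra hcon
      push Not at hcon
      have h1 : Y * Real.exp (-R) ≤ Y * Real.exp R :=
        mul_le_mul_of_nonneg_left (Real.exp_le_exp.2 (by linarith)) hY0.le
      have h2 : 0 ≤ (y - Y * Real.exp R) * (y - Y * Real.exp (-R)) :=
        mul_nonneg_of_nonpos_of_nonpos (by linarith) (by linarith)
      linarith
    rw [Set.indicator_of_mem hyI]
    have h1 : ∀ x : ℝ, (closedBall z R).indicator v (pt (x, y)) =
        (Set.Icc (z.re - √ρ) (z.re + √ρ)).indicator (fun x => v (pt (x, y))) x := by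
      intro x
      have h2 : pt (x, y) ∈ closedBall z R ↔ x ∈ Set.Icc (z.re - √ρ) (z.re + √ρ) := by
        rw [hmem, Set.mem_Icc, ← sq_abs, ← Real.le_sqrt (abs_nonneg _) hρ0.le, abs_le]
        constructor
        · rintro ⟨a1, a2⟩; constructor <;> linarith
        · rintro ⟨a1, a2⟩; constructor <;> linarith
      by_cases h3 : pt (x, y) ∈ closedBall z R
      · rw [Set.indicator_of_mem h3, Set.indicator_of_mem (h2.1 h3)]
      · rw [Set.indicator_of_notMem h3, Set.indicator_of_notMem fun h => h3 (h2.2 h)]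
    simp only [h1]
    have hs : 0 ≤ √ρ := Real.sqrt_nonneg ρ
    rw [integral_indicator measurableSet_Icc, integral_Icc_eq_integral_Ioc,
      ← intervalIntegral.integral_of_le (by linarith)]
    have hc := cont_slice hv hy
    have h4 := slice hN hc (fun x => hper x y hy) (h0 y hy) (z.re - √ρ) (z.re + √ρ) c
    rw [← ofReal_norm]
    refine (ENNReal.ofReal_le_ofReal h4).trans ?_
    rw [intervalIntegral.integral_of_le (by linarith)]
    rw [ofReal_integral_norm_eq_lintegral_enorm]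
    exact (hc.integrableOn_Icc).mono_set Set.Ioc_subset_Icc_self
  · have h5 : ∫ x : ℝ, (closedBall z R).indicator v (pt (x, y)) = 0 := by
      have h6 : (fun x : ℝ => (closedBall z R).indicator v (pt (x, y))) =ᵐ[volume] fun _ => 0 := by
        have h7 : ∀ᵐ x : ℝ, x ≠ z.re := by
          rw [ae_iff]; simp
        filter_upwards [h7] with x hx
        refine Set.indicator_of_notMem ?_ _
        rw [hmem]
        intro h8
        have h9 : (x - z.re) ^ 2 = 0 := le_antisymm (h8.trans (not_lt.1 hρ0)) (sq_nonneg _)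
        exact hx (sub_eq_zero.1 (pow_eq_zero_iff (two_ne_zero)|>.1 h9))
      rw [integral_congr_ae h6]
      simp
    rw [h5, enorm_zero]
    exact zero_le

lemma Jsq {N : ℕ} (hN : 0 < N) {v : ℍ → ℂ} (hv : Continuous v)
    (hper : ∀ x y : ℝ, 0 < y → v (pt (x + N, y)) = v (pt (x, y)))
    (h0 : ∀ y : ℝ, 0 < y → ∫ x in (0 : ℝ)..N, v (pt (x, y)) = 0) {R : ℝ} (hR : 0 < R) (z : ℍ)
    (c : ℝ) :
    ‖∫ w in closedBall z R, v w‖ₑ ^ 2 ≤
      ENNReal.ofReal (N * Real.exp R / z.im) * Es v c N (z.im * Real.exp (-R)) := by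
  have hNr : (0 : ℝ) < N := by exact_mod_cast hN
  have h1 := Jbound hN hv hper h0 hR z c
  set t := z.im * Real.exp (-R) with ht
  have ht0 : 0 < t := mul_pos z.im_pos (Real.exp_pos _)
  have hm : Measurable fun p : ℝ × ℝ => ‖v (pt p)‖ₑ := (hv.measurable.comp measurable_pt).enorm
  set μ : Measure (ℝ × ℝ) := (volume.restrict (Set.Ioc c (c + N))).prod (ny.restrict (Set.Ioi t))
    with hμ
  have h2 := PB.cs μ (f := fun _ => 1) (g := fun p => ‖v (pt p)‖ₑ) measurable_const hm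
  have e1 : ∫⁻ p, (1 : ℝ≥0∞) * ‖v (pt p)‖ₑ ∂μ =
      ∫⁻ y in Set.Ioi t, (∫⁻ x in Set.Ioc c (c + N), ‖v (pt (x, y))‖ₑ) ∂ny := by
    simp only [one_mul]
    rw [hμ, lintegral_prod_symm _ hm.aemeasurable]
  have e2 : ∫⁻ p, ‖v (pt p)‖ₑ ^ 2 ∂μ = Es v c N t := by
    rw [hμ, lintegral_prod_symm _ (hm.pow_const 2).aemeasurable]
    rfl
  have e3 : ∫⁻ _ : ℝ × ℝ, (1 : ℝ≥0∞) ^ 2 ∂μ = ENNReal.ofReal (N * Real.exp R / z.im) := by
    simp only [one_pow, lintegral_one]
    rw [hμ, ← Set.univ_prod_univ, Measure.prod_prod]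
    rw [Measure.restrict_apply_univ, Measure.restrict_apply_univ, ny_Ioi ht0, Real.volume_Ioc,
      ← ENNReal.ofReal_mul (by linarith)]
    congr 1
    rw [ht, mul_inv, Real.exp_neg, inv_inv]
    ring
  rw [e1, e2, e3] at h2
  exact (pow_le_pow_left' h1 2).trans h2

/-- splitting an interval into unit intervals -/
lemma split (f : ℝ → ℝ≥0∞) (c : ℝ) (N : ℕ) :
    ∫⁻ x in Set.Ioc c (c + N), f x = ∑ j ∈ Finset.range N, ∫⁻ x in Set.Ioc c (c + 1), f (x + j) := by
  induction N with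
  | zero => simp
  | succ N ih =>
    rw [Finset.sum_range_succ, ← ih]
    have h1 : Set.Ioc c (c + (N + 1 : ℕ)) = Set.Ioc c (c + N) ∪ Set.Ioc (c + N) (c + (N + 1 : ℕ)) := by
      rw [Set.Ioc_union_Ioc_eq_Ioc] <;> push_cast <;> linarith [(Nat.cast_nonneg N : (0 : ℝ) ≤ N)]
    have h2 : Disjoint (Set.Ioc c (c + N)) (Set.Ioc (c + N) (c + (N + 1 : ℕ))) :=
      Set.Ioc_disjoint_Ioc_of_le le_rfl
    rw [h1, lintegral_union measurableSet_Ioc h2]
    congr 1
    have h3 := (measurePreserving_add_right (volume : Measure ℝ) (N : ℝ)).setLIntegral_comp_preimage_emb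
      (measurableEmbedding_addRight (N : ℝ)) f (Set.Ioc (c + N) (c + (N + 1 : ℕ)))
    rw [← h3]
    congr 2
    ext x
    simp only [Set.mem_preimage, Set.mem_Ioc]
    push_cast
    constructor
    · rintro ⟨a1, a2⟩; constructor <;> linarith
    · rintro ⟨a1, a2⟩; constructor <;> linarith

end M2

end

end Pool.Agent.XE31
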