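import Mathlib.RingTheory.Polynomial.Chebyshev
import Mathlib.Tactic

/-!
# Chebyshev polynomials of even degree
-/

set_option autoImplicit false
set_option linter.all false

namespace Pool.Agent.XE31

noncomputable section

namespace P1

open Polynomial

/-- the values of the Chebyshev polynomials -/
def s (n : ℤ) (x : ℝ) : ℝ := (Chebyshev.S ℝ n).eval x

lemma s_add_two (n : ℤ) (x : ℝ) : s (n + 2) x = x * s (n + 1) x - s n x := by
  unfold s
  rw [Chebyshev.S_add_two]
  simp

lemma s_zero (x : ℝ) : s 0 x = 1 := by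
  unfold s
  rw [Chebyshev.S_zero]
  simp

lemma s_one (x : ℝ) : s 1 x = x := by
  unfold s
  rw [Chebyshev.S_one]
  simp

lemma s_neg_one (x : ℝ) : s (-1) x = 0 := by
  unfold s
  rw [Chebyshev.S_neg_one]
  simp

lemma s_step (c : ℤ) (x : ℝ) : s (2 * (c + 1)) x + s (2 * (c - 1)) x = (x ^ 2 - 2) * s (2 * c) x := by
  have h1 := s_add_two (2 * c) x
  have h2 := s_add_two (2 * c - 1) x
  have h3 := s_add_two (2 * c - 2) x
  have e1 : 2 * c - 1 + 2 = 2 * c + 1 := by ring
  have e2 : 2 * c - 1 + 1 = 2 * c := by ring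
  have e3 : 2 * c - 2 + 2 = 2 * c := by ring
  have e4 : 2 * c - 2 + 1 = 2 * c - 1 := by ring
  rw [e1, e2] at h2
  rw [e3, e4] at h3
  have e5 : 2 * (c + 1) = 2 * c + 2 := by ring
  have e6 : 2 * (c - 1) = 2 * c - 2 := by ring
  rw [e5, e6]
  linear_combination h1 + x * h2 + h3

/-- addition -/
lemma s_add (m : ℕ) : ∀ (n : ℤ) (x : ℝ), s (m + n) x = s m x * s n x - s (m - 1) x * s (n - 1) x := by
  induction m using Nat.twoStepInduction with
  | zero =>
    intro n x
    simp [s_zero, s_neg_one]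
  | one =>
    intro n x
    have h := s_add_two (n - 1) x
    have e1 : n - 1 + 2 = 1 + n := by ring
    have e2 : n - 1 + 1 = n := by ring
    rw [e1, e2] at h
    push_cast
    rw [h, s_one, s_zero]
    ring
  | more m ih1 ih2 =>
    intro n x
    have h := s_add_two (m + n) x
    have a1 := ih1 n x
    have a2 := ih2 n x
    have b1 := s_add_two m x
    have b2 := s_add_two ((m : ℤ) - 1) x
    have e1 : (m : ℤ) - 1 + 2 = m + 1 := by ring
    have e2 : (m : ℤ) - 1 + 1 = m := by ring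
    rw [e1, e2] at b2
    have e3 : (m : ℤ) + n + 2 = ((m + 2 : ℕ) : ℤ) + n := by push_cast; ring
    have e4 : (m : ℤ) + n + 1 = ((m + 1 : ℕ) : ℤ) + n := by push_cast; ring
    have e5 : (((m + 1 : ℕ) : ℤ)) - 1 = m := by push_cast; ring
    have e6 : (((m + 2 : ℕ) : ℤ)) - 1 = m + 1 := by push_cast; ring
    have e7 : (((m + 2 : ℕ) : ℤ)) = m + 2 := by push_cast; ring
    have e8 : (((m + 1 : ℕ) : ℤ)) = m + 1 := by push_cast; ring
    rw [e3, e4] at h
    rw [e5] at a2
    rw [h, a1, a2, e6, e7, e8, b1, b2]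
    ring

lemma s_double (K : ℕ) (x : ℝ) : s (2 * ((K : ℤ) + 1)) x = s (K + 1) x ^ 2 - s K x ^ 2 := by
  have h := s_add (K + 1) (K + 1) x
  have e1 : ((K + 1 : ℕ) : ℤ) + (K + 1) = 2 * ((K : ℤ) + 1) := by push_cast; ring
  have e2 : ((K + 1 : ℕ) : ℤ) = (K : ℤ) + 1 := by push_cast; ring
  have e3 : (K : ℤ) + 1 - 1 = K := by ring
  rw [e1, e2, e3] at h
  rw [h]
  ring

/-- the test function -/
def F (K : ℕ) (x : ℝ) : ℝ := ∑ j ∈ Finset.Icc 1 K, s (2 * (j : ℤ)) x

lemma F_eq (K : ℕ) (x : ℝ) : F K x = s K x ^ 2 - 1 := by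
  unfold F
  induction K with
  | zero => simp [s_zero]
  | succ K ih =>
    rw [Finset.sum_Icc_succ_top (by omega), ih]
    push_cast
    rw [s_double]
    ring

lemma F_ge_neg (K : ℕ) (x : ℝ) : -1 ≤ F K x := by
  rw [F_eq]
  nlinarith [sq_nonneg (s K x)]

lemma s_ge {x : ℝ} (hx : 2 ≤ x) (n : ℕ) : (n : ℝ) + 1 ≤ s n x ∧ s n x + 1 ≤ s (n + 1) x := by
  induction n with
  | zero =>
    constructor
    · simp [s_zero]
    · push_cast
      rw [s_zero, s_one]
      linarith
  | succ n ih =>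
    obtain ⟨h1, h2⟩ := ih
    have h := s_add_two n x
    push_cast
    have e : (n : ℤ) + 1 + 1 = n + 2 := by ring
    rw [e, h]
    have hn : (0 : ℝ) ≤ n := Nat.cast_nonneg n
    constructor
    · linarith
    · nlinarith

lemma F_ge {x : ℝ} (hx : 2 ≤ x) (K : ℕ) : ((K : ℝ) + 1) ^ 2 - 1 ≤ F K x := by
  rw [F_eq]
  have h := (s_ge hx K).1
  have := pow_le_pow_left₀ (by positivity) h 2
  linarith

/-- Clebsch-Gordan -/
lemma cg (a : ℕ) : ∀ (b : ℤ) (x : ℝ), s (2 * (a : ℤ)) x * s (2 * b) x =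
    ∑ c ∈ Finset.Icc (b - a) (b + a), s (2 * c) x := by
  induction a using Nat.twoStepInduction with
  | zero =>
    intro b x
    simp [s_zero]
  | one =>
    intro b x
    have h := s_step b x
    have h2 : s 2 x = x ^ 2 - 1 := by
      have := s_add_two 0 x
      simp only [zero_add, s_one, s_zero] at this
      rw [this]
      ring
    push_cast
    have e : Finset.Icc (b - 1) (b + 1) = {b - 1, b, b + 1} := by
      ext c
      simp only [Finset.mem_Icc, Finset.mem_insert, Finset.mem_singleton]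
      omega
    have m1 : b - 1 ∉ ({b, b + 1} : Finset ℤ) := by
      simp only [Finset.mem_insert, Finset.mem_singleton]
      omega
    have m2 : b ∉ ({b + 1} : Finset ℤ) := by
      simp only [Finset.mem_singleton]
      omega
    rw [e, Finset.sum_insert m1, Finset.sum_insert m2, Finset.sum_singleton, h2]
    linear_combination -h
  | more a ih1 ih2 =>
    intro b x
    have h := s_step (a + 1) x
    have e1 : (a : ℤ) + 1 + 1 = ((a + 2 : ℕ) : ℤ) := by push_cast; ring
    have e2 : (a : ℤ) + 1 - 1 = a := by ring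
    have e3 : (a : ℤ) + 1 = ((a + 1 : ℕ) : ℤ) := by push_cast; ring
    rw [e1, e2, e3] at h
    have a1 := ih1 b x
    have a2 := ih2 b x
    have key : s (2 * ((a + 2 : ℕ) : ℤ)) x * s (2 * b) x =
        (x ^ 2 - 2) * ∑ c ∈ Finset.Icc (b - ((a + 1 : ℕ) : ℤ)) (b + ((a + 1 : ℕ) : ℤ)), s (2 * c) x -
          ∑ c ∈ Finset.Icc (b - (a : ℤ)) (b + a), s (2 * c) x := by
      rw [← a1, ← a2]
      linear_combination s (2 * b) x * h
    rw [key, Finset.mul_sum]
    have h3 : ∀ c : ℤ, (x ^ 2 - 2) * s (2 * c) x = s (2 * (c + 1)) x + s (2 * (c - 1)) x :=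
      fun c => (s_step c x).symm
    simp only [h3]
    rw [Finset.sum_add_distrib]
    have s1 : ∑ c ∈ Finset.Icc (b - ((a + 1 : ℕ) : ℤ)) (b + ((a + 1 : ℕ) : ℤ)), s (2 * (c + 1)) x =
        ∑ c ∈ Finset.Icc (b - (a : ℤ)) (b + (a : ℤ) + 2), s (2 * c) x := by
      refine Finset.sum_nbij' (fun c => c + 1) (fun c => c - 1) ?_ ?_ ?_ ?_ ?_
      · intro c hc
        rw [Finset.mem_Icc] at hc ⊢
        push_cast at hc
        omega
      · intro c hc
        rw [Finset.mem_Icc] at hc ⊢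
        push_cast
        omega
      · intro c _
        ring
      · intro c _
        ring
      · intro c _
        rfl
    have s2 : ∑ c ∈ Finset.Icc (b - ((a + 1 : ℕ) : ℤ)) (b + ((a + 1 : ℕ) : ℤ)), s (2 * (c - 1)) x =
        ∑ c ∈ Finset.Icc (b - (a : ℤ) - 2) (b + (a : ℤ)), s (2 * c) x := by
      refine Finset.sum_nbij' (fun c => c - 1) (fun c => c + 1) ?_ ?_ ?_ ?_ ?_
      · intro c hc
        rw [Finset.mem_Icc] at hc ⊢
        push_cast at hc
        omega
      · intro c hc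
        rw [Finset.mem_Icc] at hc ⊢
        push_cast
        omega
      · intro c _
        ring
      · intro c _
        ring
      · intro c _
        rfl
    rw [s1, s2]
    have u1 : Finset.Icc (b - ((a + 2 : ℕ) : ℤ)) (b + ((a + 2 : ℕ) : ℤ)) =
        Finset.Icc (b - (a : ℤ) - 2) (b + a) ∪ Finset.Ioc (b + (a : ℤ)) (b + a + 2) := by
      ext c
      simp only [Finset.mem_Icc, Finset.mem_union, Finset.mem_Ioc]
      push_cast
      omega
    have u2 : Finset.Icc (b - (a : ℤ)) (b + (a : ℤ) + 2) =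
        Finset.Icc (b - (a : ℤ)) (b + a) ∪ Finset.Ioc (b + (a : ℤ)) (b + a + 2) := by
      ext c
      simp only [Finset.mem_Icc, Finset.mem_union, Finset.mem_Ioc]
      omega
    have d1 : Disjoint (Finset.Icc (b - (a : ℤ) - 2) (b + a)) (Finset.Ioc (b + (a : ℤ)) (b + a + 2)) := by
      rw [Finset.disjoint_left]
      intro c hc hc'
      rw [Finset.mem_Icc] at hc
      rw [Finset.mem_Ioc] at hc'
      omega
    have d2 : Disjoint (Finset.Icc (b - (a : ℤ)) (b + a)) (Finset.Ioc (b + (a : ℤ)) (b + a + 2)) := by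
      rw [Finset.disjoint_left]
      intro c hc hc'
      rw [Finset.mem_Icc] at hc
      rw [Finset.mem_Ioc] at hc'
      omega
    rw [u1, u2, Finset.sum_union d1, Finset.sum_union d2]
    ring

/-- Clebsch-Gordan for natural numbers -/
lemma cg_nat (a b : ℕ) (x : ℝ) : s (2 * (a : ℤ)) x * s (2 * (b : ℤ)) x =
    ∑ c ∈ Finset.Icc (max a b - min a b) (a + b), s (2 * (c : ℤ)) x := by
  have key : ∀ a b : ℕ, a ≤ b → s (2 * (a : ℤ)) x * s (2 * (b : ℤ)) x =
      ∑ c ∈ Finset.Icc (b - a) (b + a), s (2 * (c : ℤ)) x := by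
    intro a b hab
    rw [cg a b x]
    refine (Finset.sum_nbij (fun c : ℕ => (c : ℤ)) ?_ ?_ ?_ ?_).symm
    · intro c hc
      rw [Finset.mem_Icc] at hc ⊢
      omega
    · intro c _ d _ h
      have h' : (c : ℤ) = (d : ℤ) := h
      exact_mod_cast h' 
    · intro c hc
      rw [Finset.mem_coe, Finset.mem_Icc] at hc
      refine ⟨c.toNat, ?_, ?_⟩
      · rw [Finset.mem_coe, Finset.mem_Icc]
        omega
      · show ((c.toNat : ℕ) : ℤ) = c
        omega
    · intro c _
      rfl
  rcases le_total a b with h | h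
  · rw [key a b h, max_eq_right h, min_eq_left h, add_comm a b]
  · rw [mul_comm, key b a h, max_eq_left h, min_eq_right h]

end P1

end

end Pool.Agent.XE31
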