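import Pool.Agent.XE31.P1

/-!
# Nonnegative expansions of the powers of the test function
-/

set_option autoImplicit false
set_option linter.all false

namespace Pool.Agent.XE31

noncomputable section

namespace P2

open P1

/-- nonnegative expansions -/
structure PE (q : ℝ → ℝ) (D : ℕ) (W : ℝ) (c : ℕ → ℝ) : Prop where
  nonneg : ∀ j, 0 ≤ c j
  zero : ∀ j, D < j → c j = 0
  sum : ∑ j ∈ Finset.range (D + 1), c j ≤ W
  eq : ∀ x, q x = ∑ j ∈ Finset.range (D + 1), c j * s (2 * (j : ℤ)) x

/-- the indicator -/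
def ind (a b i : ℕ) : ℝ := if i ∈ Finset.Icc (max a b - min a b) (a + b) then 1 else 0

lemma ind_nonneg (a b i : ℕ) : 0 ≤ ind a b i := by
  unfold ind
  split_ifs <;> norm_num

lemma ind_sum (a b n : ℕ) (hn : a + b ≤ n) (g : ℕ → ℝ) : ∑ i ∈ Finset.range (n + 1), ind a b i * g i =
    ∑ i ∈ Finset.Icc (max a b - min a b) (a + b), g i := by
  unfold ind
  have h : ∀ i, (if i ∈ Finset.Icc (max a b - min a b) (a + b) then (1 : ℝ) else 0) * g i =
      if i ∈ Finset.Icc (max a b - min a b) (a + b) then g i else 0 := by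
    intro i
    split_ifs <;> simp
  simp only [h]
  rw [← Finset.sum_filter]
  congr 1
  ext i
  simp only [Finset.mem_filter, Finset.mem_range, Finset.mem_Icc]
  omega

lemma card_ind (a b n : ℕ) (hn : a + b ≤ n) : ∑ i ∈ Finset.range (n + 1), ind a b i ≤ 2 * a + 1 := by
  have h := ind_sum a b n hn (fun _ => 1)
  simp only [mul_one] at h
  rw [h, Finset.sum_const, nsmul_eq_mul, mul_one, Nat.card_Icc]
  have : a + b + 1 - (max a b - min a b) ≤ 2 * a + 1 := by omega
  exact_mod_cast this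

lemma sum_odd (K : ℕ) : ∑ a ∈ Finset.Icc 1 K, (2 * (a : ℝ) + 1) = ((K : ℝ) + 1) ^ 2 - 1 := by
  induction K with
  | zero => simp
  | succ K ih =>
    rw [Finset.sum_Icc_succ_top (by omega), ih]
    push_cast
    ring

lemma PE_mul {q : ℝ → ℝ} {D : ℕ} {W : ℝ} {c : ℕ → ℝ} (h : PE q D W c) (K : ℕ) :
    ∃ c', PE (fun x => F K x * q x) (D + K) ((((K : ℝ) + 1) ^ 2 - 1) * W) c' := by
  refine ⟨fun i => ∑ a ∈ Finset.Icc 1 K, ∑ b ∈ Finset.range (D + 1), c b * ind a b i, ?_, ?_, ?_, ?_⟩
  · intro j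
    exact Finset.sum_nonneg fun a _ => Finset.sum_nonneg fun b _ =>
      mul_nonneg (h.nonneg b) (ind_nonneg a b j)
  · intro j hj
    refine Finset.sum_eq_zero fun a ha => Finset.sum_eq_zero fun b hb => ?_
    rw [Finset.mem_Icc] at ha
    rw [Finset.mem_range] at hb
    have : ind a b j = 0 := by
      unfold ind
      rw [if_neg]
      rw [Finset.mem_Icc]
      omega
    rw [this, mul_zero]
  · rw [Finset.sum_comm]
    have h1 : ∀ a ∈ Finset.Icc 1 K, ∑ i ∈ Finset.range (D + K + 1), ∑ b ∈ Finset.range (D + 1),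
        c b * ind a b i ≤ (2 * (a : ℝ) + 1) * W := by
      intro a ha
      rw [Finset.mem_Icc] at ha
      rw [Finset.sum_comm]
      have h2 : ∀ b ∈ Finset.range (D + 1), ∑ i ∈ Finset.range (D + K + 1), c b * ind a b i ≤
          c b * (2 * (a : ℝ) + 1) := by
        intro b hb
        rw [Finset.mem_range] at hb
        rw [← Finset.mul_sum]
        exact mul_le_mul_of_nonneg_left (card_ind a b (D + K) (by omega)) (h.nonneg b)
      refine (Finset.sum_le_sum h2).trans ?_
      rw [← Finset.sum_mul, mul_comm]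
      exact mul_le_mul_of_nonneg_left h.sum (by positivity)
    refine (Finset.sum_le_sum h1).trans ?_
    rw [← Finset.sum_mul, sum_odd]
  · intro x
    show F K x * q x = _
    rw [h.eq x]
    unfold F
    rw [Finset.sum_mul_sum]
    have h1 : ∀ i ∈ Finset.range (D + K + 1), (∑ a ∈ Finset.Icc 1 K, ∑ b ∈ Finset.range (D + 1),
        c b * ind a b i) * s (2 * (i : ℤ)) x = ∑ a ∈ Finset.Icc 1 K, ∑ b ∈ Finset.range (D + 1),
        c b * (ind a b i * s (2 * (i : ℤ)) x) := by
      intro i _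
      rw [Finset.sum_mul]
      refine Finset.sum_congr rfl fun a _ => ?_
      rw [Finset.sum_mul]
      refine Finset.sum_congr rfl fun b _ => ?_
      ring
    symm
    rw [Finset.sum_congr rfl h1, Finset.sum_comm]
    refine Finset.sum_congr rfl fun a ha => ?_
    rw [Finset.sum_comm]
    refine Finset.sum_congr rfl fun b hb => ?_
    rw [Finset.mem_Icc] at ha
    rw [Finset.mem_range] at hb
    rw [← Finset.mul_sum, ind_sum a b (D + K) (by omega) (fun i => s (2 * (i : ℤ)) x),
      ← cg_nat a b x]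
    ring

lemma PE_zero (K : ℕ) : PE (fun x => F K x ^ 0) (K * 0) ((((K : ℝ) + 1) ^ 2 - 1) ^ 0)
    (fun j => if j = 0 then 1 else 0) := by
  refine ⟨?_, ?_, ?_, ?_⟩
  · intro j
    split_ifs <;> norm_num
  · intro j hj
    rw [if_neg (by omega)]
  · simp
  · intro x
    simp [s_zero]

lemma PE_one (K : ℕ) : PE (fun x => F K x ^ 1) (K * 1) ((((K : ℝ) + 1) ^ 2 - 1) ^ 1)
    (fun j => if 1 ≤ j ∧ j ≤ K then 1 else 0) := by
  have hf : (Finset.range (K * 1 + 1)).filter (fun j => 1 ≤ j ∧ j ≤ K) = Finset.Icc 1 K := by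
    ext j
    simp only [Finset.mem_filter, Finset.mem_range, Finset.mem_Icc]
    omega
  refine ⟨?_, ?_, ?_, ?_⟩
  · intro j
    split_ifs <;> norm_num
  · intro j hj
    rw [if_neg (by omega)]
  · rw [← Finset.sum_filter, hf, Finset.sum_const, Nat.card_Icc, nsmul_eq_mul]
    simp only [Nat.add_sub_cancel, mul_one, pow_one]
    have : (0 : ℝ) ≤ K := Nat.cast_nonneg K
    nlinarith
  · intro x
    simp only [pow_one]
    unfold F
    have h : ∀ j ∈ Finset.range (K * 1 + 1), (if 1 ≤ j ∧ j ≤ K then (1 : ℝ) else 0) *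
        s (2 * (j : ℤ)) x = if 1 ≤ j ∧ j ≤ K then s (2 * (j : ℤ)) x else 0 := by
      intro j _
      split_ifs <;> simp
    rw [Finset.sum_congr rfl h, ← Finset.sum_filter, hf]

/-- the coefficients of the powers of the test function -/
theorem coeffs (K : ℕ) : ∃ c : ℕ → ℕ → ℝ, (∀ e, PE (fun x => F K x ^ e) (K * e)
      ((((K : ℝ) + 1) ^ 2 - 1) ^ e) (c e)) ∧ (∀ j, c 0 j = if j = 0 then 1 else 0) ∧
      ∀ j, c 1 j = if 1 ≤ j ∧ j ≤ K then 1 else 0 := by
  have h1 : ∀ e, ∃ c, PE (fun x => F K x ^ e) (K * e) ((((K : ℝ) + 1) ^ 2 - 1) ^ e) c := by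
    intro e
    induction e with
    | zero => exact ⟨_, PE_zero K⟩
    | succ e ih =>
      obtain ⟨c, hc⟩ := ih
      obtain ⟨c', hc'⟩ := PE_mul hc K
      refine ⟨c', ?_⟩
      have e1 : (fun x => F K x ^ (e + 1)) = fun x => F K x * F K x ^ e := by
        funext x
        rw [pow_succ]
        ring
      have e2 : (((K : ℝ) + 1) ^ 2 - 1) ^ (e + 1) =
          (((K : ℝ) + 1) ^ 2 - 1) * (((K : ℝ) + 1) ^ 2 - 1) ^ e := by
        rw [pow_succ]
        ring
      rw [e1, e2, Nat.mul_succ]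
      exact hc'
  choose c hc using h1
  refine ⟨fun e => if e = 0 then (fun j => if j = 0 then 1 else 0) else if e = 1 then
    (fun j => if 1 ≤ j ∧ j ≤ K then 1 else 0) else c e, ?_, ?_, ?_⟩
  · intro e
    rcases Nat.lt_or_ge e 2 with h | h
    · interval_cases e
      · simp only [if_true]
        exact PE_zero K
      · simp only [one_ne_zero, if_false, if_true]
        exact PE_one K
    · simp only [if_neg (show e ≠ 0 by omega), if_neg (show e ≠ 1 by omega)]
      exact hc e
  · intro j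
    simp only [if_true]
  · intro j
    simp only [one_ne_zero, if_false, if_true]

end P2

end

end Pool.Agent.XE31
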