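import Pool.Agent.XE31.P2
import Mathlib.Data.Nat.Choose.Multinomial

/-!
# High moments of sums over several primes
-/

set_option autoImplicit false
set_option linter.all false

namespace Pool.Agent.XE31

noncomputable section

namespace P3

open P1 P2 Finset

variable {ι : Type} [Fintype ι] [DecidableEq ι]

/-- all the exponent vectors -/
def box (ι : Type) [Fintype ι] [DecidableEq ι] (R : ℕ) : Finset (ι → ℕ) :=
  Fintype.piFinset fun _ => range (R + 1)

/-- the exponents in the multinomial theorem -/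
def An (ι : Type) [Fintype ι] [DecidableEq ι] (r : ℕ) : Finset (ι → ℕ) := piAntidiag univ r

/-- the multinomial coefficients -/
def mult (e : ι → ℕ) : ℝ := (Nat.multinomial univ e : ℕ)

lemma mult_nonneg (e : ι → ℕ) : 0 ≤ mult e := Nat.cast_nonneg _

lemma An_sum {r : ℕ} {e : ι → ℕ} (he : e ∈ An ι r) : ∑ t, e t = r := by
  unfold An at he
  rw [mem_piAntidiag] at he
  exact he.1

lemma An_le {r : ℕ} {e : ι → ℕ} (he : e ∈ An ι r) (t : ι) : e t ≤ r := by
  rw [← An_sum he]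
  exact single_le_sum (f := e) (fun _ _ => Nat.zero_le _) (mem_univ t)

lemma An_sub {r : ℕ} : An ι r ⊆ box ι r := by
  intro e he
  unfold box
  rw [Fintype.mem_piFinset]
  intro t
  rw [mem_range]
  have := An_le he t
  omega

/-- the coefficients -/
def av (c : ℕ → ℕ → ℝ) (r : ℕ) (v : ι → ℕ) : ℝ := ∑ e ∈ An ι r, mult e * ∏ t, c (e t) (v t)

variable {K r : ℕ} {c : ℕ → ℕ → ℝ}

lemma av_nonneg (hc : ∀ e j, 0 ≤ c e j) (v : ι → ℕ) : 0 ≤ av c r v := by
  unfold av
  exact sum_nonneg fun e _ => mul_nonneg (mult_nonneg e) (prod_nonneg fun t _ => hc _ _)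

lemma av_zero (hc : ∀ e j, K * e < j → c e j = 0) (v : ι → ℕ) (hv : K * r < ∑ t, v t) :
    av c r v = 0 := by
  unfold av
  refine sum_eq_zero fun e he => ?_
  have h : ∃ t, K * e t < v t := by
    by_contra hcon
    push Not at hcon
    have h1 : ∑ t, v t ≤ ∑ t, K * e t := sum_le_sum fun t _ => hcon t
    rw [← mul_sum, An_sum he] at h1
    omega
  obtain ⟨t, ht⟩ := h
  rw [prod_eq_zero (mem_univ t) (hc _ _ ht), mul_zero]

lemma ext_sum {g : ℕ → ℝ} {D R : ℕ} (hD : D ≤ R) (hg : ∀ j, D < j → g j = 0) :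
    ∑ j ∈ range (D + 1), g j = ∑ j ∈ range (R + 1), g j := by
  refine sum_subset (range_subset_range.2 (by omega)) fun j _ hj => ?_
  rw [mem_range] at hj
  exact hg j (by omega)

/-- the multinomial expansion -/
theorem expand (hc : ∀ e, PE (fun x => F K x ^ e) (K * e) ((((K : ℝ) + 1) ^ 2 - 1) ^ e) (c e))
    (x : ι → ℝ) : (∑ t, F K (x t)) ^ r = ∑ v ∈ box ι (K * r), av c r v * ∏ t, s (2 * (v t : ℤ)) (x t) := by
  rw [sum_pow_eq_sum_piAntidiag]
  have h1 : ∀ e ∈ An ι r, ∏ t, F K (x t) ^ e t =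
      ∑ v ∈ box ι (K * r), (∏ t, c (e t) (v t)) * ∏ t, s (2 * (v t : ℤ)) (x t) := by
    intro e he
    have h2 : ∀ t, F K (x t) ^ e t = ∑ j ∈ range (K * r + 1), c (e t) j * s (2 * (j : ℤ)) (x t) := by
      intro t
      rw [(hc (e t)).eq (x t)]
      refine ext_sum (Nat.mul_le_mul_left K (An_le he t)) fun j hj => ?_
      rw [(hc (e t)).zero j hj, zero_mul]
    rw [prod_congr rfl fun t _ => h2 t, prod_univ_sum]
    refine sum_congr rfl fun v _ => ?_
    rw [prod_mul_distrib]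
  unfold av
  have h3 : ∀ v ∈ box ι (K * r), (∑ e ∈ An ι r, mult e * ∏ t, c (e t) (v t)) *
      ∏ t, s (2 * (v t : ℤ)) (x t) = ∑ e ∈ An ι r, mult e * ((∏ t, c (e t) (v t)) *
      ∏ t, s (2 * (v t : ℤ)) (x t)) := by
    intro v _
    rw [sum_mul]
    exact sum_congr rfl fun e _ => by ring
  rw [sum_congr rfl h3, sum_comm]
  refine sum_congr rfl fun e he => ?_
  rw [← mul_sum, ← h1 e he]
  rfl

/-- the sum of the coefficients -/
theorem av_sum (hc : ∀ e, PE (fun x => F K x ^ e) (K * e) ((((K : ℝ) + 1) ^ 2 - 1) ^ e) (c e)) :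
    ∑ v ∈ box ι (K * r), av c r v ≤ ((Fintype.card ι : ℝ) * (((K : ℝ) + 1) ^ 2 - 1)) ^ r := by
  unfold av
  rw [sum_comm]
  have h1 : ∀ e ∈ An ι r, ∑ v ∈ box ι (K * r), mult e * ∏ t, c (e t) (v t) ≤
      mult e * ∏ t : ι, (((K : ℝ) + 1) ^ 2 - 1) ^ e t := by
    intro e he
    rw [← mul_sum]
    refine mul_le_mul_of_nonneg_left ?_ (mult_nonneg e)
    unfold box
    rw [← prod_univ_sum (fun _ => range (K * r + 1)) (fun t j => c (e t) j)]
    refine prod_le_prod (fun t _ => sum_nonneg fun j _ => (hc _).nonneg j) fun t _ => ?_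
    refine le_trans (le_of_eq ?_) (hc (e t)).sum
    exact (ext_sum (Nat.mul_le_mul_left K (An_le he t)) (hc (e t)).zero).symm
  refine (sum_le_sum h1).trans (le_of_eq ?_)
  have h2 := sum_pow_eq_sum_piAntidiag (univ : Finset ι) (fun _ => (((K : ℝ) + 1) ^ 2 - 1)) r
  rw [sum_const, nsmul_eq_mul] at h2
  rw [← card_univ, h2]
  rfl

/-- the local factors -/
def MM (c : ℕ → ℕ → ℝ) (R : ℕ) (κ : ℕ → ℕ → ℝ) (a b : ℕ) : ℝ :=
  ∑ j ∈ range (R + 1), ∑ l ∈ range (R + 1), c a j * c b l * κ j l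

/-- the quadratic form -/
theorem quad (κ : ι → ℕ → ℕ → ℝ) (R : ℕ) :
    ∑ v ∈ box ι R, ∑ v' ∈ box ι R, av c r v * av c r v' * ∏ t, κ t (v t) (v' t) =
      ∑ e ∈ An ι r, ∑ e' ∈ An ι r, mult e * mult e' * ∏ t, MM c R (κ t) (e t) (e' t) := by
  have h1 : ∀ e e' : ι → ℕ, ∏ t, MM c R (κ t) (e t) (e' t) = ∑ v ∈ box ι R, ∑ v' ∈ box ι R,
      (∏ t, c (e t) (v t)) * (∏ t, c (e' t) (v' t)) * ∏ t, κ t (v t) (v' t) := by
    intro e e'
    unfold MM
    rw [prod_univ_sum]
    refine sum_congr rfl fun v _ => ?_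
    rw [prod_univ_sum]
    refine sum_congr rfl fun v' _ => ?_
    rw [prod_mul_distrib, prod_mul_distrib]
  have h2 : ∀ v v' : ι → ℕ, av c r v * av c r v' * ∏ t, κ t (v t) (v' t) =
      ∑ e ∈ An ι r, ∑ e' ∈ An ι r, mult e * mult e' * ((∏ t, c (e t) (v t)) *
        (∏ t, c (e' t) (v' t)) * ∏ t, κ t (v t) (v' t)) := by
    intro v v'
    unfold av
    rw [sum_mul_sum, sum_mul]
    refine sum_congr rfl fun e _ => ?_
    rw [sum_mul]
    refine sum_congr rfl fun e' _ => ?_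
    ring
  have h3 : ∀ v ∈ box ι R, ∑ v' ∈ box ι R, av c r v * av c r v' * ∏ t, κ t (v t) (v' t) =
      ∑ e ∈ An ι r, ∑ e' ∈ An ι r, ∑ v' ∈ box ι R, mult e * mult e' * ((∏ t, c (e t) (v t)) *
        (∏ t, c (e' t) (v' t)) * ∏ t, κ t (v t) (v' t)) := by
    intro v _
    rw [sum_congr rfl fun v' _ => h2 v v', sum_comm]
    refine sum_congr rfl fun e _ => ?_
    rw [sum_comm]
  rw [sum_congr rfl h3, sum_comm]
  refine sum_congr rfl fun e _ => ?_
  rw [sum_comm]
  refine sum_congr rfl fun e' _ => ?_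
  rw [h1, mul_sum]
  refine sum_congr rfl fun v _ => ?_
  rw [mul_sum]

/-- the local generating function -/
def ph (r : ℕ) (M : ℕ → ℕ → ℝ) (z : ℝ) : ℝ :=
  ∑ a ∈ range (r + 1), ∑ b ∈ range (r + 1), M a b * (z ^ a / a.factorial * (z ^ b / b.factorial))

/-- the bound by generating functions -/
theorem gen (M : ι → ℕ → ℕ → ℝ) (hM : ∀ t a b, 0 ≤ M t a b) {z : ℝ} (hz : 0 < z) :
    (∑ e ∈ An ι r, ∑ e' ∈ An ι r, mult e * mult e' * ∏ t, M t (e t) (e' t)) * z ^ (2 * r) ≤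
      (r.factorial : ℝ) ^ 2 * ∏ t, ph r (M t) z := by
  have hmult : ∀ e ∈ An ι r, mult e = (r.factorial : ℝ) * ∏ t, ((e t).factorial : ℝ)⁻¹ := by
    intro e he
    have h := Nat.multinomial_spec (univ : Finset ι) e
    rw [An_sum he] at h
    have h2 : (∏ t, ((e t).factorial : ℝ)) * mult e = r.factorial := by
      unfold mult
      rw [← h]
      push_cast
      rfl
    have h3 : (∏ t, ((e t).factorial : ℝ)) ≠ 0 :=
      prod_ne_zero_iff.2 fun t _ => by positivity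
    rw [prod_inv_distrib, ← h2]
    field_simp
  have hzp : ∀ e ∈ An ι r, z ^ r = ∏ t, z ^ e t := by
    intro e he
    rw [prod_pow_eq_pow_sum, An_sum he]
  have h1 : ∀ e ∈ An ι r, ∀ e' ∈ An ι r, mult e * mult e' * (∏ t, M t (e t) (e' t)) * z ^ (2 * r) =
      (r.factorial : ℝ) ^ 2 * ∏ t, (M t (e t) (e' t) * (z ^ (e t) / (e t).factorial *
        (z ^ (e' t) / (e' t).factorial))) := by
    intro e he e' he'
    rw [hmult e he, hmult e' he', two_mul, pow_add]
    conv_lhs => rw [hzp e he]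
    have : ∏ t, z ^ e t = z ^ r := (hzp e he).symm
    rw [prod_mul_distrib, prod_mul_distrib, prod_div_distrib, prod_div_distrib,
      ← hzp e he, ← hzp e' he', prod_inv_distrib, prod_inv_distrib]
    field_simp
  rw [sum_mul]
  have h2 : ∀ e ∈ An ι r, (∑ e' ∈ An ι r, mult e * mult e' * ∏ t, M t (e t) (e' t)) * z ^ (2 * r) =
      (r.factorial : ℝ) ^ 2 * ∑ e' ∈ An ι r, ∏ t, (M t (e t) (e' t) * (z ^ (e t) /
        (e t).factorial * (z ^ (e' t) / (e' t).factorial))) := by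
    intro e he
    rw [sum_mul, mul_sum]
    exact sum_congr rfl fun e' he' => h1 e he e' he'
  rw [sum_congr rfl h2, ← mul_sum]
  refine mul_le_mul_of_nonneg_left ?_ (by positivity)
  have hpos : ∀ e e' : ι → ℕ, 0 ≤ ∏ t, (M t (e t) (e' t) * (z ^ (e t) / (e t).factorial *
        (z ^ (e' t) / (e' t).factorial))) := by
    intro e e'
    refine prod_nonneg fun t _ => ?_
    have := hM t (e t) (e' t)
    positivity
  have h3 : ∏ t, ph r (M t) z = ∑ e ∈ box ι r, ∑ e' ∈ box ι r, ∏ t, (M t (e t) (e' t) *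
      (z ^ (e t) / (e t).factorial * (z ^ (e' t) / (e' t).factorial))) := by
    unfold ph
    rw [prod_univ_sum]
    refine sum_congr rfl fun e _ => ?_
    rw [prod_univ_sum]
    rfl
  rw [h3]
  refine (sum_le_sum fun e _ => sum_le_sum_of_subset_of_nonneg An_sub fun e' _ _ => hpos e e').trans ?_
  exact sum_le_sum_of_subset_of_nonneg An_sub fun e _ _ => sum_nonneg fun e' _ => hpos e e'

end P3

end

end Pool.Agent.XE31
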