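import Pool.Agent.XE31.R2

/-!
# Forms which are not tempered at a prime
-/

set_option autoImplicit false
set_option linter.all false

open UpperHalfPlane MeasureTheory Metric ModularGroup CongruenceSubgroup
open scoped MatrixGroups ENNReal Modular Topology NNReal

namespace Pool.Agent.XE31

open Pool.Agent.H369R2 Pool.Agent.N799.DT

noncomputable section

namespace R3

open H4 H9 R2

/-- the eigenvalue of the Hecke operator `T_{p^j}` divided by `p ^ j` -/
def U (β : ℝ) (j : ℕ) : ℝ := ∑ l ∈ Finset.Icc (-(j : ℤ)) j, β ^ l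

lemma geom_le {p : ℕ} (hp : 2 ≤ p) (k : ℕ) : ∑ i ∈ Finset.range (k + 1), p ^ i ≤ 2 * p ^ k := by
  induction k with
  | zero => simp
  | succ k ih =>
    rw [Finset.sum_range_succ]
    have : 2 * p ^ k ≤ p ^ (k + 1) := by
      rw [pow_succ]
      nlinarith [Nat.pos_of_ne_zero (pow_ne_zero k (by omega : p ≠ 0))]
    omega

lemma sg_pow {p : ℕ} (hp : p.Prime) (j : ℕ) : sg (p ^ j) ≤ 2 * p ^ (2 * j) := by
  unfold sg
  have h : (p ^ j) ^ 2 = p ^ (2 * j) := by rw [← pow_mul, mul_comm]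
  rw [h, Nat.sum_divisors_prime_pow hp]
  exact geom_le hp.two_le (2 * j)

lemma half_sum (j n : ℕ) : ∑ l ∈ Finset.range n, (1 / 2 : ℝ) ^ (max j l - min j l) ≤ 3 := by
  have key : ∀ n, (n ≤ j + 1 → ∑ l ∈ Finset.range n, (1 / 2 : ℝ) ^ (max j l - min j l) ≤
      2 * (1 / 2) ^ (j + 1 - n)) ∧ (j + 1 ≤ n → ∑ l ∈ Finset.range n,
        (1 / 2 : ℝ) ^ (max j l - min j l) ≤ 3 - (1 / 2) ^ (n - (j + 1))) := by
    intro n
    induction n with
    | zero =>
      refine ⟨fun _ => ?_, fun h => by omega⟩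
      simp
    | succ n ih =>
      obtain ⟨h1, h2⟩ := ih
      constructor
      · intro h
        rw [Finset.sum_range_succ]
        have h3 := h1 (by omega)
        have e1 : max j n - min j n = j - n := by omega
        have e2 : j + 1 - n = (j - n) + 1 := by omega
        have e3 : j + 1 - (n + 1) = j - n := by omega
        rw [e2, pow_succ] at h3
        rw [e1, e3]
        linarith
      · intro h
        rw [Finset.sum_range_succ]
        rcases Nat.lt_or_ge j n with h3 | h3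
        · have h4 := h2 (by omega)
          have e1 : max j n - min j n = (n - (j + 1)) + 1 := by omega
          have e2 : n + 1 - (j + 1) = (n - (j + 1)) + 1 := by omega
          rw [e1, e2, pow_succ]
          linarith
        · have h5 : n = j := by omega
          subst h5
          have h4 := h1 (by omega)
          have e1 : n + 1 - n = 1 := by omega
          rw [e1] at h4
          simp only [max_self, min_self, Nat.sub_self, pow_zero]
          linarith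
  rcases Nat.lt_or_ge n (j + 1) with h | h
  · have h1 := (key n).1 (by omega)
    have h2 : (1 / 2 : ℝ) ^ (j + 1 - n) ≤ 1 := pow_le_one₀ (by norm_num) (by norm_num)
    linarith
  · have h1 := (key n).2 h
    have h2 : 0 < (1 / 2 : ℝ) ^ (n - (j + 1)) := by positivity
    linarith

/-- the powers of a prime -/
def PM (p J : ℕ) : Finset ℕ := (Finset.range (J + 1)).image (fun j => p ^ j)

lemma PM_sum {E : Type} [AddCommMonoid E] {p : ℕ} (hp : p.Prime) (J : ℕ) (F : ℕ → E) :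
    ∑ m ∈ PM p J, F m = ∑ j ∈ Finset.range (J + 1), F (p ^ j) := by
  unfold PM
  rw [Finset.sum_image]
  intro a _ b _ h
  exact Nat.pow_right_injective hp.two_le h

lemma SG_PM {p : ℕ} (hp : p.Prime) (J : ℕ) : SG (PM p J) ≤ 6 * (J + 1) := by
  unfold SG
  rw [PM_sum hp]
  have h1 : ∀ j ∈ Finset.range (J + 1), ∑ m' ∈ PM p J, (sg (Nat.gcd (p ^ j) m') : ℝ) /
      (((p ^ j : ℕ) : ℝ) * m') ≤ 6 := by
    intro j _
    rw [PM_sum hp]
    have h2 : ∀ l ∈ Finset.range (J + 1), (sg (Nat.gcd (p ^ j) (p ^ l)) : ℝ) /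
        (((p ^ j : ℕ) : ℝ) * ((p ^ l : ℕ) : ℝ)) ≤ 2 * (1 / 2 : ℝ) ^ (max j l - min j l) := by
      intro l _
      have hg : Nat.gcd (p ^ j) (p ^ l) = p ^ (min j l) := by
        rcases le_total j l with h | h
        · rw [min_eq_left h, Nat.gcd_eq_left (pow_dvd_pow p h)]
        · rw [min_eq_right h, Nat.gcd_eq_right (pow_dvd_pow p h)]
      have h3 : (sg (p ^ (min j l)) : ℝ) ≤ 2 * (p : ℝ) ^ (2 * min j l) := by
        exact_mod_cast sg_pow hp (min j l)
      have hp2 : (2 : ℝ) ≤ p := by exact_mod_cast hp.two_le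
      have hp0 : (0 : ℝ) < p := by linarith
      rw [hg]
      push_cast
      rw [div_le_iff₀ (by positivity), ← pow_add]
      refine h3.trans ?_
      have e1 : j + l = 2 * min j l + (max j l - min j l) := by omega
      rw [e1, pow_add, one_div, inv_pow]
      have h4 : (2 : ℝ) ^ (max j l - min j l) ≤ (p : ℝ) ^ (max j l - min j l) :=
        pow_le_pow_left₀ (by norm_num) hp2 _
      have h5 : 1 ≤ ((2 : ℝ) ^ (max j l - min j l))⁻¹ * (p : ℝ) ^ (max j l - min j l) := by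
        rw [inv_mul_eq_div, le_div_iff₀ (by positivity), one_mul]
        exact h4
      have h6 : 0 ≤ 2 * (p : ℝ) ^ (2 * min j l) := by positivity
      calc 2 * (p : ℝ) ^ (2 * min j l) ≤ 2 * (p : ℝ) ^ (2 * min j l) *
            (((2 : ℝ) ^ (max j l - min j l))⁻¹ * (p : ℝ) ^ (max j l - min j l)) :=
            le_mul_of_one_le_right h6 h5
        _ = _ := by ring
    refine (Finset.sum_le_sum h2).trans ?_
    rw [← Finset.mul_sum]
    have := half_sum j (J + 1)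
    linarith
  refine (Finset.sum_le_sum h1).trans ?_
  rw [Finset.sum_const, Finset.card_range, nsmul_eq_mul]
  push_cast
  linarith

lemma U_lower {β : ℝ} (hβ : 1 ≤ β) (j : ℕ) : ((j : ℝ) + 1) / 2 * β ^ ((j : ℝ) / 2) ≤ U β j := by
  unfold U
  have h0 : (0 : ℝ) < β := by linarith
  have hsub : Finset.Icc (((j + 1) / 2 : ℕ) : ℤ) j ⊆ Finset.Icc (-(j : ℤ)) j := by
    apply Finset.Icc_subset_Icc_left
    omega
  have h1 : ∑ l ∈ Finset.Icc (((j + 1) / 2 : ℕ) : ℤ) j, β ^ l ≤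
      ∑ l ∈ Finset.Icc (-(j : ℤ)) j, β ^ l :=
    Finset.sum_le_sum_of_subset_of_nonneg hsub fun l _ _ => (zpow_pos h0 l).le
  refine le_trans ?_ h1
  have h2 : ∀ l ∈ Finset.Icc (((j + 1) / 2 : ℕ) : ℤ) j, β ^ ((j : ℝ) / 2) ≤ β ^ l := by
    intro l hl
    rw [Finset.mem_Icc] at hl
    rw [← Real.rpow_intCast]
    apply Real.rpow_le_rpow_of_exponent_le hβ
    have h3 : (j : ℤ) ≤ 2 * l := by omega
    have h4 : (j : ℝ) ≤ 2 * l := by exact_mod_cast h3
    linarith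
  have h3 := Finset.sum_le_sum h2
  rw [Finset.sum_const, nsmul_eq_mul, Int.card_Icc] at h3
  refine le_trans ?_ h3
  apply mul_le_mul_of_nonneg_right _ (by positivity)
  have h5 : (j + 1) ≤ 2 * ((j : ℤ) + 1 - (((j + 1) / 2 : ℕ) : ℤ)).toNat := by omega
  have h6 : ((j : ℝ) + 1) ≤ 2 * ((((j : ℤ) + 1 - (((j + 1) / 2 : ℕ) : ℤ)).toNat : ℕ) : ℝ) := by
    exact_mod_cast h5
  linarith

lemma sumU_lower {β : ℝ} (hβ : 1 ≤ β) (J : ℕ) :
    ((J : ℝ) + 1) ^ 2 / 8 * β ^ ((J : ℝ) / 4) ≤ ∑ j ∈ Finset.range (J + 1), U β j := by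
  have h0 : (0 : ℝ) < β := by linarith
  have hU : ∀ j, 0 ≤ U β j := fun j => Finset.sum_nonneg fun l _ => (zpow_pos h0 l).le
  have hsub : Finset.Icc ((J + 1) / 2) J ⊆ Finset.range (J + 1) := by
    intro x hx
    rw [Finset.mem_Icc] at hx
    rw [Finset.mem_range]
    omega
  refine le_trans ?_ (Finset.sum_le_sum_of_subset_of_nonneg hsub fun j _ _ => hU j)
  have h2 : ∀ j ∈ Finset.Icc ((J + 1) / 2) J, ((J : ℝ) + 1) / 4 * β ^ ((J : ℝ) / 4) ≤ U β j := by
    intro j hj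
    rw [Finset.mem_Icc] at hj
    refine le_trans ?_ (U_lower hβ j)
    have h3 : J ≤ 2 * j := by omega
    have h4 : (J : ℝ) ≤ 2 * j := by exact_mod_cast h3
    apply mul_le_mul
    · linarith
    · apply Real.rpow_le_rpow_of_exponent_le hβ
      linarith
    · positivity
    · positivity
  have h3 := Finset.sum_le_sum h2
  rw [Finset.sum_const, nsmul_eq_mul, Nat.card_Icc] at h3
  refine le_trans ?_ h3
  have h5 : (J + 1) ≤ 2 * (J + 1 - (J + 1) / 2) := by omega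
  have h6 : ((J : ℝ) + 1) ≤ 2 * ((J + 1 - (J + 1) / 2 : ℕ) : ℝ) := by exact_mod_cast h5
  calc ((J : ℝ) + 1) ^ 2 / 8 * β ^ ((J : ℝ) / 4) =
      ((J : ℝ) + 1) / 2 * (((J : ℝ) + 1) / 4 * β ^ ((J : ℝ) / 4)) := by ring
    _ ≤ ((J + 1 - (J + 1) / 2 : ℕ) : ℝ) * (((J : ℝ) + 1) / 4 * β ^ ((J : ℝ) / 4)) := by
        apply mul_le_mul_of_nonneg_right _ (by positivity)
        linarith

/-- the sum over the forms, for one prime -/
theorem prime_sum : ∃ C : ℝ, 0 < C ∧ ∀ (Γ : Subgroup SL(2, ℤ)) (N : ℕ), IsLevel Γ N →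
    ∀ T : ℝ, 1 ≤ T → ∀ p : ℕ, p.Prime → ¬ p ∣ N → ∀ J : ℕ,
    (p : ℝ) ^ (1000 * J) ≤ Γ.index * T →
    ∀ (k : ℕ) (κ : Fin k → ℝ) (f : Fin k → ℂ → ℂ), (∀ i, 0 ≤ κ i) → (∀ i, κ i ≤ T ^ 2) →
      (∀ i, FormK Γ (κ i) (f i)) → LinearIndependent ℂ (fun i => fun z : ℍ => f i z) →
      ∀ β : Fin k → ℝ, (∀ i, 1 ≤ β i) → (∀ i, ∀ j : ℕ, ∃ S : Finset MZ, Reps N (p ^ j) S ∧
        ∀ z : ℍ, ∑ g ∈ S, f i (mob g z) = (((p : ℝ) ^ j * U (β i) j : ℝ) : ℂ) * f i z) →
      ∑ i, β i ^ ((J : ℝ) / 2) ≤ C * Γ.index * T ^ 2 / (J + 1) ^ 3 := by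
  obtain ⟨C, hC, h⟩ := R2.main
  refine ⟨448 * C, by positivity, ?_⟩
  intro Γ N hN T hT p hp hpN J hJ k κ f hκ hκ2 hf hli β hβ hΛ
  have hp0 : 0 < p := hp.pos
  have hp1 : (1 : ℝ) ≤ p := by exact_mod_cast hp0
  have hcop : Nat.Coprime p N := (Nat.Prime.coprime_iff_not_dvd hp).2 hpN
  have hM : ∀ m ∈ PM p J, ∃ j, j ≤ J ∧ m = p ^ j := by
    intro m hm
    unfold PM at hm
    rw [Finset.mem_image] at hm
    obtain ⟨j, hj, rfl⟩ := hm
    rw [Finset.mem_range] at hj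
    exact ⟨j, by omega, rfl⟩
  have hn0 : (0 : ℝ) ≤ Γ.index * T := by positivity
  obtain ⟨Λ, hΛd⟩ : ∃ Λ : Fin k → ℕ → ℝ, ∀ i, ∀ j, Λ i (p ^ j) = U (β i) j := by
    refine ⟨fun i m => U (β i) (m.factorization p), fun i j => ?_⟩
    show U (β i) ((p ^ j).factorization p) = _
    rw [hp.factorization_pow]
    simp
  have h1 := h Γ N hN T hT (PM p J) (fun m hm => by
      obtain ⟨j, _, rfl⟩ := hM m hm
      exact pow_pos hp0 j) (fun m hm => by
      obtain ⟨j, _, rfl⟩ := hM m hm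
      exact hcop.pow_left j) (fun m hm => by
      obtain ⟨j, hj, rfl⟩ := hM m hm
      have e1 : (((p ^ j : ℕ) : ℝ)) ≤ (p : ℝ) ^ J := by
        push_cast
        exact pow_le_pow_right₀ hp1 hj
      refine e1.trans ?_
      have e2 : (p : ℝ) ^ J = ((p : ℝ) ^ (1000 * J)) ^ (1 / 1000 : ℝ) := by
        rw [← Real.rpow_natCast, ← Real.rpow_natCast, ← Real.rpow_mul (by positivity)]
        congr 1
        push_cast
        ring
      rw [e2]
      exact Real.rpow_le_rpow (by positivity) hJ (by norm_num)) k κ f hκ hκ2 hf hli Λ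
      (fun i m hm => by
        obtain ⟨j, hj, rfl⟩ := hM m hm
        obtain ⟨S, hS, hz⟩ := hΛ i j
        refine ⟨S, hS, fun z => ?_⟩
        rw [hz z, hΛd]
        push_cast
        rfl)
  have h2 : ∀ i, ∑ m ∈ PM p J, Λ i m = ∑ j ∈ Finset.range (J + 1), U (β i) j := by
    intro i
    rw [PM_sum hp]
    exact Finset.sum_congr rfl fun j _ => hΛd i j
  simp only [h2] at h1
  have hJ1 : (1 : ℝ) ≤ (J : ℝ) + 1 := by linarith [(Nat.cast_nonneg J : (0 : ℝ) ≤ J)]
  have h3 : ∀ i, ((J : ℝ) + 1) ^ 4 / 64 * β i ^ ((J : ℝ) / 2) ≤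
      (∑ j ∈ Finset.range (J + 1), U (β i) j) ^ 2 := by
    intro i
    have h0 : (0 : ℝ) < β i := by linarith [hβ i]
    have e1 := sumU_lower (hβ i) J
    have e2 := pow_le_pow_left₀ (by positivity) e1 2
    refine le_trans (le_of_eq ?_) e2
    have e3 : (β i ^ ((J : ℝ) / 4)) ^ 2 = β i ^ ((J : ℝ) / 2) := by
      rw [← Real.rpow_natCast, ← Real.rpow_mul h0.le]
      congr 1
      push_cast
      ring
    rw [mul_pow, e3]
    ring
  have h4 := (Finset.sum_le_sum fun i (_ : i ∈ Finset.univ) => h3 i).trans h1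
  rw [← Finset.mul_sum] at h4
  have h5 := SG_PM hp J
  have h6 : C * Γ.index * T ^ 2 * (SG (PM p J) + 1) ≤ C * Γ.index * T ^ 2 * (7 * (J + 1)) := by
    apply mul_le_mul_of_nonneg_left _ (by positivity)
    linarith
  have h7 := h4.trans h6
  rw [le_div_iff₀ (by positivity)]
  obtain ⟨X, hX⟩ : ∃ X, X = ∑ i, β i ^ ((J : ℝ) / 2) := ⟨_, rfl⟩
  rw [← hX] at h7 ⊢
  obtain ⟨Z, hZ⟩ : ∃ Z : ℝ, Z = (J : ℝ) + 1 := ⟨_, rfl⟩
  rw [← hZ] at h7 hJ1 ⊢
  have hZ0 : 0 < Z := by linarith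
  have h8 : Z * (X * Z ^ 3) ≤ Z * (448 * C * Γ.index * T ^ 2) := by
    calc Z * (X * Z ^ 3) = 64 * (Z ^ 4 / 64 * X) := by ring
      _ ≤ 64 * (C * Γ.index * T ^ 2 * (7 * Z)) := by linarith
      _ = _ := by ring
  exact le_of_mul_le_mul_left h8 hZ0

end R3

end

end Pool.Agent.XE31
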