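import Pool.Agent.XE31.P3
import Pool.Agent.XE31.H9
import Pool.Agent.XE31.R3

/-!
# High moments of sums over several primes, estimates
-/

set_option autoImplicit false
set_option linter.all false

namespace Pool.Agent.XE31

noncomputable section

namespace P4

open P1 P2 P3 H9 Finset

/-- the local weights -/
def kap (p j l : ℕ) : ℝ := (sg (p ^ (min j l)) : ℝ) / ((p : ℝ) ^ j * (p : ℝ) ^ l)

lemma kap_nonneg (p j l : ℕ) : 0 ≤ kap p j l := by
  unfold kap
  positivity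

lemma sg_one : sg 1 = 1 := by
  unfold sg
  simp

lemma kap_zero (p j : ℕ) : kap p j 0 = 1 / (p : ℝ) ^ j := by
  unfold kap
  rw [Nat.min_zero, pow_zero, sg_one, pow_zero, mul_one, Nat.cast_one]

lemma kap_comm (p j l : ℕ) : kap p j l = kap p l j := by
  unfold kap
  rw [min_comm, mul_comm]

lemma kap_le {p : ℕ} (hp : p.Prime) (j l : ℕ) : kap p j l ≤ 2 := by
  unfold kap
  have hp1 : (1 : ℝ) ≤ p := by exact_mod_cast hp.pos
  have hp0 : (0 : ℝ) < p := by linarith
  rw [div_le_iff₀ (by positivity), ← pow_add]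
  have h3 : (sg (p ^ (min j l)) : ℝ) ≤ 2 * (p : ℝ) ^ (2 * min j l) := by
    exact_mod_cast R3.sg_pow hp (min j l)
  refine h3.trans ?_
  apply mul_le_mul_of_nonneg_left _ (by norm_num)
  exact pow_le_pow_right₀ hp1 (by omega)

variable {K r : ℕ} {c : ℕ → ℕ → ℝ}

/-- the assumptions on the coefficients -/
structure CC (K : ℕ) (c : ℕ → ℕ → ℝ) : Prop where
  pe : ∀ e, PE (fun x => F K x ^ e) (K * e) ((((K : ℝ) + 1) ^ 2 - 1) ^ e) (c e)
  zero : ∀ j, c 0 j = if j = 0 then 1 else 0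
  one : ∀ j, c 1 j = if 1 ≤ j ∧ j ≤ K then 1 else 0

lemma MM_00 (h : CC K c) (p R : ℕ) : MM c R (kap p) 0 0 = 1 := by
  unfold MM
  rw [sum_eq_single 0, sum_eq_single 0]
  · rw [h.zero, if_pos rfl, kap_zero]
    simp
  · intro l _ hl
    rw [h.zero l, if_neg hl]
    simp
  · intro h0
    exact absurd (mem_range.2 (by omega)) h0
  · intro j _ hj
    refine sum_eq_zero fun l _ => ?_
    rw [h.zero j, if_neg hj]
    simp
  · intro h0
    exact absurd (mem_range.2 (by omega)) h0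

lemma MM_10 (h : CC K c) {p : ℕ} (hp : p.Prime) (R : ℕ) : MM c R (kap p) 1 0 ≤ (K : ℝ) / p := by
  unfold MM
  have hp1 : (1 : ℝ) ≤ p := by exact_mod_cast hp.pos
  have hp0 : (0 : ℝ) < p := by linarith
  have h1 : ∀ j ∈ range (R + 1), ∑ l ∈ range (R + 1), c 1 j * c 0 l * kap p j l ≤
      if 1 ≤ j ∧ j ≤ K then (1 : ℝ) / p else 0 := by
    intro j _
    rw [sum_eq_single 0]
    · rw [h.zero, if_pos rfl, kap_zero, h.one]
      split_ifs with h2
      · rw [one_mul, one_mul]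
        apply one_div_le_one_div_of_le hp0
        calc (p : ℝ) = (p : ℝ) ^ 1 := (pow_one _).symm
          _ ≤ (p : ℝ) ^ j := pow_le_pow_right₀ hp1 h2.1
      · simp
    · intro l _ hl
      rw [h.zero l, if_neg hl]
      simp
    · intro h0
      exact absurd (mem_range.2 (by omega)) h0
  refine (sum_le_sum h1).trans ?_
  rw [← sum_filter, sum_const, nsmul_eq_mul]
  have h2 : ((range (R + 1)).filter fun j => 1 ≤ j ∧ j ≤ K).card ≤ K := by
    have : ((range (R + 1)).filter fun j => 1 ≤ j ∧ j ≤ K) ⊆ Icc 1 K := by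
      intro j hj
      rw [mem_filter] at hj
      rw [mem_Icc]
      exact hj.2
    refine (card_le_card this).trans ?_
    rw [Nat.card_Icc]
    omega
  have h3 : (((range (R + 1)).filter fun j => 1 ≤ j ∧ j ≤ K).card : ℝ) ≤ K := by exact_mod_cast h2
  calc (((range (R + 1)).filter fun j => 1 ≤ j ∧ j ≤ K).card : ℝ) * (1 / p) ≤ K * (1 / p) :=
        mul_le_mul_of_nonneg_right h3 (by positivity)
    _ = K / p := by ring

lemma MM_comm (p R a b : ℕ) : MM c R (kap p) a b = MM c R (kap p) b a := by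
  unfold MM
  rw [sum_comm]
  refine sum_congr rfl fun l _ => sum_congr rfl fun j _ => ?_
  rw [kap_comm]
  ring

lemma MM_nonneg (h : CC K c) (p R a b : ℕ) : 0 ≤ MM c R (kap p) a b := by
  unfold MM
  exact sum_nonneg fun j _ => sum_nonneg fun l _ =>
    mul_nonneg (mul_nonneg ((h.pe a).nonneg j) ((h.pe b).nonneg l)) (kap_nonneg p j l)

lemma MM_le (h : CC K c) {p : ℕ} (hp : p.Prime) {a b : ℕ} (ha : a ≤ r) (hb : b ≤ r) :
    MM c (K * r) (kap p) a b ≤ 2 * ((((K : ℝ) + 1) ^ 2 - 1) ^ a * (((K : ℝ) + 1) ^ 2 - 1) ^ b) := by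
  unfold MM
  have hs : ∀ e ≤ r, ∑ j ∈ range (K * r + 1), c e j ≤ (((K : ℝ) + 1) ^ 2 - 1) ^ e := by
    intro e he
    rw [← ext_sum (Nat.mul_le_mul_left K he) (h.pe e).zero]
    exact (h.pe e).sum
  have hs0 : ∀ e, 0 ≤ ∑ j ∈ range (K * r + 1), c e j := fun e => sum_nonneg fun j _ =>
    (h.pe e).nonneg j
  have hB : (0 : ℝ) ≤ ((K : ℝ) + 1) ^ 2 - 1 := by
    have : (0 : ℝ) ≤ K := Nat.cast_nonneg K
    nlinarith
  have h1 : ∑ j ∈ range (K * r + 1), ∑ l ∈ range (K * r + 1), c a j * c b l * kap p j l ≤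
      ∑ j ∈ range (K * r + 1), ∑ l ∈ range (K * r + 1), c a j * c b l * 2 :=
    sum_le_sum fun j _ => sum_le_sum fun l _ => mul_le_mul_of_nonneg_left (kap_le hp j l)
      (mul_nonneg ((h.pe a).nonneg j) ((h.pe b).nonneg l))
  refine h1.trans ?_
  have h2 : ∑ j ∈ range (K * r + 1), ∑ l ∈ range (K * r + 1), c a j * c b l * 2 =
      2 * ((∑ j ∈ range (K * r + 1), c a j) * ∑ l ∈ range (K * r + 1), c b l) := by
    rw [sum_mul_sum, mul_sum]
    refine sum_congr rfl fun j _ => ?_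
    rw [mul_sum]
    refine sum_congr rfl fun l _ => ?_
    ring
  rw [h2]
  apply mul_le_mul_of_nonneg_left _ (by norm_num)
  exact mul_le_mul (hs a ha) (hs b hb) (hs0 b) (by positivity)

/-- the local bound -/
theorem ph_le (h : CC K c) (hr : 1 ≤ r) {p : ℕ} (hp : p.Prime) {z : ℝ} (hz : 0 < z)
    (hu : 2 * ((((K : ℝ) + 1) ^ 2 - 1) * z) ≤ 1) :
    ph r (MM c (K * r) (kap p)) z ≤
      1 + 2 * K * z / p + 8 * ((((K : ℝ) + 1) ^ 2 - 1) * z) ^ 2 := by
  have hK : (0 : ℝ) ≤ K := Nat.cast_nonneg K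
  obtain ⟨B, hB⟩ : ∃ B : ℝ, B = ((K : ℝ) + 1) ^ 2 - 1 := ⟨_, rfl⟩
  have hB0 : 0 ≤ B := by rw [hB]; nlinarith
  have hp1 : (1 : ℝ) ≤ p := by exact_mod_cast hp.pos
  have hp0 : (0 : ℝ) < p := by linarith
  rw [← hB] at hu ⊢
  obtain ⟨u, hud⟩ : ∃ u : ℝ, u = B * z := ⟨_, rfl⟩
  have hu0 : 0 ≤ u := by rw [hud]; positivity
  obtain ⟨corr, hcorr⟩ : ∃ corr : ℕ → ℕ → ℝ, corr = fun a b => if a = 0 ∧ b = 0 then -1 else
    if (a = 1 ∧ b = 0) ∨ (a = 0 ∧ b = 1) then K * z / p - 2 * u else 0 := ⟨_, rfl⟩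
  have h1 : ∀ a ∈ range (r + 1), ∀ b ∈ range (r + 1), MM c (K * r) (kap p) a b *
      (z ^ a / a.factorial * (z ^ b / b.factorial)) ≤
      2 * (u ^ a / a.factorial * (u ^ b / b.factorial)) + corr a b := by
    intro a ha b hb
    rw [mem_range] at ha hb
    rw [hcorr]
    simp only
    by_cases h00 : a = 0 ∧ b = 0
    · rw [if_pos h00]
      obtain ⟨rfl, rfl⟩ := h00
      rw [MM_00 h]
      norm_num
    · rw [if_neg h00]
      by_cases h10 : (a = 1 ∧ b = 0) ∨ (a = 0 ∧ b = 1)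
      · rw [if_pos h10]
        have hM : MM c (K * r) (kap p) a b ≤ (K : ℝ) / p := by
          rcases h10 with ⟨rfl, rfl⟩ | ⟨rfl, rfl⟩
          · exact MM_10 h hp _
          · rw [MM_comm]
            exact MM_10 h hp _
        have hz1 : z ^ a / a.factorial * (z ^ b / b.factorial) = z := by
          rcases h10 with ⟨rfl, rfl⟩ | ⟨rfl, rfl⟩ <;> simp
        have hu1 : u ^ a / a.factorial * (u ^ b / b.factorial) = u := by
          rcases h10 with ⟨rfl, rfl⟩ | ⟨rfl, rfl⟩ <;> simp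
        rw [hz1, hu1]
        have := mul_le_mul_of_nonneg_right hM hz.le
        have e : (K : ℝ) / p * z = K * z / p := by ring
        linarith
      · rw [if_neg h10, add_zero]
        have hM := MM_le (r := r) h hp (a := a) (b := b) (by omega) (by omega)
        rw [← hB] at hM
        have hz1 : 0 ≤ z ^ a / a.factorial * (z ^ b / b.factorial) := by positivity
        refine (mul_le_mul_of_nonneg_right hM hz1).trans (le_of_eq ?_)
        rw [hud, mul_pow, mul_pow]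
        ring
  have h2 : ph r (MM c (K * r) (kap p)) z ≤ ∑ a ∈ range (r + 1), ∑ b ∈ range (r + 1),
      (2 * (u ^ a / a.factorial * (u ^ b / b.factorial)) + corr a b) :=
    sum_le_sum fun a ha => sum_le_sum fun b hb => h1 a ha b hb
  have h3 : ∑ a ∈ range (r + 1), ∑ b ∈ range (r + 1), corr a b = -1 + 2 * (K * z / p - 2 * u) := by
    have hc0 : ∀ a b, 2 ≤ a ∨ 2 ≤ b → corr a b = 0 := by
      intro a b hab
      rw [hcorr]
      simp only
      rw [if_neg (by omega), if_neg (by omega)]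
    have hsub : ∀ g : ℕ → ℝ, (∀ b, 2 ≤ b → g b = 0) → ∑ b ∈ range (r + 1), g b = g 0 + g 1 := by
      intro g hg
      have : ∑ b ∈ range (r + 1), g b = ∑ b ∈ range 2, g b := by
        refine (sum_subset (range_subset_range.2 (by omega)) fun b _ hb => ?_).symm
        rw [mem_range] at hb
        exact hg b (by omega)
      rw [this, sum_range_succ, sum_range_one]
    rw [hsub _ (fun a ha => sum_eq_zero fun b _ => hc0 a b (Or.inl ha)),
      hsub _ (fun b hb => hc0 0 b (Or.inr hb)), hsub _ (fun b hb => hc0 1 b (Or.inr hb))]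
    rw [hcorr]
    norm_num
    ring
  have h4 : ∑ a ∈ range (r + 1), ∑ b ∈ range (r + 1), 2 * (u ^ a / a.factorial *
      (u ^ b / b.factorial)) = 2 * ((∑ a ∈ range (r + 1), u ^ a / a.factorial) *
        ∑ b ∈ range (r + 1), u ^ b / b.factorial) := by
    rw [sum_mul_sum, mul_sum]
    refine sum_congr rfl fun a _ => ?_
    rw [mul_sum]
  have h5 := Real.sum_le_exp_of_nonneg hu0 (r + 1)
  have h6 : (∑ a ∈ range (r + 1), u ^ a / a.factorial) * ∑ b ∈ range (r + 1), u ^ b / b.factorial ≤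
      Real.exp (2 * u) := by
    have e : Real.exp (2 * u) = Real.exp u * Real.exp u := by rw [← Real.exp_add]; ring_nf
    rw [e]
    exact mul_le_mul h5 h5 (sum_nonneg fun b _ => by positivity) (Real.exp_pos _).le
  have h7 := Real.abs_exp_sub_one_sub_id_le (x := 2 * u) (by
    rw [abs_of_nonneg (by positivity), hud]
    exact hu)
  have h8 := (abs_le.1 h7).2
  rw [← hud]
  have h9 : ∑ a ∈ range (r + 1), ∑ b ∈ range (r + 1),
      (2 * (u ^ a / a.factorial * (u ^ b / b.factorial)) + corr a b) =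
      2 * ((∑ a ∈ range (r + 1), u ^ a / a.factorial) *
        ∑ b ∈ range (r + 1), u ^ b / b.factorial) + (-1 + 2 * (K * z / p - 2 * u)) := by
    rw [← h3, ← h4, ← sum_add_distrib]
    refine sum_congr rfl fun a _ => ?_
    rw [← sum_add_distrib]
  rw [h9] at h2
  have e1 : 2 * (K : ℝ) * z / p = 2 * (K * z / p) := by ring
  rw [e1]
  linarith

variable {ι : Type} [Fintype ι] [DecidableEq ι]

lemma sum_inv_sq {p : ι → ℕ} (hp : ∀ t, (p t).Prime) (hi : Function.Injective p) :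
    ∑ t, (1 / (p t : ℝ)) ^ 2 ≤ 1 := by
  have h1 : ∑ t, (1 / (p t : ℝ)) ^ 2 = ∑ n ∈ univ.image p, (1 / (n : ℝ)) ^ 2 := by
    rw [sum_image fun a _ b _ h => hi h]
  rw [h1]
  obtain ⟨Y, hY⟩ : ∃ Y : ℕ, ∀ n ∈ univ.image p, n ≤ Y :=
    ⟨(univ.image p).sup id, fun n hn => le_sup (f := id) hn⟩
  have h2 : univ.image p ⊆ Ico 2 (Y + 2) := by
    intro n hn
    rw [mem_Ico]
    have h3 := hY n hn
    rw [mem_image] at hn
    obtain ⟨t, _, rfl⟩ := hn
    exact ⟨(hp t).two_le, by omega⟩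
  refine (sum_le_sum_of_subset_of_nonneg h2 fun n _ _ => by positivity).trans ?_
  have h4 : ∀ Y : ℕ, ∑ n ∈ Ico 2 (Y + 2), (1 / (n : ℝ)) ^ 2 ≤ 1 - 1 / ((Y : ℝ) + 1) := by
    intro Y
    induction Y with
    | zero => simp
    | succ Y ih =>
      rw [show Y + 1 + 2 = (Y + 2) + 1 by ring, sum_Ico_succ_top (by omega)]
      have h5 : (1 / ((Y + 2 : ℕ) : ℝ)) ^ 2 ≤ 1 / ((Y : ℝ) + 1) - 1 / ((Y : ℝ) + 2) := by
        push_cast
        rw [div_sub_div _ _ (by positivity) (by positivity), div_pow, one_pow,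
          div_le_div_iff₀ (by positivity) (by positivity)]
        nlinarith [(Nat.cast_nonneg Y : (0 : ℝ) ≤ Y)]
      push_cast at h5 ⊢
      have e : (Y : ℝ) + 1 + 1 = Y + 2 := by ring
      rw [e]
      linarith
  have h5 := h4 Y
  have : (0 : ℝ) ≤ 1 / ((Y : ℝ) + 1) := by positivity
  linarith

lemma sum_inv {p : ι → ℕ} (hp : ∀ t, (p t).Prime) (hi : Function.Injective p) :
    ∑ t, 1 / (p t : ℝ) ≤ Real.sqrt (Fintype.card ι) := by
  apply Real.le_sqrt_of_sq_le
  have h := sum_mul_sq_le_sq_mul_sq (univ : Finset ι) (fun _ => (1 : ℝ)) (fun t => 1 / (p t : ℝ))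
  simp only [one_mul, one_pow, sum_const, card_univ, nsmul_eq_mul, mul_one] at h
  have h2 := sum_inv_sq hp hi
  have h3 : (0 : ℝ) ≤ Fintype.card ι := Nat.cast_nonneg _
  calc (∑ t, 1 / (p t : ℝ)) ^ 2 ≤ (Fintype.card ι : ℝ) * ∑ t, (1 / (p t : ℝ)) ^ 2 := h
    _ ≤ (Fintype.card ι : ℝ) * 1 := mul_le_mul_of_nonneg_left h2 h3
    _ = _ := mul_one _

/-- the bound for the quadratic form -/
theorem quad_le (h : CC K c) (hK : 1 ≤ K) (hr : 1 ≤ r) {p : ι → ℕ} (hp : ∀ t, (p t).Prime)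
    (hi : Function.Injective p) (hP : r ≤ 2 * Fintype.card ι) :
    ∑ v ∈ box ι (K * r), ∑ v' ∈ box ι (K * r), av c r v * av c r v' *
      ∏ t, kap (p t) (v t) (v' t) ≤
      (60 * (((K : ℝ) + 1) ^ 2 - 1) ^ 2 * Fintype.card ι * r) ^ r := by
  rw [quad (fun t => kap (p t))]
  obtain ⟨P, hPd⟩ : ∃ P : ℝ, P = Fintype.card ι := ⟨_, rfl⟩
  have hr1 : (1 : ℝ) ≤ r := by exact_mod_cast hr
  have hr0 : (0 : ℝ) < r := by linarith
  have hPr : (r : ℝ) ≤ 2 * P := by rw [hPd]; exact_mod_cast hP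
  have hP0 : 0 < P := by linarith
  have hKr : (1 : ℝ) ≤ K := by exact_mod_cast hK
  obtain ⟨B, hB⟩ : ∃ B : ℝ, B = ((K : ℝ) + 1) ^ 2 - 1 := ⟨_, rfl⟩
  have hB3 : 3 * K ≤ B := by rw [hB]; nlinarith
  have hB0 : 0 < B := by linarith
  obtain ⟨q, hq⟩ : ∃ q : ℝ, q = Real.sqrt (r / (8 * P)) := ⟨_, rfl⟩
  have hq0 : 0 < q := by rw [hq]; exact Real.sqrt_pos.2 (by positivity)
  have hq2 : q ^ 2 = r / (8 * P) := by rw [hq]; exact Real.sq_sqrt (by positivity)
  have hqh : 2 * q ≤ 1 := by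
    have : (2 * q) ^ 2 ≤ 1 ^ 2 := by
      rw [mul_pow, hq2, one_pow]
      rw [show (2 : ℝ) ^ 2 * (r / (8 * P)) = r / (2 * P) by field_simp; ring]
      rw [div_le_one (by positivity)]
      exact hPr
    exact (pow_le_pow_iff_left₀ (by positivity) (by norm_num) (by norm_num)).1 this
  obtain ⟨z, hz⟩ : ∃ z : ℝ, z = q / B := ⟨_, rfl⟩
  have hz0 : 0 < z := by rw [hz]; positivity
  have hBz : B * z = q := by rw [hz]; field_simp
  have h1 := gen (r := r) (fun t => MM c (K * r) (kap (p t)))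
    (fun t a b => MM_nonneg h (p t) _ a b) hz0
  obtain ⟨Q, hQ⟩ : ∃ Q : ℝ, Q = ∑ e ∈ An ι r, ∑ e' ∈ An ι r, mult e * mult e' *
    ∏ t, MM c (K * r) (kap (p t)) (e t) (e' t) := ⟨_, rfl⟩
  rw [← hQ] at h1 ⊢
  have h2 : ∏ t, ph r (MM c (K * r) (kap (p t))) z ≤ Real.exp (2 * r) := by
    have h3 : ∀ t, ph r (MM c (K * r) (kap (p t))) z ≤
        Real.exp (2 * K * z * (1 / (p t : ℝ)) + 8 * q ^ 2) := by
      intro t
      have h4 := ph_le h hr (hp t) hz0 (by rw [← hB, hBz]; exact hqh)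
      rw [← hB, hBz] at h4
      refine h4.trans ?_
      have h5 := Real.add_one_le_exp (2 * K * z * (1 / (p t : ℝ)) + 8 * q ^ 2)
      refine le_trans (le_of_eq ?_) h5
      ring
    have h4 : ∀ t, 0 ≤ ph r (MM c (K * r) (kap (p t))) z := by
      intro t
      unfold ph
      exact sum_nonneg fun a _ => sum_nonneg fun b _ =>
        mul_nonneg (MM_nonneg h (p t) _ a b) (by positivity)
    refine (prod_le_prod (fun t _ => h4 t) fun t _ => h3 t).trans ?_
    rw [← Real.exp_sum]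
    apply Real.exp_le_exp.2
    rw [sum_add_distrib, ← mul_sum, sum_const, nsmul_eq_mul, card_univ, ← hPd, hq2]
    have h5 := sum_inv hp hi
    rw [← hPd] at h5
    have h6 : P * (8 * (r / (8 * P))) = r := by field_simp
    rw [h6]
    have h7 : 2 * K * z * ∑ t, 1 / (p t : ℝ) ≤ r := by
      have e1 : 2 * K * z ≤ q := by
        rw [hz]
        have : 2 * (K : ℝ) * (q / B) = (2 * K / B) * q := by ring
        rw [this]
        have e2 : 2 * (K : ℝ) / B ≤ 1 := by
          rw [div_le_one hB0]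
          linarith
        calc 2 * (K : ℝ) / B * q ≤ 1 * q := mul_le_mul_of_nonneg_right e2 hq0.le
          _ = q := one_mul q
      calc 2 * K * z * ∑ t, 1 / (p t : ℝ) ≤ q * Real.sqrt P :=
            mul_le_mul e1 h5 (sum_nonneg fun t _ => by positivity) hq0.le
        _ ≤ r := by
          have e2 : (q * Real.sqrt P) ^ 2 ≤ (r : ℝ) ^ 2 := by
            rw [mul_pow, hq2, Real.sq_sqrt hP0.le]
            have : r / (8 * P) * P = (r : ℝ) / 8 := by field_simp
            rw [this]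
            nlinarith
          exact (pow_le_pow_iff_left₀ (by positivity) hr0.le (by norm_num)).1 e2
    linarith
  have h3 : Q * z ^ (2 * r) ≤ (r : ℝ) ^ (2 * r) * Real.exp (2 * r) := by
    refine h1.trans ?_
    apply mul_le_mul _ h2 _ (by positivity)
    · rw [mul_comm 2 r, pow_mul]
      apply pow_le_pow_left₀ (by positivity)
      exact_mod_cast Nat.factorial_le_pow r
    · refine prod_nonneg fun t _ => ?_
      unfold ph
      exact sum_nonneg fun a _ => sum_nonneg fun b _ =>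
        mul_nonneg (MM_nonneg h (p t) _ a b) (by positivity)
  have h4 : Q * z ^ (2 * r) ≤ (60 * B ^ 2 * P * r) ^ r * z ^ (2 * r) := by
    refine h3.trans ?_
    have e1 : Real.exp (2 * r) ≤ (15 / 2) ^ r := by
      have : Real.exp (2 * (r : ℝ)) = (Real.exp 2) ^ r := by
        rw [← Real.exp_nat_mul]
        congr 1
        ring
      rw [this]
      apply pow_le_pow_left₀ (Real.exp_pos _).le
      have h4 := Real.exp_one_lt_d9
      have h3 : Real.exp 2 = Real.exp 1 ^ 2 := by rw [← Real.exp_nat_mul]; norm_num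
      rw [h3]
      have h5 : Real.exp 1 ^ 2 ≤ (2.7182818286 : ℝ) ^ 2 :=
        pow_le_pow_left₀ (Real.exp_pos 1).le h4.le 2
      refine h5.trans ?_
      norm_num
    have e2 : (60 * B ^ 2 * P * r) ^ r * z ^ (2 * r) = (r : ℝ) ^ (2 * r) * (15 / 2) ^ r := by
      rw [pow_mul, pow_mul, ← mul_pow, ← mul_pow]
      congr 1
      have : z ^ 2 = r / (8 * P) / B ^ 2 := by rw [hz, div_pow, hq2]
      rw [this]
      field_simp
      ring
    rw [e2]
    exact mul_le_mul_of_nonneg_left e1 (by positivity)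
  rw [← hB, ← hPd]
  exact le_of_mul_le_mul_right h4 (by positivity)

end P4

end

end Pool.Agent.XE31
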