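import Pool.Agent.XE31.E2

/-!
# From cuspidal eigenfunctions to vectors of `EV`
-/

set_option autoImplicit false

open UpperHalfPlane MeasureTheory Metric ModularGroup CongruenceSubgroup
open scoped MatrixGroups ENNReal Modular Topology NNReal ComplexConjugate

namespace Pool.Agent.XE31

open Pool.Agent.H369R2 Pool.Agent.N799.DT

noncomputable section

namespace R1

open M1 M2 M3 K2 K3

/-- vanishing constant terms for a function on the plane -/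
def CuspC (Γ : Subgroup SL(2, ℤ)) (f : ℂ → ℂ) : Prop :=
  ∀ (γ : SL(2, ℤ)) (N : ℕ), 0 < N → Gamma N ≤ Γ → ∀ (y : ℝ) (hy : 0 < y),
    ∫ x in (0 : ℝ)..N, f ((γ • (⟨⟨x, y⟩, hy⟩ : ℍ) : ℍ) : ℂ) = 0

/-- the inequality for cuspidal eigenfunctions -/
theorem main : ∃ C : ℝ, 0 < C ∧ ∀ Γ : Subgroup SL(2, ℤ), (∃ N : ℕ, 0 < N ∧ Gamma N ≤ Γ) →
    ∀ (k : ℕ) (ν : Fin k → ℝ) (f : Fin k → ℂ → ℂ), (∀ i, 0 ≤ ν i) →
      (∀ i, IsEigen Γ (ν i) (f i)) → (∀ i, CuspC Γ (f i)) →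
      LinearIndependent ℂ (fun i => fun z : ℍ => f i z) →
      ∑ i, (Γ.index : ℝ) ^ (ν i / 840) ≤ C * Γ.index / (1 + Real.log Γ.index) ^ 3 := by
  obtain ⟨C, hC, h⟩ := E2.final_EV
  refine ⟨C, hC, fun Γ hΓ k ν f hν hf hc hli => ?_⟩
  obtain ⟨N, hN⟩ := exists_level Γ hΓ
  refine h Γ N hN k ν (fun i => (hf i).toLW hN.1 hN.2.1) hν (fun i => ?_)
    (LinearIndependent.of_comp (LW N).subtype hli)
  have h1 := (hf i).mem_ES mv_all hN.1 hN.2.1
  refine ⟨h1.1, h1.2, fun g y hy => ?_⟩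
  have h2 := hc i g N hN.1 hN.2.1 y hy
  rw [← h2]
  refine intervalIntegral.integral_congr fun x _ => ?_
  show f i ((g • pt (x, y) : ℍ) : ℂ) = _
  rw [pt_eq hy]

end R1

end

end Pool.Agent.XE31
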