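import Pool.Agent.XE31.H10
import Pool.Agent.XE31.R1

/-!
# From cuspidal eigenfunctions of the Hecke operators to vectors of `EV`
-/

set_option autoImplicit false
set_option linter.all false

open UpperHalfPlane MeasureTheory Metric ModularGroup CongruenceSubgroup
open scoped MatrixGroups ENNReal Modular Topology NNReal

namespace Pool.Agent.XE31

open Pool.Agent.H369R2 Pool.Agent.N799.DT

noncomputable section

namespace R2

open H1 H4 H5 H6 H7 H8 H9 M1 K2 X3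

/-- cusp forms with Laplace eigenvalue `κ` -/
structure FormK (Γ : Subgroup SL(2, ℤ)) (κ : ℝ) (f : ℂ → ℂ) : Prop where
  lap : X1.LapK κ f
  inv : ∀ γ ∈ Γ, ∀ z : ℍ, f ((γ • z : ℍ) : ℂ) = f (z : ℂ)
  sqint : ∀ γ : SL(2, ℤ), IntegrableOn (fun w : ℂ => ‖f w‖ ^ 2 / w.im ^ 2)
    ((fun z : ℍ => ((γ • z : ℍ) : ℂ)) '' ModularGroup.fd)
  cusp : R1.CuspC Γ f

variable {Γ : Subgroup SL(2, ℤ)} {κ : ℝ} {f : ℂ → ℂ} {N : ℕ}

lemma FormK.lintegral (h : FormK Γ κ f) (hN : 0 < N) :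
    ∫⁻ z, ‖f (z : ℍ)‖ₑ ^ 2 ∂(nu N) ≠ ∞ := by
  have : NeZero N := ⟨hN.ne'⟩
  rw [NU2.lint_nu]
  have hfin : Finite (SL(2, ℤ) ⧸ Gamma N) := Subgroup.finite_quotient_of_finiteIndex
  have := Fintype.ofFinite (SL(2, ℤ) ⧸ Gamma N)
  rw [tsum_fintype]
  refine (ENNReal.sum_lt_top.2 fun g _ => ?_).ne
  set γ : SL(2, ℤ) := g.out
  have h1 := (mp_int γ).setLIntegral_comp_emb (me_int γ) (fun z : ℍ => ‖f z‖ₑ ^ 2) 𝒟ᵒ
  rw [h1, lint_coe (lap_cont h.lap) fun z => rfl, Set.image_image]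
  have h2 := (h.sqint γ).2
  rw [hasFiniteIntegral_iff_enorm] at h2
  refine lt_of_le_of_lt ?_ h2
  refine (lintegral_mono_set (Set.image_mono ModularGroup.fdo_subset_fd)).trans ?_
  refine lintegral_mono fun w => ?_
  exact Real.ofReal_le_enorm _

/-- the vector of `LW` -/
def FormK.toLW (h : FormK Γ κ f) (hN : 0 < N) (hΓ : Gamma N ≤ Γ) : LW N :=
  ⟨fun z : ℍ => f z, lap_cont h.lap, fun γ hγ z => h.inv γ (hΓ hγ) z, h.lintegral hN⟩

lemma FormK.mem_EV (h : FormK Γ κ f) (hN : 0 < N) (hΓ : Gamma N ≤ Γ) :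
    h.toLW hN hΓ ∈ EV N Γ (aK κ) := by
  refine ⟨fun γ hγ z => h.inv γ hγ z, fun R hR z => mvK h.lap z R, fun g y hy => ?_⟩
  have h2 := h.cusp g N hN hΓ y hy
  rw [← h2]
  refine intervalIntegral.integral_congr fun x _ => ?_
  show f ((g • pt (x, y) : ℍ) : ℂ) = _
  rw [pt_eq hy]

/-- the action of integral matrices -/
def mob (g : MZ) (z : ℂ) : ℂ := ((g 0 0 : ℂ) * z + g 0 1) / ((g 1 0 : ℂ) * z + g 1 1)

lemma mob_eq {m : ℕ} (hm : 0 < m) {g : MZ} (hg : HM N m g) (z : ℍ) :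
    ((nm m g • z : ℍ) : ℂ) = mob g z := by
  have hm' : (m : ℂ) ≠ 0 := by exact_mod_cast hm.ne'
  rw [coe_specialLinearGroup_apply]
  have e : ∀ i j, (((algebraMap ℝ ℝ) (nm m g i j) : ℝ) : ℂ) = (g i j : ℂ) / m := by
    intro i j
    rw [nm_apply hm hg]
    simp
  rw [e, e, e, e]
  unfold mob
  rw [← mul_div_mul_right _ ((g 1 0 : ℂ) * z + g 1 1) (inv_ne_zero hm')]
  congr 1 <;> ring

lemma HM_mul {m : ℕ} {g : MZ} (hg : HM N m g) {γ : SL(2, ℤ)} (hγ : γ ∈ Gamma N) :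
    HM N m ((γ : MZ) * g) := by
  obtain ⟨h0, h1, h2, h3⟩ := (Gamma_iff γ).1 hγ
  have hd := sl_det γ
  constructor
  · simp only [mul00, mul01, mul10, mul11]
    have := hg.det
    linear_combination (γ 0 0 * γ 1 1 - γ 0 1 * γ 1 0) * this + (m : ℤ) ^ 2 * hd
  · simp only [mul00, mul01, mul10, mul11]
    push_cast
    rw [h0, h1, hg.e00, hg.e10]
    ring
  · simp only [mul00, mul01, mul10, mul11]
    push_cast
    rw [h0, h1, hg.e01, hg.e11]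
    ring
  · simp only [mul00, mul01, mul10, mul11]
    push_cast
    rw [h2, h3, hg.e00, hg.e10]
    ring
  · simp only [mul00, mul01, mul10, mul11]
    push_cast
    rw [h2, h3, hg.e01, hg.e11]
    ring

lemma nm_mul {m : ℕ} (hm : 0 < m) {g : MZ} (hg : HM N m g) {γ : SL(2, ℤ)} (hγ : γ ∈ Gamma N) :
    nm m ((γ : MZ) * g) = (γ : SL(2, ℝ)) * nm m g := by
  have hg' := HM_mul hg hγ
  apply sl_ext
  · rw [r00, nm_apply hm hg', nm_apply hm hg, nm_apply hm hg, c00, c00, mul00]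
    push_cast
    ring
  · rw [r01, nm_apply hm hg', nm_apply hm hg, nm_apply hm hg, c00, c00, mul01]
    push_cast
    ring
  · rw [r10, nm_apply hm hg', nm_apply hm hg, nm_apply hm hg, c00, c00, mul10]
    push_cast
    ring
  · rw [r11, nm_apply hm hg', nm_apply hm hg, nm_apply hm hg, c00, c00, mul11]
    push_cast
    ring

/-- the inequality for Hecke eigenforms -/
theorem main : ∃ C : ℝ, 0 < C ∧ ∀ (Γ : Subgroup SL(2, ℤ)) (N : ℕ), IsLevel Γ N → ∀ T : ℝ, 1 ≤ T →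
    ∀ (Ms : Finset ℕ), (∀ m ∈ Ms, 0 < m) → (∀ m ∈ Ms, Nat.Coprime m N) →
    (∀ m ∈ Ms, (m : ℝ) ≤ (Γ.index * T) ^ (1 / 1000 : ℝ)) →
    ∀ (k : ℕ) (κ : Fin k → ℝ) (f : Fin k → ℂ → ℂ), (∀ i, 0 ≤ κ i) → (∀ i, κ i ≤ T ^ 2) →
      (∀ i, FormK Γ (κ i) (f i)) → LinearIndependent ℂ (fun i => fun z : ℍ => f i z) →
      ∀ Λ : Fin k → ℕ → ℝ, (∀ i, ∀ m ∈ Ms, ∃ S : Finset MZ, Reps N m S ∧
        ∀ z : ℍ, ∑ g ∈ S, f i (mob g z) = ((m * Λ i m : ℝ) : ℂ) * f i z) →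
      ∑ i, (∑ m ∈ Ms, Λ i m) ^ 2 ≤ C * Γ.index * T ^ 2 * (SG Ms + 1) := by
  classical
  obtain ⟨C, hC, h⟩ := H10.ineq
  refine ⟨C, hC, fun Γ N hN T hT Ms hM hMc hMM k κ f hκ hκ2 hf hli Λ hΛ => ?_⟩
  have hT0 : 0 < T := by linarith
  rcases Nat.eq_zero_or_pos k with hk | hk
  · subst hk
    rw [Fin.sum_univ_zero]
    have := SG_nonneg Ms
    positivity
  have h1 : ∀ m, ∃ S : Finset MZ, m ∈ Ms → Reps N m S := by
    intro m
    by_cases hm : m ∈ Ms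
    · obtain ⟨S, hS, _⟩ := hΛ ⟨0, hk⟩ m hm
      exact ⟨S, fun _ => hS⟩
    · exact ⟨∅, fun h => absurd h hm⟩
  choose S hS using h1
  refine h Γ N hN T hT Ms S hM hMc hMM hS k κ (fun i => (hf i).toLW hN.1 hN.2.1) hκ hκ2
    (fun i => (hf i).mem_EV hN.1 hN.2.1) (LinearIndependent.of_comp (LW N).subtype hli) Λ ?_
  intro i m hm z
  obtain ⟨S', hS', hz⟩ := hΛ i m hm
  have h2 := indep (hS m hm) hS' (fun g => f i ((nm m g • z : ℍ) : ℂ)) (by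
    intro γ hγ g hg
    show f i ((nm m ((γ : MZ) * g) • z : ℍ) : ℂ) = f i ((nm m g • z : ℍ) : ℂ)
    rw [nm_mul (hM m hm) hg hγ, mul_smul (γ : SL(2, ℝ)) (nm m g) z]
    exact (hf i).inv γ (hN.2.1 hγ) _)
  show ∑ g ∈ S m, f i ((nm m g • z : ℍ) : ℂ) = ((m * Λ i m : ℝ) : ℂ) * f i z
  rw [h2, ← hz z]
  refine Finset.sum_congr rfl fun g hg => ?_
  show f i ((nm m g • z : ℍ) : ℂ) = _
  rw [mob_eq (hM m hm) (hS'.mem g hg)]

end R2

end

end Pool.Agent.XE31
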