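import Pool.Agent.XE31.H11
import Pool.Agent.XE31.R2

/-!
# The inequality with coefficients for Hecke eigenforms
-/

set_option autoImplicit false
set_option linter.all false

open UpperHalfPlane MeasureTheory Metric ModularGroup CongruenceSubgroup
open scoped MatrixGroups ENNReal Modular Topology NNReal

namespace Pool.Agent.XE31

open Pool.Agent.H369R2 Pool.Agent.N799.DT

noncomputable section

namespace R5

open H1 H4 H5 H6 H7 H8 H9 H11 M1 K2 X3 R2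

/-- the inequality for Hecke eigenforms -/
theorem main : ∃ C : ℝ, 0 < C ∧ ∀ (Γ : Subgroup SL(2, ℤ)) (N : ℕ), IsLevel Γ N → ∀ T : ℝ, 1 ≤ T →
    ∀ (J : Type) [Fintype J] (c : J → ℝ) (mm : J → ℕ), (∀ v, 0 ≤ c v) →
    (∀ v, 0 < mm v) → (∀ v, Nat.Coprime (mm v) N) →
    (∀ v, (mm v : ℝ) ≤ (Γ.index * T) ^ (1 / 1000 : ℝ)) →
    (∑ v, c v ≤ (Γ.index * T) ^ (1 / 1000 : ℝ)) →
    ∀ (k : ℕ) (κ : Fin k → ℝ) (f : Fin k → ℂ → ℂ), (∀ i, 0 ≤ κ i) → (∀ i, κ i ≤ T ^ 2) →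
      (∀ i, FormK Γ (κ i) (f i)) → LinearIndependent ℂ (fun i => fun z : ℍ => f i z) →
      ∀ Λ : Fin k → J → ℝ, (∀ i, ∀ v, ∃ S : Finset MZ, Reps N (mm v) S ∧
        ∀ z : ℍ, ∑ g ∈ S, f i (mob g z) = ((mm v * Λ i v : ℝ) : ℂ) * f i z) →
      ∑ i, (∑ v, c v * Λ i v) ^ 2 ≤ C * Γ.index * T ^ 2 * (QJ c mm + 1) := by
  classical
  obtain ⟨C, hC, h⟩ := H11.ineq
  refine ⟨C, hC, fun Γ N hN T hT J _ c mm hc hM hMc hMM hcM k κ f hκ hκ2 hf hli Λ hΛ => ?_⟩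
  have hT0 : 0 < T := by linarith
  rcases Nat.eq_zero_or_pos k with hk | hk
  · subst hk
    rw [Fin.sum_univ_zero]
    have := QJ_nonneg hc mm
    positivity
  have h1 : ∀ m, ∃ S : Finset MZ, (∃ v, mm v = m) → Reps N m S := by
    intro m
    by_cases hm : ∃ v, mm v = m
    · obtain ⟨v, rfl⟩ := hm
      obtain ⟨S, hS, _⟩ := hΛ ⟨0, hk⟩ v
      exact ⟨S, fun _ => hS⟩
    · exact ⟨∅, fun h => absurd h hm⟩
  choose S hS using h1
  refine h Γ N hN T hT J c mm S hc hM hMc hMM hcM (fun v => hS _ ⟨v, rfl⟩) k κ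
    (fun i => (hf i).toLW hN.1 hN.2.1) hκ hκ2
    (fun i => (hf i).mem_EV hN.1 hN.2.1) (LinearIndependent.of_comp (LW N).subtype hli) Λ ?_
  intro i v z
  obtain ⟨S', hS', hz⟩ := hΛ i v
  have h2 := indep (hS _ ⟨v, rfl⟩) hS' (fun g => f i ((nm (mm v) g • z : ℍ) : ℂ)) (by
    intro γ hγ g hg
    show f i ((nm (mm v) ((γ : MZ) * g) • z : ℍ) : ℂ) = f i ((nm (mm v) g • z : ℍ) : ℂ)
    rw [nm_mul (hM v) hg hγ, mul_smul (γ : SL(2, ℝ)) (nm (mm v) g) z]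
    exact (hf i).inv γ (hN.2.1 hγ) _)
  show ∑ g ∈ S (mm v), f i ((nm (mm v) g • z : ℍ) : ℂ) = ((mm v * Λ i v : ℝ) : ℂ) * f i z
  rw [h2, ← hz z]
  refine Finset.sum_congr rfl fun g hg => ?_
  show f i ((nm (mm v) g • z : ℍ) : ℂ) = _
  rw [mob_eq (hM v) (hS'.mem g hg)]

end R5

end

end Pool.Agent.XE31
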