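import Pool.Agent.XE31.P4
import Pool.Agent.XE31.R5

/-!
# Forms which are not tempered at many primes
-/

set_option autoImplicit false
set_option linter.all false

open UpperHalfPlane CongruenceSubgroup
open scoped MatrixGroups

namespace Pool.Agent.XE31

open Pool.Agent.H369R2 Pool.Agent.N799.DT

noncomputable section

namespace P5

open P1 P2 P3 P4 H4 H9 H11 R2 Finset

section arith

variable {ι : Type} [Fintype ι] [DecidableEq ι]

/-- the index of the Hecke operator -/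
def mo (p : ι → ℕ) (v : ι → ℕ) : ℕ := ∏ t, p t ^ v t

lemma mo_pos {p : ι → ℕ} (hp : ∀ t, (p t).Prime) (v : ι → ℕ) : 0 < mo p v :=
  prod_pos fun t _ => pow_pos (hp t).pos _

lemma sg_mul {a b : ℕ} (h : Nat.Coprime a b) : sg (a * b) = sg a * sg b := by
  unfold sg
  rw [mul_pow, Nat.Coprime.sum_divisors_mul (Nat.Coprime.pow 2 2 h)]

lemma gcd_prod {p : ι → ℕ} (hp : ∀ t, (p t).Prime) (hi : Function.Injective p) (v v' : ι → ℕ)
    (s : Finset ι) : sg (Nat.gcd (∏ t ∈ s, p t ^ v t) (∏ t ∈ s, p t ^ v' t)) =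
      ∏ t ∈ s, sg (p t ^ min (v t) (v' t)) := by
  have hco : ∀ (w : ι → ℕ) (a : ι) (s : Finset ι), a ∉ s → ∀ n, Nat.Coprime (p a ^ n)
      (∏ t ∈ s, p t ^ w t) := by
    intro w a s ha n
    refine Nat.Coprime.prod_right fun t ht => Nat.Coprime.pow _ _ ?_
    rw [Nat.coprime_primes (hp a) (hp t)]
    intro h
    exact ha (hi h ▸ ht)
  have hg : Nat.gcd (∏ t ∈ s, p t ^ v t) (∏ t ∈ s, p t ^ v' t) =
      ∏ t ∈ s, p t ^ min (v t) (v' t) := by
    induction s using Finset.induction_on with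
    | empty => simp
    | insert a s ha ih =>
      rw [prod_insert ha, prod_insert ha, prod_insert ha, ← ih]
      obtain ⟨X, hX⟩ : ∃ X, X = ∏ t ∈ s, p t ^ v t := ⟨_, rfl⟩
      obtain ⟨X', hX'⟩ : ∃ X', X' = ∏ t ∈ s, p t ^ v' t := ⟨_, rfl⟩
      have c1 : Nat.Coprime (p a ^ v a) X' := by rw [hX']; exact hco v' a s ha _
      have c2 : Nat.Coprime (p a ^ v' a) X := by rw [hX]; exact hco v a s ha _
      have c3 : Nat.Coprime (p a ^ v' a) X' := by rw [hX']; exact hco v' a s ha _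
      rw [← hX, ← hX', Nat.Coprime.gcd_mul _ c3]
      congr 1
      · rw [Nat.Coprime.gcd_mul_right_cancel _ c2.symm]
        rcases le_total (v a) (v' a) with h | h
        · rw [min_eq_left h, Nat.gcd_eq_left (pow_dvd_pow _ h)]
        · rw [min_eq_right h, Nat.gcd_eq_right (pow_dvd_pow _ h)]
      · rw [Nat.Coprime.gcd_mul_left_cancel _ c1]
  rw [hg]
  clear hg
  induction s using Finset.induction_on with
  | empty => simp [sg_one]
  | insert a s ha ih =>
    rw [prod_insert ha, prod_insert ha, ← ih, sg_mul]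
    exact hco (fun t => min (v t) (v' t)) a s ha _

lemma kap_prod {p : ι → ℕ} (hp : ∀ t, (p t).Prime) (hi : Function.Injective p) (v v' : ι → ℕ) :
    (sg (Nat.gcd (mo p v) (mo p v')) : ℝ) / ((mo p v : ℝ) * mo p v') =
      ∏ t, kap (p t) (v t) (v' t) := by
  unfold mo kap
  rw [gcd_prod hp hi, prod_div_distrib, prod_mul_distrib]
  push_cast
  rfl

lemma mo_le {p : ι → ℕ} {y : ℕ} (hy : 1 ≤ y) (hp : ∀ t, p t ≤ y) {v : ι → ℕ} {R : ℕ}
    (hv : ∑ t, v t ≤ R) : mo p v ≤ y ^ R := by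
  unfold mo
  calc ∏ t, p t ^ v t ≤ ∏ t, y ^ v t := prod_le_prod' fun t _ => Nat.pow_le_pow_left (hp t) _
    _ = y ^ ∑ t, v t := prod_pow_eq_pow_sum _ _ _
    _ ≤ y ^ R := Nat.pow_le_pow_right hy hv

lemma card_le_y {p : ι → ℕ} {y : ℕ} (hp0 : ∀ t, (p t).Prime) (hi : Function.Injective p)
    (hp : ∀ t, p t ≤ y) : Fintype.card ι ≤ y := by
  have h1 : (univ.image p).card = Fintype.card ι := by
    rw [card_image_of_injective _ hi, card_univ]
  rw [← h1]
  have h2 : univ.image p ⊆ Icc 1 y := by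
    intro n hn
    rw [mem_image] at hn
    obtain ⟨t, _, rfl⟩ := hn
    rw [mem_Icc]
    exact ⟨(hp0 t).pos, hp t⟩
  refine (card_le_card h2).trans ?_
  rw [Nat.card_Icc]
  omega

end arith

/-- the number of forms which are not tempered at many primes -/
theorem many : ∃ C : ℝ, 0 < C ∧ ∀ (Γ : Subgroup SL(2, ℤ)) (N : ℕ), IsLevel Γ N →
    ∀ T : ℝ, 1 ≤ T → ∀ (ι : Type) [Fintype ι] [DecidableEq ι] (p : ι → ℕ) (y : ℕ), Nonempty ι →
    (∀ t, (p t).Prime) → Function.Injective p → (∀ t, ¬ p t ∣ N) → (∀ t, p t ≤ y) →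
    ∀ K r : ℕ, 1 ≤ K → 1 ≤ r → (y : ℝ) ^ (3000 * K * r) ≤ Γ.index * T →
    ∀ (k : ℕ) (κ : Fin k → ℝ) (f : Fin k → ℂ → ℂ), (∀ i, 0 ≤ κ i) → (∀ i, κ i ≤ T ^ 2) →
      (∀ i, FormK Γ (κ i) (f i)) → LinearIndependent ℂ (fun i => fun z : ℍ => f i z) →
      ∀ x : Fin k → ι → ℝ, (∀ i, ∀ v : ι → ℕ, ∃ S : Finset MZ, Reps N (mo p v) S ∧
        ∀ z : ℍ, ∑ g ∈ S, f i (mob g z) =
          ((mo p v * ∏ t, s (2 * (v t : ℤ)) (x i t) : ℝ) : ℂ) * f i z) →
      (∀ i, 2 * Fintype.card ι ≤ (K + 1) ^ 2 * (univ.filter fun t => 2 ≤ x i t).card) →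
      (k : ℝ) ≤ C * Γ.index * T ^ 2 *
        (60 * (((K : ℝ) + 1) ^ 2 - 1) ^ 2 * r / Fintype.card ι) ^ r := by
  obtain ⟨C, hC, h⟩ := R5.main
  refine ⟨2 * C, by positivity, ?_⟩
  intro Γ N hN T hT ι _ _ p y hne hp hi hpN hpy K r hK hr hy k κ f hκ hκ2 hf hli x hx hcount
  have hN0 := hN.1
  have : NeZero N := ⟨hN0.ne'⟩
  have hfin : Γ.FiniteIndex := Subgroup.finiteIndex_of_le hN.2.1
  have hn1 : (1 : ℝ) ≤ Γ.index := by exact_mod_cast Nat.pos_of_ne_zero hfin.index_ne_zero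
  have hX1 : (1 : ℝ) ≤ Γ.index * T := one_le_mul_of_one_le_of_one_le hn1 hT
  obtain ⟨P, hP⟩ : ∃ P : ℝ, P = Fintype.card ι := ⟨_, rfl⟩
  have hP1 : (1 : ℝ) ≤ P := by
    rw [hP]
    exact_mod_cast Fintype.card_pos
  have hP0 : 0 < P := by linarith
  have hKr : (1 : ℝ) ≤ K := by exact_mod_cast hK
  have hrr : (1 : ℝ) ≤ r := by exact_mod_cast hr
  obtain ⟨B, hB⟩ : ∃ B : ℝ, B = ((K : ℝ) + 1) ^ 2 - 1 := ⟨_, rfl⟩
  have hB1 : 1 ≤ B := by rw [hB]; nlinarith
  have hcop : ∀ v : ι → ℕ, Nat.Coprime (mo p v) N := by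
    intro v
    unfold mo
    refine Nat.Coprime.prod_left fun t _ => Nat.Coprime.pow_left _ ?_
    exact (Nat.Prime.coprime_iff_not_dvd (hp t)).2 (hpN t)
  have hroot : (1 : ℝ) ≤ (Γ.index * T) ^ (1 / 1000 : ℝ) := Real.one_le_rpow hX1 (by norm_num)
  rw [← hB, ← hP]
  by_cases hrP : r ≤ 2 * Fintype.card ι
  · -- the main case
    obtain ⟨c, hc1, hc2, hc3⟩ := coeffs K
    have hcc : CC K c := ⟨hc1, hc2, hc3⟩
    have hcn : ∀ e j, 0 ≤ c e j := fun e j => (hc1 e).nonneg j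
    obtain ⟨Vs, hVs⟩ : ∃ Vs : Finset (ι → ℕ), Vs = (box ι (K * r)).filter fun v => ∑ t, v t ≤ K * r :=
      ⟨_, rfl⟩
    have hVsum : ∀ g : (ι → ℕ) → ℝ, ∑ v ∈ box ι (K * r), av c r v * g v =
        ∑ v : Vs, av c r (v : ι → ℕ) * g (v : ι → ℕ) := by
      intro g
      rw [Finset.sum_coe_sort Vs (fun v => av c r v * g v), hVs, sum_filter]
      refine sum_congr rfl fun v _ => ?_
      split_ifs with h0
      · rfl
      · rw [av_zero (fun e j hj => (hc1 e).zero j hj) v (by omega), zero_mul]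
    have hVm' : ∀ v ∈ Vs, ∑ t, v t ≤ K * r := by
      intro v hv
      rw [hVs, mem_filter] at hv
      exact hv.2
    have hVm : ∀ v : Vs, ∑ t, (v : ι → ℕ) t ≤ K * r := fun v => hVm' _ v.2
    have hy1 : 1 ≤ y := by
      obtain ⟨t⟩ := hne
      exact (hp t).pos.trans_le (hpy t)
    have hy2 : 2 ≤ y := by
      obtain ⟨t⟩ := hne
      exact (hp t).two_le.trans (hpy t)
    have hyr : (2 : ℝ) ≤ y := by exact_mod_cast hy2
    have hy3 : (y : ℝ) ^ (3 * K * r) ≤ (Γ.index * T) ^ (1 / 1000 : ℝ) := by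
      have e2 : (y : ℝ) ^ (3 * K * r) = ((y : ℝ) ^ (3000 * K * r)) ^ (1 / 1000 : ℝ) := by
        rw [← Real.rpow_natCast, ← Real.rpow_natCast, ← Real.rpow_mul (by positivity)]
        congr 1
        push_cast
        ring
      rw [e2]
      exact Real.rpow_le_rpow (by positivity) hy (by norm_num)
    have hm : ∀ v : Vs, ((mo p (v : ι → ℕ) : ℕ) : ℝ) ≤ (Γ.index * T) ^ (1 / 1000 : ℝ) := by
      intro v
      refine le_trans ?_ hy3
      have h1 := mo_le hy1 hpy (hVm v)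
      have h2 : ((mo p (v : ι → ℕ) : ℕ) : ℝ) ≤ (y : ℝ) ^ (K * r) := by exact_mod_cast h1
      refine h2.trans (pow_le_pow_right₀ (by linarith) ?_)
      nlinarith [Nat.zero_le (K * r)]
    have hsum : ∑ v : Vs, av c r (v : ι → ℕ) ≤ (Γ.index * T) ^ (1 / 1000 : ℝ) := by
      have h1 := hVsum (fun _ => 1)
      simp only [mul_one] at h1
      rw [← h1]
      refine (av_sum hc1).trans ?_
      rw [← hB, ← hP]
      refine le_trans ?_ hy3
      have h2 : P ≤ y := by rw [hP]; exact_mod_cast card_le_y hp hi hpy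
      have h3 : B ≤ (y : ℝ) ^ (2 * K) := by
        have h4 : (K : ℝ) + 1 ≤ 2 ^ K := by
          have := Nat.lt_two_pow_self (n := K)
          exact_mod_cast this
        have h5 : ((K : ℝ) + 1) ^ 2 ≤ ((2 : ℝ) ^ K) ^ 2 := pow_le_pow_left₀ (by positivity) h4 2
        have h6 : ((2 : ℝ) ^ K) ^ 2 ≤ ((y : ℝ) ^ K) ^ 2 :=
          pow_le_pow_left₀ (by positivity) (pow_le_pow_left₀ (by norm_num) hyr K) 2
        rw [hB, mul_comm 2 K, pow_mul]
        linarith
      have h4 : P * B ≤ (y : ℝ) ^ (3 * K) := by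
        calc P * B ≤ y * (y : ℝ) ^ (2 * K) := mul_le_mul h2 h3 (by linarith) (by positivity)
          _ = (y : ℝ) ^ (2 * K + 1) := by rw [pow_succ]; ring
          _ ≤ (y : ℝ) ^ (3 * K) := pow_le_pow_right₀ (by linarith) (by omega)
      calc (P * B) ^ r ≤ ((y : ℝ) ^ (3 * K)) ^ r :=
            pow_le_pow_left₀ (mul_nonneg hP0.le (by linarith)) h4 r
        _ = (y : ℝ) ^ (3 * K * r) := by rw [← pow_mul]
    have h1 := h Γ N hN T hT Vs (fun v : Vs => av c r (v : ι → ℕ))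
      (fun v : Vs => mo p (v : ι → ℕ)) (fun v : Vs => av_nonneg hcn (v : ι → ℕ))
      (fun v : Vs => mo_pos hp (v : ι → ℕ)) (fun v : Vs => hcop (v : ι → ℕ)) hm hsum
      k κ f hκ hκ2 hf hli
      (fun i (v : Vs) => ∏ t, s (2 * ((v : ι → ℕ) t : ℤ)) (x i t))
      (fun i (v : Vs) => hx i (v : ι → ℕ))
    have h2 : ∀ i, ∑ v : Vs, av c r (v : ι → ℕ) * ∏ t, s (2 * ((v : ι → ℕ) t : ℤ)) (x i t) =
        (∑ t, F K (x i t)) ^ r := by
      intro i
      rw [expand hc1, ← hVsum (fun v => ∏ t, s (2 * (v t : ℤ)) (x i t))]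
    simp only [h2] at h1
    have h3 : QJ (fun v : Vs => av c r (v : ι → ℕ)) (fun v : Vs => mo p (v : ι → ℕ)) ≤
        (60 * B ^ 2 * P * r) ^ r := by
      have h4 := quad_le hcc hK hr hp hi hrP
      rw [← hB, ← hP] at h4
      refine le_trans ?_ h4
      unfold QJ
      have e1 : ∀ v v' : Vs, av c r (v : ι → ℕ) * av c r (v' : ι → ℕ) *
          ((sg (Nat.gcd (mo p (v : ι → ℕ)) (mo p (v' : ι → ℕ))) : ℝ) /
          ((mo p (v : ι → ℕ) : ℝ) * mo p (v' : ι → ℕ))) =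
          av c r (v : ι → ℕ) * (av c r (v' : ι → ℕ) *
            ∏ t, kap (p t) ((v : ι → ℕ) t) ((v' : ι → ℕ) t)) := by
        intro v v'
        rw [kap_prod hp hi]
        ring
      simp only [e1]
      have e2 : ∀ v : Vs, ∑ v' : Vs, av c r (v : ι → ℕ) * (av c r (v' : ι → ℕ) *
            ∏ t, kap (p t) ((v : ι → ℕ) t) ((v' : ι → ℕ) t)) = av c r (v : ι → ℕ) *
            ∑ v' ∈ box ι (K * r), av c r v' * ∏ t, kap (p t) ((v : ι → ℕ) t) (v' t) := by
        intro v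
        rw [← mul_sum, hVsum (fun v' => ∏ t, kap (p t) ((v : ι → ℕ) t) (v' t))]
      simp only [e2]
      rw [← hVsum (fun v => ∑ v' ∈ box ι (K * r), av c r v' * ∏ t, kap (p t) (v t) (v' t))]
      refine le_of_eq ?_
      refine sum_congr rfl fun v _ => ?_
      rw [mul_sum]
      refine sum_congr rfl fun v' _ => ?_
      ring
    have h4 : ∀ i, P ≤ ∑ t, F K (x i t) := by
      intro i
      have e1 : ∀ t, (if 2 ≤ x i t then ((K : ℝ) + 1) ^ 2 else 0) - 1 ≤ F K (x i t) := by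
        intro t
        split_ifs with h5
        · exact F_ge h5 K
        · rw [zero_sub]
          exact F_ge_neg K _
      refine le_trans ?_ (sum_le_sum fun t _ => e1 t)
      rw [sum_sub_distrib, ← sum_filter, sum_const, sum_const, nsmul_eq_mul, nsmul_eq_mul, card_univ,
        mul_one, ← hP]
      have h6 : (2 : ℝ) * P ≤ ((K : ℝ) + 1) ^ 2 * (univ.filter fun t => 2 ≤ x i t).card := by
        rw [hP]
        exact_mod_cast hcount i
      linarith
    have h5 : (k : ℝ) * P ^ (2 * r) ≤ ∑ i, ((∑ t, F K (x i t)) ^ r) ^ 2 := by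
      have e1 : (k : ℝ) * P ^ (2 * r) = ∑ _i : Fin k, P ^ (2 * r) := by simp
      rw [e1]
      refine sum_le_sum fun i _ => ?_
      rw [← pow_mul, mul_comm r 2]
      exact pow_le_pow_left₀ hP0.le (h4 i) _
    have h6 : (1 : ℝ) ≤ (60 * B ^ 2 * P * r) ^ r := by
      apply one_le_pow₀
      have : 1 ≤ B ^ 2 := one_le_pow₀ hB1
      have : 1 ≤ 60 * B ^ 2 := by linarith
      have : 1 ≤ 60 * B ^ 2 * P := one_le_mul_of_one_le_of_one_le this hP1
      exact one_le_mul_of_one_le_of_one_le this hrr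
    have h7 : (k : ℝ) * P ^ (2 * r) ≤ 2 * C * Γ.index * T ^ 2 * (60 * B ^ 2 * P * r) ^ r := by
      refine h5.trans (h1.trans ?_)
      calc C * Γ.index * T ^ 2 * (QJ (fun v : Vs => av c r (v : ι → ℕ)) (fun v : Vs => mo p (v : ι → ℕ)) + 1) ≤
          C * Γ.index * T ^ 2 * (2 * (60 * B ^ 2 * P * r) ^ r) := by
            apply mul_le_mul_of_nonneg_left _ (by positivity)
            linarith
        _ = _ := by ring
    have h8 : (60 * B ^ 2 * r / P) ^ r * P ^ (2 * r) = (60 * B ^ 2 * P * r) ^ r := by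
      rw [pow_mul, ← mul_pow]
      congr 1
      field_simp
    have h9 : (k : ℝ) * P ^ (2 * r) ≤
        (2 * C * Γ.index * T ^ 2 * (60 * B ^ 2 * r / P) ^ r) * P ^ (2 * r) := by
      rw [mul_assoc _ _ (P ^ (2 * r)), h8]
      exact h7
    exact le_of_mul_le_mul_right h9 (by positivity)
  · -- the trivial case
    have h1 := h Γ N hN T hT Unit (fun _ => 1) (fun _ => mo p 0) (fun _ => zero_le_one)
      (fun _ => mo_pos hp 0) (fun _ => hcop 0) (fun _ => by
        have : mo p (0 : ι → ℕ) = 1 := by simp [mo]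
        rw [this]
        simpa using hroot) (by simpa using hroot) k κ f hκ hκ2 hf hli
      (fun i _ => ∏ t, s (2 * (((0 : ι → ℕ) t : ℕ) : ℤ)) (x i t)) (fun i _ => hx i 0)
    have h2 : ∀ i, ∏ t, s (2 * (((0 : ι → ℕ) t : ℕ) : ℤ)) (x i t) = 1 := by
      intro i
      refine prod_eq_one fun t _ => ?_
      simp [s_zero]
    simp only [h2] at h1
    have h3 : QJ (fun _ : Unit => (1 : ℝ)) (fun _ : Unit => mo p 0) = 1 := by
      have : mo p (0 : ι → ℕ) = 1 := by simp [mo]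
      unfold QJ
      simp [this, sg_one]
    rw [h3] at h1
    have h4 : (k : ℝ) ≤ 2 * C * Γ.index * T ^ 2 := by
      simp at h1
      linarith
    have h5 : (1 : ℝ) ≤ (60 * B ^ 2 * r / P) ^ r := by
      apply one_le_pow₀
      rw [le_div_iff₀ hP0, one_mul]
      push Not at hrP
      have h6 : 2 * P < r := by rw [hP]; exact_mod_cast hrP
      have : 1 ≤ B ^ 2 := one_le_pow₀ hB1
      nlinarith
    calc (k : ℝ) ≤ 2 * C * Γ.index * T ^ 2 := h4
      _ ≤ 2 * C * Γ.index * T ^ 2 * (60 * B ^ 2 * r / P) ^ r :=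
        le_mul_of_one_le_right (by positivity) h5

end P5

end

end Pool.Agent.XE31
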