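import Pool.Agent.XE31.P5

/-!
# Forms which are not tempered at many primes, final form
-/

set_option autoImplicit false
set_option linter.all false

open UpperHalfPlane CongruenceSubgroup
open scoped MatrixGroups

namespace Pool.Agent.XE31

open Pool.Agent.H369R2 Pool.Agent.N799.DT

noncomputable section

namespace P6

open P1 P5 H4 H9 H11 R2 Finset

/-- the Hecke parameters of a form at the primes of a set -/
def HasPar (N : ℕ) (Ps : Finset ℕ) (lam : ℕ → ℝ) (f : ℂ → ℂ) : Prop :=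
  ∀ m : ℕ, m ≠ 0 → m.primeFactors ⊆ Ps → ∃ S : Finset MZ, Reps N m S ∧
    ∀ z : ℍ, ∑ g ∈ S, f (mob g z) =
      ((m * ∏ p ∈ m.primeFactors, s (2 * (m.factorization p : ℤ)) (lam p) : ℝ) : ℂ) * f z

lemma fact_mo {Ps : Finset ℕ} (hP : ∀ p ∈ Ps, p.Prime) (v : Ps → ℕ) (q : Ps) :
    (mo (fun t : Ps => (t : ℕ)) v).factorization q = v q := by
  unfold mo
  have hne : ∀ t ∈ (univ : Finset Ps), ((t : ℕ) ^ v t) ≠ 0 :=
    fun t _ => pow_ne_zero _ (hP t t.2).ne_zero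
  rw [Nat.factorization_prod_apply hne, sum_eq_single q]
  · rw [(hP q q.2).factorization_pow]
    simp
  · intro t _ ht
    rw [(hP t t.2).factorization_pow, Finsupp.single_apply, if_neg]
    intro h
    exact ht (Subtype.ext h)
  · intro h
    exact absurd (mem_univ q) h

lemma fact_mo' {Ps : Finset ℕ} (hP : ∀ p ∈ Ps, p.Prime) (v : Ps → ℕ) :
    (mo (fun t : Ps => (t : ℕ)) v).primeFactors ⊆ Ps := by
  intro q hq
  rw [Nat.mem_primeFactors] at hq
  obtain ⟨hq1, hq2, _⟩ := hq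
  unfold mo at hq2
  rw [(Nat.Prime.prime hq1).dvd_finset_prod_iff] at hq2
  obtain ⟨t, _, ht⟩ := hq2
  have h1 := hq1.dvd_of_dvd_pow ht
  rw [(Nat.prime_dvd_prime_iff_eq hq1 (hP t t.2)).1 h1]
  exact t.2

lemma par_v {N : ℕ} {Ps : Finset ℕ} (hP : ∀ p ∈ Ps, p.Prime) {lam : ℕ → ℝ} {f : ℂ → ℂ}
    (h : HasPar N Ps lam f) (v : Ps → ℕ) : ∃ S : Finset MZ,
      Reps N (mo (fun t : Ps => (t : ℕ)) v) S ∧ ∀ z : ℍ, ∑ g ∈ S, f (mob g z) =
          ((mo (fun t : Ps => (t : ℕ)) v * ∏ t : Ps, s (2 * (v t : ℤ)) (lam t) : ℝ) : ℂ) * f z := by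
  obtain ⟨S, hS, hz⟩ := h (mo (fun t : Ps => (t : ℕ)) v) (mo_pos (fun t : Ps => hP t t.2) v).ne'
    (fact_mo' hP v)
  refine ⟨S, hS, fun z => ?_⟩
  rw [hz z]
  have h1 : ∏ p ∈ (mo (fun t : Ps => (t : ℕ)) v).primeFactors,
      s (2 * ((mo (fun t : Ps => (t : ℕ)) v).factorization p : ℤ)) (lam p) =
      ∏ t : Ps, s (2 * (v t : ℤ)) (lam t) := by
    have h2 : ∏ p ∈ (mo (fun t : Ps => (t : ℕ)) v).primeFactors,
      s (2 * ((mo (fun t : Ps => (t : ℕ)) v).factorization p : ℤ)) (lam p) =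
      ∏ p ∈ Ps, s (2 * ((mo (fun t : Ps => (t : ℕ)) v).factorization p : ℤ)) (lam p) := by
      refine prod_subset (fact_mo' hP v) fun p _ hp => ?_
      rw [← Nat.support_factorization, Finsupp.notMem_support_iff] at hp
      rw [hp]
      simp [s_zero]
    rw [h2, ← Finset.prod_coe_sort Ps]
    refine prod_congr rfl fun t _ => ?_
    rw [fact_mo hP v t]
  rw [h1]

/-- the number of forms which are not tempered at a positive proportion of a set of primes -/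
theorem prop : ∃ C : ℝ, 0 < C ∧ ∀ (Γ : Subgroup SL(2, ℤ)) (N : ℕ), IsLevel Γ N →
    ∀ T : ℝ, 1 ≤ T → ∀ (k : ℕ) (κ : Fin k → ℝ) (f : Fin k → ℂ → ℂ), (∀ i, 0 ≤ κ i) →
      (∀ i, κ i ≤ T ^ 2) → (∀ i, FormK Γ (κ i) (f i)) →
      LinearIndependent ℂ (fun i => fun z : ℍ => f i z) →
      ∀ (Ps : Finset ℕ) (y : ℕ), Ps.Nonempty → (∀ p ∈ Ps, p.Prime ∧ ¬ p ∣ N ∧ p ≤ y) →
      ∀ lam : Fin k → ℕ → ℝ, (∀ i, HasPar N Ps (lam i) (f i)) →
      ∀ η : ℝ, 0 < η → η ≤ 1 →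
      (∀ i, η * Ps.card ≤ ((Ps.filter fun p => 2 < lam i p).card : ℝ)) →
      ∀ r : ℕ, 1 ≤ r → (y : ℝ) ^ (5000 * r / Real.sqrt η) ≤ Γ.index * T →
      (k : ℝ) ≤ C * (Γ.index * T ^ 2) * (C * r / (η ^ 2 * Ps.card)) ^ r := by
  classical
  obtain ⟨C, hC, h⟩ := many
  refine ⟨max C 2160, lt_max_of_lt_left hC, ?_⟩
  intro Γ N hN T hT k κ f hκ hκ2 hf hli Ps y hne hPs lam hlam η hη hη1 hcount r hr hy
  have hP : ∀ p ∈ Ps, p.Prime := fun p hp => (hPs p hp).1
  obtain ⟨w, hw⟩ : ∃ w : ℝ, w = Real.sqrt (2 / η) := ⟨_, rfl⟩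
  have hw2 : w ^ 2 = 2 / η := by rw [hw]; exact Real.sq_sqrt (by positivity)
  have hw0 : 0 ≤ w := by rw [hw]; exact Real.sqrt_nonneg _
  have h2η : 2 ≤ 2 / η := by
    rw [le_div_iff₀ hη]
    linarith
  have hw14 : 14 / 10 ≤ w := by
    by_contra hcon
    push Not at hcon
    nlinarith
  -- the parameter K
  obtain ⟨K, hK⟩ : ∃ K : ℕ, K = ⌈w⌉₊ - 1 := ⟨_, rfl⟩
  have hceil : w ≤ ⌈w⌉₊ := Nat.le_ceil w
  have hceil2 : (⌈w⌉₊ : ℝ) < w + 1 := Nat.ceil_lt_add_one hw0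
  have hceil3 : 2 ≤ ⌈w⌉₊ := by
    have h1 : (1 : ℝ) < ⌈w⌉₊ := by linarith
    have : 1 < ⌈w⌉₊ := by exact_mod_cast h1
    omega
  have hK1 : 1 ≤ K := by omega
  have hKc : ((K : ℕ) : ℝ) + 1 = ⌈w⌉₊ := by
    have : K + 1 = ⌈w⌉₊ := by omega
    rw [← this]
    push_cast
    rfl
  have hKlo : w ≤ (K : ℝ) + 1 := by rw [hKc]; exact hceil
  have hKhi : (K : ℝ) ≤ w := by linarith
  have hK0 : (0 : ℝ) ≤ K := Nat.cast_nonneg K
  have hsq : 2 / η ≤ ((K : ℝ) + 1) ^ 2 := by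
    rw [← hw2]
    exact pow_le_pow_left₀ hw0 hKlo 2
  have hsq2 : ((K : ℝ) + 1) ^ 2 ≤ 6 / η := by
    have e : 6 / η = 3 * w ^ 2 := by rw [hw2]; ring
    rw [e]
    nlinarith
  have hcardpos : 0 < Ps.card := card_pos.2 hne
  have hcp : (0 : ℝ) < Ps.card := by exact_mod_cast hcardpos
  have hr1 : (1 : ℝ) ≤ r := by exact_mod_cast hr
  have hy1 : (1 : ℝ) ≤ y := by
    obtain ⟨p, hp⟩ := hne
    exact_mod_cast (hPs p hp).1.pos.trans_le (hPs p hp).2.2
  have hyK : (y : ℝ) ^ (3000 * K * r) ≤ Γ.index * T := by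
    refine le_trans ?_ hy
    rw [← Real.rpow_natCast]
    apply Real.rpow_le_rpow_of_exponent_le hy1
    push_cast
    have hsη : 0 < Real.sqrt η := Real.sqrt_pos.2 hη
    rw [le_div_iff₀ hsη]
    have e1 : w * Real.sqrt η = Real.sqrt 2 := by
      rw [hw, ← Real.sqrt_mul (by positivity)]
      congr 1
      field_simp
    have e2 : Real.sqrt 2 ≤ 3 / 2 := by
      rw [Real.sqrt_le_left (by norm_num)]
      norm_num
    have e3 : (K : ℝ) * Real.sqrt η ≤ 3 / 2 := by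
      have := mul_le_mul_of_nonneg_right hKhi hsη.le
      linarith
    calc 3000 * (K : ℝ) * r * Real.sqrt η = 3000 * r * (K * Real.sqrt η) := by ring
      _ ≤ 3000 * r * (3 / 2) := mul_le_mul_of_nonneg_left e3 (by positivity)
      _ ≤ 5000 * r := by linarith
  have hne' : Nonempty Ps := by
    obtain ⟨p, hp⟩ := hne
    exact ⟨⟨p, hp⟩⟩
  have hfilter : ∀ i, (univ.filter fun t : Ps => 2 ≤ lam i t).card =
      (Ps.filter fun p => 2 ≤ lam i p).card := by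
    intro i
    have h1 := Finset.sum_coe_sort Ps (fun p => if 2 ≤ lam i p then 1 else 0)
    rw [card_filter, card_filter]
    exact h1
  have h1 := h Γ N hN T hT Ps (fun t => (t : ℕ)) y hne' (fun t => hP t t.2)
    Subtype.val_injective (fun t => (hPs t t.2).2.1) (fun t => (hPs t t.2).2.2) K r hK1 hr hyK k κ f
    hκ hκ2 hf hli (fun i t => lam i t) (fun i v => par_v hP (hlam i) v) (by
      intro i
      rw [hfilter, Fintype.card_coe]
      have e1 : (Ps.filter fun p => 2 < lam i p).card ≤ (Ps.filter fun p => 2 ≤ lam i p).card := by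
        apply card_le_card
        intro p hp
        rw [mem_filter] at hp ⊢
        exact ⟨hp.1, hp.2.le⟩
      have e2 : ((Ps.filter fun p => 2 < lam i p).card : ℝ) ≤
          ((Ps.filter fun p => 2 ≤ lam i p).card : ℝ) := by exact_mod_cast e1
      have e3 := (hcount i).trans e2
      have e4 : (2 : ℝ) * Ps.card ≤ ((K : ℝ) + 1) ^ 2 * (Ps.filter fun p => 2 ≤ lam i p).card := by
        calc (2 : ℝ) * Ps.card = 2 / η * (η * Ps.card) := by field_simp
          _ ≤ ((K : ℝ) + 1) ^ 2 * (Ps.filter fun p => 2 ≤ lam i p).card :=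
            mul_le_mul hsq e3 (by positivity) (by positivity)
      exact_mod_cast e4)
  rw [Fintype.card_coe] at h1
  refine h1.trans ?_
  have h2 : 60 * (((K : ℝ) + 1) ^ 2 - 1) ^ 2 * r / Ps.card ≤
      max C 2160 * r / (η ^ 2 * Ps.card) := by
    have e1 : 0 ≤ ((K : ℝ) + 1) ^ 2 - 1 := by nlinarith
    have e2 : (((K : ℝ) + 1) ^ 2 - 1) ^ 2 ≤ (6 / η) ^ 2 := pow_le_pow_left₀ e1 (by linarith) 2
    have e3 : 60 * (6 / η) ^ 2 * r / Ps.card = 2160 * r / (η ^ 2 * Ps.card) := by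
      field_simp
      norm_num
    calc 60 * (((K : ℝ) + 1) ^ 2 - 1) ^ 2 * r / Ps.card ≤ 60 * (6 / η) ^ 2 * r / Ps.card := by
          gcongr
      _ = 2160 * r / (η ^ 2 * Ps.card) := e3
      _ ≤ max C 2160 * r / (η ^ 2 * Ps.card) := by
          gcongr
          exact le_max_right _ _
  have e1 : 0 ≤ ((K : ℝ) + 1) ^ 2 - 1 := by nlinarith
  rw [mul_assoc C]
  apply mul_le_mul
  · exact mul_le_mul_of_nonneg_right (le_max_left _ _) (by positivity)
  · exact pow_le_pow_left₀ (by positivity) h2 r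
  · positivity
  · have : 0 ≤ max C 2160 := le_trans hC.le (le_max_left _ _)
    positivity

/-- the trivial bound -/
theorem triv : ∃ C : ℝ, 0 < C ∧ ∀ (Γ : Subgroup SL(2, ℤ)) (N : ℕ), IsLevel Γ N →
    ∀ T : ℝ, 1 ≤ T → ∀ (k : ℕ) (κ : Fin k → ℝ) (f : Fin k → ℂ → ℂ), (∀ i, 0 ≤ κ i) →
      (∀ i, κ i ≤ T ^ 2) → (∀ i, FormK Γ (κ i) (f i)) →
      LinearIndependent ℂ (fun i => fun z : ℍ => f i z) →
      ∀ (Ps : Finset ℕ) (lam : Fin k → ℕ → ℝ), (∀ i, HasPar N Ps (lam i) (f i)) →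
      (k : ℝ) ≤ C * (Γ.index * T ^ 2) := by
  obtain ⟨C, hC, h⟩ := R5.main
  refine ⟨2 * C, by positivity, ?_⟩
  intro Γ N hN T hT k κ f hκ hκ2 hf hli Ps lam hlam
  have hN0 := hN.1
  have : NeZero N := ⟨hN0.ne'⟩
  have hfin : Γ.FiniteIndex := Subgroup.finiteIndex_of_le hN.2.1
  have hn1 : (1 : ℝ) ≤ Γ.index := by exact_mod_cast Nat.pos_of_ne_zero hfin.index_ne_zero
  have hX1 : (1 : ℝ) ≤ Γ.index * T := one_le_mul_of_one_le_of_one_le hn1 hT
  have hroot : (1 : ℝ) ≤ (Γ.index * T) ^ (1 / 1000 : ℝ) := Real.one_le_rpow hX1 (by norm_num)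
  have h1 := h Γ N hN T hT Unit (fun _ => 1) (fun _ => 1) (fun _ => zero_le_one)
      (fun _ => one_pos) (fun _ => Nat.coprime_one_left N) (fun _ => by simpa using hroot)
      (by simpa using hroot) k κ f hκ hκ2 hf hli (fun i _ => 1) (fun i _ => by
        obtain ⟨S, hS, hz⟩ := hlam i 1 one_ne_zero (by simp)
        refine ⟨S, hS, fun z => ?_⟩
        rw [hz z]
        simp)
  have h3 : QJ (fun _ : Unit => (1 : ℝ)) (fun _ : Unit => 1) = 1 := by
    unfold QJ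
    simp [P4.sg_one]
  rw [h3] at h1
  simp at h1
  linarith

/-- the power saving -/
theorem power (η δ A : ℝ) (hη : 0 < η) (hη1 : η ≤ 1) (hδ : 0 < δ) (hA : 1 ≤ A) :
    ∃ C c : ℝ, 0 < C ∧ 0 < c ∧ ∀ (Γ : Subgroup SL(2, ℤ)) (N : ℕ), IsLevel Γ N →
    ∀ T : ℝ, 1 ≤ T → ∀ (k : ℕ) (κ : Fin k → ℝ) (f : Fin k → ℂ → ℂ), (∀ i, 0 ≤ κ i) →
      (∀ i, κ i ≤ T ^ 2) → (∀ i, FormK Γ (κ i) (f i)) →
      LinearIndependent ℂ (fun i => fun z : ℍ => f i z) →
      ∀ Ps : Finset ℕ, (∀ p ∈ Ps, p.Prime ∧ ¬ p ∣ N ∧ (p : ℝ) ≤ Real.log (Γ.index * T) ^ A) →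
      Real.log (Γ.index * T) ^ (1 + δ) ≤ Ps.card →
      ∀ lam : Fin k → ℕ → ℝ, (∀ i, HasPar N Ps (lam i) (f i)) →
      (∀ i, η * Ps.card ≤ ((Ps.filter fun p => 2 < lam i p).card : ℝ)) →
      (k : ℝ) ≤ C * (Γ.index * T ^ 2) * (Γ.index * T) ^ (-c) := by
  obtain ⟨C₁, hC₁, h⟩ := prop
  obtain ⟨C₂, hC₂, ht⟩ := triv
  obtain ⟨L₀, hL₀⟩ : ∃ L₀ : ℝ, L₀ = max 3 (max ((10000 * A) ^ 2 / η) ((C₁ / η ^ 2) ^ (2 / δ))) :=
    ⟨_, rfl⟩
  have hL3 : 3 ≤ L₀ := by rw [hL₀]; exact le_max_left _ _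
  have hLA : (10000 * A) ^ 2 / η ≤ L₀ := by
    rw [hL₀]
    exact (le_max_left _ _).trans (le_max_right _ _)
  have hLC : (C₁ / η ^ 2) ^ (2 / δ) ≤ L₀ := by
    rw [hL₀]
    exact (le_max_right _ _).trans (le_max_right _ _)
  have hsη : 0 < Real.sqrt η := Real.sqrt_pos.2 hη
  obtain ⟨c, hc⟩ : ∃ c : ℝ, c = δ * Real.sqrt η / (20000 * A) := ⟨_, rfl⟩
  have hc0 : 0 < c := by rw [hc]; positivity
  refine ⟨max C₁ (C₂ * Real.exp (c * L₀)), c, lt_max_of_lt_left hC₁, hc0, ?_⟩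
  intro Γ N hN T hT k κ f hκ hκ2 hf hli Ps hPs hcard lam hlam hcount
  have hN0 := hN.1
  have : NeZero N := ⟨hN0.ne'⟩
  have hfin : Γ.FiniteIndex := Subgroup.finiteIndex_of_le hN.2.1
  have hn1 : (1 : ℝ) ≤ Γ.index := by exact_mod_cast Nat.pos_of_ne_zero hfin.index_ne_zero
  have hX1 : (1 : ℝ) ≤ Γ.index * T := one_le_mul_of_one_le_of_one_le hn1 hT
  obtain ⟨X, hX⟩ : ∃ X : ℝ, X = Γ.index * T := ⟨_, rfl⟩
  obtain ⟨W, hW⟩ : ∃ W : ℝ, W = Γ.index * T ^ 2 := ⟨_, rfl⟩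
  have hW0 : 0 ≤ W := by rw [hW]; positivity
  rw [← hX] at hX1 hPs hcard ⊢
  rw [← hW]
  have hX0 : 0 < X := by linarith
  obtain ⟨L, hL⟩ : ∃ L : ℝ, L = Real.log X := ⟨_, rfl⟩
  rw [← hL] at hPs hcard
  have hXc : X ^ (-c) = Real.exp (-(c * L)) := by
    rw [Real.rpow_def_of_pos hX0, ← hL]
    congr 1
    ring
  rw [hXc]
  by_cases hLL : L < L₀
  · have h1 := ht Γ N hN T hT k κ f hκ hκ2 hf hli Ps lam hlam
    rw [← hW] at h1
    have h2 : Real.exp (c * L) ≤ Real.exp (c * L₀) := by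
      apply Real.exp_le_exp.2
      exact mul_le_mul_of_nonneg_left hLL.le hc0.le
    calc (k : ℝ) ≤ C₂ * W := h1
      _ = C₂ * (Real.exp (c * L) * Real.exp (-(c * L))) * W := by
          rw [← Real.exp_add, add_neg_cancel, Real.exp_zero, mul_one]
      _ ≤ C₂ * (Real.exp (c * L₀) * Real.exp (-(c * L))) * W := by gcongr
      _ = C₂ * Real.exp (c * L₀) * W * Real.exp (-(c * L)) := by ring
      _ ≤ max C₁ (C₂ * Real.exp (c * L₀)) * W * Real.exp (-(c * L)) := by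
          gcongr
          exact le_max_right _ _
  · push Not at hLL
    have hL1 : 3 ≤ L := hL3.trans hLL
    have hL0 : 0 < L := by linarith
    have hlL : 0 < Real.log L := Real.log_pos (by linarith)
    have hlL1 : 1 ≤ Real.log L := by
      rw [Real.le_log_iff_exp_le hL0]
      have := Real.exp_one_lt_d9
      linarith
    obtain ⟨ρ, hρ⟩ : ∃ ρ : ℝ, ρ = Real.sqrt η * L / (5000 * A * Real.log L) := ⟨_, rfl⟩
    have hρ1 : 1 ≤ ρ := by
      rw [hρ, le_div_iff₀ (by positivity), one_mul]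
      have e1 : Real.log L ≤ 2 * L ^ (1 / 2 : ℝ) := by
        have := Real.log_le_rpow_div hL0.le (ε := 1 / 2) (by norm_num)
        linarith
      rw [← Real.sqrt_eq_rpow] at e1
      have e2 : Real.sqrt L * Real.sqrt L = L := Real.mul_self_sqrt hL0.le
      have e3 : 10000 * A ≤ Real.sqrt η * Real.sqrt L := by
        rw [← Real.sqrt_mul hη.le]
        apply Real.le_sqrt_of_sq_le
        have := hLA.trans hLL
        rw [div_le_iff₀ hη] at this
        linarith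
      have e4 := mul_le_mul_of_nonneg_right e3 (Real.sqrt_nonneg L)
      calc 5000 * A * Real.log L ≤ 5000 * A * (2 * Real.sqrt L) :=
            mul_le_mul_of_nonneg_left e1 (by positivity)
        _ = 10000 * A * Real.sqrt L := by ring
        _ ≤ Real.sqrt η * Real.sqrt L * Real.sqrt L := e4
        _ = Real.sqrt η * L := by rw [mul_assoc, e2]
    obtain ⟨r, hr⟩ : ∃ r : ℕ, r = ⌊ρ⌋₊ := ⟨_, rfl⟩
    have hr1 : 1 ≤ r := by rw [hr]; exact Nat.le_floor (by exact_mod_cast hρ1)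
    have hrr : (1 : ℝ) ≤ r := by exact_mod_cast hr1
    have hrle : (r : ℝ) ≤ ρ := by rw [hr]; exact Nat.floor_le (by linarith)
    have hrlt : ρ < r + 1 := by rw [hr]; exact Nat.lt_floor_add_one _
    have hrρ : ρ ≤ 2 * r := by linarith
    have hLA0 : 0 ≤ L ^ A := by positivity
    obtain ⟨y, hy⟩ : ∃ y : ℕ, y = ⌊L ^ A⌋₊ := ⟨_, rfl⟩
    have hyle : (y : ℝ) ≤ L ^ A := by rw [hy]; exact Nat.floor_le hLA0
    have hcpos : (0 : ℝ) < Ps.card := lt_of_lt_of_le (by positivity) hcard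
    have hne : Ps.Nonempty := card_pos.1 (by exact_mod_cast hcpos)
    have hyX : (y : ℝ) ^ (5000 * r / Real.sqrt η) ≤ Γ.index * T := by
      rw [← hX]
      have e1 : (y : ℝ) ^ (5000 * r / Real.sqrt η) ≤ (L ^ A) ^ (5000 * r / Real.sqrt η) :=
        Real.rpow_le_rpow (Nat.cast_nonneg _) hyle (by positivity)
      refine e1.trans ?_
      rw [← Real.rpow_mul hL0.le, Real.rpow_def_of_pos hL0]
      have e2 : Real.log L * (A * (5000 * r / Real.sqrt η)) ≤ L := by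
        have e3 := hrle
        rw [hρ, le_div_iff₀ (by positivity)] at e3
        have e4 : Real.log L * (A * (5000 * r / Real.sqrt η)) =
            (r * (5000 * A * Real.log L)) / Real.sqrt η := by ring
        rw [e4, div_le_iff₀ hsη]
        linarith
      calc Real.exp (Real.log L * (A * (5000 * r / Real.sqrt η))) ≤ Real.exp L :=
            Real.exp_le_exp.2 e2
        _ = X := by rw [hL, Real.exp_log hX0]
    have h1 := h Γ N hN T hT k κ f hκ hκ2 hf hli Ps y hne (fun p hp =>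
      ⟨(hPs p hp).1, (hPs p hp).2.1, by
        rw [hy]
        exact Nat.le_floor (hPs p hp).2.2⟩) lam hlam η hη hη1 hcount r hr1 hyX
    rw [← hW] at h1
    refine h1.trans ?_
    have h2 : C₁ * r / (η ^ 2 * Ps.card) ≤ L ^ (-(δ / 2)) := by
      have e1 : (r : ℝ) ≤ L := by
        refine hrle.trans ?_
        rw [hρ, div_le_iff₀ (by positivity)]
        have e2 : Real.sqrt η ≤ 1 := Real.sqrt_le_one.2 hη1
        have e3 : 1 ≤ 5000 * A * Real.log L := by nlinarith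
        have e4 : Real.sqrt η * L ≤ 1 * L := mul_le_mul_of_nonneg_right e2 hL0.le
        have e5 : L * 1 ≤ L * (5000 * A * Real.log L) := mul_le_mul_of_nonneg_left e3 hL0.le
        linarith
      have e2 : C₁ / η ^ 2 ≤ L ^ (δ / 2) := by
        have e3 := hLC.trans hLL
        have e4 := Real.rpow_le_rpow (by positivity) e3 (z := δ / 2) (by positivity)
        rw [← Real.rpow_mul (by positivity)] at e4
        have e5 : 2 / δ * (δ / 2) = 1 := by field_simp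
        rw [e5, Real.rpow_one] at e4
        exact e4
      calc C₁ * r / (η ^ 2 * Ps.card) ≤ C₁ * L / (η ^ 2 * L ^ (1 + δ)) := by gcongr
        _ = C₁ / η ^ 2 * L ^ (-δ) := by
            rw [Real.rpow_add hL0, Real.rpow_one, Real.rpow_neg hL0.le]
            field_simp
        _ ≤ L ^ (δ / 2) * L ^ (-δ) := by gcongr
        _ = L ^ (-(δ / 2)) := by
            rw [← Real.rpow_add hL0]
            congr 1
            ring
    have h3 : (C₁ * r / (η ^ 2 * Ps.card)) ^ r ≤ Real.exp (-(c * L)) := by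
      refine (pow_le_pow_left₀ (by positivity) h2 r).trans ?_
      rw [← Real.rpow_natCast, ← Real.rpow_mul hL0.le, Real.rpow_def_of_pos hL0]
      apply Real.exp_le_exp.2
      have e1 : c * L = δ / 2 * (ρ / 2) * Real.log L := by
        rw [hc, hρ]
        field_simp
        ring
      have e2 : δ / 2 * (ρ / 2) * Real.log L ≤ δ / 2 * r * Real.log L := by
        gcongr
        linarith
      have e3 : Real.log L * (-(δ / 2) * r) = -(δ / 2 * r * Real.log L) := by ring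
      rw [e3, e1]
      linarith
    calc C₁ * W * (C₁ * r / (η ^ 2 * Ps.card)) ^ r ≤ C₁ * W * Real.exp (-(c * L)) := by gcongr
      _ ≤ max C₁ (C₂ * Real.exp (c * L₀)) * W * Real.exp (-(c * L)) := by
          gcongr
          exact le_max_left _ _

end P6

end

end Pool.Agent.XE31
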