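import Pool.Agent.XE31.P6

/-!
# Hecke parameters up to sign
-/

set_option autoImplicit false
set_option linter.all false

namespace Pool.Agent.XE31

noncomputable section

namespace P7

open P1 P6

lemma s_even (x : ℝ) (c : ℕ) : s (2 * (c : ℤ)) (-x) = s (2 * (c : ℤ)) x := by
  induction c using Nat.twoStepInduction with
  | zero => simp [s_zero]
  | one =>
    have h2 : ∀ x : ℝ, s 2 x = x ^ 2 - 1 := by
      intro x
      have := s_add_two 0 x
      simp only [zero_add, s_one, s_zero] at this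
      rw [this]
      ring
    push_cast
    rw [h2, h2]
    ring
  | more c ih1 ih2 =>
    have h1 := s_step (c + 1) x
    have h2 := s_step (c + 1) (-x)
    have e1 : (c : ℤ) + 1 + 1 = ((c + 2 : ℕ) : ℤ) := by push_cast; ring
    have e2 : (c : ℤ) + 1 - 1 = c := by ring
    have e3 : (c : ℤ) + 1 = ((c + 1 : ℕ) : ℤ) := by push_cast; ring
    rw [e1, e2, e3] at h1 h2
    rw [ih1, ih2] at h2
    linear_combination h2 - h1

lemma s_abs (x : ℝ) (c : ℕ) : s (2 * (c : ℤ)) |x| = s (2 * (c : ℤ)) x := by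
  rcases abs_choice x with h | h
  · rw [h]
  · rw [h, s_even]

lemma par_abs {N : ℕ} {Ps : Finset ℕ} {lam : ℕ → ℝ} {f : ℂ → ℂ} (h : HasPar N Ps lam f) :
    HasPar N Ps (fun p => |lam p|) f := by
  intro m hm hmP
  obtain ⟨S, hS, hz⟩ := h m hm hmP
  refine ⟨S, hS, fun z => ?_⟩
  rw [hz z]
  have : ∏ p ∈ m.primeFactors, s (2 * (m.factorization p : ℤ)) (lam p) =
      ∏ p ∈ m.primeFactors, s (2 * (m.factorization p : ℤ)) |lam p| :=
    Finset.prod_congr rfl fun p _ => (s_abs _ _).symm
  rw [this]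

end P7

end

end Pool.Agent.XE31
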