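import Pool.Agent.XE31.H7

/-!
# Integral matrices of determinant `D ^ 2` with prescribed class modulo `N`
-/

set_option autoImplicit false
set_option linter.all false

open UpperHalfPlane MeasureTheory Metric ModularGroup CongruenceSubgroup
open scoped MatrixGroups ENNReal Modular Topology NNReal

namespace Pool.Agent.XE31

open Pool.Agent.H369R2 Pool.Agent.N799.DT

noncomputable section

namespace Q1

open H4

/-- `η ≡ D τ` modulo `N` -/
def Cg (N D : ℕ) (η : MZ) (τ : SL(2, ℤ)) : Prop :=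
  ∀ i j, (N : ℤ) ∣ η i j - D * τ i j

/-- the trace is determined modulo `N μ` -/
theorem trace_congr {N μ D : ℕ} (hN : 0 < N) (hμ : μ ∣ N) (hD : Nat.Coprime D N) {A B : MZ}
    (hA : A.det = (D : ℤ) ^ 2) (hB : B.det = (D : ℤ) ^ 2) (h : ∀ i j, (N : ℤ) ∣ A i j - B i j)
    (h01 : (μ : ℤ) ∣ B 0 1) (h10 : (μ : ℤ) ∣ B 1 0) (hd : (μ : ℤ) ∣ B 0 0 - B 1 1) :
    ((N * μ : ℕ) : ℤ) ∣ (A 0 0 + A 1 1) - (B 0 0 + B 1 1) := by
  choose X hX using h
  obtain ⟨b, hb⟩ := h01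
  obtain ⟨c, hc⟩ := h10
  obtain ⟨e, he⟩ := hd
  obtain ⟨q, hq⟩ := hμ
  rw [Matrix.det_fin_two] at hA hB
  have x00 := hX 0 0
  have x01 := hX 0 1
  have x10 := hX 1 0
  have x11 := hX 1 1
  obtain ⟨u, hu⟩ : ∃ u, u = X 0 0 := ⟨_, rfl⟩
  obtain ⟨v, hv⟩ : ∃ v, v = X 0 1 := ⟨_, rfl⟩
  obtain ⟨w, hw⟩ : ∃ w, w = X 1 0 := ⟨_, rfl⟩
  obtain ⟨z, hz⟩ : ∃ z, z = X 1 1 := ⟨_, rfl⟩
  rw [← hu] at x00
  rw [← hv] at x01
  rw [← hw] at x10
  rw [← hz] at x11
  have hNz : (N : ℤ) ≠ 0 := by exact_mod_cast hN.ne'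
  have hNq : (N : ℤ) = μ * q := by rw [hq]; push_cast; ring
  -- the linear relation
  have e1 : (N : ℤ) * (B 0 0 * z + B 1 1 * u - B 0 1 * w - B 1 0 * v + N * (u * z - v * w)) = 0 := by
    have a00 : A 0 0 = B 0 0 + N * u := by linarith
    have a01 : A 0 1 = B 0 1 + N * v := by linarith
    have a10 : A 1 0 = B 1 0 + N * w := by linarith
    have a11 : A 1 1 = B 1 1 + N * z := by linarith
    rw [a00, a01, a10, a11] at hA
    linear_combination hA - hB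
  have e2 := (mul_eq_zero.1 e1).resolve_left hNz
  have e3 : (μ : ℤ) ∣ B 1 1 * (u + z) := by
    refine ⟨-(e * z - b * w - c * v + q * (u * z - v * w)), ?_⟩
    linear_combination e2 - z * he + w * hb + v * hc - (u * z - v * w) * hNq
  have e4 : IsCoprime (B 1 1) (μ : ℤ) := by
    have h1 : IsCoprime ((D : ℤ) ^ 2) (μ : ℤ) := by
      have h2 : Nat.Coprime D μ := Nat.Coprime.coprime_dvd_right ⟨q, hq⟩ hD
      exact (Nat.isCoprime_iff_coprime.2 h2).pow_left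
    have h3 : IsCoprime (B 1 1 * B 1 1) (μ : ℤ) := by
      have h4 : B 1 1 * B 1 1 = (D : ℤ) ^ 2 + μ * (-(e * B 1 1) + μ * (b * c)) := by
        linear_combination hB - B 1 1 * he + B 1 0 * hb + (μ : ℤ) * b * hc
      rw [h4]
      exact IsCoprime.add_mul_left_left h1 _
    exact h3.of_mul_left_left
  have e5 : (μ : ℤ) ∣ u + z := e4.symm.dvd_of_dvd_mul_left e3
  obtain ⟨r, hr⟩ := e5
  refine ⟨r, ?_⟩
  push_cast
  linear_combination x00 + x11 + (N : ℤ) * hr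

/-- the hypotheses of the counting lemma for the matrices conjugate to `h` -/
theorem conj_points' {N D : ℕ} [NeZero N] (hD : Nat.Coprime D N) (h : SL(2, ZMod N)) :
    ∃ t : ℤ, ∀ (η : MZ) (τ : SL(2, ℤ)), η.det = (D : ℤ) ^ 2 → Cg N D η τ →
      IsConj (red N τ) h → (lev N h : ℤ) ∣ η 0 1 ∧ (lev N h : ℤ) ∣ η 1 0 ∧
      (lev N h : ℤ) ∣ η 0 0 - η 1 1 ∧ ((N * lev N h : ℕ) : ℤ) ∣ η 0 0 + η 1 1 - t := by
  have hN : 0 < N := Nat.pos_of_ne_zero (NeZero.ne N)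
  obtain ⟨k, hk⟩ := surj N hN h
  refine ⟨D * (k 0 0 + k 1 1), fun η τ hη hc hδ => ?_⟩
  obtain ⟨c, hc'⟩ := isConj_iff.1 hδ
  obtain ⟨g, hg⟩ := surj N hN c
  have hred : red N τ = red N (g⁻¹ * k * g) := by
    rw [map_mul, map_mul, map_inv, hg, hk, ← hc']
    group
  obtain ⟨a1, a2, a3⟩ := Count.lift_dvd hk
  obtain ⟨b1, b2, b3, b4⟩ := Count.conj_dvd _ g k a1 a2 a3
  have hmN : (lev N h : ℤ) ∣ (N : ℤ) := Int.natCast_dvd_natCast.2 (Count.lev_dvd N h)
  obtain ⟨B, hB⟩ : ∃ B : MZ, B = (D : ℤ) • ((g⁻¹ * k * g : SL(2, ℤ)) : MZ) := ⟨_, rfl⟩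
  have hBa : ∀ i j, B i j = D * (g⁻¹ * k * g) i j := fun i j => by rw [hB]; rfl
  have hBd : B.det = (D : ℤ) ^ 2 := by
    rw [hB, Matrix.det_smul, Matrix.SpecialLinearGroup.det_coe]
    simp
  have hcB : ∀ i j, (N : ℤ) ∣ η i j - B i j := by
    intro i j
    have h1 := hc i j
    have h2 := Count.red_dvd hred i j
    rw [hBa]
    have : η i j - D * (g⁻¹ * k * g) i j = (η i j - D * τ i j) + D * (τ i j - (g⁻¹ * k * g) i j) := by
      ring
    rw [this]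
    exact dvd_add h1 (h2.mul_left _)
  have B01 : (lev N h : ℤ) ∣ B 0 1 := by rw [hBa]; exact b1.mul_left _
  have B10 : (lev N h : ℤ) ∣ B 1 0 := by rw [hBa]; exact b2.mul_left _
  have Bd : (lev N h : ℤ) ∣ B 0 0 - B 1 1 := by
    rw [hBa, hBa, ← mul_sub]; exact b3.mul_left _
  have e := fun i j => hmN.trans (hcB i j)
  refine ⟨?_, ?_, ?_, ?_⟩
  · have := dvd_add (e 0 1) B01
    rwa [sub_add_cancel] at this
  · have := dvd_add (e 1 0) B10
    rwa [sub_add_cancel] at this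
  · have h5 := dvd_add (dvd_sub (e 0 0) (e 1 1)) Bd
    have h6 : η 0 0 - B 0 0 - (η 1 1 - B 1 1) + (B 0 0 - B 1 1) = η 0 0 - η 1 1 := by ring
    rwa [h6] at h5
  · have h5 := trace_congr hN (Count.lev_dvd N h) hD hη hBd hcB B01 B10 Bd
    rw [hBa, hBa, ← mul_add, b4] at h5
    exact h5

/-- the number of fixed points depends only on the class modulo `N` -/
theorem fix_congr {Γ : Subgroup SL(2, ℤ)} {N : ℕ} (hΓ : Gamma N ≤ Γ) {τ τ' : SL(2, ℤ)}
    (h : red N τ = red N τ') : fix Γ τ = fix Γ τ' := by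
  have h1 : ∀ x : SL(2, ℤ) ⧸ Γ, τ • x = τ' • x := by
    intro x
    induction x using QuotientGroup.induction_on with
    | H g =>
      show ((τ * g : SL(2, ℤ)) : SL(2, ℤ) ⧸ Γ) = ((τ' * g : SL(2, ℤ)) : SL(2, ℤ) ⧸ Γ)
      rw [QuotientGroup.eq]
      apply hΓ
      show (τ * g)⁻¹ * (τ' * g) ∈ (red N).ker
      rw [MonoidHom.mem_ker, map_mul, map_inv, map_mul, map_mul, h, inv_mul_cancel]
  unfold fix
  refine Nat.card_congr (Equiv.subtypeEquivRight fun x => ?_)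
  rw [h1 x]

/-- two matrices with the same class -/
theorem red_of_Cg {N D : ℕ} [NeZero N] (hD : Nat.Coprime D N) {η : MZ} {τ τ' : SL(2, ℤ)}
    (h : Cg N D η τ) (h' : Cg N D η τ') : red N τ = red N τ' := by
  have hu : IsUnit (D : ZMod N) := (ZMod.isUnit_iff_coprime D N).2 hD
  apply Subtype.ext
  ext i j
  have h1 : (N : ℤ) ∣ D * τ i j - D * τ' i j := by
    have := dvd_sub (h' i j) (h i j)
    have e : η i j - D * τ' i j - (η i j - D * τ i j) = D * τ i j - D * τ' i j := by ring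
    rwa [e] at this
  have h2 : ((D * τ' i j : ℤ) : ZMod N) = ((D * τ i j : ℤ) : ZMod N) := by
    rw [ZMod.intCast_eq_intCast_iff_dvd_sub]
    exact h1
  push_cast at h2
  have h3 := hu.mul_left_cancel h2
  show ((τ i j : ℤ) : ZMod N) = ((τ' i j : ℤ) : ZMod N)
  exact h3.symm

/-- division by `k` -/
theorem Cg_div {N D D' k : ℕ} (hk : Nat.Coprime k N) (hD : D = k * D') {η η' : MZ}
    (hη : ∀ i j, η i j = k * η' i j) {τ : SL(2, ℤ)} (h : Cg N D η τ) : Cg N D' η' τ := by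
  intro i j
  have h1 := h i j
  rw [hη, hD] at h1
  push_cast at h1
  have e : (k : ℤ) * η' i j - k * D' * τ i j = k * (η' i j - D' * τ i j) := by ring
  rw [e] at h1
  exact (Nat.isCoprime_iff_coprime.2 hk).symm.dvd_of_dvd_mul_left h1

end Q1

end

end Pool.Agent.XE31
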