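import Pool.Agent.XE31.Q1
import Pool.Agent.H369R2.S6b

/-!
# Integral matrices of determinant `D ^ 2` with the trace fixed modulo `N μ`, scalar modulo `μ`
-/

set_option autoImplicit false
set_option linter.all false

open UpperHalfPlane MeasureTheory Metric ModularGroup CongruenceSubgroup
open scoped MatrixGroups ENNReal Modular Topology NNReal

namespace Pool.Agent.XE31

open Pool.Agent.H369R2 Pool.Agent.N799.DT

noncomputable section

namespace Q2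

open H4

/-- the weight of a trace -/
def wr (D : ℕ) (U : ℝ) (t : ℤ) : ℝ :=
  if t ^ 2 = 4 * (D : ℤ) ^ 2 then 2 else min 2 (3200 * D ^ 2 * U / |4 * (D : ℝ) ^ 2 - (t : ℝ) ^ 2|)

lemma wr_nonneg (D : ℕ) {U : ℝ} (hU : 0 ≤ U) (t : ℤ) : 0 ≤ wr D U t := by
  unfold wr
  split_ifs
  · norm_num
  · positivity

lemma wr_le (D : ℕ) (U : ℝ) (t : ℤ) : wr D U t ≤ 2 := by
  unfold wr
  split_ifs
  · exact le_rfl
  · exact min_le_left _ _

/-- the weight of a matrix -/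
def wt (D : ℕ) (U : ℝ) (η : MZ) : ℝ :=
  if η 1 0 = 0 ∧ η 0 1 ≠ 0 then 6 * D / |(η 0 1 : ℝ)| else
    if η 1 0 ≠ 0 ∧ η 0 1 ≠ 0 then wr D U (η 0 0 + η 1 1) else 2

lemma wt_nonneg (D : ℕ) {U : ℝ} (hU : 0 ≤ U) (η : MZ) : 0 ≤ wt D U η := by
  unfold wt
  split_ifs
  · positivity
  · exact wr_nonneg D hU _
  · norm_num

/-- the conditions on the size -/
structure Sz (D : ℕ) (Y : ℝ) (η : MZ) : Prop where
  det : η.det = (D : ℤ) ^ 2
  ns : ¬ (η 0 1 = 0 ∧ η 1 0 = 0 ∧ η 0 0 = η 1 1)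
  a : |(η 0 0 : ℝ)| ≤ 10 * D
  d : |(η 1 1 : ℝ)| ≤ 10 * D
  c : |(η 1 0 : ℝ)| ≤ 4 * D
  ad : |(η 0 0 : ℝ) - η 1 1| ≤ 6 * D
  b : η 1 0 = 0 → |(η 0 1 : ℝ)| ≤ 4 * D * Y

/-- the conditions on the class -/
structure Cl (N μ : ℕ) (t : ℤ) (η : MZ) : Prop where
  m01 : (μ : ℤ) ∣ η 0 1
  m10 : (μ : ℤ) ∣ η 1 0
  md : (μ : ℤ) ∣ η 0 0 - η 1 1
  tr : ((N * μ : ℕ) : ℤ) ∣ η 0 0 + η 1 1 - t

lemma sum_inj {ι : Type} [DecidableEq ι] (s : Finset MZ) (T : Finset ι) (f : MZ → ι)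
    (hf : ∀ η ∈ s, f η ∈ T) (hi : ∀ x ∈ s, ∀ y ∈ s, f x = f y → x = y) (w : MZ → ℝ) (v : ι → ℝ)
    (hv : ∀ x ∈ T, 0 ≤ v x) (h : ∀ η ∈ s, w η ≤ v (f η)) : ∑ η ∈ s, w η ≤ ∑ x ∈ T, v x := by
  calc ∑ η ∈ s, w η ≤ ∑ η ∈ s, v (f η) := Finset.sum_le_sum h
    _ = ∑ x ∈ s.image f, v x := (Finset.sum_image (fun x hx y hy e => hi x hx y hy e)).symm
    _ ≤ ∑ x ∈ T, v x := Finset.sum_le_sum_of_subset_of_nonneg
        (Finset.image_subset_iff.2 hf) (fun x hx _ => hv x hx)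

/-- sign and absolute value -/
def sa (x : ℤ) : Bool × ℕ := (decide (0 ≤ x), x.natAbs)

lemma sa_inj {x y : ℤ} (h : sa x = sa y) : x = y := by
  unfold sa at h
  simp only [Prod.mk.injEq, decide_eq_decide] at h
  omega

/-- sign and absolute value divided by `μ` -/
def sm (μ : ℕ) (x : ℤ) : Bool × ℕ := (decide (0 ≤ x), x.natAbs / μ)

lemma sm_inj {μ : ℕ} (hμ : 0 < μ) {x y : ℤ} (hx : (μ : ℤ) ∣ x) (hy : (μ : ℤ) ∣ y)
    (h : sm μ x = sm μ y) : x = y := by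
  unfold sm at h
  simp only [Prod.mk.injEq, decide_eq_decide] at h
  have h1 : μ ∣ x.natAbs := Int.natCast_dvd.1 hx
  have h2 : μ ∣ y.natAbs := Int.natCast_dvd.1 hy
  have h3 : x.natAbs = y.natAbs := by
    rw [← Nat.div_mul_cancel h1, ← Nat.div_mul_cancel h2, h.2]
  omega

lemma sm_mem {μ : ℕ} (hμ : 0 < μ) {x : ℤ} (hx : (μ : ℤ) ∣ x) (hx0 : x ≠ 0) {J : ℕ}
    (hJ : x.natAbs / μ ≤ J) : sm μ x ∈ (Finset.univ : Finset Bool) ×ˢ Finset.Icc 1 J := by
  unfold sm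
  rw [Finset.mem_product, Finset.mem_Icc]
  refine ⟨Finset.mem_univ _, ?_, hJ⟩
  have h1 : μ ∣ x.natAbs := Int.natCast_dvd.1 hx
  exact Nat.div_pos (Nat.le_of_dvd (Int.natAbs_pos.2 hx0) h1) hμ

lemma natAbs_cast (x : ℤ) : ((x.natAbs : ℕ) : ℝ) = |(x : ℝ)| := by
  rw [Nat.cast_natAbs]; push_cast; rfl

section
variable {N μ D : ℕ} {t : ℤ} {Y : ℝ}

/-- the sum of the weights over a residue class -/
theorem wr_sum {q : ℕ} (hq : 0 < q) (hD : 0 < D) {U : ℝ} (hU : 0 ≤ U) (T : Finset ℤ)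
    (hT : ∀ x ∈ T, |x| ≤ 20 * D ∧ (q : ℤ) ∣ x - t) :
    ∑ x ∈ T, wr D U x ≤ 8 + 6400 * (U * D / q) * (1 + Real.log (20 * D)) := by
  classical
  have hDr : (1 : ℝ) ≤ D := by exact_mod_cast hD
  have hqr : (1 : ℝ) ≤ q := by exact_mod_cast hq
  obtain ⟨J, hJ⟩ : ∃ J : ℕ, J = 20 * D / q := ⟨_, rfl⟩
  -- the distance to `± 2 D`
  obtain ⟨r, hr⟩ : ∃ r : ℤ → ℕ, r = fun x => (2 * (D : ℤ) - |x|).natAbs := ⟨_, rfl⟩
  have hrx : ∀ x, (r x : ℤ) = |(2 * (D : ℤ) - |x|)| := by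
    intro x; rw [hr]; simp
  obtain ⟨f, hf⟩ : ∃ f : ℤ → (Bool × Bool) × ℕ, f = fun x : ℤ =>
    ((decide (0 ≤ x), decide (|x| ≤ 2 * (D : ℤ))), r x / q) := ⟨_, rfl⟩
  obtain ⟨v, hv⟩ : ∃ v : (Bool × Bool) × ℕ → ℝ, v = fun p =>
    if p.2 = 0 then 2 else 1600 * (U * D / q) * ((p.2 : ℝ))⁻¹ := ⟨_, rfl⟩
  have hmem : ∀ x ∈ T, f x ∈ (Finset.univ : Finset (Bool × Bool)) ×ˢ Finset.range (J + 1) := by
    intro x hx
    rw [hf, Finset.mem_product, Finset.mem_range]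
    refine ⟨Finset.mem_univ _, ?_⟩
    show r x / q < J + 1
    rw [Nat.lt_succ_iff, hJ]
    apply Nat.div_le_div_right
    have h1 := (hT x hx).1
    have h2 := hrx x
    have h3 := abs_nonneg x
    have h4 : |(2 * (D : ℤ) - |x|)| ≤ 20 * D := by
      rw [abs_le]
      constructor <;> omega
    omega
  have hinj : ∀ x ∈ T, ∀ y ∈ T, f x = f y → x = y := by
    intro x hx y hy h
    rw [hf] at h
    simp only [Prod.mk.injEq, decide_eq_decide] at h
    obtain ⟨⟨h1, h2⟩, h3⟩ := h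
    have hxy : (q : ℤ) ∣ x - y := by
      have := dvd_sub (hT x hx).2 (hT y hy).2
      have e : x - t - (y - t) = x - y := by ring
      rwa [e] at this
    -- the difference of the distances is `± (x - y)`
    have hd : (q : ℤ) ∣ (r x : ℤ) - r y := by
      rw [hrx, hrx]
      rcases le_or_gt 0 x with a | a
      · have a' := h1.1 a
        rw [abs_of_nonneg a, abs_of_nonneg a'] at h2 ⊢
        rcases le_or_gt x (2 * (D : ℤ)) with b | b
        · have b' := h2.1 b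
          rw [abs_of_nonneg (by omega), abs_of_nonneg (by omega)]
          have e : 2 * (D : ℤ) - x - (2 * D - y) = -(x - y) := by ring
          rw [e]
          exact (dvd_neg).2 hxy
        · have b' : ¬ y ≤ 2 * (D : ℤ) := fun h => absurd (h2.2 h) (not_le.2 b)
          rw [abs_of_nonpos (by omega), abs_of_nonpos (by omega)]
          have e : -(2 * (D : ℤ) - x) - -(2 * D - y) = x - y := by ring
          rw [e]
          exact hxy
      · have a' : y < 0 := by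
          by_contra hc
          exact absurd (h1.2 (not_lt.1 hc)) (not_le.2 a)
        rw [abs_of_neg a, abs_of_neg a'] at h2 ⊢
        rcases le_or_gt (-x) (2 * (D : ℤ)) with b | b
        · have b' := h2.1 b
          rw [abs_of_nonneg (by omega), abs_of_nonneg (by omega)]
          have e : 2 * (D : ℤ) - -x - (2 * D - -y) = x - y := by ring
          rw [e]
          exact hxy
        · have b' : ¬ -y ≤ 2 * (D : ℤ) := fun h => absurd (h2.2 h) (not_le.2 b)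
          rw [abs_of_nonpos (by omega), abs_of_nonpos (by omega)]
          have e : -(2 * (D : ℤ) - -x) - -(2 * D - -y) = -(x - y) := by ring
          rw [e]
          exact (dvd_neg).2 hxy
    have h4 : r x = r y := by
      have m1 := Nat.div_add_mod (r x) q
      have m2 := Nat.div_add_mod (r y) q
      have m3 : r y ≡ r x [MOD q] := (Int.natCast_modEq_iff).1 (Int.modEq_iff_dvd.2 hd)
      have m4 : r y % q = r x % q := m3
      rw [h3] at m1
      omega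
    have h5 := hrx x
    have h6 := hrx y
    rw [h4, h6] at h5
    rcases le_or_gt 0 x with a | a
    · have a' := h1.1 a
      rw [abs_of_nonneg a, abs_of_nonneg a'] at h5 h2
      rcases le_or_gt x (2 * (D : ℤ)) with b | b
      · have b' := h2.1 b
        rw [abs_of_nonneg (by omega), abs_of_nonneg (by omega)] at h5
        omega
      · have b' : ¬ y ≤ 2 * (D : ℤ) := fun h => absurd (h2.2 h) (not_le.2 b)
        rw [abs_of_nonpos (by omega), abs_of_nonpos (by omega)] at h5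
        omega
    · have a' : y < 0 := by
        by_contra hc
        exact absurd (h1.2 (not_lt.1 hc)) (not_le.2 a)
      rw [abs_of_neg a, abs_of_neg a'] at h5 h2
      rcases le_or_gt (-x) (2 * (D : ℤ)) with b | b
      · have b' := h2.1 b
        rw [abs_of_nonneg (by omega), abs_of_nonneg (by omega)] at h5
        omega
      · have b' : ¬ -y ≤ 2 * (D : ℤ) := fun h => absurd (h2.2 h) (not_le.2 b)
        rw [abs_of_nonpos (by omega), abs_of_nonpos (by omega)] at h5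
        omega
  have hw : ∀ x ∈ T, wr D U x ≤ v (f x) := by
    intro x hx
    rw [hv, hf]
    simp only
    by_cases h0 : r x / q = 0
    · rw [if_pos h0]
      exact wr_le D U x
    · rw [if_neg h0]
      have hj : 0 < r x / q := Nat.pos_of_ne_zero h0
      have hjr : (0 : ℝ) < ((r x / q : ℕ) : ℝ) := by exact_mod_cast hj
      have h1 : (q : ℝ) * ((r x / q : ℕ) : ℝ) ≤ r x := by exact_mod_cast Nat.mul_div_le (r x) q
      have hrpos : (0 : ℝ) < r x := lt_of_lt_of_le (by positivity) h1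
      have hrr : (r x : ℝ) = |(2 * (D : ℝ) - |(x : ℝ)|)| := by
        have : ((r x : ℤ) : ℝ) = ((|(2 * (D : ℤ) - |x|)| : ℤ) : ℝ) := by rw [hrx]
        push_cast at this
        exact this
      have h2 : 2 * (D : ℝ) * r x ≤ |4 * (D : ℝ) ^ 2 - (x : ℝ) ^ 2| := by
        have e : 4 * (D : ℝ) ^ 2 - (x : ℝ) ^ 2 = (2 * D - |(x : ℝ)|) * (2 * D + |(x : ℝ)|) := by
          rw [← sq_abs (x : ℝ)]; ring
        rw [e, abs_mul, ← hrr, abs_of_nonneg (show (0 : ℝ) ≤ 2 * D + |(x : ℝ)| by positivity),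
          mul_comm]
        apply mul_le_mul_of_nonneg_left _ hrpos.le
        linarith [abs_nonneg (x : ℝ)]
      have hne : ¬ x ^ 2 = 4 * (D : ℤ) ^ 2 := by
        intro h
        have h3 : (x : ℝ) ^ 2 = 4 * (D : ℝ) ^ 2 := by exact_mod_cast h
        rw [h3, sub_self, abs_zero] at h2
        have : 0 < 2 * (D : ℝ) * r x := by positivity
        linarith
      unfold wr
      rw [if_neg hne]
      refine (min_le_right _ _).trans ?_
      have h4 : 0 < 2 * (D : ℝ) * r x := by positivity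
      calc 3200 * (D : ℝ) ^ 2 * U / |4 * (D : ℝ) ^ 2 - (x : ℝ) ^ 2|
          ≤ 3200 * (D : ℝ) ^ 2 * U / (2 * D * r x) := by gcongr
        _ = 1600 * (U * D) / r x := by field_simp; ring
        _ ≤ 1600 * (U * D) / (q * ((r x / q : ℕ) : ℝ)) := by gcongr
        _ = _ := by rw [div_mul_eq_div_div]; ring
  have hv0 : ∀ x ∈ (Finset.univ : Finset (Bool × Bool)) ×ˢ Finset.range (J + 1), 0 ≤ v x := by
    intro x _
    rw [hv]
    simp only
    split_ifs <;> positivity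
  have h1 : ∑ x ∈ T, wr D U x ≤
      ∑ x ∈ (Finset.univ : Finset (Bool × Bool)) ×ˢ Finset.range (J + 1), v x := by
    calc ∑ x ∈ T, wr D U x ≤ ∑ x ∈ T, v (f x) := Finset.sum_le_sum hw
      _ = ∑ x ∈ T.image f, v x := (Finset.sum_image (fun x hx y hy e => hinj x hx y hy e)).symm
      _ ≤ _ := Finset.sum_le_sum_of_subset_of_nonneg
          (Finset.image_subset_iff.2 hmem) (fun x hx _ => hv0 x hx)
  refine h1.trans ?_
  have h2 : ∑ x ∈ (Finset.univ : Finset (Bool × Bool)) ×ˢ Finset.range (J + 1), v x =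
      4 * (2 + 1600 * (U * D / q) * ∑ i ∈ Finset.Icc 1 J, ((i : ℝ))⁻¹) := by
    rw [Finset.sum_product]
    have e1 : ∀ b : Bool × Bool, ∑ y ∈ Finset.range (J + 1), v (b, y) =
        2 + 1600 * (U * D / q) * ∑ i ∈ Finset.Icc 1 J, ((i : ℝ))⁻¹ := by
      intro b
      rw [Finset.range_eq_Ico, Finset.sum_eq_sum_Ico_succ_bot (Nat.succ_pos J), hv]
      simp only [if_true]
      congr 1
      rw [Finset.mul_sum]
      apply Finset.sum_congr
      · ext i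
        simp only [Finset.mem_Ico, Finset.mem_Icc]
        omega
      · intro i hi
        rw [Finset.mem_Icc] at hi
        rw [if_neg (by omega)]
    simp only [e1]
    rw [Finset.sum_const, Finset.card_univ]
    simp only [Fintype.card_prod, Fintype.card_bool, nsmul_eq_mul]
    norm_num
  rw [h2]
  have h3 : ∑ i ∈ Finset.Icc 1 J, ((i : ℝ))⁻¹ ≤ 1 + Real.log (20 * D) := by
    have h4 := harmonic_le_one_add_log J
    rw [harmonic_eq_sum_Icc] at h4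
    push_cast at h4
    refine h4.trans ?_
    rcases Nat.eq_zero_or_pos J with h0 | h0
    · rw [h0]
      simp only [Nat.cast_zero, Real.log_zero, add_zero]
      have : 0 ≤ Real.log (20 * (D : ℝ)) := Real.log_nonneg (by linarith)
      linarith
    · have h5 : Real.log J ≤ Real.log (20 * D) := by
        apply Real.log_le_log (by exact_mod_cast h0)
        have : J ≤ 20 * D := by rw [hJ]; exact Nat.div_le_self _ _
        exact_mod_cast this
      linarith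
  have h6 : 0 ≤ U * D / q := by positivity
  nlinarith [mul_le_mul_of_nonneg_left h3 h6]

/-- the first part of the sum -/
theorem part1 (hN : 0 < N) (hμ : 0 < μ) (hD : 0 < D) {B : ℝ} (hB : 0 ≤ B) {U : ℝ} (hU : 0 ≤ U)
    (hdiv : ∀ n : ℕ, 0 < n → (n : ℝ) ≤ 101 * D ^ 2 → (n.divisors.card : ℝ) ≤ B)
    (s : Finset MZ) (hs : ∀ η ∈ s, Sz D Y η ∧ Cl N μ t η ∧ η 0 1 ≠ 0 ∧ η 1 0 ≠ 0) :
    ∑ η ∈ s, wr D U (η 0 0 + η 1 1) ≤ 614400 * B * ((D : ℝ) / μ) * (1 + U * D / (N * μ)) *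
      (1 + Real.log (20 * D)) := by
  classical
  have hDr : (1 : ℝ) ≤ D := by exact_mod_cast hD
  have hμr : (1 : ℝ) ≤ μ := by exact_mod_cast hμ
  have hNr : (1 : ℝ) ≤ N := by exact_mod_cast hN
  have hL0 : 0 ≤ Real.log (20 * (D : ℝ)) := Real.log_nonneg (by linarith)
  rcases s.eq_empty_or_nonempty with he | ⟨η₀, hη₀⟩
  · rw [he, Finset.sum_empty]
    positivity
  have hμD : (μ : ℝ) ≤ 4 * D := by
    obtain ⟨h1, h2, _, h4⟩ := hs η₀ hη₀
    have h5 := Int.le_of_dvd (abs_pos.2 h4) ((dvd_abs _ _).2 h2.m10)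
    have h6 : (μ : ℝ) ≤ |(η₀ 1 0 : ℝ)| := by exact_mod_cast h5
    exact h6.trans h1.c
  obtain ⟨P, hP⟩ : ∃ P : Finset (ℤ × ℤ), P = s.image (fun η : MZ => (η 0 0, η 1 1)) := ⟨_, rfl⟩
  have hbd : ∀ η ∈ s, |η 0 0| ≤ 10 * D ∧ |η 1 1| ≤ 10 * D := by
    intro η hη
    have h1 := (hs η hη).1.a
    have h2 := (hs η hη).1.d
    constructor
    · have : ((|η 0 0| : ℤ) : ℝ) ≤ (((10 * D : ℕ) : ℤ) : ℝ) := by push_cast; exact h1
      exact_mod_cast this
    · have : ((|η 1 1| : ℤ) : ℝ) ≤ (((10 * D : ℕ) : ℤ) : ℝ) := by push_cast; exact h2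
      exact_mod_cast this
  have hsum : ∑ η ∈ s, wr D U (η 0 0 + η 1 1) =
      ∑ p ∈ P, ((s.filter (fun η : MZ => (η 0 0, η 1 1) = p)).card : ℝ) * wr D U (p.1 + p.2) := by
    rw [← Finset.sum_fiberwise_of_maps_to (s := s) (t := P) (g := fun η : MZ => (η 0 0, η 1 1))
      (fun η hη => by rw [hP]; exact Finset.mem_image_of_mem _ hη)]
    refine Finset.sum_congr rfl fun p _ => ?_
    rw [← nsmul_eq_mul, ← Finset.sum_const]
    refine Finset.sum_congr rfl fun η hη => ?_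
    rw [Finset.mem_filter] at hη
    rw [← hη.2]
  have hfib : ∀ p ∈ P, ((s.filter (fun η : MZ => (η 0 0, η 1 1) = p)).card : ℝ) ≤ 2 * B := by
    intro p hp
    rw [hP, Finset.mem_image] at hp
    obtain ⟨η₁, hη₁, hp⟩ := hp
    have k1 : η₁ 0 1 * η₁ 1 0 = p.1 * p.2 - (D : ℤ) ^ 2 := by
      have := (hs η₁ hη₁).1.det
      rw [Matrix.det_fin_two] at this
      rw [← hp]
      linear_combination -this
    have hne : p.1 * p.2 - (D : ℤ) ^ 2 ≠ 0 := by
      rw [← k1]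
      exact mul_ne_zero (hs η₁ hη₁).2.2.1 (hs η₁ hη₁).2.2.2
    obtain ⟨M, hM⟩ : ∃ M : ℕ, M = (p.1 * p.2 - (D : ℤ) ^ 2).natAbs := ⟨_, rfl⟩
    have hM0 : 0 < M := by rw [hM]; exact Int.natAbs_pos.2 hne
    have hMle : (M : ℝ) ≤ 101 * D ^ 2 := by
      rw [hM, natAbs_cast]
      push_cast
      have a1 := (hs η₁ hη₁).1.a
      have a2 := (hs η₁ hη₁).1.d
      have b1 : (p.1 : ℝ) = η₁ 0 0 := by rw [← hp]
      have b2 : (p.2 : ℝ) = η₁ 1 1 := by rw [← hp]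
      calc |(p.1 : ℝ) * p.2 - (D : ℝ) ^ 2| ≤ |(p.1 : ℝ) * p.2| + |(D : ℝ) ^ 2| := abs_sub _ _
        _ ≤ (10 * D) * (10 * D) + (D : ℝ) ^ 2 := by
            rw [abs_mul, b1, b2, abs_of_nonneg (sq_nonneg (D : ℝ))]
            gcongr
        _ = 101 * D ^ 2 := by ring
    have h1 : (s.filter (fun η : MZ => (η 0 0, η 1 1) = p)).card ≤
        ((Finset.univ : Finset Bool) ×ˢ M.divisors).card := by
      apply Finset.card_le_card_of_injOn (fun η => sa (η 0 1))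
      · intro η hη
        obtain ⟨hη1, hη2⟩ := Finset.mem_filter.1 (Finset.mem_coe.1 hη)
        have h2 := (hs η hη1).1.det
        rw [Matrix.det_fin_two] at h2
        have e1 : η 0 0 = p.1 := by rw [← hη2]
        have e2 : η 1 1 = p.2 := by rw [← hη2]
        have h3 : η 0 1 * η 1 0 = p.1 * p.2 - (D : ℤ) ^ 2 := by
          rw [← e1, ← e2]; linear_combination -h2
        rw [Finset.mem_coe, Finset.mem_product]
        refine ⟨Finset.mem_univ _, ?_⟩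
        rw [Nat.mem_divisors]
        refine ⟨?_, hM0.ne'⟩
        show (η 0 1).natAbs ∣ M
        rw [hM, ← h3, Int.natAbs_mul]
        exact dvd_mul_right _ _
      · intro η hη η' hη' h
        obtain ⟨hη1, hη2⟩ := Finset.mem_filter.1 (Finset.mem_coe.1 hη)
        obtain ⟨hη1', hη2'⟩ := Finset.mem_filter.1 (Finset.mem_coe.1 hη')
        have e0 : η 0 1 = η' 0 1 := sa_inj h
        have h2 := (hs η hη1).1.det
        have h2' := (hs η' hη1').1.det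
        rw [Matrix.det_fin_two] at h2 h2'
        have e1 : η 0 0 = η' 0 0 := (congrArg Prod.fst hη2).trans (congrArg Prod.fst hη2').symm
        have e2 : η 1 1 = η' 1 1 := (congrArg Prod.snd hη2).trans (congrArg Prod.snd hη2').symm
        have e3 : η 1 0 = η' 1 0 := by
          have : η 0 1 * η 1 0 = η 0 1 * η' 1 0 := by
            rw [e1, e2] at h2
            rw [← e0] at h2'
            linear_combination h2' - h2
          exact mul_left_cancel₀ (hs η hη1).2.2.1 this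
        exact mz_ext e1 e0 e3 e2
    have h2 := hdiv M hM0 hMle
    rw [Finset.card_product, Finset.card_univ, Fintype.card_bool] at h1
    have h3 : ((s.filter (fun η : MZ => (η 0 0, η 1 1) = p)).card : ℝ) ≤
        2 * (M.divisors.card : ℝ) := by exact_mod_cast h1
    linarith
  -- the sum over the pairs
  obtain ⟨T, hTdef⟩ : ∃ T, T = P.image (fun p : ℤ × ℤ => p.1 + p.2) := ⟨_, rfl⟩
  obtain ⟨V, hVdef⟩ : ∃ V, V = P.image (fun p : ℤ × ℤ => p.1 - p.2) := ⟨_, rfl⟩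
  have hPmem : ∀ p ∈ P, |p.1| ≤ 10 * D ∧ |p.2| ≤ 10 * D ∧ (μ : ℤ) ∣ p.1 - p.2 ∧
      ((N * μ : ℕ) : ℤ) ∣ p.1 + p.2 - t := by
    intro p hp
    rw [hP, Finset.mem_image] at hp
    obtain ⟨η, hη, rfl⟩ := hp
    exact ⟨(hbd η hη).1, (hbd η hη).2, (hs η hη).2.1.md, (hs η hη).2.1.tr⟩
  have hwT := wr_sum (q := N * μ) (by positivity) hD hU T (t := t) (by
    intro x hx
    rw [hTdef, Finset.mem_image] at hx
    obtain ⟨p, hp, rfl⟩ := hx
    obtain ⟨h1, h2, _, h4⟩ := hPmem p hp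
    refine ⟨?_, h4⟩
    have := abs_add_le p.1 p.2
    omega)
  have hVc : (V.card : ℝ) ≤ 2 * (20 * (D : ℝ) / μ + 1) := by
    have h1 : V ⊆ (Finset.Icc (-((20 * D : ℕ) : ℤ)) (20 * D : ℕ)).filter (fun x => x ≡ 0 [ZMOD μ]) := by
      intro x hx
      rw [hVdef, Finset.mem_image] at hx
      obtain ⟨p, hp, rfl⟩ := hx
      obtain ⟨h1, h2, h3, _⟩ := hPmem p hp
      rw [abs_le] at h1 h2
      rw [Finset.mem_filter, Finset.mem_Icc]
      refine ⟨⟨?_, ?_⟩, Int.modEq_zero_iff_dvd.2 h3⟩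
      · push_cast; omega
      · push_cast; omega
    have h2 := Finset.card_le_card h1
    have h3 := Pool.Agent.H369R2.S6b.count_mod (20 * D) μ hμ 0
    have h4 : (V.card : ℝ) ≤ (((Finset.Icc (-((20 * D : ℕ) : ℤ)) (20 * D : ℕ)).filter
        (fun x => x ≡ 0 [ZMOD μ])).card : ℝ) := by exact_mod_cast h2
    refine h4.trans (h3.trans (le_of_eq ?_))
    push_cast
    ring
  have hpair : ∑ p ∈ P, wr D U (p.1 + p.2) ≤ V.card * ∑ x ∈ T, wr D U x := by
    calc ∑ p ∈ P, wr D U (p.1 + p.2)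
        = ∑ y ∈ P.image (fun p : ℤ × ℤ => (p.1 + p.2, p.1 - p.2)), wr D U y.1 := by
          refine (Finset.sum_image (s := P) (f := fun y : ℤ × ℤ => wr D U y.1)
            (g := fun p : ℤ × ℤ => (p.1 + p.2, p.1 - p.2)) ?_).symm
          intro p _ p' _ h
          simp only [Prod.mk.injEq] at h
          obtain ⟨h1, h2⟩ := h
          ext <;> omega
      _ ≤ ∑ y ∈ T ×ˢ V, wr D U y.1 := by
          apply Finset.sum_le_sum_of_subset_of_nonneg
          · intro y hy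
            rw [Finset.mem_image] at hy
            obtain ⟨p, hp, rfl⟩ := hy
            rw [Finset.mem_product, hTdef, hVdef]
            exact ⟨Finset.mem_image_of_mem (fun p : ℤ × ℤ => p.1 + p.2) hp,
              Finset.mem_image_of_mem (fun p : ℤ × ℤ => p.1 - p.2) hp⟩
          · intro y _ _
            exact wr_nonneg D hU _
      _ = V.card * ∑ x ∈ T, wr D U x := by
          rw [Finset.sum_product, Finset.mul_sum]
          refine Finset.sum_congr rfl fun x _ => ?_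
          simp only [Finset.sum_const, nsmul_eq_mul]
  obtain ⟨q, hq⟩ : ∃ q : ℝ, q = (D : ℝ) / μ := ⟨_, rfl⟩
  obtain ⟨r, hr⟩ : ∃ r : ℝ, r = U * D / (N * μ) := ⟨_, rfl⟩
  obtain ⟨L, hL⟩ : ∃ L : ℝ, L = 1 + Real.log (20 * D) := ⟨_, rfl⟩
  have hL1 : 1 ≤ L := by rw [hL]; linarith
  push_cast at hwT
  rw [← hr, ← hL] at hwT
  rw [← hq, ← hr, ← hL]
  have hq1 : 1 ≤ 4 * q := by
    rw [hq, ← mul_div_assoc, le_div_iff₀ (by linarith)]
    linarith
  have hq0 : 0 ≤ q := by linarith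
  have hr0 : 0 ≤ r := by rw [hr]; positivity
  have hV' : (V.card : ℝ) ≤ 48 * q := by
    have e2 : 20 * (D : ℝ) / μ = 20 * q := by rw [hq]; ring
    rw [e2] at hVc
    linarith
  have hT' : ∑ x ∈ T, wr D U x ≤ 6400 * ((1 + r) * L) := by
    refine hwT.trans ?_
    have : 8 ≤ 6400 * L := by linarith
    nlinarith [mul_nonneg hr0 (by linarith : 0 ≤ L)]
  have hwT0 : 0 ≤ ∑ x ∈ T, wr D U x := Finset.sum_nonneg fun x _ => wr_nonneg D hU x
  rw [hsum]
  calc ∑ p ∈ P, ((s.filter (fun η : MZ => (η 0 0, η 1 1) = p)).card : ℝ) * wr D U (p.1 + p.2)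
      ≤ ∑ p ∈ P, (2 * B) * wr D U (p.1 + p.2) :=
        Finset.sum_le_sum fun p hp => mul_le_mul_of_nonneg_right (hfib p hp) (wr_nonneg D hU _)
    _ = 2 * B * ∑ p ∈ P, wr D U (p.1 + p.2) := by rw [Finset.mul_sum]
    _ ≤ 2 * B * (V.card * ∑ x ∈ T, wr D U x) := by gcongr
    _ ≤ 2 * B * ((48 * q) * (6400 * ((1 + r) * L))) := by gcongr
    _ = 614400 * B * q * (1 + r) * L := by ring

lemma a_mem (hD : 0 < D) {η : MZ} (hdet : η.det = (D : ℤ) ^ 2) (h0 : η 0 1 = 0 ∨ η 1 0 = 0) :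
    sa (η 0 0) ∈ (Finset.univ : Finset Bool) ×ˢ (D ^ 2).divisors ∧
      η 0 0 * η 1 1 = (D : ℤ) ^ 2 := by
  have h1 : η 0 0 * η 1 1 = (D : ℤ) ^ 2 := by
    rw [Matrix.det_fin_two] at hdet
    rcases h0 with h | h
    · rw [h, zero_mul, sub_zero] at hdet; exact hdet
    · rw [h, mul_zero, sub_zero] at hdet; exact hdet
  refine ⟨?_, h1⟩
  rw [Finset.mem_product, Nat.mem_divisors]
  refine ⟨Finset.mem_univ _, ?_, (pow_pos hD 2).ne'⟩
  show (η 0 0).natAbs ∣ D ^ 2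
  rw [← Int.natCast_dvd_natCast]
  push_cast
  rw [abs_dvd]
  exact ⟨η 1 1, h1.symm⟩

lemma d_eq (hD : 0 < D) {η η' : MZ} (h : η 0 0 * η 1 1 = (D : ℤ) ^ 2)
    (h' : η' 0 0 * η' 1 1 = (D : ℤ) ^ 2) (e : η 0 0 = η' 0 0) : η 1 1 = η' 1 1 := by
  have hDz : ((D : ℤ) ^ 2) ≠ 0 := by positivity
  have h1 : η 0 0 ≠ 0 := by
    intro h0
    rw [h0, zero_mul] at h
    exact hDz h.symm
  apply mul_left_cancel₀ h1
  rw [h]
  nth_rewrite 1 [e]
  exact h'.symm

/-- the second part of the sum -/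
theorem part2 (hμ : 0 < μ) (hD : 0 < D) (s : Finset MZ)
    (hs : ∀ η ∈ s, Sz D Y η ∧ Cl N μ t η ∧ η 0 1 = 0 ∧ η 1 0 ≠ 0) :
    (s.card : ℝ) ≤ 16 * (D ^ 2).divisors.card * ((D : ℝ) / μ) := by
  classical
  have hμr : (0 : ℝ) < μ := by exact_mod_cast hμ
  have h1 : s.card ≤ (((Finset.univ : Finset Bool) ×ˢ (D ^ 2).divisors) ×ˢ
      ((Finset.univ : Finset Bool) ×ˢ Finset.Icc 1 (4 * D / μ))).card := by
    apply Finset.card_le_card_of_injOn (fun η => (sa (η 0 0), sm μ (η 1 0)))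
    · intro η hη
      obtain ⟨k1, k2, k3, k4⟩ := hs η hη
      rw [Finset.mem_coe, Finset.mem_product]
      refine ⟨(a_mem hD k1.det (Or.inl k3)).1, sm_mem hμ k2.m10 k4 ?_⟩
      apply Nat.div_le_div_right
      have : ((η 1 0).natAbs : ℝ) ≤ ((4 * D : ℕ) : ℝ) := by
        rw [natAbs_cast]; push_cast; exact k1.c
      exact_mod_cast this
    · intro η hη η' hη' h
      obtain ⟨k1, k2, k3, k4⟩ := hs η hη
      obtain ⟨k1', k2', k3', k4'⟩ := hs η' hη'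
      simp only [Prod.mk.injEq] at h
      have e1 := sa_inj h.1
      have e2 := sm_inj hμ k2.m10 k2'.m10 h.2
      exact mz_ext e1 (k3.trans k3'.symm) e2 (d_eq hD (a_mem hD k1.det (Or.inl k3)).2
        (a_mem hD k1'.det (Or.inl k3')).2 e1)
  rw [Finset.card_product, Finset.card_product, Finset.card_product, Finset.card_univ,
    Fintype.card_bool, Nat.card_Icc, Nat.add_sub_cancel] at h1
  have h2 : (s.card : ℝ) ≤ 2 * (D ^ 2).divisors.card * (2 * ((4 * D / μ : ℕ) : ℝ)) := by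
    exact_mod_cast h1
  have h3 : ((4 * D / μ : ℕ) : ℝ) ≤ 4 * ((D : ℝ) / μ) := by
    refine Nat.cast_div_le.trans (le_of_eq ?_)
    push_cast
    ring
  calc (s.card : ℝ) ≤ 2 * (D ^ 2).divisors.card * (2 * ((4 * D / μ : ℕ) : ℝ)) := h2
    _ ≤ 2 * (D ^ 2).divisors.card * (2 * (4 * ((D : ℝ) / μ))) := by gcongr
    _ = _ := by ring

/-- the third part of the sum -/
theorem part3 (hμ : 0 < μ) (hD : 0 < D) (hY : 1 ≤ Y) (s : Finset MZ)
    (hs : ∀ η ∈ s, Sz D Y η ∧ Cl N μ t η ∧ η 0 1 ≠ 0 ∧ η 1 0 = 0) :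
    ∑ η ∈ s, 6 * D / |(η 0 1 : ℝ)| ≤
      24 * (D ^ 2).divisors.card * ((D : ℝ) / μ) * (1 + Real.log (4 * D * Y)) := by
  classical
  have hμr : (0 : ℝ) < μ := by exact_mod_cast hμ
  have hμ1 : (1 : ℝ) ≤ μ := by exact_mod_cast hμ
  have hDr : (1 : ℝ) ≤ D := by exact_mod_cast hD
  have hX : 1 ≤ 4 * (D : ℝ) * Y := by nlinarith
  obtain ⟨J, hJ⟩ : ∃ J : ℕ, J = ⌊4 * (D : ℝ) * Y⌋₊ := ⟨_, rfl⟩
  have hJ1 : 1 ≤ J := by rw [hJ]; exact Nat.le_floor (by exact_mod_cast hX)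
  have h1 := sum_inj s (((Finset.univ : Finset Bool) ×ˢ (D ^ 2).divisors) ×ˢ
      ((Finset.univ : Finset Bool) ×ˢ Finset.Icc 1 J)) (fun η => (sa (η 0 0), sm μ (η 0 1)))
    (by
      intro η hη
      obtain ⟨k1, k2, k3, k4⟩ := hs η hη
      rw [Finset.mem_product]
      refine ⟨(a_mem hD k1.det (Or.inr k4)).1, sm_mem hμ k2.m01 k3 ?_⟩
      rw [hJ]
      apply Nat.le_floor
      refine Nat.cast_div_le.trans ?_
      rw [natAbs_cast]
      refine (div_le_self (abs_nonneg _) hμ1).trans (k1.b k4))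
    (by
      intro η hη η' hη' h
      obtain ⟨k1, k2, k3, k4⟩ := hs η hη
      obtain ⟨k1', k2', k3', k4'⟩ := hs η' hη'
      simp only [Prod.mk.injEq] at h
      have e1 := sa_inj h.1
      have e2 := sm_inj hμ k2.m01 k2'.m01 h.2
      exact mz_ext e1 e2 (k4.trans k4'.symm) (d_eq hD (a_mem hD k1.det (Or.inr k4)).2
        (a_mem hD k1'.det (Or.inr k4')).2 e1))
    (fun η => 6 * D / |(η 0 1 : ℝ)|) (fun x => 6 * ((D : ℝ) / μ) * ((x.2.2 : ℝ))⁻¹)
    (fun x _ => by positivity)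
    (by
      intro η hη
      obtain ⟨k1, k2, k3, k4⟩ := hs η hη
      have h2 : μ ∣ (η 0 1).natAbs := Int.natCast_dvd.1 k2.m01
      obtain ⟨j, hj⟩ := h2
      have h3 : |(η 0 1 : ℝ)| = μ * j := by
        rw [← natAbs_cast, hj]; push_cast; ring
      have h4 : (sm μ (η 0 1)).2 = j := by
        unfold sm
        simp only
        rw [hj, Nat.mul_div_cancel_left _ hμ]
      simp only
      rw [h3, h4]
      apply le_of_eq
      rw [div_mul_eq_div_div]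
      ring)
  refine h1.trans ?_
  have hprod : ∀ c : ℝ, ∑ x ∈ ((Finset.univ : Finset Bool) ×ˢ (D ^ 2).divisors) ×ˢ
      ((Finset.univ : Finset Bool) ×ˢ Finset.Icc 1 J), c * ((x.2.2 : ℝ))⁻¹ =
      ((2 * (D ^ 2).divisors.card : ℕ) : ℝ) * (((2 : ℕ) : ℝ) *
        (c * ∑ i ∈ Finset.Icc 1 J, ((i : ℝ))⁻¹)) := by
    intro c
    rw [Finset.sum_product]
    simp only [Finset.sum_const]
    rw [Finset.card_product, Finset.card_univ, Fintype.card_bool, Finset.sum_product]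
    simp only [Finset.sum_const]
    rw [Finset.card_univ, Fintype.card_bool, ← Finset.mul_sum, nsmul_eq_mul, nsmul_eq_mul]
  rw [hprod]
  have h4 := harmonic_le_one_add_log J
  rw [harmonic_eq_sum_Icc] at h4
  push_cast at h4 ⊢
  have h5 : Real.log J ≤ Real.log (4 * D * Y) := by
    apply Real.log_le_log (by exact_mod_cast hJ1)
    rw [hJ]
    exact Nat.floor_le (by linarith)
  calc 2 * ((D ^ 2).divisors.card : ℝ) * (2 * (6 * ((D : ℝ) / μ) * ∑ i ∈ Finset.Icc 1 J, ((i : ℝ))⁻¹))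
      ≤ 2 * ((D ^ 2).divisors.card : ℝ) * (2 * (6 * ((D : ℝ) / μ) * (1 + Real.log (4 * D * Y)))) := by
        have : ∑ i ∈ Finset.Icc 1 J, ((i : ℝ))⁻¹ ≤ 1 + Real.log (4 * D * Y) := by linarith
        gcongr
    _ = _ := by ring

/-- the fourth part of the sum -/
theorem part4 (hμ : 0 < μ) (hD : 0 < D) (s : Finset MZ)
    (hs : ∀ η ∈ s, Sz D Y η ∧ Cl N μ t η ∧ η 0 1 = 0 ∧ η 1 0 = 0) :
    (s.card : ℝ) ≤ 12 * (D ^ 2).divisors.card * ((D : ℝ) / μ) := by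
  classical
  have hμr : (0 : ℝ) < μ := by exact_mod_cast hμ
  rcases s.eq_empty_or_nonempty with he | ⟨η₀, hη₀⟩
  · rw [he, Finset.card_empty, Nat.cast_zero]
    positivity
  have hμD : (μ : ℝ) ≤ 6 * D := by
    obtain ⟨h1, h2, h3, h4⟩ := hs η₀ hη₀
    have h0 : η₀ 0 0 - η₀ 1 1 ≠ 0 := fun h => h1.ns ⟨h3, h4, sub_eq_zero.1 h⟩
    have h5 := Int.le_of_dvd (abs_pos.2 h0) ((dvd_abs _ _).2 h2.md)
    have h6 : (μ : ℝ) ≤ |(η₀ 0 0 : ℝ) - η₀ 1 1| := by
      have h7 : ((μ : ℤ) : ℝ) ≤ ((|η₀ 0 0 - η₀ 1 1| : ℤ) : ℝ) := by exact_mod_cast h5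
      push_cast at h7
      exact h7
    exact h6.trans h1.ad
  have h1 : s.card ≤ ((Finset.univ : Finset Bool) ×ˢ (D ^ 2).divisors).card := by
    apply Finset.card_le_card_of_injOn (fun η => sa (η 0 0))
    · intro η hη
      obtain ⟨k1, k2, k3, k4⟩ := hs η hη
      exact (a_mem hD k1.det (Or.inl k3)).1
    · intro η hη η' hη' h
      obtain ⟨k1, k2, k3, k4⟩ := hs η hη
      obtain ⟨k1', k2', k3', k4'⟩ := hs η' hη'
      have e1 := sa_inj h
      exact mz_ext e1 (k3.trans k3'.symm) (k4.trans k4'.symm)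
        (d_eq hD (a_mem hD k1.det (Or.inl k3)).2 (a_mem hD k1'.det (Or.inl k3')).2 e1)
  rw [Finset.card_product, Finset.card_univ, Fintype.card_bool] at h1
  have h2 : (s.card : ℝ) ≤ 2 * (D ^ 2).divisors.card := by exact_mod_cast h1
  have h3 : 1 ≤ 6 * ((D : ℝ) / μ) := by
    rw [← mul_div_assoc, le_div_iff₀ hμr]
    linarith
  calc (s.card : ℝ) ≤ 2 * (D ^ 2).divisors.card * 1 := by rw [mul_one]; exact h2
    _ ≤ 2 * (D ^ 2).divisors.card * (6 * ((D : ℝ) / μ)) := by gcongr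
    _ = _ := by ring

end

/-- the weighted counting lemma -/
theorem wpoints : ∀ ε : ℝ, 0 < ε → ∃ C : ℝ, 0 < C ∧ ∀ (N μ D : ℕ) (t : ℤ) (Y U : ℝ), 0 < N →
    0 < μ → 0 < D → 5 ≤ Y → 0 ≤ U → ∀ s : Finset MZ, (∀ η ∈ s, Sz D Y η ∧ Cl N μ t η) →
    ∑ η ∈ s, wt D U η ≤ C * (D : ℝ) ^ ε * ((D : ℝ) / μ) * (1 + U * D / (N * μ)) *
      (1 + Real.log (4 * D * Y)) := by
  intro ε hε
  classical
  obtain ⟨C, hC, hdiv⟩ := divisor_bound (ε / 2) (by positivity)
  refine ⟨614400 * (C * 101 ^ (ε / 2)) + 80 * C, by positivity, ?_⟩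
  intro N μ D t Y U hN hμ hD hY5 hU s hs
  have hY : 1 ≤ Y := by linarith
  have hDr : (1 : ℝ) ≤ D := by exact_mod_cast hD
  have hD0 : (0 : ℝ) < D := by linarith
  have hμr : (1 : ℝ) ≤ μ := by exact_mod_cast hμ
  have hNr : (1 : ℝ) ≤ N := by exact_mod_cast hN
  obtain ⟨p₁, hp₁⟩ : ∃ p, p = s.filter (fun η => η 0 1 ≠ 0 ∧ η 1 0 ≠ 0) := ⟨_, rfl⟩
  obtain ⟨p₂, hp₂⟩ : ∃ p, p = s.filter (fun η => η 0 1 = 0 ∧ η 1 0 ≠ 0) := ⟨_, rfl⟩
  obtain ⟨p₃, hp₃⟩ : ∃ p, p = s.filter (fun η => η 0 1 ≠ 0 ∧ η 1 0 = 0) := ⟨_, rfl⟩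
  obtain ⟨p₄, hp₄⟩ : ∃ p, p = s.filter (fun η => η 0 1 = 0 ∧ η 1 0 = 0) := ⟨_, rfl⟩
  have hsplit : ∑ η ∈ s, wt D U η = ∑ η ∈ p₁, wr D U (η 0 0 + η 1 1) + 2 * p₂.card +
      ∑ η ∈ p₃, 6 * D / |(η 0 1 : ℝ)| + 2 * p₄.card := by
    have e0 : ∀ η : MZ, wt D U η = (if η 0 1 ≠ 0 ∧ η 1 0 ≠ 0 then wr D U (η 0 0 + η 1 1) else 0) +
        (if η 0 1 = 0 ∧ η 1 0 ≠ 0 then 2 else 0) +
        (if η 0 1 ≠ 0 ∧ η 1 0 = 0 then 6 * D / |(η 0 1 : ℝ)| else 0) +
        (if η 0 1 = 0 ∧ η 1 0 = 0 then 2 else 0) := by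
      intro η
      unfold wt
      by_cases h1 : η 0 1 = 0 <;> by_cases h2 : η 1 0 = 0 <;> simp [h1, h2]
    simp only [e0]
    rw [Finset.sum_add_distrib, Finset.sum_add_distrib, Finset.sum_add_distrib,
      ← Finset.sum_filter, ← Finset.sum_filter, ← Finset.sum_filter, ← Finset.sum_filter,
      ← hp₁, ← hp₂, ← hp₃, ← hp₄, Finset.sum_const, Finset.sum_const]
    simp only [nsmul_eq_mul]
    ring
  have hB : ∀ n : ℕ, 0 < n → (n : ℝ) ≤ 101 * D ^ 2 →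
      (n.divisors.card : ℝ) ≤ C * 101 ^ (ε / 2) * (D : ℝ) ^ ε := by
    intro n hn hn2
    refine (hdiv n hn).trans ?_
    have e1 : ((n : ℝ)) ^ (ε / 2) ≤ (101 * (D : ℝ) ^ 2) ^ (ε / 2) :=
      Real.rpow_le_rpow (by positivity) hn2 (by positivity)
    have e2 : (101 * (D : ℝ) ^ 2) ^ (ε / 2) = 101 ^ (ε / 2) * (D : ℝ) ^ ε := by
      rw [Real.mul_rpow (by norm_num) (by positivity), ← Real.rpow_natCast (D : ℝ) 2,
        ← Real.rpow_mul hD0.le]
      congr 2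
      push_cast; ring
    rw [e2] at e1
    calc C * (n : ℝ) ^ (ε / 2) ≤ C * (101 ^ (ε / 2) * (D : ℝ) ^ ε) := by gcongr
      _ = _ := by ring
  have hB2 : (((D ^ 2).divisors.card : ℕ) : ℝ) ≤ C * (D : ℝ) ^ ε := by
    refine (hdiv (D ^ 2) (pow_pos hD 2)).trans (le_of_eq ?_)
    push_cast
    rw [← Real.rpow_natCast (D : ℝ) 2, ← Real.rpow_mul hD0.le]
    congr 2
    push_cast; ring
  have r1 := part1 hN hμ hD (by positivity) hU hB p₁ (t := t) (Y := Y) (by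
    intro η hη
    rw [hp₁, Finset.mem_filter] at hη
    exact ⟨(hs η hη.1).1, (hs η hη.1).2, hη.2.1, hη.2.2⟩)
  have r2 := part2 (N := N) hμ hD p₂ (t := t) (Y := Y) (by
    intro η hη
    rw [hp₂, Finset.mem_filter] at hη
    exact ⟨(hs η hη.1).1, (hs η hη.1).2, hη.2.1, hη.2.2⟩)
  have r3 := part3 (N := N) hμ hD hY p₃ (t := t) (by
    intro η hη
    rw [hp₃, Finset.mem_filter] at hη
    exact ⟨(hs η hη.1).1, (hs η hη.1).2, hη.2.1, hη.2.2⟩)
  have r4 := part4 (N := N) hμ hD p₄ (t := t) (Y := Y) (by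
    intro η hη
    rw [hp₄, Finset.mem_filter] at hη
    exact ⟨(hs η hη.1).1, (hs η hη.1).2, hη.2.1, hη.2.2⟩)
  rw [hsplit]
  obtain ⟨q, hq⟩ : ∃ q : ℝ, q = (D : ℝ) / μ := ⟨_, rfl⟩
  obtain ⟨r, hr⟩ : ∃ r : ℝ, r = U * D / (N * μ) := ⟨_, rfl⟩
  obtain ⟨L, hL⟩ : ∃ L : ℝ, L = 1 + Real.log (4 * D * Y) := ⟨_, rfl⟩
  obtain ⟨P, hP⟩ : ∃ P : ℝ, P = (D : ℝ) ^ ε := ⟨_, rfl⟩
  obtain ⟨K, hK⟩ : ∃ K : ℝ, K = C * 101 ^ (ε / 2) := ⟨_, rfl⟩
  have hLL : 1 + Real.log (20 * D) ≤ L := by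
    rw [hL]
    have : Real.log (20 * D) ≤ Real.log (4 * D * Y) :=
      Real.log_le_log (by positivity) (by nlinarith)
    linarith
  rw [← hq] at r1 r2 r3 r4
  rw [← hr, ← hK, ← hP] at r1
  rw [← hL] at r3
  rw [← hP] at hB2
  rw [← hq, ← hr, ← hL, ← hP, ← hK]
  have hq0 : 0 ≤ q := by rw [hq]; positivity
  have hr0 : 0 ≤ r := by rw [hr]; positivity
  have hP0 : 0 ≤ P := by rw [hP]; positivity
  have hK0 : 0 ≤ K := by rw [hK]; positivity
  have hL1 : 1 ≤ L := by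
    rw [hL]
    have : 0 ≤ Real.log (4 * D * Y) := Real.log_nonneg (by nlinarith)
    linarith
  obtain ⟨Z, hZ⟩ : ∃ Z : ℝ, Z = P * q * (1 + r) * L := ⟨_, rfl⟩
  have hPq : 0 ≤ P * q := by positivity
  have z1 : P * q * (1 + r) ≤ Z := by
    rw [hZ]
    exact le_mul_of_one_le_right (by positivity) hL1
  have z0 : P * q ≤ P * q * (1 + r) := le_mul_of_one_le_right hPq (by linarith)
  have z2 : P * q * L ≤ Z := by
    rw [hZ]
    exact mul_le_mul_of_nonneg_right z0 (by linarith)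
  have s1 : ∑ η ∈ p₁, wr D U (η 0 0 + η 1 1) ≤ 614400 * K * Z := by
    calc ∑ η ∈ p₁, wr D U (η 0 0 + η 1 1) ≤ 614400 * (K * P) * q * (1 + r) *
          (1 + Real.log (20 * D)) := r1
      _ ≤ 614400 * (K * P) * q * (1 + r) * L := by gcongr
      _ = 614400 * K * Z := by rw [hZ]; ring
  have hdq : (((D ^ 2).divisors.card : ℕ) : ℝ) * q ≤ C * (P * q) := by
    calc (((D ^ 2).divisors.card : ℕ) : ℝ) * q ≤ C * P * q := by gcongr
      _ = _ := by ring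
  have hPqZ : P * q ≤ Z := z0.trans z1
  have s2 : (p₂.card : ℝ) ≤ 16 * (C * Z) := by
    calc (p₂.card : ℝ) ≤ 16 * ((((D ^ 2).divisors.card : ℕ) : ℝ) * q) := by
          refine r2.trans (le_of_eq ?_); ring
      _ ≤ 16 * (C * (P * q)) := by gcongr
      _ ≤ 16 * (C * Z) := by gcongr
  have s4 : (p₄.card : ℝ) ≤ 12 * (C * Z) := by
    calc (p₄.card : ℝ) ≤ 12 * ((((D ^ 2).divisors.card : ℕ) : ℝ) * q) := by
          refine r4.trans (le_of_eq ?_); ring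
      _ ≤ 12 * (C * (P * q)) := by gcongr
      _ ≤ 12 * (C * Z) := by gcongr
  have s3 : ∑ η ∈ p₃, 6 * D / |(η 0 1 : ℝ)| ≤ 24 * (C * Z) := by
    calc ∑ η ∈ p₃, 6 * D / |(η 0 1 : ℝ)| ≤ 24 * ((((D ^ 2).divisors.card : ℕ) : ℝ) * q) * L := by
          refine r3.trans (le_of_eq ?_); ring
      _ ≤ 24 * (C * (P * q)) * L := by gcongr
      _ = 24 * (C * (P * q * L)) := by ring
      _ ≤ 24 * (C * Z) := by gcongr
  have e : (614400 * K + 80 * C) * P * q * (1 + r) * L = 614400 * K * Z + 80 * (C * Z) := by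
    rw [hZ]; ring
  rw [e]
  linarith

end Q2

end

end Pool.Agent.XE31
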