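import Pool.Agent.XE31.Q2

/-!
# The weighted count with the number of fixed points
-/

set_option autoImplicit false
set_option linter.all false

open UpperHalfPlane MeasureTheory Metric ModularGroup CongruenceSubgroup
open scoped MatrixGroups ENNReal Modular Topology NNReal

namespace Pool.Agent.XE31

open Pool.Agent.H369R2 Pool.Agent.N799.DT

noncomputable section

namespace Q3

open H4 Q1 Q2

/-- double counting for one element -/
theorem dbl_one {Γ : Subgroup SL(2, ℤ)} {N : ℕ} (hN : 0 < N) (hΓ : Gamma N ≤ Γ)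
    {S : Finset SL(2, ZMod N)} (hS : ∀ h, h ∈ S ↔ h ∈ Γ.map (red N)) (δ : SL(2, ℤ))
    [∀ h, Decidable (IsConj (red N δ) h)] :
    (S.card : ℝ) * (fix Γ δ : ℝ) ≤ ∑ h ∈ S,
      (if IsConj (red N δ) h then
        (Nat.card {g : SL(2, ZMod N) // g * h = h * g} : ℝ) else 0) := by
  have h1 := dbl Γ N hN hΓ S hS {δ}
  rw [Finset.sum_singleton] at h1
  have h2 : ∀ h : SL(2, ZMod N), Nat.card {δ' : SL(2, ℤ) // δ' ∈ ({δ} : Finset SL(2, ℤ)) ∧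
      IsConj (red N δ') h} = if IsConj (red N δ) h then 1 else 0 := by
    intro h
    split_ifs with hc
    · rw [Nat.card_eq_one_iff_unique]
      refine ⟨⟨fun a b => ?_⟩, ⟨⟨δ, Finset.mem_singleton_self _, hc⟩⟩⟩
      apply Subtype.ext
      rw [Finset.mem_singleton.1 a.2.1, Finset.mem_singleton.1 b.2.1]
    · rw [Nat.card_eq_zero]
      left
      refine ⟨fun a => hc ?_⟩
      have := a.2.2
      rwa [Finset.mem_singleton.1 a.2.1] at this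
  simp only [h2] at h1
  have h3 : ((S.card * fix Γ δ : ℕ) : ℝ) ≤ ((∑ h ∈ S,
      Nat.card {g : SL(2, ZMod N) // g * h = h * g} * (if IsConj (red N δ) h then 1 else 0) : ℕ) : ℝ) := by
    exact_mod_cast h1
  push_cast at h3
  refine h3.trans (le_of_eq ?_)
  refine Finset.sum_congr rfl fun h _ => ?_
  split_ifs <;> simp

/-- the sum over the image of `Γ` -/
theorem sum_le {ε C : ℝ} (hC : 0 < C)
    (hpts : ∀ (N μ D : ℕ) (t : ℤ) (Y U : ℝ), 0 < N →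
    0 < μ → 0 < D → 5 ≤ Y → 0 ≤ U → ∀ s : Finset MZ, (∀ η ∈ s, Sz D Y η ∧ Cl N μ t η) →
    ∑ η ∈ s, wt D U η ≤ C * (D : ℝ) ^ ε * ((D : ℝ) / μ) * (1 + U * D / (N * μ)) *
      (1 + Real.log (4 * D * Y)))
    (Γ : Subgroup SL(2, ℤ)) (N : ℕ) (hlev : IsLevel Γ N) (D : ℕ) (hD : 0 < D)
    (hDN : Nat.Coprime D N) (Y U : ℝ) (hY : 5 ≤ Y) (hU : 0 ≤ U)
    (s : Finset MZ) (hs : ∀ η ∈ s, Sz D Y η) (τ : MZ → SL(2, ℤ)) (hτ : ∀ η ∈ s, Cg N D η (τ η)) :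
    ∑ η ∈ s, (fix Γ (τ η) : ℝ) * wt D U η ≤
        8 * (N.divisors.card : ℝ) ^ 5 * C * (D : ℝ) ^ ε * (Γ.index * D + U * D ^ 2) *
          (1 + Real.log (4 * D * Y)) ∧
      N ≤ 4 * N.divisors.card ^ 3 * Γ.index := by
  classical
  obtain ⟨hN, hΓ, _⟩ := id hlev
  have : NeZero N := ⟨hN.ne'⟩
  have : Fintype SL(2, ZMod N) := Fintype.ofFinite _
  have hN' : (0 : ℝ) < N := by exact_mod_cast hN
  obtain ⟨S, hS⟩ : ∃ S : Finset SL(2, ZMod N), ∀ h, h ∈ S ↔ h ∈ Γ.map (red N) :=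
    ⟨Finset.univ.filter fun h => h ∈ Γ.map (red N), fun h => by simp⟩
  have hcard : Nat.card (Γ.map (red N)) = S.card := by
    rw [← Nat.card_eq_finsetCard]
    exact Nat.card_congr (Equiv.subtypeEquivRight fun h => (hS h).symm)
  have hSpos : 0 < S.card := Finset.card_pos.2 ⟨1, (hS 1).2 (one_mem _)⟩
  have a1 := Count.index_eq surj Γ N hN hΓ
  rw [hcard] at a1
  have a2 := Count.card_ge N
  have a3 := Pool.Agent.H369R2.S6c.le_totient_mul N hN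
  have a4 := levsum index_all level Γ N hlev S fun h hh => (hS h).1 hh
  have a5 : N ^ 3 ≤ N.divisors.card * (Γ.index * S.card) := by
    calc N ^ 3 = N * (N * N) := by ring
      _ ≤ N.divisors.card * N.totient * (N * N) := Nat.mul_le_mul_right _ a3
      _ = N.divisors.card * (N.totient * (N * N)) := by ring
      _ ≤ N.divisors.card * (Γ.index * S.card) := Nat.mul_le_mul_left _ (a2.trans a1.ge)
  have a6 : S.card ≤ ∑ h ∈ S, lev N h := by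
    rw [Finset.card_eq_sum_ones]
    exact Finset.sum_le_sum fun h _ => Count.lev_pos hN h
  have a7 : N ≤ 4 * N.divisors.card ^ 3 * Γ.index := by
    have b1 : N ^ 2 * N ≤ N ^ 2 * (4 * N.divisors.card ^ 3 * Γ.index) := by
      calc N ^ 2 * N = N ^ 3 := by ring
        _ ≤ N.divisors.card * (Γ.index * S.card) := a5
        _ ≤ N.divisors.card * (Γ.index * (4 * N ^ 2 * N.divisors.card ^ 2)) :=
          Nat.mul_le_mul_left _ (Nat.mul_le_mul_left _ (a6.trans a4))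
        _ = N ^ 2 * (4 * N.divisors.card ^ 3 * Γ.index) := by ring
    exact Nat.le_of_mul_le_mul_left b1 (by positivity)
  refine ⟨?_, a7⟩
  have hDr : (1 : ℝ) ≤ D := by exact_mod_cast hD
  have hX0 : (0 : ℝ) < D := by linarith
  have hXe : 0 < (D : ℝ) ^ ε := Real.rpow_pos_of_pos hX0 _
  have hd1 : (1 : ℝ) ≤ N.divisors.card := by
    exact_mod_cast Finset.card_pos.2 ⟨1, Nat.one_mem_divisors.2 hN.ne'⟩
  obtain ⟨d, hd⟩ : ∃ d : ℝ, d = N.divisors.card := ⟨_, rfl⟩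
  obtain ⟨L, hL⟩ : ∃ L : ℝ, L = 1 + Real.log (4 * D * Y) := ⟨_, rfl⟩
  have hL1 : 1 ≤ L := by
    rw [hL]
    have : 0 ≤ Real.log (4 * D * Y) := Real.log_nonneg (by nlinarith)
    linarith
  have hS0 : (0 : ℝ) < S.card := by exact_mod_cast hSpos
  rw [← hL]
  have b1 : (S.card : ℝ) * ∑ η ∈ s, (fix Γ (τ η) : ℝ) * wt D U η ≤
      ∑ h ∈ S, (Nat.card {g : SL(2, ZMod N) // g * h = h * g} : ℝ) *
        ∑ η ∈ s.filter (fun η => IsConj (red N (τ η)) h), wt D U η := by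
    rw [Finset.mul_sum]
    have e1 : ∀ η ∈ s, (S.card : ℝ) * ((fix Γ (τ η) : ℝ) * wt D U η) ≤ ∑ h ∈ S,
        (if IsConj (red N (τ η)) h then
        (Nat.card {g : SL(2, ZMod N) // g * h = h * g} : ℝ) else 0) * wt D U η := by
      intro η hη
      rw [← mul_assoc, ← Finset.sum_mul]
      refine mul_le_mul_of_nonneg_right ?_ (wt_nonneg D hU η)
      exact dbl_one hN hΓ hS (τ η)
    refine (Finset.sum_le_sum e1).trans (le_of_eq ?_)
    rw [Finset.sum_comm]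
    refine Finset.sum_congr rfl fun h _ => ?_
    rw [Finset.mul_sum, Finset.sum_filter]
    refine Finset.sum_congr rfl fun η _ => ?_
    split_ifs <;> simp
  have b2 : ∑ h ∈ S, (Nat.card {g : SL(2, ZMod N) // g * h = h * g} : ℝ) *
        ∑ η ∈ s.filter (fun η => IsConj (red N (τ η)) h), wt D U η ≤
      ∑ h ∈ S, 2 * d ^ 2 * C * (D : ℝ) ^ ε * L * (D * N * lev N h + U * (D : ℝ) ^ 2) := by
    refine Finset.sum_le_sum fun h _ => ?_
    have hl := Count.lev_pos hN h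
    have hl' : (0 : ℝ) < lev N h := by exact_mod_cast hl
    obtain ⟨t, ht⟩ := conj_points' hDN h
    have e2 := hpts N (lev N h) D t Y U hN hl hD hY hU
      (s.filter (fun η => IsConj (red N (τ η)) h)) (by
      intro η hη
      rw [Finset.mem_filter] at hη
      obtain ⟨c1, c2, c3, c4⟩ := ht η (τ η) (hs η hη.1).det (hτ η hη.1) hη.2
      exact ⟨hs η hη.1, c1, c2, c3, c4⟩)
    have e3 := Count.cent_le cent N h
    rw [← hL] at e2
    rw [← hd] at e3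
    have e4 := mul_le_mul e3 e2 (Finset.sum_nonneg fun η _ => wt_nonneg D hU η) (by positivity)
    refine e4.trans (le_of_eq ?_)
    field_simp
  have b3 : ∑ h ∈ S, 2 * d ^ 2 * C * (D : ℝ) ^ ε * L * (D * N * lev N h + U * (D : ℝ) ^ 2) =
      2 * d ^ 2 * C * (D : ℝ) ^ ε * L * (D * N * (∑ h ∈ S, (lev N h : ℝ)) + S.card * (U * (D : ℝ) ^ 2)) := by
    rw [← Finset.mul_sum, Finset.sum_add_distrib, ← Finset.mul_sum, Finset.sum_const,
      nsmul_eq_mul]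
  have b4 : ∑ h ∈ S, (lev N h : ℝ) ≤ 4 * N ^ 2 * d ^ 2 := by
    rw [hd]
    exact_mod_cast a4
  have b5 : (N : ℝ) ^ 3 ≤ d * (Γ.index * S.card) := by
    rw [hd]
    exact_mod_cast a5
  rw [← hd] at hd1 ⊢
  have hd0 : 0 < d := by linarith
  obtain ⟨X, hX⟩ : ∃ X : ℝ, X = D := ⟨_, rfl⟩
  rw [← hX] at hX0 hXe b2 b3 ⊢
  have b6 : X * N * (∑ h ∈ S, (lev N h : ℝ)) + S.card * (U * X ^ 2) ≤
      (S.card : ℝ) * (4 * d ^ 3 * (Γ.index * X + U * X ^ 2)) := by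
    have c1 : X * N * (∑ h ∈ S, (lev N h : ℝ)) ≤ X * N * (4 * N ^ 2 * d ^ 2) :=
      mul_le_mul_of_nonneg_left b4 (by positivity)
    have c2 : X * N * (4 * N ^ 2 * d ^ 2) ≤ 4 * d ^ 2 * X * (d * (Γ.index * S.card)) := by
      calc X * N * (4 * N ^ 2 * d ^ 2) = 4 * d ^ 2 * X * (N : ℝ) ^ 3 := by ring
        _ ≤ 4 * d ^ 2 * X * (d * (Γ.index * S.card)) :=
          mul_le_mul_of_nonneg_left b5 (by positivity)
    have c3 : (1 : ℝ) ≤ 4 * d ^ 3 := by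
      have := one_le_pow₀ hd1 (n := 3)
      linarith
    have c4 : (S.card : ℝ) * (U * X ^ 2) ≤ S.card * (U * X ^ 2) * (4 * d ^ 3) :=
      le_mul_of_one_le_right (by positivity) c3
    calc X * N * (∑ h ∈ S, (lev N h : ℝ)) + S.card * (U * X ^ 2)
        ≤ 4 * d ^ 2 * X * (d * (Γ.index * S.card)) + S.card * (U * X ^ 2) * (4 * d ^ 3) :=
          add_le_add (c1.trans c2) c4
      _ = (S.card : ℝ) * (4 * d ^ 3 * (Γ.index * X + U * X ^ 2)) := by ring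
  have b7 : (S.card : ℝ) * ∑ η ∈ s, (fix Γ (τ η) : ℝ) * wt D U η ≤
      S.card * (8 * d ^ 5 * C * X ^ ε * (Γ.index * X + U * X ^ 2) * L) := by
    refine (b1.trans (b2.trans b3.le)).trans ?_
    refine (mul_le_mul_of_nonneg_left b6 (by positivity)).trans (le_of_eq ?_)
    ring
  exact le_of_mul_le_mul_left b7 hS0

/-- the level is bounded in terms of the index -/
theorem level_le : ∃ C : ℝ, 0 < C ∧ ∀ (N : ℕ) (n : ℝ), 0 < N → 0 ≤ n →
    (N : ℝ) ≤ 4 * (N.divisors.card : ℝ) ^ 3 * n → (N : ℝ) ≤ C * n ^ 2 := by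
  obtain ⟨C₁, hC₁, hD₁⟩ := Pool.Agent.H369R2.divisor_bound (1 / 6) (by norm_num)
  refine ⟨16 * C₁ ^ 6, by positivity, fun N n hN hn0 e2' => ?_⟩
  have hN' : (0 : ℝ) < N := by exact_mod_cast hN
  have f1 := hD₁ N hN
  obtain ⟨d, hd⟩ : ∃ d : ℝ, d = N.divisors.card := ⟨_, rfl⟩
  rw [← hd] at f1 e2'
  have hd0 : 0 ≤ d := by rw [hd]; positivity
  have k1 : ((N : ℝ) ^ (1 / 6 : ℝ)) ^ 6 = N := by
    rw [← Real.rpow_natCast, ← Real.rpow_mul hN'.le]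
    norm_num
  obtain ⟨y, hy⟩ : ∃ y : ℝ, y = (N : ℝ) ^ (1 / 6 : ℝ) := ⟨_, rfl⟩
  rw [← hy] at k1 f1
  have hy0 : 0 < y := by rw [hy]; positivity
  have k2 : y ^ 3 * y ^ 3 ≤ (4 * C₁ ^ 3 * n) * y ^ 3 := by
    calc y ^ 3 * y ^ 3 = y ^ 6 := by ring
      _ = (N : ℝ) := k1
      _ ≤ 4 * d ^ 3 * n := e2'
      _ ≤ 4 * (C₁ * y) ^ 3 * n := by gcongr
      _ = (4 * C₁ ^ 3 * n) * y ^ 3 := by ring
  have k3 : y ^ 3 ≤ 4 * C₁ ^ 3 * n := le_of_mul_le_mul_right k2 (by positivity)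
  calc (N : ℝ) = (y ^ 3) ^ 2 := by rw [← k1]; ring
    _ ≤ (4 * C₁ ^ 3 * n) ^ 2 := by gcongr
    _ = 16 * C₁ ^ 6 * n ^ 2 := by ring

/-- the weighted count -/
theorem main : ∀ ε : ℝ, 0 < ε → ∃ C : ℝ, 0 < C ∧ ∀ (Γ : Subgroup SL(2, ℤ)) (N : ℕ), IsLevel Γ N →
    ∀ D : ℕ, 0 < D → Nat.Coprime D N → ∀ Y U : ℝ, 5 ≤ Y → 0 ≤ U →
    ∀ s : Finset MZ, (∀ η ∈ s, Sz D Y η) → ∀ τ : MZ → SL(2, ℤ), (∀ η ∈ s, Cg N D η (τ η)) →
    ∑ η ∈ s, (fix Γ (τ η) : ℝ) * wt D U η ≤ C * (Γ.index * D) ^ ε * (Γ.index * D + U * D ^ 2) *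
      (1 + Real.log (4 * D * Y)) := by
  intro ε hε
  obtain ⟨C₀, hC₀, hlevN⟩ := level_le
  obtain ⟨C₂, hC₂, hD₂⟩ := Pool.Agent.H369R2.divisor_bound (ε / 10) (by positivity)
  obtain ⟨C, hC, hpts⟩ := wpoints ε hε
  refine ⟨8 * C * (C₂ ^ 5 * C₀ ^ (ε / 2)), by positivity, ?_⟩
  intro Γ N hlev D hD hDN Y U hY hU s hs τ hτ
  obtain ⟨e1, e2⟩ := sum_le hC hpts Γ N hlev D hD hDN Y U hY hU s hs τ hτ
  have hN : 0 < N := hlev.1
  have hN' : (0 : ℝ) < N := by exact_mod_cast hN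
  have hDr : (1 : ℝ) ≤ D := by exact_mod_cast hD
  obtain ⟨X, hX⟩ : ∃ X : ℝ, X = D := ⟨_, rfl⟩
  obtain ⟨L, hL⟩ : ∃ L : ℝ, L = 1 + Real.log (4 * D * Y) := ⟨_, rfl⟩
  have hL1 : 1 ≤ L := by
    rw [hL]
    have : 0 ≤ Real.log (4 * D * Y) := Real.log_nonneg (by nlinarith)
    linarith
  rw [← hL] at e1 ⊢
  rw [← hX] at e1 hDr ⊢
  have hX0 : (0 : ℝ) < X := by linarith
  have hXe : 0 < X ^ ε := Real.rpow_pos_of_pos hX0 _
  obtain ⟨d, hd⟩ : ∃ d : ℝ, d = N.divisors.card := ⟨_, rfl⟩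
  obtain ⟨n, hn⟩ : ∃ n : ℝ, n = Γ.index := ⟨_, rfl⟩
  have e2' : (N : ℝ) ≤ 4 * (N.divisors.card : ℝ) ^ 3 * n := by
    rw [hn]
    exact_mod_cast e2
  have f2 := hD₂ N hN
  rw [← hd] at e1 f2
  rw [← hn] at e1 ⊢
  have hn0 : 0 ≤ n := by rw [hn]; positivity
  have hd0 : 0 ≤ d := by rw [hd]; positivity
  have g1 := hlevN N n hN hn0 e2'
  have g2 : d ^ 5 ≤ C₂ ^ 5 * C₀ ^ (ε / 2) * n ^ ε := by
    have k1 : ((N : ℝ) ^ (ε / 10)) ^ 5 = (N : ℝ) ^ (ε / 2) := by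
      rw [← Real.rpow_natCast, ← Real.rpow_mul hN'.le]
      congr 1
      push_cast
      ring
    have k2 : (n ^ 2) ^ (ε / 2) = n ^ ε := by
      rw [← Real.rpow_natCast, ← Real.rpow_mul hn0]
      congr 1
      push_cast
      ring
    calc d ^ 5 ≤ (C₂ * (N : ℝ) ^ (ε / 10)) ^ 5 := by gcongr
      _ = C₂ ^ 5 * (N : ℝ) ^ (ε / 2) := by rw [mul_pow, k1]
      _ ≤ C₂ ^ 5 * (C₀ * n ^ 2) ^ (ε / 2) := by
        gcongr
      _ = C₂ ^ 5 * C₀ ^ (ε / 2) * n ^ ε := by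
        rw [Real.mul_rpow (by positivity) (by positivity), k2, mul_assoc]
  refine e1.trans ?_
  rw [Real.mul_rpow hn0 hX0.le]
  calc 8 * d ^ 5 * C * X ^ ε * (n * X + U * X ^ 2) * L
      ≤ 8 * (C₂ ^ 5 * C₀ ^ (ε / 2) * n ^ ε) * C * X ^ ε * (n * X + U * X ^ 2) * L := by
        gcongr
    _ = 8 * C * (C₂ ^ 5 * C₀ ^ (ε / 2)) * (n ^ ε * X ^ ε) * (n * X + U * X ^ 2) * L := by
      ring

end Q3

end

end Pool.Agent.XE31
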