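import Pool.Agent.XE31.Q3

/-!
# The number of representations of a displacement matrix
-/

set_option autoImplicit false
set_option linter.all false

open UpperHalfPlane MeasureTheory Metric ModularGroup CongruenceSubgroup
open scoped MatrixGroups ENNReal Modular Topology NNReal

namespace Pool.Agent.XE31

open Pool.Agent.H369R2 Pool.Agent.N799.DT

noncomputable section

namespace Q4

open H4 H5 H6 FixedDetMatrices

/-- Hermite normal form -/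
theorem hkey {M : ℕ} (hM : 0 < M) (g : MZ) (hg : g.det = (M : ℤ)) : ∃ (γ : SL(2, ℤ)) (B : MZ),
      B = (γ : MZ) * g ∧ B 1 0 = 0 ∧ B 0 0 * B 1 1 = M ∧ 0 < B 1 1 ∧ 0 ≤ B 0 1 ∧
        B 0 1 < B 1 1 := by
  have hMz : (M : ℤ) ≠ 0 := by exact_mod_cast hM.ne'
  have hMp : (0 : ℤ) < M := by exact_mod_cast hM
  obtain ⟨A, hA⟩ : ∃ A : FixedDetMatrix (Fin 2) ℤ M, A.1 = g := ⟨⟨g, hg⟩, rfl⟩
  obtain ⟨γ, hγ⟩ := reduce_orbit A
  obtain ⟨h1, h2, h3, h4⟩ := reduce_mem_reps hMz A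
  obtain ⟨B, hB⟩ : ∃ B : MZ, B = (reduce A).1 := ⟨_, rfl⟩
  have hdet : B.det = (M : ℤ) := by rw [hB]; exact (reduce A).2
  have hBγ : B = (γ : MZ) * g := by
    rw [hB, ← hA]
    exact congrArg Subtype.val hγ
  have k1 : B 1 0 = 0 := by rw [hB]; exact h1
  have k2 : 0 < B 0 0 := by rw [hB]; exact h2
  have k3 : 0 ≤ B 0 1 := by rw [hB]; exact h3
  have k4 : |B 0 1| < |B 1 1| := by rw [hB]; exact h4
  have h5 : B 0 0 * B 1 1 = M := by
    rw [Matrix.det_fin_two, k1, mul_zero, sub_zero] at hdet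
    exact hdet
  have h6 : 0 < B 1 1 := by
    have : 0 < B 0 0 * B 1 1 := by rw [h5]; exact hMp
    exact (mul_pos_iff_of_pos_left k2).1 this
  refine ⟨γ, B, hBγ, k1, h5, h6, k3, ?_⟩
  rwa [abs_of_nonneg k3, abs_of_pos h6] at k4

/-- the content -/
def ct (D : ℕ) (η : MZ) : ℕ :=
  Nat.gcd D (Nat.gcd (η 0 0).natAbs (Nat.gcd (η 0 1).natAbs (Nat.gcd (η 1 0).natAbs (η 1 1).natAbs)))

lemma ct_pos {D : ℕ} (hD : 0 < D) (η : MZ) : 0 < ct D η := Nat.gcd_pos_of_pos_left _ hD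

lemma dvd_ct {D e : ℕ} {η : MZ} (hD : e ∣ D) (h0 : e ∣ (η 0 0).natAbs) (h1 : e ∣ (η 0 1).natAbs)
    (h2 : e ∣ (η 1 0).natAbs) (h3 : e ∣ (η 1 1).natAbs) : e ∣ ct D η :=
  Nat.dvd_gcd hD (Nat.dvd_gcd h0 (Nat.dvd_gcd h1 (Nat.dvd_gcd h2 h3)))

lemma ct_dvd_D (D : ℕ) (η : MZ) : ct D η ∣ D := Nat.gcd_dvd_left _ _

lemma ct_dvd (D : ℕ) (η : MZ) (i j : Fin 2) : (ct D η : ℤ) ∣ η i j := by
  rw [Int.natCast_dvd]
  have h1 : ct D η ∣ Nat.gcd (η 0 0).natAbs (Nat.gcd (η 0 1).natAbs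
    (Nat.gcd (η 1 0).natAbs (η 1 1).natAbs)) := Nat.gcd_dvd_right _ _
  have h2 := h1.trans (Nat.gcd_dvd_right _ _)
  have h3 := h2.trans (Nat.gcd_dvd_right _ _)
  fin_cases i <;> fin_cases j
  · exact h1.trans (Nat.gcd_dvd_left _ _)
  · exact h2.trans (Nat.gcd_dvd_left _ _)
  · exact h3.trans (Nat.gcd_dvd_left _ _)
  · exact h3.trans (Nat.gcd_dvd_right _ _)

/-- the greatest common divisor attached to a divisor of `D` -/
def eg (D : ℕ) (η : MZ) (d : ℕ) : ℕ :=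
  Nat.gcd d (Nat.gcd ((η 1 0).natAbs / (D / d)) ((η 1 1).natAbs / (D / d)))

/-- validity of a Hermite form -/
structure Vd (D : ℕ) (η : MZ) (a b d : ℕ) : Prop where
  had : a * d = D
  hb : b < d
  a10 : (a : ℤ) ∣ η 1 0
  a11 : (a : ℤ) ∣ η 1 1
  d0 : (d : ℤ) ∣ η 0 0 + b * (η 1 0 / a)
  d1 : (d : ℤ) ∣ η 0 1 + b * (η 1 1 / a)

lemma Vd.of {D : ℕ} (hD : 0 < D) {η B : MZ} (h10 : B 1 0 = 0) (had : B 0 0 * B 1 1 = D)
    (hd : 0 < B 1 1) (hb0 : 0 ≤ B 0 1) (hb : B 0 1 < B 1 1)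
    (h : ∀ i j, (D : ℤ) ∣ (B * η) i j) :
    Vd D η (B 0 0).toNat (B 0 1).toNat (B 1 1).toNat := by
  have hDz : (0 : ℤ) < D := by exact_mod_cast hD
  have ha : 0 < B 0 0 := by
    have : 0 < B 0 0 * B 1 1 := by rw [had]; exact hDz
    exact (mul_pos_iff_of_pos_right hd).1 this
  have ea : ((B 0 0).toNat : ℤ) = B 0 0 := Int.toNat_of_nonneg ha.le
  have eb : ((B 0 1).toNat : ℤ) = B 0 1 := Int.toNat_of_nonneg hb0
  have ed : ((B 1 1).toNat : ℤ) = B 1 1 := Int.toNat_of_nonneg hd.le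
  have k0 := h 0 0
  have k1 := h 0 1
  have k2 := h 1 0
  have k3 := h 1 1
  simp only [mul00, mul01, mul10, mul11] at k0 k1 k2 k3
  rw [h10, zero_mul, zero_add, ← had, mul_comm (B 0 0)] at k2 k3
  have c2 : B 0 0 ∣ η 1 0 := (mul_dvd_mul_iff_left hd.ne').1 k2
  have c3 : B 0 0 ∣ η 1 1 := (mul_dvd_mul_iff_left hd.ne').1 k3
  rw [← had] at k0 k1
  have c0 : B 1 1 ∣ η 0 0 + B 0 1 * (η 1 0 / B 0 0) := by
    rw [← mul_dvd_mul_iff_left ha.ne']
    have : B 0 0 * (η 0 0 + B 0 1 * (η 1 0 / B 0 0)) = B 0 0 * η 0 0 + B 0 1 * η 1 0 := by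
      rw [mul_add, mul_left_comm, Int.mul_ediv_cancel' c2]
    rw [this]
    exact k0
  have c1 : B 1 1 ∣ η 0 1 + B 0 1 * (η 1 1 / B 0 0) := by
    rw [← mul_dvd_mul_iff_left ha.ne']
    have : B 0 0 * (η 0 1 + B 0 1 * (η 1 1 / B 0 0)) = B 0 0 * η 0 1 + B 0 1 * η 1 1 := by
      rw [mul_add, mul_left_comm, Int.mul_ediv_cancel' c3]
    rw [this]
    exact k1
  refine ⟨?_, ?_, ?_, ?_, ?_, ?_⟩
  · have : (((B 0 0).toNat * (B 1 1).toNat : ℕ) : ℤ) = (D : ℤ) := by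
      push_cast
      rw [ea, ed, had]
    exact_mod_cast this
  · omega
  · rw [ea]; exact c2
  · rw [ea]; exact c3
  · rw [ea, eb, ed]; exact c0
  · rw [ea, eb, ed]; exact c1

lemma Vd.facts {D : ℕ} (hD : 0 < D) {η : MZ} {a b d : ℕ} (h : Vd D η a b d) :
    0 < a ∧ 0 < d ∧ D / d = a ∧ 0 < eg D η d ∧ eg D η d ∣ d ∧ eg D η d ≤ ct D η ∧
      (eg D η d : ℤ) ∣ η 1 0 / a ∧ (eg D η d : ℤ) ∣ η 1 1 / a := by
  have ha : 0 < a := by
    rcases Nat.eq_zero_or_pos a with h0 | h0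
    · have := h.had
      rw [h0, zero_mul] at this
      omega
    · exact h0
  have hd : 0 < d := lt_of_le_of_lt (Nat.zero_le b) h.hb
  have hDd : D / d = a := by rw [← h.had, Nat.mul_div_cancel _ hd]
  have he0 : 0 < eg D η d := Nat.gcd_pos_of_pos_left _ hd
  have hed : eg D η d ∣ d := Nat.gcd_dvd_left _ _
  have haz : (a : ℤ) ≠ 0 := by exact_mod_cast ha.ne'
  have q0 : (η 1 0 / a).natAbs = (η 1 0).natAbs / a := by
    obtain ⟨u, hu⟩ := h.a10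
    rw [hu, Int.mul_ediv_cancel_left _ haz, Int.natAbs_mul, Int.natAbs_natCast,
      Nat.mul_div_cancel_left _ ha]
  have q1 : (η 1 1 / a).natAbs = (η 1 1).natAbs / a := by
    obtain ⟨u, hu⟩ := h.a11
    rw [hu, Int.mul_ediv_cancel_left _ haz, Int.natAbs_mul, Int.natAbs_natCast,
      Nat.mul_div_cancel_left _ ha]
  have e0 : (eg D η d : ℤ) ∣ η 1 0 / a := by
    rw [Int.natCast_dvd, q0, ← hDd]
    exact (Nat.gcd_dvd_right _ _).trans (Nat.gcd_dvd_left _ _)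
  have e1 : (eg D η d : ℤ) ∣ η 1 1 / a := by
    rw [Int.natCast_dvd, q1, ← hDd]
    exact (Nat.gcd_dvd_right _ _).trans (Nat.gcd_dvd_right _ _)
  have hedz : (eg D η d : ℤ) ∣ (d : ℤ) := Int.natCast_dvd_natCast.2 hed
  have f10 : (eg D η d : ℤ) ∣ η 1 0 := by
    rw [← Int.mul_ediv_cancel' h.a10]; exact e0.mul_left _
  have f11 : (eg D η d : ℤ) ∣ η 1 1 := by
    rw [← Int.mul_ediv_cancel' h.a11]; exact e1.mul_left _
  have f00 : (eg D η d : ℤ) ∣ η 0 0 := by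
    have := dvd_sub (hedz.trans h.d0) (e0.mul_left (b : ℤ))
    rwa [add_sub_cancel_right] at this
  have f01 : (eg D η d : ℤ) ∣ η 0 1 := by
    have := dvd_sub (hedz.trans h.d1) (e1.mul_left (b : ℤ))
    rwa [add_sub_cancel_right] at this
  refine ⟨ha, hd, hDd, he0, hed, ?_, e0, e1⟩
  apply Nat.le_of_dvd (ct_pos hD η)
  exact dvd_ct (hed.trans ⟨a, by rw [mul_comm]; exact h.had.symm⟩) (Int.natCast_dvd.1 f00)
    (Int.natCast_dvd.1 f01) (Int.natCast_dvd.1 f10) (Int.natCast_dvd.1 f11)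

/-- two valid Hermite forms with the same `d` -/
lemma Vd.inj {D : ℕ} (hD : 0 < D) {η : MZ} {a a' b b' d : ℕ} (h : Vd D η a b d)
    (h' : Vd D η a' b' d) (hq : b / (d / eg D η d) = b' / (d / eg D η d)) : a = a' ∧ b = b' := by
  obtain ⟨ha, hd, hDd, he0, hed, _, e0, e1⟩ := h.facts hD
  obtain ⟨_, _, hDd', _, _, _, _, _⟩ := h'.facts hD
  have haa : a = a' := hDd.symm.trans hDd'
  refine ⟨haa, ?_⟩
  obtain ⟨w, hw⟩ := hed
  have hw0 : 0 < w := by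
    rcases Nat.eq_zero_or_pos w with h0 | h0
    · rw [h0, mul_zero] at hw; omega
    · exact h0
  have hdw : d / eg D η d = w := Nat.div_eq_of_eq_mul_right he0 hw
  rw [hdw] at hq
  have haz : (a : ℤ) ≠ 0 := by exact_mod_cast ha.ne'
  have q0 : (η 1 0 / a).natAbs = (η 1 0).natAbs / a := by
    obtain ⟨u, hu⟩ := h.a10
    rw [hu, Int.mul_ediv_cancel_left _ haz, Int.natAbs_mul, Int.natAbs_natCast,
      Nat.mul_div_cancel_left _ ha]
  have q1 : (η 1 1 / a).natAbs = (η 1 1).natAbs / a := by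
    obtain ⟨u, hu⟩ := h.a11
    rw [hu, Int.mul_ediv_cancel_left _ haz, Int.natAbs_mul, Int.natAbs_natCast,
      Nat.mul_div_cancel_left _ ha]
  obtain ⟨Z, hZ⟩ : ∃ Z : ℕ, Z = ((b : ℤ) - b').natAbs := ⟨_, rfl⟩
  have k0 : d ∣ Z * ((η 1 0).natAbs / a) := by
    have e3 := h'.d0
    rw [← haa] at e3
    have e := dvd_sub h.d0 e3
    have e2 : η 0 0 + b * (η 1 0 / (a : ℤ)) - (η 0 0 + b' * (η 1 0 / (a : ℤ))) =
        ((b : ℤ) - b') * (η 1 0 / (a : ℤ)) := by ring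
    rw [e2, Int.natCast_dvd, Int.natAbs_mul, q0, ← hZ] at e
    exact e
  have k1 : d ∣ Z * ((η 1 1).natAbs / a) := by
    have e3 := h'.d1
    rw [← haa] at e3
    have e := dvd_sub h.d1 e3
    have e2 : η 0 1 + b * (η 1 1 / (a : ℤ)) - (η 0 1 + b' * (η 1 1 / (a : ℤ))) =
        ((b : ℤ) - b') * (η 1 1 / (a : ℤ)) := by ring
    rw [e2, Int.natCast_dvd, Int.natAbs_mul, q1, ← hZ] at e
    exact e
  have k2 : d ∣ Z * eg D η d := by
    unfold eg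
    rw [hDd, ← Nat.gcd_mul_left, ← Nat.gcd_mul_left]
    exact Nat.dvd_gcd (dvd_mul_left _ _) (Nat.dvd_gcd k0 k1)
  have k3 : w ∣ Z := by
    rw [hw] at k2
    have k4 : eg D η d * w ∣ eg D η d * Z := by
      rw [mul_comm (eg D η d) Z]
      convert k2 using 2 <;> rw [← hw]
    exact Nat.dvd_of_mul_dvd_mul_left he0 k4
  have k5 : (w : ℤ) ∣ (b : ℤ) - b' := by
    rw [Int.natCast_dvd, ← hZ]; exact k3
  have m1 := Nat.div_add_mod b w
  have m2 := Nat.div_add_mod b' w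
  have m3 : b ≡ b' [MOD w] := by
    have := (Int.emod_emod_of_dvd (b : ℤ) (dvd_refl (w : ℤ)))
    have h5 : (b' : ℤ) ≡ b [ZMOD w] := Int.modEq_iff_dvd.2 k5
    exact ((Int.natCast_modEq_iff).1 h5).symm
  rw [hq] at m1
  have m4 : b % w = b' % w := m3
  omega

/-- the number of representations -/
theorem fib_inj {N m : ℕ} (hm : 0 < m) (hc : Nat.Coprime m N) {S : Finset MZ} (hS : Reps N m S)
    (η : MZ) : ∃ f : {x : S × S × SL(2, ℤ) // eta x.1 x.2.1 x.2.2 = η} →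
      ((m ^ 2).divisors ×ˢ Finset.range (ct (m ^ 2) η) : Finset (ℕ × ℕ)), Function.Injective f := by
  classical
  have hD : 0 < m ^ 2 := by positivity
  have hdet : ∀ g ∈ S, g.det = ((m ^ 2 : ℕ) : ℤ) := by
    intro g hg
    rw [Matrix.det_fin_two, (hS.mem g hg).det]
    push_cast
    rfl
  have key := fun g : MZ => fun hg : g.det = ((m ^ 2 : ℕ) : ℤ) => hkey hD g hg
  choose! γ B hB h1 h2 h3 h4 h5 using key
  -- the relation `g η = m ^ 2 τ g'`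
  have hrel : ∀ x : {x : S × S × SL(2, ℤ) // eta x.1 x.2.1 x.2.2 = η},
      (x.1.1 : MZ) * η = ((m ^ 2 : ℕ) : ℤ) • ((x.1.2.2 : MZ) * (x.1.2.1 : MZ)) := by
    intro x
    have e0 : (x.1.1 : MZ) * η = (x.1.1 : MZ) * eta x.1.1 x.1.2.1 x.1.2.2 := by rw [x.2]
    rw [e0]
    unfold eta
    rw [mul_assoc, ← mul_assoc (x.1.1 : MZ), Matrix.mul_adjugate, hdet _ x.1.1.2, smul_mul_assoc,
      one_mul]
  have hvd : ∀ x : {x : S × S × SL(2, ℤ) // eta x.1 x.2.1 x.2.2 = η},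
      Vd (m ^ 2) η (B x.1.1 0 0).toNat (B x.1.1 0 1).toNat (B x.1.1 1 1).toNat := by
    intro x
    have hg := hdet _ x.1.1.2
    refine Vd.of hD (h1 _ hg) (h2 _ hg) (h3 _ hg) (h4 _ hg) (h5 _ hg) ?_
    have e : B x.1.1 * η = ((m ^ 2 : ℕ) : ℤ) • ((γ x.1.1 : MZ) * ((x.1.2.2 : MZ) * (x.1.2.1 : MZ))) := by
      rw [hB _ hg, mul_assoc, hrel x, mul_smul_comm]
    intro i j
    rw [e, Matrix.smul_apply, smul_eq_mul]
    exact dvd_mul_right _ _
  refine ⟨fun x => ⟨((B x.1.1 1 1).toNat, (B x.1.1 0 1).toNat /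
    ((B x.1.1 1 1).toNat / eg (m ^ 2) η (B x.1.1 1 1).toNat)), ?_⟩, ?_⟩
  · obtain ⟨ha, hd, hDd, he0, hed, hle, _, _⟩ := (hvd x).facts hD
    rw [Finset.mem_product, Nat.mem_divisors, Finset.mem_range]
    refine ⟨⟨⟨_, by rw [mul_comm]; exact (hvd x).had.symm⟩, hD.ne'⟩, ?_⟩
    refine lt_of_lt_of_le ?_ hle
    have hw0 : 0 < (B x.1.1 1 1).toNat / eg (m ^ 2) η (B x.1.1 1 1).toNat :=
      Nat.div_pos (Nat.le_of_dvd hd hed) he0
    show (B x.1.1 0 1).toNat / ((B x.1.1 1 1).toNat / eg (m ^ 2) η (B x.1.1 1 1).toNat) < _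
    rw [Nat.div_lt_iff_lt_mul hw0, Nat.mul_div_cancel' hed]
    exact (hvd x).hb
  · rintro x y hxy
    rw [Subtype.mk.injEq, Prod.mk.injEq] at hxy
    obtain ⟨e1, e2⟩ := hxy
    have vx := hvd x
    have vy := hvd y
    rw [← e1] at e2 vy
    obtain ⟨e3, e4⟩ := Vd.inj hD vx vy e2
    have gx := hdet _ x.1.1.2
    have gy := hdet _ y.1.1.2
    have ax : 0 < B x.1.1 0 0 := by
      have : 0 < B x.1.1 0 0 * B x.1.1 1 1 := by rw [h2 _ gx]; exact_mod_cast hD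
      exact (mul_pos_iff_of_pos_right (h3 _ gx)).1 this
    have ay : 0 < B y.1.1 0 0 := by
      have : 0 < B y.1.1 0 0 * B y.1.1 1 1 := by rw [h2 _ gy]; exact_mod_cast hD
      exact (mul_pos_iff_of_pos_right (h3 _ gy)).1 this
    have px := h3 _ gx
    have py := h3 _ gy
    have bx := h4 _ gx
    have by' := h4 _ gy
    have c1 : B x.1.1 1 1 = B y.1.1 1 1 := by omega
    have c2 : B x.1.1 0 1 = B y.1.1 0 1 := by omega
    have c3 : B x.1.1 0 0 = B y.1.1 0 0 := by omega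
    have c4 : B x.1.1 = B y.1.1 := mz_ext c3 c2 ((h1 _ gx).trans (h1 _ gy).symm) c1
    have d1 := hB _ gx
    have d2 := hB _ gy
    have d3 : (x.1.1 : MZ) = (((γ x.1.1)⁻¹ * γ y.1.1 : SL(2, ℤ)) : MZ) * (y.1.1 : MZ) := by
      rw [Matrix.SpecialLinearGroup.coe_mul, mul_assoc, ← d2, ← c4, d1, ← mul_assoc, inv_mul_coe,
        one_mul]
    have e5 : (x.1.1 : MZ) = y.1.1 := hS.uniq _ x.1.1.2 _ y.1.1.2 _
      (cong hc (hS.mem _ x.1.1.2) (hS.mem _ y.1.1.2) d3) d3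
    have e6 : (x.1.2.2 : MZ) * (x.1.2.1 : MZ) = (y.1.2.2 : MZ) * (y.1.2.1 : MZ) := by
      have r1 := hrel x
      have r2 := hrel y
      rw [e5, r2] at r1
      exact (smul_right_injective _ (by exact_mod_cast hD.ne') r1).symm
    have e7 : (x.1.2.1 : MZ) = (((x.1.2.2)⁻¹ * y.1.2.2 : SL(2, ℤ)) : MZ) * (y.1.2.1 : MZ) := by
      rw [Matrix.SpecialLinearGroup.coe_mul, mul_assoc, ← e6, ← mul_assoc, inv_mul_coe, one_mul]
    have e8 : (x.1.2.1 : MZ) = y.1.2.1 := hS.uniq _ x.1.2.1.2 _ y.1.2.1.2 _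
      (cong hc (hS.mem _ x.1.2.1.2) (hS.mem _ y.1.2.1.2) e7) e7
    rw [e8] at e6
    have e9 : x.1.2.2 = y.1.2.2 := sl_coe_inj (sl_cancel hm (hS.mem _ y.1.2.1.2) e6)
    exact Subtype.ext (Prod.ext (Subtype.ext e5) (Prod.ext (Subtype.ext e8) e9))

/-- the sum over the triples in terms of the displacement matrices -/
theorem fib_sum {N m : ℕ} (hm : 0 < m) (hc : Nat.Coprime m N) {S : Finset MZ} (hS : Reps N m S)
    (F : MZ → ℝ≥0∞) : ∑' x : S × S × SL(2, ℤ), F (eta x.1 x.2.1 x.2.2) ≤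
      ∑' η : MZ, (((m ^ 2).divisors.card * ct (m ^ 2) η : ℕ) : ℝ≥0∞) * F η := by
  rw [← (Equiv.sigmaFiberEquiv (fun x : S × S × SL(2, ℤ) => eta x.1 x.2.1 x.2.2)).tsum_eq,
    ENNReal.tsum_sigma']
  refine ENNReal.tsum_le_tsum fun η => ?_
  obtain ⟨f, hf⟩ := fib_inj hm hc hS η
  have h1 : ∀ x : {x : S × S × SL(2, ℤ) // eta x.1 x.2.1 x.2.2 = η},
      F (eta ((Equiv.sigmaFiberEquiv (fun x : S × S × SL(2, ℤ) => eta x.1 x.2.1 x.2.2))
        ⟨η, x⟩).1 ((Equiv.sigmaFiberEquiv (fun x : S × S × SL(2, ℤ) =>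
          eta x.1 x.2.1 x.2.2)) ⟨η, x⟩).2.1
        ((Equiv.sigmaFiberEquiv (fun x : S × S × SL(2, ℤ) => eta x.1 x.2.1 x.2.2))
        ⟨η, x⟩).2.2) = (fun _ : ((m ^ 2).divisors ×ˢ Finset.range (ct (m ^ 2) η) :
          Finset (ℕ × ℕ)) => F η) (f x) := by
    intro x
    show F (eta x.1.1 x.1.2.1 x.1.2.2) = F η
    rw [x.2]
  refine (tsum_congr h1).trans_le ?_
  refine (ENNReal.tsum_comp_le_tsum_of_injective hf (fun _ => F η)).trans (le_of_eq ?_)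
  rw [tsum_fintype, Finset.sum_const, Finset.card_univ, Fintype.card_coe, Finset.card_product,
    Finset.card_range, nsmul_eq_mul]

/-- the sum over the divisors of the content -/
theorem ct_sum {D : ℕ} (hD : 0 < D) (F : MZ → ℝ≥0∞) :
    ∑' η : MZ, ((ct D η : ℕ) : ℝ≥0∞) * F η ≤
      ∑ k ∈ D.divisors, (k : ℝ≥0∞) * ∑' η : MZ, F ((k : ℤ) • η) := by
  classical
  have h1 : ∀ η : MZ, ((ct D η : ℕ) : ℝ≥0∞) * F η ≤
      ∑ k ∈ D.divisors, (k : ℝ≥0∞) * (if ∀ i j, (k : ℤ) ∣ η i j then F η else 0) := by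
    intro η
    refine le_trans ?_ (Finset.single_le_sum (f := fun k : ℕ =>
      (k : ℝ≥0∞) * (if ∀ i j, (k : ℤ) ∣ η i j then F η else 0)) (fun k _ => zero_le)
      (Nat.mem_divisors.2 ⟨ct_dvd_D D η, hD.ne'⟩))
    rw [if_pos (ct_dvd D η)]
  refine (ENNReal.tsum_le_tsum h1).trans ?_
  rw [Summable.tsum_finsetSum fun _ _ => ENNReal.summable]
  refine Finset.sum_le_sum fun k hk => ?_
  rw [ENNReal.tsum_mul_left]
  refine mul_le_mul' le_rfl (le_of_eq ?_)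
  have hk0 : (k : ℤ) ≠ 0 := by exact_mod_cast (Nat.pos_of_mem_divisors hk).ne'
  have hinj : Function.Injective fun η : MZ => (k : ℤ) • η := smul_right_injective _ hk0
  rw [← hinj.tsum_eq]
  · refine tsum_congr fun η => ?_
    rw [if_pos]
    intro i j
    rw [Matrix.smul_apply, smul_eq_mul]
    exact dvd_mul_right _ _
  · intro η hη
    rw [Function.mem_support] at hη
    have h2 : ∀ i j, (k : ℤ) ∣ η i j := by
      by_contra hcon
      exact hη (if_neg hcon)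
    choose q hq using h2
    refine ⟨Matrix.of q, ?_⟩
    ext i j
    show (k : ℤ) • q i j = η i j
    rw [smul_eq_mul]
    exact (hq i j).symm

end Q4

end

end Pool.Agent.XE31
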