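import Pool.Agent.XE31.G5

/-!
# The volume of the points moved by a small amount by a matrix with given trace
-/

set_option autoImplicit false
set_option linter.all false

open UpperHalfPlane MeasureTheory Metric ModularGroup CongruenceSubgroup
open scoped MatrixGroups ENNReal Modular Topology NNReal

namespace Pool.Agent.XE31

open Pool.Agent.H369R2 Pool.Agent.N799.DT

noncomputable section

namespace Q5a

open G2 G3 G5

/-- the volume of a box -/
theorem vol_box {a b y₁ y₂ : ℝ} (hab : a ≤ b) (h1 : 0 < y₁) (h2 : y₁ ≤ y₂) :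
    volume {z : ℍ | z.re ∈ Set.Icc a b ∧ y₁ < z.im ∧ z.im ≤ y₂} ≤
      ENNReal.ofReal ((b - a) / y₁ - (b - a) / y₂) := by
  have h3 : 0 < y₂ := by linarith
  obtain ⟨A, hA⟩ : ∃ A : Set ℍ, A = {z : ℍ | z.re ∈ Set.Icc a b ∧ y₁ < z.im} := ⟨_, rfl⟩
  obtain ⟨B, hB⟩ : ∃ B : Set ℍ, B = {z : ℍ | z.re ∈ Set.Icc a b ∧ y₂ < z.im} := ⟨_, rfl⟩
  have vA : volume A = ENNReal.ofReal ((b - a) / y₁) := by rw [hA, vol_strip2 hab h1]
  have vB : volume B = ENNReal.ofReal ((b - a) / y₂) := by rw [hB, vol_strip2 hab h3]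
  have hBA : B ⊆ A := by
    rw [hA, hB]
    rintro z ⟨w1, w2⟩
    exact ⟨w1, by linarith⟩
  have hmB : MeasurableSet B := by
    rw [hB]
    exact (measurableSet_Icc.preimage continuous_re.measurable).inter
      (isOpen_lt continuous_const continuous_im).measurableSet
  have hsub : {z : ℍ | z.re ∈ Set.Icc a b ∧ y₁ < z.im ∧ z.im ≤ y₂} ⊆ A \ B := by
    rintro z ⟨w1, w2, w3⟩
    rw [hA, hB]
    exact ⟨⟨w1, w2⟩, fun h => absurd h.2 (not_lt.2 w3)⟩
  refine (measure_mono hsub).trans ?_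
  rw [measure_sdiff hBA hmB.nullMeasurableSet (by rw [vB]; exact ENNReal.ofReal_ne_top), vA, vB,
    ← ENNReal.ofReal_sub _ (by
      have : 0 ≤ b - a := by linarith
      positivity)]

/-- the position of the points moved by a small amount -/
theorem pos_c {E ε Y D : ℝ} (hε : 0 < ε) {a b c d : ℤ} (hc : c ≠ 0)
    (hdet : (a : ℝ) * d - b * c = D ^ 2) {w : ℍ} (hw : w ∈ SS2 E ε Y a b c d) :
    |2 * (c : ℝ) * w.re + ((d : ℝ) - a)| ≤ ε ∧
      |(2 * (c : ℝ) * w.re + ((d : ℝ) - a)) ^ 2 - (2 * |(c : ℝ)| * w.im) ^ 2 +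
        (4 * D ^ 2 - ((a : ℝ) + d) ^ 2)| ≤ 2 * ε * (2 * |(c : ℝ)| * w.im) := by
  obtain ⟨h1, h2⟩ := small hε a b c d w hw
  refine ⟨h1, ?_⟩
  have e : (2 * (c : ℝ) * w.re + ((d : ℝ) - a)) ^ 2 - (2 * |(c : ℝ)| * w.im) ^ 2 +
        (4 * D ^ 2 - ((a : ℝ) + d) ^ 2) =
      4 * c * ((c : ℝ) * (w.re ^ 2 - w.im ^ 2) + ((d : ℝ) - a) * w.re - b) := by
    have e1 : (2 * |(c : ℝ)| * w.im) ^ 2 = 4 * (c : ℝ) ^ 2 * w.im ^ 2 := by
      rw [mul_pow, mul_pow, sq_abs]; ring
    rw [e1, ← hdet]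
    ring
  rw [e, abs_mul, abs_mul, abs_of_pos (by norm_num : (0 : ℝ) < 4)]
  have h3 : 0 ≤ |(c : ℝ)| := abs_nonneg _
  calc 4 * |(c : ℝ)| * |(c : ℝ) * (w.re ^ 2 - w.im ^ 2) + ((d : ℝ) - a) * w.re - b|
      ≤ 4 * |(c : ℝ)| * (ε * w.im) := mul_le_mul_of_nonneg_left h2 (by positivity)
    _ = 2 * ε * (2 * |(c : ℝ)| * w.im) := by ring

/-- the volume of the points moved by a small amount -/
theorem vol_c2 {E ε Y D : ℝ} (hε : 0 < ε) (a b c d : ℤ) (hc : c ≠ 0)
    (hdet : (a : ℝ) * d - b * c = D ^ 2) (hΔ : 4 * D ^ 2 - ((a : ℝ) + d) ^ 2 ≠ 0) :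
    volume (SS2 E ε Y a b c d) ≤
      ENNReal.ofReal (min 2 (200 * ε ^ 2 / |4 * D ^ 2 - ((a : ℝ) + d) ^ 2|)) := by
  obtain ⟨Δ, hΔd⟩ : ∃ Δ : ℝ, Δ = 4 * D ^ 2 - ((a : ℝ) + d) ^ 2 := ⟨_, rfl⟩
  have hpos : ∀ w ∈ SS2 E ε Y a b c d, |2 * (c : ℝ) * w.re + ((d : ℝ) - a)| ≤ ε ∧
      |(2 * (c : ℝ) * w.re + ((d : ℝ) - a)) ^ 2 - (2 * |(c : ℝ)| * w.im) ^ 2 + Δ| ≤
        2 * ε * (2 * |(c : ℝ)| * w.im) := by
    intro w hw
    rw [hΔd]
    exact pos_c hε hc hdet hw
  rw [← hΔd] at hΔ ⊢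
  have hΔ0 : 0 < |Δ| := abs_pos.2 hΔ
  have hcr : 0 < |(c : ℝ)| := abs_pos.2 (by exact_mod_cast hc)
  have hv : volume (SS2 E ε Y a b c d) ≤ ENNReal.ofReal 2 :=
    (measure_mono fun w hw => hw.1).trans vol_fdo
  have key : volume (SS2 E ε Y a b c d) ≤ ENNReal.ofReal (200 * ε ^ 2 / |Δ|) := by
    rcases lt_or_ge |Δ| (100 * ε ^ 2) with h | h
    · refine hv.trans (ENNReal.ofReal_le_ofReal ?_)
      rw [le_div_iff₀ hΔ0]
      linarith
    · rcases le_or_gt Δ 0 with h0 | h0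
      · -- empty
        rw [abs_of_nonpos h0] at h
        have he : SS2 E ε Y a b c d = ∅ := by
          rw [Set.eq_empty_iff_forall_notMem]
          intro w hw
          obtain ⟨h1, h2⟩ := hpos w hw
          obtain ⟨u, hu⟩ : ∃ u : ℝ, u = 2 * (c : ℝ) * w.re + ((d : ℝ) - a) := ⟨_, rfl⟩
          obtain ⟨v, hv⟩ : ∃ v : ℝ, v = 2 * |(c : ℝ)| * w.im := ⟨_, rfl⟩
          rw [← hu] at h1 h2
          rw [← hv] at h2
          have h3 := (abs_le.1 h2).1
          have h4 : u ^ 2 ≤ ε ^ 2 := by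
            rw [← sq_abs]
            exact pow_le_pow_left₀ (abs_nonneg _) h1 2
          nlinarith [sq_nonneg (v - ε)]
        rw [he, measure_empty]
        exact zero_le
      · rw [abs_of_pos h0] at h ⊢
        obtain ⟨s, hs⟩ : ∃ s : ℝ, s = Real.sqrt Δ := ⟨_, rfl⟩
        have hs2 : s ^ 2 = Δ := by rw [hs]; exact Real.sq_sqrt h0.le
        have hs0 : 0 ≤ s := by rw [hs]; exact Real.sqrt_nonneg _
        have hs10 : 10 * ε ≤ s := by
          rw [hs]
          apply Real.le_sqrt_of_sq_le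
          nlinarith
        obtain ⟨m, hm⟩ : ∃ m : ℝ, m = -(((d : ℝ) - a) / (2 * c)) := ⟨_, rfl⟩
        have hcr' : (c : ℝ) ≠ 0 := by exact_mod_cast hc
        have hsub : SS2 E ε Y a b c d ⊆ {z : ℍ | z.re ∈ Set.Icc (m - ε / (2 * |(c : ℝ)|))
            (m + ε / (2 * |(c : ℝ)|)) ∧ (s - 2 * ε) / (2 * |(c : ℝ)|) < z.im ∧
              z.im ≤ (s + 2 * ε) / (2 * |(c : ℝ)|)} := by
          intro w hw
          obtain ⟨h1, h2⟩ := hpos w hw
          have hwim := w.im_pos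
          have e : 2 * (c : ℝ) * w.re + ((d : ℝ) - a) = (2 * c) * (w.re - m) := by
            rw [hm]
            field_simp
            ring
          have hx : |w.re - m| ≤ ε / (2 * |(c : ℝ)|) := by
            rw [le_div_iff₀ (by positivity)]
            rw [e, abs_mul, abs_mul, abs_two] at h1
            linarith
          obtain ⟨u, hu⟩ : ∃ u : ℝ, u = 2 * (c : ℝ) * w.re + ((d : ℝ) - a) := ⟨_, rfl⟩
          obtain ⟨v, hv⟩ : ∃ v : ℝ, v = 2 * |(c : ℝ)| * w.im := ⟨_, rfl⟩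
          rw [← hu] at h1 h2
          rw [← hv] at h2
          have hv0 : 0 < v := by rw [hv]; positivity
          obtain ⟨h3, h5⟩ := abs_le.1 h2
          have h4 : u ^ 2 ≤ ε ^ 2 := by
            rw [← sq_abs]
            exact pow_le_pow_left₀ (abs_nonneg _) h1 2
          have h6 : v ≤ s + 2 * ε := by
            by_contra hcon
            push Not at hcon
            nlinarith [mul_pos hε hε]
          have h7 : s - 2 * ε < v := by
            by_contra hcon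
            push Not at hcon
            nlinarith [mul_pos hε hε, sq_nonneg u]
          rw [abs_le] at hx
          refine ⟨⟨by linarith [hx.1], by linarith [hx.2]⟩, ?_, ?_⟩
          · rw [div_lt_iff₀ (by positivity)]
            linarith
          · rw [le_div_iff₀ (by positivity)]
            linarith
        refine (measure_mono hsub).trans ?_
        have hε2 : 0 < ε / (2 * |(c : ℝ)|) := by positivity
        have hs2' : 0 < s - 2 * ε := by linarith
        refine (vol_box (by linarith) (div_pos hs2' (by positivity))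
          (div_le_div_of_nonneg_right (by linarith) (by positivity))).trans ?_
        apply ENNReal.ofReal_le_ofReal
        have e : (m + ε / (2 * |(c : ℝ)|) - (m - ε / (2 * |(c : ℝ)|))) / ((s - 2 * ε) / (2 * |(c : ℝ)|)) -
            (m + ε / (2 * |(c : ℝ)|) - (m - ε / (2 * |(c : ℝ)|))) / ((s + 2 * ε) / (2 * |(c : ℝ)|)) =
            8 * ε ^ 2 / (Δ - 4 * ε ^ 2) := by
          have a1 : s - 2 * ε ≠ 0 := hs2'.ne'
          have a2 : s + 2 * ε ≠ 0 := by positivity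
          have a3 : Δ - 4 * ε ^ 2 = (s - 2 * ε) * (s + 2 * ε) := by rw [← hs2]; ring
          obtain ⟨q, hq⟩ : ∃ q : ℝ, q = |(c : ℝ)| := ⟨_, rfl⟩
          rw [← hq] at hcr ⊢
          obtain ⟨p₁, hp₁⟩ : ∃ p₁ : ℝ, p₁ = s - 2 * ε := ⟨_, rfl⟩
          obtain ⟨p₂, hp₂⟩ : ∃ p₂ : ℝ, p₂ = s + 2 * ε := ⟨_, rfl⟩
          rw [a3, ← hp₁, ← hp₂]
          rw [← hp₁] at a1
          rw [← hp₂] at a2
          have hq0 : q ≠ 0 := hcr.ne'
          have a4 : m + ε / (2 * q) - (m - ε / (2 * q)) = ε / q := by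
            field_simp
            ring
          have a5 : ε / q / (p₁ / (2 * q)) - ε / q / (p₂ / (2 * q)) = 2 * ε * (p₂ - p₁) / (p₁ * p₂) := by
            field_simp
          rw [a4, a5]
          congr 1
          rw [hp₁, hp₂]
          ring
        rw [e, div_le_div_iff₀ (by nlinarith [mul_pos hε hε]) h0]
        nlinarith [mul_pos hε hε, mul_pos (mul_pos hε hε) h0, mul_le_mul_of_nonneg_left h (mul_pos hε hε).le]
  rw [ENNReal.ofReal_min]
  exact le_min hv key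

end Q5a

end

end Pool.Agent.XE31
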