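import Pool.Agent.XE31.Q4
import Pool.Agent.XE31.Q5a
import Pool.Agent.XE31.H9

/-!
# The geometric side with the number of fixed points
-/

set_option autoImplicit false
set_option linter.all false

open UpperHalfPlane MeasureTheory Metric ModularGroup CongruenceSubgroup
open scoped MatrixGroups ENNReal Modular Topology NNReal

namespace Pool.Agent.XE31

open Pool.Agent.H369R2 Pool.Agent.N799.DT

noncomputable section

namespace Q5

open H1 H4 H5 H6 H7 Q1 Q2 Q3 Q4 G2 M1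

/-- the points moved by a small amount -/
def VS (D : ℕ) (δ Y : ℝ) (η : MZ) : Set ℍ :=
  G5.SS2 (2 * D) (4 * D * δ) Y (η 0 0) (η 0 1) (η 1 0) (η 1 1)

/-- size and volume -/
theorem vol_wt {D : ℕ} (hD : 0 < D) {δ Y : ℝ} (hδ : 0 < δ) (hδ2 : δ ≤ 1 / 2) {η : MZ}
    (hdet : η.det = (D : ℤ) ^ 2)
    (hns : ¬ (η 0 1 = 0 ∧ η 1 0 = 0 ∧ η 0 0 = η 1 1)) (hne : (VS D δ Y η).Nonempty) :
    Sz D Y η ∧ volume (VS D δ Y η) ≤ ENNReal.ofReal (wt D (δ ^ 2) η) := by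
  obtain ⟨z, hz, hzY, hz1, hz2'⟩ := hne
  obtain ⟨f1, f2, f3⟩ := G3.fdo_bounds hz
  have hDr : (1 : ℝ) ≤ D := by exact_mod_cast hD
  have hE : 1 ≤ 2 * (D : ℝ) := by linarith
  have hE0 : 0 < 2 * (D : ℝ) := by linarith
  have hle : 4 * (D : ℝ) * δ ≤ 2 * D := by nlinarith
  have hz2 := hz2'.trans (mul_le_mul_of_nonneg_right
    (pow_le_pow_left₀ (by positivity : (0 : ℝ) ≤ 4 * D * δ) hle 2) (sq_nonneg z.im))
  obtain ⟨i1, i2, i3, i4, i5, i6, i7⟩ := ineqs hE z.im_pos f1 f2 hz1 hz2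
  refine ⟨⟨hdet, hns, by linarith, by linarith, by linarith, by linarith, fun h => ?_⟩, ?_⟩
  · have h1 := i7 (by rw [h]; simp)
    refine h1.trans ?_
    have : 2 * (2 * (D : ℝ)) * z.im ≤ 2 * (2 * (D : ℝ)) * Y :=
      mul_le_mul_of_nonneg_left hzY (by positivity)
    linarith
  · have hε : 0 < 4 * (D : ℝ) * δ := by positivity
    have hv2 : volume (VS D δ Y η) ≤ ENNReal.ofReal 2 :=
      (measure_mono fun w hw => hw.1).trans G3.vol_fdo
    unfold wt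
    split_ifs with h h'
    · obtain ⟨h1, h2⟩ := h
      have h3 := G5.vol_b (E := 2 * (D : ℝ)) (ε := 4 * (D : ℝ) * δ) (Y := Y) hε
        (η 0 0) (η 0 1) (η 1 1) h2
      have h4 : VS D δ Y η = G5.SS2 (2 * D) (4 * D * δ) Y (η 0 0) (η 0 1) 0 (η 1 1) := by
        unfold VS
        rw [h1]
      rw [h4]
      refine h3.trans (ENNReal.ofReal_le_ofReal ?_)
      apply div_le_div_of_nonneg_right _ (abs_nonneg _)
      linarith
    · unfold wr
      split_ifs with h0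
      · exact hv2
      · have hdet' : ((η 0 0 : ℤ) : ℝ) * (η 1 1 : ℤ) - (η 0 1 : ℤ) * (η 1 0 : ℤ) = (D : ℝ) ^ 2 := by
          rw [Matrix.det_fin_two] at hdet
          exact_mod_cast hdet
        have hΔ : 4 * (D : ℝ) ^ 2 - ((η 0 0 : ℤ) + (η 1 1 : ℤ)) ^ 2 ≠ 0 := by
          intro hc
          apply h0
          have h3 : ((((η 0 0 + η 1 1) ^ 2 : ℤ)) : ℝ) = ((4 * (D : ℤ) ^ 2 : ℤ) : ℝ) := by
            push_cast
            linarith
          exact_mod_cast h3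
        have h3 := Q5a.vol_c2 (E := 2 * (D : ℝ)) (Y := Y) hε (η 0 0) (η 0 1) (η 1 0) (η 1 1)
          h'.1 hdet' hΔ
        refine h3.trans (ENNReal.ofReal_le_ofReal (le_of_eq ?_))
        push_cast
        congr 2
        ring
    · exact hv2

/-- scaling -/
theorem VS_smul {D D' k : ℕ} (hk : 0 < k) (hD : D = k * D') (δ Y : ℝ) (η : MZ) :
    VS D δ Y ((k : ℤ) • η) = VS D' δ Y η := by
  have hkr : (0 : ℝ) < k := by exact_mod_cast hk
  have hk2 : (0 : ℝ) < (k : ℝ) ^ 2 := by positivity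
  ext z
  unfold VS G5.SS2
  simp only [Set.mem_setOf_eq, Matrix.smul_apply, smul_eq_mul, hD]
  push_cast
  have e1 : (k * (η 1 0 : ℝ) * z.re + k * η 1 1) ^ 2 + (k * (η 1 0 : ℝ) * z.im) ^ 2 =
      (k : ℝ) ^ 2 * (((η 1 0 : ℝ) * z.re + η 1 1) ^ 2 + ((η 1 0 : ℝ) * z.im) ^ 2) := by ring
  have e2 : (2 * ((k : ℝ) * D')) ^ 2 = (k : ℝ) ^ 2 * (2 * D') ^ 2 := by ring
  have e2' : (4 * ((k : ℝ) * D') * δ) ^ 2 = (k : ℝ) ^ 2 * (4 * D' * δ) ^ 2 := by ring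
  have e3 : (k * (η 1 0 : ℝ) * (z.re ^ 2 - z.im ^ 2) + (k * (η 1 1 : ℝ) - k * η 0 0) * z.re -
      k * η 0 1) ^ 2 + (2 * (k * (η 1 0 : ℝ)) * z.re * z.im +
        (k * (η 1 1 : ℝ) - k * η 0 0) * z.im) ^ 2 =
      (k : ℝ) ^ 2 * (((η 1 0 : ℝ) * (z.re ^ 2 - z.im ^ 2) + ((η 1 1 : ℝ) - η 0 0) * z.re -
      η 0 1) ^ 2 + (2 * (η 1 0 : ℝ) * z.re * z.im + ((η 1 1 : ℝ) - η 0 0) * z.im) ^ 2) := by ring
  rw [e1, e2, e2', e3, mul_assoc ((k : ℝ) ^ 2), mul_le_mul_iff_right₀ hk2,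
    mul_le_mul_iff_right₀ hk2]

/-- a chosen class -/
def tt (N D : ℕ) (η : MZ) : SL(2, ℤ) :=
  open Classical in if h : ∃ τ, Cg N D η τ then h.choose else 1

lemma tt_spec {N D : ℕ} {η : MZ} (h : ∃ τ, Cg N D η τ) : Cg N D η (tt N D η) := by
  unfold tt
  rw [dif_pos h]
  exact h.choose_spec

/-- the condition -/
def Ok (N D : ℕ) (η : MZ) : Prop :=
  η.det = (D : ℤ) ^ 2 ∧ ¬ (η 0 1 = 0 ∧ η 1 0 = 0 ∧ η 0 0 = η 1 1) ∧ ∃ τ, Cg N D η τ

/-- the function on the displacement matrices -/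
def FF (Γ : Subgroup SL(2, ℤ)) (N D : ℕ) (δ Y : ℝ) (η : MZ) : ℝ≥0∞ :=
  open Classical in if Ok N D η then (fix Γ (tt N D η) : ℝ≥0∞) * volume (VS D δ Y η) else 0

/-- the sum over all the displacement matrices -/
theorem FF_sum {ε C : ℝ} (hC : 0 < C)
    (hmain : ∀ (Γ : Subgroup SL(2, ℤ)) (N : ℕ), IsLevel Γ N →
    ∀ D : ℕ, 0 < D → Nat.Coprime D N → ∀ Y U : ℝ, 5 ≤ Y → 0 ≤ U →
    ∀ s : Finset MZ, (∀ η ∈ s, Sz D Y η) → ∀ τ : MZ → SL(2, ℤ), (∀ η ∈ s, Cg N D η (τ η)) →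
    ∑ η ∈ s, (fix Γ (τ η) : ℝ) * wt D U η ≤ C * (Γ.index * D) ^ ε * (Γ.index * D + U * D ^ 2) *
      (1 + Real.log (4 * D * Y)))
    {Γ : Subgroup SL(2, ℤ)} {N : ℕ} (hlev : IsLevel Γ N) {D : ℕ} (hD : 0 < D)
    (hDN : Nat.Coprime D N) {δ Y : ℝ} (hδ : 0 < δ) (hδ2 : δ ≤ 1 / 2) (hY : 5 ≤ Y) :
    ∑' η : MZ, FF Γ N D δ Y η ≤ ENNReal.ofReal (C * (Γ.index * D) ^ ε *
      (Γ.index * D + δ ^ 2 * D ^ 2) * (1 + Real.log (4 * D * Y))) := by
  classical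
  refine ENNReal.summable.tsum_le_of_sum_le fun s => ?_
  have hU : 0 ≤ δ ^ 2 := sq_nonneg δ
  have h1 : ∀ η ∈ s, FF Γ N D δ Y η ≤ if Ok N D η ∧ Sz D Y η then
      ENNReal.ofReal ((fix Γ (tt N D η) : ℝ) * wt D (δ ^ 2) η) else 0 := by
    intro η _
    unfold FF
    by_cases h : Ok N D η
    · rw [if_pos h]
      by_cases hne : (VS D δ Y η).Nonempty
      · obtain ⟨h2, h3⟩ := vol_wt hD hδ hδ2 h.1 h.2.1 hne
        rw [if_pos ⟨h, h2⟩, ENNReal.ofReal_mul (by positivity), ENNReal.ofReal_natCast]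
        exact mul_le_mul' le_rfl h3
      · rw [Set.not_nonempty_iff_eq_empty.1 hne, measure_empty, mul_zero]
        exact zero_le
    · rw [if_neg h]
      exact zero_le
  refine (Finset.sum_le_sum h1).trans ?_
  rw [← Finset.sum_filter, ← ENNReal.ofReal_sum_of_nonneg fun η _ => by
    have := wt_nonneg D hU η
    positivity]
  apply ENNReal.ofReal_le_ofReal
  refine hmain Γ N hlev D hD hDN Y (δ ^ 2) hY hU _ (fun η hη => ?_) (tt N D) (fun η hη => ?_)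
  · exact (Finset.mem_filter.1 hη).2.2
  · exact tt_spec (Finset.mem_filter.1 hη).2.1.2.2

/-- multiples -/
theorem FF_smul {Γ : Subgroup SL(2, ℤ)} {N : ℕ} (hN : 0 < N) (hΓ : Gamma N ≤ Γ) {D D' k : ℕ}
    (hk : 0 < k) (hD : D = k * D') (hDN : Nat.Coprime D N) (δ Y : ℝ) (η : MZ) :
    FF Γ N D δ Y ((k : ℤ) • η) ≤ FF Γ N D' δ Y η := by
  classical
  have : NeZero N := ⟨hN.ne'⟩
  have hkz : (k : ℤ) ≠ 0 := by exact_mod_cast hk.ne'
  have hkN : Nat.Coprime k N := Nat.Coprime.coprime_dvd_left ⟨D', hD⟩ hDN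
  have hDN' : Nat.Coprime D' N := Nat.Coprime.coprime_dvd_left ⟨k, by rw [hD]; ring⟩ hDN
  unfold FF
  by_cases h : Ok N D ((k : ℤ) • η)
  · obtain ⟨h1, h2, h3⟩ := id h
    have ha : ∀ i j, ((k : ℤ) • η) i j = k * η i j := fun i j => by
      rw [Matrix.smul_apply, smul_eq_mul]
    have k1 : Ok N D' η := by
      refine ⟨?_, ?_, ?_⟩
      · rw [Matrix.det_fin_two, ha, ha, ha, ha, hD] at h1
        rw [Matrix.det_fin_two]
        push_cast at h1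
        have h4 : (k : ℤ) ^ 2 * (η 0 0 * η 1 1 - η 0 1 * η 1 0) = (k : ℤ) ^ 2 * (D' : ℤ) ^ 2 := by
          linear_combination h1
        exact mul_left_cancel₀ (pow_ne_zero 2 hkz) h4
      · rintro ⟨a1, a2, a3⟩
        apply h2
        rw [ha, ha, ha, ha, a1, a2, a3]
        simp
      · obtain ⟨τ, hτ⟩ := h3
        exact ⟨τ, Cg_div hkN hD ha hτ⟩
    rw [if_pos h, if_pos k1, VS_smul hk hD]
    refine mul_le_mul' (le_of_eq ?_) le_rfl
    have e1 := Cg_div hkN hD ha (tt_spec h3)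
    rw [fix_congr hΓ (red_of_Cg hDN' e1 (tt_spec k1.2.2))]
  · rw [if_neg h]
    exact zero_le

/-- the displacement matrix and its class -/
lemma eta_Cg {N m : ℕ} {g g' : MZ} (hg : HM N m g) (hg' : HM N m g') (τ : SL(2, ℤ)) :
    Cg N (m ^ 2) (eta g g' τ) τ := by
  obtain ⟨t0, t1, t2, t3⟩ := eta_mod hg hg' τ
  have key : ∀ x y : ℤ, (x : ZMod N) = ((m * m : ℕ) : ℤ) * (y : ℤ) →
      (N : ℤ) ∣ x - ((m ^ 2 : ℕ) : ℤ) * y := by
    intro x y h
    rw [← ZMod.intCast_eq_intCast_iff_dvd_sub]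
    push_cast at h ⊢
    rw [h]
    ring
  intro i j
  fin_cases i <;> fin_cases j
  · exact key _ _ t0
  · exact key _ _ t1
  · exact key _ _ t2
  · exact key _ _ t3

lemma eta_det {N m : ℕ} {g g' : MZ} (hg : HM N m g) (hg' : HM N m g') (τ : SL(2, ℤ)) :
    (eta g g' τ).det = ((m ^ 2 : ℕ) : ℤ) ^ 2 := by
  unfold eta
  rw [Matrix.det_mul, Matrix.det_mul, Matrix.det_adjugate, Matrix.SpecialLinearGroup.det_coe,
      det_of_HM hg, det_of_HM hg']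
  simp
  ring

/-- the integral for a pair of representatives and one element of the modular group -/
theorem pairQ {Γ : Subgroup SL(2, ℤ)} {N : ℕ} (hN : 0 < N) (hΓ : Gamma N ≤ Γ) {m : ℕ}
    (hm : 0 < m) (hc : Nat.Coprime m N) {g g' : MZ} (hg : HM N m g) (hg' : HM N m g')
    {δ Y : ℝ} (hδ : 0 < δ) (hδ2 : δ ≤ 1 / 2) (hfin : Γ.FiniteIndex) (τ : SL(2, ℤ)) :
    ∫⁻ z in 𝒟ᵒ ∩ (cuspRegion Y)ᶜ, (fix Γ τ : ℝ≥0∞) * vv δ (nm m g • z) (τ • nm m g' • z) ≤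
    ENNReal.ofReal (2 * Γ.index * bv δ) * (if Sc g g' τ then 1 else 0) +
      ENNReal.ofReal (bv δ) * FF Γ N (m ^ 2) δ Y (eta g g' τ) := by
  classical
  have : NeZero N := ⟨hN.ne'⟩
  have hm1 : (1 : ℝ) ≤ m := by exact_mod_cast hm
  have hbv := bv_nonneg δ
  have hms : MeasurableSet (𝒟ᵒ ∩ (cuspRegion Y)ᶜ : Set ℍ) :=
    isOpen_fdo.measurableSet.inter (measurableSet_cuspRegion Y).compl
  have hvol : volume (𝒟ᵒ ∩ (cuspRegion Y)ᶜ : Set ℍ) ≤ ENNReal.ofReal 2 :=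
    (measure_mono Set.inter_subset_left).trans G3.vol_fdo
  have him : ∀ z ∈ (𝒟ᵒ ∩ (cuspRegion Y)ᶜ : Set ℍ), z.im ≤ Y := by
    rintro z ⟨_, hz⟩
    by_contra hcon
    push Not at hcon
    exact hz ⟨1, by rw [one_smul]; exact hcon⟩
  rw [lintegral_const_mul _ (measurable_vv_smul δ _ _ τ)]
  by_cases hs : Sc g g' τ
  · rw [if_pos hs, mul_one]
    refine le_trans ?_ le_self_add
    calc (fix Γ τ : ℝ≥0∞) * ∫⁻ z in 𝒟ᵒ ∩ (cuspRegion Y)ᶜ, vv δ (nm m g • z) (τ • nm m g' • z)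
        ≤ (Γ.index : ℝ≥0∞) * ∫⁻ z in 𝒟ᵒ ∩ (cuspRegion Y)ᶜ, ENNReal.ofReal (bv δ) :=
          mul_le_mul' (by exact_mod_cast E1.fix_le_index hfin τ) (lintegral_mono fun z => vv_le _ _)
      _ ≤ (Γ.index : ℝ≥0∞) * (ENNReal.ofReal (bv δ) * ENNReal.ofReal 2) := by
          rw [lintegral_const, Measure.restrict_apply_univ]
          gcongr
      _ = ENNReal.ofReal (2 * Γ.index * bv δ) := by
          rw [← ENNReal.ofReal_mul hbv, ← ENNReal.ofReal_natCast, ← ENNReal.ofReal_mul (by positivity)]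
          congr 1
          ring
  · rw [if_neg hs, mul_zero, zero_add]
    have hok : Ok N (m ^ 2) (eta g g' τ) :=
      ⟨eta_det hg hg' τ, hs, ⟨τ, eta_Cg hg hg' τ⟩⟩
    have hfx : fix Γ (tt N (m ^ 2) (eta g g' τ)) = fix Γ τ :=
      fix_congr hΓ (red_of_Cg (hc.pow_left 2) (tt_spec hok.2.2) (eta_Cg hg hg' τ))
    unfold FF
    rw [if_pos hok, hfx]
    obtain ⟨d0, d1, d2, d3⟩ := disp_apply hm hm hg hg' τ
    have hD : ((m ^ 2 : ℕ) : ℝ) = (m : ℝ) * m := by push_cast; ring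
    have hD1 : (1 : ℝ) ≤ (m : ℝ) * m := one_le_mul_of_one_le_of_one_le hm1 hm1
    have h3 : ∫⁻ z in 𝒟ᵒ ∩ (cuspRegion Y)ᶜ, vv δ (nm m g • z) (τ • nm m g' • z) ≤
        ENNReal.ofReal (bv δ) * volume (VS (m ^ 2) δ Y (eta g g' τ)) := by
      have h4 : ∀ z ∈ (𝒟ᵒ ∩ (cuspRegion Y)ᶜ : Set ℍ), vv δ (nm m g • z) (τ • nm m g' • z) ≤
          (toMeasurable volume (VS (m ^ 2) δ Y (eta g g' τ))).indicator
            (fun _ => ENNReal.ofReal (bv δ)) z := by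
        intro z hz
        by_cases hd : dist (nm m g • z) (τ • nm m g' • z) ≤ 2 * δ
        · rw [← dist_disp] at hd
          have hmem := G5.mem_SS2 hδ hδ2 d0 d1 d2 d3 hz.1 (him z hz) hd
          have hmem2 : z ∈ VS (m ^ 2) δ Y (eta g g' τ) := by
            unfold VS
            rw [hD]
            exact hmem
          rw [Set.indicator_of_mem (subset_toMeasurable _ _ hmem2)]
          exact vv_le _ _
        · rw [vv_zero hd]
          exact zero_le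
      refine (setLIntegral_mono' hms h4).trans ?_
      refine (setLIntegral_le_lintegral _ _).trans ?_
      rw [lintegral_indicator (measurableSet_toMeasurable _ _), lintegral_const,
        Measure.restrict_apply_univ, measure_toMeasurable]
    calc (fix Γ τ : ℝ≥0∞) * ∫⁻ z in 𝒟ᵒ ∩ (cuspRegion Y)ᶜ, vv δ (nm m g • z) (τ • nm m g' • z)
        ≤ (fix Γ τ : ℝ≥0∞) * (ENNReal.ofReal (bv δ) * volume (VS (m ^ 2) δ Y (eta g g' τ))) :=
          mul_le_mul' le_rfl h3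
      _ = _ := by ring

end Q5

end

end Pool.Agent.XE31
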