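import Pool.Agent.XE31.Q5

/-!
# The mean square of the eigenvalues of one Hecke operator
-/

set_option autoImplicit false
set_option linter.all false

open UpperHalfPlane MeasureTheory Metric ModularGroup CongruenceSubgroup
open scoped MatrixGroups ENNReal Modular Topology NNReal

namespace Pool.Agent.XE31

open Pool.Agent.H369R2 Pool.Agent.N799.DT

noncomputable section

namespace Q6

open H1 H4 H5 H6 H7 H8 H9 K2 X3 Q1 Q2 Q3 Q4 Q5 G2 M1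

theorem HP_S {N m : ℕ} (hm : 0 < m) {S : Finset MZ} (hS : Reps N m S) :
    HP N (fun _ : S => (1 : ℝ)) (fun g : S => nm m g) := by
  intro σ
  obtain ⟨π, γ, hγ, hπ⟩ := perm hS σ
  exact ⟨π, γ, hγ, fun i => rfl, fun i => nm_compat hm (hS.mem _ i.2) (hS.mem _ (π i).2) (hπ i)⟩

/-- the sum over the divisors -/
theorem FF_total {ε C : ℝ} (hε : 0 < ε) (hC : 0 < C)
    (hmain : ∀ (Γ : Subgroup SL(2, ℤ)) (N : ℕ), IsLevel Γ N →
    ∀ D : ℕ, 0 < D → Nat.Coprime D N → ∀ Y U : ℝ, 5 ≤ Y → 0 ≤ U →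
    ∀ s : Finset MZ, (∀ η ∈ s, Sz D Y η) → ∀ τ : MZ → SL(2, ℤ), (∀ η ∈ s, Cg N D η (τ η)) →
    ∑ η ∈ s, (fix Γ (τ η) : ℝ) * wt D U η ≤ C * (Γ.index * D) ^ ε * (Γ.index * D + U * D ^ 2) *
      (1 + Real.log (4 * D * Y)))
    {Γ : Subgroup SL(2, ℤ)} {N : ℕ} (hlev : IsLevel Γ N) {m : ℕ} (hm : 0 < m)
    (hmN : Nat.Coprime m N) {S : Finset MZ} (hS : Reps N m S) {δ Y : ℝ} (hδ : 0 < δ)
    (hδ2 : δ ≤ 1 / 2) (hY : 5 ≤ Y) :
    ∑' x : S × S × SL(2, ℤ), FF Γ N (m ^ 2) δ Y (eta x.1 x.2.1 x.2.2) ≤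
      ENNReal.ofReal (((m ^ 2).divisors.card : ℝ) ^ 2 * (C * (Γ.index * (m ^ 2 : ℕ)) ^ ε *
        (Γ.index * (m ^ 2 : ℕ) + δ ^ 2 * ((m ^ 2 : ℕ) : ℝ) ^ 2) * (1 + Real.log (4 * (m ^ 2 : ℕ) * Y)))) := by
  classical
  obtain ⟨D, hD⟩ : ∃ D : ℕ, D = m ^ 2 := ⟨_, rfl⟩
  have hD0 : 0 < D := by rw [hD]; positivity
  have hDN : Nat.Coprime D N := by rw [hD]; exact hmN.pow_left 2
  have h1 := fib_sum hm hmN hS (FF Γ N D δ Y)
  rw [← hD] at h1 ⊢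
  refine h1.trans ?_
  have h2 : ∀ η : MZ, ((D.divisors.card * ct D η : ℕ) : ℝ≥0∞) * FF Γ N D δ Y η =
      (D.divisors.card : ℝ≥0∞) * (((ct D η : ℕ) : ℝ≥0∞) * FF Γ N D δ Y η) := by
    intro η
    push_cast
    ring
  rw [tsum_congr h2, ENNReal.tsum_mul_left]
  obtain ⟨X, hX⟩ : ∃ X : ℝ, X = C * (Γ.index * D) ^ ε * (Γ.index * D + δ ^ 2 * (D : ℝ) ^ 2) *
      (1 + Real.log (4 * D * Y)) := ⟨_, rfl⟩
  have hDr : (1 : ℝ) ≤ D := by exact_mod_cast hD0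
  have hL0 : 0 ≤ Real.log (4 * D * Y) := Real.log_nonneg (by nlinarith)
  have hX0 : 0 ≤ X := by rw [hX]; positivity
  have h3 : ∀ k ∈ D.divisors, (k : ℝ≥0∞) * ∑' η : MZ, FF Γ N D δ Y ((k : ℤ) • η) ≤
      ENNReal.ofReal X := by
    intro k hk
    have hk0 : 0 < k := Nat.pos_of_mem_divisors hk
    obtain ⟨D', hD'⟩ := Nat.dvd_of_mem_divisors hk
    have hD'0 : 0 < D' := Nat.pos_of_ne_zero fun h => by rw [h, mul_zero] at hD'; omega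
    have hDN' : Nat.Coprime D' N := Nat.Coprime.coprime_dvd_left ⟨k, by rw [hD']; ring⟩ hDN
    have hkr : (1 : ℝ) ≤ k := by exact_mod_cast hk0
    have hD'r : (1 : ℝ) ≤ D' := by exact_mod_cast hD'0
    have e1 : ∑' η : MZ, FF Γ N D δ Y ((k : ℤ) • η) ≤ ∑' η : MZ, FF Γ N D' δ Y η :=
      ENNReal.tsum_le_tsum fun η => FF_smul hlev.1 hlev.2.1 hk0 hD' hDN δ Y η
    have e2 := e1.trans (FF_sum hC hmain hlev hD'0 hDN' hδ hδ2 hY)
    refine (mul_le_mul' le_rfl e2).trans ?_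
    rw [← ENNReal.ofReal_natCast, ← ENNReal.ofReal_mul (by positivity)]
    apply ENNReal.ofReal_le_ofReal
    have f1 : (D : ℝ) = k * D' := by rw [hD']; push_cast; ring
    have f2 : (D' : ℝ) ≤ D := by rw [f1]; nlinarith
    have f3 : ((Γ.index : ℝ) * D') ^ ε ≤ ((Γ.index : ℝ) * D) ^ ε :=
      Real.rpow_le_rpow (by positivity) (by gcongr) hε.le
    have f4 : (k : ℝ) * (Γ.index * D' + δ ^ 2 * (D' : ℝ) ^ 2) ≤ Γ.index * D + δ ^ 2 * (D : ℝ) ^ 2 := by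
      have g1 : (k : ℝ) * (Γ.index * D' + δ ^ 2 * (D' : ℝ) ^ 2) = Γ.index * D + δ ^ 2 * (D * D') := by
        rw [f1]; ring
      rw [g1, sq (D : ℝ)]
      have : δ ^ 2 * ((D : ℝ) * D') ≤ δ ^ 2 * (D * D) := by gcongr
      linarith
    have f5 : Real.log (4 * D' * Y) ≤ Real.log (4 * D * Y) := by
      apply Real.log_le_log (by positivity)
      gcongr
    have f6 : 0 ≤ Real.log (4 * D' * Y) := Real.log_nonneg (by nlinarith)
    rw [hX]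
    calc (k : ℝ) * (C * (Γ.index * D') ^ ε * (Γ.index * D' + δ ^ 2 * (D' : ℝ) ^ 2) *
          (1 + Real.log (4 * D' * Y)))
        = C * (Γ.index * D') ^ ε * (k * (Γ.index * D' + δ ^ 2 * (D' : ℝ) ^ 2)) *
          (1 + Real.log (4 * D' * Y)) := by ring
      _ ≤ C * (Γ.index * D) ^ ε * (Γ.index * D + δ ^ 2 * (D : ℝ) ^ 2) * (1 + Real.log (4 * D * Y)) := by
          gcongr
  have h4 : ∑' η : MZ, ((ct D η : ℕ) : ℝ≥0∞) * FF Γ N D δ Y η ≤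
      (D.divisors.card : ℝ≥0∞) * ENNReal.ofReal X := by
    refine (ct_sum hD0 _).trans ?_
    refine (Finset.sum_le_sum h3).trans (le_of_eq ?_)
    rw [Finset.sum_const, nsmul_eq_mul]
  refine (mul_le_mul' le_rfl h4).trans (le_of_eq ?_)
  rw [← hX, ← mul_assoc, ← ENNReal.ofReal_natCast, ← ENNReal.ofReal_mul (by positivity),
    ← ENNReal.ofReal_mul (by positivity)]
  congr 1
  ring

/-- the geometric side -/
theorem geoQ {ε C : ℝ} (hε : 0 < ε) (hC : 0 < C)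
    (hmain : ∀ (Γ : Subgroup SL(2, ℤ)) (N : ℕ), IsLevel Γ N →
    ∀ D : ℕ, 0 < D → Nat.Coprime D N → ∀ Y U : ℝ, 5 ≤ Y → 0 ≤ U →
    ∀ s : Finset MZ, (∀ η ∈ s, Sz D Y η) → ∀ τ : MZ → SL(2, ℤ), (∀ η ∈ s, Cg N D η (τ η)) →
    ∑ η ∈ s, (fix Γ (τ η) : ℝ) * wt D U η ≤ C * (Γ.index * D) ^ ε * (Γ.index * D + U * D ^ 2) *
      (1 + Real.log (4 * D * Y)))
    {Γ : Subgroup SL(2, ℤ)} {N : ℕ} (hlev : IsLevel Γ N) (hfin : Γ.FiniteIndex) {m : ℕ}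
    (hm : 0 < m) (hmN : Nat.Coprime m N) {S : Finset MZ} (hS : Reps N m S) {δ Y : ℝ}
    (hδ : 0 < δ) (hδ2 : δ ≤ 1 / 2) (hY : 5 ≤ Y) :
    ∫⁻ z in 𝒟ᵒ ∩ (cuspRegion Y)ᶜ, ∑' τ : SL(2, ℤ), (fix Γ τ : ℝ≥0∞) *
      qq (fun _ : S => (1 : ℝ)) (fun g : S => nm m g) δ τ z ≤
    ENNReal.ofReal (bv δ * (4 * Γ.index * (sg m : ℝ) +
      ((m ^ 2).divisors.card : ℝ) ^ 2 * (C * (Γ.index * (m ^ 2 : ℕ)) ^ ε *
        (Γ.index * (m ^ 2 : ℕ) + δ ^ 2 * ((m ^ 2 : ℕ) : ℝ) ^ 2) *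
          (1 + Real.log (4 * (m ^ 2 : ℕ) * Y))))) := by
  classical
  have hbv := bv_nonneg δ
  have e1 : ∀ z : ℍ, ∑' τ : SL(2, ℤ), (fix Γ τ : ℝ≥0∞) *
      qq (fun _ : S => (1 : ℝ)) (fun g : S => nm m g) δ τ z =
      ∑ i : S, ∑ j : S, ∑' τ : SL(2, ℤ), (fix Γ τ : ℝ≥0∞) *
        vv δ (nm m i • z) (τ • nm m j • z) := by
    intro z
    unfold qq
    have e2 : ∀ τ : SL(2, ℤ), (fix Γ τ : ℝ≥0∞) * ∑ i : S, ∑ j : S, ENNReal.ofReal 1 *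
        (ENNReal.ofReal 1 * vv δ (nm m i • z) (τ • nm m j • z)) =
        ∑ i : S, ∑ j : S, (fix Γ τ : ℝ≥0∞) * vv δ (nm m i • z) (τ • nm m j • z) := by
      intro τ
      rw [Finset.mul_sum]
      refine Finset.sum_congr rfl fun i _ => ?_
      rw [Finset.mul_sum]
      refine Finset.sum_congr rfl fun j _ => ?_
      rw [ENNReal.ofReal_one, one_mul, one_mul]
    rw [tsum_congr e2, Summable.tsum_finsetSum fun _ _ => ENNReal.summable]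
    refine Finset.sum_congr rfl fun i _ => ?_
    rw [Summable.tsum_finsetSum fun _ _ => ENNReal.summable]
  have hmeas1 : ∀ (i j : S) (τ : SL(2, ℤ)), Measurable fun z : ℍ => (fix Γ τ : ℝ≥0∞) *
      vv δ (nm m i • z) (τ • nm m j • z) :=
    fun i j τ => (measurable_vv_smul δ _ _ τ).const_mul _
  have hmeas : ∀ i j : S, Measurable fun z : ℍ =>
      ∑' τ : SL(2, ℤ), (fix Γ τ : ℝ≥0∞) * vv δ (nm m i • z) (τ • nm m j • z) :=
    fun i j => Measurable.ennreal_tsum fun τ => hmeas1 i j τ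
  rw [lintegral_congr e1, lintegral_finsetSum _ fun i _ => Finset.measurable_fun_sum _ fun j _ =>
    hmeas i j]
  have e3 : ∀ i : S, ∫⁻ z in 𝒟ᵒ ∩ (cuspRegion Y)ᶜ, ∑ j : S,
        ∑' τ : SL(2, ℤ), (fix Γ τ : ℝ≥0∞) * vv δ (nm m i • z) (τ • nm m j • z) ≤
      ∑ j : S, ∑' τ : SL(2, ℤ), (ENNReal.ofReal (2 * Γ.index * bv δ) *
        (if Sc (i : MZ) (j : MZ) τ then 1 else 0) +
        ENNReal.ofReal (bv δ) * FF Γ N (m ^ 2) δ Y (eta i j τ)) := by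
    intro i
    rw [lintegral_finsetSum _ fun j _ => hmeas i j]
    refine Finset.sum_le_sum fun j _ => ?_
    rw [lintegral_tsum fun τ => (hmeas1 i j τ).aemeasurable]
    exact ENNReal.tsum_le_tsum fun τ => pairQ hlev.1 hlev.2.1 hm hmN (hS.mem _ i.2) (hS.mem _ j.2)
      hδ hδ2 hfin τ
  refine (Finset.sum_le_sum fun i _ => e3 i).trans ?_
  have e4 : ∑ i : S, ∑ j : S, ∑' τ : SL(2, ℤ), (ENNReal.ofReal (2 * Γ.index * bv δ) *
        (if Sc (i : MZ) (j : MZ) τ then 1 else 0) +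
        ENNReal.ofReal (bv δ) * FF Γ N (m ^ 2) δ Y (eta i j τ)) =
      ENNReal.ofReal (2 * Γ.index * bv δ) * (∑ g ∈ S, ∑ g' ∈ S, ∑' τ : SL(2, ℤ),
        (if Sc g g' τ then (1 : ℝ≥0∞) else 0)) +
      ENNReal.ofReal (bv δ) * ∑' x : S × S × SL(2, ℤ), FF Γ N (m ^ 2) δ Y (eta x.1 x.2.1 x.2.2) := by
    have f1 : ∑' x : S × S × SL(2, ℤ), FF Γ N (m ^ 2) δ Y (eta x.1 x.2.1 x.2.2) =
        ∑ i : S, ∑ j : S, ∑' τ : SL(2, ℤ), FF Γ N (m ^ 2) δ Y (eta i j τ) := by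
      rw [ENNReal.tsum_prod', tsum_fintype]
      refine Finset.sum_congr rfl fun i _ => ?_
      rw [ENNReal.tsum_prod', tsum_fintype]
    have f2 : ∑ g ∈ S, ∑ g' ∈ S, ∑' τ : SL(2, ℤ), (if Sc g g' τ then (1 : ℝ≥0∞) else 0) =
        ∑ i : S, ∑ j : S, ∑' τ : SL(2, ℤ), (if Sc (i : MZ) (j : MZ) τ then (1 : ℝ≥0∞) else 0) := by
      rw [← Finset.sum_coe_sort S]
      refine Finset.sum_congr rfl fun i _ => ?_
      rw [← Finset.sum_coe_sort S]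
    rw [f1, f2, Finset.mul_sum, Finset.mul_sum, ← Finset.sum_add_distrib]
    refine Finset.sum_congr rfl fun i _ => ?_
    rw [Finset.mul_sum, Finset.mul_sum, ← Finset.sum_add_distrib]
    refine Finset.sum_congr rfl fun j _ => ?_
    rw [ENNReal.tsum_add, ENNReal.tsum_mul_left, ENNReal.tsum_mul_left]
  rw [e4]
  have h1 := scal_count hm hm hmN hmN hS hS
  rw [Nat.gcd_self] at h1
  have h2 := FF_total hε hC hmain hlev hm hmN hS hδ hδ2 hY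
  have h1' : ∑ g ∈ S, ∑ g' ∈ S, ∑' τ : SL(2, ℤ), (if Sc g g' τ then (1 : ℝ≥0∞) else 0) ≤
      ENNReal.ofReal (2 * sg m) := by
    refine h1.trans (le_of_eq ?_)
    rw [ENNReal.ofReal_mul (by norm_num), ENNReal.ofReal_natCast]
    unfold sg
    simp
  refine (add_le_add (mul_le_mul' le_rfl h1') (mul_le_mul' le_rfl h2)).trans (le_of_eq ?_)
  have hDr : (1 : ℝ) ≤ ((m ^ 2 : ℕ) : ℝ) := by exact_mod_cast Nat.one_le_pow 2 m hm
  have hL0 : 0 ≤ Real.log (4 * (m ^ 2 : ℕ) * Y) := Real.log_nonneg (by nlinarith)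
  rw [← ENNReal.ofReal_mul (by positivity), ← ENNReal.ofReal_mul (by positivity),
    ← ENNReal.ofReal_add (by positivity) (by positivity)]
  congr 1
  ring

end Q6

end

end Pool.Agent.XE31
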