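import Pool.Agent.XE31.Q6
import Pool.Agent.XE31.R2

/-!
# The mean square of the eigenvalues of one Hecke operator, conclusion
-/

set_option autoImplicit false
set_option linter.all false

open UpperHalfPlane MeasureTheory Metric ModularGroup CongruenceSubgroup
open scoped MatrixGroups ENNReal Modular Topology NNReal

namespace Pool.Agent.XE31

open Pool.Agent.H369R2 Pool.Agent.N799.DT

noncomputable section

namespace Q7

open H1 H4 H5 H6 H7 H8 H9 K2 X3 Q1 Q2 Q3 Q4 Q5 Q6 G2 M1 R2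

/-- the inequality for vectors, with the divisor function and the logarithm -/
theorem ineq {ε C : ℝ} (hε : 0 < ε) (hC : 0 < C)
    (hmain : ∀ (Γ : Subgroup SL(2, ℤ)) (N : ℕ), IsLevel Γ N →
    ∀ D : ℕ, 0 < D → Nat.Coprime D N → ∀ Y U : ℝ, 5 ≤ Y → 0 ≤ U →
    ∀ s : Finset MZ, (∀ η ∈ s, Sz D Y η) → ∀ τ : MZ → SL(2, ℤ), (∀ η ∈ s, Cg N D η (τ η)) →
    ∑ η ∈ s, (fix Γ (τ η) : ℝ) * wt D U η ≤ C * (Γ.index * D) ^ ε * (Γ.index * D + U * D ^ 2) *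
      (1 + Real.log (4 * D * Y)))
    (Γ : Subgroup SL(2, ℤ)) (N : ℕ) (hN : IsLevel Γ N) (T : ℝ) (hT : 1 ≤ T)
    (m : ℕ) (hm : 0 < m) (hmN : Nat.Coprime m N) (S : Finset MZ) (hS : Reps N m S)
    (k : ℕ) (κ : Fin k → ℝ) (φ : Fin k → LW N) (hκ : ∀ i, 0 ≤ κ i) (hκ2 : ∀ i, κ i ≤ T ^ 2)
    (hφ : ∀ i, φ i ∈ EV N Γ (aK (κ i))) (hli : LinearIndependent ℂ φ)
    (Λ : Fin k → ℝ) (hΛ : ∀ i, ∀ z : ℍ, ∑ g ∈ S, (φ i : ℍ → ℂ) (nm m g • z) =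
        ((m * Λ i : ℝ) : ℂ) * (φ i : ℍ → ℂ) z) :
    ∑ i, (Λ i) ^ 2 ≤ 256 * ((4 + C) * ((m ^ 2).divisors.card : ℝ) ^ 2 *
      (Γ.index * (m ^ 2 : ℕ)) ^ ε * (Γ.index * T ^ 2 + ((m ^ 2 : ℕ) : ℝ)) *
      (1 + Real.log (4 * (m ^ 2 : ℕ) * (256 * N * T ^ 2)))) := by
  have hN0 := hN.1
  have : NeZero N := ⟨hN0.ne'⟩
  have hN1 : (1 : ℝ) ≤ N := by exact_mod_cast hN0
  have hT0 : 0 < T := by linarith
  have hfin : Γ.FiniteIndex := Subgroup.finiteIndex_of_le hN.2.1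
  have hn0 : 0 < Γ.index := Nat.pos_of_ne_zero hfin.index_ne_zero
  have hn1 : (1 : ℝ) ≤ Γ.index := by exact_mod_cast hn0
  obtain ⟨δ, hδd⟩ : ∃ δ : ℝ, δ = 1 / (8 * T) := ⟨_, rfl⟩
  have hδ : 0 < δ := by rw [hδd]; positivity
  have hδT : δ * T = 1 / 8 := by rw [hδd]; field_simp
  have hδ8 : δ ≤ 1 / 8 := by
    have : δ * 1 ≤ δ * T := mul_le_mul_of_nonneg_left hT hδ.le
    linarith
  have hδ2 : δ ≤ 1 / 2 := by linarith
  obtain ⟨Y, hYd⟩ : ∃ Y : ℝ, Y = 256 * N * T ^ 2 := ⟨_, rfl⟩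
  rw [← hYd]
  have hT2 : 1 ≤ T ^ 2 := one_le_pow₀ hT
  have hY256 : 256 ≤ Y := by rw [hYd]; nlinarith
  have hY1 : 1 ≤ Y := by linarith
  have hY5 : 5 ≤ Y := by linarith
  have hexp : Real.exp δ ≤ 2 := by
    have h1 : Real.exp δ ≤ Real.exp (1 / 8) := Real.exp_le_exp.2 hδ8
    have h2 : Real.exp (1 / 8) ≤ 2 := by
      have h3 := Real.exp_bound_div_one_sub_of_interval (x := 1 / 8) (by norm_num) (by norm_num)
      refine h3.trans ?_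
      norm_num
    linarith
  have ha : ∀ i, 1 / 2 ≤ aK (κ i) δ := by
    intro i
    apply aK_lower (hκ i) hδ
    have h1 : δ ^ 2 * (1 + κ i) ≤ δ ^ 2 * (T ^ 2 + T ^ 2) := by
      apply mul_le_mul_of_nonneg_left _ (sq_nonneg _)
      have := hκ2 i
      linarith
    have h2 : δ ^ 2 * (T ^ 2 + T ^ 2) = 2 * (δ * T) ^ 2 := by ring
    rw [h2, hδT] at h1
    linarith
  have hbv := bv_small hδ hδ2
  have hbv0 : 0 < bv δ := bv_pos hδ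
  have hprod : ∀ i, bv δ / 2 ≤ bv δ * aK (κ i) δ := by
    intro i
    have := mul_le_mul_of_nonneg_left (ha i) hbv0.le
    linarith
  have hY2 : ∀ i, 2 * (N ^ 2 * Real.exp δ / Y ^ 2) ≤ (bv δ * aK (κ i) δ) ^ 2 := by
    intro i
    have h1 : δ ^ 2 / 2 ≤ bv δ * aK (κ i) δ := (by linarith : δ ^ 2 / 2 ≤ bv δ / 2).trans (hprod i)
    have h2 : (δ ^ 2 / 2) ^ 2 ≤ (bv δ * aK (κ i) δ) ^ 2 :=
      pow_le_pow_left₀ (by positivity) h1 2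
    refine le_trans ?_ h2
    have h3 : (δ ^ 2 / 2) ^ 2 = 1 / (16384 * T ^ 4) := by
      rw [hδd]
      field_simp
      norm_num
    rw [h3, hYd]
    have h4 : 2 * ((N : ℝ) ^ 2 * Real.exp δ / (256 * N * T ^ 2) ^ 2) =
        Real.exp δ / 2 * (1 / (16384 * T ^ 4)) := by
      field_simp
      norm_num
    rw [h4]
    have h5 : 0 < 1 / (16384 * T ^ 4) := by positivity
    nlinarith
  have hΛ' : ∀ i z, ∑ l : S, (((fun _ : S => (1 : ℝ)) l : ℝ) : ℂ) * (φ i : ℍ → ℂ) (nm m l • z) =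
      ((m * Λ i : ℝ) : ℂ) * (φ i : ℍ → ℂ) z := by
    intro i z
    rw [← hΛ i z, ← Finset.sum_coe_sort S]
    refine Finset.sum_congr rfl fun l _ => ?_
    simp
  have h1 := H2.joint hN0 hN.2.1 (c := fun _ : S => (1 : ℝ)) (fun _ => zero_le_one) (HP_S hm hS) hδ
    (fun i => aK (κ i)) φ hφ hli (fun i => m * Λ i) hΛ' (by linarith : Real.exp δ ≤ Y)
    (fun i => by have := ha i; exact (by linarith : (0 : ℝ) < aK (κ i) δ).ne') hY2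
  have h2 := geoQ hε hC hmain hN hfin hm hmN hS hδ hδ2 hY5
  have h3 := h1.trans h2
  obtain ⟨D, hD⟩ : ∃ D : ℕ, D = m ^ 2 := ⟨_, rfl⟩
  have hD0 : 0 < D := by rw [hD]; positivity
  have hDr : (1 : ℝ) ≤ D := by exact_mod_cast hD0
  have hDm : (D : ℝ) = (m : ℝ) ^ 2 := by rw [hD]; push_cast; ring
  rw [← hD] at h3 ⊢
  obtain ⟨L, hL⟩ : ∃ L : ℝ, L = 1 + Real.log (4 * D * Y) := ⟨_, rfl⟩
  have hL1 : 1 ≤ L := by
    rw [hL]
    have : 0 ≤ Real.log (4 * D * Y) := Real.log_nonneg (by nlinarith)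
    linarith
  obtain ⟨n, hn⟩ : ∃ n : ℝ, n = Γ.index := ⟨_, rfl⟩
  obtain ⟨d, hd⟩ : ∃ d : ℝ, d = D.divisors.card := ⟨_, rfl⟩
  obtain ⟨P, hP⟩ : ∃ P : ℝ, P = (n * D) ^ ε := ⟨_, rfl⟩
  rw [← hn] at hn1 h3 ⊢
  have hd1 : 1 ≤ d := by
    rw [hd]
    exact_mod_cast Finset.card_pos.2 ⟨1, Nat.one_mem_divisors.2 hD0.ne'⟩
  have hP1 : 1 ≤ P := by
    rw [hP]
    exact Real.one_le_rpow (one_le_mul_of_one_le_of_one_le hn1 hDr) hε.le
  rw [← hL, ← hd, ← hP] at h3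
  rw [← hL, ← hd, ← hP]
  rw [← ENNReal.ofReal_sum_of_nonneg fun i _ => sq_nonneg _] at h3
  have hsg : (sg m : ℝ) ≤ d * D := by
    have : sg m ≤ D.divisors.card * D := by
      unfold sg
      rw [← hD]
      calc ∑ e ∈ D.divisors, e ≤ ∑ _e ∈ D.divisors, D :=
            Finset.sum_le_sum fun e he => Nat.divisor_le he
        _ = D.divisors.card * D := by rw [Finset.sum_const, smul_eq_mul]
    rw [hd]
    exact_mod_cast this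
  have hsg0 : (0 : ℝ) ≤ sg m := Nat.cast_nonneg _
  obtain ⟨G, hG⟩ : ∃ G : ℝ, G = 4 * n * (sg m : ℝ) +
      d ^ 2 * (C * P * (n * D + δ ^ 2 * (D : ℝ) ^ 2) * L) := ⟨_, rfl⟩
  rw [← hG] at h3
  have hG0 : 0 ≤ G := by rw [hG]; positivity
  rw [ENNReal.ofReal_le_ofReal_iff (by positivity)] at h3
  have h4 : ∑ i, (bv δ * aK (κ i) δ * (m * Λ i)) ^ 2 ≥
      (bv δ / 2) ^ 2 * (D * ∑ i, (Λ i) ^ 2) := by
    rw [Finset.mul_sum, Finset.mul_sum]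
    refine Finset.sum_le_sum fun i _ => ?_
    have e1 : (bv δ * aK (κ i) δ * (m * Λ i)) ^ 2 = (bv δ * aK (κ i) δ) ^ 2 * (D * (Λ i) ^ 2) := by
      rw [hDm]; ring
    rw [e1]
    exact mul_le_mul_of_nonneg_right (pow_le_pow_left₀ (by positivity) (hprod i) 2) (by positivity)
  obtain ⟨X, hX⟩ : ∃ X, X = ∑ i, (Λ i) ^ 2 := ⟨_, rfl⟩
  rw [← hX] at h4 ⊢
  have hX0 : 0 ≤ X := by
    rw [hX]
    exact Finset.sum_nonneg fun i _ => sq_nonneg _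
  have hDX : 0 ≤ D * X := by positivity
  have h6 : bv δ * (bv δ / 4 * (D * X)) ≤ bv δ * G := by
    calc bv δ * (bv δ / 4 * (D * X)) = (bv δ / 2) ^ 2 * (D * X) := by ring
      _ ≤ _ := h4
      _ ≤ bv δ * G := h3
  have h7 : bv δ / 4 * (D * X) ≤ G := le_of_mul_le_mul_left h6 hbv0
  have h8 : δ ^ 2 / 4 * (D * X) ≤ G := by
    refine le_trans ?_ h7
    exact mul_le_mul_of_nonneg_right (by linarith) hDX
  have h9 : D * X ≤ 256 * T ^ 2 * G := by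
    have e1 : δ ^ 2 * T ^ 2 = 1 / 64 := by
      calc δ ^ 2 * T ^ 2 = (δ * T) ^ 2 := by ring
        _ = 1 / 64 := by rw [hδT]; norm_num
    calc D * X = 256 * T ^ 2 * (δ ^ 2 / 4 * (D * X)) := by
          have : 256 * T ^ 2 * (δ ^ 2 / 4 * (D * X)) = 64 * (δ ^ 2 * T ^ 2) * (D * X) := by ring
          rw [this, e1]
          ring
      _ ≤ 256 * T ^ 2 * G := mul_le_mul_of_nonneg_left h8 (by positivity)
  have hGle : G ≤ D * ((4 + C) * d ^ 2 * P * (n + δ ^ 2 * D) * L) := by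
    have hnD : n ≤ n + δ ^ 2 * D := le_add_of_nonneg_right (by positivity)
    have e1 : 4 * n * (sg m : ℝ) ≤ D * (4 * d ^ 2 * P * (n + δ ^ 2 * D) * L) := by
      calc 4 * n * (sg m : ℝ) ≤ 4 * n * (d * D) := by gcongr
        _ = D * (4 * (d * 1) * 1 * n * 1) := by ring
        _ ≤ D * (4 * (d * d) * P * (n + δ ^ 2 * D) * L) := by
            gcongr
        _ = D * (4 * d ^ 2 * P * (n + δ ^ 2 * D) * L) := by ring
    have e2 : d ^ 2 * (C * P * (n * D + δ ^ 2 * (D : ℝ) ^ 2) * L) =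
        D * (C * d ^ 2 * P * (n + δ ^ 2 * D) * L) := by
      ring
    rw [hG, e2]
    calc 4 * n * (sg m : ℝ) + D * (C * d ^ 2 * P * (n + δ ^ 2 * D) * L)
        ≤ D * (4 * d ^ 2 * P * (n + δ ^ 2 * D) * L) + D * (C * d ^ 2 * P * (n + δ ^ 2 * D) * L) := by
          linarith
      _ = _ := by ring
  have e64 : δ ^ 2 * T ^ 2 = 1 / 64 := by
    calc δ ^ 2 * T ^ 2 = (δ * T) ^ 2 := by ring
      _ = 1 / 64 := by rw [hδT]; norm_num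
  have h10 : D * X ≤ D * (256 * ((4 + C) * d ^ 2 * P * (n * T ^ 2 + D) * L)) := by
    calc D * X ≤ 256 * T ^ 2 * G := h9
      _ ≤ 256 * T ^ 2 * (D * ((4 + C) * d ^ 2 * P * (n + δ ^ 2 * D) * L)) :=
          mul_le_mul_of_nonneg_left hGle (by positivity)
      _ = D * (256 * ((4 + C) * d ^ 2 * P * (n * T ^ 2 + (δ ^ 2 * T ^ 2) * D) * L)) := by ring
      _ = D * (256 * ((4 + C) * d ^ 2 * P * (n * T ^ 2 + 1 / 64 * D) * L)) := by rw [e64]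
      _ ≤ _ := by
          gcongr
          linarith
  exact le_of_mul_le_mul_left h10 (by linarith)

/-- the logarithmic factor -/
theorem logfac : ∀ ε : ℝ, 0 < ε → ∃ A : ℝ, 0 < A ∧ ∀ (N m : ℕ) (n T C₀ : ℝ), 0 < N → 0 < m →
    1 ≤ n → 1 ≤ T → 1 ≤ C₀ → (N : ℝ) ≤ C₀ * n ^ 2 →
    1 + Real.log (4 * (m ^ 2 : ℕ) * (256 * N * T ^ 2)) ≤ (A + Real.log C₀) * (n * m * T) ^ ε := by
  intro ε hε
  refine ⟨8 + 2 / ε, by positivity, fun N m n T C₀ hN hm hn hT hC₀ hle => ?_⟩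
  have hNr : (1 : ℝ) ≤ N := by exact_mod_cast hN
  have hmr : (1 : ℝ) ≤ m := by exact_mod_cast hm
  obtain ⟨Z, hZ⟩ : ∃ Z : ℝ, Z = n * m * T := ⟨_, rfl⟩
  have hZ1 : 1 ≤ Z := by
    rw [hZ]
    exact one_le_mul_of_one_le_of_one_le (one_le_mul_of_one_le_of_one_le hn hmr) hT
  have hZ0 : 0 < Z := by linarith
  have h1 : 4 * ((m ^ 2 : ℕ) : ℝ) * (256 * N * T ^ 2) ≤ 1024 * C₀ * Z ^ 2 := by
    rw [hZ]
    push_cast
    calc 4 * (m : ℝ) ^ 2 * (256 * N * T ^ 2) ≤ 4 * (m : ℝ) ^ 2 * (256 * (C₀ * n ^ 2) * T ^ 2) := by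
          gcongr
      _ = _ := by ring
  have h2 : Real.log (4 * (m ^ 2 : ℕ) * (256 * N * T ^ 2)) ≤ Real.log (1024 * C₀ * Z ^ 2) := by
    apply Real.log_le_log _ h1
    push_cast
    positivity
  have h3 : Real.log (1024 * C₀ * Z ^ 2) = Real.log 1024 + Real.log C₀ + 2 * Real.log Z := by
    rw [Real.log_mul (by positivity) (by positivity), Real.log_mul (by norm_num) (by positivity),
      Real.log_pow]
    push_cast
    ring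
  have e2 : Real.log 1024 ≤ 7 := by
    have h3 : (1024 : ℝ) ≤ Real.exp 1 ^ 7 := by
      have h4 := Real.exp_one_gt_d9
      have h5 : (2.7182818283 : ℝ) ^ 7 ≤ Real.exp 1 ^ 7 :=
        pow_le_pow_left₀ (by norm_num) h4.le 7
      refine le_trans ?_ h5
      norm_num
    have h6 := Real.log_le_log (by norm_num) h3
    rw [Real.log_pow, Real.log_exp] at h6
    norm_num at h6
    exact h6
  have h4 : Real.log Z ≤ Z ^ ε / ε := Real.log_le_rpow_div hZ0.le hε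
  have h5 : 1 ≤ Z ^ ε := Real.one_le_rpow hZ1 hε.le
  have h6 : 0 ≤ Real.log C₀ := Real.log_nonneg hC₀
  rw [← hZ]
  have h7 : (8 + Real.log C₀) * 1 ≤ (8 + Real.log C₀) * Z ^ ε :=
    mul_le_mul_of_nonneg_left h5 (by linarith)
  calc 1 + Real.log (4 * (m ^ 2 : ℕ) * (256 * N * T ^ 2))
      ≤ (8 + Real.log C₀) * 1 + 2 * (Z ^ ε / ε) := by linarith
    _ ≤ (8 + Real.log C₀) * Z ^ ε + 2 * (Z ^ ε / ε) := by linarith
    _ = (8 + 2 / ε + Real.log C₀) * Z ^ ε := by ring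

/-- the mean square of the eigenvalues of a Hecke operator -/
theorem main : ∀ ε : ℝ, 0 < ε → ∃ C : ℝ, 0 < C ∧ ∀ (Γ : Subgroup SL(2, ℤ)) (N : ℕ), IsLevel Γ N →
    ∀ T : ℝ, 1 ≤ T → ∀ m : ℕ, 0 < m → Nat.Coprime m N →
    ∀ (k : ℕ) (κ : Fin k → ℝ) (f : Fin k → ℂ → ℂ), (∀ i, 0 ≤ κ i) → (∀ i, κ i ≤ T ^ 2) →
      (∀ i, FormK Γ (κ i) (f i)) → LinearIndependent ℂ (fun i => fun z : ℍ => f i z) →
      ∀ Λ : Fin k → ℝ, (∀ i, ∃ S : Finset MZ, Reps N m S ∧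
        ∀ z : ℍ, ∑ g ∈ S, f i (mob g z) = ((m * Λ i : ℝ) : ℂ) * f i z) →
      ∑ i, (Λ i) ^ 2 ≤ C * (Γ.index * m * T) ^ ε * (Γ.index * T ^ 2 + (m : ℝ) ^ 2) := by
  classical
  intro ε hε
  obtain ⟨e, he⟩ : ∃ e : ℝ, e = ε / 7 := ⟨_, rfl⟩
  have he0 : 0 < e := by rw [he]; positivity
  obtain ⟨C₁, hC₁, hmain⟩ := Q3.main e he0
  obtain ⟨C₂, hC₂, hdiv⟩ := Pool.Agent.H369R2.divisor_bound e he0
  obtain ⟨C₀, hC₀, hlevN⟩ := level_le
  obtain ⟨A, hA, hlog⟩ := logfac e he0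
  obtain ⟨C₃, hC₃⟩ : ∃ C₃ : ℝ, C₃ = max C₀ 1 := ⟨_, rfl⟩
  have hC₃1 : 1 ≤ C₃ := by rw [hC₃]; exact le_max_right _ _
  have hlC : 0 ≤ Real.log C₃ := Real.log_nonneg hC₃1
  refine ⟨256 * ((4 + C₁) * C₂ ^ 2 * (A + Real.log C₃)), by positivity, ?_⟩
  intro Γ N hN T hT m hm hmN k κ f hκ hκ2 hf hli Λ hΛ
  have hT0 : 0 < T := by linarith
  have hmr : (1 : ℝ) ≤ m := by exact_mod_cast hm
  rcases Nat.eq_zero_or_pos k with hk | hk
  · subst hk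
    rw [Fin.sum_univ_zero]
    positivity
  obtain ⟨S, hS, _⟩ := hΛ ⟨0, hk⟩
  have hfin : Γ.FiniteIndex := by
    have : NeZero N := ⟨hN.1.ne'⟩
    exact Subgroup.finiteIndex_of_le hN.2.1
  have hn0 : 0 < Γ.index := Nat.pos_of_ne_zero hfin.index_ne_zero
  have hn1 : (1 : ℝ) ≤ Γ.index := by exact_mod_cast hn0
  have h1 := ineq he0 hC₁ hmain Γ N hN T hT m hm hmN S hS k κ
    (fun i => (hf i).toLW hN.1 hN.2.1) hκ hκ2 (fun i => (hf i).mem_EV hN.1 hN.2.1)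
    (LinearIndependent.of_comp (LW N).subtype hli) Λ (by
      intro i z
      obtain ⟨S', hS', hz⟩ := hΛ i
      have h2 := indep hS hS' (fun g => f i ((nm m g • z : ℍ) : ℂ)) (by
        intro γ hγ g hg
        show f i ((nm m ((γ : MZ) * g) • z : ℍ) : ℂ) = f i ((nm m g • z : ℍ) : ℂ)
        rw [nm_mul hm hg hγ, mul_smul (γ : SL(2, ℝ)) (nm m g) z]
        exact (hf i).inv γ (hN.2.1 hγ) _)
      show ∑ g ∈ S, f i ((nm m g • z : ℍ) : ℂ) = ((m * Λ i : ℝ) : ℂ) * f i z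
      rw [h2, ← hz z]
      refine Finset.sum_congr rfl fun g hg => ?_
      show f i ((nm m g • z : ℍ) : ℂ) = _
      rw [mob_eq hm (hS'.mem g hg)])
  refine h1.trans ?_
  -- the level
  have hNn : (N : ℝ) ≤ C₃ * (Γ.index : ℝ) ^ 2 := by
    obtain ⟨C₄, hC₄, hpts⟩ := wpoints e he0
    have h2 := (Q3.sum_le hC₄ hpts Γ N hN 1 one_pos
      (Nat.coprime_one_left N) 5 0 le_rfl le_rfl ∅ (fun η hη => absurd hη (Finset.notMem_empty η))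
      (fun _ => 1) (fun η hη => absurd hη (Finset.notMem_empty η))).2
    have h3 : (N : ℝ) ≤ 4 * (N.divisors.card : ℝ) ^ 3 * Γ.index := by exact_mod_cast h2
    have h4 := hlevN N Γ.index hN.1 (by positivity) h3
    refine h4.trans ?_
    rw [hC₃]
    exact mul_le_mul_of_nonneg_right (le_max_left _ _) (by positivity)
  have hL := hlog N m Γ.index T C₃ hN.1 hm hn1 hT hC₃1 hNn
  obtain ⟨n, hn⟩ : ∃ n : ℝ, n = Γ.index := ⟨_, rfl⟩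
  rw [← hn] at hL hn1 ⊢
  obtain ⟨Z, hZ⟩ : ∃ Z : ℝ, Z = n * m * T := ⟨_, rfl⟩
  have hZ1 : 1 ≤ Z := by
    rw [hZ]
    exact one_le_mul_of_one_le_of_one_le (one_le_mul_of_one_le_of_one_le hn1 hmr) hT
  have hZ0 : 0 < Z := by linarith
  have hnZ : n * (m ^ 2 : ℕ) ≤ Z ^ 2 := by
    rw [hZ]
    push_cast
    have e1 : n * (m : ℝ) ^ 2 = n * m ^ 2 * 1 := by ring
    have e2 : (n * m * T) ^ 2 = n * m ^ 2 * (n * T ^ 2) := by ring
    rw [e1, e2]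
    apply mul_le_mul_of_nonneg_left _ (by positivity)
    exact one_le_mul_of_one_le_of_one_le hn1 (one_le_pow₀ hT)
  have hmZ : ((m ^ 2 : ℕ) : ℝ) ≤ Z ^ 2 := by
    refine le_trans ?_ hnZ
    exact le_mul_of_one_le_left (by positivity) hn1
  have hpow : ∀ x : ℝ, 0 ≤ x → x ≤ Z ^ 2 → x ^ e ≤ (Z ^ e) ^ 2 := by
    intro x hx0 hx
    refine (Real.rpow_le_rpow hx0 hx he0.le).trans (le_of_eq ?_)
    rw [← Real.rpow_natCast Z 2, ← Real.rpow_natCast (Z ^ e) 2, ← Real.rpow_mul hZ0.le,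
      ← Real.rpow_mul hZ0.le, mul_comm]
  have p1 := hpow _ (by positivity) hnZ
  have p2 := hpow _ (by positivity) hmZ
  have hdv := hdiv (m ^ 2) (pow_pos hm 2)
  rw [← hZ] at hL ⊢
  obtain ⟨z, hz⟩ : ∃ z : ℝ, z = Z ^ e := ⟨_, rfl⟩
  have hz1 : 1 ≤ z := by rw [hz]; exact Real.one_le_rpow hZ1 he0.le
  rw [← hz] at hL p1 p2
  have hz7 : z ^ 7 = Z ^ ε := by
    rw [hz, ← Real.rpow_natCast, ← Real.rpow_mul hZ0.le]
    congr 1
    rw [he]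
    push_cast
    ring
  have hd2 : ((m ^ 2).divisors.card : ℝ) ≤ C₂ * z ^ 2 :=
    hdv.trans (mul_le_mul_of_nonneg_left p2 hC₂.le)
  have hm2 : ((m ^ 2 : ℕ) : ℝ) = (m : ℝ) ^ 2 := by push_cast; ring
  have hL0 : 0 ≤ 1 + Real.log (4 * (m ^ 2 : ℕ) * (256 * N * T ^ 2)) := by
    have hNr : (1 : ℝ) ≤ N := by exact_mod_cast hN.1
    have h1 : 1 ≤ 4 * ((m ^ 2 : ℕ) : ℝ) * (256 * N * T ^ 2) := by
      rw [hm2]
      have a1 : 1 ≤ (m : ℝ) ^ 2 := one_le_pow₀ hmr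
      have a2 : 1 ≤ T ^ 2 := one_le_pow₀ hT
      have a3 : 1 ≤ 256 * (N : ℝ) * T ^ 2 := by nlinarith
      nlinarith
    have := Real.log_nonneg h1
    linarith
  calc 256 * ((4 + C₁) * ((m ^ 2).divisors.card : ℝ) ^ 2 *
      (n * (m ^ 2 : ℕ)) ^ e * (n * T ^ 2 + ((m ^ 2 : ℕ) : ℝ)) *
      (1 + Real.log (4 * (m ^ 2 : ℕ) * (256 * N * T ^ 2))))
      ≤ 256 * ((4 + C₁) * (C₂ * z ^ 2) ^ 2 * z ^ 2 * (n * T ^ 2 + ((m ^ 2 : ℕ) : ℝ)) *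
        ((A + Real.log C₃) * z)) := by
        gcongr
    _ = 256 * ((4 + C₁) * C₂ ^ 2 * (A + Real.log C₃)) * z ^ 7 * (n * T ^ 2 + (m : ℝ) ^ 2) := by
        rw [hm2]; ring
    _ = _ := by rw [hz7]

end Q7

end

end Pool.Agent.XE31
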