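import Pool.Agent.XE31.R3

/-!
# Forms which are not tempered at a prime, in terms of exponents
-/

set_option autoImplicit false
set_option linter.all false

open UpperHalfPlane MeasureTheory Metric ModularGroup CongruenceSubgroup
open scoped MatrixGroups ENNReal Modular Topology NNReal

namespace Pool.Agent.XE31

open Pool.Agent.H369R2 Pool.Agent.N799.DT

noncomputable section

namespace R4

open H4 H9 R2 R3

/-- the form `f` has exponent `α` at `p` -/
def HasExp (N p : ℕ) (α : ℝ) (f : ℂ → ℂ) : Prop :=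
  ∀ j : ℕ, ∃ S : Finset MZ, Reps N (p ^ j) S ∧ ∀ z : ℍ, ∑ g ∈ S, f (mob g z) =
    (((p : ℝ) ^ j * ∑ l ∈ Finset.Icc (-(j : ℤ)) j, (p : ℝ) ^ (α * l) : ℝ) : ℂ) * f z

lemma HasExp.toU {N p : ℕ} {α : ℝ} {f : ℂ → ℂ} (h : HasExp N p α f) (j : ℕ) :
    ∃ S : Finset MZ, Reps N (p ^ j) S ∧ ∀ z : ℍ, ∑ g ∈ S, f (mob g z) =
    (((p : ℝ) ^ j * U ((p : ℝ) ^ α) j : ℝ) : ℂ) * f z := by
  obtain ⟨S, hS, hz⟩ := h j
  refine ⟨S, hS, fun z => ?_⟩
  rw [hz z]
  have : ∑ l ∈ Finset.Icc (-(j : ℤ)) j, (p : ℝ) ^ (α * l) = U ((p : ℝ) ^ α) j := by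
    unfold U
    refine Finset.sum_congr rfl fun l _ => ?_
    rw [← Real.rpow_intCast, ← Real.rpow_mul (by positivity)]
  rw [this]

/-- the sum over the forms, in terms of the exponents -/
theorem exp_sum : ∃ C : ℝ, 0 < C ∧ ∀ (Γ : Subgroup SL(2, ℤ)) (N : ℕ), IsLevel Γ N →
    ∀ T : ℝ, 1 ≤ T → ∀ (k : ℕ) (κ : Fin k → ℝ) (f : Fin k → ℂ → ℂ), (∀ i, 0 ≤ κ i) →
      (∀ i, κ i ≤ T ^ 2) → (∀ i, FormK Γ (κ i) (f i)) →
      LinearIndependent ℂ (fun i => fun z : ℍ => f i z) →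
      ∀ p : ℕ, p.Prime → ¬ p ∣ N → (p : ℝ) ^ 1000 ≤ Γ.index * T →
      ∀ α : Fin k → ℝ, (∀ i, 0 ≤ α i) → (∀ i, HasExp N p (α i) (f i)) →
      ∑ i, (Γ.index * T) ^ (α i / 4000) ≤
        C * Γ.index * T ^ 2 * (Real.log p / Real.log (Γ.index * T)) ^ 3 := by
  obtain ⟨C, hC, h⟩ := prime_sum
  refine ⟨1000 ^ 3 * C, by positivity, ?_⟩
  intro Γ N hN T hT k κ f hκ hκ2 hf hli p hp hpN hpT α hα hE
  obtain ⟨X, hX⟩ : ∃ X : ℝ, X = Γ.index * T := ⟨_, rfl⟩
  have hp2 : (2 : ℝ) ≤ p := by exact_mod_cast hp.two_le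
  have hp0 : (0 : ℝ) < p := by linarith
  have hlp : 0 < Real.log p := Real.log_pos (by linarith)
  rw [← hX] at hpT ⊢
  have hX0 : 0 < X := lt_of_lt_of_le (by positivity) hpT
  have hlX : 1000 * Real.log p ≤ Real.log X := by
    have := Real.log_le_log (by positivity) hpT
    rw [Real.log_pow] at this
    exact_mod_cast this
  have hlX0 : 0 < Real.log X := by linarith
  obtain ⟨J, hJ⟩ : ∃ J : ℕ, J = ⌊Real.log X / (1000 * Real.log p)⌋₊ := ⟨_, rfl⟩
  have hq1 : 1 ≤ Real.log X / (1000 * Real.log p) := by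
    rw [le_div_iff₀ (by positivity), one_mul]
    exact hlX
  have hJ1 : 1 ≤ J := by
    rw [hJ]
    exact Nat.le_floor (by exact_mod_cast hq1)
  have hJr : (1 : ℝ) ≤ J := by exact_mod_cast hJ1
  have hJle : (J : ℝ) ≤ Real.log X / (1000 * Real.log p) := by
    rw [hJ]
    exact Nat.floor_le (by positivity)
  have hJlt : Real.log X / (1000 * Real.log p) < J + 1 := by
    rw [hJ]
    exact Nat.lt_floor_add_one _
  have hpJ : (p : ℝ) ^ (1000 * J) ≤ Γ.index * T := by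
    rw [← hX]
    have h1 : Real.log ((p : ℝ) ^ (1000 * J)) ≤ Real.log X := by
      rw [Real.log_pow]
      push_cast
      rw [le_div_iff₀ (by positivity)] at hJle
      linarith
    exact (Real.log_le_log_iff (by positivity) hX0).1 h1
  have h1 := h Γ N hN T hT p hp hpN J hpJ k κ f hκ hκ2 hf hli (fun i => (p : ℝ) ^ α i)
    (fun i => Real.one_le_rpow (by linarith) (hα i)) (fun i j => (hE i).toU j)
  have h2 : ∀ i, X ^ (α i / 4000) ≤ ((p : ℝ) ^ α i) ^ ((J : ℝ) / 2) := by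
    intro i
    rw [← Real.rpow_mul hp0.le, Real.rpow_def_of_pos hX0, Real.rpow_def_of_pos hp0]
    apply Real.exp_le_exp.2
    have h3 : Real.log X ≤ 2000 * (J * Real.log p) := by
      rw [div_lt_iff₀ (by positivity)] at hJlt
      have : Real.log p ≤ J * Real.log p := le_mul_of_one_le_left hlp.le hJr
      linarith
    calc Real.log X * (α i / 4000) ≤ 2000 * (J * Real.log p) * (α i / 4000) :=
          mul_le_mul_of_nonneg_right h3 (by have := hα i; positivity)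
      _ = Real.log p * (α i * (J / 2)) := by ring
  refine (Finset.sum_le_sum fun i _ => h2 i).trans (h1.trans ?_)
  have h4 : 1 / ((J : ℝ) + 1) ≤ 1000 * (Real.log p / Real.log X) := by
    rw [div_le_iff₀ (by positivity)]
    rw [div_lt_iff₀ (by positivity)] at hJlt
    have e : 1000 * (Real.log p / Real.log X) * (J + 1) =
        ((J + 1) * (1000 * Real.log p)) / Real.log X := by ring
    rw [e, le_div_iff₀ hlX0, one_mul]
    exact hJlt.le
  calc C * Γ.index * T ^ 2 / ((J : ℝ) + 1) ^ 3 = C * Γ.index * T ^ 2 * (1 / ((J : ℝ) + 1)) ^ 3 := by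
        rw [one_div, inv_pow]; rfl
    _ ≤ C * Γ.index * T ^ 2 * (1000 * (Real.log p / Real.log X)) ^ 3 := by
        gcongr
    _ = _ := by ring

/-- the number of forms with a large exponent at a prime -/
theorem exp_count : ∃ C : ℝ, 0 < C ∧ ∀ (Γ : Subgroup SL(2, ℤ)) (N : ℕ), IsLevel Γ N →
    ∀ T : ℝ, 1 ≤ T → ∀ (k : ℕ) (κ : Fin k → ℝ) (f : Fin k → ℂ → ℂ), (∀ i, 0 ≤ κ i) →
      (∀ i, κ i ≤ T ^ 2) → (∀ i, FormK Γ (κ i) (f i)) →
      LinearIndependent ℂ (fun i => fun z : ℍ => f i z) →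
      ∀ p : ℕ, p.Prime → ¬ p ∣ N → (p : ℝ) ^ 1000 ≤ Γ.index * T →
      ∀ α : ℝ, 0 ≤ α → (∀ i, ∃ a, α ≤ a ∧ HasExp N p a (f i)) →
      (k : ℝ) ≤ C * Γ.index * T ^ 2 * (Γ.index * T) ^ (-(α / 4000)) := by
  obtain ⟨C, hC, h⟩ := exp_sum
  refine ⟨C, hC, ?_⟩
  intro Γ N hN T hT k κ f hκ hκ2 hf hli p hp hpN hpT α hα hE
  choose a ha hE using hE
  have h1 := h Γ N hN T hT k κ f hκ hκ2 hf hli p hp hpN hpT a (fun i => hα.trans (ha i)) hE
  have hp2 : (2 : ℝ) ≤ p := by exact_mod_cast hp.two_le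
  obtain ⟨X, hX⟩ : ∃ X : ℝ, X = Γ.index * T := ⟨_, rfl⟩
  rw [← hX] at hpT h1 ⊢
  have hX1 : 1 ≤ X := le_trans (one_le_pow₀ (by linarith)) hpT
  have hX0 : 0 < X := by linarith
  have hlp : 0 < Real.log p := Real.log_pos (by linarith)
  have hlX : 1000 * Real.log p ≤ Real.log X := by
    have := Real.log_le_log (by positivity) hpT
    rw [Real.log_pow] at this
    exact_mod_cast this
  have h2 : (Real.log p / Real.log X) ^ 3 ≤ 1 := by
    apply pow_le_one₀ (div_nonneg hlp.le (by linarith))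
    rw [div_le_one (by linarith)]
    linarith
  have h3 : (k : ℝ) * X ^ (α / 4000) ≤ ∑ i, X ^ (a i / 4000) := by
    have : (k : ℝ) * X ^ (α / 4000) = ∑ _i : Fin k, X ^ (α / 4000) := by simp
    rw [this]
    exact Finset.sum_le_sum fun i _ => Real.rpow_le_rpow_of_exponent_le hX1 (by linarith [ha i])
  have h4 : (k : ℝ) * X ^ (α / 4000) ≤ C * Γ.index * T ^ 2 :=
    h3.trans (h1.trans (mul_le_of_le_one_right (by positivity) h2))
  rw [Real.rpow_neg hX0.le, ← div_eq_mul_inv, le_div_iff₀ (by positivity)]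
  exact h4

/-- subfamilies -/
lemma sub_li {k : ℕ} {f : Fin k → ℂ → ℂ} (hli : LinearIndependent ℂ (fun i => fun z : ℍ => f i z))
    {m : ℕ} {e : Fin m → Fin k} (he : Function.Injective e) :
    LinearIndependent ℂ (fun i => fun z : ℍ => f (e i) z) := hli.comp e he

/-- the number of forms with a large exponent at some prime -/
theorem small_primes : ∃ C : ℝ, 0 < C ∧ ∀ (Γ : Subgroup SL(2, ℤ)) (N : ℕ), IsLevel Γ N →
    ∀ T : ℝ, 1 ≤ T → ∀ (k : ℕ) (κ : Fin k → ℝ) (f : Fin k → ℂ → ℂ), (∀ i, 0 ≤ κ i) →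
      (∀ i, κ i ≤ T ^ 2) → (∀ i, FormK Γ (κ i) (f i)) →
      LinearIndependent ℂ (fun i => fun z : ℍ => f i z) →
      ∀ P : ℕ, (P : ℝ) ^ 1000 ≤ Γ.index * T →
      ∀ α : ℝ, 0 ≤ α → (∀ i, ∃ p : ℕ, p.Prime ∧ p ≤ P ∧ ¬ p ∣ N ∧
        ∃ a, α ≤ a ∧ HasExp N p a (f i)) →
      (k : ℝ) ≤ C * Γ.index * T ^ 2 * P * (Γ.index * T) ^ (-(α / 4000)) := by
  classical
  obtain ⟨C, hC, h⟩ := exp_count
  refine ⟨C, hC, ?_⟩
  intro Γ N hN T hT k κ f hκ hκ2 hf hli P hPT α hα hE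
  choose q hq hqP hqN a ha hE using hE
  have hX0 : (0 : ℝ) ≤ Γ.index * T := by positivity
  have key : ∀ p ∈ Finset.Icc 1 P, ((Finset.univ.filter fun i => q i = p).card : ℝ) ≤
      C * Γ.index * T ^ 2 * (Γ.index * T) ^ (-(α / 4000)) := by
    intro p hp
    rw [Finset.mem_Icc] at hp
    obtain ⟨m, hm⟩ : ∃ m, m = (Finset.univ.filter fun i => q i = p).card := ⟨_, rfl⟩
    rcases Nat.eq_zero_or_pos m with h0 | h0
    · rw [← hm, h0]
      push_cast
      positivity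
    · have hne : (Finset.univ.filter fun i => q i = p).Nonempty := by
        rw [← Finset.card_pos, ← hm]
        exact h0
      obtain ⟨i₀, hi₀⟩ := hne
      have hi₀' := (Finset.mem_filter.1 hi₀).2
      obtain ⟨e⟩ : Nonempty (Fin m ≃ (Finset.univ.filter fun i => q i = p)) := by
        rw [hm]
        exact ⟨(Finset.equivFin _).symm⟩
      have he : ∀ i : Fin m, q (e i) = p := fun i => (Finset.mem_filter.1 (e i).2).2
      have hinj : Function.Injective fun i : Fin m => ((e i : Fin k)) :=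
        Subtype.val_injective.comp e.injective
      have hpT : (p : ℝ) ^ 1000 ≤ Γ.index * T := by
        refine le_trans ?_ hPT
        have : (p : ℝ) ≤ P := by exact_mod_cast hp.2
        exact pow_le_pow_left₀ (by positivity) this _
      have := h Γ N hN T hT m (fun i => κ (e i)) (fun i => f (e i)) (fun i => hκ _)
        (fun i => hκ2 _) (fun i => hf _) (sub_li hli hinj) p (by rw [← hi₀']; exact hq i₀)
        (by rw [← hi₀']; exact hqN i₀) hpT α hα
        (fun i => ⟨a (e i), ha _, by have := hE (e i); rwa [he i] at this⟩)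
      rw [← hm]
      exact this
  have h1 : (k : ℝ) = ∑ p ∈ Finset.Icc 1 P, ((Finset.univ.filter fun i => q i = p).card : ℝ) := by
    have h2 : (Finset.univ : Finset (Fin k)).card =
        ∑ p ∈ Finset.Icc 1 P, (Finset.univ.filter fun i => q i = p).card :=
      Finset.card_eq_sum_card_fiberwise fun i _ => by
        rw [Finset.mem_coe, Finset.mem_Icc]
        exact ⟨(hq i).pos, hqP i⟩
    rw [Finset.card_univ, Fintype.card_fin] at h2
    exact_mod_cast h2
  rw [h1]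
  refine (Finset.sum_le_sum key).trans (le_of_eq ?_)
  rw [Finset.sum_const, Nat.card_Icc, nsmul_eq_mul]
  simp only [Nat.add_sub_cancel]
  ring

end R4

end

end Pool.Agent.XE31
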