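import Pool.Agent.XE31.Q7
import Pool.Agent.XE31.R4

/-!
# The density of the forms which are not tempered at a prime, with the exponent of the density
hypothesis
-/

set_option autoImplicit false
set_option linter.all false

open UpperHalfPlane MeasureTheory Metric ModularGroup CongruenceSubgroup
open scoped MatrixGroups ENNReal Modular Topology NNReal

namespace Pool.Agent.XE31

open Pool.Agent.H369R2 Pool.Agent.N799.DT

noncomputable section

namespace Q8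

open H4 H9 R2 R3 R4

lemma U_ge {β : ℝ} (hβ : 0 < β) (j : ℕ) : β ^ j ≤ U β j := by
  unfold U
  have h1 : (j : ℤ) ∈ Finset.Icc (-(j : ℤ)) j := by
    rw [Finset.mem_Icc]; omega
  have h2 := Finset.single_le_sum (f := fun l : ℤ => β ^ l) (s := Finset.Icc (-(j : ℤ)) j)
    (fun l _ => (zpow_pos hβ l).le) h1
  simpa using h2

/-- the numerical inequality -/
lemma numer {p X α : ℝ} (hp : 1 < p) (hX : 1 ≤ X) (hα : 0 ≤ α) (j : ℕ)
    (h1 : p ^ (2 * j) ≤ X) (h2 : X ≤ p ^ (2 * (j + 1))) :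
    X ^ α ≤ p * ((p ^ α) ^ j) ^ 2 + p * X / p ^ (2 * (j + 1)) * ((p ^ α) ^ (j + 1)) ^ 2 := by
  have hp0 : 0 < p := by linarith
  have hX0 : 0 < X := by linarith
  have e : ∀ i : ℕ, ((p ^ α) ^ i) ^ 2 = (p ^ (2 * i)) ^ α := by
    intro i
    rw [← pow_mul, ← Real.rpow_natCast (p ^ α), ← Real.rpow_mul hp0.le, ← Real.rpow_natCast p,
      ← Real.rpow_mul hp0.le]
    congr 1
    push_cast
    ring
  rcases le_or_gt α (1 / 2) with h | h
  · have h3 : X ^ α ≤ p * ((p ^ α) ^ j) ^ 2 := by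
      calc X ^ α ≤ (p ^ (2 * (j + 1))) ^ α := Real.rpow_le_rpow hX0.le h2 hα
        _ = ((p ^ α) ^ (j + 1)) ^ 2 := (e (j + 1)).symm
        _ = p ^ α * p ^ α * ((p ^ α) ^ j) ^ 2 := by ring
        _ ≤ p * ((p ^ α) ^ j) ^ 2 := by
            apply mul_le_mul_of_nonneg_right _ (by positivity)
            rw [← Real.rpow_add hp0]
            calc p ^ (α + α) ≤ p ^ (1 : ℝ) := Real.rpow_le_rpow_of_exponent_le hp.le (by linarith)
              _ = p := Real.rpow_one p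
    have h4 : 0 ≤ p * X / p ^ (2 * (j + 1)) * ((p ^ α) ^ (j + 1)) ^ 2 := by positivity
    linarith
  · have h3 : X ^ α ≤ p * X / p ^ (2 * (j + 1)) * ((p ^ α) ^ (j + 1)) ^ 2 := by
      rw [e (j + 1)]
      obtain ⟨W, hW⟩ : ∃ W : ℝ, W = p ^ (2 * (j + 1)) := ⟨_, rfl⟩
      have hWX : W ≤ p ^ 2 * X := by
        rw [hW]
        calc p ^ (2 * (j + 1)) = p ^ 2 * p ^ (2 * j) := by ring
          _ ≤ p ^ 2 * X := mul_le_mul_of_nonneg_left h1 (by positivity)
      rw [← hW] at h2 ⊢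
      have hW0 : 0 < W := by linarith
      obtain ⟨r, hr⟩ : ∃ r : ℝ, r = W / X := ⟨_, rfl⟩
      have hr1 : 1 ≤ r := by rw [hr, le_div_iff₀ hX0, one_mul]; exact h2
      have hr2 : r ≤ p ^ 2 := by rw [hr, div_le_iff₀ hX0]; exact hWX
      have hr0 : 0 < r := by linarith
      have hWr : W = r * X := by rw [hr]; field_simp
      have k1 : r ≤ p * r ^ α := by
        have k2 : r ^ (1 - α) ≤ p := by
          calc r ^ (1 - α) ≤ r ^ (1 / 2 : ℝ) :=
                Real.rpow_le_rpow_of_exponent_le hr1 (by linarith)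
            _ ≤ (p ^ 2) ^ (1 / 2 : ℝ) := Real.rpow_le_rpow hr0.le hr2 (by norm_num)
            _ = p := by
                rw [← Real.rpow_natCast p 2, ← Real.rpow_mul hp0.le]
                norm_num
        calc r = r ^ (1 - α) * r ^ α := by
              rw [← Real.rpow_add hr0]
              simp
          _ ≤ p * r ^ α := mul_le_mul_of_nonneg_right k2 (by positivity)
      rw [div_mul_eq_mul_div, le_div_iff₀ hW0, hWr, Real.mul_rpow hr0.le hX0.le]
      have hXa : 0 < X ^ α := Real.rpow_pos_of_pos hX0 _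
      calc X ^ α * (r * X) = r * (X * X ^ α) := by ring
        _ ≤ p * r ^ α * (X * X ^ α) := mul_le_mul_of_nonneg_right k1 (by positivity)
        _ = p * X * (r ^ α * X ^ α) := by ring
    have h4 : 0 ≤ p * ((p ^ α) ^ j) ^ 2 := by positivity
    linarith

/-- the density theorem at one prime -/
theorem dens : ∀ ε : ℝ, 0 < ε → ∃ C : ℝ, 0 < C ∧ ∀ (Γ : Subgroup SL(2, ℤ)) (N : ℕ), IsLevel Γ N →
    ∀ T : ℝ, 1 ≤ T → ∀ (k : ℕ) (κ : Fin k → ℝ) (f : Fin k → ℂ → ℂ), (∀ i, 0 ≤ κ i) →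
      (∀ i, κ i ≤ T ^ 2) → (∀ i, FormK Γ (κ i) (f i)) →
      LinearIndependent ℂ (fun i => fun z : ℍ => f i z) →
      ∀ p : ℕ, p.Prime → ¬ p ∣ N →
      ∀ α : Fin k → ℝ, (∀ i, 0 ≤ α i) → (∀ i, HasExp N p (α i) (f i)) →
      ∑ i, (Γ.index * T ^ 2) ^ (α i) ≤
        C * (Γ.index * p * T) ^ ε * p * (Γ.index * T ^ 2) := by
  intro ε hε
  obtain ⟨C, hC, h⟩ := Q7.main (ε / 2) (by positivity)
  refine ⟨4 * C, by positivity, ?_⟩
  intro Γ N hN T hT k κ f hκ hκ2 hf hli p hp hpN α hα hE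
  have hT0 : 0 < T := by linarith
  have hp2 : (2 : ℝ) ≤ p := by exact_mod_cast hp.two_le
  have hp1 : (1 : ℝ) < p := by linarith
  have hp0 : (0 : ℝ) < p := by linarith
  have hfin : Γ.FiniteIndex := by
    have : NeZero N := ⟨hN.1.ne'⟩
    exact Subgroup.finiteIndex_of_le hN.2.1
  have hn0 : 0 < Γ.index := Nat.pos_of_ne_zero hfin.index_ne_zero
  have hn1 : (1 : ℝ) ≤ Γ.index := by exact_mod_cast hn0
  obtain ⟨n, hn⟩ : ∃ n : ℝ, n = Γ.index := ⟨_, rfl⟩
  obtain ⟨X, hX⟩ : ∃ X : ℝ, X = n * T ^ 2 := ⟨_, rfl⟩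
  have hT2 : 1 ≤ T ^ 2 := one_le_pow₀ hT
  rw [← hn] at hn1
  have hX1 : 1 ≤ X := by rw [hX]; exact one_le_mul_of_one_le_of_one_le hn1 hT2
  have hX0 : 0 < X := by linarith
  -- the exponent
  obtain ⟨j, hj1, hj2⟩ : ∃ j : ℕ, ((p : ℝ) ^ 2) ^ j ≤ X ∧ X < ((p : ℝ) ^ 2) ^ (j + 1) :=
    exists_nat_pow_near hX1 (by nlinarith)
  rw [← pow_mul] at hj1 hj2
  obtain ⟨V, hV⟩ : ∃ V : ℝ, V = (n * p * T) ^ ε := ⟨_, rfl⟩
  have hV1 : 1 ≤ n * p * T :=
    one_le_mul_of_one_le_of_one_le (one_le_mul_of_one_le_of_one_le hn1 hp1.le) hT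
  have hpN' : Nat.Coprime p N := (Nat.Prime.coprime_iff_not_dvd hp).2 hpN
  have hlam : ∀ i, ∀ a : ℕ, ∃ S : Finset MZ, Reps N (p ^ a) S ∧
      ∀ z : ℍ, ∑ g ∈ S, f i (mob g z) =
        ((((p ^ a : ℕ) : ℝ) * U ((p : ℝ) ^ α i) a : ℝ) : ℂ) * f i z := by
    intro i a
    have := (hE i).toU a
    push_cast at this ⊢
    exact this
  -- the power of the product
  have hpw : ∀ a : ℕ, ((p : ℝ) ^ (2 * a)) ≤ p ^ 2 * X → (n * ((p ^ a : ℕ) : ℝ) * T) ^ (ε / 2) ≤ V := by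
    intro a ha
    have k1 : (p : ℝ) ^ a ≤ p * (n * T) := by
      refine (sq_le_sq₀ (by positivity) (by positivity)).1 ?_
      calc ((p : ℝ) ^ a) ^ 2 = p ^ (2 * a) := by ring
        _ ≤ p ^ 2 * X := ha
        _ = p ^ 2 * (n * T ^ 2) := by rw [hX]
        _ ≤ p ^ 2 * (n ^ 2 * T ^ 2) := by
            gcongr
            exact le_self_pow₀ hn1 (by norm_num)
        _ = (p * (n * T)) ^ 2 := by ring
    have k2 : n * ((p ^ a : ℕ) : ℝ) * T ≤ (n * p * T) ^ 2 := by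
      push_cast
      calc n * (p : ℝ) ^ a * T ≤ n * (p * (n * T)) * T := by gcongr
        _ = 1 * (n * T * (p * (n * T))) := by ring
        _ ≤ p * (n * T * (p * (n * T))) := mul_le_mul_of_nonneg_right hp1.le (by positivity)
        _ = (n * p * T) ^ 2 := by ring
    calc (n * ((p ^ a : ℕ) : ℝ) * T) ^ (ε / 2) ≤ ((n * p * T) ^ 2) ^ (ε / 2) :=
          Real.rpow_le_rpow (by positivity) k2 (by positivity)
      _ = V := by
          rw [hV, ← Real.rpow_natCast (n * p * T) 2, ← Real.rpow_mul (by linarith)]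
          congr 1
          push_cast
          ring
  have m1 := h Γ N hN T hT (p ^ j) (pow_pos hp.pos j) (hpN'.pow_left j) k κ f hκ hκ2 hf hli
    (fun i => U ((p : ℝ) ^ α i) j) (fun i => hlam i j)
  have m2 := h Γ N hN T hT (p ^ (j + 1)) (pow_pos hp.pos _) (hpN'.pow_left _) k κ f hκ hκ2 hf hli
    (fun i => U ((p : ℝ) ^ α i) (j + 1)) (fun i => hlam i (j + 1))
  rw [← hn] at m1 m2 ⊢
  rw [← hX] at m1 m2 ⊢
  rw [← hV]
  have hV0 : 0 < V := by rw [hV]; positivity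
  obtain ⟨W, hW⟩ : ∃ W : ℝ, W = (p : ℝ) ^ (2 * (j + 1)) := ⟨_, rfl⟩
  have hWX : W ≤ p ^ 2 * X := by
    rw [hW]
    calc (p : ℝ) ^ (2 * (j + 1)) = p ^ 2 * p ^ (2 * j) := by ring
      _ ≤ p ^ 2 * X := mul_le_mul_of_nonneg_left hj1 (by positivity)
  have hW0 : 0 < W := by rw [hW]; positivity
  have w1 := hpw j (hj1.trans (le_mul_of_one_le_left hX0.le (one_le_pow₀ hp1.le)))
  have w2 := hpw (j + 1) (by rw [← hW]; exact hWX)
  have sq1 : (((p ^ j : ℕ) : ℝ)) ^ 2 = (p : ℝ) ^ (2 * j) := by push_cast; ring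
  have sq2 : (((p ^ (j + 1) : ℕ) : ℝ)) ^ 2 = W := by rw [hW]; push_cast; ring
  rw [sq1] at m1
  rw [sq2] at m2
  have m1' : ∑ i, (U ((p : ℝ) ^ α i) j) ^ 2 ≤ 2 * C * V * X := by
    calc ∑ i, (U ((p : ℝ) ^ α i) j) ^ 2 ≤ C * (n * ((p ^ j : ℕ) : ℝ) * T) ^ (ε / 2) *
          (X + (p : ℝ) ^ (2 * j)) := m1
      _ ≤ C * V * (X + X) := by gcongr
      _ = _ := by ring
  have m2' : ∑ i, (U ((p : ℝ) ^ α i) (j + 1)) ^ 2 ≤ 2 * C * V * W := by
    calc ∑ i, (U ((p : ℝ) ^ α i) (j + 1)) ^ 2 ≤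
          C * (n * ((p ^ (j + 1) : ℕ) : ℝ) * T) ^ (ε / 2) * (X + W) := m2
      _ ≤ C * V * (W + W) := by
          gcongr
          rw [hW]
          exact hj2.le
      _ = _ := by ring
  have hterm : ∀ i, X ^ (α i) ≤ p * (U ((p : ℝ) ^ α i) j) ^ 2 +
      p * X / W * (U ((p : ℝ) ^ α i) (j + 1)) ^ 2 := by
    intro i
    have hq : 0 < (p : ℝ) ^ α i := Real.rpow_pos_of_pos hp0 _
    refine (numer hp1 hX1 (hα i) j hj1 hj2.le).trans ?_
    rw [← hW]
    have u1 := pow_le_pow_left₀ (by positivity) (U_ge hq j) 2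
    have u2 := pow_le_pow_left₀ (by positivity) (U_ge hq (j + 1)) 2
    have hpX : 0 ≤ p * X / W := by positivity
    exact add_le_add (mul_le_mul_of_nonneg_left u1 hp0.le) (mul_le_mul_of_nonneg_left u2 hpX)
  calc ∑ i, X ^ (α i) ≤ ∑ i, (p * (U ((p : ℝ) ^ α i) j) ^ 2 +
      p * X / W * (U ((p : ℝ) ^ α i) (j + 1)) ^ 2) := Finset.sum_le_sum fun i _ => hterm i
    _ = p * ∑ i, (U ((p : ℝ) ^ α i) j) ^ 2 +
        p * X / W * ∑ i, (U ((p : ℝ) ^ α i) (j + 1)) ^ 2 := by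
        rw [Finset.sum_add_distrib, Finset.mul_sum, Finset.mul_sum]
    _ ≤ p * (2 * C * V * X) + p * X / W * (2 * C * V * W) := by
        have hpX : 0 ≤ p * X / W := by positivity
        exact add_le_add (mul_le_mul_of_nonneg_left m1' hp0.le) (mul_le_mul_of_nonneg_left m2' hpX)
    _ = 4 * C * V * p * X := by
        field_simp
        ring

/-- the number of forms with a large exponent at a prime -/
theorem count : ∀ ε : ℝ, 0 < ε → ∃ C : ℝ, 0 < C ∧ ∀ (Γ : Subgroup SL(2, ℤ)) (N : ℕ), IsLevel Γ N →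
    ∀ T : ℝ, 1 ≤ T → ∀ (k : ℕ) (κ : Fin k → ℝ) (f : Fin k → ℂ → ℂ), (∀ i, 0 ≤ κ i) →
      (∀ i, κ i ≤ T ^ 2) → (∀ i, FormK Γ (κ i) (f i)) →
      LinearIndependent ℂ (fun i => fun z : ℍ => f i z) →
      ∀ P : ℕ, ∀ α : ℝ, 0 ≤ α → (∀ i, ∃ p : ℕ, p.Prime ∧ p ≤ P ∧ ¬ p ∣ N ∧
        ∃ a, α ≤ a ∧ HasExp N p a (f i)) →
      (k : ℝ) ≤ C * (Γ.index * P * T) ^ ε * P ^ 2 * (Γ.index * T ^ 2) ^ (1 - α) := by
  classical
  intro ε hε
  obtain ⟨C, hC, h⟩ := dens ε hε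
  refine ⟨C, hC, ?_⟩
  intro Γ N hN T hT k κ f hκ hκ2 hf hli P α hα hE
  choose q hq hqP hqN a ha hE using hE
  have hfin : Γ.FiniteIndex := by
    have : NeZero N := ⟨hN.1.ne'⟩
    exact Subgroup.finiteIndex_of_le hN.2.1
  have hn0 : 0 < Γ.index := Nat.pos_of_ne_zero hfin.index_ne_zero
  have hn1 : (1 : ℝ) ≤ Γ.index := by exact_mod_cast hn0
  have hT2 : 1 ≤ T ^ 2 := one_le_pow₀ hT
  obtain ⟨X, hX⟩ : ∃ X : ℝ, X = Γ.index * T ^ 2 := ⟨_, rfl⟩
  have hX1 : 1 ≤ X := by rw [hX]; exact one_le_mul_of_one_le_of_one_le hn1 hT2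
  have hX0 : 0 < X := by linarith
  have key : ∀ p ∈ Finset.Icc 1 P, ((Finset.univ.filter fun i => q i = p).card : ℝ) ≤
      C * (Γ.index * P * T) ^ ε * P * X ^ (1 - α) := by
    intro p hp
    rw [Finset.mem_Icc] at hp
    obtain ⟨m, hm⟩ : ∃ m, m = (Finset.univ.filter fun i => q i = p).card := ⟨_, rfl⟩
    rcases Nat.eq_zero_or_pos m with h0 | h0
    · rw [← hm, h0]
      push_cast
      positivity
    · have hne : (Finset.univ.filter fun i => q i = p).Nonempty := by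
        rw [← Finset.card_pos, ← hm]
        exact h0
      obtain ⟨i₀, hi₀⟩ := hne
      have hi₀' := (Finset.mem_filter.1 hi₀).2
      obtain ⟨e⟩ : Nonempty (Fin m ≃ (Finset.univ.filter fun i => q i = p)) := by
        rw [hm]
        exact ⟨(Finset.equivFin _).symm⟩
      have he : ∀ i : Fin m, q (e i) = p := fun i => (Finset.mem_filter.1 (e i).2).2
      have hinj : Function.Injective fun i : Fin m => ((e i : Fin k)) :=
        Subtype.val_injective.comp e.injective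
      have h1 := h Γ N hN T hT m (fun i => κ (e i)) (fun i => f (e i)) (fun i => hκ _)
        (fun i => hκ2 _) (fun i => hf _) (sub_li hli hinj) p (by rw [← hi₀']; exact hq i₀)
        (by rw [← hi₀']; exact hqN i₀) (fun i => a (e i)) (fun i => hα.trans (ha _))
        (fun i => by have := hE (e i); rwa [he i] at this)
      rw [← hX] at h1
      have h3 : (m : ℝ) * X ^ α ≤ ∑ i : Fin m, X ^ (a (e i)) := by
        have : (m : ℝ) * X ^ α = ∑ _i : Fin m, X ^ α := by simp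
        rw [this]
        exact Finset.sum_le_sum fun i _ => Real.rpow_le_rpow_of_exponent_le hX1 (ha _)
      have hpP : (p : ℝ) ≤ P := by exact_mod_cast hp.2
      have h4 : (m : ℝ) * X ^ α ≤ C * (Γ.index * P * T) ^ ε * P * X := by
        refine h3.trans (h1.trans ?_)
        gcongr
      rw [← hm, Real.rpow_sub hX0, Real.rpow_one, mul_div_assoc', le_div_iff₀ (by positivity)]
      exact h4
  have h1 : (k : ℝ) = ∑ p ∈ Finset.Icc 1 P, ((Finset.univ.filter fun i => q i = p).card : ℝ) := by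
    have h2 : (Finset.univ : Finset (Fin k)).card =
        ∑ p ∈ Finset.Icc 1 P, (Finset.univ.filter fun i => q i = p).card :=
      Finset.card_eq_sum_card_fiberwise fun i _ => by
        rw [Finset.mem_coe, Finset.mem_Icc]
        exact ⟨(hq i).pos, hqP i⟩
    rw [Finset.card_univ, Fintype.card_fin] at h2
    exact_mod_cast h2
  rw [h1, ← hX]
  refine (Finset.sum_le_sum key).trans (le_of_eq ?_)
  rw [Finset.sum_const, Nat.card_Icc, nsmul_eq_mul]
  simp only [Nat.add_sub_cancel]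
  ring

end Q8

end

end Pool.Agent.XE31
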