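import Pool.Agent.TH377.Sup.Val
import Pool.Agent.TH377.Sup.EmbR
import Pool.Agent.TH377.NC.Dvr
import Pool.Agent.XE31.SB

/-!
# Discrete valuation rings from embeddings, and their finite extensions
-/

set_option autoImplicit false
set_option maxHeartbeats 400000

namespace Pool.Agent.XE31.SC

open Polynomial WithZero Pool.Agent.W620.SC Pool.Agent.W623.SecC Pool.Agent.TH120.Sec
open Pool.Agent.TH377.LocG

universe u v w x y z

/-- a discrete valuation ring of `k`, a polynomial over it with an irreducible reduction, and an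
element of valuation one -/
structure Dvr (k : Type u) [Field k] (g : k[X]) (a : k) where
  /-- the ring -/
  A : Type u
  [cr : CommRing A]
  [dom : IsDomain A]
  [dvr : IsDiscreteValuationRing A]
  [alg : Algebra A k]
  [frac : IsFractionRing A k]
  /-- the polynomial -/
  f : A[X]
  hfin : Finite (IsLocalRing.ResidueField A)
  h2 : IsUnit (2 : A)
  hf : f.map (algebraMap A k) = g
  hlc : IsUnit f.leadingCoeff
  hirr : Irreducible (f.map (IsLocalRing.residue A))
  /-- a uniformiser -/
  ϖ : A
  /-- a unit -/
  t : A
  /-- the exponent -/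
  n : ℤ
  hϖ : Irreducible ϖ
  ht : IsUnit t
  hn : n = 1 ∨ n = -1
  ha : a = algebraMap A k t * algebraMap A k ϖ ^ n

attribute [instance] Dvr.cr Dvr.dom Dvr.dvr Dvr.alg Dvr.frac

theorem dvr_val {k : Type u} {E : Type x} [Field k] [CharZero k] [Field E]
    (V : Valuation E ℤᵐ⁰) [Finite (IsLocalRing.ResidueField V.valuationSubring)] (ψ : k →+* E)
    (h2 : V (2 : E) = 1) (g : k[X]) (gB : V.valuationSubring[X])
    (hg : gB.map (algebraMap V.valuationSubring E) = g.map ψ) (hlc : IsUnit gB.leadingCoeff)
    (hirr : Irreducible (gB.map (IsLocalRing.residue V.valuationSubring)))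
    (a : k) (ha : V (ψ a) = exp (-1)) : Nonempty (Dvr k g a) := by
  classical
  obtain ⟨hdvr, ϖ, t, n, hϖ, ht, hn, hat⟩ := Pool.Agent.W858.SF.exists_unif (V.comap ψ) a (-1)
    (by decide) ha
  let i : (V.comap ψ).valuationSubring →+* V.valuationSubring :=
    { toFun := fun y => ⟨ψ y, y.2⟩
      map_one' := Subtype.ext (map_one ψ)
      map_mul' := fun y z => Subtype.ext (map_mul ψ _ _)
      map_zero' := Subtype.ext (map_zero ψ)
      map_add' := fun y z => Subtype.ext (map_add ψ _ _) }
  have hcoe : ∀ y, ((i y : V.valuationSubring) : E) = ψ (y : k) := fun _ => rfl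
  have hinj : Function.Injective i := by
    intro y z hyz
    apply Subtype.ext
    apply ψ.injective
    have := congrArg Subtype.val hyz
    exact this
  have hloc : IsLocalHom i := by
    refine ⟨fun y hy => ?_⟩
    have h1 := (Valuation.Integers.isUnit_iff_valuation_eq_one
      (Valuation.valuationSubring.integers V)).1 hy
    exact (Valuation.Integers.isUnit_iff_valuation_eq_one
      (Valuation.valuationSubring.integers (V.comap ψ))).2 h1
  have hfin : Finite (IsLocalRing.ResidueField (V.comap ψ).valuationSubring) :=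
    Finite.of_injective _ (IsLocalRing.ResidueField.map i).injective
  obtain ⟨f, hf⟩ : ∃ f : (V.comap ψ).valuationSubring[X],
      f.map (algebraMap (V.comap ψ).valuationSubring k) = g := by
    have h1 : g ∈ Polynomial.lifts (algebraMap (V.comap ψ).valuationSubring k) := by
      rw [Polynomial.lifts_iff_coeff_lifts]
      intro j
      have h3 : ψ (g.coeff j) = (gB.coeff j : E) := by
        have := congrArg (fun q => q.coeff j) hg
        simp only [coeff_map] at this
        exact this.symm
      exact ⟨⟨g.coeff j, by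
        change V (ψ (g.coeff j)) ≤ 1
        rw [h3]
        exact (gB.coeff j).2⟩, rfl⟩
    obtain ⟨f, hf⟩ := (Polynomial.mem_lifts _).1 h1
    exact ⟨f, hf⟩
  have hfB : f.map i = gB := by
    apply Polynomial.map_injective (algebraMap V.valuationSubring E) Subtype.val_injective
    rw [hg, ← hf, Polynomial.map_map, Polynomial.map_map]
    rfl
  have hlcf : IsUnit f.leadingCoeff := by
    have h1 : i f.leadingCoeff = gB.leadingCoeff := by
      rw [← hfB]
      exact (leadingCoeff_map_of_injective hinj f).symm
    rw [← h1] at hlc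
    exact hloc.map_nonunit _ hlc
  have hfi : Irreducible (f.map (IsLocalRing.residue (V.comap ψ).valuationSubring)) := by
    refine Pool.Agent.TH377.Sup.irr_of_map (IsLocalRing.ResidueField.map i) _ ?_
    rw [Polynomial.map_map, IsLocalRing.ResidueField.map_comp_residue, ← Polynomial.map_map, hfB]
    exact hirr
  have hn1 : n = 1 ∨ n = -1 := by
    have e1 : V (ψ (t : k)) = 1 := (Valuation.Integers.isUnit_iff_valuation_eq_one
      (Valuation.valuationSubring.integers (V.comap ψ))).1 ht
    have e2 : ψ (ϖ : k) ≠ 0 := by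
      rw [Ne, map_eq_zero]
      intro h
      exact hϖ.ne_zero (Subtype.ext h)
    have e3 : V (ψ (ϖ : k)) = exp (log (V (ψ (ϖ : k)))) :=
      (exp_log ((Valuation.ne_zero_iff V).2 e2)).symm
    have e4 : V (ψ a) = exp (n * log (V (ψ (ϖ : k)))) := by
      rw [hat, map_mul, map_mul, map_zpow₀, map_zpow₀, e1, one_mul]
      conv_lhs => rw [e3]
      rw [← exp_zsmul, smul_eq_mul]
    rw [ha, exp_inj] at e4
    have e5 : IsUnit n := by
      refine IsUnit.of_mul_eq_one (-log (V (ψ (ϖ : k)))) ?_
      rw [mul_neg, ← e4]
      norm_num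
    exact Int.isUnit_iff.1 e5
  have h2A : IsUnit (2 : (V.comap ψ).valuationSubring) := by
    refine (Valuation.Integers.isUnit_iff_valuation_eq_one
      (Valuation.valuationSubring.integers (V.comap ψ))).2 ?_
    change V (ψ 2) = 1
    rw [map_ofNat, h2]
  exact ⟨{ A := (V.comap ψ).valuationSubring
           f := f
           hfin := hfin
           h2 := h2A
           hf := hf
           hlc := hlcf
           hirr := hfi
           ϖ := ϖ
           t := t
           n := n
           hϖ := hϖ
           ht := ht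
           hn := hn1
           ha := hat }⟩

/-- the data at a place of a finite extension `L` of `k` -/
theorem dvr_ext {R : Type u} {k : Type v} {L : Type y} [CommRing R] [IsDomain R]
    [IsDiscreteValuationRing R] [Field k] [Algebra R k] [IsFractionRing R k] [CharZero k]
    [Field L] [Algebra k L] [FiniteDimensional k L] (l : ℕ) (hl : l.Prime) :
    ∃ (A : Type y) (_ : CommRing A) (_ : IsDomain A)
      (_ : IsDiscreteValuationRing A) (_ : Algebra A L) (_ : IsFractionRing A L) (j : R →+* A)
      (e fd : ℕ),
      (Finite (IsLocalRing.ResidueField R) → Finite (IsLocalRing.ResidueField A)) ∧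
      (algebraMap A L).comp j = (algebraMap k L).comp (algebraMap R k) ∧ e ≠ 0 ∧ fd ≠ 0 ∧
      padicValNat l e + padicValNat l fd ≤ padicValNat l (Module.finrank k L) ∧
      (∀ p : R[X], (p.map (IsLocalRing.residue R)).Separable →
        ((p.map j).map (IsLocalRing.residue A)).Separable) ∧
      (∀ (p : R[X]) (N : ℕ), FactorDiv N (p.map (IsLocalRing.residue R)) →
        ∀ h : (IsLocalRing.ResidueField A)[X], Irreducible h →
          h ∣ (p.map j).map (IsLocalRing.residue A) → N ∣ fd * h.natDegree) ∧
      ∀ ϖ0 t0 : R, Irreducible ϖ0 → IsUnit t0 → ∀ m : ℤ, ∃ ϖ t : A, Irreducible ϖ ∧ IsUnit t ∧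
        algebraMap k L (algebraMap R k t0 * algebraMap R k ϖ0 ^ m) =
          algebraMap A L t * algebraMap A L ϖ ^ ((e : ℤ) * m) := by
  classical
  let _ : Algebra R L := ((algebraMap k L).comp (algebraMap R k)).toAlgebra
  have hstR : IsScalarTower R k L := IsScalarTower.of_algebraMap_eq (fun _ => rfl)
  have hn0 : Module.finrank k L ≠ 0 := by
    have : 0 < Module.finrank k L := Module.finrank_pos
    exact this.ne'
  have hfact : Fact l.Prime := ⟨hl⟩
  set a := padicValNat l (Module.finrank k L) with ha
  -- the integral closure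
  have hsep : Algebra.IsSeparable k L := inferInstance
  let S := integralClosure R L
  have hfr : IsFractionRing S L := integralClosure.isFractionRing_of_finite_extension k L
  have hded : IsDedekindDomain S := integralClosure.isDedekindDomain R k L
  have hfinS : Module.Finite R S := IsIntegralClosure.finite R k L S
  have hRL : Function.Injective (algebraMap R L) := by
    rw [IsScalarTower.algebraMap_eq R k L]
    exact (algebraMap k L).injective.comp (IsFractionRing.injective R k)
  have hRS : Function.Injective (algebraMap R S) := by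
    intro x y hxy
    apply hRL
    rw [IsScalarTower.algebraMap_apply R S L, hxy, ← IsScalarTower.algebraMap_apply R S L]
  have htf : Module.IsTorsionFree R S :=
    (Module.isTorsionFree_iff_algebraMap_injective (R := R) (A := S)).2 hRS
  have hflat : Module.Flat R S := inferInstance
  set p : Ideal R := IsLocalRing.maximalIdeal R with hp
  have hp0 : p ≠ ⊥ := IsDiscreteValuationRing.not_a_field R
  have hprime : p.IsPrime := inferInstance
  have hmaxp : p.IsMaximal := inferInstance
  have hrank : Module.finrank R S = Module.finrank k L := (IsFractionRing.finrank_eq R k S L).symm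
  have hft : Finite (p.primesOver S) := inferInstance
  let _ : Fintype (p.primesOver S) := Fintype.ofFinite _
  obtain ⟨q, hq⟩ : ∃ q : p.primesOver S,
      ¬ l ^ (a + 1) ∣ q.1.ramificationIdx R * q.1.inertiaDeg R := by
    by_contra h1
    rw [not_exists] at h1
    have h2 : l ^ (a + 1) ∣ Module.finrank k L := by
      rw [← hrank, ← Ideal.sum_ramification_inertia_eq_finrank p S]
      exact Finset.dvd_sum fun q _ => not_not.1 (h1 q)
    exact pow_succ_padicValNat_not_dvd hn0 h2
  set e := q.1.ramificationIdx R with he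
  set fd := q.1.inertiaDeg R with hfd
  have he0 : e ≠ 0 := by
    intro h0
    apply hq
    rw [h0, zero_mul]
    exact dvd_zero _
  have hf0 : fd ≠ 0 := by
    intro h0
    apply hq
    rw [h0, mul_zero]
    exact dvd_zero _
  have hef : padicValNat l e + padicValNat l fd ≤ a := by
    by_contra h1
    rw [not_le] at h1
    apply hq
    rw [padicValNat_dvd_iff_le (mul_ne_zero he0 hf0), padicValNat.mul he0 hf0]
    exact h1
  have hqp : q.1.IsPrime := q.2.1
  have hlies : q.1.LiesOver p := q.2.2
  have hq0 : q.1 ≠ ⊥ := by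
    intro h
    apply hp0
    have h1 := hlies.over
    rw [h] at h1
    rw [h1]
    exact Ideal.comap_bot_of_injective _ hRS
  have hqm : q.1.IsMaximal := Ideal.IsPrime.isMaximal hqp hq0
  obtain ⟨A, iA1, iA2, iA3, iA4, j, ε, hfrA, hjL, hjr, hbn⟩ :=
    Pool.Agent.TH377.NC.local_ringS (L := L) q.1 hqp hq0
  let _ : Field (R ⧸ p) := Ideal.Quotient.field _
  let _ : Field (S ⧸ q.1) := Ideal.Quotient.field _
  have hfinq : FiniteDimensional (R ⧸ p) (S ⧸ q.1) := inferInstance
  set ι : (R ⧸ p) →+* (S ⧸ q.1) := algebraMap (R ⧸ p) (S ⧸ q.1) with hι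
  have hmap : ∀ g : R[X], ((g.map (algebraMap R S)).map j).map (IsLocalRing.residue A) =
      ((g.map (Ideal.Quotient.mk p)).map ι).map
        (ε : (S ⧸ q.1) →+* IsLocalRing.ResidueField A) := by
    intro g
    rw [Polynomial.map_map, Polynomial.map_map, Polynomial.map_map, Polynomial.map_map]
    congr 1
    rw [hjr]
    rfl
  have hfdeq : fd = Module.finrank (R ⧸ p) (S ⧸ q.1) := Ideal.inertiaDeg_eq_of_isMaximal p q.1
  refine ⟨A, iA1, iA2, iA3, iA4, hfrA, j.comp (algebraMap R S), e, fd, ?_, ?_, he0, hf0, hef,
    ?_, ?_, ?_⟩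
  · intro hfinR
    have h1 : Finite (R ⧸ p) := hfinR
    have h2 : Finite (S ⧸ q.1) := Module.finite_of_finite (R ⧸ p)
    exact Finite.of_equiv _ ε.toEquiv
  · rw [← RingHom.comp_assoc, hjL]
    rfl
  · intro g hs
    rw [← Polynomial.map_map (algebraMap R S), hmap]
    exact (hs.map (f := ι)).map
  · intro g N hσ h hirr hdvd
    rw [← Polynomial.map_map (algebraMap R S), hmap] at hdvd
    -- transport along the isomorphism
    have h1 : Irreducible (h.map (ε.symm : IsLocalRing.ResidueField A →+* (S ⧸ q.1))) :=
      (MulEquiv.irreducible_iff (Polynomial.mapEquiv ε.symm)).2 hirr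
    have h2 : h.map (ε.symm : IsLocalRing.ResidueField A →+* (S ⧸ q.1)) ∣
        (g.map (Ideal.Quotient.mk p)).map ι := by
      have h3 := Polynomial.map_dvd (ε.symm : IsLocalRing.ResidueField A →+* (S ⧸ q.1)) hdvd
      rw [Polynomial.map_map (ε : (S ⧸ q.1) →+* IsLocalRing.ResidueField A)] at h3
      have h4 : (ε.symm : IsLocalRing.ResidueField A →+* (S ⧸ q.1)).comp
          (ε : (S ⧸ q.1) →+* IsLocalRing.ResidueField A) = RingHom.id _ := by
        ext z
        simp
      rwa [h4, Polynomial.map_id] at h3
    have h3 := Pool.Agent.TH377.NC.factor_ext (g.map (Ideal.Quotient.mk p)) _ hσ _ h1 h2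
    rwa [natDegree_map, ← hfdeq] at h3
  · intro ϖ0 t0 hϖ0 ht0 m
    have hϖS : algebraMap R S ϖ0 ≠ 0 := by
      intro h
      exact hϖ0.ne_zero (hRS (by rw [h, map_zero]))
    obtain ⟨ϖ, t, n, hϖ, ht, hb2, hb3⟩ := hbn (algebraMap R S ϖ0) hϖS
    have hspan : p = Ideal.span {ϖ0} := hϖ0.maximalIdeal_eq
    have hmp : p.map (algebraMap R S) = Ideal.span {algebraMap R S ϖ0} := by
      rw [hspan, Ideal.map_span, Set.image_singleton]
    have hmapp : ∀ i, p.map (algebraMap R S) ≤ q.1 ^ i ↔ i ≤ n := by
      intro i
      rw [← hb3, hmp, Ideal.span_singleton_le_iff_mem]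
    have hen : e = n := by
      have h1 : p.ramificationIdx' q.1 = n :=
        Ideal.ramificationIdx'_spec ((hmapp n).2 le_rfl) (fun h => by
          have := (hmapp (n + 1)).1 h
          omega)
      have h2 : p.ramificationIdx' q.1 = q.1.ramificationIdx R :=
        Ideal.ramificationIdx'_eq_ramificationIdx _ _ hp0
      rw [he, ← h2, h1]
    have htu : IsUnit (j (algebraMap R S t0)) := (ht0.map _).map j
    have hL0 : algebraMap R L t0 = algebraMap A L (j (algebraMap R S t0)) := by
      rw [IsScalarTower.algebraMap_apply R S L, ← hjL, RingHom.comp_apply]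
    obtain ⟨tu, htu'⟩ := ht
    have htinv : ∀ m : ℤ, algebraMap A L t ^ m = algebraMap A L ((tu ^ m : Aˣ) : A) := by
      intro m
      rw [← htu']
      have h := congrArg Units.val (map_zpow (Units.map (algebraMap A L : A →* L)) tu m)
      rw [Units.val_zpow_eq_zpow_val] at h
      exact h.symm
    refine ⟨ϖ, j (algebraMap R S t0) * ((tu ^ m : Aˣ) : A), hϖ,
      htu.mul (Units.isUnit _), ?_⟩
    rw [map_mul, map_zpow₀]
    change algebraMap R L t0 * algebraMap R L ϖ0 ^ m = _
    rw [hL0, map_mul, ← htinv, IsScalarTower.algebraMap_apply R S L ϖ0, hb2, ← hen, mul_zpow,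
      mul_assoc, ← zpow_natCast, ← zpow_mul]

end Pool.Agent.XE31.SC
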