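import Pool.Agent.XE31.SD

/-!
# Superelliptic curves over the finite extensions of a discretely valued field
-/

set_option autoImplicit false
set_option maxHeartbeats 400000

namespace Pool.Agent.XE31.SC

open Polynomial WithZero Pool.Agent.W620.SC Pool.Agent.W623.SecC Pool.Agent.TH120.Sec
open Pool.Agent.TH377.LocG

universe u v w x y z

/-- the curve `a yⁿ = f(x)` has neither points nor sections -/
def FineN {k : Type u} [Field k] (n : ℕ) (a : k) (f : k[X]) : Prop :=
  (∀ (F : Type v) (Ω : Type w) [Field F] [Field Ω] [Algebra k F] [Algebra F Ω] [Algebra k Ω]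
    [IsScalarTower k F Ω] [IsAlgClosed Ω] [Algebra.IsAlgebraic F Ω]
    (U : Set (ValuationSubring F)), (∀ O ∈ U, ∀ c : k, algebraMap k F c ∈ O) →
    ∀ x y : F, algebraMap k F a * y ^ n = aeval x f → IsEmpty (GSection k F Ω U)) ∧
  (∀ x y : k, a * y ^ n ≠ f.eval x) ∧ ∀ r : k, a * r ^ Nat.gcd n f.natDegree ≠ f.leadingCoeff

/-- passing from `l` to a multiple `n` -/
lemma fineN_of_dvd {k : Type u} [Field k] (l n : ℕ) (a : k) (f : k[X]) (hn : l ∣ n)
    (hf : l ∣ f.natDegree)
    (h1 : ∀ (F : Type v) (Ω : Type w) [Field F] [Field Ω] [Algebra k F] [Algebra F Ω] [Algebra k Ω]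
      [IsScalarTower k F Ω] [IsAlgClosed Ω] [Algebra.IsAlgebraic F Ω]
      (U : Set (ValuationSubring F)), (∀ O ∈ U, ∀ c : k, algebraMap k F c ∈ O) →
      ∀ x y : F, algebraMap k F a * y ^ l = aeval x f → IsEmpty (GSection k F Ω U))
    (h2 : ∀ x y : k, a * y ^ l ≠ f.eval x) (h3 : ∀ r : k, a * r ^ l ≠ f.leadingCoeff) :
    FineN.{u, v, w} n a f := by
  obtain ⟨n', rfl⟩ := hn
  refine ⟨?_, ?_, ?_⟩
  · intro F Ω _ _ _ _ _ _ _ _ U hU x y hxy
    refine h1 F Ω U hU x (y ^ n') ?_
    rw [← hxy, ← pow_mul, mul_comm n' l]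
  · intro x y hxy
    apply h2 x (y ^ n')
    rw [← hxy, ← pow_mul, mul_comm n' l]
  · intro r hr
    obtain ⟨e, he⟩ := Nat.dvd_gcd (Dvd.intro n' rfl : l ∣ l * n') hf
    apply h3 (r ^ e)
    rw [← hr, ← pow_mul, mul_comm e l, he]

/-- the arithmetic -/
lemma arith2 (l d D f r c a : ℕ) (hl : l.Prime) (hD : D ≠ 0) (hf : f ≠ 0)
    (hr : r ≠ 0) (haD : a < padicValNat l D) (hef : c + padicValNat l f ≤ a)
    (h : d ∣ f * r) (hDd : l ≠ 2 ∧ D ∣ d ∨ 2 * D ∣ d) :
    Nat.gcd 2 (l ^ (c + 1)) * l ^ (c + 1) ∣ r := by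
  have hfact : Fact l.Prime := ⟨hl⟩
  by_cases hl2 : l = 2
  · subst hl2
    have h2 : 2 ∣ D := by
      have h3 : 2 ^ 1 ∣ D := (padicValNat_dvd_iff_le hD).2 (by omega)
      simpa using h3
    refine Pool.Agent.TH377.NC.arith' 2 D f r c a hl hD hf hr haD hef ?_
    rw [Nat.gcd_eq_left h2]
    rcases hDd with h4 | h4
    · exact absurd rfl h4.1
    · exact h4.trans h
  · have h1 : Nat.gcd 2 (l ^ (c + 1)) = 1 := by
      refine Nat.Coprime.pow_right _ ?_
      exact (Nat.coprime_primes Nat.prime_two hl).2 (Ne.symm hl2)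
    rw [h1, one_mul]
    have h5 : D ∣ f * r := by
      rcases hDd with h4 | h4
      · exact h4.2.trans h
      · exact (Dvd.intro_left _ rfl).trans (h4.trans h)
    have h4 : padicValNat l D ≤ padicValNat l (f * r) :=
      (padicValNat_dvd_iff_le (mul_ne_zero hf hr)).1 (pow_padicValNat_dvd.trans h5)
    rw [padicValNat.mul hf hr] at h4
    exact (padicValNat_dvd_iff_le hr).2 (by omega)

/-- an irreducible polynomial has only one factor -/
lemma factorDiv_irr {κ : Type*} [Field κ] (P : κ[X]) (h : Irreducible P) :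
    FactorDiv P.natDegree P := by
  intro g hg hgP
  have h1 : Associated g P := hg.associated_of_dvd h hgP
  rw [natDegree_eq_of_degree_eq (degree_eq_degree_of_associated h1)]

section

variable {k : Type u} [Field k] [CharZero k] {g : k[X]} {a : k} (Z : Dvr k g a)

lemma Dvr.natDegree_f : Z.f.natDegree = g.natDegree := by
  have h1 := congrArg Polynomial.natDegree Z.hf
  rwa [natDegree_map_eq_of_injective (IsFractionRing.injective Z.A k)] at h1

lemma Dvr.natDegree_res : (Z.f.map (IsLocalRing.residue Z.A)).natDegree = g.natDegree := by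
  rw [← Z.natDegree_f]
  exact natDegree_map_of_leadingCoeff_ne_zero _ (Z.hlc.map _).ne_zero

lemma Dvr.sep : (Z.f.map (IsLocalRing.residue Z.A)).Separable := by
  have hfin := Z.hfin
  have hperf : PerfectField (IsLocalRing.ResidueField Z.A) := inferInstance
  exact PerfectField.separable_of_irreducible Z.hirr

lemma Dvr.factorDiv : FactorDiv g.natDegree (Z.f.map (IsLocalRing.residue Z.A)) := by
  rw [← Z.natDegree_res]
  exact factorDiv_irr _ Z.hirr

include Z in
/-- nothing over the extensions of degree not divisible by `D` -/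
theorem Dvr.fineN (h3 : 3 ≤ g.natDegree) (L : Type y) [Field L] [Algebra k L]
    [FiniteDimensional k L] (D n : ℕ) (hDn : D ∣ n)
    (hDd : D ∣ g.natDegree ∧ (Odd D ∨ D = 2) ∨ 2 * D ∣ g.natDegree)
    (hL : ¬ D ∣ Module.finrank k L) :
    FineN.{y, v, w} n (algebraMap k L a) (g.map (algebraMap k L)) := by
  classical
  have hd0 : g.natDegree ≠ 0 := by omega
  have hDd' : D ∣ g.natDegree := by
    rcases hDd with h | h
    · exact h.1
    · exact (Dvd.intro_left _ rfl).trans h
  have hD0 : D ≠ 0 := by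
    rintro rfl
    exact hd0 (Nat.zero_dvd.1 hDd')
  have hn0 : Module.finrank k L ≠ 0 := by
    have : 0 < Module.finrank k L := Module.finrank_pos
    exact this.ne'
  have hczL : CharZero L := charZero_of_injective_algebraMap (algebraMap k L).injective
  obtain ⟨l, hl, hlt⟩ := Pool.Agent.TH377.NC.exists_prime_lt D _ hD0 hn0 hL
  have hfact : Fact l.Prime := ⟨hl⟩
  obtain ⟨A, _, _, _, _, _, j, e, fd, hfin, hcomp, he0, hf0, hef, hsep, hfac, hunif⟩ :=
    dvr_ext (R := Z.A) (k := k) (L := L) l hl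
  have hfinA := hfin Z.hfin
  obtain ⟨ϖ, t, hϖ, ht, hat⟩ := hunif Z.ϖ Z.t Z.hϖ Z.ht Z.n
  rw [← Z.ha] at hat
  set f : A[X] := Z.f.map j with hf
  have hjinj : Function.Injective j := by
    intro x y hxy
    have h1 : (algebraMap A L).comp j x = (algebraMap A L).comp j y := by
      rw [RingHom.comp_apply, RingHom.comp_apply, hxy]
    rw [hcomp] at h1
    exact IsFractionRing.injective Z.A k ((algebraMap k L).injective h1)
  have hfL : f.map (algebraMap A L) = g.map (algebraMap k L) := by
    rw [hf, Polynomial.map_map, hcomp, ← Polynomial.map_map, Z.hf]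
  have hfdeg : f.natDegree = g.natDegree := by
    rw [hf, natDegree_map_eq_of_injective hjinj, Z.natDegree_f]
  have hlc : IsUnit f.leadingCoeff := by
    rw [hf, leadingCoeff_map_of_injective hjinj]
    exact Z.hlc.map j
  have hfs : (f.map (IsLocalRing.residue A)).Separable := hsep Z.f Z.sep
  have hfr : (f.map (IsLocalRing.residue A)).natDegree = g.natDegree := by
    rw [← hfdeg]
    exact natDegree_map_of_leadingCoeff_ne_zero _ (hlc.map _).ne_zero
  have hfd : ∀ h : (IsLocalRing.ResidueField A)[X], Irreducible h →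
      h ∣ f.map (IsLocalRing.residue A) → g.natDegree ∣ fd * h.natDegree :=
    hfac Z.f _ Z.factorDiv
  have hgL : (g.map (algebraMap k L)).natDegree = g.natDegree := natDegree_map _
  have hglc : (g.map (algebraMap k L)).leadingCoeff = algebraMap A L f.leadingCoeff := by
    rw [← hfL, leadingCoeff_map_of_injective (IsFractionRing.injective A L)]
  by_cases hspec : l = 2 ∧ ¬ 2 * D ∣ g.natDegree
  · obtain ⟨rfl, hspec⟩ := hspec
    have h2D : 2 ∣ D := by
      have h3 : 2 ^ 1 ∣ D := (padicValNat_dvd_iff_le hD0).2 (by omega)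
      simpa using h3
    have hD2 : D = 2 := by
      rcases hDd with h | h
      · rcases h.2 with h4 | h4
        · have h5 := Nat.odd_iff.1 h4
          omega
        · exact h4
      · exact absurd h hspec
    subst hD2
    rw [padicValNat_self] at hlt
    have hevd : Even f.natDegree := by
      rw [hfdeg]
      exact even_iff_two_dvd.2 hDd'
    have h4d : 4 ≤ f.natDegree := by
      obtain ⟨i, hi⟩ := hevd
      omega
    have hfdodd : ¬ 2 ∣ fd := by
      intro h
      have h4 : 1 ≤ padicValNat 2 fd := one_le_padicValNat_of_dvd hf0 h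
      omega
    have heodd : Odd ((e : ℤ) * Z.n) := by
      have h4 : Odd (e : ℤ) := by
        rw [Int.odd_coe_nat, ← Nat.not_even_iff_odd, even_iff_two_dvd]
        intro h
        have h4 : 1 ≤ padicValNat 2 e := one_le_padicValNat_of_dvd he0 h
        omega
      refine h4.mul ?_
      rcases Z.hn with h5 | h5
      · rw [h5]; exact odd_one
      · rw [h5]; exact odd_neg_one
    have hrf : ∀ b, f.eval b ∉ IsLocalRing.maximalIdeal A := by
      intro b hb
      have h1 : (f.map (IsLocalRing.residue A)).IsRoot (IsLocalRing.residue _ b) := by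
        rw [IsRoot.def, eval_map, eval₂_at_apply]
        exact (IsLocalRing.residue_eq_zero_iff _).2 hb
      have h4 := hfd _ (irreducible_X_sub_C _) (dvd_iff_isRoot.2 h1)
      rw [natDegree_X_sub_C, mul_one] at h4
      exact hfdodd (hDd'.trans h4)
    have h2A : IsUnit (2 : A) := by
      have h4 := Z.h2.map j
      rwa [map_ofNat] at h4
    refine fineN_of_dvd 2 n _ _ hDn (by rwa [hgL]) ?_ ?_ ?_
    · intro F Ω _ _ _ _ _ _ _ _ U hU x y hxy
      refine local_no_section h2A f hlc hfs hevd h4d hrf ϖ hϖ _ t ht _ heodd hat U hU x y ?_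
      rw [hxy, hfL]
    · intro x y
      have := no_affine_point ϖ hϖ f hlc hevd hrf _ t ht _ heodd hat x y
      rwa [hfL] at this
    · intro r
      rw [hglc]
      exact no_infinite_point ϖ hϖ f hlc _ t ht _ heodd hat r
  · have hDd2 : l ≠ 2 ∧ D ∣ g.natDegree ∨ 2 * D ∣ g.natDegree := by
      by_cases h : 2 * D ∣ g.natDegree
      · exact Or.inr h
      · exact Or.inl ⟨fun h4 => hspec ⟨h4, h⟩, hDd'⟩
    set c := padicValNat l e with hc
    set ℓ := l ^ (c + 1) with hℓ
    have hℓ0 : 0 < ℓ := pow_pos hl.pos _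
    have hℓD : ℓ ∣ D := (padicValNat_dvd_iff_le hD0).2 (by omega)
    have hFD : FactorDiv (Nat.gcd 2 ℓ * ℓ) (f.map (IsLocalRing.residue A)) := by
      intro h hirr hdvd
      exact arith2 l g.natDegree D fd h.natDegree c (padicValNat l (Module.finrank k L)) hl hD0 hf0
        hirr.natDegree_pos.ne' hlt hef (hfd h hirr hdvd) hDd2
    have hm : ¬ (ℓ : ℤ) ∣ (e : ℤ) * Z.n := by
      intro h
      have h1 : ℓ ∣ e := by
        have h2 : (ℓ : ℤ) ∣ (e : ℤ) := by
          rcases Z.hn with h5 | h5
          · rwa [h5, mul_one] at h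
          · rwa [h5, mul_neg, mul_one, Int.dvd_neg] at h
        exact_mod_cast h2
      exact pow_succ_padicValNat_not_dvd he0 h1
    have hp1 : ∏ _i : Unit, f = f := by simp
    have hp2 : ∏ _i : Unit, f ^ 1 = f := by simp
    refine fineN_of_dvd ℓ n _ _ (hℓD.trans hDn) (by rw [hgL]; exact hℓD.trans hDd') ?_ ?_ ?_
    · intro F Ω _ _ _ _ _ _ _ _ U hU x y hxy
      refine local_U ℓ hℓ0 (fun _ : Unit => f) (fun _ => 1) (fun _ => hlc) (by rwa [hp1])
        (by rwa [hp1]) ϖ hϖ _ t ht _ hm hat (fun _ => Nat.coprime_one_right _) U hU x y ?_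
      rw [hxy, hp2, hfL]
    · intro x y
      have := local_P ℓ hℓ0 (fun _ : Unit => f) (fun _ => 1) (fun _ => hlc) (by rwa [hp1])
        (by rwa [hp1]) ϖ hϖ _ t ht _ hm hat x y
      rwa [hp2, hfL] at this
    · intro r
      have hq1 : ∏ _i : Unit, (C f.leadingCoeff : A[X]) = C f.leadingCoeff := by simp
      have hq2 : ∏ _i : Unit, (C f.leadingCoeff : A[X]) ^ 1 = C f.leadingCoeff := by simp
      have hu : IsUnit ((C f.leadingCoeff : A[X]).map (IsLocalRing.residue A)) := by
        rw [map_C]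
        exact isUnit_C.2 (hlc.map _)
      have := local_P ℓ hℓ0 (fun _ : Unit => (C f.leadingCoeff : A[X])) (fun _ => 1)
        (fun _ => by rwa [leadingCoeff_C]) (by
          rw [hq1, map_C, separable_C]
          exact hlc.map _)
        (by
          rw [hq1]
          intro h hirr hdvd
          exact absurd (isUnit_of_dvd_unit hdvd hu) hirr.not_isUnit) ϖ hϖ _ t ht _ hm hat 0 r
      rw [hq2, map_C, eval_C] at this
      rwa [hglc]

end

end Pool.Agent.XE31.SC
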