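import Pool.Agent.XE31.SE

/-!
# The discrete valuation ring of an embedding close to a specialisation
-/

set_option autoImplicit false
set_option maxHeartbeats 400000

namespace Pool.Agent.XE31.SC

open Polynomial WithZero NumberField IsDedekindDomain Pool.Agent.W858.SF

universe u v w x y z

lemma Dvr.irr {k : Type u} [Field k] {g : k[X]} {a : k} (Z : Dvr k g a) : Irreducible g := by
  obtain ⟨u, hu⟩ := Z.hlc
  have hmon : (C ((u⁻¹ : (Z.A)ˣ) : Z.A) * Z.f).Monic := by
    rw [Monic, leadingCoeff_mul, leadingCoeff_C, ← hu, Units.inv_mul]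
  have h4 : Irreducible (C ((u⁻¹ : (Z.A)ˣ) : Z.A) * Z.f) := by
    refine hmon.irreducible_of_irreducible_map (IsLocalRing.residue Z.A) _ ?_
    rw [Polynomial.map_mul, map_C]
    exact (irreducible_isUnit_mul (isUnit_C.2 ((u⁻¹).isUnit.map _))).2 Z.hirr
  have h5 := (hmon.irreducible_iff_irreducible_map_fraction_map (K := k)).1 h4
  rw [Polynomial.map_mul, map_C, Z.hf] at h5
  exact (irreducible_isUnit_mul (isUnit_C.2 ((u⁻¹).isUnit.map _))).1 h5

lemma Dvr.ne_zero {k : Type u} [Field k] {g : k[X]} {a : k} (Z : Dvr k g a) : a ≠ 0 := by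
  rw [Z.ha]
  refine mul_ne_zero ?_ (zpow_ne_zero _ ?_)
  · rw [Ne, map_eq_zero_iff _ (IsFractionRing.injective Z.A k)]
    exact Z.ht.ne_zero
  · rw [Ne, map_eq_zero_iff _ (IsFractionRing.injective Z.A k)]
    exact Z.hϖ.ne_zero

theorem dvr_near {L : Type x} [Field L] [NumberField L] (v : HeightOneSpectrum (𝓞 L))
    {k : Type u} [Field k] [CharZero k] (ψ : k →+* v.adicCompletion L)
    (h2 : (2 : 𝓞 L) ∉ v.asIdeal) (g : k[X]) (g' : (𝓞 L)[X])
    (hg : ∀ j, vv v (ψ (g.coeff j) -
      algebraMap L (v.adicCompletion L) (algebraMap (𝓞 L) L (g'.coeff j))) ≤ exp (-2))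
    (hlc : g'.coeff g.natDegree ∉ v.asIdeal)
    (hirr : Irreducible (g'.map (Ideal.Quotient.mk v.asIdeal))) (a : k) (b : 𝓞 L)
    (hab : vv v (ψ a - algebraMap L (v.adicCompletion L) (algebraMap (𝓞 L) L b)) ≤ exp (-2))
    (hb : b ∈ v.asIdeal) (hb' : b ∉ v.asIdeal ^ 2) : Nonempty (Dvr k g a) := by
  classical
  have hfinres := finite_residue v
  have hmax : v.asIdeal.IsMaximal := v.isMaximal
  let _ := Ideal.Quotient.field v.asIdeal
  obtain ⟨θ, hθ, hθr⟩ := exists_residue_map v
  have hθinj : Function.Injective θ := θ.injective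
  have hγ2 : (exp (-2) : ℤᵐ⁰) < 1 := by
    rw [← exp_zero, exp_lt_exp]
    omega
  have hint : ∀ z : 𝓞 L, vv v (algebraMap L (v.adicCompletion L) (algebraMap (𝓞 L) L z)) ≤ 1 := by
    intro z
    rw [vv_algebraMap]
    exact HeightOneSpectrum.valuation_le_one v z
  have hψ1 : ∀ j, vv v (ψ (g.coeff j)) ≤ 1 := by
    intro j
    have h1 : ψ (g.coeff j) = (ψ (g.coeff j) -
      algebraMap L (v.adicCompletion L) (algebraMap (𝓞 L) L (g'.coeff j))) +
      algebraMap L (v.adicCompletion L) (algebraMap (𝓞 L) L (g'.coeff j)) := by ring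
    rw [h1]
    exact (Valuation.map_add _ _ _).trans (max_le ((hg j).trans hγ2.le) (hint _))
  obtain ⟨gB, hgB⟩ : ∃ gB : (vv v).valuationSubring[X],
      gB.map (algebraMap (vv v).valuationSubring (v.adicCompletion L)) = g.map ψ := by
    have h1 : g.map ψ ∈ Polynomial.lifts
        (algebraMap (vv v).valuationSubring (v.adicCompletion L)) := by
      rw [Polynomial.lifts_iff_coeff_lifts]
      intro j
      rw [coeff_map]
      exact ⟨⟨ψ (g.coeff j), hψ1 j⟩, rfl⟩
    obtain ⟨f, hf⟩ := (Polynomial.mem_lifts _).1 h1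
    exact ⟨f, hf⟩
  have hcB : ∀ j, ((gB.coeff j : (vv v).valuationSubring) : v.adicCompletion L) =
      ψ (g.coeff j) := by
    intro j
    have h1 := congrArg (fun q => q.coeff j) hgB
    simp only [coeff_map] at h1
    exact h1
  have hres : ∀ j, IsLocalRing.residue _ (gB.coeff j) =
      θ (Ideal.Quotient.mk v.asIdeal (g'.coeff j)) := by
    intro j
    refine hθr _ _ ?_
    rw [hcB]
    exact (hg j).trans_lt hγ2
  have hgBr : gB.map (IsLocalRing.residue (vv v).valuationSubring) =
      (g'.map (Ideal.Quotient.mk v.asIdeal)).map θ := by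
    ext j
    rw [coeff_map, coeff_map, coeff_map, hres]
  have hgBd : gB.natDegree = g.natDegree := by
    have h1 := natDegree_map_eq_of_injective (f := algebraMap (vv v).valuationSubring
      (v.adicCompletion L)) Subtype.val_injective gB
    rw [hgB, natDegree_map] at h1
    exact h1.symm
  have hlcB : IsUnit gB.leadingCoeff := by
    have h5 : gB.leadingCoeff ∉ IsLocalRing.maximalIdeal (vv v).valuationSubring := by
      intro h6
      have h7 : IsLocalRing.residue _ gB.leadingCoeff = 0 :=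
        (IsLocalRing.residue_eq_zero_iff _).2 h6
      rw [leadingCoeff, hgBd, hres, map_eq_zero_iff _ hθinj, Ideal.Quotient.eq_zero_iff_mem] at h7
      exact hlc h7
    by_contra h6
    exact h5 ((IsLocalRing.mem_maximalIdeal _).2 h6)
  have ha : vv v (ψ a) = exp (-1) := by
    have h5 : ψ a = (ψ a - algebraMap L (v.adicCompletion L) (algebraMap (𝓞 L) L b)) +
      algebraMap L (v.adicCompletion L) (algebraMap (𝓞 L) L b) := by ring
    have h7 := Pool.Agent.TH377.Sup.val_eq_of v b hb hb'
    have h6 : vv v (ψ a - algebraMap L (v.adicCompletion L) (algebraMap (𝓞 L) L b)) <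
        vv v (algebraMap L (v.adicCompletion L) (algebraMap (𝓞 L) L b)) := by
      rw [vv_algebraMap, h7]
      refine hab.trans_lt ?_
      rw [exp_lt_exp]
      omega
    rw [h5, Valuation.map_add_eq_of_lt_right _ h6, vv_algebraMap, h7]
  refine dvr_val (vv v) ψ ?_ g gB hgB hlcB ?_ a ha
  · have h3 : (2 : v.adicCompletion L) =
        algebraMap L (v.adicCompletion L) (algebraMap (𝓞 L) L 2) := by
      rw [map_ofNat, map_ofNat]
    rw [h3, vv_algebraMap]
    exact (HeightOneSpectrum.valuation_eq_one_iff_notMem v).2 h2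
  · rw [hgBr]
    exact (MulEquiv.irreducible_iff (Polynomial.mapEquiv
      (RingEquiv.ofBijective θ ⟨hθinj, hθ⟩)).toMulEquiv).2 hirr

/-- coefficients in `R` -/
lemma near_of {R k L : Type} [CommRing R] [Field k] [Algebra R k] [Field L] [NumberField L]
    (v : HeightOneSpectrum (𝓞 L)) (P : R →+* L) (ψ : k →+* v.adicCompletion L)
    (h : Emb v P ψ) (r : R) (z : 𝓞 L)
    (hz : v.valuation L (P r - algebraMap (𝓞 L) L z) ≤ exp (-2)) :
    vv v (ψ (algebraMap R k r) -
      algebraMap L (v.adicCompletion L) (algebraMap (𝓞 L) L z)) ≤ exp (-2) := by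
  have h1 : ψ (algebraMap R k r) - algebraMap L (v.adicCompletion L) (algebraMap (𝓞 L) L z) =
      (ψ (algebraMap R k r) - algebraMap L (v.adicCompletion L) (P r)) +
      algebraMap L (v.adicCompletion L) (P r - algebraMap (𝓞 L) L z) := by
    rw [map_sub]
    ring
  rw [h1]
  refine (Valuation.map_add _ _ _).trans (max_le (h.2 _) ?_)
  rw [vv_algebraMap]
  exact hz

end Pool.Agent.XE31.SC
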