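import Pool.Agent.XE31.SF

/-!
# Density of the superelliptic curves without points and sections over many extensions
-/

set_option autoImplicit false
set_option maxHeartbeats 400000

namespace Pool.Agent.XE31.SC

open Polynomial WithZero NumberField IsDedekindDomain Pool.Agent.W858.SF
open Pool.Agent.TH377.Sup (pol GoodV good_iff badV_card pol_natDegree)
open Pool.Agent.TH120.Sec (red)

/-- the property of a vector of coefficients given by a discrete valuation ring -/
def DvrGood {R : Type} [CommRing R] (k : Type) [Field k] [Algebra R k] {d : ℕ}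
    (c : Fin (d + 2) → R) : Prop :=
  (pol fun i : Fin (d + 1) => algebraMap R k (c i.succ)).natDegree = d ∧
    Nonempty (Dvr k (pol fun i : Fin (d + 1) => algebraMap R k (c i.succ)) (algebraMap R k (c 0)))

lemma pol_coeff {κ : Type*} [CommRing κ] {d : ℕ} (c : Fin (d + 1) → κ) (j : ℕ) :
    (pol c).coeff j = if h : j < d + 1 then c ⟨j, h⟩ else 0 := by
  classical
  unfold pol
  rw [finset_sum_coeff]
  simp only [coeff_C_mul, coeff_X_pow]
  split_ifs with h
  · rw [Finset.sum_eq_single ⟨j, h⟩]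
    · simp
    · intro b _ hb
      have : j ≠ (b : ℕ) := fun h1 => hb (Fin.ext h1.symm)
      simp [this]
    · intro h1
      exact absurd (Finset.mem_univ _) h1
  · refine Finset.sum_eq_zero fun b _ => ?_
    have : j ≠ (b : ℕ) := by
      have := b.2
      omega
    simp [this]

theorem dvrGood_of {R k L : Type} [CommRing R] [Field k] [CharZero k] [Algebra R k] [Field L]
    [NumberField L] (v : HeightOneSpectrum (𝓞 L)) (P : R →+* L) (ψ : k →+* v.adicCompletion L)
    (h2 : (2 : 𝓞 L) ∉ v.asIdeal) (h : Emb v P ψ) {d : ℕ} (c : Fin (d + 2) → R)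
    (y : Fin (d + 2) → 𝓞 L) (hcy : NearV v P c y)
    (hy : red (v.asIdeal ^ 2) (d + 2) y ∈ GoodV v d) : DvrGood k c := by
  classical
  obtain ⟨g1, g2, g3⟩ := good_iff v d y hy
  have hnear : ∀ i, vv v (ψ (algebraMap R k (c i)) -
      algebraMap L (v.adicCompletion L) (algebraMap (𝓞 L) L (y i))) ≤ exp (-2) :=
    fun i => near_of v P ψ h (c i) (y i) (hcy i)
  have hunit : ∀ z : 𝓞 L, z ∉ v.asIdeal →
      vv v (algebraMap L (v.adicCompletion L) (algebraMap (𝓞 L) L z)) = 1 := by
    intro z hz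
    rw [vv_algebraMap]
    exact (HeightOneSpectrum.valuation_eq_one_iff_notMem v).2 hz
  have hγ2 : (exp (-2) : ℤᵐ⁰) < 1 := by
    rw [← exp_zero, exp_lt_exp]
    omega
  have hck : algebraMap R k (c (Fin.last d).succ) ≠ 0 := by
    intro h0
    have h1 := hnear (Fin.last d).succ
    rw [h0, map_zero, zero_sub, Valuation.map_neg, hunit _ g3.1] at h1
    exact absurd h1 (not_le.2 hγ2)
  have hdeg : (pol fun i : Fin (d + 1) => algebraMap R k (c i.succ)).natDegree = d :=
    pol_natDegree (fun i : Fin (d + 1) => algebraMap R k (c i.succ)) hck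
  refine ⟨hdeg, ?_⟩
  refine dvr_near v ψ h2 _ (pol fun i : Fin (d + 1) => y i.succ) ?_ ?_ ?_ _ (y 0) (hnear 0) g1 g2
  · intro j
    rw [pol_coeff, pol_coeff]
    split_ifs with hj
    · exact hnear _
    · rw [map_zero, map_zero, map_zero, sub_zero, map_zero]
      exact zero_le
  · rw [hdeg, pol_coeff, dif_pos (Nat.lt_succ_self d)]
    exact g3.1
  · have h5 : (pol fun i : Fin (d + 1) => y i.succ).map (Ideal.Quotient.mk v.asIdeal) =
        pol fun i : Fin (d + 1) => Ideal.Quotient.mk v.asIdeal (y i.succ) :=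
      Pool.Agent.TH377.Sup.pol_map _ _
    rw [h5]
    exact g3.2

/-- **Density.** -/
theorem dens_dvr {R k : Type} [CommRing R] [IsDomain R] [CharZero R] [Algebra.FiniteType ℤ R]
    [Field k] [Algebra R k] [IsFractionRing R k] (d : ℕ) (hd : 3 ≤ d) (ε : ℝ) (hε : 0 < ε) :
    ∃ I : Ideal R, Finite (R ⧸ I) ∧
      (Set.ncard ((fun (c : Fin (d + 2) → R) i => Ideal.Quotient.mk I (c i)) ''
        {c | ¬ DvrGood k c}) : ℝ) ≤ ε * (Nat.card (R ⧸ I) : ℝ) ^ (d + 2) := by
  have hcz : CharZero k := charZero_of_injective_algebraMap (IsFractionRing.injective R k)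
  have hδ1 : (1 / (4 * d) : ℝ) ≤ 1 := by
    have hdr : (3 : ℝ) ≤ d := by exact_mod_cast hd
    rw [div_le_one (by positivity)]
    linarith
  have hδ : (0 : ℝ) < 1 / (4 * d) := by
    have hdr : (3 : ℝ) ≤ d := by exact_mod_cast hd
    positivity
  refine dens_all (R := R) (k := k) (d + 2) 1 one_pos (1 / (4 * d) : ℝ) hδ hδ1
    (fun L _ _ v => GoodV v d) ?_ _ ?_ ε hε
  · intro L _ _ v _ _
    exact badV_card v d hd
  · intro L _ _ v P ψ h2 _ h c y hcy hy
    exact dvrGood_of v P ψ h2 h c y hcy hy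

end Pool.Agent.XE31.SC
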