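import Pool.Agent.TH120.Sec.DiagCount
import Pool.Agent.XE31.SF

/-!
# Diagonal curves: irreducible binomials over finite fields, and density
-/

set_option autoImplicit false
set_option maxHeartbeats 400000

namespace Pool.Agent.XE31.SC

open Polynomial WithZero NumberField IsDedekindDomain Pool.Agent.W858.SF
open Pool.Agent.TH120.Sec (red pr pr_surj ker_ncard finite_sq card_residue)

universe u

section finite

variable {κ : Type u} [Field κ] [Finite κ]

lemma irr_pow (M : ℕ) (hM : 0 < M) (hd : M ∣ Nat.card κ - 1) (α : κ)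
    (hord : orderOf (α ^ ((Nat.card κ - 1) / M)) = M) : Irreducible (X ^ M - C α : κ[X]) := by
  classical
  set q := Nat.card κ with hq
  have hq1 : 1 < q := Finite.one_lt_card
  set ζ := α ^ ((q - 1) / M) with hζ
  have hmon : (X ^ M - C α : κ[X]).Monic := monic_X_pow_sub_C α hM.ne'
  have hdeg : (X ^ M - C α : κ[X]).natDegree = M := natDegree_X_pow_sub_C
  have hnu : ¬ IsUnit (X ^ M - C α : κ[X]) := by
    intro h
    have h1 := natDegree_eq_zero_of_isUnit h
    omega
  obtain ⟨g, hg, hgP⟩ := WfDvdMonoid.exists_irreducible_factor hnu hmon.ne_zero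
  have hfact : Fact (Irreducible g) := ⟨hg⟩
  set β : AdjoinRoot g := AdjoinRoot.root g with hβ
  have hroot : aeval β g = 0 := by
    rw [aeval_def]
    exact AdjoinRoot.eval₂_root g
  have hβM : β ^ M = algebraMap κ (AdjoinRoot g) α := by
    obtain ⟨s, hs⟩ := hgP
    have h1 : aeval β (X ^ M - C α : κ[X]) = 0 := by rw [hs, map_mul, hroot, zero_mul]
    rw [map_sub, map_pow, aeval_X, aeval_C] at h1
    exact sub_eq_zero.1 h1
  have hβq : β ^ q = algebraMap κ (AdjoinRoot g) ζ * β := by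
    have h1 : β ^ (q - 1) = algebraMap κ (AdjoinRoot g) ζ := by
      rw [hζ, map_pow, ← hβM, ← pow_mul, Nat.mul_div_cancel' hd]
    rw [← h1, ← pow_succ, Nat.sub_add_cancel hq1.le]
  have hζq : ζ ^ q = ζ := by
    have := Fintype.ofFinite κ
    rw [hq, Nat.card_eq_fintype_card]
    exact FiniteField.pow_card ζ
  have hζ0 : ζ ≠ 0 := by
    intro h
    rw [h] at hord
    have h1 : (0 : κ) ^ M = 1 := by
      conv_lhs => rw [← hord]
      exact pow_orderOf_eq_one _
    rw [zero_pow hM.ne'] at h1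
    exact zero_ne_one h1
  have hβ0 : β ≠ 0 := by
    intro h
    rw [h, zero_pow hM.ne'] at hβM
    have h1 : α = 0 := ((map_eq_zero (algebraMap κ (AdjoinRoot g))).1 hβM.symm)
    have h2 : 0 < (q - 1) / M := Nat.div_pos (Nat.le_of_dvd (by omega) hd) hM
    apply hζ0
    rw [hζ, h1, zero_pow h2.ne']
  have hiter : ∀ j : ℕ, β ^ (q ^ j) = algebraMap κ (AdjoinRoot g) (ζ ^ j) * β := by
    intro j
    induction j with
    | zero => rw [pow_zero, pow_one, pow_zero, map_one, one_mul]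
    | succ j ih =>
      rw [pow_succ, pow_mul, ih, mul_pow, hβq, ← map_pow, ← mul_assoc, ← map_mul]
      congr 2
      rw [← pow_mul, mul_comm j q, pow_mul, hζq, pow_succ]
  have h3 := hg.natDegree_dvd_iff_dvd_X_pow_card_pow_sub_X.1 (dvd_refl g.natDegree)
  have h4 : β ^ (q ^ g.natDegree) = β := by
    obtain ⟨s, hs⟩ := h3
    have h1 : aeval β (X ^ (Nat.card κ) ^ g.natDegree - X : κ[X]) = 0 := by
      rw [hs, map_mul, hroot, zero_mul]
    rw [map_sub, map_pow, aeval_X] at h1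
    exact sub_eq_zero.1 h1
  rw [hiter] at h4
  have h5 : ζ ^ g.natDegree = 1 := by
    have h6 : algebraMap κ (AdjoinRoot g) (ζ ^ g.natDegree) * β = 1 * β := by rw [h4, one_mul]
    have h7 := mul_right_cancel₀ hβ0 h6
    rw [← map_one (algebraMap κ (AdjoinRoot g))] at h7
    exact (algebraMap κ (AdjoinRoot g)).injective h7
  have h6 : M ∣ g.natDegree := by
    rw [← hord]
    exact orderOf_dvd_of_pow_eq_one h5
  have h7 : M ≤ g.natDegree := Nat.le_of_dvd hg.natDegree_pos h6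
  -- so the factor is everything
  obtain ⟨s, hs⟩ := hgP
  have hg0 : g ≠ 0 := hg.ne_zero
  have hs0 : s ≠ 0 := by
    rintro rfl
    rw [mul_zero] at hs
    exact hmon.ne_zero hs
  have h8 : g.natDegree + s.natDegree = M := by
    rw [← natDegree_mul hg0 hs0, ← hs, hdeg]
  have h9 : IsUnit s := by
    rw [isUnit_iff_degree_eq_zero, degree_eq_natDegree hs0]
    have : s.natDegree = 0 := by omega
    rw [this]
    rfl
  rw [hs]
  exact (irreducible_mul_isUnit h9).2 hg

/-- the numbers `α` with `X ^ M - α` irreducible -/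
lemma irr_count (M : ℕ) (hM : 0 < M) (hd : M ∣ Nat.card κ - 1) :
    Nat.card κ - 1 ≤ M * {α : κ | Irreducible (X ^ M - C α : κ[X])}.ncard := by
  classical
  have := Fintype.ofFinite κ
  have hcu : Nat.card κˣ = Nat.card κ - 1 := Nat.card_units κ
  have hq1 : 1 < Nat.card κ := Finite.one_lt_card
  obtain ⟨r, hr⟩ := hd
  have hr0 : 0 < r := by
    rcases Nat.eq_zero_or_pos r with h | h
    · rw [h, mul_zero] at hr
      omega
    · exact h
  have hrd : (Nat.card κ - 1) / M = r := by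
    rw [hr, Nat.mul_div_cancel_left _ hM]
  obtain ⟨γ, hγ⟩ := IsCyclic.exists_generator (α := κˣ)
  have hγo : orderOf γ = M * r := by
    rw [orderOf_eq_card_of_forall_mem_zpowers hγ, hcu, hr]
  set h : κˣ →* κˣ := powMonoidHom r with hh
  have h1 : Nat.card h.range * Nat.card h.ker = Nat.card κˣ := by
    rw [← Subgroup.index_ker, Subgroup.index_mul_card]
  have h2 : Nat.card h.range ≤ M := by
    have h3 : ∀ x ∈ h.range, x ^ M = 1 := by
      rintro _ ⟨y, rfl⟩
      change (y ^ r) ^ M = 1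
      rw [← pow_mul, mul_comm, ← hr, ← hcu]
      exact pow_card_eq_one'
    have h4 : (h.range : Set κˣ) ⊆ ((Finset.univ.filter fun x : κˣ => x ^ M = 1 : Finset κˣ) :
        Set κˣ) := by
      intro x hx
      rw [Finset.coe_filter]
      exact ⟨Finset.mem_univ _, h3 x hx⟩
    have h5 := Set.ncard_le_ncard h4 (Set.toFinite _)
    rw [Set.ncard_coe_finset] at h5
    have h6 := IsCyclic.card_pow_eq_one_le (α := κˣ) hM
    have h7 : Nat.card h.range = (h.range : Set κˣ).ncard := (Nat.card_coe_set_eq _)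
    rw [h7]
    exact h5.trans h6
  have h3 : Nat.card κ - 1 ≤ M * Nat.card h.ker := by
    rw [← hcu, ← h1]
    exact Nat.mul_le_mul_right _ h2
  refine h3.trans (Nat.mul_le_mul_left _ ?_)
  have h7 : Nat.card h.ker = (h.ker : Set κˣ).ncard := (Nat.card_coe_set_eq _)
  rw [h7]
  refine Set.ncard_le_ncard_of_injOn (fun x : κˣ => ((γ * x : κˣ) : κ)) ?_ ?_ (Set.toFinite _)
  · intro x hx
    have hx1 : x ^ r = 1 := hx
    refine irr_pow M hM ⟨r, hr⟩ _ ?_
    rw [hrd, ← Units.val_pow_eq_pow_val, mul_pow, hx1, mul_one, orderOf_units,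
      orderOf_pow_of_dvd hr0.ne' (by rw [hγo]; exact Dvd.intro_left _ rfl), hγo,
      Nat.mul_div_cancel _ hr0]
  · intro x _ y _ hxy
    have h8 : γ * x = γ * y := Units.ext hxy
    exact mul_left_cancel h8

/-- the good pairs of coefficients -/
def QI (κ : Type u) [Field κ] (M : ℕ) : Set (κ × κ) :=
  {x | x.1 ≠ 0 ∧ Irreducible (C x.1 * X ^ M + C x.2 : κ[X])}

lemma QI_card (M : ℕ) (hM : 0 < M) (hd : M ∣ Nat.card κ - 1) :
    (Nat.card κ - 1) ^ 2 ≤ M * (QI κ M).ncard := by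
  classical
  have := Fintype.ofFinite κ
  set T := {α : κ | Irreducible (X ^ M - C α : κ[X])} with hT
  have h1 : Nat.card κ - 1 ≤ M * T.ncard := irr_count M hM hd
  have h2 : ((Set.univ \ {0} : Set κ) ×ˢ T).ncard ≤ (QI κ M).ncard := by
    refine Set.ncard_le_ncard_of_injOn (fun x : κ × κ => (x.1, -x.1 * x.2)) ?_ ?_ (Set.toFinite _)
    · rintro ⟨b, c⟩ ⟨hb, hc⟩
      have hb0 : b ≠ 0 := hb.2
      refine ⟨hb0, ?_⟩
      have h3 : (C b * X ^ M + C (-b * c) : κ[X]) = C b * (X ^ M - C c) := by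
        rw [neg_mul, C_neg, C_mul]
        ring
      change Irreducible (C b * X ^ M + C (-b * c) : κ[X])
      rw [h3]
      exact (irreducible_isUnit_mul (isUnit_C.2 hb0.isUnit)).2 hc
    · rintro ⟨b, c⟩ ⟨hb, hc⟩ ⟨b', c'⟩ ⟨hb', hc'⟩ h
      simp only [Prod.mk.injEq] at h
      obtain ⟨rfl, h⟩ := h
      have hb0 : -b ≠ 0 := neg_ne_zero.2 hb.2
      rw [mul_right_inj' hb0] at h
      rw [h]
  rw [Set.ncard_prod, Set.ncard_sdiff (Set.subset_univ _), Set.ncard_univ,
    Set.ncard_singleton] at h2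
  calc (Nat.card κ - 1) ^ 2 = (Nat.card κ - 1) * (Nat.card κ - 1) := sq _
    _ ≤ (Nat.card κ - 1) * (M * T.ncard) := Nat.mul_le_mul_left _ h1
    _ = M * ((Nat.card κ - 1) * T.ncard) := by ring
    _ ≤ M * (QI κ M).ncard := Nat.mul_le_mul_left _ h2

end finite

section nf

variable {K : Type u} [Field K] [NumberField K] (v : HeightOneSpectrum (𝓞 K))

/-- the good triples of coefficients modulo `v ^ 2` -/
def GoodI (M : ℕ) : Set (Fin 3 → 𝓞 K ⧸ v.asIdeal ^ 2) :=
  {x | pr v (x 0) = 0 ∧ x 0 ≠ 0 ∧ pr v (x 1) ≠ 0 ∧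
    Irreducible (C (pr v (x 1)) * X ^ M + C (pr v (x 2)))}

lemma goodI_card (M : ℕ) (hM : 0 < M) (hd : M ∣ Ideal.absNorm v.asIdeal - 1) :
    (Ideal.absNorm v.asIdeal - 1) ^ 3 * Ideal.absNorm v.asIdeal ^ 2 ≤ M * (GoodI v M).ncard := by
  classical
  have hfin := finite_sq v
  have hmax : v.asIdeal.IsMaximal := v.isMaximal
  have hfin' : Finite (𝓞 K ⧸ v.asIdeal) := Ideal.finiteQuotientOfFreeOfNeBot _ v.ne_bot
  let _ : Field (𝓞 K ⧸ v.asIdeal) := Ideal.Quotient.field _
  set N := Ideal.absNorm v.asIdeal with hN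
  have hq := QI_card (κ := 𝓞 K ⧸ v.asIdeal) M hM (by rw [card_residue]; exact hd)
  rw [card_residue, ← hN] at hq
  set J : Set (𝓞 K ⧸ v.asIdeal ^ 2) := {x | pr v x = 0} with hJ
  have hJc : J.ncard = N := ker_ncard v
  have hJ0 : (J \ {0}).ncard = N - 1 := by
    rw [Set.ncard_sdiff_singleton_of_mem (show (0 : 𝓞 K ⧸ v.asIdeal ^ 2) ∈ J from map_zero _), hJc]
  let s := Function.surjInv (pr_surj v)
  have hs : ∀ x, pr v (s x) = x := Function.surjInv_eq (pr_surj v)
  have h1 : (((J \ {0}) ×ˢ (QI (𝓞 K ⧸ v.asIdeal) M)) ×ˢ (J ×ˢ J)).ncard ≤ (GoodI v M).ncard := by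
    refine Set.ncard_le_ncard_of_injOn
      (fun x => ![x.1.1, s x.1.2.1 + x.2.1, s x.1.2.2 + x.2.2]) ?_ ?_ (Set.toFinite _)
    · rintro ⟨⟨j, b, c⟩, j1, j2⟩ ⟨⟨hj, hbc⟩, hj1, hj2⟩
      have e1 : pr v (s b + j1) = b := by
        rw [map_add, hs, show pr v j1 = 0 from hj1, add_zero]
      have e2 : pr v (s c + j2) = c := by
        rw [map_add, hs, show pr v j2 = 0 from hj2, add_zero]
      refine ⟨hj.1, hj.2, ?_, ?_⟩
      · change pr v (s b + j1) ≠ 0
        rw [e1]
        exact hbc.1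
      · change Irreducible (C (pr v (s b + j1)) * X ^ M + C (pr v (s c + j2)))
        rw [e1, e2]
        exact hbc.2
    · rintro ⟨⟨j, b, c⟩, j1, j2⟩ ⟨⟨hj, hbc⟩, hj1, hj2⟩ ⟨⟨j', b', c'⟩, j1', j2'⟩
        ⟨⟨hj', hbc'⟩, hj1', hj2'⟩ h
      have h0 : j = j' := congrFun h 0
      have h1 : s b + j1 = s b' + j1' := congrFun h 1
      have h2 : s c + j2 = s c' + j2' := congrFun h 2
      have e1 : b = b' := by
        have := congrArg (pr v) h1
        rwa [map_add, map_add, hs, hs, show pr v j1 = 0 from hj1, show pr v j1' = 0 from hj1',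
          add_zero, add_zero] at this
      have e2 : c = c' := by
        have := congrArg (pr v) h2
        rwa [map_add, map_add, hs, hs, show pr v j2 = 0 from hj2, show pr v j2' = 0 from hj2',
          add_zero, add_zero] at this
      subst h0 e1 e2
      rw [add_right_inj] at h1 h2
      rw [h1, h2]
  rw [Set.ncard_prod, Set.ncard_prod, Set.ncard_prod, hJc, hJ0] at h1
  calc (N - 1) ^ 3 * N ^ 2 = (N - 1) * (N - 1) ^ 2 * (N * N) := by ring
    _ ≤ (N - 1) * (M * (QI (𝓞 K ⧸ v.asIdeal) M).ncard) * (N * N) := by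
        gcongr
    _ = M * ((N - 1) * (QI (𝓞 K ⧸ v.asIdeal) M).ncard * (N * N)) := by ring
    _ ≤ M * (GoodI v M).ncard := Nat.mul_le_mul_left _ h1

/-- the complement of the good triples -/
lemma badI_card (M : ℕ) (hM : 0 < M) (hd : M ∣ Ideal.absNorm v.asIdeal - 1) :
    (((GoodI v M)ᶜ).ncard : ℝ) ≤ (1 - (1 / (4 * M)) * (1 / (Ideal.absNorm v.asIdeal : ℝ) -
      1 / (Ideal.absNorm v.asIdeal : ℝ) ^ 2)) * ((Ideal.absNorm v.asIdeal : ℝ) ^ 2) ^ 3 := by
  classical
  have hfin := finite_sq v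
  have h1 := goodI_card v M hM hd
  have h2 : (GoodI v M).ncard + ((GoodI v M)ᶜ).ncard = (Ideal.absNorm v.asIdeal ^ 2) ^ 3 := by
    rw [Set.ncard_add_ncard_compl, Nat.card_fun, Pool.Agent.W417.SecC.D2.card_sq, Nat.card_fin]
  set N := Ideal.absNorm v.asIdeal with hN
  have hN2 : 2 ≤ N := by
    by_contra h
    have h3 : N = 0 ∨ N = 1 := by omega
    rcases h3 with h3 | h3
    · exact absurd h3 (Pool.Agent.W417.SecC.D2.norm_pos v).ne'
    · rw [hN, Ideal.absNorm_eq_one_iff] at h3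
      exact v.isPrime.ne_top h3
  have h3 : ((GoodI v M).ncard : ℝ) + (((GoodI v M)ᶜ).ncard : ℝ) = ((N : ℝ) ^ 2) ^ 3 := by
    exact_mod_cast h2
  have h4 : ((N : ℝ) - 1) ^ 3 * (N : ℝ) ^ 2 ≤ M * ((GoodI v M).ncard : ℝ) := by
    have h5 : ((N - 1 : ℕ) : ℝ) = (N : ℝ) - 1 := by
      rw [Nat.cast_sub (by omega)]
      norm_num
    rw [← h5]
    exact_mod_cast h1
  have hNr : (2 : ℝ) ≤ N := by exact_mod_cast hN2
  have hMr : (0 : ℝ) < M := by exact_mod_cast hM
  have h6 : (1 - (1 / (4 * M)) * (1 / (N : ℝ) - 1 / (N : ℝ) ^ 2)) * ((N : ℝ) ^ 2) ^ 3 =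
      ((N : ℝ) ^ 2) ^ 3 - ((1 / 4) * ((N : ℝ) - 1) * (N : ℝ) ^ 4) / M := by
    field_simp
  rw [h6]
  have h7 : (1 / 4) * ((N : ℝ) - 1) * (N : ℝ) ^ 4 ≤ ((N : ℝ) - 1) ^ 3 * (N : ℝ) ^ 2 := by
    have h8 : (1 / 4) * (N : ℝ) ^ 2 ≤ ((N : ℝ) - 1) ^ 2 := by nlinarith
    have h9 : 0 ≤ ((N : ℝ) - 1) * (N : ℝ) ^ 2 := by
      apply mul_nonneg
      · linarith
      · exact sq_nonneg _
    nlinarith [mul_le_mul_of_nonneg_left h8 h9]
  have h8 : ((1 / 4) * ((N : ℝ) - 1) * (N : ℝ) ^ 4) / M ≤ ((GoodI v M).ncard : ℝ) := by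
    rw [div_le_iff₀ hMr]
    linarith
  linarith

end nf

/-- the property of a triple of coefficients given by a discrete valuation ring -/
def DiagGood {R : Type} [CommRing R] (k : Type) [Field k] [Algebra R k] (M : ℕ)
    (c : Fin 3 → R) : Prop :=
  algebraMap R k (c 1) ≠ 0 ∧ algebraMap R k (c 2) ≠ 0 ∧
    Nonempty (Dvr k (C (algebraMap R k (c 1)) * X ^ M + C (algebraMap R k (c 2)))
      (-algebraMap R k (c 0)))

lemma binom_coeff {κ : Type*} [CommRing κ] (M : ℕ) (b c : κ) (j : ℕ) :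
    (C b * X ^ M + C c : κ[X]).coeff j = (if j = M then b else 0) + (if j = 0 then c else 0) := by
  rw [coeff_add, coeff_C_mul, coeff_X_pow, coeff_C]
  congr 1
  split_ifs <;> simp

theorem diagGood_of {R k L : Type} [CommRing R] [Field k] [CharZero k] [Algebra R k] [Field L]
    [NumberField L] (v : HeightOneSpectrum (𝓞 L)) (P : R →+* L) (ψ : k →+* v.adicCompletion L)
    (h2 : (2 : 𝓞 L) ∉ v.asIdeal) (h : Emb v P ψ) (M : ℕ) (hM : 2 ≤ M) (c : Fin 3 → R)
    (y : Fin 3 → 𝓞 L) (hcy : NearV v P c y)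
    (hy : red (v.asIdeal ^ 2) 3 y ∈ GoodI v M) : DiagGood k M c := by
  classical
  obtain ⟨g1, g2, g3, g4⟩ := hy
  have hmax : v.asIdeal.IsMaximal := v.isMaximal
  let _ : Field (𝓞 L ⧸ v.asIdeal) := Ideal.Quotient.field _
  have g1' : y 0 ∈ v.asIdeal := Ideal.Quotient.eq_zero_iff_mem.1 g1
  have g2' : y 0 ∉ v.asIdeal ^ 2 := fun h => g2 (Ideal.Quotient.eq_zero_iff_mem.2 h)
  have g3' : y 1 ∉ v.asIdeal := fun h => g3 (Ideal.Quotient.eq_zero_iff_mem.2 h)
  have g4' : Irreducible (C (Ideal.Quotient.mk v.asIdeal (y 1)) * X ^ M +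
    C (Ideal.Quotient.mk v.asIdeal (y 2))) := g4
  have g5' : y 2 ∉ v.asIdeal := by
    intro h0
    have h1 : Ideal.Quotient.mk v.asIdeal (y 2) = 0 := Ideal.Quotient.eq_zero_iff_mem.2 h0
    rw [h1, C_0, add_zero] at g4'
    have h2 : C (Ideal.Quotient.mk v.asIdeal (y 1)) * X ^ M =
        (C (Ideal.Quotient.mk v.asIdeal (y 1)) * X) * X ^ (M - 1) := by
      rw [mul_assoc, ← pow_succ', Nat.sub_add_cancel (by omega)]
    rcases g4'.2 h2 with h3 | h3
    · have h4 := natDegree_eq_zero_of_isUnit h3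
      rw [natDegree_C_mul_X _ (by
        intro h5
        exact g3' (Ideal.Quotient.eq_zero_iff_mem.1 h5))] at h4
      exact one_ne_zero h4
    · have h4 := natDegree_eq_zero_of_isUnit h3
      rw [natDegree_X_pow] at h4
      omega
  have hnear : ∀ i, vv v (ψ (algebraMap R k (c i)) -
      algebraMap L (v.adicCompletion L) (algebraMap (𝓞 L) L (y i))) ≤ exp (-2) :=
    fun i => near_of v P ψ h (c i) (y i) (hcy i)
  have hunit : ∀ z : 𝓞 L, z ∉ v.asIdeal →
      vv v (algebraMap L (v.adicCompletion L) (algebraMap (𝓞 L) L z)) = 1 := by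
    intro z hz
    rw [vv_algebraMap]
    exact (HeightOneSpectrum.valuation_eq_one_iff_notMem v).2 hz
  have hγ2 : (exp (-2) : ℤᵐ⁰) < 1 := by
    rw [← exp_zero, exp_lt_exp]
    omega
  have hne : ∀ i, y i ∉ v.asIdeal → algebraMap R k (c i) ≠ 0 := by
    intro i hi h0
    have h1 := hnear i
    rw [h0, map_zero, zero_sub, Valuation.map_neg, hunit _ hi] at h1
    exact absurd h1 (not_le.2 hγ2)
  have hb := hne 1 g3'
  have hdeg : (C (algebraMap R k (c 1)) * X ^ M + C (algebraMap R k (c 2)) : k[X]).natDegree =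
      M := by
    rw [natDegree_add_C, natDegree_C_mul_X_pow _ _ hb]
  refine ⟨hb, hne 2 g5', ?_⟩
  refine dvr_near v ψ h2 _ (C (y 1) * X ^ M + C (y 2)) ?_ ?_ ?_ _ (-y 0) ?_ ?_ ?_
  · intro j
    have hz : vv v (0 : v.adicCompletion L) ≤ exp (-2) := by
      rw [map_zero]
      exact zero_le
    rw [binom_coeff, binom_coeff]
    have e : ψ ((if j = M then algebraMap R k (c 1) else 0) +
        (if j = 0 then algebraMap R k (c 2) else 0)) - algebraMap L (v.adicCompletion L)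
        (algebraMap (𝓞 L) L ((if j = M then y 1 else 0) + (if j = 0 then y 2 else 0))) =
        (if j = M then ψ (algebraMap R k (c 1)) -
          algebraMap L (v.adicCompletion L) (algebraMap (𝓞 L) L (y 1)) else 0) +
        (if j = 0 then ψ (algebraMap R k (c 2)) -
          algebraMap L (v.adicCompletion L) (algebraMap (𝓞 L) L (y 2)) else 0) := by
      split_ifs <;> simp [map_add, map_zero] <;> ring
    rw [e]
    refine (Valuation.map_add _ _ _).trans (max_le ?_ ?_)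
    · split_ifs
      · exact hnear 1
      · exact hz
    · split_ifs
      · exact hnear 2
      · exact hz
  · rw [hdeg, binom_coeff, if_pos rfl, if_neg (by omega), add_zero]
    exact g3'
  · rw [Polynomial.map_add, Polynomial.map_mul, Polynomial.map_pow, map_X, map_C, map_C]
    exact g4'
  · have e : ψ (-algebraMap R k (c 0)) - algebraMap L (v.adicCompletion L)
        (algebraMap (𝓞 L) L (-y 0)) = -(ψ (algebraMap R k (c 0)) -
          algebraMap L (v.adicCompletion L) (algebraMap (𝓞 L) L (y 0))) := by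
      rw [map_neg, map_neg, map_neg]
      ring
    rw [e, Valuation.map_neg]
    exact hnear 0
  · rwa [neg_mem_iff]
  · rwa [neg_mem_iff]

/-- **Density.** -/
theorem dens_diag {R k : Type} [CommRing R] [IsDomain R] [CharZero R] [Algebra.FiniteType ℤ R]
    [Field k] [Algebra R k] [IsFractionRing R k] (M : ℕ) (hM : 2 ≤ M) (ε : ℝ) (hε : 0 < ε) :
    ∃ I : Ideal R, Finite (R ⧸ I) ∧
      (Set.ncard ((fun (c : Fin 3 → R) i => Ideal.Quotient.mk I (c i)) ''
        {c | ¬ DiagGood k M c}) : ℝ) ≤ ε * (Nat.card (R ⧸ I) : ℝ) ^ 3 := by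
  have hcz : CharZero k := charZero_of_injective_algebraMap (IsFractionRing.injective R k)
  have hMr : (2 : ℝ) ≤ M := by exact_mod_cast hM
  have hδ1 : (1 / (4 * M) : ℝ) ≤ 1 := by
    rw [div_le_one (by positivity)]
    linarith
  have hδ : (0 : ℝ) < 1 / (4 * M) := by
    positivity
  refine dens_all (R := R) (k := k) 3 M (by omega) (1 / (4 * M) : ℝ) hδ hδ1
    (fun L _ _ v => GoodI v M) ?_ _ ?_ ε hε
  · intro L _ _ v _ hd
    exact badI_card v M (by omega) hd
  · intro L _ _ v P ψ h2 _ h c y hcy hy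
    exact diagGood_of v P ψ h2 h M hM c y hcy hy

end Pool.Agent.XE31.SC
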