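import Pool.Agent.XE31.SB

/-!
# Density zero over finitely generated fields: conditions depending on the specialisation
-/

set_option autoImplicit false

namespace Pool.Agent.XE31.SC

open Polynomial WithZero NumberField IsDedekindDomain Pool.Agent.W858.SF Pool.Agent.W858.SG
open Pool.Agent.TH120.Sec (red)

/-- the local conditions at the prime `v`: a set `GV` of classes modulo `v ^ 2` of proportion at
least `δ (1/N v - 1/(N v)²)` such that the vectors in these classes are good -/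
def LocCond {R k L : Type} [CommRing R] [Field k] [Algebra R k] [Field L] [NumberField L] (N : ℕ)
    (δ : ℝ) (Good : (Fin N → R) → Prop) (P : R →+* L) (v : HeightOneSpectrum (𝓞 L)) : Prop :=
  ∃ GV : Set (Fin N → 𝓞 L ⧸ v.asIdeal ^ 2), ((GVᶜ).ncard : ℝ) ≤
      (1 - δ * (1 / (Ideal.absNorm v.asIdeal : ℝ) -
        1 / (Ideal.absNorm v.asIdeal : ℝ) ^ 2)) * ((Ideal.absNorm v.asIdeal : ℝ) ^ 2) ^ N ∧
    ∀ ψ : k →+* v.adicCompletion L, Emb v P ψ → ∀ c y, NearV v P c y →
      red (v.asIdeal ^ 2) N y ∈ GV → Good c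

section setup

variable {R k : Type} [CommRing R] [IsDomain R] [Field k] [CharZero k] [Algebra R k]
  [IsFractionRing R k]

theorem dens_aux2 (G : Finset R) (hG : Algebra.adjoin ℤ (G : Set R) = ⊤)
    {m : ℕ} {Q : Type} [Field Q] [Algebra (MvPolynomial (Fin m) ℚ) Q]
    [IsFractionRing (MvPolynomial (Fin m) ℚ) Q] [Algebra Q k]
    [Algebra (MvPolynomial (Fin m) ℚ) k] [IsScalarTower (MvPolynomial (Fin m) ℚ) Q k]
    [Algebra.IsAlgebraic Q k] [Algebra.EssFiniteType ℤ k] (W : Finset R) (hW : ∀ u ∈ W, u ≠ 0)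
    (N M : ℕ) (hM0 : 0 < M) (δ : ℝ) (hδ : 0 < δ) (hδ1 : δ ≤ 1)
    (Good : (Fin N → R) → Prop)
    (hloc : ∀ (L : Type) [Field L] [NumberField L] (P : R →+* L), (∀ u ∈ W, P u ≠ 0) →
      ∃ D0 : 𝓞 L, D0 ≠ 0 ∧ ∀ v : HeightOneSpectrum (𝓞 L), D0 ∉ v.asIdeal →
        M ∣ Ideal.absNorm v.asIdeal - 1 → (∀ r, v.valuation L (P r) ≤ 1) →
        LocCond (k := k) N δ Good P v)
    (ε : ℝ) (hε : 0 < ε) :
    ∃ I : Ideal R, Finite (R ⧸ I) ∧
      (Set.ncard ((fun (c : Fin N → R) i => Ideal.Quotient.mk I (c i)) ''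
        {c | ¬ Good c}) : ℝ) ≤ ε * (Nat.card (R ⧸ I) : ℝ) ^ N := by
  classical
  have e4 : Algebra.EssFiniteType Q k := Algebra.EssFiniteType.of_comp ℤ Q k
  have hfin : FiniteDimensional Q k := Algebra.finite_of_essFiniteType_of_isAlgebraic
  have hinjk : Function.Injective (algebraMap R k) := IsFractionRing.injective R k
  have hczQ : CharZero Q := charZero_of_injective_algebraMap
    (IsFractionRing.injective (MvPolynomial (Fin m) ℚ) Q)
  obtain ⟨α, hgen, hα⟩ := Pool.Agent.H298R2.Kuyk.exists_prim (MvPolynomial (Fin m) ℚ) Q k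
  have hDNex : ∀ r : R, ∃ (D : MvPolynomial (Fin m) ℚ) (N : (MvPolynomial (Fin m) ℚ)[X]),
      D ≠ 0 ∧ algebraMap _ k D * algebraMap R k r = aeval α N := by
    intro r
    obtain ⟨p, -, hp⟩ := H33.V4.exists_rep (Q := Q) α hgen (algebraMap R k r)
    obtain ⟨D, hD, hDp⟩ := IsLocalization.integerNormalization_spec
      (nonZeroDivisors (MvPolynomial (Fin m) ℚ)) p
    refine ⟨D, IsLocalization.integerNormalization (nonZeroDivisors (MvPolynomial (Fin m) ℚ)) p,
      nonZeroDivisors.ne_zero hD, ?_⟩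
    rw [← aeval_map_algebraMap Q, hDp, Algebra.smul_def, map_mul, hp]
    congr 1
    rw [IsScalarTower.algebraMap_apply (MvPolynomial (Fin m) ℚ) Q k,
      IsScalarTower.algebraMap_apply (MvPolynomial (Fin m) ℚ) Q Q[X]]
    simp
  choose D N' hD hDN using hDNex
  obtain ⟨r0, s0, hs0, hα0⟩ := IsFractionRing.div_surjective (A := R) α
  have hs00 : s0 ≠ 0 := nonZeroDivisors.ne_zero hs0
  have hs0k : algebraMap R k s0 ≠ 0 := by
    rw [Ne, map_eq_zero_iff _ hinjk]
    exact hs00
  have hα1 : algebraMap R k s0 * α = algebraMap R k r0 := by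
    rw [← hα0]
    field_simp
  obtain ⟨L, _, _, P, c, β, hβtop, hβ, hβ', hDP, hPα, hU, -, -⟩ :=
    exists_spec (Q := Q) hinjk α hα hgen G hG D N' (fun r _ => hDN r) (fun r _ => hD r)
      (insert s0 W) (by
        intro u hu
        rcases Finset.mem_insert.1 hu with hu | hu
        · rw [hu]
          exact hs00
        · exact hW u hu) (1 : R[X]) (by rw [Polynomial.map_one]; exact separable_one)
        AlgEquiv.refl (fun θ hθ => by
          rw [Polynomial.map_one, map_one] at hθ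
          exact absurd hθ one_ne_zero)
  have hemb := exists_emb (Q := Q) α hα hgen P G hG D N' (fun r _ => hDN r) c β hβ hβ' hDP
  have hM := exists_mult P β hβtop r0 s0 (hU s0 (by simp)) (hPα r0 s0 hα1)
  obtain ⟨D0, hD0, hloc⟩ := hloc L P (fun u hu => hU u (Finset.mem_insert_of_mem hu))
  obtain ⟨N1, hN1, hint⟩ := hemb
  set Pv : HeightOneSpectrum (𝓞 L) → Prop := fun v => LocCond (k := k) N δ Good P v with hPv
  have key : ∀ v : HeightOneSpectrum (𝓞 L), D0 * N1 ∉ v.asIdeal →
      M ∣ Ideal.absNorm v.asIdeal - 1 → Pv v := by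
    intro v hv hMv
    refine hloc v (fun h => hv (Ideal.mul_mem_right _ _ h)) hMv ?_
    exact (hint v (fun h => hv (Ideal.mul_mem_left _ _ h))).1
  refine dens_vec P ⟨N1, hN1, hint⟩ hM N Pv δ ?_
    (fun v => if h : Pv v then h.choose else ∅) ?_ Good ?_ ε hε
  · intro D hD ε hε
    obtain ⟨T, hT, hTε⟩ := supply_mod M hM0 (D * (D0 * N1))
      (mul_ne_zero hD (mul_ne_zero hD0 hN1)) δ hδ hδ1 ε hε
    refine ⟨T, fun v hv => ⟨fun h => (hT v hv).1 (Ideal.mul_mem_right _ _ h), ?_⟩, hTε⟩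
    exact key v (fun h => (hT v hv).1 (Ideal.mul_mem_left _ _ h)) (hT v hv).2
  · intro v _ hv
    rw [dif_pos hv]
    exact hv.choose_spec.1
  · intro v _ hv ψ hψ c y hcy hy
    rw [dif_pos hv] at hy
    exact hv.choose_spec.2 ψ hψ c y hcy hy

end setup

/-- **Density zero over finitely generated fields**, conditions depending on the
specialisation. -/
theorem dens_all2 {R k : Type} [CommRing R] [IsDomain R] [CharZero R] [Algebra.FiniteType ℤ R]
    [Field k] [Algebra R k] [IsFractionRing R k] (W : Finset R) (hW : ∀ u ∈ W, u ≠ 0)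
    (N M : ℕ) (hM0 : 0 < M) (δ : ℝ) (hδ : 0 < δ) (hδ1 : δ ≤ 1)
    (Good : (Fin N → R) → Prop)
    (hloc : ∀ (L : Type) [Field L] [NumberField L] (P : R →+* L), (∀ u ∈ W, P u ≠ 0) →
      ∃ D0 : 𝓞 L, D0 ≠ 0 ∧ ∀ v : HeightOneSpectrum (𝓞 L), D0 ∉ v.asIdeal →
        M ∣ Ideal.absNorm v.asIdeal - 1 → (∀ r, v.valuation L (P r) ≤ 1) →
        LocCond (k := k) N δ Good P v)
    (ε : ℝ) (hε : 0 < ε) :
    ∃ I : Ideal R, Finite (R ⧸ I) ∧
      (Set.ncard ((fun (c : Fin N → R) i => Ideal.Quotient.mk I (c i)) ''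
        {c | ¬ Good c}) : ℝ) ≤ ε * (Nat.card (R ⧸ I) : ℝ) ^ N := by
  classical
  have hcz : CharZero k := charZero_of_injective_algebraMap (IsFractionRing.injective R k)
  obtain ⟨G, hG⟩ := (inferInstance : Algebra.FiniteType ℤ R).out
  have e1 : Algebra.EssFiniteType R k := Algebra.EssFiniteType.of_isLocalization k (nonZeroDivisors R)
  have e2 : Algebra.EssFiniteType ℤ k := Algebra.EssFiniteType.comp ℤ R k
  have e3 : Algebra.EssFiniteType ℚ k := Algebra.EssFiniteType.of_comp ℤ ℚ k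
  obtain ⟨s, hs⟩ := IntermediateField.fg_top ℚ k
  have halg0 : Algebra.IsAlgebraic (Algebra.adjoin ℚ (s : Set k)) k := by
    rw [← IntermediateField.isAlgebraic_adjoin_iff_top, hs, Algebra.isAlgebraic_iff_isIntegral]
    exact Algebra.isIntegral_of_surjective IntermediateField.topEquiv.surjective
  obtain ⟨t, hts, ht⟩ := exists_isTranscendenceBasis_subset (R := ℚ) (s : Set k)
  lift t to Finset k using s.finite_toSet.subset hts
  let m := t.card
  let e : Fin m ≃ t := t.equivFin.symm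
  let x : Fin m → k := fun i => (e i : k)
  have hx : IsTranscendenceBasis ℚ x := (isTranscendenceBasis_equiv e).2 ht
  let _ : Algebra (MvPolynomial (Fin m) ℚ) k := (MvPolynomial.aeval x).toRingHom.toAlgebra
  have hinj : Function.Injective (algebraMap (MvPolynomial (Fin m) ℚ) k) := hx.1
  let _ : Algebra (FractionRing (MvPolynomial (Fin m) ℚ)) k :=
    (IsFractionRing.lift (K := FractionRing (MvPolynomial (Fin m) ℚ)) hinj).toAlgebra
  have htow : IsScalarTower (MvPolynomial (Fin m) ℚ) (FractionRing (MvPolynomial (Fin m) ℚ)) k :=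
    IsScalarTower.of_algebraMap_eq fun p => (IsFractionRing.lift_algebraMap hinj p).symm
  have hta : Algebra.IsAlgebraic (FractionRing (MvPolynomial (Fin m) ℚ)) k := by
    refine ⟨fun y => ?_⟩
    obtain ⟨p, hp, hpy⟩ := hx.isAlgebraic.isAlgebraic y
    have h1 : IsAlgebraic (MvPolynomial (Fin m) ℚ) y := by
      refine ⟨p.map hx.1.aevalEquiv.symm.toRingEquiv.toRingHom, ?_, ?_⟩
      · exact (Polynomial.map_ne_zero_iff
          hx.1.aevalEquiv.symm.toRingEquiv.injective).2 hp
      · rw [aeval_def, eval₂_map]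
        rw [aeval_def] at hpy
        have h2 : (algebraMap (MvPolynomial (Fin m) ℚ) k).comp
            hx.1.aevalEquiv.symm.toRingEquiv.toRingHom =
            algebraMap (Algebra.adjoin ℚ (Set.range x)) k := by
          ext1 z
          obtain ⟨p, rfl⟩ := hx.1.aevalEquiv.surjective z
          rw [hx.1.algebraMap_aevalEquiv]
          change MvPolynomial.aeval x (hx.1.aevalEquiv.symm (hx.1.aevalEquiv p)) = _
          rw [AlgEquiv.symm_apply_apply]
        rw [h2]
        exact hpy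
    exact h1.extendScalars (IsFractionRing.injective _ _)
  exact dens_aux2 (m := m) (Q := FractionRing (MvPolynomial (Fin m) ℚ)) G hG W hW N M hM0 δ hδ hδ1
    Good hloc ε hε

end Pool.Agent.XE31.SC
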