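import Pool.Agent.TH120.Sec.DiagCount

/-!
# Values missed by a polynomial over a finite field
-/

set_option autoImplicit false
set_option maxHeartbeats 400000

namespace Pool.Agent.XE31.SC

open Polynomial

universe u

section finite

variable {κ : Type u} [Field κ] [Fintype κ]

lemma sum_pow_top (h : 1 < Fintype.card κ) : ∑ x : κ, x ^ (Fintype.card κ - 1) = -1 := by
  classical
  have h1 : ∀ x : κ, x ^ (Fintype.card κ - 1) = if x = 0 then 0 else 1 := by
    intro x
    split_ifs with hx
    · rw [hx, zero_pow (by omega)]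
    · exact FiniteField.pow_card_sub_one_eq_one x hx
  have h2 : ∑ x : κ, x ^ (Fintype.card κ - 1) = ∑ x : κ, (1 - if x = 0 then (1 : κ) else 0) := by
    refine Finset.sum_congr rfl fun x _ => ?_
    rw [h1]
    split_ifs <;> simp
  rw [h2, Finset.sum_sub_distrib]
  simp

lemma sum_poly (Q : κ[X]) (h : 1 < Fintype.card κ) (hQ : Q.natDegree ≤ Fintype.card κ - 1) :
    ∑ x : κ, Q.eval x = -Q.coeff (Fintype.card κ - 1) := by
  classical
  have h1 : ∀ x : κ, Q.eval x =
      ∑ i ∈ Finset.range (Fintype.card κ - 1 + 1), Q.coeff i * x ^ i := by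
    intro x
    exact eval_eq_sum_range' (by omega) x
  simp only [h1]
  rw [Finset.sum_comm, Finset.sum_range_succ, Finset.sum_eq_zero, zero_add, ← Finset.mul_sum,
    sum_pow_top h, mul_neg, mul_one]
  intro i hi
  rw [Finset.mem_range] at hi
  rw [← Finset.mul_sum, FiniteField.sum_pow_lt_card_sub_one κ i hi, mul_zero]

/-- a polynomial whose degree divides `q - 1` misses many values -/
theorem missed (f : κ[X]) (d : ℕ) (hd : 2 ≤ d) (hf : f.natDegree = d)
    (hdq : d ∣ Fintype.card κ - 1) :
    (Fintype.card κ - 1) / d + 1 ≤ 2 * {c : κ | ∀ x, f.eval x ≠ c}.ncard := by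
  classical
  set q := Fintype.card κ with hq
  have hq1 : 1 < q := Fintype.one_lt_card
  obtain ⟨m, hm⟩ := hdq
  have hm0 : 0 < m := by
    rcases Nat.eq_zero_or_pos m with h | h
    · rw [h, mul_zero] at hm
      omega
    · exact h
  have hmd : (q - 1) / d = m := by rw [hm, Nat.mul_div_cancel_left _ (by omega)]
  rw [hmd]
  set N : κ → ℕ := fun c => (Finset.univ.filter fun x : κ => f.eval x = c).card with hN
  set S : Finset κ := Finset.univ.filter fun c => N c ≠ 1 with hS
  set S0 : Finset κ := Finset.univ.filter fun c => N c = 0 with hS0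
  set S1 : Finset κ := Finset.univ.filter fun c => 2 ≤ N c with hS1
  have hS0' : {c : κ | ∀ x, f.eval x ≠ c}.ncard = S0.card := by
    rw [← Set.ncard_coe_finset]
    congr 1
    ext c
    simp only [hS0, hN, Set.mem_setOf_eq, Finset.coe_filter, Finset.mem_univ, true_and,
      Finset.card_eq_zero, Finset.filter_eq_empty_iff, forall_true_left, ne_eq]
  rw [hS0']
  -- the support is large
  have hlarge : m + 1 ≤ S.card := by
    by_contra hcon
    have hle : S.card ≤ m := by omega
    set P : κ[X] := X ^ (m - S.card) * ∏ s ∈ S, (X - C s) with hP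
    have hPm : P.Monic := (monic_X_pow _).mul (monic_prod_of_monic _ _ fun s _ => monic_X_sub_C s)
    have hPd : P.natDegree = m := by
      rw [hP, (monic_X_pow _).natDegree_mul (monic_prod_of_monic _ _ fun s _ => monic_X_sub_C s),
        natDegree_X_pow, natDegree_prod_of_monic _ _ fun s _ => monic_X_sub_C s]
      simp only [natDegree_X_sub_C, Finset.sum_const, smul_eq_mul, mul_one]
      omega
    have hPS : ∀ s ∈ S, P.eval s = 0 := by
      intro s hs
      rw [hP, eval_mul, eval_prod, Finset.prod_eq_zero hs, mul_zero]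
      rw [eval_sub, eval_X, eval_C, sub_self]
    have hcd : (P.comp f).natDegree = q - 1 := by
      rw [natDegree_comp, hPd, hf, hm, mul_comm]
    have hcl : (P.comp f).coeff (q - 1) = f.leadingCoeff ^ m := by
      rw [← hcd, ← leadingCoeff, leadingCoeff_comp (by omega), hPm.leadingCoeff, one_mul, hPd]
    have h1 : ∑ x : κ, (P.comp f).eval x = -f.leadingCoeff ^ m := by
      rw [sum_poly _ hq1 (le_of_eq hcd), hcl]
    have h2 : ∑ x : κ, (P.comp f).eval x = ∑ c : κ, P.eval c := by
      have h3 : ∑ x : κ, (P.comp f).eval x = ∑ x : κ, P.eval (f.eval x) := by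
        simp only [eval_comp]
      rw [h3, ← Finset.sum_fiberwise Finset.univ (fun x => f.eval x)]
      refine Finset.sum_congr rfl fun c _ => ?_
      have h4 : ∑ x ∈ Finset.univ.filter (fun x : κ => f.eval x = c), P.eval (f.eval x) =
          N c • P.eval c := by
        rw [Finset.sum_congr rfl (g := fun _ => P.eval c), Finset.sum_const]
        intro x hx
        rw [(Finset.mem_filter.1 hx).2]
      rw [h4]
      by_cases hc : N c = 1
      · rw [hc, one_smul]
      · rw [hPS c (Finset.mem_filter.2 ⟨Finset.mem_univ _, hc⟩), smul_zero]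
    have h3 : ∑ c : κ, P.eval c = 0 := by
      have hlt : m < q - 1 := by
        rw [hm]
        nlinarith
      rw [sum_poly _ hq1 (by rw [hPd]; omega), coeff_eq_zero_of_natDegree_lt (by rw [hPd]; omega),
        neg_zero]
    rw [h2, h3] at h1
    have h4 : f.leadingCoeff ≠ 0 := by
      rw [Ne, leadingCoeff_eq_zero]
      rintro rfl
      rw [natDegree_zero] at hf
      omega
    exact pow_ne_zero m h4 (neg_eq_zero.1 h1.symm)
  -- missed values against multiple values
  have hsum : ∑ c : κ, N c = q := by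
    have h1 := Finset.card_eq_sum_card_fiberwise (f := fun x : κ => f.eval x)
      (s := (Finset.univ : Finset κ)) (t := (Finset.univ : Finset κ))
      (fun x _ => Finset.mem_coe.2 (Finset.mem_univ _))
    rw [Finset.card_univ] at h1
    exact h1.symm
  have hlow : ∀ c : κ, 1 + (if c ∈ S1 then 1 else 0) ≤ N c + (if c ∈ S0 then 1 else 0) := by
    intro c
    have e1 : c ∈ S1 ↔ 2 ≤ N c := by simp [hS1]
    have e2 : c ∈ S0 ↔ N c = 0 := by simp [hS0]
    split_ifs with h1 h2 h2
    · rw [e1] at h1; rw [e2] at h2; omega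
    · rw [e1] at h1; omega
    · rw [e2] at h2; omega
    · rw [e2] at h2; omega
  have h5 := Finset.sum_le_sum fun (c : κ) (_ : c ∈ Finset.univ) => hlow c
  rw [Finset.sum_add_distrib, Finset.sum_add_distrib, hsum, Finset.sum_const, Finset.card_univ,
    Finset.sum_ite_mem, Finset.sum_ite_mem, Finset.univ_inter, Finset.univ_inter,
    Finset.sum_const, Finset.sum_const] at h5
  simp only [smul_eq_mul, mul_one] at h5
  have h6 : S ⊆ S0 ∪ S1 := by
    intro c hc
    rw [hS, Finset.mem_filter] at hc
    rw [Finset.mem_union, hS0, hS1, Finset.mem_filter, Finset.mem_filter]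
    have := hc.2
    rcases Nat.eq_zero_or_pos (N c) with h | h
    · exact Or.inl ⟨Finset.mem_univ _, h⟩
    · exact Or.inr ⟨Finset.mem_univ _, by omega⟩
  have h7 := (Finset.card_le_card h6).trans (Finset.card_union_le _ _)
  omega

/-- few of the polynomials `f + c` are not separable -/
lemma insep (f : κ[X]) (d : ℕ) (hd : 2 ≤ d) (hf : f.natDegree = d)
    (hdq : d ∣ Fintype.card κ - 1) : {c : κ | ¬ (f + C c).Separable}.ncard ≤ d - 1 := by
  classical
  have hq1 : 1 < Fintype.card κ := Fintype.one_lt_card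
  have hdκ : (d : κ) ≠ 0 := by
    intro h
    obtain ⟨m, hm⟩ := hdq
    have h1 : ((Fintype.card κ : ℕ) : κ) = 0 := by simp
    have h2 : ((Fintype.card κ - 1 : ℕ) : κ) = 0 := by rw [hm, Nat.cast_mul, h, zero_mul]
    rw [Nat.cast_sub hq1.le, h1, Nat.cast_one, zero_sub] at h2
    exact one_ne_zero (neg_eq_zero.1 h2)
  have hlc : f.coeff d ≠ 0 := by
    rw [← hf, ← leadingCoeff, Ne, leadingCoeff_eq_zero]
    rintro rfl
    rw [natDegree_zero] at hf
    omega
  have hder : derivative f ≠ 0 := by
    intro h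
    have h1 := congrArg (fun p => p.coeff (d - 1)) h
    simp only [coeff_derivative, coeff_zero] at h1
    rw [Nat.sub_add_cancel (by omega)] at h1
    have h2 : (((d - 1 : ℕ) : κ) + 1) = d := by
      rw [Nat.cast_sub (by omega), Nat.cast_one, sub_add_cancel]
    rw [h2] at h1
    exact mul_ne_zero hlc hdκ h1
  set A := AlgebraicClosure κ with hA
  have hderA : (derivative f).map (algebraMap κ A) ≠ 0 :=
    (Polynomial.map_ne_zero_iff (algebraMap κ A).injective).2 hder
  set T : Finset A := ((derivative f).map (algebraMap κ A)).roots.toFinset.image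
    (fun β => -(aeval β f)) with hT
  have hTc : T.card ≤ d - 1 := by
    refine Finset.card_image_le.trans ((Multiset.toFinset_card_le _).trans ?_)
    refine (card_roots' _).trans ?_
    rw [natDegree_map]
    have h1 := natDegree_derivative_le f
    rwa [hf] at h1
  refine le_trans ?_ hTc
  rw [← Set.ncard_coe_finset T]
  refine Set.ncard_le_ncard_of_injOn (algebraMap κ A) ?_ ((algebraMap κ A).injective.injOn)
    (Set.toFinite _)
  intro c hc
  have h1 : ¬ IsCoprime ((f + C c).map (algebraMap κ A))
      ((derivative (f + C c)).map (algebraMap κ A)) := by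
    intro h
    apply hc
    rw [separable_def]
    exact (isCoprime_map (algebraMap κ A)).1 h
  have h2 : derivative (f + C c) = derivative f := by
    rw [derivative_add, derivative_C, add_zero]
  rw [h2] at h1
  obtain ⟨β, hβ1, hβ2⟩ : ∃ β : A, ((f + C c).map (algebraMap κ A)).eval β = 0 ∧
      ((derivative f).map (algebraMap κ A)).eval β = 0 := by
    by_contra hcon
    push Not at hcon
    apply h1
    refine isCoprime_of_dvd _ _ (fun h => hderA h.2) ?_
    intro z hz hz0 hz1 hz2
    have hzd : z.degree ≠ 0 := by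
      intro h
      exact hz (isUnit_iff_degree_eq_zero.2 h)
    obtain ⟨β, hβ⟩ := IsAlgClosed.exists_root z hzd
    have e1 : ((f + C c).map (algebraMap κ A)).eval β = 0 := by
      obtain ⟨s, hs⟩ := hz1
      rw [hs, eval_mul, IsRoot.def.1 hβ, zero_mul]
    have e2 : ((derivative f).map (algebraMap κ A)).eval β = 0 := by
      obtain ⟨s, hs⟩ := hz2
      rw [hs, eval_mul, IsRoot.def.1 hβ, zero_mul]
    exact hcon β e1 e2
  rw [Finset.mem_coe, hT, Finset.mem_image]
  refine ⟨β, ?_, ?_⟩
  · rw [Multiset.mem_toFinset, mem_roots hderA]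
    exact hβ2
  · rw [Polynomial.map_add, map_C, eval_add, eval_C, eval_map_algebraMap] at hβ1
    rw [eq_neg_of_add_eq_zero_left hβ1, neg_neg]

/-- many of the polynomials `f + c` are separable without roots -/
theorem good_c (f : κ[X]) (d : ℕ) (hd : 2 ≤ d) (hf : f.natDegree = d)
    (hdq : d ∣ Fintype.card κ - 1) (hlarge : 4 * d ^ 2 ≤ Fintype.card κ - 1) :
    Fintype.card κ - 1 ≤ 4 * d *
      {c : κ | (f + C c).Separable ∧ ∀ x, (f + C c).eval x ≠ 0}.ncard := by
  classical
  have h1 := missed f d hd hf hdq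
  have h2 := insep f d hd hf hdq
  set q := Fintype.card κ with hq
  have h3 : {c : κ | ∀ x, f.eval x ≠ c}.ncard ≤ {c : κ | ∀ x, (f + C c).eval x ≠ 0}.ncard := by
    refine Set.ncard_le_ncard_of_injOn (fun c => -c) ?_ (neg_injective.injOn) (Set.toFinite _)
    intro c hc x hx
    rw [eval_add, eval_C] at hx
    exact hc x (by linear_combination hx)
  have h4 : {c : κ | ∀ x, (f + C c).eval x ≠ 0} ⊆
      {c : κ | (f + C c).Separable ∧ ∀ x, (f + C c).eval x ≠ 0} ∪
        {c : κ | ¬ (f + C c).Separable} := by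
    intro c hc
    by_cases hs : (f + C c).Separable
    · exact Or.inl ⟨hs, hc⟩
    · exact Or.inr hs
  have h5 := (Set.ncard_le_ncard h4 (Set.toFinite _)).trans (Set.ncard_union_le _ _)
  set G := {c : κ | (f + C c).Separable ∧ ∀ x, (f + C c).eval x ≠ 0}.ncard with hG
  obtain ⟨m, hm⟩ := hdq
  rw [hm, Nat.mul_div_cancel_left _ (by omega)] at h1
  rw [hm] at hlarge ⊢
  have h6 : m + 1 ≤ 2 * (G + (d - 1)) := by omega
  obtain ⟨e, rfl⟩ : ∃ e, d = e + 1 := ⟨d - 1, by omega⟩
  rw [Nat.add_sub_cancel] at h6
  have h7 : 4 * (e + 1) ≤ m := by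
    have : (e + 1) * (4 * (e + 1)) ≤ (e + 1) * m := by nlinarith
    exact Nat.le_of_mul_le_mul_left this (by omega)
  have h8 : m ≤ 4 * G := by omega
  calc (e + 1) * m ≤ (e + 1) * (4 * G) := Nat.mul_le_mul_left _ h8
    _ = 4 * (e + 1) * G := by ring

end finite

end Pool.Agent.XE31.SC
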