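import Pool.Agent.XE31.SK
import Pool.Agent.XE31.SJ

/-!
# Counting the good members of a polynomial family modulo the square of a prime
-/

set_option autoImplicit false
set_option maxHeartbeats 400000

namespace Pool.Agent.XE31.SC

open Polynomial WithZero NumberField IsDedekindDomain
open Pool.Agent.TH120.Sec (red pr pr_surj ker_ncard finite_sq card_residue)

universe u w

section count

variable {K : Type u} [Field K] [NumberField K] (v : HeightOneSpectrum (𝓞 K))

/-- the classes modulo `v ^ 2` with first coordinate of valuation one and the others in `T` modulo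
`v` -/
def GT {n : ℕ} (T : Set (Fin n → 𝓞 K ⧸ v.asIdeal)) : Set (Fin (n + 1) → 𝓞 K ⧸ v.asIdeal ^ 2) :=
  {x | pr v (x 0) = 0 ∧ x 0 ≠ 0 ∧ (fun i : Fin n => pr v (x i.succ)) ∈ T}

lemma gen_count {n : ℕ} (T : Set (Fin n → 𝓞 K ⧸ v.asIdeal)) :
    (Ideal.absNorm v.asIdeal - 1) * T.ncard * Ideal.absNorm v.asIdeal ^ n ≤ (GT v T).ncard := by
  classical
  have hfin := finite_sq v
  have hmax : v.asIdeal.IsMaximal := v.isMaximal
  have hfin' : Finite (𝓞 K ⧸ v.asIdeal) := Ideal.finiteQuotientOfFreeOfNeBot _ v.ne_bot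
  let _ : Field (𝓞 K ⧸ v.asIdeal) := Ideal.Quotient.field _
  set N := Ideal.absNorm v.asIdeal with hN
  set J : Set (𝓞 K ⧸ v.asIdeal ^ 2) := {x | pr v x = 0} with hJ
  have hJc : J.ncard = N := ker_ncard v
  have hJ0 : (J \ {0}).ncard = N - 1 := by
    rw [Set.ncard_sdiff_singleton_of_mem (show (0 : 𝓞 K ⧸ v.asIdeal ^ 2) ∈ J from map_zero _), hJc]
  have hJp : (Set.pi Set.univ fun _ : Fin n => J).ncard = N ^ n := by
    rw [← Nat.card_coe_set_eq, Nat.card_congr (Equiv.Set.univPi _), Nat.card_pi]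
    simp only [Nat.card_coe_set_eq, hJc, Finset.prod_const, Finset.card_univ, Fintype.card_fin]
  let s := Function.surjInv (pr_surj v)
  have hs : ∀ x, pr v (s x) = x := Function.surjInv_eq (pr_surj v)
  have h1 : (((J \ {0}) ×ˢ T) ×ˢ (Set.pi Set.univ fun _ : Fin n => J)).ncard ≤
      (GT v T).ncard := by
    refine Set.ncard_le_ncard_of_injOn
      (fun x => Fin.cons x.1.1 fun i => s (x.1.2 i) + x.2 i) ?_ ?_ (Set.toFinite _)
    · rintro ⟨⟨j, c⟩, t⟩ ⟨⟨hj, hc⟩, ht⟩
      have e1 : ∀ i, pr v (s (c i) + t i) = c i := by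
        intro i
        rw [map_add, hs, show pr v (t i) = 0 from ht i (Set.mem_univ i), add_zero]
      refine ⟨hj.1, hj.2, ?_⟩
      change (fun i : Fin n => pr v (s (c i) + t i)) ∈ T
      simp only [e1]
      exact hc
    · rintro ⟨⟨j, c⟩, t⟩ ⟨⟨hj, hc⟩, ht⟩ ⟨⟨j', c'⟩, t'⟩ ⟨⟨hj', hc'⟩, ht'⟩ h
      have h0 : j = j' := congrFun h 0
      have h1 : ∀ i : Fin n, s (c i) + t i = s (c' i) + t' i := fun i => congrFun h i.succ
      have e1 : c = c' := by
        funext i
        have := congrArg (pr v) (h1 i)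
        rwa [map_add, map_add, hs, hs, show pr v (t i) = 0 from ht i (Set.mem_univ i),
          show pr v (t' i) = 0 from ht' i (Set.mem_univ i), add_zero, add_zero] at this
      subst h0 e1
      have e2 : t = t' := by
        funext i
        have := h1 i
        rwa [add_right_inj] at this
      rw [e2]
  rw [Set.ncard_prod, Set.ncard_prod, hJp, hJ0] at h1
  exact h1

lemma gen_bad {n : ℕ} (T : Set (Fin (n + 1) → 𝓞 K ⧸ v.asIdeal)) (B : ℕ) (hB : 0 < B)
    (hT : (Ideal.absNorm v.asIdeal - 1) * Ideal.absNorm v.asIdeal ^ n ≤ B * T.ncard) :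
    (((GT v T)ᶜ).ncard : ℝ) ≤ (1 - (1 / (2 * B)) * (1 / (Ideal.absNorm v.asIdeal : ℝ) -
      1 / (Ideal.absNorm v.asIdeal : ℝ) ^ 2)) * ((Ideal.absNorm v.asIdeal : ℝ) ^ 2) ^ (n + 2) := by
  classical
  have hfin := finite_sq v
  have h1 := gen_count v T
  have h2 : (GT v T).ncard + ((GT v T)ᶜ).ncard = (Ideal.absNorm v.asIdeal ^ 2) ^ (n + 2) := by
    rw [Set.ncard_add_ncard_compl, Nat.card_fun, Pool.Agent.W417.SecC.D2.card_sq, Nat.card_fin]
  set N := Ideal.absNorm v.asIdeal with hN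
  have hN2 : 2 ≤ N := by
    by_contra h
    have h3 : N = 0 ∨ N = 1 := by omega
    rcases h3 with h3 | h3
    · exact absurd h3 (Pool.Agent.W417.SecC.D2.norm_pos v).ne'
    · rw [hN, Ideal.absNorm_eq_one_iff] at h3
      exact v.isPrime.ne_top h3
  have h3 : ((GT v T).ncard : ℝ) + (((GT v T)ᶜ).ncard : ℝ) = ((N : ℝ) ^ 2) ^ (n + 2) := by
    exact_mod_cast h2
  have h5 : ((N - 1 : ℕ) : ℝ) = (N : ℝ) - 1 := by
    rw [Nat.cast_sub (by omega)]
    norm_num
  have hBr : (0 : ℝ) < B := by exact_mod_cast hB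
  have hNr : (2 : ℝ) ≤ N := by exact_mod_cast hN2
  have h4 : ((N : ℝ) - 1) * T.ncard * (N : ℝ) ^ (n + 1) ≤ ((GT v T).ncard : ℝ) := by
    rw [← h5]
    exact_mod_cast h1
  have hTr : ((N : ℝ) - 1) * (N : ℝ) ^ n ≤ B * (T.ncard : ℝ) := by
    rw [← h5]
    exact_mod_cast hT
  have h6 : (1 - (1 / (2 * B)) * (1 / (N : ℝ) - 1 / (N : ℝ) ^ 2)) * ((N : ℝ) ^ 2) ^ (n + 2) =
      ((N : ℝ) ^ 2) ^ (n + 2) - (((N : ℝ) - 1) * (N : ℝ) ^ (2 * n + 2)) / (2 * B) := by
    have hN0 : (N : ℝ) ≠ 0 := by linarith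
    have h7 : ((N : ℝ) ^ 2) ^ (n + 2) = (N : ℝ) ^ 2 * (N : ℝ) ^ (2 * n + 2) := by ring
    rw [h7]
    field_simp
  rw [h6]
  have h7 : (((N : ℝ) - 1) * (N : ℝ) ^ (2 * n + 2)) / (2 * B) ≤ ((GT v T).ncard : ℝ) := by
    refine le_trans ?_ h4
    rw [div_le_iff₀ (by positivity)]
    have hpow : (N : ℝ) ^ (2 * n + 2) = (N : ℝ) ^ n * (N : ℝ) ^ (n + 1) * N := by ring
    have hp1 : (0 : ℝ) ≤ (N : ℝ) ^ (n + 1) := by positivity
    have hN1 : (0 : ℝ) ≤ (N : ℝ) - 1 := by linarith
    have hNn : (0 : ℝ) ≤ (N : ℝ) ^ n := by positivity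
    have e1 : (N : ℝ) ≤ 2 * ((N : ℝ) - 1) := by linarith
    have e2 : (N : ℝ) ^ n * N ≤ 2 * (((N : ℝ) - 1) * (N : ℝ) ^ n) := by
      nlinarith
    have e3 : (N : ℝ) ^ n * N ≤ 2 * (B * (T.ncard : ℝ)) := e2.trans (by linarith)
    rw [hpow]
    calc ((N : ℝ) - 1) * ((N : ℝ) ^ n * (N : ℝ) ^ (n + 1) * N) =
        ((N : ℝ) - 1) * (N : ℝ) ^ (n + 1) * ((N : ℝ) ^ n * N) := by ring
      _ ≤ ((N : ℝ) - 1) * (N : ℝ) ^ (n + 1) * (2 * (B * (T.ncard : ℝ))) :=
        mul_le_mul_of_nonneg_left e3 (mul_nonneg hN1 hp1)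
      _ = ((N : ℝ) - 1) * T.ncard * (N : ℝ) ^ (n + 1) * (2 * B) := by ring
  linarith

end count

/-- the member of the family with the parameters `t` and the constant term raised by `c` -/
noncomputable def memK {R : Type w} [CommRing R] {κ : Type u} [CommRing κ] {r : ℕ}
    (F : (MvPolynomial (Fin r) R)[X]) (π : R →+* κ) (τ : Fin (r + 1) → κ) : κ[X] :=
  F.map (MvPolynomial.eval₂Hom π fun i => τ i.succ) + C (τ 0)

/-- the good parameters over a field -/
def TK {R : Type w} [CommRing R] {κ : Type u} [Field κ] {r : ℕ}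
    (F : (MvPolynomial (Fin r) R)[X]) (π : R →+* κ) : Set (Fin (r + 1) → κ) :=
  {τ | (memK F π τ).natDegree = F.natDegree ∧ (memK F π τ).Separable ∧
    ∀ x, (memK F π τ).eval x ≠ 0}

/-- counting the good parameters -/
theorem TK_card {R : Type w} [CommRing R] {κ : Type u} [Field κ] [Fintype κ] {r : ℕ}
    (F : (MvPolynomial (Fin r) R)[X]) (π : R →+* κ) (hd : 2 ≤ F.natDegree)
    (hdq : F.natDegree ∣ Fintype.card κ - 1) (hlarge : 4 * F.natDegree ^ 2 ≤ Fintype.card κ - 1)
    (hD : 2 * F.leadingCoeff.totalDegree ≤ Fintype.card κ)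
    (hne : MvPolynomial.map π F.leadingCoeff ≠ 0) :
    (Fintype.card κ - 1) * Fintype.card κ ^ r ≤ 8 * F.natDegree * (TK F π).ncard := by
  classical
  set q := Fintype.card κ with hq
  have hq1 : 1 < q := Fintype.one_lt_card
  set d := F.natDegree with hdd
  set p := MvPolynomial.map π F.leadingCoeff with hp
  -- the parameters where the leading coefficient vanishes
  have hsz := MvPolynomial.schwartz_zippel_totalDegree hne (Finset.univ : Finset κ)
  rw [Finset.card_univ, ← hq] at hsz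
  have hpD : p.totalDegree ≤ F.leadingCoeff.totalDegree := by
    rw [hp, MvPolynomial.totalDegree, MvPolynomial.totalDegree]
    exact Finset.sup_mono (MvPolynomial.support_map_subset _ _)
  set A : Finset (Fin r → κ) := Finset.univ.filter fun t => MvPolynomial.eval t p ≠ 0 with hA
  set Z : Finset (Fin r → κ) := Finset.univ.filter fun t => MvPolynomial.eval t p = 0 with hZ
  have hZ' : (Finset.filter (fun f => MvPolynomial.eval f p = 0)
      (Fintype.piFinset fun _ : Fin r => (Finset.univ : Finset κ))) = Z := by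
    ext t
    simp [hZ]
  rw [hZ'] at hsz
  have hqr : (0 : ℚ) < (q : ℚ) ^ r := by positivity
  have hZc : 2 * Z.card ≤ q ^ r := by
    have h1 : ((Z.card : ℚ) / (q : ℚ) ^ r) ≤ (p.totalDegree : ℚ) / (q : ℚ) := by
      exact_mod_cast hsz
    rw [div_le_div_iff₀ hqr (by positivity)] at h1
    have h2 : Z.card * q ≤ p.totalDegree * q ^ r := by exact_mod_cast h1
    have h3 : 2 * Z.card * q ≤ q ^ r * q := by
      calc 2 * Z.card * q = 2 * (Z.card * q) := by ring
        _ ≤ 2 * (p.totalDegree * q ^ r) := Nat.mul_le_mul_left _ h2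
        _ = (2 * p.totalDegree) * q ^ r := by ring
        _ ≤ q * q ^ r := Nat.mul_le_mul_right _ (by omega)
        _ = q ^ r * q := mul_comm _ _
    exact Nat.le_of_mul_le_mul_right h3 (by omega)
  have hAZ : A.card + Z.card = q ^ r := by
    have h1 := Finset.card_filter_add_card_filter_not (s := (Finset.univ : Finset (Fin r → κ)))
      (fun t => MvPolynomial.eval t p ≠ 0)
    simp only [not_not] at h1
    rw [Finset.card_univ, Fintype.card_fun, Fintype.card_fin, ← hq] at h1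
    exact h1
  have hAc : q ^ r ≤ 2 * A.card := by omega
  -- the fibres
  set G : (Fin r → κ) → Finset κ := fun t => Finset.univ.filter fun c =>
    ((F.map (MvPolynomial.eval₂Hom π t)) + C c).Separable ∧
      ∀ x, ((F.map (MvPolynomial.eval₂Hom π t)) + C c).eval x ≠ 0 with hG
  have hdeg : ∀ t ∈ A, (F.map (MvPolynomial.eval₂Hom π t)).natDegree = d := by
    intro t ht
    have h1 : MvPolynomial.eval t p ≠ 0 := (Finset.mem_filter.1 ht).2
    rw [hp, MvPolynomial.eval_map] at h1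
    exact natDegree_map_of_leadingCoeff_ne_zero _ h1
  have hGc : ∀ t ∈ A, q - 1 ≤ 4 * d * (G t).card := by
    intro t ht
    have h1 := good_c (F.map (MvPolynomial.eval₂Hom π t)) d hd (hdeg t ht) hdq hlarge
    have h2 : {c : κ | ((F.map (MvPolynomial.eval₂Hom π t)) + C c).Separable ∧
        ∀ x, ((F.map (MvPolynomial.eval₂Hom π t)) + C c).eval x ≠ 0}.ncard = (G t).card := by
      rw [← Set.ncard_coe_finset]
      congr 1
      ext c
      simp [hG]
    rwa [h2] at h1
  have hsig : (A.sigma G).card ≤ (TK F π).ncard := by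
    rw [← Set.ncard_coe_finset]
    refine Set.ncard_le_ncard_of_injOn
      (fun z : (Σ _ : Fin r → κ, κ) => (Fin.cons z.2 z.1 : Fin (r + 1) → κ)) ?_ ?_ (Set.toFinite _)
    · rintro ⟨t, c⟩ hz
      rw [Finset.mem_coe, Finset.mem_sigma] at hz
      obtain ⟨ht, hc⟩ := hz
      have hc' := (Finset.mem_filter.1 hc).2
      have hmem : memK F π (Fin.cons c t : Fin (r + 1) → κ) =
          F.map (MvPolynomial.eval₂Hom π t) + C c := rfl
      refine ⟨?_, ?_, ?_⟩
      · rw [hmem, natDegree_add_C, hdeg t ht]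
      · rw [hmem]
        exact hc'.1
      · rw [hmem]
        exact hc'.2
    · rintro ⟨t, c⟩ _ ⟨t', c'⟩ _ h
      have h1 : c = c' := congrFun h 0
      have h2 : t = t' := by
        funext i
        exact congrFun h i.succ
      rw [h1, h2]
  rw [Finset.card_sigma] at hsig
  have hsum : A.card * (q - 1) ≤ 4 * d * ∑ t ∈ A, (G t).card := by
    rw [Finset.mul_sum, ← smul_eq_mul, ← Finset.sum_const]
    exact Finset.sum_le_sum hGc
  calc (q - 1) * q ^ r ≤ (q - 1) * (2 * A.card) := Nat.mul_le_mul_left _ hAc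
    _ = 2 * (A.card * (q - 1)) := by ring
    _ ≤ 2 * (4 * d * ∑ t ∈ A, (G t).card) := Nat.mul_le_mul_left _ hsum
    _ = 8 * d * ∑ t ∈ A, (G t).card := by ring
    _ ≤ 8 * d * (TK F π).ncard := Nat.mul_le_mul_left _ hsig

end Pool.Agent.XE31.SC
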