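import Pool.Agent.Y141.PS.FG
import Pool.Agent.Y157.PS.All
import Pool.Agent.Y674.PS.Fun
import Pool.Agent.TH377.Sup.EmbR
import Pool.Agent.XE31.SF
import Pool.Agent.XE31.SL

/-!
# The local theorem at a prime for a polynomial over the finitely generated ring
-/

set_option autoImplicit false
set_option maxHeartbeats 400000

namespace Pool.Agent.XE31.SC

open Polynomial WithZero NumberField IsDedekindDomain Pool.Agent.W858.SF Pool.Agent.W858.SG
open Pool.Agent.TH120.Sec (red pr)
open Pool.Agent.Y157.PS (FineP)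

universe u w

/-- the reduction of the specialisation -/
theorem exists_pi {R L : Type} [CommRing R] [Field L] [NumberField L] (P : R →+* L)
    (v : HeightOneSpectrum (𝓞 L)) (hint : ∀ r, v.valuation L (P r) ≤ 1) :
    ∃ π : R →+* 𝓞 L ⧸ v.asIdeal, ∀ (r : R) (y : 𝓞 L),
      v.valuation L (P r - algebraMap (𝓞 L) L y) < 1 → π r = Ideal.Quotient.mk v.asIdeal y := by
  classical
  have hex : ∀ r : R, ∃ y : 𝓞 L, v.valuation L (P r - algebraMap (𝓞 L) L y) < 1 := by
    intro r
    obtain ⟨y, hy⟩ := exists_int_near {v} (P r) (fun v' hv' => by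
      rw [Finset.mem_singleton] at hv'
      rw [hv']
      exact hint r)
    refine ⟨y, (hy v (Finset.mem_singleton_self v)).trans_lt ?_⟩
    rw [← exp_zero, exp_lt_exp]
    omega
  choose Y hY using hex
  have hint' : ∀ y : 𝓞 L, v.valuation L (algebraMap (𝓞 L) L y) ≤ 1 := fun y =>
    v.valuation_le_one y
  have hmem : ∀ y : 𝓞 L, v.valuation L (algebraMap (𝓞 L) L y) < 1 → y ∈ v.asIdeal := by
    intro y hy
    exact (v.valuation_lt_one_iff_mem y).1 hy
  have key : ∀ (r : R) (y : 𝓞 L), v.valuation L (P r - algebraMap (𝓞 L) L y) < 1 →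
      Ideal.Quotient.mk v.asIdeal (Y r) = Ideal.Quotient.mk v.asIdeal y := by
    intro r y hy
    rw [Ideal.Quotient.eq]
    apply hmem
    have h1 : algebraMap (𝓞 L) L (Y r - y) = (P r - algebraMap (𝓞 L) L y) -
        (P r - algebraMap (𝓞 L) L (Y r)) := by
      rw [map_sub]
      ring
    rw [h1]
    exact (Valuation.map_sub _ _ _).trans_lt (max_lt hy (hY r))
  refine ⟨{ toFun := fun r => Ideal.Quotient.mk v.asIdeal (Y r)
            map_one' := ?_
            map_mul' := ?_
            map_zero' := ?_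
            map_add' := ?_ }, fun r y hy => key r y hy⟩
  · rw [key 1 1 (by
      rw [map_one, map_one, sub_self, map_zero]
      exact zero_lt_one), map_one]
  · intro r s
    rw [← map_mul]
    refine key _ _ ?_
    have h1 : P (r * s) - algebraMap (𝓞 L) L (Y r * Y s) =
        P r * (P s - algebraMap (𝓞 L) L (Y s)) +
        algebraMap (𝓞 L) L (Y s) * (P r - algebraMap (𝓞 L) L (Y r)) := by
      rw [map_mul, map_mul]
      ring
    rw [h1]
    refine (Valuation.map_add _ _ _).trans_lt (max_lt ?_ ?_)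
    · rw [map_mul]
      exact mul_lt_of_le_one_of_lt (hint r) (hY s)
    · rw [map_mul]
      exact mul_lt_of_le_one_of_lt (hint' _) (hY r)
  · rw [key 0 0 (by
      rw [map_zero, map_zero, sub_self, map_zero]
      exact zero_lt_one), map_zero]
  · intro r s
    rw [← map_add]
    refine key _ _ ?_
    have h1 : P (r + s) - algebraMap (𝓞 L) L (Y r + Y s) =
        (P r - algebraMap (𝓞 L) L (Y r)) + (P s - algebraMap (𝓞 L) L (Y s)) := by
      rw [map_add, map_add]
      ring
    rw [h1]
    exact (Valuation.map_add _ _ _).trans_lt (max_lt (hY r) (hY s))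

/-- the local theorem at `v` -/
theorem fineP_res {R k L : Type} [CommRing R] [Field k] [CharZero k] [Algebra R k] [Field L]
    [NumberField L] (v : HeightOneSpectrum (𝓞 L)) (P : R →+* L) (ψ : k →+* v.adicCompletion L)
    (h : Emb v P ψ) (π : R →+* 𝓞 L ⧸ v.asIdeal)
    (hπ : ∀ (r : R) (y : 𝓞 L), v.valuation L (P r - algebraMap (𝓞 L) L y) < 1 →
      π r = Ideal.Quotient.mk v.asIdeal y) (ℓ : ℕ) (hℓp : ℓ.Prime)
    (hℓ : (ℓ : 𝓞 L) ∉ v.asIdeal) (g : R[X]) (hlc : π g.leadingCoeff ≠ 0)
    (hinjk : Function.Injective (algebraMap R k))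
    (hs : (g.map π).Separable) (hroot : ∀ x, (g.map π).eval x ≠ 0) (hdvd : ℓ ∣ g.natDegree)
    (h3 : 3 ≤ g.natDegree) (a : R) (b : 𝓞 L)
    (hab : v.valuation L (P a - algebraMap (𝓞 L) L b) ≤ exp (-2)) (hb : b ∈ v.asIdeal)
    (hb' : b ∉ v.asIdeal ^ 2) : FineP ℓ (algebraMap R k a) (g.map (algebraMap R k)) := by
  classical
  have hfact : Fact ℓ.Prime := ⟨hℓp⟩
  have hfinres := finite_residue v
  have hmax : v.asIdeal.IsMaximal := v.isMaximal
  let _ := Ideal.Quotient.field v.asIdeal
  obtain ⟨θ, hθ, hθr⟩ := exists_residue_map v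
  have hθinj : Function.Injective θ := θ.injective
  have hγ2 : (exp (-2) : ℤᵐ⁰) < 1 := by
    rw [← exp_zero, exp_lt_exp]
    omega
  have hψ1 : ∀ r, vv v (ψ (algebraMap R k r)) ≤ 1 := by
    intro r
    have h1 : ψ (algebraMap R k r) = (ψ (algebraMap R k r) -
      algebraMap L (v.adicCompletion L) (P r)) + algebraMap L (v.adicCompletion L) (P r) := by ring
    rw [h1]
    refine (Valuation.map_add _ _ _).trans (max_le ((h.2 r).trans hγ2.le) ?_)
    rw [vv_algebraMap]
    exact h.1 r
  obtain ⟨gB, hgB⟩ : ∃ gB : (vv v).valuationSubring[X],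
      gB.map (algebraMap (vv v).valuationSubring (v.adicCompletion L)) =
        (g.map (algebraMap R k)).map ψ := by
    have h1 : (g.map (algebraMap R k)).map ψ ∈
        Polynomial.lifts (algebraMap (vv v).valuationSubring (v.adicCompletion L)) := by
      rw [Polynomial.lifts_iff_coeff_lifts]
      intro j
      rw [coeff_map, coeff_map]
      exact ⟨⟨ψ (algebraMap R k (g.coeff j)), hψ1 _⟩, rfl⟩
    obtain ⟨f, hf⟩ := (Polynomial.mem_lifts _).1 h1
    exact ⟨f, hf⟩
  have hcB : ∀ j, ((gB.coeff j : (vv v).valuationSubring) : v.adicCompletion L) =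
      ψ (algebraMap R k (g.coeff j)) := by
    intro j
    have h1 := congrArg (fun q => q.coeff j) hgB
    simp only [coeff_map] at h1
    exact h1
  have hres : ∀ j, IsLocalRing.residue _ (gB.coeff j) = θ (π (g.coeff j)) := by
    intro j
    obtain ⟨y, hy⟩ := exists_int_near {v} (P (g.coeff j)) (fun v' hv' => by
      rw [Finset.mem_singleton] at hv'
      rw [hv']
      exact h.1 _)
    have hy' := hy v (Finset.mem_singleton_self v)
    rw [hπ _ y (hy'.trans_lt hγ2)]
    refine hθr _ _ ?_
    rw [hcB]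
    exact (near_of v P ψ h _ y hy').trans_lt hγ2
  have hgBr : gB.map (IsLocalRing.residue (vv v).valuationSubring) = (g.map π).map θ := by
    ext j
    rw [coeff_map, coeff_map, coeff_map, hres]
  have hdegk : (g.map (algebraMap R k)).natDegree = g.natDegree :=
    natDegree_map_eq_of_injective hinjk g
  have hgBd : gB.natDegree = g.natDegree := by
    have h1 := natDegree_map_eq_of_injective (f := algebraMap (vv v).valuationSubring
      (v.adicCompletion L)) Subtype.val_injective gB
    rw [hgB, natDegree_map, hdegk] at h1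
    exact h1.symm
  have hℓ1 : ¬ (ℓ : ℤ) ∣ (-1 : ℤ) := by
    intro h
    have h5 := Int.natAbs_dvd_natAbs.2 h
    have h6 : ℓ ∣ 1 := by simpa using h5
    exact hℓp.one_lt.ne' (Nat.dvd_one.1 h6)
  refine Pool.Agent.Y141.PS.fineP_of_val
    (Pool.Agent.Y674.PS.funct Pool.Agent.Y157.PS.a_inrt) (vv v) ψ ?_
    (g.map (algebraMap R k)) gB hgB ?_ ?_ (by rwa [hdegk]) (by rwa [hdegk]) ?_ _ (-1) hℓ1 ?_
  · have h5 : (ℓ : v.adicCompletion L) =
        algebraMap L (v.adicCompletion L) (algebraMap (𝓞 L) L ℓ) := by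
      rw [map_natCast, map_natCast]
    rw [h5, vv_algebraMap]
    exact (HeightOneSpectrum.valuation_eq_one_iff_notMem v).2 hℓ
  · have h4 : gB.leadingCoeff ∉ IsLocalRing.maximalIdeal (vv v).valuationSubring := by
      intro h5
      have h7 : IsLocalRing.residue _ gB.leadingCoeff = 0 :=
        (IsLocalRing.residue_eq_zero_iff _).2 h5
      rw [leadingCoeff, hgBd, hres, map_eq_zero_iff _ hθinj] at h7
      exact hlc h7
    by_contra h5
    exact h4 ((IsLocalRing.mem_maximalIdeal _).2 h5)
  · rw [hgBr]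
    exact hs.map
  · intro x hx
    have h6 : IsLocalRing.residue (vv v).valuationSubring (gB.eval x) = 0 :=
      (IsLocalRing.residue_eq_zero_iff _).2 hx
    obtain ⟨z, hz⟩ := hθ (IsLocalRing.residue _ x)
    have h7 : ((g.map π).map θ).eval (θ z) = 0 := by
      rw [← hgBr, hz, eval_map, eval₂_at_apply, h6]
    rw [eval_map, eval₂_at_apply, map_eq_zero_iff _ hθinj] at h7
    exact hroot _ h7
  · have h5 : ψ (algebraMap R k a) = (ψ (algebraMap R k a) -
      algebraMap L (v.adicCompletion L) (algebraMap (𝓞 L) L b)) +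
      algebraMap L (v.adicCompletion L) (algebraMap (𝓞 L) L b) := by ring
    have h7 := Pool.Agent.TH377.Sup.val_eq_of v b hb hb'
    have h6 : vv v (ψ (algebraMap R k a) -
        algebraMap L (v.adicCompletion L) (algebraMap (𝓞 L) L b)) <
        vv v (algebraMap L (v.adicCompletion L) (algebraMap (𝓞 L) L b)) := by
      rw [vv_algebraMap, h7]
      refine (near_of v P ψ h a b hab).trans_lt ?_
      rw [exp_lt_exp]
      omega
    rw [h5, Valuation.map_add_eq_of_lt_right _ h6, vv_algebraMap, h7]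

end Pool.Agent.XE31.SC
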