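import Pool.Agent.XE31.SM

/-!
# Density of the good members of a polynomial family over a finitely generated ring
-/

set_option autoImplicit false
set_option maxHeartbeats 400000

namespace Pool.Agent.XE31.SC

open Polynomial WithZero NumberField IsDedekindDomain Pool.Agent.W858.SF Pool.Agent.W858.SG
open Pool.Agent.TH120.Sec (red pr)
open Pool.Agent.Y157.PS (FineP)

/-- the member of the family for the vector `(a, c, t₁, …, t_r)` -/
noncomputable def memR {R : Type} [CommRing R] {r : ℕ} (F : (MvPolynomial (Fin r) R)[X])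
    (c : Fin (r + 2) → R) : R[X] :=
  F.map (MvPolynomial.eval fun i : Fin r => c i.succ.succ) + C (c 1)

lemma memR_map {R : Type} [CommRing R] {κ : Type} [CommRing κ] {r : ℕ}
    (F : (MvPolynomial (Fin r) R)[X]) (π : R →+* κ) (c : Fin (r + 2) → R) :
    (memR F c).map π = memK F π fun i : Fin (r + 1) => π (c i.succ) := by
  unfold memR memK
  rw [Polynomial.map_add, map_C, Polynomial.map_map]
  congr 1
  congr 1
  apply MvPolynomial.ringHom_ext
  · intro x
    simp
  · intro i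
    simp

lemma sep_iff_res {K : Type*} [Field K] (f : K[X]) (m : ℕ) (hm : f.natDegree = m) (hm0 : 0 < m) :
    f.Separable ↔ resultant f (derivative f) m (m - 1) ≠ 0 := by
  have hf : f ≠ 0 := by
    rintro rfl
    rw [natDegree_zero] at hm
    omega
  have hd : (derivative f).natDegree ≤ m - 1 := by
    rw [← hm]
    exact natDegree_derivative_le f
  obtain ⟨j, hj⟩ := Nat.exists_eq_add_of_le hd
  rw [hj, resultant_add_right_deg _ _ _ _ _ le_rfl]
  have hc : f.coeff m ≠ 0 := by
    rw [← hm]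
    exact leadingCoeff_ne_zero.2 hf
  have h1 := resultant_eq_zero_iff (f := f) (g := derivative f)
  rw [hm] at h1
  rw [separable_def, Ne, mul_eq_zero, not_or]
  constructor
  · intro h
    exact ⟨pow_ne_zero _ hc, fun h2 => (h1.1 h2).2 h⟩
  · rintro ⟨-, h2⟩
    by_contra h3
    exact h2 (h1.2 ⟨Or.inl hf, h3⟩)

/-- separability can be tested after a reduction which preserves the degree -/
lemma sep_of_map {R : Type*} [CommRing R] {κ : Type*} [Field κ] {K : Type*} [Field K]
    (π : R →+* κ) (φ : R →+* K) (hφ : Function.Injective φ) (g : R[X])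
    (h0 : 0 < g.natDegree) (hd : (g.map π).natDegree = g.natDegree)
    (hs : (g.map π).Separable) : (g.map φ).Separable := by
  rw [sep_iff_res _ g.natDegree hd h0, derivative_map, resultant_map_map] at hs
  rw [sep_iff_res _ g.natDegree (natDegree_map_eq_of_injective hφ g) h0, derivative_map,
    resultant_map_map]
  intro h
  rw [map_eq_zero_iff φ hφ] at h
  rw [h, map_zero] at hs
  exact hs rfl

/-- the good vectors -/
def FamGood {R : Type} [CommRing R] (k : Type) [Field k] [Algebra R k] {r : ℕ}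
    (F : (MvPolynomial (Fin r) R)[X]) (c : Fin (r + 2) → R) : Prop :=
  c 0 ≠ 0 ∧ (memR F c).natDegree = F.natDegree ∧ ((memR F c).map (algebraMap R k)).Separable ∧
    ∀ ℓ : ℕ, ℓ.Prime → ℓ ∣ F.natDegree →
    FineP ℓ (algebraMap R k (c 0)) ((memR F c).map (algebraMap R k))

theorem famGood_of {R k L : Type} [CommRing R] [Field k] [CharZero k] [Algebra R k] [Field L]
    [NumberField L] (hinjk : Function.Injective (algebraMap R k)) (v : HeightOneSpectrum (𝓞 L))
    (P : R →+* L) (ψ : k →+* v.adicCompletion L)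
    (h : Emb v P ψ) (π : R →+* 𝓞 L ⧸ v.asIdeal)
    (hπ : ∀ (r : R) (y : 𝓞 L), v.valuation L (P r - algebraMap (𝓞 L) L y) < 1 →
      π r = Ideal.Quotient.mk v.asIdeal y) {r : ℕ} (F : (MvPolynomial (Fin r) R)[X])
    (hd : ((F.natDegree : ℕ) : 𝓞 L) ∉ v.asIdeal) (h3 : 3 ≤ F.natDegree) (c : Fin (r + 2) → R)
    (y : Fin (r + 2) → 𝓞 L) (hcy : NearV v P c y)
    (hy : red (v.asIdeal ^ 2) (r + 2) y ∈
      (letI := v.isMaximal; letI := Ideal.Quotient.field v.asIdeal; GT v (TK F π))) :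
    FamGood k F c := by
  classical
  have hmax : v.asIdeal.IsMaximal := v.isMaximal
  let _ := Ideal.Quotient.field v.asIdeal
  have hγ2 : (exp (-2) : ℤᵐ⁰) < 1 := by
    rw [← exp_zero, exp_lt_exp]
    omega
  obtain ⟨g1, g2, g3⟩ := hy
  have g1' : y 0 ∈ v.asIdeal := Ideal.Quotient.eq_zero_iff_mem.1 g1
  have g2' : y 0 ∉ v.asIdeal ^ 2 := fun h => g2 (Ideal.Quotient.eq_zero_iff_mem.2 h)
  have hπc : ∀ i, π (c i) = Ideal.Quotient.mk v.asIdeal (y i) := fun i =>
    hπ _ _ ((hcy i).trans_lt hγ2)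
  have hτ : (fun i : Fin (r + 1) => pr v (red (v.asIdeal ^ 2) (r + 2) y i.succ)) =
      fun i : Fin (r + 1) => π (c i.succ) := by
    funext i
    rw [hπc]
    rfl
  rw [hτ] at g3
  obtain ⟨t1, t2, t3⟩ := g3
  rw [← memR_map] at t1 t2 t3
  have hdle : (memR F c).natDegree ≤ F.natDegree := by
    unfold memR
    rw [natDegree_add_C]
    exact natDegree_map_le
  have hdge : F.natDegree ≤ (memR F c).natDegree := by
    rw [← t1]
    exact natDegree_map_le
  have hdeg : (memR F c).natDegree = F.natDegree := le_antisymm hdle hdge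
  have hlc : π (memR F c).leadingCoeff ≠ 0 := by
    intro h0
    have h1 : ((memR F c).map π).leadingCoeff = 0 := by
      rw [leadingCoeff, t1, ← hdeg, coeff_map]
      exact h0
    rw [leadingCoeff_eq_zero] at h1
    rw [h1, natDegree_zero] at t1
    omega
  refine ⟨?_, hdeg, sep_of_map π _ hinjk _ (by omega) (by rw [t1, hdeg]) t2, ?_⟩
  · intro h0
    have h1 := hcy 0
    rw [h0, map_zero, zero_sub, Valuation.map_neg,
      Pool.Agent.TH377.Sup.val_eq_of v (y 0) g1' g2', exp_le_exp] at h1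
    omega
  · intro ℓ hℓ hℓd
    refine fineP_res v P ψ h π hπ ℓ hℓ ?_ (memR F c) hlc hinjk t2 t3 (by rwa [hdeg])
      (by rwa [hdeg]) (c 0) (y 0) (hcy 0) g1' g2'
    intro hmem
    apply hd
    obtain ⟨s, hs⟩ := hℓd
    rw [hs, Nat.cast_mul]
    exact Ideal.mul_mem_right _ _ hmem

/-- **Density.** -/
theorem dens_fam {R k : Type} [CommRing R] [IsDomain R] [CharZero R] [Algebra.FiniteType ℤ R]
    [Field k] [Algebra R k] [IsFractionRing R k] {r : ℕ} (F : (MvPolynomial (Fin r) R)[X])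
    (h3 : 3 ≤ F.natDegree) (ε : ℝ) (hε : 0 < ε) :
    ∃ I : Ideal R, Finite (R ⧸ I) ∧
      (Set.ncard ((fun (c : Fin (r + 2) → R) i => Ideal.Quotient.mk I (c i)) ''
        {c | ¬ FamGood k F c}) : ℝ) ≤ ε * (Nat.card (R ⧸ I) : ℝ) ^ (r + 2) := by
  classical
  have hcz : CharZero k := charZero_of_injective_algebraMap (IsFractionRing.injective R k)
  set d := F.natDegree with hd
  have hF0 : F ≠ 0 := by
    rintro rfl
    rw [natDegree_zero] at hd
    omega
  have hlc0 : F.leadingCoeff ≠ 0 := leadingCoeff_ne_zero.2 hF0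
  obtain ⟨μ, hμ⟩ := MvPolynomial.ne_zero_iff.1 hlc0
  set r₀ := MvPolynomial.coeff μ F.leadingCoeff with hr₀
  have hdr : (3 : ℝ) ≤ d := by exact_mod_cast h3
  have hδ1 : (1 / (2 * ((8 * d : ℕ) : ℝ)) : ℝ) ≤ 1 := by
    push_cast
    rw [div_le_one (by positivity)]
    linarith
  have hδ : (0 : ℝ) < 1 / (2 * ((8 * d : ℕ) : ℝ)) := by
    push_cast
    positivity
  refine dens_all2 (R := R) (k := k) {r₀} (fun u hu => by
    rw [Finset.mem_singleton] at hu
    rw [hu]
    exact hμ) (r + 2) d (by omega) _ hδ hδ1 _ ?_ ε hε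
  intro L _ _ P hP
  have hPr : P r₀ ≠ 0 := hP r₀ (Finset.mem_singleton_self _)
  obtain ⟨u, w, hw, huw⟩ := IsFractionRing.div_surjective (A := 𝓞 L) (P r₀)
  have hw0 : w ≠ 0 := nonZeroDivisors.ne_zero hw
  have hwL : algebraMap (𝓞 L) L w ≠ 0 := by
    rw [Ne, map_eq_zero_iff _ (IsFractionRing.injective (𝓞 L) L)]
    exact hw0
  have hu0 : u ≠ 0 := by
    rintro rfl
    rw [map_zero, zero_div] at huw
    exact hPr huw.symm
  set B : ℕ := 4 * d ^ 2 + 1 + 2 * F.leadingCoeff.totalDegree with hB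
  refine ⟨(d : 𝓞 L) * ((B.factorial : ℕ) : 𝓞 L) * u, ?_, ?_⟩
  · refine mul_ne_zero (mul_ne_zero ?_ ?_) hu0
    · exact_mod_cast (by omega : d ≠ 0)
    · exact_mod_cast (Nat.factorial_pos B).ne'
  intro v hv hdv hint
  have hv1 : ((d : ℕ) : 𝓞 L) ∉ v.asIdeal := fun h => hv
    (Ideal.mul_mem_right _ _ (Ideal.mul_mem_right _ _ h))
  have hv2 : ((B.factorial : ℕ) : 𝓞 L) ∉ v.asIdeal := fun h => hv
    (Ideal.mul_mem_right _ _ (Ideal.mul_mem_left _ _ h))
  have hv3 : u ∉ v.asIdeal := fun h => hv (Ideal.mul_mem_left _ _ h)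
  have hbig : B < Ideal.absNorm v.asIdeal := by
    by_contra hcon
    apply hv2
    have h1 : Ideal.absNorm v.asIdeal ∣ B.factorial :=
      Nat.dvd_factorial (Pool.Agent.W417.SecC.D2.norm_pos v) (by omega)
    obtain ⟨s, hs⟩ := h1
    rw [hs, Nat.cast_mul]
    exact Ideal.mul_mem_right _ _ (Ideal.absNorm_mem _)
  obtain ⟨π, hπ⟩ := exists_pi P v hint
  have hmax : v.asIdeal.IsMaximal := v.isMaximal
  have hfin' : Finite (𝓞 L ⧸ v.asIdeal) := Ideal.finiteQuotientOfFreeOfNeBot _ v.ne_bot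
  let _ : Field (𝓞 L ⧸ v.asIdeal) := Ideal.Quotient.field _
  have _ := Fintype.ofFinite (𝓞 L ⧸ v.asIdeal)
  have hcard : Fintype.card (𝓞 L ⧸ v.asIdeal) = Ideal.absNorm v.asIdeal := by
    rw [← Nat.card_eq_fintype_card, Pool.Agent.TH120.Sec.card_residue]
  have hπr : π r₀ ≠ 0 := by
    intro h0
    obtain ⟨y, hy⟩ := exists_int_near {v} (P r₀) (fun v' hv' => by
      rw [Finset.mem_singleton] at hv'
      rw [hv']
      exact hint r₀)
    have hγ2 : (exp (-2) : ℤᵐ⁰) < 1 := by
      rw [← exp_zero, exp_lt_exp]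
      omega
    have hy' := (hy v (Finset.mem_singleton_self v)).trans_lt hγ2
    rw [hπ _ _ hy', Ideal.Quotient.eq_zero_iff_mem] at h0
    have h1 : v.valuation L (algebraMap (𝓞 L) L y) < 1 := (v.valuation_lt_one_iff_mem y).2 h0
    have h2 : v.valuation L (P r₀) < 1 := by
      have h3 : P r₀ = (P r₀ - algebraMap (𝓞 L) L y) + algebraMap (𝓞 L) L y := by ring
      rw [h3]
      exact (Valuation.map_add _ _ _).trans_lt (max_lt hy' h1)
    have h3 : v.valuation L (algebraMap (𝓞 L) L u) = 1 :=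
      (HeightOneSpectrum.valuation_eq_one_iff_notMem v).2 hv3
    have h4 : algebraMap (𝓞 L) L u = algebraMap (𝓞 L) L w * P r₀ := by
      rw [← huw]
      field_simp
    rw [h4, map_mul] at h3
    exact absurd h3 (mul_lt_of_le_one_of_lt (v.valuation_le_one w) h2).ne
  have hT := TK_card F π (by omega) (by rw [hcard]; exact hdv) (by rw [hcard, ← hd]; omega)
    (by rw [hcard]; omega) (by
      intro h0
      apply hπr
      rw [hr₀, ← MvPolynomial.coeff_map, h0, MvPolynomial.coeff_zero])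
  rw [hcard] at hT
  refine ⟨GT v (TK F π), gen_bad v (TK F π) (8 * d) (by omega) hT, ?_⟩
  intro ψ hψ c y hcy hy
  exact famGood_of (IsFractionRing.injective R k) v P ψ hψ π hπ F hv1 h3 c y hcy hy

end Pool.Agent.XE31.SC
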