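import Pool.Agent.XE31.K2

/-!
# Vector valued functions: unfolding
-/

set_option autoImplicit false
set_option linter.all false

open UpperHalfPlane MeasureTheory Metric ModularGroup CongruenceSubgroup
open scoped MatrixGroups ENNReal Modular Topology NNReal ComplexConjugate

namespace Pool.Agent.XE31

open Pool.Agent.H369R2 Pool.Agent.N799.DT

noncomputable section

namespace V1

variable {N : ℕ}

/-- unfolding over the whole group -/
lemma unfold_top [NeZero N] {F : ℍ → ℝ≥0∞} (hF : Measurable F) :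
    ∫⁻ z, ∑' δ : SL(2, ℤ), F (δ • z) ∂(nu N) = 2 * ((Gamma N).index : ℝ≥0∞) * ∫⁻ z, F z := by
  have h := Bessel.unfold_rel (Γ := ⊤) (N := N) le_top hF
  rw [Subgroup.relIndex_top_right] at h
  rw [← h]
  refine lintegral_congr fun z => ?_
  exact (Subgroup.topEquiv.toEquiv.tsum_eq (fun δ : SL(2, ℤ) => F (δ • z))).symm

/-- the sum of the translates of the measure -/
lemma sum_map [NeZero N] :
    Measure.sum (fun δ : SL(2, ℤ) => (nu N).map (fun z => δ • z)) =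
      (2 * ((Gamma N).index : ℝ≥0∞)) • (volume : Measure ℍ) := by
  have hm : ∀ δ : SL(2, ℤ), Measurable fun z : ℍ => δ • z := fun δ => (cont_smul_int δ).measurable
  ext s hs
  rw [Measure.sum_apply _ hs, Measure.smul_apply, smul_eq_mul]
  have h1 : ∀ δ : SL(2, ℤ), (nu N).map (fun z => δ • z) s =
      ∫⁻ z, s.indicator 1 (δ • z) ∂(nu N) := by
    intro δ
    rw [Measure.map_apply (hm δ) hs, ← lintegral_indicator_one (hm δ hs)]
    rfl
  have h2 : ∑' δ : SL(2, ℤ), ∫⁻ z, s.indicator (1 : ℍ → ℝ≥0∞) (δ • z) ∂(nu N) =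
      ∫⁻ z, ∑' δ : SL(2, ℤ), s.indicator (1 : ℍ → ℝ≥0∞) (δ • z) ∂(nu N) :=
    (lintegral_tsum (f := fun (δ : SL(2, ℤ)) z => s.indicator (1 : ℍ → ℝ≥0∞) (δ • z)) fun δ =>
      ((measurable_one.indicator hs).comp (hm δ)).aemeasurable).symm
  rw [tsum_congr h1, h2, unfold_top (F := s.indicator 1) (measurable_one.indicator hs),
    lintegral_indicator_one hs]

/-- unfolding for complex valued functions -/
lemma unfold_C [NeZero N] {f : ℍ → ℂ} (hf : Measurable f) (hfi : ∫⁻ z, ‖f z‖ₑ ≠ ∞) :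
    2 * ((Gamma N).index : ℝ≥0∞) * ‖∫ z, f z‖ₑ ≤
      ∫⁻ z, ‖∑' δ : SL(2, ℤ), f (δ • z)‖ₑ ∂(nu N) := by
  have hm : ∀ δ : SL(2, ℤ), Measurable fun z : ℍ => δ • z := fun δ => (cont_smul_int δ).measurable
  have hr : (2 * ((Gamma N).index : ℝ≥0∞)) ≠ ∞ :=
    ENNReal.mul_ne_top (by norm_num) (ENNReal.natCast_ne_top _)
  have hint : Integrable f (volume : Measure ℍ) := ⟨hf.aestronglyMeasurable, lt_top_iff_ne_top.2 hfi⟩
  have hint2 : Integrable f (Measure.sum (fun δ : SL(2, ℤ) => (nu N).map (fun z => δ • z))) := by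
    rw [sum_map]
    exact hint.smul_measure hr
  have h1 := hasSum_integral_measure hint2
  rw [sum_map, integral_smul_measure] at h1
  have h2 : ∀ δ : SL(2, ℤ), ∫ z, f z ∂((nu N).map (fun z => δ • z)) =
      ∫ z, f (δ • z) ∂(nu N) := by
    intro δ
    rw [integral_map (hm δ).aemeasurable hf.aestronglyMeasurable]
  have h3 : ∑' δ : SL(2, ℤ), ∫⁻ z, ‖f (δ • z)‖ₑ ∂(nu N) ≠ ∞ := by
    have h4 : ∑' δ : SL(2, ℤ), ∫⁻ z, ‖f (δ • z)‖ₑ ∂(nu N) =
        ∫⁻ z, ∑' δ : SL(2, ℤ), ‖f (δ • z)‖ₑ ∂(nu N) :=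
      (lintegral_tsum (f := fun (δ : SL(2, ℤ)) z => ‖f (δ • z)‖ₑ) fun δ =>
        (hf.comp (hm δ)).enorm.aemeasurable).symm
    rw [h4, unfold_top (F := fun z => ‖f z‖ₑ) hf.enorm]
    exact ENNReal.mul_ne_top hr hfi
  have h4 := integral_tsum (μ := nu N) (f := fun (δ : SL(2, ℤ)) z => f (δ • z))
    (fun δ => (hf.comp (hm δ)).aestronglyMeasurable) h3
  have h5 : (2 * ((Gamma N).index : ℝ≥0∞)).toReal • ∫ z, f z =
      ∫ z, ∑' δ : SL(2, ℤ), f (δ • z) ∂(nu N) := by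
    rw [h4, ← h1.tsum_eq]
    exact tsum_congr h2
  have h6 : 2 * ((Gamma N).index : ℝ≥0∞) * ‖∫ z, f z‖ₑ =
      ‖(2 * ((Gamma N).index : ℝ≥0∞)).toReal • ∫ z, f z‖ₑ := by
    rw [enorm_smul]
    congr 1
    rw [← ofReal_norm, Real.norm_of_nonneg ENNReal.toReal_nonneg, ENNReal.ofReal_toReal hr]
  rw [h6, h5]
  exact enorm_integral_le_lintegral_enorm _

end V1

end

end Pool.Agent.XE31
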