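import Pool.Agent.XE31.V7
import Pool.Agent.N799.DT.Main
import Mathlib.RingTheory.RootsOfUnity.Complex

/-!
# The dimension of an irreducible representation in terms of the level
-/

set_option autoImplicit false
set_option linter.all false

open UpperHalfPlane MeasureTheory Metric ModularGroup CongruenceSubgroup Polynomial
open scoped MatrixGroups ENNReal Modular Topology NNReal ComplexConjugate

namespace Pool.Agent.XE31

open Pool.Agent.H369R2 Pool.Agent.N799.DT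

noncomputable section

namespace V10

open V2 V7

variable {d : ℕ} {ρ : SL(2, ℤ) →* Matrix.unitaryGroup (Fin d) ℂ}

/-- the operator of an element -/
def L (ρ : SL(2, ℤ) →* Matrix.unitaryGroup (Fin d) ℂ) (γ : SL(2, ℤ)) :
    Module.End ℂ (Fin d → ℂ) := Matrix.toLin' (V2.mt ρ γ)

lemma L_mul (γ δ : SL(2, ℤ)) : L ρ (γ * δ) = L ρ γ * L ρ δ := by
  unfold L
  rw [mt_mul, Matrix.toLin'_mul]
  rfl

lemma L_one : L ρ 1 = 1 := by
  unfold L
  rw [mt_one, Matrix.toLin'_one]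
  rfl

lemma L_eq {N : ℕ} (hρ : Gamma N ≤ ρ.ker) {δ δ' : SL(2, ℤ)} (h : red N δ = red N δ') :
    L ρ δ = L ρ δ' := by
  unfold L
  rw [mt_eq hρ h]

lemma L_pow (γ : SL(2, ℤ)) (n : ℕ) : L ρ (γ ^ n) = L ρ γ ^ n := by
  induction n with
  | zero => rw [pow_zero, pow_zero, L_one]
  | succ n ih => rw [pow_succ, pow_succ, L_mul, ih]

lemma L_inj (γ : SL(2, ℤ)) (v : Fin d → ℂ) (h : L ρ γ v = 0) : v = 0 := by
  have h1 : L ρ γ⁻¹ (L ρ γ v) = v := by
    rw [← Module.End.mul_apply, ← L_mul, inv_mul_cancel, L_one]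
    rfl
  rw [← h1, h, map_zero]

/-- splitting by an idempotent -/
def spl {R : Type*} [CommRing R] (e : R) (he : e * e = e) (g : SL(2, R)) : SL(2, R) :=
  ⟨!![e + (1 - e) * g 0 0, (1 - e) * g 0 1; (1 - e) * g 1 0, e + (1 - e) * g 1 1], by
    have hg : g 0 0 * g 1 1 - g 0 1 * g 1 0 = 1 := by
      have := g.det_coe
      rwa [Matrix.det_fin_two] at this
    rw [Matrix.det_fin_two_of]
    linear_combination (1 - e) * (1 - e) * hg + (2 - g 0 0 - g 1 1) * he⟩

lemma spl_mul {R : Type*} [CommRing R] (e : R) (he : e * e = e) (he' : (1 - e) * (1 - e) = 1 - e)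
    (g : SL(2, R)) : spl (1 - e) he' g * spl e he g = g := by
  apply Subtype.ext
  rw [Matrix.SpecialLinearGroup.coe_mul]
  have h1 : ((spl e he g : SL(2, R)) : Matrix (Fin 2) (Fin 2) R) =
    !![e + (1 - e) * g 0 0, (1 - e) * g 0 1; (1 - e) * g 1 0, e + (1 - e) * g 1 1] := rfl
  have h2 : ((spl (1 - e) he' g : SL(2, R)) : Matrix (Fin 2) (Fin 2) R) =
    !![(1 - e) + (1 - (1 - e)) * g 0 0, (1 - (1 - e)) * g 0 1;
      (1 - (1 - e)) * g 1 0, (1 - e) + (1 - (1 - e)) * g 1 1] := rfl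
  rw [h1, h2, Matrix.mul_fin_two]
  funext i j
  fin_cases i <;> fin_cases j
  · show _ = g 0 0
    simp only [Matrix.of_apply, Matrix.cons_val', Matrix.cons_val_zero, Matrix.cons_val_fin_one,
      Fin.zero_eta]
    linear_combination (2 * g 0 0 - 1 - g 0 0 ^ 2 - g 0 1 * g 1 0) * he
  · show _ = g 0 1
    simp only [Matrix.of_apply, Matrix.cons_val', Matrix.cons_val_zero, Matrix.cons_val_one,
      Matrix.cons_val_fin_one, Fin.zero_eta, Fin.mk_one]
    linear_combination (2 * g 0 1 - g 0 0 * g 0 1 - g 0 1 * g 1 1) * he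
  · show _ = g 1 0
    simp only [Matrix.of_apply, Matrix.cons_val', Matrix.cons_val_zero, Matrix.cons_val_one,
      Matrix.cons_val_fin_one, Fin.zero_eta, Fin.mk_one]
    linear_combination (2 * g 1 0 - g 0 0 * g 1 0 - g 1 0 * g 1 1) * he
  · show _ = g 1 1
    simp only [Matrix.of_apply, Matrix.cons_val', Matrix.cons_val_zero, Matrix.cons_val_one,
      Matrix.cons_val_fin_one, Fin.zero_eta, Fin.mk_one]
    linear_combination (2 * g 1 1 - 1 - g 1 1 ^ 2 - g 0 1 * g 1 0) * he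

lemma spl_map {R S : Type*} [CommRing R] [CommRing S] (φ : R →+* S) (e : R) (he : e * e = e)
    (g : SL(2, R)) (h : φ e = 1) : Matrix.SpecialLinearGroup.map φ (spl e he g) = 1 := by
  apply Subtype.ext
  funext i j
  show φ ((spl e he g) i j) = _
  unfold spl
  fin_cases i <;> fin_cases j <;> simp [h]

theorem split {N q : ℕ} [NeZero N] (hq : q.Prime) (hqN : q ∣ N) (g : SL(2, ZMod N)) :
    ∃ x y : SL(2, ZMod N), g = y * x ∧
      x * red N (T ^ (N / q)) = red N (T ^ (N / q)) * x ∧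
      ∀ p : ℕ, p.Prime → p ∣ N → p ≠ q → y * red N (T ^ (N / p)) = red N (T ^ (N / p)) * y := by
  have hN0 : N ≠ 0 := NeZero.ne N
  obtain ⟨k, M, hqM, hNe⟩ := Nat.exists_eq_pow_mul_and_not_dvd hN0 q hq.ne_one
  have hk : k ≠ 0 := by
    rintro rfl
    rw [pow_zero, one_mul] at hNe
    exact hqM (hNe ▸ hqN)
  have hcop : Nat.Coprime (q ^ k) M := Nat.Coprime.pow_left k ((Nat.Prime.coprime_iff_not_dvd hq).2 hqM)
  have ha : q ^ k ∣ N := ⟨M, hNe⟩
  have hb : M ∣ N := ⟨q ^ k, by rw [hNe, mul_comm]⟩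
  obtain ⟨n, hn1, hn2⟩ := Nat.chineseRemainder hcop 1 0
  obtain ⟨e, he⟩ : ∃ e : ZMod N, e = (n : ZMod N) := ⟨_, rfl⟩
  have e1 : ZMod.castHom ha (ZMod (q ^ k)) e = 1 := by
    rw [he, map_natCast]
    have := (ZMod.natCast_eq_natCast_iff _ _ _).2 hn1
    rw [this, Nat.cast_one]
  have e2 : ZMod.castHom hb (ZMod M) e = 0 := by
    rw [he, map_natCast]
    have := (ZMod.natCast_eq_natCast_iff _ _ _).2 hn2
    rw [this, Nat.cast_zero]
  have hee : e * e = e := by
    rw [he, ← Nat.cast_mul, ZMod.natCast_eq_natCast_iff, hNe]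
    refine (Nat.modEq_and_modEq_iff_modEq_mul hcop).1 ⟨?_, ?_⟩
    · exact (hn1.mul hn1).trans (by rw [mul_one]; exact hn1.symm)
    · exact (hn2.mul hn2).trans (by rw [mul_zero]; exact hn2.symm)
  have hee' : (1 - e) * (1 - e) = 1 - e := by linear_combination hee
  refine ⟨spl e hee g, spl (1 - e) hee' g, (spl_mul e hee hee' g).symm, ?_, ?_⟩
  · refine Index.ker_comm ha hb (by rw [hNe]) (spl_map _ e hee g e1) ?_
    have h1 := Index.red_T_ker hb (N / q) (by
      rw [hNe, mul_comm, Nat.mul_div_assoc _ (dvd_pow_self q hk)]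
      exact dvd_mul_right _ _) 1
    rwa [one_mul, inv_one, mul_one] at h1
  · intro p hp hpN hpq
    refine Index.ker_comm hb ha (by rw [hNe, mul_comm]) (spl_map _ (1 - e) hee' g (by
      rw [map_sub, map_one, e2, sub_zero])) ?_
    have hpM : p ∣ M := by
      have h2 : Nat.Coprime p (q ^ k) := Nat.Coprime.pow_right k ((Nat.coprime_primes hp hq).2 hpq)
      rw [hNe] at hpN
      exact h2.dvd_of_dvd_mul_left hpN
    have h1 := Index.red_T_ker ha (N / p) (by
      rw [hNe, Nat.mul_div_assoc _ hpM]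
      exact dvd_mul_right _ _) 1
    rwa [one_mul, inv_one, mul_one] at h1

/-- the product of the operators `1 - ρ(T ^ (N / p))` -/
def AA (N : ℕ) (ρ : SL(2, ℤ) →* Matrix.unitaryGroup (Fin d) ℂ) (S : Finset ℕ) :
    Module.End ℂ (Fin d → ℂ) := aeval (L ρ T) (∏ p ∈ S, (1 - X ^ (N / p) : ℂ[X]))

lemma AA_insert {N q : ℕ} {S : Finset ℕ} (h : q ∉ S) :
    AA N ρ (insert q S) = AA N ρ S * (1 - L ρ (T ^ (N / q))) := by
  unfold AA
  rw [Finset.prod_insert h, mul_comm, map_mul, map_sub, map_one, map_pow, aeval_X, L_pow]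

lemma AA_comm {N : ℕ} (S : Finset ℕ) (y : SL(2, ℤ))
    (h : ∀ p ∈ S, L ρ y * L ρ (T ^ (N / p)) = L ρ (T ^ (N / p)) * L ρ y) :
    L ρ y * AA N ρ S = AA N ρ S * L ρ y := by
  classical
  induction S using Finset.induction_on with
  | empty =>
    unfold AA
    rw [Finset.prod_empty, map_one, mul_one, one_mul]
  | insert q S hq ih =>
    rw [AA_insert hq, ← mul_assoc, ih fun p hp => h p (Finset.mem_insert_of_mem hp), mul_assoc,
      mul_assoc, mul_sub, sub_mul, h q (Finset.mem_insert_self _ _), mul_one, one_mul]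

theorem AA_ne {N : ℕ} (hi : Irr ρ) (hN : IsLevel ρ.ker N) (S : Finset ℕ)
    (hS : ∀ p ∈ S, p.Prime ∧ p ∣ N) : AA N ρ S ≠ 0 := by
  classical
  have : NeZero N := ⟨hN.1.ne'⟩
  have hdn : Nonempty (Fin d) := ⟨⟨0, hi.1⟩⟩
  have hnt : Nontrivial (Fin d → ℂ) := inferInstance
  induction S using Finset.induction_on with
  | empty =>
    unfold AA
    rw [Finset.prod_empty, map_one]
    exact one_ne_zero
  | insert q S hq ih =>
    have ih' := ih fun p hp => hS p (Finset.mem_insert_of_mem hp)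
    obtain ⟨hqp, hqN⟩ := hS q (Finset.mem_insert_self _ _)
    intro h0
    rw [AA_insert hq] at h0
    obtain ⟨W, hW⟩ : ∃ W : Submodule ℂ (Fin d → ℂ), W = ⨅ g : SL(2, ℤ),
      LinearMap.ker (AA N ρ S * L ρ g) := ⟨_, rfl⟩
    have hWm : ∀ v, v ∈ W ↔ ∀ g : SL(2, ℤ), AA N ρ S (L ρ g v) = 0 := by
      intro v
      rw [hW, Submodule.mem_iInf]
      exact Iff.rfl
    rcases hi.2 W (by
      intro γ v hv
      rw [hWm] at hv ⊢
      intro g
      have h1 := hv (g * γ)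
      rw [L_mul, Module.End.mul_apply] at h1
      exact h1) with h | h
    · -- `W = ⊥`
      have h1 : ∀ v, (1 - L ρ (T ^ (N / q))) v = 0 := by
        intro v
        have h2 : (1 - L ρ (T ^ (N / q))) v ∈ W := by
          rw [hWm]
          intro g
          obtain ⟨x, y, hxy, hx, hy⟩ := split hqp hqN (red N g)
          obtain ⟨x', rfl⟩ := surj N hN.1 x
          obtain ⟨y', rfl⟩ := surj N hN.1 y
          have c1 : L ρ g = L ρ y' * L ρ x' := by
            rw [← L_mul]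
            exact L_eq hN.2.1 (by rw [hxy, map_mul])
          have c2 : L ρ x' * L ρ (T ^ (N / q)) = L ρ (T ^ (N / q)) * L ρ x' := by
            rw [← L_mul, ← L_mul]
            exact L_eq hN.2.1 (by rw [map_mul, map_mul, hx])
          have c3 : ∀ p ∈ S, L ρ y' * L ρ (T ^ (N / p)) = L ρ (T ^ (N / p)) * L ρ y' := by
            intro p hp
            obtain ⟨hpp, hpN⟩ := hS p (Finset.mem_insert_of_mem hp)
            rw [← L_mul, ← L_mul]
            exact L_eq hN.2.1 (by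
              rw [map_mul, map_mul, hy p hpp hpN (by rintro rfl; exact hq hp)])
          have c4 := AA_comm S y' c3
          have c5 : AA N ρ S * (L ρ g * (1 - L ρ (T ^ (N / q)))) = 0 := by
            have c6 : L ρ x' * (1 - L ρ (T ^ (N / q))) = (1 - L ρ (T ^ (N / q))) * L ρ x' := by
              rw [mul_sub, sub_mul, c2, mul_one, one_mul]
            rw [c1, mul_assoc, c6, ← mul_assoc, ← mul_assoc, ← c4, mul_assoc (L ρ y'), h0, mul_zero,
              zero_mul]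
          exact LinearMap.congr_fun c5 v
        rw [h, Submodule.mem_bot] at h2
        exact h2
      obtain ⟨g, hg⟩ := level ρ.ker N hN q hqp hqN
      apply hg
      have h3 : T ^ (N / q) ∈ ρ.ker := by
        rw [MonoidHom.mem_ker]
        apply Subtype.ext
        have h4 : L ρ (T ^ (N / q)) = L ρ 1 := by
          rw [L_one]
          refine LinearMap.ext fun v => ?_
          have h6 := h1 v
          rw [LinearMap.sub_apply, sub_eq_zero] at h6
          exact h6.symm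
        have h5 := Matrix.toLin'.injective h4
        rw [mt_one] at h5
        exact h5
      exact (MonoidHom.normal_ker ρ).conj_mem _ h3 g
    · apply ih'
      refine LinearMap.ext fun v => ?_
      have h2 : v ∈ W := by rw [h]; trivial
      have h3 := (hWm v).1 h2 1
      rw [L_one] at h3
      exact h3

lemma eig {P : Module.End ℂ (Fin d → ℂ)} {N : ℕ} (hP : P ^ N = 1) {μ : ℂ} (hμ : μ ≠ 0)
    (hμN : μ ^ N = 1) (v : Fin d → ℂ) :
    P (∑ i ∈ Finset.range N, (μ⁻¹) ^ i • (P ^ i) v) =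
      μ • ∑ i ∈ Finset.range N, (μ⁻¹) ^ i • (P ^ i) v := by
  obtain ⟨f, hf⟩ : ∃ f : ℕ → Fin d → ℂ, f = fun i => (μ⁻¹) ^ i • (P ^ i) v := ⟨_, rfl⟩
  have h1 : ∀ i, P (f i) = μ • f (i + 1) := by
    intro i
    rw [hf]
    simp only
    rw [map_smul, smul_smul, pow_succ' P i, Module.End.mul_apply, pow_succ, ← mul_assoc,
      mul_comm μ, mul_assoc, mul_inv_cancel₀ hμ, mul_one]
  have h2 : f N = f 0 := by
    rw [hf]
    simp only
    rw [hP, inv_pow, hμN, pow_zero, pow_zero, inv_one]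
  have h3 : ∑ i ∈ Finset.range N, f (i + 1) = ∑ i ∈ Finset.range N, f i := by
    have e1 := Finset.sum_range_succ f N
    have e2 := Finset.sum_range_succ' f N
    rw [e1, h2] at e2
    exact (add_right_cancel e2).symm
  have h4 : P (∑ i ∈ Finset.range N, f i) = μ • ∑ i ∈ Finset.range N, f i := by
    rw [map_sum, Finset.sum_congr rfl fun i _ => h1 i, ← Finset.smul_sum, h3]
  rw [hf] at h4
  exact h4

theorem exists_eig {N : ℕ} (hi : Irr ρ) (hN : IsLevel ρ.ker N) {ζ : ℂ}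
    (hζ : IsPrimitiveRoot ζ N) :
    ∃ a : ℕ, a.Coprime N ∧ ∃ v : Fin d → ℂ, v ≠ 0 ∧ L ρ T v = ζ ^ a • v := by
  have hN0 : N ≠ 0 := hN.1.ne'
  have : NeZero N := ⟨hN0⟩
  have hζ0 : ζ ≠ 0 := hζ.ne_zero hN0
  have hA := AA_ne hi hN N.primeFactors fun p hp =>
    ⟨Nat.prime_of_mem_primeFactors hp, Nat.dvd_of_mem_primeFactors hp⟩
  obtain ⟨v₀, hv₀⟩ : ∃ v, AA N ρ N.primeFactors v ≠ 0 := by
    by_contra hcon
    push Not at hcon
    exact hA (LinearMap.ext hcon)
  have hP : L ρ T ^ N = 1 := by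
    rw [← L_pow, ← L_one]
    exact L_eq hN.2.1 (by rw [Index.red_T_self, map_one])
  obtain ⟨w, hw⟩ : ∃ w : ℕ → Fin d → ℂ, ∀ a, w a =
      ∑ i ∈ Finset.range N, ((ζ ^ a)⁻¹) ^ i • (L ρ T ^ i) v₀ := ⟨_, fun _ => rfl⟩
  have hsum : ∑ a ∈ Finset.range N, w a = (N : ℂ) • v₀ := by
    rw [Finset.sum_congr rfl fun a _ => hw a, Finset.sum_comm]
    have h1 : ∀ i ∈ Finset.range N, ∑ a ∈ Finset.range N, ((ζ ^ a)⁻¹) ^ i • (L ρ T ^ i) v₀ =
        if i = 0 then (N : ℂ) • v₀ else 0 := by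
      intro i hiN
      rw [Finset.mem_range] at hiN
      split_ifs with h0
      · rw [h0]
        simp only [pow_zero, one_smul, Module.End.one_apply, Finset.sum_const, Finset.card_range]
        rw [← Nat.cast_smul_eq_nsmul ℂ]
      · rw [← Finset.sum_smul]
        have h2 : ∀ a, ((ζ ^ a)⁻¹) ^ i = (((ζ⁻¹) ^ i) ^ a) := by
          intro a
          rw [← inv_pow, ← pow_mul, ← pow_mul, mul_comm]
        rw [Finset.sum_congr rfl fun a _ => h2 a]
        have h3 : (ζ⁻¹) ^ i ≠ 1 := by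
          intro h4
          have h5 := hζ.inv.dvd_of_pow_eq_one i h4
          exact h0 (Nat.eq_zero_of_dvd_of_lt h5 hiN)
        rw [geom_sum_eq h3, ← pow_mul, mul_comm i N, pow_mul, hζ.inv.pow_eq_one, one_pow, sub_self,
          zero_div, zero_smul]
    rw [Finset.sum_congr rfl h1, Finset.sum_ite_eq']
    rw [if_pos (Finset.mem_range.2 hN.1)]
  obtain ⟨a, ha⟩ : ∃ a, AA N ρ N.primeFactors (w a) ≠ 0 := by
    by_contra hcon
    push Not at hcon
    have h1 : AA N ρ N.primeFactors (∑ a ∈ Finset.range N, w a) = 0 := by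
      rw [map_sum, Finset.sum_congr rfl fun a _ => hcon a, Finset.sum_const_zero]
    rw [hsum, map_smul] at h1
    rcases smul_eq_zero.1 h1 with h | h
    · exact hN0 (by exact_mod_cast h)
    · exact hv₀ h
  have hwa : L ρ T (w a) = ζ ^ a • w a := by
    rw [hw]
    exact eig hP (pow_ne_zero _ hζ0) (by rw [← pow_mul, mul_comm, pow_mul, hζ.pow_eq_one, one_pow]) v₀
  have hw0 : w a ≠ 0 := by
    intro h
    rw [h, map_zero] at ha
    exact ha rfl
  refine ⟨a, ?_, w a, hw0, hwa⟩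
  by_contra hcop
  obtain ⟨p, hp, hpa, hpN⟩ := Nat.Prime.not_coprime_iff_dvd.1 hcop
  apply ha
  have hev : Module.End.HasEigenvector (L ρ T) (ζ ^ a) (w a) :=
    ⟨Module.End.mem_eigenspace_iff.2 hwa, hw0⟩
  unfold AA
  rw [Module.End.aeval_apply_of_hasEigenvector hev, eval_prod]
  have h0 : ∏ q ∈ N.primeFactors, eval (ζ ^ a) (1 - X ^ (N / q) : ℂ[X]) = 0 := by
    refine Finset.prod_eq_zero (Nat.mem_primeFactors.2 ⟨hp, hpN, hN0⟩) ?_
    rw [eval_sub, eval_one, eval_pow, eval_X, ← pow_mul]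
    obtain ⟨b, rfl⟩ := hpa
    have h1 : p * b * (N / p) = N * b := by
      obtain ⟨c, rfl⟩ := hpN
      rw [Nat.mul_div_cancel_left _ hp.pos]
      ring
    rw [h1, pow_mul, hζ.pow_eq_one, one_pow, sub_self]
  rw [h0, zero_smul]

/-- the eigenvalues are stable under multiplication by squares -/
theorem eig_sq {N : ℕ} [NeZero N] (hN : Gamma N ≤ ρ.ker) {ζ : ℂ} {a : ℕ} {v : Fin d → ℂ}
    (hv0 : v ≠ 0) (hv : L ρ T v = ζ ^ a • v) (u : (ZMod N)ˣ) :
    ∃ w : Fin d → ℂ, w ≠ 0 ∧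
      L ρ T w = ζ ^ (a * (((u ^ 2 : (ZMod N)ˣ) : ZMod N)).val) • w := by
  have hNpos : 0 < N := Nat.pos_of_ne_zero (NeZero.ne N)
  obtain ⟨m, hm⟩ : ∃ m : ℕ, m = (((u ^ 2 : (ZMod N)ˣ) : ZMod N)).val := ⟨_, rfl⟩
  have hmu : (m : ZMod N) = u ^ 2 := by
    rw [hm, ZMod.natCast_zmod_val]
    push_cast
    rfl
  have huu : ((u⁻¹ : (ZMod N)ˣ) : ZMod N) * (u : ZMod N) = 1 := u.inv_mul
  obtain ⟨D, hD⟩ : ∃ D : SL(2, ZMod N), (D : Matrix (Fin 2) (Fin 2) (ZMod N)) =
      !![((u⁻¹ : (ZMod N)ˣ) : ZMod N), 0; 0, (u : ZMod N)] :=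
    ⟨⟨!![((u⁻¹ : (ZMod N)ˣ) : ZMod N), 0; 0, (u : ZMod N)], by
    rw [Matrix.det_fin_two_of, huu]; ring⟩, rfl⟩
  obtain ⟨γ, hγ⟩ := surj N hNpos D
  have hT : ((T : SL(2, ℤ)) : Matrix (Fin 2) (Fin 2) ℤ) = !![1, 1; 0, 1] := rfl
  have hTm : ((T ^ m : SL(2, ℤ)) : Matrix (Fin 2) (Fin 2) ℤ) = !![1, (m : ℤ); 0, 1] := by
    have := coe_T_zpow (n := (m : ℤ))
    rw [zpow_natCast] at this
    exact this
  have h1 : L ρ (T * γ) = L ρ (γ * T ^ m) := by
    refine L_eq hN ?_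
    rw [map_mul, map_mul, hγ]
    apply Subtype.ext
    rw [Matrix.SpecialLinearGroup.coe_mul, Matrix.SpecialLinearGroup.coe_mul]
    have e1 : ((red N T : SL(2, ZMod N)) : Matrix (Fin 2) (Fin 2) (ZMod N)) = !![1, 1; 0, 1] := by
      funext i j
      show ((T i j : ℤ) : ZMod N) = _
      rw [hT]
      fin_cases i <;> fin_cases j <;> simp
    have e2 : ((red N (T ^ m) : SL(2, ZMod N)) : Matrix (Fin 2) (Fin 2) (ZMod N)) =
        !![1, (m : ZMod N); 0, 1] := by
      funext i j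
      show (((T ^ m : SL(2, ℤ)) i j : ℤ) : ZMod N) = _
      rw [hTm]
      fin_cases i <;> fin_cases j <;> simp
    rw [e1, e2, hD, Matrix.mul_fin_two, Matrix.mul_fin_two, hmu]
    have e3 : ((u⁻¹ : (ZMod N)ˣ) : ZMod N) * (u : ZMod N) ^ 2 = u := by
      linear_combination (u : ZMod N) * huu
    rw [e3]
    simp
  have h2 : ∀ k : ℕ, L ρ (T ^ k) v = ζ ^ (a * k) • v := by
    intro k
    induction k with
    | zero => rw [pow_zero, L_one, mul_zero, pow_zero, one_smul]; rfl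
    | succ k ih =>
      rw [pow_succ, L_mul, Module.End.mul_apply, hv, map_smul, ih, smul_smul, ← pow_add]
      congr 2
      ring
  refine ⟨L ρ γ v, fun h => hv0 (L_inj γ v h), ?_⟩
  rw [← Module.End.mul_apply, ← L_mul, h1, L_mul, Module.End.mul_apply, h2, map_smul, hm]

/-- the dimension is at least the number of squares -/
theorem dim_ge {N : ℕ} (hi : Irr ρ) (hN : IsLevel ρ.ker N) :
    (Set.range fun u : (ZMod N)ˣ => ((u ^ 2 : (ZMod N)ˣ) : ZMod N)).ncard ≤ d := by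
  have hN0 : N ≠ 0 := hN.1.ne'
  have : NeZero N := ⟨hN0⟩
  obtain ⟨ζ, hζ⟩ : ∃ ζ : ℂ, IsPrimitiveRoot ζ N := ⟨_, Complex.isPrimitiveRoot_exp N hN0⟩
  obtain ⟨a, ha, v, hv0, hv⟩ := exists_eig hi hN hζ
  obtain ⟨R, hR⟩ : ∃ R, R = Set.range fun u : (ZMod N)ˣ => ((u ^ 2 : (ZMod N)ˣ) : ZMod N) := ⟨_, rfl⟩
  have h1 : ∀ x : R, ∃ w : Fin d → ℂ, Module.End.HasEigenvector (L ρ T) (ζ ^ (a * x.1.val)) w := by
    rintro ⟨x, hx⟩
    rw [hR] at hx
    obtain ⟨u, rfl⟩ := hx
    obtain ⟨w, hw0, hw⟩ := eig_sq hN.2.1 hv0 hv u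
    exact ⟨w, Module.End.mem_eigenspace_iff.2 hw, hw0⟩
  choose w hw using h1
  have hinj : Function.Injective fun x : R => ζ ^ (a * x.1.val) := by
    intro x y hxy
    have h2 : ζ ^ (a * x.1.val) = ζ ^ (a * y.1.val) := hxy
    have h3 : a * x.1.val ≡ a * y.1.val [MOD N] := by
      have h6 : IsOfFinOrder ζ := isOfFinOrder_iff_pow_eq_one.2 ⟨N, hN.1, hζ.pow_eq_one⟩
      have h7 := h6.pow_eq_pow_iff_modEq.1 h2
      have h8 : orderOf ζ = N := hζ.eq_orderOf.symm
      unfold Nat.ModEq at h7 ⊢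
      rw [h8] at h7
      exact h7
    have h4 : x.1.val ≡ y.1.val [MOD N] := Nat.ModEq.cancel_left_of_coprime
      (by rw [Nat.gcd_comm]; exact ha) h3
    apply Subtype.ext
    have h5 := (ZMod.natCast_eq_natCast_iff _ _ _).2 h4
    rwa [ZMod.natCast_zmod_val, ZMod.natCast_zmod_val] at h5
  have h2 := Module.End.eigenvectors_linearIndependent' (L ρ T) _ hinj w hw
  have hfR : Fintype R := Fintype.ofFinite _
  have h3 := h2.fintype_card_le_finrank
  rw [Module.finrank_fin_fun] at h3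
  rw [← hR, Set.ncard_eq_toFinset_card', Set.toFinset_card]
  convert h3

/-- the level is bounded by the dimension -/
theorem level_le : ∀ ε : ℝ, 0 < ε → ∃ C : ℝ, 0 < C ∧ ∀ (N d : ℕ)
    (ρ : SL(2, ℤ) →* Matrix.unitaryGroup (Fin d) ℂ), Irr ρ → IsLevel ρ.ker N →
    (N : ℝ) ≤ C * (d : ℝ) ^ (1 + ε) := by
  intro ε hε
  obtain ⟨c, hc, h⟩ := many_squares (ε / (1 + ε)) (by positivity)
  refine ⟨(c⁻¹) ^ (1 + ε), by positivity, fun N d ρ hi hN => ?_⟩
  have hN0 : N ≠ 0 := hN.1.ne'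
  have : NeZero N := ⟨hN0⟩
  have hNr : (0 : ℝ) < N := by exact_mod_cast hN.1
  have h1 : c * (N : ℝ) ^ (1 - ε / (1 + ε)) ≤ d :=
    (h N this).trans (by exact_mod_cast dim_ge hi hN)
  have h2 : 1 - ε / (1 + ε) = (1 + ε)⁻¹ := by field_simp; ring
  rw [h2] at h1
  have h3 : (N : ℝ) ^ (1 + ε)⁻¹ ≤ c⁻¹ * d := by
    rw [inv_mul_eq_div, le_div_iff₀ hc, mul_comm]
    exact h1
  calc (N : ℝ) = ((N : ℝ) ^ (1 + ε)⁻¹) ^ (1 + ε) := by
        rw [← Real.rpow_mul hNr.le, inv_mul_cancel₀ (by positivity), Real.rpow_one]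
    _ ≤ (c⁻¹ * d) ^ (1 + ε) := by gcongr
    _ = _ := Real.mul_rpow (by positivity) (by positivity)

end V10

end

end Pool.Agent.XE31
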