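import Pool.Agent.XE31.V8
import Pool.Agent.XE31.V10
import Pool.Agent.N799.DT.Link

/-!
# The density theorem for an irreducible representation
-/

set_option autoImplicit false
set_option linter.all false
set_option maxHeartbeats 400000

open UpperHalfPlane MeasureTheory Metric ModularGroup CongruenceSubgroup
open scoped MatrixGroups ENNReal Modular Topology NNReal ComplexConjugate

namespace Pool.Agent.XE31

open Pool.Agent.H369R2 Pool.Agent.N799.DT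

noncomputable section

namespace V11

open V2 V3 V5 V7 V8 V10

variable {N d : ℕ} {ρ : SL(2, ℤ) →* Matrix.unitaryGroup (Fin d) ℂ} {ν : ℝ} {F : Fin d → ℂ → ℂ}

/-- square integrable vector valued eigenfunctions -/
structure VForm (ρ : SL(2, ℤ) →* Matrix.unitaryGroup (Fin d) ℂ) (ν : ℝ) (F : Fin d → ℂ → ℂ) :
    Prop where
  smooth : ∀ j, ContDiffOn ℝ (⊤ : ℕ∞) (F j) {w : ℂ | 0 < w.im}
  eqv : ∀ (γ : SL(2, ℤ)) (z : ℍ) (j : Fin d),
    F j ((γ • z : ℍ) : ℂ) = ∑ l, V2.mt ρ γ j l * F l (z : ℂ)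
  lap : ∀ (j : Fin d) (z : ℍ), -((z.im : ℂ) ^ 2) *
      (deriv (fun s : ℝ => deriv (fun t : ℝ => F j ((t : ℂ) + (z.im : ℂ) * Complex.I)) s) z.re
        + deriv (fun s : ℝ => deriv (fun t : ℝ => F j ((z.re : ℂ) + (t : ℂ) * Complex.I)) s) z.im)
      = ((1 / 4 - ν ^ 2 : ℝ) : ℂ) * F j (z : ℂ)
  sqint : ∀ j, IntegrableOn (fun w : ℂ => ‖F j w‖ ^ 2 / w.im ^ 2)
    (UpperHalfPlane.coe '' ModularGroup.fd)

lemma VForm.cont (h : VForm ρ ν F) (j : Fin d) : Continuous (fun z : ℍ => F j z) := by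
  have h1 := (h.smooth j).continuousOn
  rw [← continuousOn_univ]
  exact h1.comp continuous_coe.continuousOn fun z _ => z.im_pos

lemma VForm.sq_le (h : VForm ρ ν F) (j : Fin d) (γ : SL(2, ℤ)) (z : ℍ) :
    ‖F j ((γ • z : ℍ) : ℂ)‖ₑ ^ 2 ≤ (d : ℝ≥0∞) * ∑ l, ‖F l (z : ℂ)‖ₑ ^ 2 := by
  have h1 : ‖F j ((γ • z : ℍ) : ℂ)‖ ^ 2 ≤ d * ∑ l, ‖F l (z : ℂ)‖ ^ 2 := by
    rw [h.eqv γ z j]
    have h2 : ‖∑ l, V2.mt ρ γ j l * F l (z : ℂ)‖ ≤ ∑ l, ‖F l (z : ℂ)‖ := by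
      refine (norm_sum_le _ _).trans (Finset.sum_le_sum fun l _ => ?_)
      rw [norm_mul]
      exact mul_le_of_le_one_left (norm_nonneg _) (entry_le γ j l)
    calc ‖∑ l, V2.mt ρ γ j l * F l (z : ℂ)‖ ^ 2 ≤ (∑ l, ‖F l (z : ℂ)‖) ^ 2 := by gcongr
      _ ≤ (Finset.univ : Finset (Fin d)).card * ∑ l, ‖F l (z : ℂ)‖ ^ 2 :=
          sq_sum_le_card_mul_sum_sq
      _ = _ := by rw [Finset.card_univ, Fintype.card_fin]
  rw [enorm_sq_eq]
  refine (ENNReal.ofReal_le_ofReal h1).trans (le_of_eq ?_)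
  rw [ENNReal.ofReal_mul (by positivity), ENNReal.ofReal_natCast,
    ENNReal.ofReal_sum_of_nonneg fun i _ => by positivity]
  congr 1
  exact Finset.sum_congr rfl fun l _ => (enorm_sq_eq _).symm

lemma VForm.fd_fin (h : VForm ρ ν F) (j : Fin d) :
    ∫⁻ z in 𝒟ᵒ, ‖F j (z : ℍ)‖ₑ ^ 2 ≠ ∞ := by
  rw [lint_coe (h.cont j) fun z => rfl]
  have h2 := (h.sqint j).2
  rw [hasFiniteIntegral_iff_enorm] at h2
  refine (lt_of_le_of_lt ?_ h2).ne
  refine (lintegral_mono_set (Set.image_mono ModularGroup.fdo_subset_fd)).trans ?_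
  refine lintegral_mono fun w => ?_
  exact Real.ofReal_le_enorm _

lemma VForm.fin (h : VForm ρ ν F) (hN : 0 < N) (j : Fin d) :
    ∫⁻ z, ‖F j (z : ℍ)‖ₑ ^ 2 ∂(nu N) ≠ ∞ := by
  have : NeZero N := ⟨hN.ne'⟩
  rw [NU2.lint_nu]
  have hfin : Finite (SL(2, ℤ) ⧸ Gamma N) := Subgroup.finite_quotient_of_finiteIndex
  have := Fintype.ofFinite (SL(2, ℤ) ⧸ Gamma N)
  rw [tsum_fintype]
  refine (ENNReal.sum_lt_top.2 fun g _ => ?_).ne
  refine lt_of_le_of_lt (lintegral_mono fun z => h.sq_le j g.out z) ?_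
  rw [lintegral_const_mul _ (Finset.measurable_sum _ fun l _ =>
    (h.cont l).measurable.enorm.pow_const 2), lintegral_finsetSum _ fun l _ =>
    (h.cont l).measurable.enorm.pow_const 2]
  refine ENNReal.mul_lt_top (ENNReal.natCast_lt_top d) (ENNReal.sum_lt_top.2 fun l _ => ?_)
  exact (h.fd_fin l).lt_top

lemma VForm.invN (h : VForm ρ ν F) (hρ : Gamma N ≤ ρ.ker) (j : Fin d) (γ : SL(2, ℤ))
    (hγ : γ ∈ Gamma N) (z : ℍ) : F j ((γ • z : ℍ) : ℂ) = F j (z : ℂ) := by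
  classical
  have h1 : V2.mt ρ γ = 1 := by
    have h2 := hρ hγ
    rw [MonoidHom.mem_ker] at h2
    unfold V2.mt
    rw [h2]
    rfl
  rw [h.eqv γ z j, h1]
  simp only [Matrix.one_apply, ite_mul, one_mul, zero_mul]
  rw [Finset.sum_ite_eq, if_pos (Finset.mem_univ _)]

/-- the vector of `LW` -/
def VForm.comp (h : VForm ρ ν F) (hN : 0 < N) (hρ : Gamma N ≤ ρ.ker) (j : Fin d) : LW N :=
  ⟨fun z : ℍ => F j z, h.cont j, fun γ hγ z => h.invN hρ j γ hγ z, h.fin hN j⟩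

/-- the vector of `VW` -/
def VForm.toVW (h : VForm ρ ν F) (hN : 0 < N) (hρ : Gamma N ≤ ρ.ker) : VW N d :=
  WithLp.toLp 2 (fun j => h.comp hN hρ j)

lemma VForm.toVW_apply (h : VForm ρ ν F) (hN : 0 < N) (hρ : Gamma N ≤ ρ.ker) (j : Fin d) (z : ℍ) :
    ((h.toVW hN hρ j : LW N) : ℍ → ℂ) z = F j z := rfl

lemma VForm.mem (h : VForm ρ ν F) (hN : 0 < N) (hρ : Gamma N ≤ ρ.ker) :
    h.toVW hN hρ ∈ ESV N d ρ ν := by
  refine ⟨fun γ z j => ?_, fun j => ⟨fun γ hγ z => ?_, fun R hR z => ?_⟩⟩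
  · simp only [toVW_apply]
    exact h.eqv γ z j
  · simp only [toVW_apply]
    exact h.invN hρ j γ hγ z
  · exact mv_all ν (F j) ⟨h.smooth j, h.lap j⟩ z R hR

/-- the functions -/
def ev (N d : ℕ) : VW N d →ₗ[ℂ] (ℍ → Fin d → ℂ) where
  toFun u := fun z j => (u j : ℍ → ℂ) z
  map_add' u v := by
    funext z j
    simp only [PiLp.add_apply, Submodule.coe_add, Pi.add_apply]
  map_smul' c u := by
    funext z j
    simp only [PiLp.smul_apply, Submodule.coe_smul, Pi.smul_apply, RingHom.id_apply]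

/-- the density theorem for irreducible representations -/
theorem main : ∀ ε : ℝ, 0 < ε → ∃ C : ℝ, 0 < C ∧ ∀ (d : ℕ)
    (ρ : SL(2, ℤ) →* Matrix.unitaryGroup (Fin d) ℂ), (∃ N : ℕ, 0 < N ∧ Gamma N ≤ ρ.ker) → Irr ρ →
    ∀ (k : ℕ) (ν : Fin k → ℝ) (F : Fin k → Fin d → ℂ → ℂ), (∀ i, ε ≤ ν i) → (∀ i, ν i ≤ 1 / 2) →
      (∀ i, VForm ρ (ν i) (F i)) → LinearIndependent ℂ (fun i => fun (z : ℍ) j => F i j z) →
      ∑ i, (d : ℝ) ^ (2 * ν i) ≤ C * (d : ℝ) ^ (1 + ε) := by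
  intro ε hε
  -- `(1 + η) ^ 2 ≤ 1 + ε`, `η ≤ ε`
  obtain ⟨η, hη⟩ : ∃ η : ℝ, η = ε / (3 + ε) := ⟨_, rfl⟩
  have hη0 : 0 < η := by rw [hη]; positivity
  have hηε : η ≤ ε := by
    rw [hη]
    exact div_le_self hε.le (by linarith)
  have hη1 : η ≤ 1 := by
    rw [hη, div_le_one (by positivity)]
    linarith
  have hη3 : (1 + η) * (1 + η) ≤ 1 + ε := by
    have h1 : 3 * η ≤ ε := by
      rw [hη, mul_div_assoc', div_le_iff₀ (by positivity)]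
      nlinarith
    nlinarith
  obtain ⟨C₁, hC₁, hlev⟩ := level_le η hη0
  obtain ⟨C₂, hC₂, hfin⟩ := final_ESV hη0
  obtain ⟨A, hA⟩ : ∃ A : ℝ, A = max C₁ 1 := ⟨_, rfl⟩
  have hA1 : 1 ≤ A := by rw [hA]; exact le_max_right _ _
  have hAC : C₁ ≤ A := by rw [hA]; exact le_max_left _ _
  have hA0 : 0 < A := by linarith
  refine ⟨C₂ * A ^ (1 + η), by positivity, ?_⟩
  intro d ρ hcong hi k ν F hν hν' hF hli
  obtain ⟨N, hN⟩ := exists_level ρ.ker hcong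
  have hd1 : (1 : ℝ) ≤ d := by exact_mod_cast hi.1
  have hd0 : (0 : ℝ) < d := by linarith
  obtain ⟨M, hM⟩ : ∃ M : ℝ, M = A * (d : ℝ) ^ (1 + η) := ⟨_, rfl⟩
  have hdM : (d : ℝ) ≤ M := by
    rw [hM]
    have h1 : (d : ℝ) ≤ (d : ℝ) ^ (1 + η) := by
      conv_lhs => rw [← Real.rpow_one (d : ℝ)]
      exact Real.rpow_le_rpow_of_exponent_le hd1 (by linarith)
    nlinarith
  have hNM : (N : ℝ) ≤ M := by
    rw [hM]
    refine (hlev N d ρ hi hN).trans ?_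
    gcongr
  have hM0 : 0 < M := by linarith
  have hli' : LinearIndependent ℂ (fun i => (hF i).toVW hN.1 hN.2.1) :=
    LinearIndependent.of_comp (ev N d) hli
  have h1 := hfin N d ρ hN.1 hN.2.1 hi M hNM hdM k ν (fun i => (hF i).toVW hN.1 hN.2.1)
    (fun i => hηε.trans (hν i)) hν' (fun i => (hF i).mem hN.1 hN.2.1) hli'
  calc ∑ i, (d : ℝ) ^ (2 * ν i) ≤ ∑ i, M ^ (2 * ν i) := by
        refine Finset.sum_le_sum fun i _ => ?_
        exact Real.rpow_le_rpow hd0.le hdM (by linarith [hν i])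
    _ ≤ C₂ * M ^ (1 + η) := h1
    _ = C₂ * A ^ (1 + η) * (d : ℝ) ^ ((1 + η) * (1 + η)) := by
        rw [hM, Real.mul_rpow hA0.le (by positivity), ← Real.rpow_mul hd0.le]
        ring
    _ ≤ C₂ * A ^ (1 + η) * (d : ℝ) ^ (1 + ε) := by
        gcongr

end V11

end

end Pool.Agent.XE31
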