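import Pool.Agent.XE31.V1

/-!
# Vector valued functions: the pointwise inequality
-/

set_option autoImplicit false
set_option linter.all false

open UpperHalfPlane MeasureTheory Metric ModularGroup CongruenceSubgroup
open scoped MatrixGroups ENNReal Modular Topology NNReal ComplexConjugate

namespace Pool.Agent.XE31

open Pool.Agent.H369R2 Pool.Agent.N799.DT

noncomputable section

namespace V2

open V1

variable {d : ℕ}

/-- the matrix of `ρ γ` -/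
abbrev mt (ρ : SL(2, ℤ) →* Matrix.unitaryGroup (Fin d) ℂ) (γ : SL(2, ℤ)) :
    Matrix (Fin d) (Fin d) ℂ := (ρ γ : Matrix (Fin d) (Fin d) ℂ)

/-- the character -/
def chi (ρ : SL(2, ℤ) →* Matrix.unitaryGroup (Fin d) ℂ) (γ : SL(2, ℤ)) : ℂ := (mt ρ γ).trace

variable {ρ : SL(2, ℤ) →* Matrix.unitaryGroup (Fin d) ℂ}

lemma mt_mul (γ δ : SL(2, ℤ)) : mt ρ (γ * δ) = mt ρ γ * mt ρ δ := by
  unfold mt
  rw [map_mul]
  rfl

lemma mt_one : mt ρ 1 = 1 := by
  unfold mt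
  rw [map_one]
  rfl

lemma mt_inv (γ : SL(2, ℤ)) : mt ρ γ⁻¹ = (mt ρ γ).conjTranspose := by
  unfold mt
  rw [map_inv]
  rfl

lemma entry_le (γ : SL(2, ℤ)) (j l : Fin d) : ‖mt ρ γ j l‖ ≤ 1 :=
  entry_norm_bound_of_unitary (ρ γ).2 j l

lemma chi_eq (τ τ' : SL(2, ℤ)) : ∑ j, ∑ l, mt ρ τ j l * conj (mt ρ τ' j l) = chi ρ (τ * τ'⁻¹) := by
  unfold chi
  rw [mt_mul, mt_inv, Matrix.trace]
  refine Finset.sum_congr rfl fun j _ => ?_
  rw [Matrix.diag_apply, Matrix.mul_apply]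
  refine Finset.sum_congr rfl fun l _ => ?_
  rw [Matrix.conjTranspose_apply]
  rfl

lemma chi_conj (σ τ : SL(2, ℤ)) : chi ρ (σ⁻¹ * τ * σ) = chi ρ τ := by
  unfold chi
  rw [mt_mul, Matrix.trace_mul_comm, ← mt_mul]
  congr 2
  group

lemma chi_inv (τ : SL(2, ℤ)) : ‖chi ρ τ⁻¹‖ₑ = ‖chi ρ τ‖ₑ := by
  unfold chi
  rw [mt_inv, Matrix.trace_conjTranspose]
  exact RCLike.enorm_conj _

/-- the matrix of sums -/
def GG (ρ : SL(2, ℤ) →* Matrix.unitaryGroup (Fin d) ℂ) (x : SL(2, ℤ) → ℝ) (j l : Fin d) : ℂ :=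
  ∑' τ, (x τ : ℂ) * mt ρ τ j l

lemma summ {x : SL(2, ℤ) → ℝ} (hx0 : ∀ τ, 0 ≤ x τ) (hx : Summable x) (j l : Fin d) :
    Summable fun τ => (x τ : ℂ) * mt ρ τ j l := by
  refine Summable.of_norm_bounded hx fun τ => ?_
  rw [norm_mul, Complex.norm_real, Real.norm_of_nonneg (hx0 τ)]
  exact mul_le_of_le_one_right (hx0 τ) (entry_le τ j l)

/-- the pointwise inequality -/
theorem ptwise {x : SL(2, ℤ) → ℝ} (hx0 : ∀ τ, 0 ≤ x τ) (hx : Summable x) :
    ∑ j, ∑ l, ‖GG ρ x j l‖ₑ ^ 2 ≤ ∑' τ, ∑' τ', ENNReal.ofReal (x τ) *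
      (ENNReal.ofReal (x τ') * ‖chi ρ (τ * τ'⁻¹)‖ₑ) := by
  have hx2 : ∀ τ, ‖(x τ : ℂ)‖ₑ = ENNReal.ofReal (x τ) := by
    intro τ
    rw [← ofReal_norm, Complex.norm_real, Real.norm_of_nonneg (hx0 τ)]
  have hD : ∀ τ, ∑ j, ∑ l, mt ρ τ j l * conj (GG ρ x j l) =
      ∑' τ', (x τ' : ℂ) * chi ρ (τ * τ'⁻¹) := by
    intro τ
    have h1 : ∀ j l, mt ρ τ j l * conj (GG ρ x j l) =
        ∑' τ', (x τ' : ℂ) * (mt ρ τ j l * conj (mt ρ τ' j l)) := by
      intro j l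
      unfold GG
      rw [Complex.conj_tsum, ← tsum_mul_left]
      refine tsum_congr fun τ' => ?_
      rw [map_mul, Complex.conj_ofReal]
      ring
    have hs : ∀ j l, Summable fun τ' => (x τ' : ℂ) * (mt ρ τ j l * conj (mt ρ τ' j l)) := by
      intro j l
      refine Summable.of_norm_bounded hx fun τ' => ?_
      rw [norm_mul, norm_mul, Complex.norm_real, Real.norm_of_nonneg (hx0 τ'), RCLike.norm_conj]
      refine mul_le_of_le_one_right (hx0 τ') ?_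
      exact mul_le_one₀ (entry_le τ j l) (norm_nonneg _) (entry_le τ' j l)
    simp only [h1]
    have h2 : ∀ j, ∑ l, ∑' τ', (x τ' : ℂ) * (mt ρ τ j l * conj (mt ρ τ' j l)) =
        ∑' τ', ∑ l, (x τ' : ℂ) * (mt ρ τ j l * conj (mt ρ τ' j l)) :=
      fun j => (Summable.tsum_finsetSum fun l _ => hs j l).symm
    simp only [h2]
    rw [← Summable.tsum_finsetSum fun j _ => summable_sum fun l _ => hs j l]
    refine tsum_congr fun τ' => ?_
    rw [← chi_eq, Finset.mul_sum]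
    refine Finset.sum_congr rfl fun j _ => ?_
    rw [Finset.mul_sum]
  have hT : ((∑ j, ∑ l, ‖GG ρ x j l‖ ^ 2 : ℝ) : ℂ) = ∑' τ, (x τ : ℂ) *
      ∑ j, ∑ l, mt ρ τ j l * conj (GG ρ x j l) := by
    push_cast
    have h1 : ∀ j l, ((‖GG ρ x j l‖ : ℝ) : ℂ) ^ 2 =
        ∑' τ, (x τ : ℂ) * mt ρ τ j l * conj (GG ρ x j l) := by
      intro j l
      rw [tsum_mul_right]
      change _ = GG ρ x j l * _
      rw [Complex.mul_conj, Complex.normSq_eq_norm_sq]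
      push_cast
      ring
    have hs : ∀ j l, Summable fun τ => (x τ : ℂ) * mt ρ τ j l * conj (GG ρ x j l) :=
      fun j l => (summ hx0 hx j l).mul_right _
    simp only [h1]
    have h2 : ∀ j, ∑ l, ∑' τ, (x τ : ℂ) * mt ρ τ j l * conj (GG ρ x j l) =
        ∑' τ, ∑ l, (x τ : ℂ) * mt ρ τ j l * conj (GG ρ x j l) :=
      fun j => (Summable.tsum_finsetSum fun l _ => hs j l).symm
    simp only [h2]
    rw [← Summable.tsum_finsetSum fun j _ => summable_sum fun l _ => hs j l]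
    refine tsum_congr fun τ => ?_
    rw [Finset.mul_sum]
    refine Finset.sum_congr rfl fun j _ => ?_
    rw [Finset.mul_sum]
    refine Finset.sum_congr rfl fun l _ => ?_
    ring
  have hL : ∑ j, ∑ l, ‖GG ρ x j l‖ₑ ^ 2 = ‖((∑ j, ∑ l, ‖GG ρ x j l‖ ^ 2 : ℝ) : ℂ)‖ₑ := by
    have h0 : 0 ≤ ∑ j, ∑ l, ‖GG ρ x j l‖ ^ 2 :=
      Finset.sum_nonneg fun j _ => Finset.sum_nonneg fun l _ => by positivity
    rw [← ofReal_norm, Complex.norm_real, Real.norm_of_nonneg h0,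
      ENNReal.ofReal_sum_of_nonneg fun j _ => Finset.sum_nonneg fun l _ => by positivity]
    refine Finset.sum_congr rfl fun j _ => ?_
    rw [ENNReal.ofReal_sum_of_nonneg fun l _ => by positivity]
    refine Finset.sum_congr rfl fun l _ => ?_
    rw [enorm_sq_eq]
  rw [hL, hT]
  refine enorm_tsum_le_tsum_enorm.trans ?_
  refine ENNReal.tsum_le_tsum fun τ => ?_
  rw [hD, enorm_mul, hx2, ENNReal.tsum_mul_left]
  refine mul_le_mul' le_rfl (enorm_tsum_le_tsum_enorm.trans ?_)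
  refine ENNReal.tsum_le_tsum fun τ' => ?_
  rw [enorm_mul, hx2]

end V2

end

end Pool.Agent.XE31
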