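import Pool.Agent.XE31.V2

/-!
# Vector valued functions: the Bessel inequality
-/

set_option autoImplicit false
set_option linter.all false

open UpperHalfPlane MeasureTheory Metric ModularGroup CongruenceSubgroup
open scoped MatrixGroups ENNReal Modular Topology NNReal ComplexConjugate

namespace Pool.Agent.XE31

open Pool.Agent.H369R2 Pool.Agent.N799.DT

noncomputable section

namespace V3

open V1 V2

/-- the Hilbert space of vector valued functions -/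
abbrev VW (N d : ℕ) : Type := PiLp 2 (fun _ : Fin d => LW N)

variable {N d : ℕ} {ρ : SL(2, ℤ) →* Matrix.unitaryGroup (Fin d) ℂ}

/-- equivariant functions -/
def Eqv (ρ : SL(2, ℤ) →* Matrix.unitaryGroup (Fin d) ℂ) (F : VW N d) : Prop :=
  ∀ (γ : SL(2, ℤ)) (z : ℍ) (j : Fin d),
    (F j : ℍ → ℂ) (γ • z) = ∑ l, mt ρ γ j l * (F l : ℍ → ℂ) z

lemma two_mul_le' (x y : ℝ≥0∞) : 2 * (x * y) ≤ x ^ 2 + y ^ 2 := by
  by_cases hx : x = ∞
  · rw [hx]; simp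
  by_cases hy : y = ∞
  · rw [hy]; simp
  lift x to ℝ≥0 using hx
  lift y to ℝ≥0 using hy
  have h : 2 * (x * y) ≤ x ^ 2 + y ^ 2 := by
    rw [← NNReal.coe_le_coe]
    push_cast
    nlinarith [sq_nonneg ((x : ℝ) - y)]
  exact_mod_cast h

lemma comb_apply {k : ℕ} (a : Fin k → ℂ) (e : Fin k → VW N d) (j : Fin d) (w : ℍ) :
    (((∑ i, a i • e i : VW N d) j : LW N) : ℍ → ℂ) w = ∑ i, a i * (e i j : ℍ → ℂ) w := by
  have h1 : ∀ s : Finset (Fin k), (((∑ i ∈ s, a i • e i : VW N d) j : LW N) : ℍ → ℂ) w =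
      ∑ i ∈ s, a i * (e i j : ℍ → ℂ) w := by
    classical
    intro s
    induction s using Finset.induction_on with
    | empty => simp
    | insert i s hi ih =>
      rw [Finset.sum_insert hi, Finset.sum_insert hi, PiLp.add_apply, Submodule.coe_add,
        Pi.add_apply, ih, PiLp.smul_apply, Submodule.coe_smul, Pi.smul_apply, smul_eq_mul]
  exact h1 _

lemma Eqv.comb {k : ℕ} (a : Fin k → ℂ) {e : Fin k → VW N d} (hE : ∀ i, Eqv ρ (e i)) :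
    Eqv ρ (∑ i, a i • e i : VW N d) := by
  intro γ z j
  rw [comb_apply]
  simp only [comb_apply]
  have h1 : ∀ i, a i * (e i j : ℍ → ℂ) (γ • z) =
      ∑ l, mt ρ γ j l * (a i * (e i l : ℍ → ℂ) z) := by
    intro i
    rw [hE i γ z j, Finset.mul_sum]
    refine Finset.sum_congr rfl fun l _ => ?_
    ring
  rw [Finset.sum_congr rfl fun i _ => h1 i, Finset.sum_comm]
  refine Finset.sum_congr rfl fun l _ => ?_
  rw [Finset.mul_sum]

lemma norm_sq (u : VW N d) :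
    ∑ l, ∫⁻ w, ‖(u l : ℍ → ℂ) w‖ₑ ^ 2 ∂(nu N) = ENNReal.ofReal (‖u‖ ^ 2) := by
  rw [PiLp.norm_sq_eq_of_L2, ENNReal.ofReal_sum_of_nonneg fun i _ => by positivity]
  refine Finset.sum_congr rfl fun l _ => ?_
  exact LW.lint_sq (u l)

/-- the inequality for one coordinate -/
theorem coord (hN : 0 < N) {k : ℕ} (e : Fin k → VW N d) (he : Orthonormal ℂ e)
    (hE : ∀ i, Eqv ρ (e i)) {b : ℍ → ℝ} (hb : Measurable b) (hb0 : ∀ w, 0 ≤ b w)
    (hbi : ∫⁻ w, ENNReal.ofReal (b w) ≠ ∞)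
    (hbu : ∀ u : LW N, ∫⁻ w, ENNReal.ofReal (b w) * ‖(u : ℍ → ℂ) w‖ₑ ≠ ∞) (j : Fin d) :
    (2 * ((Gamma N).index : ℝ≥0∞)) ^ 2 * ∑ i, ‖∫ w, (b w : ℂ) * (e i j : ℍ → ℂ) w‖ₑ ^ 2 ≤
      ∫⁻ w, ∑ l, ‖GG ρ (fun τ => b (τ • w)) j l‖ₑ ^ 2 ∂(nu N) := by
  have : NeZero N := ⟨hN.ne'⟩
  obtain ⟨c, hc⟩ : ∃ c : Fin k → ℂ, c = fun i => ∫ w, (b w : ℂ) * (e i j : ℍ → ℂ) w := ⟨_, rfl⟩
  obtain ⟨u, hu⟩ : ∃ u : VW N d, u = ∑ i, conj (c i) • e i := ⟨_, rfl⟩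
  obtain ⟨S, hSdef⟩ : ∃ S : ℝ, S = ∑ i, ‖c i‖ ^ 2 := ⟨_, rfl⟩
  have hS0 : 0 ≤ S := by
    rw [hSdef]
    exact Finset.sum_nonneg fun i _ => by positivity
  have hS : ∑ i, ‖∫ w, (b w : ℂ) * (e i j : ℍ → ℂ) w‖ₑ ^ 2 = ENNReal.ofReal S := by
    rw [hSdef, ENNReal.ofReal_sum_of_nonneg fun i _ => by positivity]
    refine Finset.sum_congr rfl fun i _ => ?_
    rw [← enorm_sq_eq, hc]
  have hnorm : ‖u‖ ^ 2 = S := by
    have h1 : ((‖u‖ ^ 2 : ℝ) : ℂ) = inner ℂ u u := by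
      rw [inner_self_eq_norm_sq_to_K]; push_cast; rfl
    rw [hu, he.inner_sum] at h1
    have h2 : ∀ i, conj (conj (c i)) * conj (c i) = ((‖c i‖ ^ 2 : ℝ) : ℂ) := by
      intro i
      rw [Complex.conj_conj, Complex.mul_conj, Complex.normSq_eq_norm_sq]
    rw [Finset.sum_congr rfl fun i _ => h2 i, ← Complex.ofReal_sum] at h1
    rw [hu, hSdef]
    exact_mod_cast h1
  have hbn : ∀ w, ‖(b w : ℂ)‖ₑ = ENNReal.ofReal (b w) := by
    intro w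
    rw [← ofReal_norm, Complex.norm_real, Real.norm_of_nonneg (hb0 w)]
  have hbc : Measurable fun w => (b w : ℂ) := Complex.measurable_ofReal.comp hb
  have hintb : ∀ v : LW N, Integrable (fun w => (b w : ℂ) * (v : ℍ → ℂ) w) := by
    intro v
    refine ⟨(hbc.mul (LW.cont v).measurable).aestronglyMeasurable, ?_⟩
    rw [hasFiniteIntegral_iff_enorm, lt_top_iff_ne_top]
    simp only [enorm_mul, hbn]
    exact hbu v
  have hval : ∫ w, (b w : ℂ) * (u j : ℍ → ℂ) w = (S : ℂ) := by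
    have h1 : ∀ w, (b w : ℂ) * (u j : ℍ → ℂ) w =
        ∑ i, conj (c i) * ((b w : ℂ) * (e i j : ℍ → ℂ) w) := by
      intro w
      rw [hu, comb_apply, Finset.mul_sum]
      refine Finset.sum_congr rfl fun i _ => ?_
      ring
    rw [integral_congr_ae (Filter.Eventually.of_forall h1),
      integral_finset_sum _ fun i _ => (hintb (e i j)).const_mul _, hSdef, Complex.ofReal_sum]
    refine Finset.sum_congr rfl fun i _ => ?_
    rw [integral_const_mul]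
    have h2 : ∫ w, (b w : ℂ) * (e i j : ℍ → ℂ) w = c i := by rw [hc]
    rw [h2, mul_comm, Complex.mul_conj, Complex.normSq_eq_norm_sq]
  have hEu : Eqv ρ u := by
    rw [hu]
    exact Eqv.comb _ hE
  -- unfolding
  obtain ⟨r, hr⟩ : ∃ r : ℝ≥0∞, r = 2 * ((Gamma N).index : ℝ≥0∞) := ⟨_, rfl⟩
  have hrt : r ≠ ∞ := by
    rw [hr]
    exact ENNReal.mul_ne_top (by norm_num) (ENNReal.natCast_ne_top _)
  have hmeasf : Measurable fun w => (b w : ℂ) * (u j : ℍ → ℂ) w :=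
    hbc.mul (LW.cont (u j)).measurable
  have h1 := unfold_C (N := N) hmeasf (by
    simp only [enorm_mul, hbn]
    exact hbu (u j))
  rw [hval, ← hr] at h1
  have h2 : ‖(S : ℂ)‖ₑ = ENNReal.ofReal S := by
    rw [← ofReal_norm, Complex.norm_real, Real.norm_of_nonneg hS0]
  rw [h2] at h1
  -- almost everywhere summability
  have hae : ∀ᵐ w ∂(nu N), ∑' τ : SL(2, ℤ), ENNReal.ofReal (b (τ • w)) < ∞ := by
    apply ae_lt_top
    · exact Measurable.ennreal_tsum fun τ => (hb.comp (cont_smul_int τ).measurable).ennreal_ofReal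
    · rw [unfold_top (F := fun w => ENNReal.ofReal (b w)) hb.ennreal_ofReal, ← hr]
      exact ENNReal.mul_ne_top hrt hbi
  have h3 : ∀ᵐ w ∂(nu N), ‖∑' δ : SL(2, ℤ), (b (δ • w) : ℂ) * (u j : ℍ → ℂ) (δ • w)‖ₑ ≤
      ∑ l, ‖GG ρ (fun τ => b (τ • w)) j l‖ₑ * ‖(u l : ℍ → ℂ) w‖ₑ := by
    filter_upwards [hae] with w hw
    have hsum : Summable fun τ : SL(2, ℤ) => b (τ • w) := by
      have h4 : ∀ τ : SL(2, ℤ), b (τ • w) = (ENNReal.ofReal (b (τ • w))).toReal := fun τ =>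
        (ENNReal.toReal_ofReal (hb0 _)).symm
      rw [funext h4]
      exact ENNReal.summable_toReal hw.ne
    have h5 : ∑' δ : SL(2, ℤ), (b (δ • w) : ℂ) * (u j : ℍ → ℂ) (δ • w) =
        ∑ l, GG ρ (fun τ => b (τ • w)) j l * (u l : ℍ → ℂ) w := by
      have h6 : ∀ δ : SL(2, ℤ), (b (δ • w) : ℂ) * (u j : ℍ → ℂ) (δ • w) =
          ∑ l, (b (δ • w) : ℂ) * mt ρ δ j l * (u l : ℍ → ℂ) w := by
        intro δ
        rw [hEu δ w j, Finset.mul_sum]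
        refine Finset.sum_congr rfl fun l _ => ?_
        ring
      rw [tsum_congr h6, Summable.tsum_finsetSum fun l _ =>
        (summ (ρ := ρ) (fun τ => hb0 (τ • w)) hsum j l).mul_right _]
      refine Finset.sum_congr rfl fun l _ => ?_
      rw [tsum_mul_right]
      rfl
    rw [h5]
    refine (enorm_sum_le _ _).trans (le_of_eq ?_)
    refine Finset.sum_congr rfl fun l _ => ?_
    rw [enorm_mul]
  have h4 : r * ENNReal.ofReal S ≤
      ∫⁻ w, ∑ l, ‖GG ρ (fun τ => b (τ • w)) j l‖ₑ * ‖(u l : ℍ → ℂ) w‖ₑ ∂(nu N) :=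
    h1.trans (lintegral_mono_ae h3)
  have h5 : 2 * (r * (r * ENNReal.ofReal S)) ≤
      (∫⁻ w, ∑ l, ‖GG ρ (fun τ => b (τ • w)) j l‖ₑ ^ 2 ∂(nu N)) + r ^ 2 * ENNReal.ofReal S := by
    have hmu : Measurable fun w : ℍ => ∑ l, (r * ‖(u l : ℍ → ℂ) w‖ₑ) ^ 2 :=
      Finset.measurable_fun_sum _ fun l _ => ((LW.cont (u l)).measurable.enorm.const_mul _).pow_const 2
    calc 2 * (r * (r * ENNReal.ofReal S))
        ≤ (2 * r) * ∫⁻ w, ∑ l, ‖GG ρ (fun τ => b (τ • w)) j l‖ₑ * ‖(u l : ℍ → ℂ) w‖ₑ ∂(nu N) := by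
          rw [← mul_assoc]
          exact mul_le_mul' le_rfl h4
      _ = ∫⁻ w, (2 * r) * ∑ l, ‖GG ρ (fun τ => b (τ • w)) j l‖ₑ * ‖(u l : ℍ → ℂ) w‖ₑ ∂(nu N) :=
          (lintegral_const_mul' _ _ (ENNReal.mul_ne_top (by norm_num) hrt)).symm
      _ ≤ ∫⁻ w, ((∑ l, ‖GG ρ (fun τ => b (τ • w)) j l‖ₑ ^ 2) +
            ∑ l, (r * ‖(u l : ℍ → ℂ) w‖ₑ) ^ 2) ∂(nu N) := by
          refine lintegral_mono fun w => ?_
          simp only
          rw [← Finset.sum_add_distrib, Finset.mul_sum]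
          refine Finset.sum_le_sum fun l _ => ?_
          refine le_trans (le_of_eq ?_) (two_mul_le' _ _)
          ring
      _ = (∫⁻ w, ∑ l, ‖GG ρ (fun τ => b (τ • w)) j l‖ₑ ^ 2 ∂(nu N)) +
            ∫⁻ w, ∑ l, (r * ‖(u l : ℍ → ℂ) w‖ₑ) ^ 2 ∂(nu N) := lintegral_add_right _ hmu
      _ = _ := by
          congr 1
          rw [lintegral_finsetSum _ fun l _ =>
            ((LW.cont (u l)).measurable.enorm.const_mul _).pow_const 2]
          have h6 : ∀ l, ∫⁻ w, (r * ‖(u l : ℍ → ℂ) w‖ₑ) ^ 2 ∂(nu N) =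
              r ^ 2 * ∫⁻ w, ‖(u l : ℍ → ℂ) w‖ₑ ^ 2 ∂(nu N) := by
            intro l
            rw [← lintegral_const_mul _ ((LW.cont (u l)).measurable.enorm.pow_const 2)]
            refine lintegral_congr fun w => ?_
            rw [mul_pow]
          rw [Finset.sum_congr rfl fun l _ => h6 l, ← Finset.mul_sum, norm_sq, hnorm]
  rw [← hr, hS]
  have h6 : r ^ 2 * ENNReal.ofReal S ≠ ∞ :=
    ENNReal.mul_ne_top (ENNReal.pow_ne_top hrt) ENNReal.ofReal_ne_top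
  have h7 : 2 * (r * (r * ENNReal.ofReal S)) = r ^ 2 * ENNReal.ofReal S + r ^ 2 * ENNReal.ofReal S := by
    ring
  rw [h7] at h5
  exact (ENNReal.add_le_add_iff_right h6).1 h5

lemma sum_lintegral_le {ι : Type} (s : Finset ι) {α : Type} [MeasurableSpace α] (μ : Measure α)
    (f : ι → α → ℝ≥0∞) : ∑ i ∈ s, ∫⁻ a, f i a ∂μ ≤ ∫⁻ a, ∑ i ∈ s, f i a ∂μ := by
  classical
  induction s using Finset.induction_on with
  | empty => simp
  | insert i s hi ih =>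
    rw [Finset.sum_insert hi]
    simp only [Finset.sum_insert hi]
    exact (add_le_add le_rfl ih).trans (le_lintegral_add _ _)

/-- the Bessel inequality for vector valued functions -/
theorem fam_V (hN : 0 < N) {k : ℕ} (e : Fin k → VW N d) (he : Orthonormal ℂ e)
    (hE : ∀ i, Eqv ρ (e i)) {b : ℍ → ℝ} (hb : Measurable b) (hb0 : ∀ w, 0 ≤ b w)
    (hbi : ∫⁻ w, ENNReal.ofReal (b w) ≠ ∞)
    (hbu : ∀ u : LW N, ∫⁻ w, ENNReal.ofReal (b w) * ‖(u : ℍ → ℂ) w‖ₑ ≠ ∞) :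
    2 * ((Gamma N).index : ℝ≥0∞) * ∑ i, ∑ j, ‖∫ w, (b w : ℂ) * (e i j : ℍ → ℂ) w‖ₑ ^ 2 ≤
      ∑' σ : SL(2, ℤ), ‖chi ρ σ‖ₑ *
        ∫⁻ w, ENNReal.ofReal (b w) * ENNReal.ofReal (b (σ • w)) := by
  have : NeZero N := ⟨hN.ne'⟩
  obtain ⟨r, hr⟩ : ∃ r : ℝ≥0∞, r = 2 * ((Gamma N).index : ℝ≥0∞) := ⟨_, rfl⟩
  have hrt : r ≠ ∞ := by
    rw [hr]
    exact ENNReal.mul_ne_top (by norm_num) (ENNReal.natCast_ne_top _)
  have hr0 : r ≠ 0 := by
    rw [hr]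
    refine mul_ne_zero two_ne_zero ?_
    exact_mod_cast Subgroup.FiniteIndex.index_ne_zero
  have hbm : ∀ τ : SL(2, ℤ), Measurable fun w : ℍ => ENNReal.ofReal (b (τ • w)) :=
    fun τ => (hb.comp (cont_smul_int τ).measurable).ennreal_ofReal
  have hae : ∀ᵐ w ∂(nu N), ∑' τ : SL(2, ℤ), ENNReal.ofReal (b (τ • w)) < ∞ := by
    apply ae_lt_top
    · exact Measurable.ennreal_tsum fun τ => hbm τ
    · rw [unfold_top (F := fun w => ENNReal.ofReal (b w)) hb.ennreal_ofReal, ← hr]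
      exact ENNReal.mul_ne_top hrt hbi
  have h1 : r ^ 2 * ∑ i, ∑ j, ‖∫ w, (b w : ℂ) * (e i j : ℍ → ℂ) w‖ₑ ^ 2 ≤
      ∫⁻ w, ∑ j, ∑ l, ‖GG ρ (fun τ => b (τ • w)) j l‖ₑ ^ 2 ∂(nu N) := by
    rw [Finset.sum_comm, Finset.mul_sum]
    refine le_trans (Finset.sum_le_sum fun j _ => ?_) (sum_lintegral_le _ _ _)
    rw [hr]
    exact coord hN e he hE hb hb0 hbi hbu j
  have h2 : ∀ᵐ w ∂(nu N), ∑ j, ∑ l, ‖GG ρ (fun τ => b (τ • w)) j l‖ₑ ^ 2 ≤
      ∑' τ : SL(2, ℤ), (fun w => ENNReal.ofReal (b w) *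
        ∑' σ : SL(2, ℤ), ENNReal.ofReal (b (σ⁻¹ • w)) * ‖chi ρ σ‖ₑ) (τ • w) := by
    filter_upwards [hae] with w hw
    have hsum : Summable fun τ : SL(2, ℤ) => b (τ • w) := by
      have h4 : ∀ τ : SL(2, ℤ), b (τ • w) = (ENNReal.ofReal (b (τ • w))).toReal := fun τ =>
        (ENNReal.toReal_ofReal (hb0 _)).symm
      rw [funext h4]
      exact ENNReal.summable_toReal hw.ne
    refine (ptwise (ρ := ρ) (fun τ => hb0 (τ • w)) hsum).trans (le_of_eq ?_)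
    refine tsum_congr fun τ => ?_
    rw [ENNReal.tsum_mul_left]
    congr 1
    rw [← ((Equiv.inv SL(2, ℤ)).trans (Equiv.mulRight τ)).tsum_eq
      (fun τ' => ENNReal.ofReal (b (τ' • w)) * ‖chi ρ (τ * τ'⁻¹)‖ₑ)]
    refine tsum_congr fun σ => ?_
    have e1 : ((Equiv.inv SL(2, ℤ)).trans (Equiv.mulRight τ)) σ = σ⁻¹ * τ := rfl
    rw [e1, mul_smul]
    congr 3
    group
  have hH : Measurable fun w : ℍ => ENNReal.ofReal (b w) *
        ∑' σ : SL(2, ℤ), ENNReal.ofReal (b (σ⁻¹ • w)) * ‖chi ρ σ‖ₑ :=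
    hb.ennreal_ofReal.mul (Measurable.ennreal_tsum fun σ => (hbm σ⁻¹).mul_const _)
  have h3 := h1.trans (lintegral_mono_ae h2)
  rw [unfold_top hH, ← hr] at h3
  have h4 : ∫⁻ w, ENNReal.ofReal (b w) *
        ∑' σ : SL(2, ℤ), ENNReal.ofReal (b (σ⁻¹ • w)) * ‖chi ρ σ‖ₑ =
      ∑' σ : SL(2, ℤ), ‖chi ρ σ‖ₑ *
        ∫⁻ w, ENNReal.ofReal (b w) * ENNReal.ofReal (b (σ • w)) := by
    have e1 : ∀ w, ENNReal.ofReal (b w) *
        ∑' σ : SL(2, ℤ), ENNReal.ofReal (b (σ⁻¹ • w)) * ‖chi ρ σ‖ₑ =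
        ∑' σ : SL(2, ℤ), ‖chi ρ σ‖ₑ * (ENNReal.ofReal (b w) * ENNReal.ofReal (b (σ⁻¹ • w))) := by
      intro w
      rw [← ENNReal.tsum_mul_left]
      refine tsum_congr fun σ => ?_
      ring
    have e2 : ∀ σ : SL(2, ℤ), Measurable fun w : ℍ =>
        ENNReal.ofReal (b w) * ENNReal.ofReal (b (σ • w)) :=
      fun σ => hb.ennreal_ofReal.mul (hbm σ)
    rw [lintegral_congr e1, lintegral_tsum fun σ => ((e2 σ⁻¹).const_mul _).aemeasurable,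
      ← (Equiv.inv SL(2, ℤ)).tsum_eq]
    refine tsum_congr fun σ => ?_
    have e3 : (Equiv.inv SL(2, ℤ)) σ = σ⁻¹ := rfl
    rw [e3, inv_inv, lintegral_const_mul _ (e2 σ), chi_inv]
  rw [h4] at h3
  rw [← hr]
  have h5 : r * (r * ∑ i, ∑ j, ‖∫ w, (b w : ℂ) * (e i j : ℍ → ℂ) w‖ₑ ^ 2) ≤
      r * ∑' σ : SL(2, ℤ), ‖chi ρ σ‖ₑ *
        ∫⁻ w, ENNReal.ofReal (b w) * ENNReal.ofReal (b (σ • w)) := by
    refine le_trans (le_of_eq ?_) h3
    ring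
  exact (ENNReal.mul_le_mul_iff_right hr0 hrt).1 h5

end V3

end

end Pool.Agent.XE31
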