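import Pool.Agent.XE31.V3

/-!
# Vector valued functions: the trace inequality
-/

set_option autoImplicit false
set_option linter.all false

open UpperHalfPlane MeasureTheory Metric ModularGroup CongruenceSubgroup
open scoped MatrixGroups ENNReal Modular Topology NNReal ComplexConjugate

namespace Pool.Agent.XE31

open Pool.Agent.H369R2 Pool.Agent.N799.DT

noncomputable section

namespace V4

open V1 V2 V3

variable {N d : ℕ} {ρ : SL(2, ℤ) →* Matrix.unitaryGroup (Fin d) ℂ}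

/-- unfolding over the whole group outside the cusps -/
theorem unf_top (hN : 0 < N) (P : ℍ → ℝ≥0∞) (q : SL(2, ℤ) → ℍ → ℝ≥0∞)
    (hq : ∀ τ, Measurable (q τ)) (hPq : ∀ z, P z = ∑' τ : SL(2, ℤ), q τ z)
    (hP : ∀ (σ : SL(2, ℤ)) (z : ℍ), P (σ • z) = P z) (Y : ℝ) :
    ∫⁻ z in (cuspRegion Y)ᶜ, P z ∂(nu N) =
      ((Gamma N).index : ℝ≥0∞) * ∫⁻ z in 𝒟ᵒ ∩ (cuspRegion Y)ᶜ, ∑' τ : SL(2, ℤ), q τ z := by
  have : NeZero N := ⟨hN.ne'⟩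
  have : Countable (SL(2, ℤ) ⧸ Gamma N) := Quotient.countable
  have : Finite (SL(2, ℤ) ⧸ Gamma N) := Subgroup.finite_quotient_of_finiteIndex
  have := Fintype.ofFinite (SL(2, ℤ) ⧸ Gamma N)
  have hms : MeasurableSet (cuspRegion Y)ᶜ := (measurableSet_cuspRegion Y).compl
  have hPm : Measurable P := by
    rw [funext hPq]
    exact Measurable.ennreal_tsum hq
  rw [← lintegral_indicator hms, NU2.lint_nu]
  have h1 : ∀ g : SL(2, ℤ) ⧸ Gamma N, ∫⁻ z in 𝒟ᵒ, (cuspRegion Y)ᶜ.indicator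
      (fun z => P z) (g.out • z) = ∫⁻ z in 𝒟ᵒ ∩ (cuspRegion Y)ᶜ, ∑' τ : SL(2, ℤ), q τ z := by
    intro g
    have e1 : ∀ z : ℍ, (cuspRegion Y)ᶜ.indicator (fun z => P z) (g.out • z) =
        (cuspRegion Y)ᶜ.indicator (fun z => ∑' τ : SL(2, ℤ), q τ z) z := by
      intro z
      by_cases hz : z ∈ (cuspRegion Y)ᶜ
      · have hz' : g.out • z ∈ (cuspRegion Y)ᶜ := fun h => hz ((cuspRegion_smul Y g.out z).1 h)
        rw [Set.indicator_of_mem hz, Set.indicator_of_mem hz', hP, hPq]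
      · have hz' : g.out • z ∉ (cuspRegion Y)ᶜ := by
          intro h
          apply hz
          exact fun h2 => h ((cuspRegion_smul Y g.out z).2 h2)
        rw [Set.indicator_of_notMem hz, Set.indicator_of_notMem hz']
    simp only [e1]
    rw [lintegral_indicator hms, Measure.restrict_restrict hms, Set.inter_comm]
  rw [tsum_congr h1, tsum_fintype, Finset.sum_const, Finset.card_univ, nsmul_eq_mul,
    Subgroup.index, Nat.card_eq_fintype_card]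

/-- the trace inequality, general kernels -/
theorem trace_gen (hN : 0 < N) {k : ℕ} (e : Fin k → VW N d) (he : Orthonormal ℂ e)
    (hE : ∀ i, Eqv ρ (e i)) {b : ℍ → ℍ → ℝ} (hb : ∀ z, Measurable (b z)) (hb0 : ∀ z w, 0 ≤ b z w)
    (hbi : ∀ z, ∫⁻ w, ENNReal.ofReal (b z w) ≠ ∞)
    (hbu : ∀ z, ∀ u : LW N, ∫⁻ w, ENNReal.ofReal (b z w) * ‖(u : ℍ → ℂ) w‖ₑ ≠ ∞)
    (ψ : Fin k → VW N d) (hval : ∀ i j z, ∫ w, (b z w : ℂ) * (e i j : ℍ → ℂ) w = (ψ i j : ℍ → ℂ) z)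
    (q : SL(2, ℤ) → ℍ → ℝ≥0∞) (hq : ∀ τ, Measurable (q τ))
    (hqb : ∀ z, ∑' σ : SL(2, ℤ), ‖chi ρ σ‖ₑ *
        ∫⁻ w, ENNReal.ofReal (b z w) * ENNReal.ofReal (b z (σ • w)) =
      ∑' σ : SL(2, ℤ), ‖chi ρ σ‖ₑ * q σ z)
    (hP : ∀ (σ : SL(2, ℤ)) (z : ℍ), ∑' τ : SL(2, ℤ), ‖chi ρ τ‖ₑ * q τ (σ • z) =
      ∑' τ : SL(2, ℤ), ‖chi ρ τ‖ₑ * q τ z) (Y : ℝ) :
    2 * ∑ i, ∑ j, ∫⁻ z in (cuspRegion Y)ᶜ, ‖(ψ i j : ℍ → ℂ) z‖ₑ ^ 2 ∂(nu N) ≤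
      ∫⁻ z in 𝒟ᵒ ∩ (cuspRegion Y)ᶜ, ∑' τ : SL(2, ℤ), ‖chi ρ τ‖ₑ * q τ z := by
  have : NeZero N := ⟨hN.ne'⟩
  obtain ⟨r, hr⟩ : ∃ r : ℝ≥0∞, r = ((Gamma N).index : ℝ≥0∞) := ⟨_, rfl⟩
  have hrt : r ≠ ∞ := by
    rw [hr]
    exact ENNReal.natCast_ne_top _
  have hr0 : r ≠ 0 := by
    rw [hr]
    exact_mod_cast Subgroup.FiniteIndex.index_ne_zero
  have hpt : ∀ z : ℍ, 2 * r * ∑ i, ∑ j, ‖(ψ i j : ℍ → ℂ) z‖ₑ ^ 2 ≤
      ∑' τ : SL(2, ℤ), ‖chi ρ τ‖ₑ * q τ z := by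
    intro z
    have h1 := fam_V hN e he hE (hb z) (hb0 z) (hbi z) (hbu z)
    rw [hqb z, ← hr] at h1
    simp only [hval] at h1
    exact h1
  have h1 := lintegral_mono (μ := (nu N).restrict (cuspRegion Y)ᶜ) hpt
  rw [unf_top hN (fun z => ∑' τ : SL(2, ℤ), ‖chi ρ τ‖ₑ * q τ z)
    (fun τ z => ‖chi ρ τ‖ₑ * q τ z) (fun τ => (hq τ).const_mul _) (fun z => rfl) hP Y, ← hr] at h1
  have hmeas : ∀ i j, Measurable fun z => ‖(ψ i j : ℍ → ℂ) z‖ₑ ^ 2 :=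
    fun i j => (LW.cont (ψ i j)).measurable.enorm.pow_const 2
  rw [lintegral_const_mul _ (Finset.measurable_fun_sum _ fun i _ =>
      Finset.measurable_fun_sum _ fun j _ => hmeas i j),
    lintegral_finsetSum _ fun i _ => Finset.measurable_fun_sum _ fun j _ => hmeas i j] at h1
  have h2 : ∀ i, ∫⁻ z in (cuspRegion Y)ᶜ, ∑ j, ‖(ψ i j : ℍ → ℂ) z‖ₑ ^ 2 ∂(nu N) =
      ∑ j, ∫⁻ z in (cuspRegion Y)ᶜ, ‖(ψ i j : ℍ → ℂ) z‖ₑ ^ 2 ∂(nu N) :=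
    fun i => lintegral_finsetSum _ fun j _ => hmeas i j
  simp only [h2] at h1
  have h3 : r * (2 * ∑ i, ∑ j, ∫⁻ z in (cuspRegion Y)ᶜ, ‖(ψ i j : ℍ → ℂ) z‖ₑ ^ 2 ∂(nu N)) ≤
      r * ∫⁻ z in 𝒟ᵒ ∩ (cuspRegion Y)ᶜ, ∑' τ : SL(2, ℤ), ‖chi ρ τ‖ₑ * q τ z := by
    refine le_trans (le_of_eq ?_) h1
    ring
  exact (ENNReal.mul_le_mul_iff_right hr0 hrt).1 h3

/-- invariance for point pair invariants -/
theorem inv_gen {b : ℍ → ℍ → ℝ} (hb : ∀ z, Measurable (b z))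
    (hs : ∀ (σ : SL(2, ℤ)) (z w : ℍ), b (σ • z) (σ • w) = b z w) (σ : SL(2, ℤ)) (z : ℍ) :
    ∑' τ : SL(2, ℤ), ‖chi ρ τ‖ₑ * (∫⁻ w, ENNReal.ofReal (b (σ • z) w) *
      ENNReal.ofReal (b (σ • z) (τ • w))) =
    ∑' τ : SL(2, ℤ), ‖chi ρ τ‖ₑ * (∫⁻ w, ENNReal.ofReal (b z w) *
      ENNReal.ofReal (b z (τ • w))) := by
  rw [← (MulAut.conj σ).toEquiv.tsum_eq]
  refine tsum_congr fun τ => ?_
  have e : (MulAut.conj σ).toEquiv τ = σ * τ * σ⁻¹ := rfl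
  rw [e]
  have e1 : chi ρ (σ * τ * σ⁻¹) = chi ρ τ := by
    have := chi_conj (ρ := ρ) σ⁻¹ τ
    rwa [inv_inv] at this
  rw [e1]
  congr 1
  have hm : Measurable fun w : ℍ => ENNReal.ofReal (b (σ • z) w) *
      ENNReal.ofReal (b (σ • z) ((σ * τ * σ⁻¹) • w)) :=
    (hb _).ennreal_ofReal.mul ((hb _).comp (cont_smul_int _).measurable).ennreal_ofReal
  rw [← (mp_int σ).lintegral_comp hm]
  refine lintegral_congr fun w => ?_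
  rw [hs, ← mul_smul]
  have e2 : σ * τ * σ⁻¹ * σ = σ * τ := by group
  rw [e2, mul_smul, hs]

end V4

end

end Pool.Agent.XE31
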