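import Pool.Agent.XE31.V4
import Pool.Agent.N799.DT.Fin1

/-!
# Vector valued eigenfunctions: the trace inequality for the averaging operators
-/

set_option autoImplicit false
set_option linter.all false
set_option maxHeartbeats 400000
set_option synthInstance.maxHeartbeats 200000

open UpperHalfPlane MeasureTheory Metric ModularGroup CongruenceSubgroup
open scoped MatrixGroups ENNReal Modular Topology NNReal ComplexConjugate

namespace Pool.Agent.XE31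

open Pool.Agent.H369R2 Pool.Agent.N799.DT InnerProductSpace

noncomputable section

namespace V5

open V1 V2 V3 V4

variable {N d : ℕ} {ρ : SL(2, ℤ) →* Matrix.unitaryGroup (Fin d) ℂ}

/-- vector valued simultaneous eigenvectors of the averaging operators -/
def ESV (N d : ℕ) (ρ : SL(2, ℤ) →* Matrix.unitaryGroup (Fin d) ℂ) (ν : ℝ) :
    Submodule ℂ (VW N d) where
  carrier := {F | Eqv ρ F ∧ ∀ j, F j ∈ ES N (Gamma N) ν}
  add_mem' := by
    rintro F G ⟨hF1, hF2⟩ ⟨hG1, hG2⟩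
    refine ⟨fun γ z j => ?_, fun j => ?_⟩
    · simp only [PiLp.add_apply, Submodule.coe_add, Pi.add_apply]
      rw [hF1 γ z j, hG1 γ z j, ← Finset.sum_add_distrib]
      refine Finset.sum_congr rfl fun l _ => ?_
      ring
    · rw [PiLp.add_apply]
      exact Submodule.add_mem _ (hF2 j) (hG2 j)
  zero_mem' := by
    refine ⟨fun γ z j => ?_, fun j => ?_⟩
    · simp
    · rw [PiLp.zero_apply]
      exact Submodule.zero_mem _
  smul_mem' := by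
    rintro c F ⟨hF1, hF2⟩
    refine ⟨fun γ z j => ?_, fun j => ?_⟩
    · simp only [PiLp.smul_apply, Submodule.coe_smul, Pi.smul_apply, smul_eq_mul]
      rw [hF1 γ z j, Finset.mul_sum]
      refine Finset.sum_congr rfl fun l _ => ?_
      ring
    · rw [PiLp.smul_apply]
      exact Submodule.smul_mem _ _ (hF2 j)

/-- orthogonality of the eigenspaces -/
lemma ESV_orth (hN : 0 < N) {ν ν' : ℝ} (h0 : 0 < ν) (h0' : 0 < ν') (hν : ν ≤ 1 / 2)
    (hν' : ν' ≤ 1 / 2) (hne : ν ≠ ν') {u v : VW N d} (hu : u ∈ ESV N d ρ ν)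
    (hv : v ∈ ESV N d ρ ν') : inner ℂ u v = 0 := by
  rw [PiLp.inner_apply]
  refine Finset.sum_eq_zero fun j _ => ?_
  exact ES_orth orth lam_ne hN (Gamma N) h0 h0' hν hν' hne (hu.2 j) (hv.2 j)

/-- Gram-Schmidt inside the eigenspaces -/
lemma gs_mem (hN : 0 < N) {k : ℕ} (ν : Fin k → ℝ) (h0 : ∀ i, 0 < ν i) (hν : ∀ i, ν i ≤ 1 / 2)
    (φ : Fin k → VW N d) (hφ : ∀ i, φ i ∈ ESV N d ρ (ν i)) (i : Fin k) :
    gramSchmidt ℂ φ i ∈ ESV N d ρ (ν i) := by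
  induction i using WellFoundedLT.induction with
  | ind i ih =>
    rw [gramSchmidt_def]
    refine Submodule.sub_mem _ (hφ i) (Submodule.sum_mem _ fun j hj => ?_)
    have hj' : j < i := Finset.mem_Iio.1 hj
    have hjm := ih j hj'
    by_cases h : ν j = ν i
    · rw [← h]
      have : ((ℂ ∙ gramSchmidt ℂ φ j).starProjection (φ i)) ∈ (ℂ ∙ gramSchmidt ℂ φ j) :=
        Submodule.starProjection_apply_mem _ _
      obtain ⟨c, hc⟩ := Submodule.mem_span_singleton.1 this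
      rw [← hc]
      exact Submodule.smul_mem _ _ hjm
    · have h3 : inner ℂ (gramSchmidt ℂ φ j) (φ i) = 0 :=
        ESV_orth hN (h0 j) (h0 i) (hν j) (hν i) h hjm (hφ i)
      rw [Submodule.starProjection_singleton, h3]
      simp

/-- an orthonormal family of eigenvectors with the same parameters -/
lemma exists_orthonormal (hN : 0 < N) {k : ℕ} (ν : Fin k → ℝ) (h0 : ∀ i, 0 < ν i)
    (hν : ∀ i, ν i ≤ 1 / 2) (φ : Fin k → VW N d) (hφ : ∀ i, φ i ∈ ESV N d ρ (ν i))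
    (hli : LinearIndependent ℂ φ) :
    ∃ e : Fin k → VW N d, Orthonormal ℂ e ∧ ∀ i, e i ∈ ESV N d ρ (ν i) :=
  ⟨gramSchmidtNormed ℂ φ, gramSchmidtNormed_orthonormal hli, fun i => by
    unfold gramSchmidtNormed
    exact Submodule.smul_mem _ _ (gs_mem hN ν h0 hν φ hφ i)⟩

/-- the mass of an eigenvector in the cusps, general norm -/
lemma half_ES (hN : 0 < N) {ν R : ℝ} (hR : 0 < R) {e : LW N} (hm : e ∈ ES N (Gamma N) ν)
    (hl : 2 * rhoE R ^ 2 ≤ ENNReal.ofReal (lam ν R ^ 2)) (h0 : lam ν R ≠ 0) :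
    ENNReal.ofReal (‖e‖ ^ 2) * 2⁻¹ ≤
      ∫⁻ z in (cuspRegion (Real.exp R))ᶜ, ‖(e : ℍ → ℂ) z‖ₑ ^ 2 ∂(nu N) := by
  by_cases h : ‖e‖ = 0
  · rw [h]
    simp
  · have hne : (‖e‖ : ℂ) ≠ 0 := by exact_mod_cast h
    obtain ⟨v, hv⟩ : ∃ v : LW N, v = (‖e‖ : ℂ)⁻¹ • e := ⟨_, rfl⟩
    have hvm : v ∈ ES N (Gamma N) ν := by
      rw [hv]
      exact Submodule.smul_mem _ _ hm
    have hvn : ‖v‖ = 1 := by
      rw [hv, norm_smul, norm_inv, Complex.norm_real, norm_norm, inv_mul_cancel₀ h]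
    have h1 := cusp_mass hN (Gamma N) hR hvm hvn hl h0
    have h2 : e = (‖e‖ : ℂ) • v := by
      rw [hv, smul_smul, mul_inv_cancel₀ hne, one_smul]
    have h3 : ∀ z, ‖(e : ℍ → ℂ) z‖ₑ ^ 2 = ENNReal.ofReal (‖e‖ ^ 2) * ‖(v : ℍ → ℂ) z‖ₑ ^ 2 := by
      intro z
      have h4 : (e : ℍ → ℂ) z = (‖e‖ : ℂ) * (v : ℍ → ℂ) z := by
        conv_lhs => rw [h2]
        rfl
      rw [h4, enorm_mul, mul_pow]
      congr 1
      rw [enorm_sq_eq, Complex.norm_real, norm_norm]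
    simp only [h3]
    rw [lintegral_const_mul _ ((LW.cont v).measurable.enorm.pow_const 2)]
    exact mul_le_mul' le_rfl h1

lemma smul_val (c : ℂ) (F : VW N d) (j : Fin d) (z : ℍ) :
    (((c • F : VW N d) j : LW N) : ℍ → ℂ) z = c * (F j : ℍ → ℂ) z := by
  rw [PiLp.smul_apply, Submodule.coe_smul, Pi.smul_apply, smul_eq_mul]

/-- the kernel -/
def bb (R : ℝ) (z w : ℍ) : ℝ := (bz R z w).toReal

lemma bz_ne {R : ℝ} (hR : 0 < R) (z w : ℍ) : bz R z w ≠ ∞ := by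
  unfold bz
  refine ENNReal.mul_ne_top (inv_bv_ne_top hR) ?_
  by_cases h : w ∈ closedBall z R
  · rw [Set.indicator_of_mem h]; simp
  · rw [Set.indicator_of_notMem h]; simp

lemma ofReal_bb {R : ℝ} (hR : 0 < R) (z w : ℍ) : ENNReal.ofReal (bb R z w) = bz R z w :=
  ENNReal.ofReal_toReal (bz_ne hR z w)

lemma int_bb {R : ℝ} (hR : 0 < R) (z : ℍ) (u : ℍ → ℂ) :
    ∫ w, (bb R z w : ℂ) * u w = Av R u z := by
  have hbv := bv_pos hR
  have h1 : ∀ w, (bb R z w : ℂ) * u w = ((bv R)⁻¹ : ℝ) • (closedBall z R).indicator u w := by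
    intro w
    unfold bb bz
    by_cases h : w ∈ closedBall z R
    · rw [Set.indicator_of_mem h, Set.indicator_of_mem h, Pi.one_apply, mul_one,
        ENNReal.toReal_inv, ENNReal.toReal_ofReal hbv.le, Complex.real_smul]
    · rw [Set.indicator_of_notMem h, Set.indicator_of_notMem h]
      simp
  rw [integral_congr_ae (Filter.Eventually.of_forall h1), integral_smul,
    integral_indicator isClosed_closedBall.measurableSet]
  rfl

/-- the trace inequality for vector valued eigenfunctions -/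
theorem trace_ES (hN : 0 < N) {k : ℕ} (ν : Fin k → ℝ) (e : Fin k → VW N d)
    (he : Orthonormal ℂ e) (hm : ∀ i, e i ∈ ESV N d ρ (ν i)) {R R₀ : ℝ} (hR : 0 < R)
    (hR₀ : 0 < R₀) (hl : ∀ i, 2 * rhoE R₀ ^ 2 ≤ ENNReal.ofReal (lam (ν i) R₀ ^ 2))
    (h0 : ∀ i, lam (ν i) R₀ ≠ 0) :
    ∑ i, ENNReal.ofReal (lam (ν i) R ^ 2) ≤
      ∫⁻ z in 𝒟ᵒ ∩ (cuspRegion (Real.exp R₀))ᶜ,
        ∑' τ : SL(2, ℤ), ‖chi ρ τ‖ₑ * kk R 1 (τ • z) z := by
  have hbm : ∀ z, Measurable (bb R z) := fun z => (measurable_bz R z).ennreal_toReal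
  have hkk : ∀ (σ : SL(2, ℤ)) (z : ℍ), ∫⁻ w, ENNReal.ofReal (bb R z w) *
      ENNReal.ofReal (bb R z (σ • w)) = kk R 1 (σ⁻¹ • z) z := by
    intro σ z
    have h1 : kk R 1 (σ⁻¹ • z) z = ∫⁻ w, bz R z w * bz R (σ⁻¹ • z) w := by
      rw [kk_succ, Ap_eq hR]
      rfl
    rw [h1]
    refine lintegral_congr fun w => ?_
    rw [ofReal_bb hR, ofReal_bb hR]
    congr 1
    rw [← bz_smul R σ (σ⁻¹ • z) w, smul_inv_smul]
  have hqm : ∀ σ : SL(2, ℤ), Measurable fun z : ℍ => kk R 1 (σ⁻¹ • z) z := by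
    intro σ
    have h : Measurable fun z : ℍ => (σ⁻¹ • z, z) :=
      (cont_smul_int σ⁻¹).measurable.prodMk measurable_id
    exact Measurable.comp (g := fun p : ℍ × ℍ => kk R 1 p.1 p.2) (f := fun z : ℍ => (σ⁻¹ • z, z))
      (Unf.meas_kk hR 1) h
  have h1 : ∀ z, ∫⁻ w, ENNReal.ofReal (bb R z w) ≠ ∞ := by
    intro z
    simp only [ofReal_bb hR]
    have h1 : ∫⁻ w, bz R z w = ∫⁻ w, bz R z w * 1 := by simp
    rw [h1, ← Ap_eq hR (fun _ => 1) z]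
    unfold Ap
    refine ENNReal.mul_ne_top (inv_bv_ne_top hR) ?_
    rw [setLIntegral_one, vol_eq]
    exact ENNReal.ofReal_ne_top
  have h2 : ∀ z, ∀ u : LW N, ∫⁻ w, ENNReal.ofReal (bb R z w) * ‖(u : ℍ → ℂ) w‖ₑ ≠ ∞ := by
    intro z u
    simp only [ofReal_bb hR]
    have h3 := Ap_eq hR (fun w => ‖(u : ℍ → ℂ) w‖ₑ) z
    rw [← h3]
    unfold Ap
    refine ENNReal.mul_ne_top (inv_bv_ne_top hR) ?_
    have h4 := cont_intOn (LW.cont u) z R
    have h5 : ∫⁻ w in closedBall z R, ‖(u : ℍ → ℂ) w‖ₑ < ∞ := h4.2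
    exact h5.ne
  obtain ⟨ψ, hψ⟩ : ∃ ψ : Fin k → VW N d, ψ = fun i => ((lam (ν i) R : ℂ)) • e i := ⟨_, rfl⟩
  have hψv : ∀ i j z, (ψ i j : ℍ → ℂ) z = (lam (ν i) R : ℂ) * (e i j : ℍ → ℂ) z := by
    intro i j z
    rw [hψ]
    exact smul_val _ _ _ _
  have h3 : ∀ i j z, ∫ w, (bb R z w : ℂ) * (e i j : ℍ → ℂ) w = (ψ i j : ℍ → ℂ) z := by
    intro i j z
    rw [int_bb hR, ((hm i).2 j).2 R hR z, hψv]
  have h4 : ∀ z, ∑' σ : SL(2, ℤ), ‖chi ρ σ‖ₑ *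
        ∫⁻ w, ENNReal.ofReal (bb R z w) * ENNReal.ofReal (bb R z (σ • w)) =
      ∑' σ : SL(2, ℤ), ‖chi ρ σ‖ₑ * (fun (σ : SL(2, ℤ)) z => kk R 1 (σ⁻¹ • z) z) σ z := by
    intro z
    refine tsum_congr fun σ => ?_
    rw [hkk]
  have h5 : ∀ (σ : SL(2, ℤ)) (z : ℍ), ∑' τ : SL(2, ℤ), ‖chi ρ τ‖ₑ *
        (fun (σ : SL(2, ℤ)) z => kk R 1 (σ⁻¹ • z) z) τ (σ • z) =
      ∑' τ : SL(2, ℤ), ‖chi ρ τ‖ₑ * (fun (σ : SL(2, ℤ)) z => kk R 1 (σ⁻¹ • z) z) τ z := by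
    intro σ z
    have h1 := inv_gen (ρ := ρ) hbm (fun σ z w => by
      unfold bb
      rw [bz_smul]) σ z
    simp only [hkk] at h1
    exact h1
  have hT := trace_gen (ρ := ρ) hN e he (fun i => (hm i).1) (b := bb R) hbm
    (fun z w => ENNReal.toReal_nonneg) h1 h2 ψ h3
    (fun (σ : SL(2, ℤ)) z => kk R 1 (σ⁻¹ • z) z) hqm h4 h5 (Real.exp R₀)
  have hR1 : ∀ z, ∑' σ : SL(2, ℤ), ‖chi ρ σ‖ₑ * kk R 1 (σ⁻¹ • z) z =
      ∑' σ : SL(2, ℤ), ‖chi ρ σ‖ₑ * kk R 1 (σ • z) z := by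
    intro z
    rw [← (Equiv.inv SL(2, ℤ)).tsum_eq (fun σ => ‖chi ρ σ‖ₑ * kk R 1 (σ • z) z)]
    refine tsum_congr fun σ => ?_
    have e3 : (Equiv.inv SL(2, ℤ)) σ = σ⁻¹ := rfl
    rw [e3, chi_inv]
  simp only [hR1] at hT
  refine le_trans ?_ hT
  rw [Finset.mul_sum]
  refine Finset.sum_le_sum fun i _ => ?_
  have h1 : ∀ j, ENNReal.ofReal (lam (ν i) R ^ 2) * (ENNReal.ofReal (‖e i j‖ ^ 2) * 2⁻¹) ≤
      ∫⁻ z in (cuspRegion (Real.exp R₀))ᶜ,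
        ‖(ψ i j : ℍ → ℂ) z‖ₑ ^ 2 ∂(nu N) := by
    intro j
    have h2 := half_ES hN hR₀ ((hm i).2 j) (hl i) (h0 i)
    have h3 : ∀ z, ‖(ψ i j : ℍ → ℂ) z‖ₑ ^ 2 =
        ENNReal.ofReal (lam (ν i) R ^ 2) * ‖(e i j : ℍ → ℂ) z‖ₑ ^ 2 := by
      intro z
      rw [hψv, enorm_mul, mul_pow]
      congr 1
      rw [enorm_sq_eq, Complex.norm_real, Real.norm_eq_abs, sq_abs]
    simp only [h3]
    rw [lintegral_const_mul _ ((LW.cont (e i j)).measurable.enorm.pow_const 2)]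
    exact mul_le_mul' le_rfl h2
  have h2 : ENNReal.ofReal (lam (ν i) R ^ 2) = 2 * ∑ j, ENNReal.ofReal (lam (ν i) R ^ 2) *
      (ENNReal.ofReal (‖e i j‖ ^ 2) * 2⁻¹) := by
    rw [← Finset.mul_sum, ← Finset.sum_mul, ← ENNReal.ofReal_sum_of_nonneg fun j _ => by positivity,
      ← PiLp.norm_sq_eq_of_L2, he.1 i, one_pow, ENNReal.ofReal_one, one_mul]
    rw [mul_left_comm, ENNReal.mul_inv_cancel (by norm_num) (by norm_num), mul_one]
  rw [h2]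
  exact mul_le_mul' le_rfl (Finset.sum_le_sum fun j _ => h1 j)

end V5

end

end Pool.Agent.XE31
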