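import Pool.Agent.XE31.V2
import Pool.Agent.XE31.E1
import Pool.Agent.XE31.F3
import Pool.Agent.N799.DT.Main

/-!
# Counting with class functions on `SL(2,ℤ/N)`
-/

set_option autoImplicit false
set_option linter.all false

open UpperHalfPlane MeasureTheory Metric ModularGroup CongruenceSubgroup
open scoped MatrixGroups ENNReal Modular Topology NNReal ComplexConjugate

namespace Pool.Agent.XE31

open Pool.Agent.H369R2 Pool.Agent.N799.DT

noncomputable section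

namespace V6

/-- the double counting for class functions -/
theorem dblc {N : ℕ} (hN : 0 < N) [Fintype SL(2, ZMod N)] {f : SL(2, ZMod N) → ℝ}
    (hf0 : ∀ h, 0 ≤ f h) (hf : ∀ g h, IsConj g h → f g = f h) (s : Finset SL(2, ℤ)) :
    (Fintype.card SL(2, ZMod N) : ℝ) * ∑ δ ∈ s, f (red N δ) ≤
      ∑ h : SL(2, ZMod N), f h * ((Nat.card {g : SL(2, ZMod N) // g * h = h * g} : ℝ) *
        Nat.card {δ : SL(2, ℤ) // δ ∈ s ∧ IsConj (red N δ) h}) := by
  classical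
  have h1 : ∀ δ : SL(2, ℤ), (Fintype.card SL(2, ZMod N) : ℝ) * f (red N δ) ≤
      ∑ h : SL(2, ZMod N), (if IsConj (red N δ) h then
        f h * (Nat.card {g : SL(2, ZMod N) // g * h = h * g} : ℝ) else 0) := by
    intro δ
    have h2 := Dbl_three N hN Finset.univ (red N δ)
    have h3 : Nat.card {g : SL(2, ZMod N) // g⁻¹ * red N δ * g ∈ (Finset.univ : Finset SL(2, ZMod N))} =
        Fintype.card SL(2, ZMod N) := by
      rw [← Nat.card_eq_fintype_card]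
      exact Nat.card_congr (Equiv.subtypeUnivEquiv fun g => Finset.mem_univ _)
    rw [h3] at h2
    have h4 : (Fintype.card SL(2, ZMod N) : ℝ) ≤ ∑ h : SL(2, ZMod N), (if IsConj (red N δ) h then
        (Nat.card {g : SL(2, ZMod N) // g * h = h * g} : ℝ) else 0) := by
      rw [h2]
      push_cast
      refine Finset.sum_le_sum fun h _ => ?_
      have h5 := Dbl_two N hN (red N δ) h
      by_cases hc : IsConj (red N δ) h
      · rw [if_pos hc] at h5 ⊢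
        exact_mod_cast h5
      · rw [if_neg hc] at h5 ⊢
        exact_mod_cast h5
    calc (Fintype.card SL(2, ZMod N) : ℝ) * f (red N δ)
        ≤ (∑ h : SL(2, ZMod N), (if IsConj (red N δ) h then
          (Nat.card {g : SL(2, ZMod N) // g * h = h * g} : ℝ) else 0)) * f (red N δ) :=
          mul_le_mul_of_nonneg_right h4 (hf0 _)
      _ = _ := by
          rw [Finset.sum_mul]
          refine Finset.sum_congr rfl fun h _ => ?_
          split_ifs with hc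
          · rw [hf _ _ hc, mul_comm]
          · rw [zero_mul]
  rw [Finset.mul_sum]
  refine (Finset.sum_le_sum fun δ _ => h1 δ).trans (le_of_eq ?_)
  rw [Finset.sum_comm]
  refine Finset.sum_congr rfl fun h _ => ?_
  have h2 : Nat.card {δ : SL(2, ℤ) // δ ∈ s ∧ IsConj (red N δ) h} =
      (s.filter fun δ => IsConj (red N δ) h).card :=
    Nat.subtype_card _ (by simp)
  rw [h2, ← Finset.sum_filter, Finset.sum_const, nsmul_eq_mul]
  ring

/-- the number of matrices which are scalar modulo `μ` -/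
theorem card_lev {ε C : ℝ} (hC : 0 < C)
    (hpts : ∀ (N m : ℕ) (t : ℤ) (X : ℝ), 0 < N → 0 < m → 1 ≤ X →
      ∀ s : Finset SL(2, ℤ), (∀ δ ∈ s, δ ≠ 1 ∧ δ ≠ -1 ∧ mnorm δ ≤ X ∧ (m : ℤ) ∣ δ 0 1 ∧
      (m : ℤ) ∣ δ 1 0 ∧ (m : ℤ) ∣ δ 0 0 - δ 1 1 ∧ ((N * m : ℕ) : ℤ) ∣ δ 0 0 + δ 1 1 - t) →
      (s.card : ℝ) ≤ C * X ^ ε * (X / m) * (1 + X / (N * m)))
    {m : ℕ} (hm : 0 < m) {X : ℝ} (hX : 1 ≤ X) (s : Finset SL(2, ℤ))
    (hs : ∀ δ ∈ s, δ ≠ 1 ∧ δ ≠ -1 ∧ mnorm δ ≤ X ∧ (m : ℤ) ∣ δ 0 1 ∧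
      (m : ℤ) ∣ δ 1 0 ∧ (m : ℤ) ∣ δ 0 0 - δ 1 1) :
    (s.card : ℝ) ≤ 3 * C * X ^ ε * (X ^ 2 / m) := by
  classical
  have hX0 : 0 < X := by linarith
  have hXe : 0 < X ^ ε := Real.rpow_pos_of_pos hX0 _
  have hmr : (0 : ℝ) < m := by exact_mod_cast hm
  rcases s.eq_empty_or_nonempty with he | ⟨δ₀, hδ₀⟩
  · rw [he, Finset.card_empty, Nat.cast_zero]
    positivity
  -- the size of `m`
  have hmX : (m : ℝ) ≤ 2 * X := by
    obtain ⟨h1, h2, h3, h4, h5, h6⟩ := hs δ₀ hδ₀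
    obtain ⟨b1, b2, b3, b4⟩ := S6b.abs_le_mnorm δ₀
    have key : ∀ x : ℤ, (m : ℤ) ∣ x → x ≠ 0 → (m : ℝ) ≤ |(x : ℝ)| := by
      intro x hx hx0
      have h7 := Int.le_of_dvd (abs_pos.2 hx0) ((dvd_abs _ _).2 hx)
      have h8 : ((m : ℤ) : ℝ) ≤ ((|x| : ℤ) : ℝ) := by exact_mod_cast h7
      push_cast at h8
      exact h8
    by_cases c1 : δ₀ 0 1 = 0
    · by_cases c2 : δ₀ 1 0 = 0
      · by_cases c3 : δ₀ 0 0 - δ₀ 1 1 = 0
        · exfalso
          rcases E1.Sc_cases (τ := δ₀) ⟨c1, c2, sub_eq_zero.1 c3⟩ with h | h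
          · exact h1 h
          · exact h2 h
        · have := key _ h6 c3
          push_cast at this
          have h9 : |(δ₀ 0 0 : ℝ) - δ₀ 1 1| ≤ |(δ₀ 0 0 : ℝ)| + |(δ₀ 1 1 : ℝ)| := abs_sub _ _
          linarith
      · have := key _ h5 c2
        linarith
    · have := key _ h4 c1
      linarith
  have h1 : s.card = ∑ t ∈ Finset.range m, (s.filter fun δ => (δ 0 0 + δ 1 1) % (m : ℤ) = t).card := by
    refine Finset.card_eq_sum_card_fiberwise (f := fun δ : SL(2, ℤ) =>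
      ((δ 0 0 + δ 1 1) % (m : ℤ)).toNat) (t := Finset.range m) (fun δ hδ => ?_) |>.trans ?_
    · rw [Finset.mem_coe, Finset.mem_range]
      have h2 := Int.emod_nonneg (δ 0 0 + δ 1 1) (by exact_mod_cast hm.ne' : (m : ℤ) ≠ 0)
      have h3 := Int.emod_lt_of_pos (δ 0 0 + δ 1 1) (by exact_mod_cast hm : (0 : ℤ) < m)
      show ((δ 0 0 + δ 1 1) % (m : ℤ)).toNat < m
      omega
    · refine Finset.sum_congr rfl fun t _ => ?_
      congr 1
      apply Finset.filter_congr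
      intro δ _
      have h2 := Int.emod_nonneg (δ 0 0 + δ 1 1) (by exact_mod_cast hm.ne' : (m : ℤ) ≠ 0)
      constructor
      · intro h; omega
      · intro h; omega
  have h2 : ∀ t ∈ Finset.range m, (((s.filter fun δ => (δ 0 0 + δ 1 1) % (m : ℤ) = t).card : ℕ) : ℝ) ≤
      C * X ^ ε * (X / m) * (1 + X / m) := by
    intro t _
    have h3 := hpts 1 m t X one_pos hm hX (s.filter fun δ => (δ 0 0 + δ 1 1) % (m : ℤ) = t) (by
      intro δ hδ
      rw [Finset.mem_filter] at hδ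
      obtain ⟨a1, a2, a3, a4, a5, a6⟩ := hs δ hδ.1
      refine ⟨a1, a2, a3, a4, a5, a6, ?_⟩
      rw [one_mul]
      have h4 := Int.emod_add_mul_ediv (δ 0 0 + δ 1 1) m
      rw [hδ.2] at h4
      exact ⟨(δ 0 0 + δ 1 1) / m, by linarith⟩)
    rw [Nat.cast_one, one_mul] at h3
    exact h3
  have h3 : (s.card : ℝ) ≤ m * (C * X ^ ε * (X / m) * (1 + X / m)) := by
    rw [h1]
    push_cast
    refine (Finset.sum_le_sum h2).trans (le_of_eq ?_)
    rw [Finset.sum_const, Finset.card_range, nsmul_eq_mul]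
  refine h3.trans ?_
  have h4 : (m : ℝ) * (C * X ^ ε * (X / m) * (1 + X / m)) = C * X ^ ε * (X + X ^ 2 / m) := by
    field_simp
  rw [h4]
  have h5 : X ≤ 2 * (X ^ 2 / m) := by
    rw [← mul_div_assoc, le_div_iff₀ hmr]
    nlinarith
  calc C * X ^ ε * (X + X ^ 2 / m) ≤ C * X ^ ε * (2 * (X ^ 2 / m) + X ^ 2 / m) := by gcongr
    _ = _ := by ring

/-- the sum of a class function over the matrices of bounded size -/
theorem count : ∀ ε : ℝ, 0 < ε → ∃ C : ℝ, 0 < C ∧ ∀ (N : ℕ), 0 < N →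
    ∀ f : SL(2, ZMod N) → ℝ, (∀ h, 0 ≤ f h) → (∀ g h, IsConj g h → f g = f h) →
    (∀ [Fintype SL(2, ZMod N)], ∑ h, f h ^ 2 ≤ Fintype.card SL(2, ZMod N)) →
    ∀ X : ℝ, 1 ≤ X → ∀ s : Finset SL(2, ℤ), (∀ δ ∈ s, δ ≠ 1 ∧ δ ≠ -1 ∧ mnorm δ ≤ X) →
      ∑ δ ∈ s, f (red N δ) ≤ C * (N * X) ^ ε * (N * X + X ^ 2) := by
  classical
  intro ε hε
  obtain ⟨C, hC, hpts⟩ := points (ε / 2) (by positivity)
  obtain ⟨C₂, hC₂, hdiv⟩ := Pool.Agent.H369R2.divisor_bound (ε / 4) (by positivity)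
  refine ⟨3 * C * C₂ ^ 2 + 3 * C * C₂ ^ 2, by positivity, ?_⟩
  intro N hN f hf0 hfc hf2 X hX s hs
  have : NeZero N := ⟨hN.ne'⟩
  have : Fintype SL(2, ZMod N) := Fintype.ofFinite _
  have hN1 : (1 : ℝ) ≤ N := by exact_mod_cast hN
  have hN0 : (0 : ℝ) < N := by linarith
  have hX0 : 0 < X := by linarith
  have hXe : 0 < X ^ (ε / 2) := Real.rpow_pos_of_pos hX0 _
  obtain ⟨D, hD⟩ : ∃ D : ℝ, D = N.divisors.card := ⟨_, rfl⟩
  have hD1 : 1 ≤ D := by
    rw [hD]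
    exact_mod_cast Finset.card_pos.2 ⟨1, Nat.one_mem_divisors.2 hN.ne'⟩
  obtain ⟨G, hG⟩ : ∃ G : ℝ, G = Fintype.card SL(2, ZMod N) := ⟨_, rfl⟩
  have hG0 : 0 < G := by rw [hG]; exact_mod_cast Fintype.card_pos
  -- one level
  have hone : ∀ m ∈ N.divisors, ∑ δ ∈ s.filter (fun δ => lev N (red N δ) = m), f (red N δ) ≤
      3 * C * X ^ (ε / 2) * D * (N * X + X ^ 2) := by
    intro m hm
    have hm0 : 0 < m := Nat.pos_of_mem_divisors hm
    have hmr : (1 : ℝ) ≤ m := by exact_mod_cast hm0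
    obtain ⟨u, hu⟩ : ∃ u, u = s.filter (fun δ => lev N (red N δ) = m) := ⟨_, rfl⟩
    rw [← hu]
    have hus : ∀ δ ∈ u, δ ≠ 1 ∧ δ ≠ -1 ∧ mnorm δ ≤ X := by
      intro δ hδ
      rw [hu, Finset.mem_filter] at hδ
      exact hs δ hδ.1
    have hul : ∀ δ ∈ u, lev N (red N δ) = m := by
      intro δ hδ
      rw [hu, Finset.mem_filter] at hδ
      exact hδ.2
    have hcard : (u.card : ℝ) ≤ 3 * C * X ^ (ε / 2) * (X ^ 2 / m) := by
      refine card_lev hC hpts hm0 hX u fun δ hδ => ?_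
      obtain ⟨a1, a2, a3⟩ := hus δ hδ
      obtain ⟨b1, b2, b3⟩ := Count.lift_dvd (rfl : red N δ = red N δ)
      rw [hul δ hδ] at b1 b2 b3
      exact ⟨a1, a2, a3, b1, b2, b3⟩
    have hsq : ∑ δ ∈ u, f (red N δ) ^ 2 ≤ 2 * D ^ 2 * C * X ^ (ε / 2) * (X * N * m + X ^ 2) := by
      have h1 := dblc hN (f := fun h => f h ^ 2) (fun h => sq_nonneg _)
        (fun g h hc => by simp only [hfc g h hc]) u
      have h2 : ∀ h : SL(2, ZMod N), f h ^ 2 *
          ((Nat.card {g : SL(2, ZMod N) // g * h = h * g} : ℝ) *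
          Nat.card {δ : SL(2, ℤ) // δ ∈ u ∧ IsConj (red N δ) h}) ≤
          f h ^ 2 * (2 * D ^ 2 * C * X ^ (ε / 2) * (X * N * m + X ^ 2)) := by
        intro h
        apply mul_le_mul_of_nonneg_left _ (sq_nonneg _)
        by_cases hne : ∃ δ ∈ u, IsConj (red N δ) h
        · obtain ⟨δ, hδ, hc⟩ := hne
          have hlh : lev N h = m := by
            rw [← hul δ hδ]
            exact F3.lev_conj hc.symm
          have h3 := Count.term_le surj cent trace hC hpts N h X hX u hus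
          rw [hlh, ← hD] at h3
          exact h3
        · have h3 : Nat.card {δ : SL(2, ℤ) // δ ∈ u ∧ IsConj (red N δ) h} = 0 := by
            rw [Nat.card_eq_zero]
            left
            exact ⟨fun x => hne ⟨x.1, x.2⟩⟩
          rw [h3, Nat.cast_zero, mul_zero]
          positivity
      have h3 := h1.trans (Finset.sum_le_sum fun h _ => h2 h)
      rw [← Finset.sum_mul, ← hG] at h3
      have h4 : (∑ h, f h ^ 2) * (2 * D ^ 2 * C * X ^ (ε / 2) * (X * N * m + X ^ 2)) ≤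
          G * (2 * D ^ 2 * C * X ^ (ε / 2) * (X * N * m + X ^ 2)) := by
        apply mul_le_mul_of_nonneg_right _ (by positivity)
        rw [hG]
        exact hf2
      exact le_of_mul_le_mul_left (h3.trans h4) hG0
    -- Cauchy-Schwarz
    have hcs : (∑ δ ∈ u, f (red N δ)) ^ 2 ≤ (3 * C * X ^ (ε / 2) * D * (N * X + X ^ 2)) ^ 2 := by
      calc (∑ δ ∈ u, f (red N δ)) ^ 2 ≤ u.card * ∑ δ ∈ u, f (red N δ) ^ 2 :=
            sq_sum_le_card_mul_sum_sq
        _ ≤ (3 * C * X ^ (ε / 2) * (X ^ 2 / m)) *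
            (2 * D ^ 2 * C * X ^ (ε / 2) * (X * N * m + X ^ 2)) :=
            mul_le_mul hcard hsq (Finset.sum_nonneg fun _ _ => sq_nonneg _) (by positivity)
        _ = 6 * C ^ 2 * (X ^ (ε / 2)) ^ 2 * D ^ 2 * (N * X * X ^ 2 + X ^ 4 / m) := by
            field_simp
            ring
        _ ≤ 6 * C ^ 2 * (X ^ (ε / 2)) ^ 2 * D ^ 2 * (N * X * X ^ 2 + X ^ 4) := by
            gcongr
            exact div_le_self (by positivity) hmr
        _ ≤ 9 * C ^ 2 * (X ^ (ε / 2)) ^ 2 * D ^ 2 * (N * X + X ^ 2) ^ 2 := by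
            have e1 : N * X * X ^ 2 + X ^ 4 ≤ (N * X + X ^ 2) ^ 2 := by
              nlinarith [mul_pos hN0 hX0, sq_nonneg (N * X)]
            have e2 : 0 ≤ C ^ 2 * (X ^ (ε / 2)) ^ 2 * D ^ 2 := by positivity
            have e3 : 0 ≤ N * X * X ^ 2 + X ^ 4 := by positivity
            nlinarith [mul_le_mul_of_nonneg_left e1 e2, mul_nonneg e2 e3]
        _ = _ := by ring
    exact (le_abs_self _).trans (abs_le_of_sq_le_sq hcs (by positivity))
  have hsplit : ∑ δ ∈ s, f (red N δ) =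
      ∑ m ∈ N.divisors, ∑ δ ∈ s.filter (fun δ => lev N (red N δ) = m), f (red N δ) := by
    rw [Finset.sum_fiberwise_of_maps_to]
    intro δ _
    rw [Nat.mem_divisors]
    exact ⟨Count.lev_dvd N _, hN.ne'⟩
  rw [hsplit]
  refine (Finset.sum_le_sum hone).trans ?_
  rw [Finset.sum_const, nsmul_eq_mul, ← hD]
  have h1 : D ^ 2 ≤ C₂ ^ 2 * (N : ℝ) ^ (ε / 2) := by
    have h2 := hdiv N hN
    rw [← hD] at h2
    calc D ^ 2 ≤ (C₂ * (N : ℝ) ^ (ε / 4)) ^ 2 := by gcongr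
      _ = C₂ ^ 2 * (N : ℝ) ^ (ε / 2) := by
          rw [mul_pow, ← Real.rpow_natCast ((N : ℝ) ^ (ε / 4)) 2, ← Real.rpow_mul hN0.le]
          congr 2
          push_cast
          ring
  have h2 : (N : ℝ) ^ (ε / 2) * X ^ (ε / 2) ≤ (N * X) ^ ε := by
    rw [← Real.mul_rpow hN0.le hX0.le]
    exact Real.rpow_le_rpow_of_exponent_le (one_le_mul_of_one_le_of_one_le hN1 hX) (by linarith)
  calc D * (3 * C * X ^ (ε / 2) * D * (N * X + X ^ 2))
      = 3 * C * (D ^ 2 * X ^ (ε / 2)) * (N * X + X ^ 2) := by ring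
    _ ≤ 3 * C * (C₂ ^ 2 * (N : ℝ) ^ (ε / 2) * X ^ (ε / 2)) * (N * X + X ^ 2) := by gcongr
    _ = 3 * C * C₂ ^ 2 * ((N : ℝ) ^ (ε / 2) * X ^ (ε / 2)) * (N * X + X ^ 2) := by ring
    _ ≤ 3 * C * C₂ ^ 2 * (N * X) ^ ε * (N * X + X ^ 2) := by gcongr
    _ ≤ (3 * C * C₂ ^ 2 + 3 * C * C₂ ^ 2) * (N * X) ^ ε * (N * X + X ^ 2) := by
        gcongr
        linarith [show 0 ≤ 3 * C * C₂ ^ 2 by positivity]

end V6

end

end Pool.Agent.XE31
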