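import Pool.Agent.XE31.V6

/-!
# Irreducible representations: Schur's lemma and the norm of the character
-/

set_option autoImplicit false
set_option linter.all false

open UpperHalfPlane MeasureTheory Metric ModularGroup CongruenceSubgroup
open scoped MatrixGroups ENNReal Modular Topology NNReal ComplexConjugate

namespace Pool.Agent.XE31

open Pool.Agent.H369R2 Pool.Agent.N799.DT

noncomputable section

namespace V7

open V2

variable {d : ℕ} {ρ : SL(2, ℤ) →* Matrix.unitaryGroup (Fin d) ℂ}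

/-- irreducible unitary representations of the modular group -/
def Irr (ρ : SL(2, ℤ) →* Matrix.unitaryGroup (Fin d) ℂ) : Prop :=
  0 < d ∧ ∀ W : Submodule ℂ (Fin d → ℂ),
    (∀ (γ : SL(2, ℤ)), ∀ v ∈ W, Matrix.mulVec (V2.mt ρ γ) v ∈ W) → W = ⊥ ∨ W = ⊤

/-- Schur's lemma -/
theorem schur (hρ : Irr ρ) (A : Matrix (Fin d) (Fin d) ℂ)
    (hA : ∀ γ, V2.mt ρ γ * A = A * V2.mt ρ γ) : ∃ c : ℂ, A = c • (1 : Matrix (Fin d) (Fin d) ℂ) := by
  obtain ⟨hd, hW⟩ := hρ
  have : Nonempty (Fin d) := ⟨⟨0, hd⟩⟩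
  have hnt : Nontrivial (Fin d → ℂ) := inferInstance
  obtain ⟨c, hc⟩ := Module.End.exists_eigenvalue (Matrix.toLin' A : Module.End ℂ (Fin d → ℂ))
  refine ⟨c, ?_⟩
  have h1 : Module.End.eigenspace (Matrix.toLin' A : Module.End ℂ (Fin d → ℂ)) c = ⊤ := by
    refine (hW _ fun γ v hv => ?_).resolve_left hc
    rw [Module.End.mem_eigenspace_iff, Matrix.toLin'_apply] at hv ⊢
    rw [Matrix.mulVec_mulVec, ← hA, ← Matrix.mulVec_mulVec, hv, Matrix.mulVec_smul]
  apply Matrix.toLin'.injective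
  refine LinearMap.ext fun v => ?_
  have h2 : v ∈ Module.End.eigenspace (Matrix.toLin' A : Module.End ℂ (Fin d → ℂ)) c := by
    rw [h1]; trivial
  rw [Module.End.mem_eigenspace_iff] at h2
  rw [h2, map_smul, Matrix.toLin'_one]
  rfl

/-- the character on the finite group -/
def ch (N : ℕ) (hN : 0 < N) (ρ : SL(2, ℤ) →* Matrix.unitaryGroup (Fin d) ℂ)
    (h : SL(2, ZMod N)) : ℝ := ‖chi ρ (Function.surjInv (surj N hN) h)‖

lemma rho_eq {N : ℕ} (hρ : Gamma N ≤ ρ.ker) {δ δ' : SL(2, ℤ)} (h : red N δ = red N δ') :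
    ρ δ = ρ δ' := by
  have h1 : δ'⁻¹ * δ ∈ Gamma N := by
    show δ'⁻¹ * δ ∈ (red N).ker
    rw [MonoidHom.mem_ker, map_mul, map_inv, h, inv_mul_cancel]
  have h2 := hρ h1
  rw [MonoidHom.mem_ker, map_mul, map_inv] at h2
  exact (inv_mul_eq_one.1 h2).symm

lemma mt_eq {N : ℕ} (hρ : Gamma N ≤ ρ.ker) {δ δ' : SL(2, ℤ)} (h : red N δ = red N δ') :
    V2.mt ρ δ = V2.mt ρ δ' := by
  unfold V2.mt
  rw [rho_eq hρ h]

lemma ch_red {N : ℕ} (hN : 0 < N) (hρ : Gamma N ≤ ρ.ker) (δ : SL(2, ℤ)) :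
    ch N hN ρ (red N δ) = ‖chi ρ δ‖ := by
  unfold ch chi
  rw [mt_eq hρ (Function.surjInv_eq (surj N hN) (red N δ))]

lemma ch_nonneg {N : ℕ} (hN : 0 < N) (h : SL(2, ZMod N)) : 0 ≤ ch N hN ρ h := norm_nonneg _

lemma ch_conj {N : ℕ} (hN : 0 < N) (hρ : Gamma N ≤ ρ.ker) (g h : SL(2, ZMod N))
    (hc : IsConj g h) : ch N hN ρ g = ch N hN ρ h := by
  obtain ⟨k, hk⟩ := isConj_iff.1 hc
  obtain ⟨γ, rfl⟩ := surj N hN g
  obtain ⟨σ, rfl⟩ := surj N hN k
  rw [← map_inv, ← map_mul, ← map_mul] at hk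
  rw [← hk, ch_red hN hρ, ch_red hN hρ]
  have := chi_conj (ρ := ρ) σ⁻¹ γ
  rw [inv_inv] at this
  rw [this]

lemma comm_aux {U S : Matrix (Fin d) (Fin d) ℂ} (hu : U.conjTranspose * U = 1)
    (h : U * S * U.conjTranspose = S) : U * S = S * U := by
  calc U * S = U * S * (U.conjTranspose * U) := by rw [hu, mul_one]
    _ = U * S * U.conjTranspose * U := by rw [Matrix.mul_assoc (U * S)]
    _ = _ := by rw [h]

lemma entry_aux (U : Matrix (Fin d) (Fin d) ℂ) (j l : Fin d) :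
    (U * Matrix.single j l 1 * U.conjTranspose : Matrix (Fin d) (Fin d) ℂ) j l =
      U j j * conj (U l l) := by
  rw [Matrix.mul_apply]
  rw [Finset.sum_eq_single l]
  · rw [Matrix.mul_single_apply_same, Matrix.conjTranspose_apply, mul_one]
    rfl
  · intro b _ hb
    rw [Matrix.mul_single_apply_of_ne (hbj := hb), zero_mul]
  · intro h
    exact absurd (Finset.mem_univ l) h

lemma trace_aux {U : Matrix (Fin d) (Fin d) ℂ} (hu : U.conjTranspose * U = 1) (j l : Fin d) :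
    (U * Matrix.single j l 1 * U.conjTranspose).trace = if j = l then (1 : ℂ) else 0 := by
  rw [Matrix.mul_assoc, Matrix.trace_mul_comm, Matrix.mul_assoc, hu, Matrix.mul_one]
  split_ifs with hjl
  · rw [hjl, Matrix.trace_single_eq_same]
  · rw [Matrix.trace_single_eq_of_ne _ _ _ hjl]

lemma mt_unit (γ : SL(2, ℤ)) : (V2.mt ρ γ).conjTranspose * V2.mt ρ γ = 1 := by
  rw [← mt_inv, ← mt_mul, inv_mul_cancel, mt_one]

/-- the square norm of the character -/
theorem ch_sq {N : ℕ} (hN : 0 < N) (hρ : Gamma N ≤ ρ.ker) (hi : Irr ρ)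
    [Fintype SL(2, ZMod N)] : ∑ h, ch N hN ρ h ^ 2 = Fintype.card SL(2, ZMod N) := by
  classical
  obtain ⟨lf, hlf⟩ : ∃ lf : SL(2, ZMod N) → SL(2, ℤ), lf = Function.surjInv (surj N hN) := ⟨_, rfl⟩
  have hred : ∀ h, red N (lf h) = h := fun h => by rw [hlf]; exact Function.surjInv_eq _ h
  have hd0 : (d : ℂ) ≠ 0 := by exact_mod_cast hi.1.ne'
  obtain ⟨F, hF⟩ : ∃ F : Fin d → Fin d → SL(2, ZMod N) → Matrix (Fin d) (Fin d) ℂ,
    ∀ j l h, F j l h = V2.mt ρ (lf h) * Matrix.single j l 1 * (V2.mt ρ (lf h)).conjTranspose :=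
    ⟨_, fun _ _ _ => rfl⟩
  have hcomm : ∀ j l γ, V2.mt ρ γ * (∑ h, F j l h) = (∑ h, F j l h) * V2.mt ρ γ := by
    intro j l γ
    refine comm_aux (mt_unit γ) ?_
    rw [Finset.mul_sum, Finset.sum_mul]
    calc ∑ h, V2.mt ρ γ * F j l h * (V2.mt ρ γ).conjTranspose
        = ∑ h, F j l ((Equiv.mulLeft (red N γ)) h) := by
          refine Finset.sum_congr rfl fun h _ => ?_
          have e1 : V2.mt ρ (lf (red N γ * h)) = V2.mt ρ γ * V2.mt ρ (lf h) := by
            rw [← mt_mul]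
            exact mt_eq hρ (by rw [hred, map_mul, hred])
          rw [Equiv.coe_mulLeft, hF, hF, e1, Matrix.conjTranspose_mul]
          simp only [Matrix.mul_assoc]
      _ = _ := Equiv.sum_comp (Equiv.mulLeft (red N γ)) (F j l)
  choose c hc using fun j l => schur hi (∑ h, F j l h) (hcomm j l)
  have htr : ∀ j l, (d : ℂ) * c j l = if j = l then (Fintype.card SL(2, ZMod N) : ℂ) else 0 := by
    intro j l
    have h1 : (∑ h, F j l h).trace = d * c j l := by
      rw [hc j l, Matrix.trace_smul, Matrix.trace_one, Fintype.card_fin, smul_eq_mul, mul_comm]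
    rw [← h1, Matrix.trace_sum]
    have h2 : ∀ h, (F j l h).trace = if j = l then (1 : ℂ) else 0 := by
      intro h
      rw [hF]
      exact trace_aux (mt_unit _) j l
    rw [Finset.sum_congr rfl fun h _ => h2 h, Finset.sum_const, Finset.card_univ]
    split_ifs <;> simp
  have hent : ∀ j l, ∑ h, V2.mt ρ (lf h) j j * conj (V2.mt ρ (lf h) l l) =
      if j = l then c j l else 0 := by
    intro j l
    have h1 : (∑ h, F j l h) j l = if j = l then c j l else 0 := by
      rw [hc j l, Matrix.smul_apply, Matrix.one_apply, smul_eq_mul]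
      split_ifs <;> simp
    rw [← h1, Matrix.sum_apply]
    refine Finset.sum_congr rfl fun h _ => ?_
    rw [hF, entry_aux]
  have hsq : ∀ h, ((ch N hN ρ h : ℝ) : ℂ) ^ 2 =
      ∑ j, ∑ l, V2.mt ρ (lf h) j j * conj (V2.mt ρ (lf h) l l) := by
    intro h
    have h1 : ch N hN ρ h = ‖∑ j, V2.mt ρ (lf h) j j‖ := by
      unfold ch chi
      rw [← hlf]
      rfl
    rw [h1, ← Complex.mul_conj', map_sum, Finset.sum_mul_sum]
  have hfin : ((∑ h, ch N hN ρ h ^ 2 : ℝ) : ℂ) = (Fintype.card SL(2, ZMod N) : ℂ) := by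
    push_cast
    rw [Finset.sum_congr rfl fun h _ => hsq h, Finset.sum_comm]
    have h2 : ∀ j, ∑ h, ∑ l, V2.mt ρ (lf h) j j * conj (V2.mt ρ (lf h) l l) = c j j := by
      intro j
      rw [Finset.sum_comm, Finset.sum_congr rfl fun l _ => hent j l, Finset.sum_ite_eq]
      simp
    rw [Finset.sum_congr rfl fun j _ => h2 j]
    have h3 : ∀ j, c j j = (Fintype.card SL(2, ZMod N) : ℂ) / d := by
      intro j
      have := htr j j
      rw [if_pos rfl] at this
      rw [eq_div_iff hd0, mul_comm]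
      exact this
    rw [Finset.sum_congr rfl fun j _ => h3 j, Finset.sum_const, Finset.card_univ,
      Fintype.card_fin, nsmul_eq_mul]
    field_simp
  exact_mod_cast hfin

end V7

end

end Pool.Agent.XE31
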