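import Pool.Agent.XE31.V7
import Pool.Agent.XE31.V5
import Pool.Agent.N799.DT.Geo

/-!
# The geometric side for an irreducible representation, and the final inequality
-/

set_option autoImplicit false
set_option linter.all false
set_option maxHeartbeats 800000

open UpperHalfPlane MeasureTheory Metric ModularGroup CongruenceSubgroup
open scoped MatrixGroups ENNReal Modular Topology NNReal ComplexConjugate

namespace Pool.Agent.XE31

open Pool.Agent.H369R2 Pool.Agent.N799.DT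

noncomputable section

namespace V8

open V2 V3 V4 V5 V6 V7

lemma chi_le {d : ℕ} {ρ : SL(2, ℤ) →* Matrix.unitaryGroup (Fin d) ℂ} (δ : SL(2, ℤ)) :
    ‖chi ρ δ‖ ≤ d := by
  unfold chi Matrix.trace
  refine (norm_sum_le _ _).trans ?_
  calc ∑ i, ‖(V2.mt ρ δ).diag i‖ ≤ ∑ i : Fin d, (1 : ℝ) :=
        Finset.sum_le_sum fun i _ => entry_le δ i i
    _ = d := by simp

/-- the counting bound for the character -/
theorem count_chi : ∀ ε : ℝ, 0 < ε → ∃ C : ℝ, 0 < C ∧ ∀ (N d : ℕ)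
    (ρ : SL(2, ℤ) →* Matrix.unitaryGroup (Fin d) ℂ), 0 < N → Gamma N ≤ ρ.ker → Irr ρ →
    ∀ M : ℝ, (N : ℝ) ≤ M →
    ∀ X : ℝ, 1 ≤ X → ∀ s : Finset SL(2, ℤ), (∀ δ ∈ s, δ ≠ 1 ∧ δ ≠ -1 ∧ mnorm δ ≤ X) →
      ∑ δ ∈ s, ‖chi ρ δ‖ ≤ C * (M * X) ^ ε * (M * X + X ^ 2) := by
  intro ε hε
  obtain ⟨C, hC, h⟩ := count ε hε
  refine ⟨C, hC, fun N d ρ hN hρ hi M hM X hX s hs => ?_⟩
  have h1 := h N hN (ch N hN ρ) (ch_nonneg hN) (ch_conj hN hρ) (by
    intro _
    exact (ch_sq hN hρ hi).le) X hX s hs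
  simp only [ch_red hN hρ] at h1
  refine h1.trans ?_
  have hN0 : (0 : ℝ) < N := by exact_mod_cast hN
  have hX0 : 0 < X := by linarith
  have hM0 : 0 < M := by linarith
  have h2 : 0 ≤ C * (M * X) ^ ε := by positivity
  gcongr

open Pool.Agent.H369R2.Trace Pool.Agent.N799.DT.Geo in
theorem geoV : ∀ ε Y : ℝ, 0 < ε → ∃ C : ℝ, 0 < C ∧ ∀ (N d : ℕ)
    (ρ : SL(2, ℤ) →* Matrix.unitaryGroup (Fin d) ℂ), 0 < N → Gamma N ≤ ρ.ker → Irr ρ →
    ∀ n : ℝ, (N : ℝ) ≤ n → (d : ℝ) ≤ n → ∀ z ∈ 𝒟ᵒ ∩ (cuspRegion Y)ᶜ,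
      ∑' δ : SL(2, ℤ), ‖chi ρ δ‖ₑ * kk (Real.log n + 3) 1 (δ • z) z ≤
        ENNReal.ofReal (C * n ^ ε) := by
  classical
  intro ε Y hε
  set e : ℝ := ε / 4 with he_def
  have he : 0 < e := by positivity
  obtain ⟨C₀, hC₀, hcount⟩ := count_chi e he
  set r₀ : ℝ := 2 + (|Y| + 1) ^ 2 with hr₀
  have hr0 : 0 ≤ r₀ := by positivity
  have hl2 : 0 < Real.log 2 := Real.log_pos (by norm_num)
  set C₁ : ℝ := √2 * Real.exp (r₀ + 3) with hC₁
  have hs2 : 1 ≤ √2 := by rw [Real.one_le_sqrt]; norm_num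
  have hC₁1 : 1 ≤ C₁ := by
    have : 1 ≤ Real.exp (r₀ + 3) := Real.one_le_exp (by positivity)
    rw [hC₁]
    nlinarith
  set c : ℝ := 1 + 1 / (e * Real.log 2) with hc
  have hc0 : 0 < c := by positivity
  set C₂ : ℝ := 2 + c * C₁ ^ e * (C₀ * (2 * C₁) ^ e * (6 * C₁)) with hC₂
  have hC₂0 : 0 < C₂ := by positivity
  set C₃ : ℝ := 368 * (Real.exp r₀ * √2) * (1 / e + 3) with hC₃
  have hC₃0 : 0 < C₃ := by positivity
  refine ⟨C₃ * C₂, by positivity, ?_⟩
  intro N d ρ hN hρ hi n hNn hdn z hz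
  have hn1 : 1 ≤ n := by
    have : (1 : ℝ) ≤ N := by exact_mod_cast hN
    linarith
  have hn0 : 0 < n := by linarith
  set R : ℝ := Real.log n + 3 with hRdef
  have hlog : 0 ≤ Real.log n := Real.log_nonneg hn1
  have hR3 : 3 ≤ R := by linarith
  have hR : 0 < R := by linarith
  have hexpR : Real.exp R = n * Real.exp 3 := by rw [hRdef, Real.exp_add, Real.exp_log hn0]
  -- the point
  have hzd : z ∈ (𝒟 : Set ℍ) := fdo_subset_fd hz.1
  have hY : z.im ≤ Y := by
    by_contra hcon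
    push Not at hcon
    exact hz.2 ⟨1, by rw [one_smul]; exact hcon⟩
  have hdI : dist z I ≤ r₀ := dist_I_le hzd hY
  have hd1 : ∀ δ : SL(2, ℤ), dist (δ • (I : ℍ)) I ≤ dist z (δ • z) + 2 * r₀ := by
    intro δ
    have t1 := dist_triangle (δ • (I : ℍ)) (δ • z) I
    have t2 := dist_triangle (δ • z) z I
    rw [dist_smul_int, dist_comm (I : ℍ) z] at t1
    rw [dist_comm (δ • z) z] at t2
    linarith
  set X : ℝ := C₁ * n with hX
  have hX1 : 1 ≤ X := by rw [hX]; nlinarith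
  have hXe : X = √2 * Real.exp r₀ * Real.exp R := by
    rw [hX, hC₁, Real.exp_add, hexpR]; ring
  set K : ℝ := 368 * R * Real.exp (-R) * (Real.exp r₀ * √2) with hK
  have hK0 : 0 < K := by positivity
  have hbv := bv_pos hR
  have hterm : ∀ δ : SL(2, ℤ), kk R 1 (δ • z) z ≤
      if mnorm δ ≤ X then ENNReal.ofReal (K * (mnorm δ)⁻¹) else 0 := by
    intro δ
    have hm := mnorm_pos' δ
    split_ifs with hδ
    · refine (kk_le hR 0 (δ • z) z).trans ?_
      have e1 : Real.exp (-(dist z (δ • z) / 2)) ≤ Real.exp r₀ * (√2 / mnorm δ) := by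
        calc Real.exp (-(dist z (δ • z) / 2))
            ≤ Real.exp (r₀ + -(dist (δ • (I : ℍ)) I / 2)) := by
              apply Real.exp_le_exp.2
              linarith [hd1 δ]
          _ = Real.exp r₀ * Real.exp (-(dist (δ • (I : ℍ)) I / 2)) := Real.exp_add _ _
          _ ≤ Real.exp r₀ * (√2 / mnorm δ) := by
              gcongr
              exact exp_half_le δ
      have e2 : (ENNReal.ofReal (bv R))⁻¹ ≤ ENNReal.ofReal (8 * Real.exp (-R)) := by
        rw [← ENNReal.ofReal_inv_of_pos hbv]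
        apply ENNReal.ofReal_le_ofReal
        have h1 := bv_lower hR3
        have h2 : 0 < Real.exp R / 8 := by positivity
        calc (bv R)⁻¹ ≤ (Real.exp R / 8)⁻¹ := inv_anti₀ h2 h1
          _ = 8 * Real.exp (-R) := by rw [Real.exp_neg]; field_simp
      rw [zero_add, pow_one]
      calc (ENNReal.ofReal (bv R))⁻¹ * ENNReal.ofReal (Real.exp (R / 2)) * rhoE R *
            ENNReal.ofReal (Real.exp (-(dist z (δ • z) / 2)))
          ≤ ENNReal.ofReal (8 * Real.exp (-R)) * ENNReal.ofReal (Real.exp (R / 2)) *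
            ENNReal.ofReal (46 * R * Real.exp (-(R / 2))) *
            ENNReal.ofReal (Real.exp r₀ * (√2 / mnorm δ)) := by
              gcongr
              exact rhoE_le hR3
        _ = ENNReal.ofReal (K * (mnorm δ)⁻¹) := by
              rw [← ENNReal.ofReal_mul (by positivity), ← ENNReal.ofReal_mul (by positivity),
                ← ENNReal.ofReal_mul (by positivity)]
              congr 1
              have h3 : Real.exp (R / 2) * Real.exp (-(R / 2)) = 1 := by
                rw [← Real.exp_add]; simp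
              have h4 : 8 * Real.exp (-R) * Real.exp (R / 2) * (46 * R * Real.exp (-(R / 2))) *
                  (Real.exp r₀ * (√2 / mnorm δ)) = (Real.exp (R / 2) * Real.exp (-(R / 2))) *
                  (368 * R * Real.exp (-R) * (Real.exp r₀ * √2) * (mnorm δ)⁻¹) := by
                rw [div_eq_mul_inv]; ring
              rw [h4, h3, one_mul]
    · rw [kk_eq_zero hR 1 (δ • z) z]
      by_contra hc'
      push Not at hc'
      apply hδ
      refine (mnorm_le δ).trans ?_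
      have e2 : dist (δ • (I : ℍ)) I / 2 ≤ r₀ + R := by
        have := hd1 δ
        push_cast at hc'
        linarith
      calc √2 * Real.exp (dist (δ • (I : ℍ)) I / 2)
          ≤ √2 * Real.exp (r₀ + R) := by gcongr
        _ = X := by rw [hXe, Real.exp_add]; ring
  rw [ENNReal.tsum_eq_iSup_sum]
  refine iSup_le fun s => ?_
  calc ∑ δ ∈ s, ‖chi ρ δ‖ₑ * kk R 1 (δ • z) z
      ≤ ∑ δ ∈ s, (if mnorm δ ≤ X then ENNReal.ofReal (K * (‖chi ρ δ‖ * (mnorm δ)⁻¹)) else 0) := by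
        refine Finset.sum_le_sum fun δ _ => ?_
        refine (mul_le_mul_right (hterm δ) _).trans ?_
        split_ifs
        · have h1 : ‖chi ρ δ‖ₑ = ENNReal.ofReal ‖chi ρ δ‖ := (ofReal_norm _).symm
          rw [h1, ← ENNReal.ofReal_mul (by positivity)]
          apply ENNReal.ofReal_le_ofReal
          exact le_of_eq (by ring)
        · rw [mul_zero]
    _ ≤ ENNReal.ofReal (C₃ * C₂ * n ^ ε) := by
        rw [← Finset.sum_filter, ← ENNReal.ofReal_sum_of_nonneg (fun δ _ => by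
          have := mnorm_pos' δ
          positivity)]
        apply ENNReal.ofReal_le_ofReal
        rw [← Finset.mul_sum]
        set t : Finset SL(2, ℤ) := s.filter fun δ => mnorm δ ≤ X with ht
        have htX : ∀ δ ∈ t, mnorm δ ≤ X := fun δ hδ => (Finset.mem_filter.1 hδ).2
        set u : Finset SL(2, ℤ) := t.filter fun δ => ¬ (δ = 1 ∨ δ = -1) with hu
        have hsplit : ∑ δ ∈ t, ‖chi ρ δ‖ * (mnorm δ)⁻¹ =
            ∑ δ ∈ t.filter (fun δ => δ = 1 ∨ δ = -1), ‖chi ρ δ‖ * (mnorm δ)⁻¹ +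
              ∑ δ ∈ u, ‖chi ρ δ‖ * (mnorm δ)⁻¹ :=
          (Finset.sum_filter_add_sum_filter_not _ _ _).symm
        have hpart1 : ∑ δ ∈ t.filter (fun δ => δ = 1 ∨ δ = -1), ‖chi ρ δ‖ * (mnorm δ)⁻¹ ≤ 2 * n := by
          have hsub : t.filter (fun δ => δ = 1 ∨ δ = -1) ⊆ {1, -1} := by
            intro δ hδ
            have := (Finset.mem_filter.1 hδ).2
            simpa using this
          have hle : ∀ δ ∈ t.filter (fun δ => δ = 1 ∨ δ = -1), ‖chi ρ δ‖ * (mnorm δ)⁻¹ ≤ n := by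
            intro δ _
            have h1 : ‖chi ρ δ‖ ≤ n := (chi_le δ).trans hdn
            have h2 : (mnorm δ)⁻¹ ≤ 1 := inv_le_one_of_one_le₀ (S6b.one_le_mnorm δ)
            calc ‖chi ρ δ‖ * (mnorm δ)⁻¹ ≤ n * 1 :=
                  mul_le_mul h1 h2 (inv_nonneg.2 (mnorm_pos' δ).le) hn0.le
              _ = n := mul_one n
          calc ∑ δ ∈ t.filter (fun δ => δ = 1 ∨ δ = -1), ‖chi ρ δ‖ * (mnorm δ)⁻¹
              ≤ ((t.filter (fun δ => δ = 1 ∨ δ = -1)).card : ℝ) * n := by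
                rw [← nsmul_eq_mul]
                exact Finset.sum_le_card_nsmul _ _ _ hle
            _ ≤ 2 * n := by
                apply mul_le_mul_of_nonneg_right _ hn0.le
                have h3 : (t.filter (fun δ => δ = 1 ∨ δ = -1)).card ≤ 2 :=
                  (Finset.card_le_card hsub).trans (Finset.card_le_two)
                exact_mod_cast h3
        have hpart2 : ∑ δ ∈ u, ‖chi ρ δ‖ * (mnorm δ)⁻¹ ≤
            c * X ^ e * (C₀ * (n * (2 * X)) ^ e * (2 * n + 4 * X)) := by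
          refine dyadic he hC₀ hn1 hX1 (fun δ => ‖chi ρ δ‖) u (fun δ => by positivity)
            (fun δ hδ => htX δ (Finset.mem_filter.1 hδ).1) ?_
          intro Z hZ s' hs' hs'Z
          refine hcount N d ρ hN hρ hi n hNn Z hZ s' fun δ hδ => ?_
          have h1 := (Finset.mem_filter.1 (hs' hδ)).2
          push Not at h1
          exact ⟨h1.1, h1.2, hs'Z δ hδ⟩
        have hnX : n ≤ X := by rw [hX]; nlinarith
        have hne1 : 1 ≤ n ^ e := Real.one_le_rpow hn1 he.le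
        have hXpow : X ^ e = C₁ ^ e * n ^ e := Real.mul_rpow (by linarith) hn0.le
        have hXpow2 : (n * (2 * X)) ^ e = (2 * C₁) ^ e * (n ^ e * n ^ e) := by
          have h1 : n * (2 * X) = (2 * C₁) * (n * n) := by rw [hX]; ring
          rw [h1, Real.mul_rpow (by positivity) (by positivity), Real.mul_rpow hn0.le hn0.le]
        have hsum : ∑ δ ∈ t, ‖chi ρ δ‖ * (mnorm δ)⁻¹ ≤ C₂ * (n ^ e * n ^ e * n ^ e * n) := by
          rw [hsplit]
          have h1 : 2 * n ≤ 2 * (n ^ e * n ^ e * n ^ e * n) := by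
            have h2 : 1 ≤ n ^ e * n ^ e * n ^ e := by
              have := one_le_mul_of_one_le_of_one_le hne1 hne1
              exact one_le_mul_of_one_le_of_one_le this hne1
            nlinarith
          have h3 : c * X ^ e * (C₀ * (n * (2 * X)) ^ e * (2 * n + 4 * X)) ≤
              c * C₁ ^ e * (C₀ * (2 * C₁) ^ e * (6 * C₁)) * (n ^ e * n ^ e * n ^ e * n) := by
            calc c * X ^ e * (C₀ * (n * (2 * X)) ^ e * (2 * n + 4 * X))
                ≤ c * X ^ e * (C₀ * (n * (2 * X)) ^ e * (6 * X)) := by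
                  gcongr
                  linarith
              _ = c * (C₁ ^ e * n ^ e) * (C₀ * ((2 * C₁) ^ e * (n ^ e * n ^ e)) * (6 * (C₁ * n))) := by
                  rw [hXpow, hXpow2, hX]
              _ = _ := by ring
          rw [hC₂, add_mul]
          exact add_le_add (hpart1.trans h1) (hpart2.trans h3)
        have hKle : K ≤ C₃ * n ^ e / n := by
          have h1 : R ≤ (1 / e + 3) * n ^ e := by
            have h2 : Real.log n ≤ n ^ e / e := Real.log_le_rpow_div hn0.le he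
            rw [hRdef, add_mul]
            have h3 : 1 / e * n ^ e = n ^ e / e := by ring
            rw [h3]
            linarith
          have h2 : Real.exp (-R) ≤ 1 / n := by
            rw [Real.exp_neg, hexpR, one_div]
            apply inv_anti₀ hn0
            have : 1 ≤ Real.exp 3 := Real.one_le_exp (by norm_num)
            nlinarith
          calc K = 368 * (Real.exp r₀ * √2) * (R * Real.exp (-R)) := by rw [hK]; ring
            _ ≤ 368 * (Real.exp r₀ * √2) * (((1 / e + 3) * n ^ e) * (1 / n)) := by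
                gcongr
            _ = C₃ * n ^ e / n := by rw [hC₃]; ring
        have hpow4 : n ^ ε = n ^ e * n ^ e * n ^ e * n ^ e := by
          rw [← Real.rpow_add hn0, ← Real.rpow_add hn0, ← Real.rpow_add hn0]
          congr 1
          rw [he_def]; ring
        calc K * ∑ δ ∈ t, ‖chi ρ δ‖ * (mnorm δ)⁻¹
            ≤ (C₃ * n ^ e / n) * (C₂ * (n ^ e * n ^ e * n ^ e * n)) :=
              mul_le_mul hKle hsum (Finset.sum_nonneg fun δ _ => by
                have := mnorm_pos' δ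
                positivity) (by positivity)
          _ = C₃ * C₂ * n ^ ε := by
              rw [hpow4]
              field_simp

/-- the inequality for vectors of `ES` -/
theorem final_ESV {ε : ℝ} (hε : 0 < ε) : ∃ C : ℝ, 0 < C ∧ ∀ (N d : ℕ)
    (ρ : SL(2, ℤ) →* Matrix.unitaryGroup (Fin d) ℂ), 0 < N → Gamma N ≤ ρ.ker → Irr ρ →
    ∀ n : ℝ, (N : ℝ) ≤ n → (d : ℝ) ≤ n →
      ∀ (k : ℕ) (ν : Fin k → ℝ) (φ : Fin k → VW N d), (∀ i, ε ≤ ν i) →
        (∀ i, ν i ≤ 1 / 2) → (∀ i, φ i ∈ ESV N d ρ (ν i)) → LinearIndependent ℂ φ →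
        ∑ i, n ^ (2 * ν i) ≤ C * n ^ (1 + ε) := by
  obtain ⟨R₀, hR₀, hrad⟩ := exists_radius lam_lower hε
  obtain ⟨C, hC, hgeo⟩ := geoV ε (Real.exp R₀) hε
  obtain ⟨c, hc, hlow⟩ := lam_lower
  have hvol := volume_fdo
  set V : ℝ := (volume (𝒟ᵒ : Set ℍ)).toReal with hV
  have hVpos : 0 < V := ENNReal.toReal_pos hvol.2 hvol.1
  have hVe : volume (𝒟ᵒ : Set ℍ) = ENNReal.ofReal V := (ENNReal.ofReal_toReal hvol.1).symm
  refine ⟨C * V * Real.exp 3 / c ^ 2, by positivity, ?_⟩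
  intro N d ρ hN0 hρ hi n hNn hdn k ν φ hν hν' hφ hli
  have hR₀0 : 0 < R₀ := by linarith
  obtain ⟨e, he, hm⟩ := V5.exists_orthonormal hN0 ν (fun i => hε.trans_le (hν i)) hν' φ hφ hli
  have hn1 : 1 ≤ n := by
    have : (1 : ℝ) ≤ N := by exact_mod_cast hN0
    linarith
  have hnpos : 0 < n := by linarith
  have hlog : 0 ≤ Real.log n := Real.log_nonneg hn1
  set R : ℝ := Real.log n + 3 with hR
  have hR3 : 3 ≤ R := by linarith
  have hRpos : 0 < R := by linarith
  have h1 := trace_ES hN0 ν e he hm hRpos hR₀0 (fun i => (hrad (ν i) (hν i) (hν' i)).2)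
    (fun i => (hrad (ν i) (hν i) (hν' i)).1)
  have h2 : ∫⁻ z in 𝒟ᵒ ∩ (cuspRegion (Real.exp R₀))ᶜ,
      ∑' δ : SL(2, ℤ), ‖chi ρ δ‖ₑ * kk R 1 (δ • z) z ≤ ENNReal.ofReal (C * n ^ ε * V) := by
    calc _ ≤ ∫⁻ z in 𝒟ᵒ ∩ (cuspRegion (Real.exp R₀))ᶜ, ENNReal.ofReal (C * n ^ ε) :=
          setLIntegral_mono' (isOpen_fdo.measurableSet.inter (measurableSet_cuspRegion _).compl)
            fun z hz => hgeo N d ρ hN0 hρ hi n hNn hdn z hz
      _ = ENNReal.ofReal (C * n ^ ε) * volume (𝒟ᵒ ∩ (cuspRegion (Real.exp R₀))ᶜ : Set ℍ) := by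
          rw [lintegral_const, Measure.restrict_apply_univ]
      _ ≤ ENNReal.ofReal (C * n ^ ε) * volume (𝒟ᵒ : Set ℍ) := by
          gcongr
          exact Set.inter_subset_left
      _ = ENNReal.ofReal (C * n ^ ε * V) := by
          rw [hVe, ← ENNReal.ofReal_mul (by positivity)]
  have h3 : ∑ i, lam (ν i) R ^ 2 ≤ C * n ^ ε * V := by
    have h4 := h1.trans h2
    rw [← ENNReal.ofReal_sum_of_nonneg fun i _ => sq_nonneg _] at h4
    exact (ENNReal.ofReal_le_ofReal_iff (by positivity)).1 h4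
  have h5 : ∀ i, c ^ 2 * Real.exp (-3) * n ^ (2 * ν i - 1) ≤ lam (ν i) R ^ 2 := by
    intro i
    have h6 := hlow (ν i) R (hε.le.trans (hν i)) (hν' i) hR3
    have h7 : n ^ (ν i - 1 / 2) * Real.exp (-(3 / 2)) ≤ Real.exp ((ν i - 1 / 2) * R) := by
      rw [Real.rpow_def_of_pos hnpos, ← Real.exp_add]
      apply Real.exp_le_exp.2
      rw [hR]
      nlinarith [hε.le.trans (hν i)]
    have h8 : c * (n ^ (ν i - 1 / 2) * Real.exp (-(3 / 2))) ≤ lam (ν i) R :=
      (mul_le_mul_of_nonneg_left h7 hc.le).trans h6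
    have h9 : (c * (n ^ (ν i - 1 / 2) * Real.exp (-(3 / 2)))) ^ 2 ≤ lam (ν i) R ^ 2 :=
      pow_le_pow_left₀ (by positivity) h8 2
    refine le_trans (le_of_eq ?_) h9
    have e1 : n ^ (2 * ν i - 1) = (n ^ (ν i - 1 / 2)) ^ 2 := by
      rw [← Real.rpow_natCast, ← Real.rpow_mul hnpos.le]
      congr 1; push_cast; ring
    have e2 : Real.exp (-3) = Real.exp (-(3 / 2)) ^ 2 := by
      rw [← Real.exp_nat_mul]; congr 1; push_cast; ring
    rw [e1, e2]; ring
  have h6 : c ^ 2 * Real.exp (-3) * ∑ i, n ^ (2 * ν i - 1) ≤ C * n ^ ε * V := by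
    rw [Finset.mul_sum]
    exact (Finset.sum_le_sum fun i _ => h5 i).trans h3
  have h7 : ∑ i, n ^ (2 * ν i) = n * ∑ i, n ^ (2 * ν i - 1) := by
    rw [Finset.mul_sum]
    refine Finset.sum_congr rfl fun i _ => ?_
    rw [Real.rpow_sub hnpos, Real.rpow_one]
    field_simp
  have h8 : n ^ (1 + ε) = n * n ^ ε := by rw [Real.rpow_add hnpos, Real.rpow_one]
  rw [h7, h8]
  have h9 : ∑ i, n ^ (2 * ν i - 1) ≤ C * V * Real.exp 3 / c ^ 2 * n ^ ε := by
    have e3 : Real.exp 3 * Real.exp (-3) = 1 := by rw [← Real.exp_add]; simp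
    calc ∑ i, n ^ (2 * ν i - 1) = Real.exp 3 / c ^ 2 *
          (c ^ 2 * Real.exp (-3) * ∑ i, n ^ (2 * ν i - 1)) := by
          have : Real.exp 3 / c ^ 2 * (c ^ 2 * Real.exp (-3) * ∑ i, n ^ (2 * ν i - 1)) =
            (Real.exp 3 * Real.exp (-3)) * ((c ^ 2) / c ^ 2) * ∑ i, n ^ (2 * ν i - 1) := by ring
          rw [this, e3, div_self (by positivity)]; ring
      _ ≤ Real.exp 3 / c ^ 2 * (C * n ^ ε * V) := by gcongr
      _ = _ := by ring
  calc n * ∑ i, n ^ (2 * ν i - 1) ≤ n * (C * V * Real.exp 3 / c ^ 2 * n ^ ε) := by gcongr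
    _ = _ := by ring

end V8

end

end Pool.Agent.XE31
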