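import Pool.Agent.XE31.V7
import Pool.Agent.XE31.V5
import Pool.Agent.XE31.H2

/-!
# Vector valued cusp forms: joint eigenfunctions
-/

set_option autoImplicit false
set_option linter.all false
set_option maxHeartbeats 400000
set_option synthInstance.maxHeartbeats 200000

open UpperHalfPlane MeasureTheory Metric ModularGroup CongruenceSubgroup
open scoped MatrixGroups ENNReal Modular Topology NNReal ComplexConjugate

namespace Pool.Agent.XE31

open Pool.Agent.H369R2 Pool.Agent.N799.DT InnerProductSpace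

noncomputable section

namespace W1

open M1 M2 M3 K2 H1 V2 V3 V4

variable {N d : ℕ} {ρ : SL(2, ℤ) →* Matrix.unitaryGroup (Fin d) ℂ}

/-- vector valued cuspidal eigenvectors -/
def EVV (N d : ℕ) (ρ : SL(2, ℤ) →* Matrix.unitaryGroup (Fin d) ℂ) (a : ℝ → ℝ) :
    Submodule ℂ (VW N d) where
  carrier := {F | Eqv ρ F ∧ ∀ j, F j ∈ EV N (Gamma N) a}
  add_mem' := by
    rintro F G ⟨hF1, hF2⟩ ⟨hG1, hG2⟩
    refine ⟨fun γ z j => ?_, fun j => ?_⟩
    · simp only [PiLp.add_apply, Submodule.coe_add, Pi.add_apply]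
      rw [hF1 γ z j, hG1 γ z j, ← Finset.sum_add_distrib]
      refine Finset.sum_congr rfl fun l _ => ?_
      ring
    · rw [PiLp.add_apply]
      exact Submodule.add_mem _ (hF2 j) (hG2 j)
  zero_mem' := by
    refine ⟨fun γ z j => ?_, fun j => ?_⟩
    · simp
    · rw [PiLp.zero_apply]
      exact Submodule.zero_mem _
  smul_mem' := by
    rintro c F ⟨hF1, hF2⟩
    refine ⟨fun γ z j => ?_, fun j => ?_⟩
    · simp only [PiLp.smul_apply, Submodule.coe_smul, Pi.smul_apply, smul_eq_mul]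
      rw [hF1 γ z j, Finset.mul_sum]
      refine Finset.sum_congr rfl fun l _ => ?_
      ring
    · rw [PiLp.smul_apply]
      exact Submodule.smul_mem _ _ (hF2 j)

lemma EVV_congr {a b : ℝ → ℝ} (h : ∀ R : ℝ, 0 < R → a R = b R) : EVV N d ρ a = EVV N d ρ b := by
  ext u
  constructor
  · rintro ⟨h1, h2⟩
    exact ⟨h1, fun j => by rw [← EV_congr h]; exact h2 j⟩
  · rintro ⟨h1, h2⟩
    exact ⟨h1, fun j => by rw [EV_congr h]; exact h2 j⟩

lemma EVV_orth (hN : 0 < N) {a b : ℝ → ℝ} {R : ℝ} (hR : 0 < R) (hne : a R ≠ b R) {u v : VW N d}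
    (hu : u ∈ EVV N d ρ a) (hv : v ∈ EVV N d ρ b) : inner ℂ u v = 0 := by
  rw [PiLp.inner_apply]
  exact Finset.sum_eq_zero fun j _ => EV_orth hN hR hne (hu.2 j) (hv.2 j)

/-- Gram-Schmidt inside the eigenspaces -/
lemma gs_mem (hN : 0 < N) {k : ℕ} (a : Fin k → ℝ → ℝ) (φ : Fin k → VW N d)
    (hφ : ∀ i, φ i ∈ EVV N d ρ (a i)) (i : Fin k) : gramSchmidt ℂ φ i ∈ EVV N d ρ (a i) := by
  induction i using WellFoundedLT.induction with
  | ind i ih =>
    rw [gramSchmidt_def]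
    refine Submodule.sub_mem _ (hφ i) (Submodule.sum_mem _ fun j hj => ?_)
    have hj' : j < i := Finset.mem_Iio.1 hj
    have hjm := ih j hj'
    by_cases h : ∀ R : ℝ, 0 < R → a j R = a i R
    · rw [← EVV_congr h]
      have : ((ℂ ∙ gramSchmidt ℂ φ j).starProjection (φ i)) ∈ (ℂ ∙ gramSchmidt ℂ φ j) :=
        Submodule.starProjection_apply_mem _ _
      obtain ⟨c, hc⟩ := Submodule.mem_span_singleton.1 this
      rw [← hc]
      exact Submodule.smul_mem _ _ hjm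
    · push Not at h
      obtain ⟨R, hR, hne⟩ := h
      have h3 : inner ℂ (gramSchmidt ℂ φ j) (φ i) = 0 := EVV_orth hN hR hne hjm (hφ i)
      rw [Submodule.starProjection_singleton, h3]
      simp

/-- an orthonormal family of eigenvectors with the same parameters -/
lemma exists_orthonormal (hN : 0 < N) {k : ℕ} (a : Fin k → ℝ → ℝ) (φ : Fin k → VW N d)
    (hφ : ∀ i, φ i ∈ EVV N d ρ (a i)) (hli : LinearIndependent ℂ φ) :
    ∃ e : Fin k → VW N d, Orthonormal ℂ e ∧ ∀ i, e i ∈ EVV N d ρ (a i) :=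
  ⟨gramSchmidtNormed ℂ φ, gramSchmidtNormed_orthonormal hli, fun i => by
    unfold gramSchmidtNormed
    exact Submodule.smul_mem _ _ (gs_mem hN a φ hφ i)⟩

/-- the mass of an eigenvector in the cusps -/
theorem halfV (hN : 0 < N) {a : ℝ → ℝ} {R : ℝ} (hR : 0 < R) (ha : a R ≠ 0) {e : VW N d}
    (he : e ∈ EVV N d ρ a) {Y : ℝ} (hY : Real.exp R ≤ Y)
    (hY2 : 2 * (N ^ 2 * Real.exp R / Y ^ 2) ≤ (bv R * a R) ^ 2) :
    ENNReal.ofReal (‖e‖ ^ 2 / 2) ≤
      ∑ j, ∫⁻ z in (cuspRegion Y)ᶜ, ‖(e j : ℍ → ℂ) z‖ₑ ^ 2 ∂(nu N) := by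
  have h1 : ‖e‖ ^ 2 / 2 = ∑ j, ‖e j‖ ^ 2 / 2 := by
    rw [PiLp.norm_sq_eq_of_L2, Finset.sum_div]
  rw [h1, ENNReal.ofReal_sum_of_nonneg fun j _ => by positivity]
  exact Finset.sum_le_sum fun j _ => half hN hR ha (he.2 j) hY hY2

/-- triangular shape of the Gram-Schmidt family, compatible with the eigenspaces -/
theorem tri (hN : 0 < N) {k : ℕ} (a : Fin k → ℝ → ℝ) (φ : Fin k → VW N d)
    (hφ : ∀ i, φ i ∈ EVV N d ρ (a i)) (i : Fin k) :
    ∃ t : Fin k → ℂ, gramSchmidt ℂ φ i = ∑ j, t j • φ j ∧ t i = 1 ∧ (∀ j, i < j → t j = 0) ∧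
      ∀ j, t j ≠ 0 → ∀ R : ℝ, 0 < R → a j R = a i R := by
  classical
  induction i using WellFoundedLT.induction with
  | ind i ih =>
    have h1 : ∀ j : Fin k, ∃ c : ℂ, ((ℂ ∙ gramSchmidt ℂ φ j).starProjection (φ i)) =
        c • gramSchmidt ℂ φ j ∧ (c ≠ 0 → ∀ R : ℝ, 0 < R → a j R = a i R) := by
      intro j
      by_cases h : ∀ R : ℝ, 0 < R → a j R = a i R
      · have : ((ℂ ∙ gramSchmidt ℂ φ j).starProjection (φ i)) ∈ (ℂ ∙ gramSchmidt ℂ φ j) :=
          Submodule.starProjection_apply_mem _ _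
        obtain ⟨c, hc⟩ := Submodule.mem_span_singleton.1 this
        exact ⟨c, hc.symm, fun _ => h⟩
      · push Not at h
        obtain ⟨R, hR, hne⟩ := h
        refine ⟨0, ?_, fun h => absurd rfl h⟩
        have h3 : inner ℂ (gramSchmidt ℂ φ j) (φ i) = 0 :=
          EVV_orth hN hR hne (gs_mem hN a φ hφ j) (hφ i)
        rw [Submodule.starProjection_singleton, h3]
        simp
    choose c hc hc' using h1
    have h2 : ∀ j : Fin k, ∃ t : Fin k → ℂ, j < i → (gramSchmidt ℂ φ j = ∑ l, t l • φ l ∧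
        t j = 1 ∧ (∀ l, j < l → t l = 0) ∧ ∀ l, t l ≠ 0 → ∀ R : ℝ, 0 < R → a l R = a j R) := by
      intro j
      by_cases hj : j < i
      · obtain ⟨t, ht⟩ := ih j hj
        exact ⟨t, fun _ => ht⟩
      · exact ⟨0, fun h => absurd h hj⟩
    choose t ht using h2
    refine ⟨fun l => (if l = i then 1 else 0) - ∑ j ∈ Finset.Iio i, c j * t j l, ?_, ?_, ?_, ?_⟩
    · rw [gramSchmidt_def]
      have e1 : ∀ j ∈ Finset.Iio i, ((ℂ ∙ gramSchmidt ℂ φ j).starProjection (φ i)) =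
          ∑ l, (c j * t j l) • φ l := by
        intro j hj
        rw [hc j, (ht j (Finset.mem_Iio.1 hj)).1, Finset.smul_sum]
        exact Finset.sum_congr rfl fun l _ => smul_smul _ _ _
      rw [Finset.sum_congr rfl e1, Finset.sum_comm]
      have e2 : φ i = ∑ l, (if l = i then (1 : ℂ) else 0) • φ l := by
        simp [ite_smul]
      conv_lhs => rw [e2]
      rw [← Finset.sum_sub_distrib]
      refine Finset.sum_congr rfl fun l _ => ?_
      rw [sub_smul, Finset.sum_smul]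
    · simp only [if_true]
      rw [Finset.sum_eq_zero, sub_zero]
      intro j hj
      have hj' := Finset.mem_Iio.1 hj
      rw [(ht j hj').2.2.1 i hj', mul_zero]
    · intro l hl
      simp only [if_neg hl.ne']
      rw [Finset.sum_eq_zero, sub_zero]
      intro j hj
      have hj' := Finset.mem_Iio.1 hj
      rw [(ht j hj').2.2.1 l (hj'.trans hl), mul_zero]
    · intro l hl R hR
      by_cases h : l = i
      · rw [h]
      · simp only [if_neg h, zero_sub, ne_eq, neg_eq_zero] at hl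
        obtain ⟨j, hj, hj2⟩ := Finset.exists_ne_zero_of_sum_ne_zero hl
        have hj' := Finset.mem_Iio.1 hj
        have h3 : c j ≠ 0 := left_ne_zero_of_mul hj2
        have h4 : t j l ≠ 0 := right_ne_zero_of_mul hj2
        rw [(ht j hj').2.2.2 l h4 R hR, hc' j h3 R hR]

/-- the components -/
def cp (N d : ℕ) (m : Fin d) : VW N d →ₗ[ℂ] LW N where
  toFun u := u m
  map_add' u v := rfl
  map_smul' c u := rfl

lemma cp_apply (m : Fin d) (u : VW N d) : cp N d m u = u m := rfl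

/-- the values -/
def vl (N d : ℕ) (m : Fin d) (z : ℍ) : VW N d →ₗ[ℂ] ℂ where
  toFun u := (u m : ℍ → ℂ) z
  map_add' u v := by
    rw [PiLp.add_apply]; rfl
  map_smul' c u := by
    rw [PiLp.smul_apply]; rfl

lemma vl_apply (m : Fin d) (z : ℍ) (u : VW N d) : vl N d m z u = (u m : ℍ → ℂ) z := rfl

variable {I : Type} [Fintype I]

/-- the real kernel -/
def bbq (c : I → ℝ) (h : I → SL(2, ℝ)) (δ : ℝ) (z w : ℍ) : ℝ :=
  ∑ i, c i * (closedBall (h i • z) δ).indicator 1 w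

lemma ofReal_bbq {c : I → ℝ} (hc : ∀ i, 0 ≤ c i) (h : I → SL(2, ℝ)) (δ : ℝ) (z w : ℍ) :
    ENNReal.ofReal (bbq c h δ z w) = bq c h δ z w := by
  unfold bbq bq
  have h0 : ∀ i, 0 ≤ (closedBall (h i • z) δ).indicator (1 : ℍ → ℝ) w := by
    intro i
    by_cases hw : w ∈ closedBall (h i • z) δ
    · rw [Set.indicator_of_mem hw]; simp
    · rw [Set.indicator_of_notMem hw]
  rw [ENNReal.ofReal_sum_of_nonneg fun i _ => mul_nonneg (hc i) (h0 i)]
  refine Finset.sum_congr rfl fun i _ => ?_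
  rw [ENNReal.ofReal_mul (hc i)]
  congr 1
  by_cases hw : w ∈ closedBall (h i • z) δ
  · rw [Set.indicator_of_mem hw, Set.indicator_of_mem hw]; simp
  · rw [Set.indicator_of_notMem hw, Set.indicator_of_notMem hw]; simp

lemma bbq_nonneg {c : I → ℝ} (hc : ∀ i, 0 ≤ c i) (h : I → SL(2, ℝ)) (δ : ℝ) (z w : ℍ) :
    0 ≤ bbq c h δ z w := by
  unfold bbq
  refine Finset.sum_nonneg fun i _ => mul_nonneg (hc i) ?_
  by_cases hw : w ∈ closedBall (h i • z) δ
  · rw [Set.indicator_of_mem hw]; simp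
  · rw [Set.indicator_of_notMem hw]

lemma meas_bbq (c : I → ℝ) (h : I → SL(2, ℝ)) (δ : ℝ) (z : ℍ) : Measurable (bbq c h δ z) := by
  unfold bbq
  exact Finset.measurable_fun_sum _ fun i _ =>
    (measurable_one.indicator isClosed_closedBall.measurableSet).const_mul _

lemma int_bbq (c : I → ℝ) (h : I → SL(2, ℝ)) (δ : ℝ) (z : ℍ) (u : LW N) :
    ∫ w, (bbq c h δ z w : ℂ) * (u : ℍ → ℂ) w = fn c h δ z u := by
  rw [fn_apply]
  have h1 : ∀ w, (bbq c h δ z w : ℂ) * (u : ℍ → ℂ) w =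
      ∑ i, (c i : ℂ) * (closedBall (h i • z) δ).indicator (u : ℍ → ℂ) w := by
    intro w
    unfold bbq
    push_cast
    rw [Finset.sum_mul]
    refine Finset.sum_congr rfl fun i _ => ?_
    rw [mul_assoc]
    congr 1
    by_cases hw : w ∈ closedBall (h i • z) δ
    · rw [Set.indicator_of_mem hw, Set.indicator_of_mem hw]; simp
    · rw [Set.indicator_of_notMem hw, Set.indicator_of_notMem hw]; simp
  rw [integral_congr_ae (Filter.Eventually.of_forall h1), integral_finset_sum]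
  · refine Finset.sum_congr rfl fun i _ => ?_
    rw [integral_const_mul, integral_indicator isClosed_closedBall.measurableSet]
  · intro i _
    refine Integrable.const_mul ?_ _
    rw [integrable_indicator_iff isClosed_closedBall.measurableSet]
    exact cont_intOn (LW.cont u) _ _

/-- invariance -/
theorem HP_chi (hρ : Gamma N ≤ ρ.ker) {c : I → ℝ} {h : I → SL(2, ℝ)} (hp : HP N c h) (δ : ℝ)
    (σ : SL(2, ℤ)) (z : ℍ) :
    ∑' τ : SL(2, ℤ), ‖chi ρ τ‖ₑ * qq c h δ τ (σ • z) =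
      ∑' τ : SL(2, ℤ), ‖chi ρ τ‖ₑ * qq c h δ τ z := by
  obtain ⟨π, γ, hγ, hc, hh⟩ := hp σ
  have hact : ∀ i, h i • (σ • z) = σ • γ i • h (π i) • z := by
    intro i
    rw [← sl_eq σ z, ← mul_smul (h i) (σ : SL(2, ℝ)) z, hh i,
      mul_smul ((σ : SL(2, ℝ)) * (γ i : SL(2, ℝ))) (h (π i)) z,
      mul_smul (σ : SL(2, ℝ)) (γ i : SL(2, ℝ)) (h (π i) • z), sl_eq, sl_eq]
  have h1 : ∀ i, V2.mt ρ (γ i) = 1 := by
    intro i
    have h2 := hρ (hγ i)
    rw [MonoidHom.mem_ker] at h2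
    unfold V2.mt
    rw [h2]
    rfl
  have hpair : ∀ i j, ∑' τ : SL(2, ℤ), ‖chi ρ τ‖ₑ * vv δ (h i • (σ • z)) (τ • h j • (σ • z)) =
      ∑' τ : SL(2, ℤ), ‖chi ρ τ‖ₑ * vv δ (h (π i) • z) (τ • h (π j) • z) := by
    intro i j
    rw [← ((Equiv.mulLeft (σ * γ i)).trans (Equiv.mulRight (σ * γ j)⁻¹)).tsum_eq]
    refine tsum_congr fun τ => ?_
    rw [hact, hact]
    have e : ((Equiv.mulLeft (σ * γ i)).trans (Equiv.mulRight (σ * γ j)⁻¹)) τ =
        σ * γ i * τ * (σ * γ j)⁻¹ := rfl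
    rw [e]
    have e1 : chi ρ (σ * γ i * τ * (σ * γ j)⁻¹) = chi ρ τ := by
      have e3 : σ * γ i * τ * (σ * γ j)⁻¹ = (σ⁻¹)⁻¹ * (γ i * τ * (γ j)⁻¹) * σ⁻¹ := by group
      rw [e3, chi_conj]
      unfold chi
      rw [mt_mul, mt_mul, mt_inv, h1 i, h1 j]
      simp
    rw [e1]
    congr 1
    have e2 : (σ * γ i * τ * (σ * γ j)⁻¹) • σ • γ j • h (π j) • z =
        σ • γ i • τ • h (π j) • z := by
      simp only [← mul_smul]
      congr 1
      group
    rw [e2, vv_smul, vv_smul]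
  have hswap : ∀ (h' : I → ℍ), ∑' τ : SL(2, ℤ), ‖chi ρ τ‖ₑ * ∑ i, ∑ j, ENNReal.ofReal (c i) *
      (ENNReal.ofReal (c j) * vv δ (h' i) (τ • h' j)) =
      ∑ i, ∑ j, ENNReal.ofReal (c i) * (ENNReal.ofReal (c j) *
        ∑' τ : SL(2, ℤ), ‖chi ρ τ‖ₑ * vv δ (h' i) (τ • h' j)) := by
    intro h'
    have e1 : ∀ τ : SL(2, ℤ), ‖chi ρ τ‖ₑ * ∑ i, ∑ j, ENNReal.ofReal (c i) *
      (ENNReal.ofReal (c j) * vv δ (h' i) (τ • h' j)) = ∑ i, ∑ j, ENNReal.ofReal (c i) *
      (ENNReal.ofReal (c j) * (‖chi ρ τ‖ₑ * vv δ (h' i) (τ • h' j))) := by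
      intro τ
      rw [Finset.mul_sum]
      refine Finset.sum_congr rfl fun i _ => ?_
      rw [Finset.mul_sum]
      refine Finset.sum_congr rfl fun j _ => ?_
      ring
    rw [tsum_congr e1, Summable.tsum_finsetSum fun _ _ => ENNReal.summable]
    refine Finset.sum_congr rfl fun i _ => ?_
    rw [Summable.tsum_finsetSum fun _ _ => ENNReal.summable]
    refine Finset.sum_congr rfl fun j _ => ?_
    rw [ENNReal.tsum_mul_left, ENNReal.tsum_mul_left]
  unfold qq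
  rw [hswap (fun i => h i • (σ • z)), hswap (fun i => h i • z)]
  simp only [hpair]
  rw [← Equiv.sum_comp π (fun i => ∑ j, ENNReal.ofReal (c i) * (ENNReal.ofReal (c j) *
        ∑' τ : SL(2, ℤ), ‖chi ρ τ‖ₑ * vv δ (h i • z) (τ • h j • z)))]
  refine Finset.sum_congr rfl fun i _ => ?_
  rw [← Equiv.sum_comp π (fun j => ENNReal.ofReal (c (π i)) * (ENNReal.ofReal (c j) *
        ∑' τ : SL(2, ℤ), ‖chi ρ τ‖ₑ * vv δ (h (π i) • z) (τ • h j • z)))]
  refine Finset.sum_congr rfl fun j _ => ?_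
  rw [hc i, hc j]

/-- the trace inequality -/
theorem traceV (hN : 0 < N) (hρ : Gamma N ≤ ρ.ker) {c : I → ℝ} (hc : ∀ i, 0 ≤ c i)
    {h : I → SL(2, ℝ)} (hp : HP N c h) (δ : ℝ) {k : ℕ} (e : Fin k → VW N d)
    (he : Orthonormal ℂ e) (hE : ∀ i, Eqv ρ (e i)) (ψ : Fin k → VW N d)
    (hψ : ∀ i j z, fn c h δ z (e i j) = (ψ i j : ℍ → ℂ) z) (Y : ℝ) :
    2 * ∑ i, ∑ j, ∫⁻ z in (cuspRegion Y)ᶜ, ‖(ψ i j : ℍ → ℂ) z‖ₑ ^ 2 ∂(nu N) ≤
      ∫⁻ z in 𝒟ᵒ ∩ (cuspRegion Y)ᶜ, ∑' τ : SL(2, ℤ), ‖chi ρ τ‖ₑ * qq c h δ τ z := by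
  have hfin : ∀ z, ∀ u : ℍ → ℝ≥0∞, Measurable u → (∀ x : ℍ, ∫⁻ w in closedBall x δ, u w ≠ ∞) →
      ∫⁻ w, bq c h δ z w * u w ≠ ∞ := by
    intro z u hu hx
    rw [lint_bq c h δ z hu]
    exact (ENNReal.sum_lt_top.2 fun i _ =>
      ENNReal.mul_lt_top ENNReal.ofReal_lt_top (hx _).lt_top).ne
  refine trace_gen (ρ := ρ) hN e he hE (b := bbq c h δ) (meas_bbq c h δ)
    (bbq_nonneg hc h δ) ?_ ?_ ψ ?_ (qq c h δ) (measurable_qq c h δ) ?_ (HP_chi hρ hp δ) Y
  · intro z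
    simp only [ofReal_bbq hc]
    have h1 := hfin z (fun _ => 1) measurable_const (fun x => by
      rw [setLIntegral_one, vol_eq]
      exact ENNReal.ofReal_ne_top)
    simp only [mul_one] at h1
    exact h1
  · intro z u
    simp only [ofReal_bbq hc]
    exact hfin z _ (LW.cont u).measurable.enorm fun x => by
      have h5 : ∫⁻ w in closedBall x δ, ‖(u : ℍ → ℂ) w‖ₑ < ∞ := (cont_intOn (LW.cont u) x δ).2
      exact h5.ne
  · intro i j z
    rw [int_bbq, hψ]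
  · intro z
    rw [← (Equiv.inv SL(2, ℤ)).tsum_eq]
    refine tsum_congr fun σ => ?_
    have e3 : (Equiv.inv SL(2, ℤ)) σ = σ⁻¹ := rfl
    rw [e3, chi_inv]
    congr 1
    simp only [ofReal_bbq hc]
    exact bq_conv c h δ z σ

end W1

end

end Pool.Agent.XE31
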