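import Pool.Agent.XE31.W1

/-!
# The trace inequality for joint vector valued eigenfunctions
-/

set_option autoImplicit false
set_option linter.all false
set_option maxHeartbeats 400000
set_option synthInstance.maxHeartbeats 200000

open UpperHalfPlane MeasureTheory Metric ModularGroup CongruenceSubgroup
open scoped MatrixGroups ENNReal Modular Topology NNReal ComplexConjugate

namespace Pool.Agent.XE31

open Pool.Agent.H369R2 Pool.Agent.N799.DT InnerProductSpace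

noncomputable section

namespace W2

open M1 M2 M3 K2 H1 V2 V3 V4 W1

variable {N d : ℕ} {ρ : SL(2, ℤ) →* Matrix.unitaryGroup (Fin d) ℂ} {I : Type} [Fintype I]

/-- the trace inequality for joint eigenfunctions -/
theorem jointV (hN : 0 < N) (hρ : Gamma N ≤ ρ.ker) {c : I → ℝ} (hc : ∀ i, 0 ≤ c i)
    {h : I → SL(2, ℝ)} (hp : HP N c h) {δ : ℝ} (hδ : 0 < δ) {k : ℕ} (a : Fin k → ℝ → ℝ)
    (φ : Fin k → VW N d) (hφ : ∀ i, φ i ∈ EVV N d ρ (a i)) (hli : LinearIndependent ℂ φ)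
    (Λ : Fin k → ℝ) (hΛ : ∀ i m z, ∑ l, (c l : ℂ) * (φ i m : ℍ → ℂ) (h l • z) =
      (Λ i : ℂ) * (φ i m : ℍ → ℂ) z) {Y : ℝ} (hY : Real.exp δ ≤ Y) (ha : ∀ i, a i δ ≠ 0)
    (hY2 : ∀ i, 2 * (N ^ 2 * Real.exp δ / Y ^ 2) ≤ (bv δ * a i δ) ^ 2) :
    ∑ i, ENNReal.ofReal ((bv δ * a i δ * Λ i) ^ 2) ≤
      ∫⁻ z in 𝒟ᵒ ∩ (cuspRegion Y)ᶜ, ∑' τ : SL(2, ℤ), ‖chi ρ τ‖ₑ * qq c h δ τ z := by
  classical
  have hbv := bv_pos hδ
  choose t ht1 ht2 ht3 ht4 using W1.tri hN a φ hφ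
  set g := gramSchmidt ℂ φ with hg
  have hg0 : ∀ i, g i ≠ 0 := fun i => gramSchmidt_ne_zero i hli
  have hgn : ∀ i, (‖g i‖ : ℂ) ≠ 0 := fun i => by exact_mod_cast (norm_ne_zero_iff.2 (hg0 i))
  -- the values of the functional
  have hfn : ∀ i m z, fn c h δ z (φ i m) = ((bv δ * a i δ * Λ i : ℝ) : ℂ) * (φ i m : ℍ → ℂ) z := by
    intro i m z
    rw [fn_apply]
    have h1 : ∀ l, (c l : ℂ) * ∫ w in closedBall (h l • z) δ, (φ i m : ℍ → ℂ) w =
        ((bv δ * a i δ : ℝ) : ℂ) * ((c l : ℂ) * (φ i m : ℍ → ℂ) (h l • z)) := by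
      intro l
      have h2 := ((hφ i).2 m).2.1 δ hδ (h l • z)
      unfold Av at h2
      rw [inv_smul_eq_iff₀ hbv.ne'] at h2
      rw [h2, Complex.real_smul]
      push_cast
      ring
    rw [Finset.sum_congr rfl fun l _ => h1 l, ← Finset.mul_sum, hΛ i m z]
    push_cast
    ring
  set e : Fin k → VW N d := gramSchmidtNormed ℂ φ with he
  have horth : Orthonormal ℂ e := gramSchmidtNormed_orthonormal hli
  have hedef : ∀ i, e i = ((‖g i‖ : ℂ)⁻¹) • g i := fun i => rfl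
  have hem : ∀ i, e i ∈ EVV N d ρ (a i) := fun i => by
    rw [hedef]
    exact Submodule.smul_mem _ _ (W1.gs_mem hN a φ hφ i)
  set ψ : Fin k → VW N d := fun i =>
    (((bv δ * a i δ : ℝ) : ℂ) * (‖g i‖ : ℂ)⁻¹) • ∑ j, (t i j * (Λ j : ℂ)) • φ j with hψdef
  have hψm : ∀ i, ψ i ∈ EVV N d ρ (a i) := by
    intro i
    refine Submodule.smul_mem _ _ (Submodule.sum_mem _ fun j _ => ?_)
    by_cases h0 : t i j = 0
    · rw [h0, zero_mul, zero_smul]
      exact Submodule.zero_mem _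
    · rw [← EVV_congr (ht4 i j h0)]
      exact Submodule.smul_mem _ _ (hφ j)
  have hψ : ∀ i m z, fn c h δ z (e i m) = (ψ i m : ℍ → ℂ) z := by
    intro i m z
    have q1 : fn c h δ z (e i m) = ((fn c h δ z).comp (cp N d m)) (e i) := rfl
    have q2 : (ψ i m : ℍ → ℂ) z = vl N d m z (ψ i) := rfl
    have h2 : ((fn c h δ z).comp (cp N d m)) (g i) =
        ∑ j, ((fn c h δ z).comp (cp N d m)) (t i j • φ j) := by
      conv_lhs => rw [ht1 i]
      rw [map_sum]
    rw [q1, q2, hedef, map_smul, h2, smul_eq_mul, hψdef]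
    simp only
    rw [map_smul, map_sum, smul_eq_mul]
    have h1 : ∀ j, ((fn c h δ z).comp (cp N d m)) (t i j • φ j) =
        ((bv δ * a i δ : ℝ) : ℂ) * vl N d m z ((t i j * (Λ j : ℂ)) • φ j) := by
      intro j
      rw [map_smul, map_smul, smul_eq_mul, smul_eq_mul]
      have q3 : ((fn c h δ z).comp (cp N d m)) (φ j) = fn c h δ z (φ j m) := rfl
      have q4 : vl N d m z (φ j) = (φ j m : ℍ → ℂ) z := rfl
      rw [q3, q4, hfn]
      by_cases h0 : t i j = 0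
      · rw [h0]; ring
      · rw [ht4 i j h0 δ hδ]
        push_cast
        ring
    rw [Finset.sum_congr rfl fun j _ => h1 j, ← Finset.mul_sum]
    ring
  have hinner : ∀ i, inner ℂ (e i) (ψ i) = ((bv δ * a i δ * Λ i : ℝ) : ℂ) := by
    intro i
    have h1 : ∑ j, (t i j * (Λ j : ℂ)) • φ j = (Λ i : ℂ) • g i +
        ∑ j, (t i j * ((Λ j : ℂ) - Λ i)) • φ j := by
      rw [ht1 i, Finset.smul_sum, ← Finset.sum_add_distrib]
      refine Finset.sum_congr rfl fun j _ => ?_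
      rw [smul_smul, ← add_smul]
      congr 1
      ring
    have h2 : inner ℂ (g i) (∑ j, (t i j * ((Λ j : ℂ) - Λ i)) • φ j) = 0 := by
      rw [inner_sum]
      refine Finset.sum_eq_zero fun j _ => ?_
      rw [inner_smul_right]
      rcases lt_trichotomy j i with hj | hj | hj
      · rw [gramSchmidt_inv_triangular ℂ φ hj, mul_zero]
      · rw [hj]; simp
      · rw [ht3 i j hj]; simp
    rw [hψdef]
    simp only
    have h4 : inner ℂ (g i) (g i) = ((‖g i‖ : ℝ) : ℂ) ^ 2 := by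
      rw [inner_self_eq_norm_sq_to_K]
      rfl
    rw [hedef, inner_smul_left, inner_smul_right, h1, inner_add_right, h2, add_zero,
      inner_smul_right, h4]
    have h3 := hgn i
    rw [map_inv₀, Complex.conj_ofReal]
    push_cast
    field_simp
  have hnorm : ∀ i, (bv δ * a i δ * Λ i) ^ 2 ≤ ‖ψ i‖ ^ 2 := by
    intro i
    have h1 := norm_inner_le_norm (𝕜 := ℂ) (e i) (ψ i)
    rw [hinner, horth.1 i, one_mul, Complex.norm_real, Real.norm_eq_abs] at h1
    rw [← sq_abs]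
    exact pow_le_pow_left₀ (abs_nonneg _) h1 2
  have hlow : ∀ i, ENNReal.ofReal ((bv δ * a i δ * Λ i) ^ 2 / 2) ≤
      ∑ j, ∫⁻ z in (cuspRegion Y)ᶜ, ‖(ψ i j : ℍ → ℂ) z‖ₑ ^ 2 ∂(nu N) := by
    intro i
    refine le_trans ?_ (halfV hN hδ (ha i) (hψm i) hY (hY2 i))
    apply ENNReal.ofReal_le_ofReal
    linarith [hnorm i]
  have htr := traceV hN hρ hc hp δ e horth (fun i => (hem i).1) ψ hψ Y
  refine le_trans ?_ htr
  rw [Finset.mul_sum]
  refine Finset.sum_le_sum fun i _ => ?_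
  refine le_trans ?_ (mul_le_mul' le_rfl (hlow i))
  rw [← ENNReal.ofReal_ofNat, ← ENNReal.ofReal_mul (by norm_num)]
  apply ENNReal.ofReal_le_ofReal
  linarith

end W2

end

end Pool.Agent.XE31
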