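import Pool.Agent.XE31.W2
import Pool.Agent.XE31.V6
import Pool.Agent.XE31.Q3

/-!
# The weighted count with a class function
-/

set_option autoImplicit false
set_option linter.all false
set_option maxHeartbeats 400000

open UpperHalfPlane MeasureTheory Metric ModularGroup CongruenceSubgroup
open scoped MatrixGroups ENNReal Modular Topology NNReal

namespace Pool.Agent.XE31

open Pool.Agent.H369R2 Pool.Agent.N799.DT

noncomputable section

namespace W3

open H4 Q1 Q2 Q3 V2 V6 V7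

/-- double counting for one element -/
theorem dblf {N : ℕ} (hN : 0 < N) [Fintype SL(2, ZMod N)] {f : SL(2, ZMod N) → ℝ}
    (hf0 : ∀ h, 0 ≤ f h) (hf : ∀ g h, IsConj g h → f g = f h) (δ : SL(2, ℤ))
    [∀ h, Decidable (IsConj (red N δ) h)] :
    (Fintype.card SL(2, ZMod N) : ℝ) * f (red N δ) ≤
      ∑ h : SL(2, ZMod N), (if IsConj (red N δ) h then
        f h * (Nat.card {g : SL(2, ZMod N) // g * h = h * g} : ℝ) else 0) := by
  have h1 := dblc hN hf0 hf {δ}
  rw [Finset.sum_singleton] at h1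
  have h2 : ∀ h : SL(2, ZMod N), Nat.card {δ' : SL(2, ℤ) // δ' ∈ ({δ} : Finset SL(2, ℤ)) ∧
      IsConj (red N δ') h} = if IsConj (red N δ) h then 1 else 0 := by
    intro h
    split_ifs with hc
    · rw [Nat.card_eq_one_iff_unique]
      refine ⟨⟨fun a b => ?_⟩, ⟨⟨δ, Finset.mem_singleton_self _, hc⟩⟩⟩
      apply Subtype.ext
      rw [Finset.mem_singleton.1 a.2.1, Finset.mem_singleton.1 b.2.1]
    · rw [Nat.card_eq_zero]
      left
      refine ⟨fun a => hc ?_⟩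
      have := a.2.2
      rwa [Finset.mem_singleton.1 a.2.1] at this
  simp only [h2] at h1
  refine h1.trans (le_of_eq ?_)
  refine Finset.sum_congr rfl fun h _ => ?_
  split_ifs <;> simp

/-- the sum of the weights at one level -/
theorem sum_wt {ε C : ℝ} (hC : 0 < C)
    (hpts : ∀ (N μ D : ℕ) (t : ℤ) (Y U : ℝ), 0 < N →
    0 < μ → 0 < D → 5 ≤ Y → 0 ≤ U → ∀ s : Finset MZ, (∀ η ∈ s, Sz D Y η ∧ Cl N μ t η) →
    ∑ η ∈ s, wt D U η ≤ C * (D : ℝ) ^ ε * ((D : ℝ) / μ) * (1 + U * D / (N * μ)) *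
      (1 + Real.log (4 * D * Y)))
    {μ D : ℕ} (hμ : 0 < μ) (hD : 0 < D) {Y U : ℝ} (hY : 5 ≤ Y) (hU : 0 ≤ U)
    (s : Finset MZ) (hs : ∀ η ∈ s, Sz D Y η)
    (hl : ∀ η ∈ s, (μ : ℤ) ∣ η 0 1 ∧ (μ : ℤ) ∣ η 1 0 ∧ (μ : ℤ) ∣ η 0 0 - η 1 1) :
    ∑ η ∈ s, wt D U η ≤ C * (D : ℝ) ^ ε * (D + U * D ^ 2 / μ) * (1 + Real.log (4 * D * Y)) := by
  classical
  have hμr : (0 : ℝ) < μ := by exact_mod_cast hμ
  have h1 : ∑ η ∈ s, wt D U η = ∑ t ∈ Finset.range μ,
      ∑ η ∈ s.filter (fun η => ((η 0 0 + η 1 1) % (μ : ℤ)).toNat = t), wt D U η := by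
    refine (Finset.sum_fiberwise_of_maps_to (fun η _ => ?_) _).symm
    rw [Finset.mem_range]
    have h2 := Int.emod_nonneg (η 0 0 + η 1 1) (by exact_mod_cast hμ.ne' : (μ : ℤ) ≠ 0)
    have h3 := Int.emod_lt_of_pos (η 0 0 + η 1 1) (by exact_mod_cast hμ : (0 : ℤ) < μ)
    show ((η 0 0 + η 1 1) % (μ : ℤ)).toNat < μ
    omega
  have h2 : ∀ t ∈ Finset.range μ,
      ∑ η ∈ s.filter (fun η => ((η 0 0 + η 1 1) % (μ : ℤ)).toNat = t), wt D U η ≤
      C * (D : ℝ) ^ ε * ((D : ℝ) / μ) * (1 + U * D / μ) * (1 + Real.log (4 * D * Y)) := by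
    intro t _
    have h3 := hpts 1 μ D t Y U one_pos hμ hD hY hU
      (s.filter fun η => ((η 0 0 + η 1 1) % (μ : ℤ)).toNat = t) (by
      intro η hη
      rw [Finset.mem_filter] at hη
      obtain ⟨a1, a2, a3⟩ := hl η hη.1
      refine ⟨hs η hη.1, a1, a2, a3, ?_⟩
      rw [one_mul]
      have h4 := Int.emod_add_mul_ediv (η 0 0 + η 1 1) μ
      have h2 := Int.emod_nonneg (η 0 0 + η 1 1) (by exact_mod_cast hμ.ne' : (μ : ℤ) ≠ 0)
      have h5 : (η 0 0 + η 1 1) % (μ : ℤ) = t := by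
        have := hη.2
        omega
      rw [h5] at h4
      exact ⟨(η 0 0 + η 1 1) / μ, by linarith⟩)
    rw [Nat.cast_one, one_mul] at h3
    exact h3
  rw [h1]
  refine (Finset.sum_le_sum h2).trans (le_of_eq ?_)
  rw [Finset.sum_const, Finset.card_range, nsmul_eq_mul]
  field_simp

/-- the weighted count -/
theorem count : ∀ ε : ℝ, 0 < ε → ∃ C : ℝ, 0 < C ∧ ∀ (N : ℕ), 0 < N →
    ∀ f : SL(2, ZMod N) → ℝ, (∀ h, 0 ≤ f h) → (∀ g h, IsConj g h → f g = f h) →
    (∀ [Fintype SL(2, ZMod N)], ∑ h, f h ^ 2 ≤ Fintype.card SL(2, ZMod N)) →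
    ∀ D : ℕ, 0 < D → Nat.Coprime D N → ∀ Y U : ℝ, 5 ≤ Y → 0 ≤ U →
    ∀ s : Finset MZ, (∀ η ∈ s, Sz D Y η) → ∀ τ : MZ → SL(2, ℤ), (∀ η ∈ s, Cg N D η (τ η)) →
    ∑ η ∈ s, f (red N (τ η)) * wt D U η ≤ C * (N * D) ^ ε * (N * D + U * D ^ 2) *
      (1 + Real.log (4 * D * Y)) := by
  classical
  intro ε hε
  obtain ⟨C, hC, hpts⟩ := wpoints (ε / 2) (by positivity)
  obtain ⟨C₂, hC₂, hdiv⟩ := Pool.Agent.H369R2.divisor_bound (ε / 4) (by positivity)
  refine ⟨2 * C * C₂ ^ 2, by positivity, ?_⟩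
  intro N hN f hf0 hfc hf2 D hD hDN Y U hY hU s hs τ hτ
  have : NeZero N := ⟨hN.ne'⟩
  have : Fintype SL(2, ZMod N) := Fintype.ofFinite _
  have hN1 : (1 : ℝ) ≤ N := by exact_mod_cast hN
  have hN0 : (0 : ℝ) < N := by linarith
  have hDr : (1 : ℝ) ≤ D := by exact_mod_cast hD
  obtain ⟨X, hX⟩ : ∃ X : ℝ, X = D := ⟨_, rfl⟩
  have hX0 : 0 < X := by rw [hX]; linarith
  obtain ⟨L, hL⟩ : ∃ L : ℝ, L = 1 + Real.log (4 * D * Y) := ⟨_, rfl⟩
  have hL1 : 1 ≤ L := by
    rw [hL]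
    have : 0 ≤ Real.log (4 * D * Y) := Real.log_nonneg (by nlinarith)
    linarith
  have hXe : 0 < X ^ (ε / 2) := Real.rpow_pos_of_pos hX0 _
  obtain ⟨E, hE⟩ : ∃ E : ℝ, E = N.divisors.card := ⟨_, rfl⟩
  have hE1 : 1 ≤ E := by
    rw [hE]
    exact_mod_cast Finset.card_pos.2 ⟨1, Nat.one_mem_divisors.2 hN.ne'⟩
  obtain ⟨G, hG⟩ : ∃ G : ℝ, G = Fintype.card SL(2, ZMod N) := ⟨_, rfl⟩
  have hG0 : 0 < G := by rw [hG]; exact_mod_cast Fintype.card_pos
  rw [← hL, ← hX]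
  -- one level
  have hone : ∀ m ∈ N.divisors, ∑ η ∈ s.filter (fun η => lev N (red N (τ η)) = m),
      f (red N (τ η)) * wt D U η ≤ 2 * C * X ^ (ε / 2) * E * L * (N * X + U * X ^ 2) := by
    intro m hm
    have hm0 : 0 < m := Nat.pos_of_mem_divisors hm
    have hmr : (1 : ℝ) ≤ m := by exact_mod_cast hm0
    have hmN : (m : ℝ) ≤ N := by exact_mod_cast Nat.divisor_le hm
    obtain ⟨u, hu⟩ : ∃ u, u = s.filter (fun η => lev N (red N (τ η)) = m) := ⟨_, rfl⟩
    rw [← hu]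
    have hus : ∀ η ∈ u, η ∈ s := by
      intro η hη
      rw [hu, Finset.mem_filter] at hη
      exact hη.1
    have hul : ∀ η ∈ u, lev N (red N (τ η)) = m := by
      intro η hη
      rw [hu, Finset.mem_filter] at hη
      exact hη.2
    have h1 : ∑ η ∈ u, wt D U η ≤ C * X ^ (ε / 2) * (X + U * X ^ 2 / m) * L := by
      rw [hX, hL]
      refine sum_wt hC hpts hm0 hD hY hU u (fun η hη => hs η (hus η hη)) fun η hη => ?_
      obtain ⟨t, ht⟩ := conj_points' hDN (red N (τ η))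
      obtain ⟨c1, c2, c3, _⟩ := ht η (τ η) (hs η (hus η hη)).det (hτ η (hus η hη)) (IsConj.refl _)
      rw [hul η hη] at c1 c2 c3
      exact ⟨c1, c2, c3⟩
    have h2 : ∑ η ∈ u, f (red N (τ η)) ^ 2 * wt D U η ≤
        2 * E ^ 2 * C * X ^ (ε / 2) * L * (X * N * m + U * X ^ 2) := by
      have b1 : G * ∑ η ∈ u, f (red N (τ η)) ^ 2 * wt D U η ≤
          ∑ h : SL(2, ZMod N), f h ^ 2 * ((Nat.card {g : SL(2, ZMod N) // g * h = h * g} : ℝ) *
            ∑ η ∈ u.filter (fun η => IsConj (red N (τ η)) h), wt D U η) := by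
        rw [Finset.mul_sum]
        have e1 : ∀ η ∈ u, G * (f (red N (τ η)) ^ 2 * wt D U η) ≤ ∑ h : SL(2, ZMod N),
            (if IsConj (red N (τ η)) h then
            f h ^ 2 * (Nat.card {g : SL(2, ZMod N) // g * h = h * g} : ℝ) else 0) * wt D U η := by
          intro η hη
          rw [← mul_assoc, ← Finset.sum_mul, hG]
          refine mul_le_mul_of_nonneg_right ?_ (wt_nonneg D hU η)
          exact dblf hN (f := fun h => f h ^ 2) (fun h => sq_nonneg _)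
            (fun g h hc => by simp only [hfc g h hc]) (τ η)
        refine (Finset.sum_le_sum e1).trans (le_of_eq ?_)
        rw [Finset.sum_comm]
        refine Finset.sum_congr rfl fun h _ => ?_
        rw [Finset.mul_sum, Finset.mul_sum, Finset.sum_filter]
        refine Finset.sum_congr rfl fun η _ => ?_
        split_ifs
        · ring
        · simp
      have b2 : ∀ h : SL(2, ZMod N), f h ^ 2 *
          ((Nat.card {g : SL(2, ZMod N) // g * h = h * g} : ℝ) *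
            ∑ η ∈ u.filter (fun η => IsConj (red N (τ η)) h), wt D U η) ≤
          f h ^ 2 * (2 * E ^ 2 * C * X ^ (ε / 2) * L * (X * N * m + U * X ^ 2)) := by
        intro h
        apply mul_le_mul_of_nonneg_left _ (sq_nonneg _)
        by_cases hne : ∃ η ∈ u, IsConj (red N (τ η)) h
        · obtain ⟨η₀, hη₀, hc⟩ := hne
          have hlh : lev N h = m := by
            rw [← hul η₀ hη₀]
            exact F3.lev_conj hc.symm
          have hm0' : (0 : ℝ) < m := by linarith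
          obtain ⟨t, ht⟩ := conj_points' hDN h
          have e2 := hpts N (lev N h) D t Y U hN (Count.lev_pos hN h) hD hY hU
            (u.filter (fun η => IsConj (red N (τ η)) h)) (by
            intro η hη
            rw [Finset.mem_filter] at hη
            obtain ⟨c1, c2, c3, c4⟩ := ht η (τ η) (hs η (hus η hη.1)).det (hτ η (hus η hη.1)) hη.2
            exact ⟨hs η (hus η hη.1), c1, c2, c3, c4⟩)
          have e3 := Count.cent_le cent N h
          rw [hlh, ← hL, ← hX] at e2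
          rw [hlh, ← hE] at e3
          have e4 := mul_le_mul e3 e2 (Finset.sum_nonneg fun η _ => wt_nonneg D hU η) (by positivity)
          refine e4.trans (le_of_eq ?_)
          field_simp
        · have h3 : u.filter (fun η => IsConj (red N (τ η)) h) = ∅ := by
            rw [Finset.filter_eq_empty_iff]
            intro η hη hc
            exact hne ⟨η, hη, hc⟩
          rw [h3, Finset.sum_empty, mul_zero]
          positivity
      have b3 := b1.trans (Finset.sum_le_sum fun h _ => b2 h)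
      rw [← Finset.sum_mul] at b3
      have b4 : (∑ h, f h ^ 2) * (2 * E ^ 2 * C * X ^ (ε / 2) * L * (X * N * m + U * X ^ 2)) ≤
          G * (2 * E ^ 2 * C * X ^ (ε / 2) * L * (X * N * m + U * X ^ 2)) := by
        apply mul_le_mul_of_nonneg_right _ (by positivity)
        rw [hG]
        exact hf2
      exact le_of_mul_le_mul_left (b3.trans b4) hG0
    -- Cauchy-Schwarz
    have hcs : (∑ η ∈ u, f (red N (τ η)) * wt D U η) ^ 2 ≤
        (2 * C * X ^ (ε / 2) * E * L * (N * X + U * X ^ 2)) ^ 2 := by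
      have c1 := Finset.sum_mul_sq_le_sq_mul_sq u (fun η => Real.sqrt (wt D U η))
        (fun η => f (red N (τ η)) * Real.sqrt (wt D U η))
      have c2 : ∀ η, Real.sqrt (wt D U η) * (f (red N (τ η)) * Real.sqrt (wt D U η)) =
          f (red N (τ η)) * wt D U η := by
        intro η
        rw [mul_left_comm, Real.mul_self_sqrt (wt_nonneg D hU η)]
      have c3 : ∀ η, Real.sqrt (wt D U η) ^ 2 = wt D U η := fun η =>
        Real.sq_sqrt (wt_nonneg D hU η)
      have c4 : ∀ η, (f (red N (τ η)) * Real.sqrt (wt D U η)) ^ 2 =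
          f (red N (τ η)) ^ 2 * wt D U η := fun η => by rw [mul_pow, c3]
      simp only [c2, c3, c4] at c1
      refine c1.trans ?_
      refine (mul_le_mul h1 h2 (Finset.sum_nonneg fun η _ => mul_nonneg (sq_nonneg _)
        (wt_nonneg D hU η)) (by positivity)).trans ?_
      have e1 : (X + U * X ^ 2 / m) * (X * N * m + U * X ^ 2) ≤ (N * X + U * X ^ 2) ^ 2 := by
        have hm0' : (0 : ℝ) < m := by linarith
        have e2 : (X + U * X ^ 2 / m) * (X * N * m + U * X ^ 2) =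
            N * m * X ^ 2 + U * X ^ 3 + N * U * X ^ 3 + U ^ 2 * X ^ 4 / m := by
          field_simp
          ring
        have e3 : U ^ 2 * X ^ 4 / m ≤ U ^ 2 * X ^ 4 := div_le_self (by positivity) hmr
        have e4 : N * m * X ^ 2 ≤ N * N * X ^ 2 := by gcongr
        have e5 : 1 * (U * X ^ 3) ≤ N * (U * X ^ 3) := by gcongr
        rw [e2]
        nlinarith
      calc C * X ^ (ε / 2) * (X + U * X ^ 2 / m) * L *
            (2 * E ^ 2 * C * X ^ (ε / 2) * L * (X * N * m + U * X ^ 2))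
          = 2 * (C * X ^ (ε / 2) * E * L) ^ 2 *
            ((X + U * X ^ 2 / m) * (X * N * m + U * X ^ 2)) := by ring
        _ ≤ 2 * (C * X ^ (ε / 2) * E * L) ^ 2 * (N * X + U * X ^ 2) ^ 2 := by gcongr
        _ ≤ 4 * (C * X ^ (ε / 2) * E * L) ^ 2 * (N * X + U * X ^ 2) ^ 2 := by
            have : 0 ≤ (C * X ^ (ε / 2) * E * L) ^ 2 * (N * X + U * X ^ 2) ^ 2 := by positivity
            nlinarith
        _ = _ := by ring
    exact (le_abs_self _).trans (abs_le_of_sq_le_sq hcs (by positivity))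
  have hsplit : ∑ η ∈ s, f (red N (τ η)) * wt D U η =
      ∑ m ∈ N.divisors, ∑ η ∈ s.filter (fun η => lev N (red N (τ η)) = m),
        f (red N (τ η)) * wt D U η := by
    rw [Finset.sum_fiberwise_of_maps_to]
    intro η _
    rw [Nat.mem_divisors]
    exact ⟨Count.lev_dvd N _, hN.ne'⟩
  rw [hsplit]
  refine (Finset.sum_le_sum hone).trans ?_
  rw [Finset.sum_const, nsmul_eq_mul, ← hE]
  have h1 : E ^ 2 ≤ C₂ ^ 2 * (N : ℝ) ^ (ε / 2) := by
    have h2 := hdiv N hN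
    rw [← hE] at h2
    calc E ^ 2 ≤ (C₂ * (N : ℝ) ^ (ε / 4)) ^ 2 := by gcongr
      _ = C₂ ^ 2 * (N : ℝ) ^ (ε / 2) := by
          rw [mul_pow, ← Real.rpow_natCast ((N : ℝ) ^ (ε / 4)) 2, ← Real.rpow_mul hN0.le]
          congr 2
          push_cast
          ring
  have hX1 : 1 ≤ X := by rw [hX]; exact hDr
  have h2 : (N : ℝ) ^ (ε / 2) * X ^ (ε / 2) ≤ (N * X) ^ ε := by
    rw [← Real.mul_rpow hN0.le hX0.le]
    exact Real.rpow_le_rpow_of_exponent_le (one_le_mul_of_one_le_of_one_le hN1 hX1) (by linarith)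
  calc E * (2 * C * X ^ (ε / 2) * E * L * (N * X + U * X ^ 2))
      = 2 * C * (E ^ 2 * X ^ (ε / 2)) * (N * X + U * X ^ 2) * L := by ring
    _ ≤ 2 * C * (C₂ ^ 2 * (N : ℝ) ^ (ε / 2) * X ^ (ε / 2)) * (N * X + U * X ^ 2) * L := by gcongr
    _ = 2 * C * C₂ ^ 2 * ((N : ℝ) ^ (ε / 2) * X ^ (ε / 2)) * (N * X + U * X ^ 2) * L := by ring
    _ ≤ 2 * C * C₂ ^ 2 * (N * X) ^ ε * (N * X + U * X ^ 2) * L := by gcongr

/-- the weighted count for the character of an irreducible representation -/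
theorem count_chi : ∀ ε : ℝ, 0 < ε → ∃ C : ℝ, 0 < C ∧ ∀ (N d : ℕ)
    (ρ : SL(2, ℤ) →* Matrix.unitaryGroup (Fin d) ℂ), 0 < N → Gamma N ≤ ρ.ker → Irr ρ →
    ∀ M : ℝ, (N : ℝ) ≤ M →
    ∀ D : ℕ, 0 < D → Nat.Coprime D N → ∀ Y U : ℝ, 5 ≤ Y → 0 ≤ U →
    ∀ s : Finset MZ, (∀ η ∈ s, Sz D Y η) → ∀ τ : MZ → SL(2, ℤ), (∀ η ∈ s, Cg N D η (τ η)) →
    ∑ η ∈ s, ‖chi ρ (τ η)‖ * wt D U η ≤ C * (M * D) ^ ε * (M * D + U * D ^ 2) *
      (1 + Real.log (4 * D * Y)) := by
  intro ε hε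
  obtain ⟨C, hC, h⟩ := count ε hε
  refine ⟨C, hC, fun N d ρ hN hρ hi M hM D hD hDN Y U hY hU s hs τ hτ => ?_⟩
  have h1 := h N hN (ch N hN ρ) (ch_nonneg hN) (ch_conj hN hρ) (by
    intro _
    exact (ch_sq hN hρ hi).le) D hD hDN Y U hY hU s hs τ hτ
  simp only [ch_red hN hρ] at h1
  refine h1.trans ?_
  have hN0 : (0 : ℝ) < N := by exact_mod_cast hN
  have hDr : (1 : ℝ) ≤ D := by exact_mod_cast hD
  have hD0 : (0 : ℝ) < D := by linarith
  have hM0 : 0 < M := by linarith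
  have hL : 0 ≤ Real.log (4 * D * Y) := Real.log_nonneg (by nlinarith)
  have h2 : (N * (D : ℝ)) ^ ε ≤ (M * D) ^ ε :=
    Real.rpow_le_rpow (by positivity) (by gcongr) hε.le
  have h3 : (N : ℝ) * D + U * D ^ 2 ≤ M * D + U * D ^ 2 := by gcongr
  have h4 : 0 ≤ (M * (D : ℝ)) ^ ε := by positivity
  calc C * (N * (D : ℝ)) ^ ε * (N * D + U * D ^ 2) * (1 + Real.log (4 * D * Y))
      ≤ C * (M * D) ^ ε * (M * D + U * D ^ 2) * (1 + Real.log (4 * D * Y)) := by
        gcongr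

end W3

end

end Pool.Agent.XE31
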