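import Pool.Agent.XE31.Q6
import Pool.Agent.XE31.W3
import Pool.Agent.XE31.V8

/-!
# The geometric side of the mean square, for a class function
-/

set_option autoImplicit false
set_option linter.all false

open UpperHalfPlane MeasureTheory Metric ModularGroup CongruenceSubgroup
open scoped MatrixGroups ENNReal Modular Topology NNReal

namespace Pool.Agent.XE31

open Pool.Agent.H369R2 Pool.Agent.N799.DT

noncomputable section

namespace W4

open H1 H4 H5 H6 H7 H8 H9 Q1 Q2 Q3 Q4 Q5 G2 M1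

/-- the counting hypothesis -/
def CH (φ : SL(2, ℤ) → ℝ) (N : ℕ) (C ε M : ℝ) : Prop :=
  ∀ D : ℕ, 0 < D → Nat.Coprime D N → ∀ Y U : ℝ, 5 ≤ Y → 0 ≤ U →
    ∀ s : Finset MZ, (∀ η ∈ s, Sz D Y η) → ∀ τ : MZ → SL(2, ℤ), (∀ η ∈ s, Cg N D η (τ η)) →
    ∑ η ∈ s, φ (τ η) * wt D U η ≤ C * (M * D) ^ ε * (M * D + U * D ^ 2) *
      (1 + Real.log (4 * D * Y))

/-- the function on the displacement matrices -/
def FV (φ : SL(2, ℤ) → ℝ) (N D : ℕ) (δ Y : ℝ) (η : MZ) : ℝ≥0∞ :=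
  open Classical in if Ok N D η then ENNReal.ofReal (φ (tt N D η)) * volume (VS D δ Y η) else 0

variable {φ : SL(2, ℤ) → ℝ} {N : ℕ} {C ε M : ℝ}

/-- the sum over all the displacement matrices -/
theorem FV_sum (hφ0 : ∀ τ, 0 ≤ φ τ) (hch : CH φ N C ε M) {D : ℕ} (hD : 0 < D)
    (hDN : Nat.Coprime D N) {δ Y : ℝ} (hδ : 0 < δ) (hδ2 : δ ≤ 1 / 2) (hY : 5 ≤ Y) :
    ∑' η : MZ, FV φ N D δ Y η ≤ ENNReal.ofReal (C * (M * D) ^ ε *
      (M * D + δ ^ 2 * D ^ 2) * (1 + Real.log (4 * D * Y))) := by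
  classical
  refine ENNReal.summable.tsum_le_of_sum_le fun s => ?_
  have hU : 0 ≤ δ ^ 2 := sq_nonneg δ
  have h1 : ∀ η ∈ s, FV φ N D δ Y η ≤ if Ok N D η ∧ Sz D Y η then
      ENNReal.ofReal (φ (tt N D η) * wt D (δ ^ 2) η) else 0 := by
    intro η _
    unfold FV
    by_cases h : Ok N D η
    · rw [if_pos h]
      by_cases hne : (VS D δ Y η).Nonempty
      · obtain ⟨h2, h3⟩ := vol_wt hD hδ hδ2 h.1 h.2.1 hne
        rw [if_pos ⟨h, h2⟩, ENNReal.ofReal_mul (hφ0 _)]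
        exact mul_le_mul' le_rfl h3
      · rw [Set.not_nonempty_iff_eq_empty.1 hne, measure_empty, mul_zero]
        exact zero_le
    · rw [if_neg h]
      exact zero_le
  refine (Finset.sum_le_sum h1).trans ?_
  rw [← Finset.sum_filter, ← ENNReal.ofReal_sum_of_nonneg fun η _ =>
    mul_nonneg (hφ0 _) (wt_nonneg D hU η)]
  apply ENNReal.ofReal_le_ofReal
  refine hch D hD hDN Y (δ ^ 2) hY hU _ (fun η hη => ?_) (tt N D) (fun η hη => ?_)
  · exact (Finset.mem_filter.1 hη).2.2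
  · exact tt_spec (Finset.mem_filter.1 hη).2.1.2.2

/-- multiples -/
theorem FV_smul (hφN : ∀ τ τ' : SL(2, ℤ), red N τ = red N τ' → φ τ = φ τ') (hN : 0 < N)
    {D D' k : ℕ} (hk : 0 < k) (hD : D = k * D') (hDN : Nat.Coprime D N) (δ Y : ℝ) (η : MZ) :
    FV φ N D δ Y ((k : ℤ) • η) ≤ FV φ N D' δ Y η := by
  classical
  have : NeZero N := ⟨hN.ne'⟩
  have hkz : (k : ℤ) ≠ 0 := by exact_mod_cast hk.ne'
  have hkN : Nat.Coprime k N := Nat.Coprime.coprime_dvd_left ⟨D', hD⟩ hDN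
  have hDN' : Nat.Coprime D' N := Nat.Coprime.coprime_dvd_left ⟨k, by rw [hD]; ring⟩ hDN
  unfold FV
  by_cases h : Ok N D ((k : ℤ) • η)
  · obtain ⟨h1, h2, h3⟩ := id h
    have ha : ∀ i j, ((k : ℤ) • η) i j = k * η i j := fun i j => by
      rw [Matrix.smul_apply, smul_eq_mul]
    have k1 : Ok N D' η := by
      refine ⟨?_, ?_, ?_⟩
      · rw [Matrix.det_fin_two, ha, ha, ha, ha, hD] at h1
        rw [Matrix.det_fin_two]
        push_cast at h1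
        have h4 : (k : ℤ) ^ 2 * (η 0 0 * η 1 1 - η 0 1 * η 1 0) = (k : ℤ) ^ 2 * (D' : ℤ) ^ 2 := by
          linear_combination h1
        exact mul_left_cancel₀ (pow_ne_zero 2 hkz) h4
      · rintro ⟨a1, a2, a3⟩
        apply h2
        rw [ha, ha, ha, ha, a1, a2, a3]
        simp
      · obtain ⟨τ, hτ⟩ := h3
        exact ⟨τ, Cg_div hkN hD ha hτ⟩
    rw [if_pos h, if_pos k1, VS_smul hk hD]
    refine mul_le_mul' (le_of_eq ?_) le_rfl
    have e1 := Cg_div hkN hD ha (tt_spec h3)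
    rw [hφN _ _ (red_of_Cg hDN' e1 (tt_spec k1.2.2))]
  · rw [if_neg h]
    exact zero_le

/-- the integral for a pair of representatives and one element of the modular group -/
theorem pairV (hφ0 : ∀ τ, 0 ≤ φ τ) (hφN : ∀ τ τ' : SL(2, ℤ), red N τ = red N τ' → φ τ = φ τ')
    (hM : 0 ≤ M) (hφM : ∀ τ, φ τ ≤ M) (hN : 0 < N) {m : ℕ}
    (hm : 0 < m) (hc : Nat.Coprime m N) {g g' : MZ} (hg : HM N m g) (hg' : HM N m g')
    {δ Y : ℝ} (hδ : 0 < δ) (hδ2 : δ ≤ 1 / 2) (τ : SL(2, ℤ)) :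
    ∫⁻ z in 𝒟ᵒ ∩ (cuspRegion Y)ᶜ, ENNReal.ofReal (φ τ) * vv δ (nm m g • z) (τ • nm m g' • z) ≤
    ENNReal.ofReal (2 * M * bv δ) * (if Sc g g' τ then 1 else 0) +
      ENNReal.ofReal (bv δ) * FV φ N (m ^ 2) δ Y (eta g g' τ) := by
  classical
  have : NeZero N := ⟨hN.ne'⟩
  have hm1 : (1 : ℝ) ≤ m := by exact_mod_cast hm
  have hbv := bv_nonneg δ
  have hms : MeasurableSet (𝒟ᵒ ∩ (cuspRegion Y)ᶜ : Set ℍ) :=
    isOpen_fdo.measurableSet.inter (measurableSet_cuspRegion Y).compl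
  have hvol : volume (𝒟ᵒ ∩ (cuspRegion Y)ᶜ : Set ℍ) ≤ ENNReal.ofReal 2 :=
    (measure_mono Set.inter_subset_left).trans G3.vol_fdo
  have him : ∀ z ∈ (𝒟ᵒ ∩ (cuspRegion Y)ᶜ : Set ℍ), z.im ≤ Y := by
    rintro z ⟨_, hz⟩
    by_contra hcon
    push Not at hcon
    exact hz ⟨1, by rw [one_smul]; exact hcon⟩
  rw [lintegral_const_mul _ (measurable_vv_smul δ _ _ τ)]
  by_cases hs : Sc g g' τ
  · rw [if_pos hs, mul_one]
    refine le_trans ?_ le_self_add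
    calc ENNReal.ofReal (φ τ) *
          ∫⁻ z in 𝒟ᵒ ∩ (cuspRegion Y)ᶜ, vv δ (nm m g • z) (τ • nm m g' • z)
        ≤ ENNReal.ofReal M * ∫⁻ z in 𝒟ᵒ ∩ (cuspRegion Y)ᶜ, ENNReal.ofReal (bv δ) :=
          mul_le_mul' (ENNReal.ofReal_le_ofReal (hφM τ)) (lintegral_mono fun z => vv_le _ _)
      _ ≤ ENNReal.ofReal M * (ENNReal.ofReal (bv δ) * ENNReal.ofReal 2) := by
          rw [lintegral_const, Measure.restrict_apply_univ]
          gcongr
      _ = ENNReal.ofReal (2 * M * bv δ) := by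
          rw [← ENNReal.ofReal_mul hbv, ← ENNReal.ofReal_mul hM]
          congr 1
          ring
  · rw [if_neg hs, mul_zero, zero_add]
    have hok : Ok N (m ^ 2) (eta g g' τ) :=
      ⟨eta_det hg hg' τ, hs, ⟨τ, eta_Cg hg hg' τ⟩⟩
    have hfx : φ (tt N (m ^ 2) (eta g g' τ)) = φ τ :=
      hφN _ _ (red_of_Cg (hc.pow_left 2) (tt_spec hok.2.2) (eta_Cg hg hg' τ))
    unfold FV
    rw [if_pos hok, hfx]
    obtain ⟨d0, d1, d2, d3⟩ := disp_apply hm hm hg hg' τ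
    have hD : ((m ^ 2 : ℕ) : ℝ) = (m : ℝ) * m := by push_cast; ring
    have hD1 : (1 : ℝ) ≤ (m : ℝ) * m := one_le_mul_of_one_le_of_one_le hm1 hm1
    have h3 : ∫⁻ z in 𝒟ᵒ ∩ (cuspRegion Y)ᶜ, vv δ (nm m g • z) (τ • nm m g' • z) ≤
        ENNReal.ofReal (bv δ) * volume (VS (m ^ 2) δ Y (eta g g' τ)) := by
      have h4 : ∀ z ∈ (𝒟ᵒ ∩ (cuspRegion Y)ᶜ : Set ℍ), vv δ (nm m g • z) (τ • nm m g' • z) ≤
          (toMeasurable volume (VS (m ^ 2) δ Y (eta g g' τ))).indicator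
            (fun _ => ENNReal.ofReal (bv δ)) z := by
        intro z hz
        by_cases hd : dist (nm m g • z) (τ • nm m g' • z) ≤ 2 * δ
        · rw [← dist_disp] at hd
          have hmem := G5.mem_SS2 hδ hδ2 d0 d1 d2 d3 hz.1 (him z hz) hd
          have hmem2 : z ∈ VS (m ^ 2) δ Y (eta g g' τ) := by
            unfold VS
            rw [hD]
            exact hmem
          rw [Set.indicator_of_mem (subset_toMeasurable _ _ hmem2)]
          exact vv_le _ _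
        · rw [vv_zero hd]
          exact zero_le
      refine (setLIntegral_mono' hms h4).trans ?_
      refine (setLIntegral_le_lintegral _ _).trans ?_
      rw [lintegral_indicator (measurableSet_toMeasurable _ _), lintegral_const,
        Measure.restrict_apply_univ, measure_toMeasurable]
    calc ENNReal.ofReal (φ τ) *
          ∫⁻ z in 𝒟ᵒ ∩ (cuspRegion Y)ᶜ, vv δ (nm m g • z) (τ • nm m g' • z)
        ≤ ENNReal.ofReal (φ τ) *
          (ENNReal.ofReal (bv δ) * volume (VS (m ^ 2) δ Y (eta g g' τ))) :=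
          mul_le_mul' le_rfl h3
      _ = _ := by ring

/-- the sum over the divisors -/
theorem FV_total (hφ0 : ∀ τ, 0 ≤ φ τ)
    (hφN : ∀ τ τ' : SL(2, ℤ), red N τ = red N τ' → φ τ = φ τ') (hε : 0 < ε) (hC : 0 < C)
    (hM : 0 < M) (hch : CH φ N C ε M) (hN : 0 < N) {m : ℕ} (hm : 0 < m)
    (hmN : Nat.Coprime m N) {S : Finset MZ} (hS : Reps N m S) {δ Y : ℝ} (hδ : 0 < δ)
    (hδ2 : δ ≤ 1 / 2) (hY : 5 ≤ Y) :
    ∑' x : S × S × SL(2, ℤ), FV φ N (m ^ 2) δ Y (eta x.1 x.2.1 x.2.2) ≤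
      ENNReal.ofReal (((m ^ 2).divisors.card : ℝ) ^ 2 * (C * (M * (m ^ 2 : ℕ)) ^ ε *
        (M * (m ^ 2 : ℕ) + δ ^ 2 * ((m ^ 2 : ℕ) : ℝ) ^ 2) * (1 + Real.log (4 * (m ^ 2 : ℕ) * Y)))) := by
  classical
  obtain ⟨D, hD⟩ : ∃ D : ℕ, D = m ^ 2 := ⟨_, rfl⟩
  have hD0 : 0 < D := by rw [hD]; positivity
  have hDN : Nat.Coprime D N := by rw [hD]; exact hmN.pow_left 2
  have h1 := fib_sum hm hmN hS (FV φ N D δ Y)
  rw [← hD] at h1 ⊢
  refine h1.trans ?_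
  have h2 : ∀ η : MZ, ((D.divisors.card * ct D η : ℕ) : ℝ≥0∞) * FV φ N D δ Y η =
      (D.divisors.card : ℝ≥0∞) * (((ct D η : ℕ) : ℝ≥0∞) * FV φ N D δ Y η) := by
    intro η
    push_cast
    ring
  rw [tsum_congr h2, ENNReal.tsum_mul_left]
  obtain ⟨X, hX⟩ : ∃ X : ℝ, X = C * (M * D) ^ ε * (M * D + δ ^ 2 * (D : ℝ) ^ 2) *
      (1 + Real.log (4 * D * Y)) := ⟨_, rfl⟩
  have hDr : (1 : ℝ) ≤ D := by exact_mod_cast hD0
  have hL0 : 0 ≤ Real.log (4 * D * Y) := Real.log_nonneg (by nlinarith)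
  have hX0 : 0 ≤ X := by rw [hX]; positivity
  have h3 : ∀ k ∈ D.divisors, (k : ℝ≥0∞) * ∑' η : MZ, FV φ N D δ Y ((k : ℤ) • η) ≤
      ENNReal.ofReal X := by
    intro k hk
    have hk0 : 0 < k := Nat.pos_of_mem_divisors hk
    obtain ⟨D', hD'⟩ := Nat.dvd_of_mem_divisors hk
    have hD'0 : 0 < D' := Nat.pos_of_ne_zero fun h => by rw [h, mul_zero] at hD'; omega
    have hDN' : Nat.Coprime D' N := Nat.Coprime.coprime_dvd_left ⟨k, by rw [hD']; ring⟩ hDN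
    have hkr : (1 : ℝ) ≤ k := by exact_mod_cast hk0
    have hD'r : (1 : ℝ) ≤ D' := by exact_mod_cast hD'0
    have e1 : ∑' η : MZ, FV φ N D δ Y ((k : ℤ) • η) ≤ ∑' η : MZ, FV φ N D' δ Y η :=
      ENNReal.tsum_le_tsum fun η => FV_smul hφN hN hk0 hD' hDN δ Y η
    have e2 := e1.trans (FV_sum hφ0 hch hD'0 hDN' hδ hδ2 hY)
    refine (mul_le_mul' le_rfl e2).trans ?_
    rw [← ENNReal.ofReal_natCast, ← ENNReal.ofReal_mul (by positivity)]
    apply ENNReal.ofReal_le_ofReal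
    have f1 : (D : ℝ) = k * D' := by rw [hD']; push_cast; ring
    have f2 : (D' : ℝ) ≤ D := by rw [f1]; nlinarith
    have f3 : (M * D') ^ ε ≤ (M * D) ^ ε :=
      Real.rpow_le_rpow (by positivity) (by gcongr) hε.le
    have f4 : (k : ℝ) * (M * D' + δ ^ 2 * (D' : ℝ) ^ 2) ≤ M * D + δ ^ 2 * (D : ℝ) ^ 2 := by
      have g1 : (k : ℝ) * (M * D' + δ ^ 2 * (D' : ℝ) ^ 2) = M * D + δ ^ 2 * (D * D') := by
        rw [f1]; ring
      rw [g1, sq (D : ℝ)]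
      have : δ ^ 2 * ((D : ℝ) * D') ≤ δ ^ 2 * (D * D) := by gcongr
      linarith
    have f5 : Real.log (4 * D' * Y) ≤ Real.log (4 * D * Y) := by
      apply Real.log_le_log (by positivity)
      gcongr
    have f6 : 0 ≤ Real.log (4 * D' * Y) := Real.log_nonneg (by nlinarith)
    rw [hX]
    calc (k : ℝ) * (C * (M * D') ^ ε * (M * D' + δ ^ 2 * (D' : ℝ) ^ 2) *
          (1 + Real.log (4 * D' * Y)))
        = C * (M * D') ^ ε * (k * (M * D' + δ ^ 2 * (D' : ℝ) ^ 2)) *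
          (1 + Real.log (4 * D' * Y)) := by ring
      _ ≤ C * (M * D) ^ ε * (M * D + δ ^ 2 * (D : ℝ) ^ 2) * (1 + Real.log (4 * D * Y)) := by
          gcongr
  have h4 : ∑' η : MZ, ((ct D η : ℕ) : ℝ≥0∞) * FV φ N D δ Y η ≤
      (D.divisors.card : ℝ≥0∞) * ENNReal.ofReal X := by
    refine (ct_sum hD0 _).trans ?_
    refine (Finset.sum_le_sum h3).trans (le_of_eq ?_)
    rw [Finset.sum_const, nsmul_eq_mul]
  refine (mul_le_mul' le_rfl h4).trans (le_of_eq ?_)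
  rw [← hX, ← mul_assoc, ← ENNReal.ofReal_natCast, ← ENNReal.ofReal_mul (by positivity),
    ← ENNReal.ofReal_mul (by positivity)]
  congr 1
  ring

/-- the geometric side -/
theorem geoV (hφ0 : ∀ τ, 0 ≤ φ τ)
    (hφN : ∀ τ τ' : SL(2, ℤ), red N τ = red N τ' → φ τ = φ τ') (hε : 0 < ε) (hC : 0 < C)
    (hM : 0 < M) (hφM : ∀ τ, φ τ ≤ M) (hch : CH φ N C ε M) (hN : 0 < N) {m : ℕ}
    (hm : 0 < m) (hmN : Nat.Coprime m N) {S : Finset MZ} (hS : Reps N m S) {δ Y : ℝ}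
    (hδ : 0 < δ) (hδ2 : δ ≤ 1 / 2) (hY : 5 ≤ Y) :
    ∫⁻ z in 𝒟ᵒ ∩ (cuspRegion Y)ᶜ, ∑' τ : SL(2, ℤ), ENNReal.ofReal (φ τ) *
      qq (fun _ : S => (1 : ℝ)) (fun g : S => nm m g) δ τ z ≤
    ENNReal.ofReal (bv δ * (4 * M * (sg m : ℝ) +
      ((m ^ 2).divisors.card : ℝ) ^ 2 * (C * (M * (m ^ 2 : ℕ)) ^ ε *
        (M * (m ^ 2 : ℕ) + δ ^ 2 * ((m ^ 2 : ℕ) : ℝ) ^ 2) *
          (1 + Real.log (4 * (m ^ 2 : ℕ) * Y))))) := by
  classical
  have hbv := bv_nonneg δ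
  have e1 : ∀ z : ℍ, ∑' τ : SL(2, ℤ), ENNReal.ofReal (φ τ) *
      qq (fun _ : S => (1 : ℝ)) (fun g : S => nm m g) δ τ z =
      ∑ i : S, ∑ j : S, ∑' τ : SL(2, ℤ), ENNReal.ofReal (φ τ) *
        vv δ (nm m i • z) (τ • nm m j • z) := by
    intro z
    unfold qq
    have e2 : ∀ τ : SL(2, ℤ), ENNReal.ofReal (φ τ) * ∑ i : S, ∑ j : S, ENNReal.ofReal 1 *
        (ENNReal.ofReal 1 * vv δ (nm m i • z) (τ • nm m j • z)) =
        ∑ i : S, ∑ j : S, ENNReal.ofReal (φ τ) * vv δ (nm m i • z) (τ • nm m j • z) := by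
      intro τ
      rw [Finset.mul_sum]
      refine Finset.sum_congr rfl fun i _ => ?_
      rw [Finset.mul_sum]
      refine Finset.sum_congr rfl fun j _ => ?_
      rw [ENNReal.ofReal_one, one_mul, one_mul]
    rw [tsum_congr e2, Summable.tsum_finsetSum fun _ _ => ENNReal.summable]
    refine Finset.sum_congr rfl fun i _ => ?_
    rw [Summable.tsum_finsetSum fun _ _ => ENNReal.summable]
  have hmeas1 : ∀ (i j : S) (τ : SL(2, ℤ)), Measurable fun z : ℍ => ENNReal.ofReal (φ τ) *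
      vv δ (nm m i • z) (τ • nm m j • z) :=
    fun i j τ => (measurable_vv_smul δ _ _ τ).const_mul _
  have hmeas : ∀ i j : S, Measurable fun z : ℍ =>
      ∑' τ : SL(2, ℤ), ENNReal.ofReal (φ τ) * vv δ (nm m i • z) (τ • nm m j • z) :=
    fun i j => Measurable.ennreal_tsum fun τ => hmeas1 i j τ
  rw [lintegral_congr e1, lintegral_finsetSum _ fun i _ => Finset.measurable_fun_sum _ fun j _ =>
    hmeas i j]
  have e3 : ∀ i : S, ∫⁻ z in 𝒟ᵒ ∩ (cuspRegion Y)ᶜ, ∑ j : S,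
        ∑' τ : SL(2, ℤ), ENNReal.ofReal (φ τ) * vv δ (nm m i • z) (τ • nm m j • z) ≤
      ∑ j : S, ∑' τ : SL(2, ℤ), (ENNReal.ofReal (2 * M * bv δ) *
        (if Sc (i : MZ) (j : MZ) τ then 1 else 0) +
        ENNReal.ofReal (bv δ) * FV φ N (m ^ 2) δ Y (eta i j τ)) := by
    intro i
    rw [lintegral_finsetSum _ fun j _ => hmeas i j]
    refine Finset.sum_le_sum fun j _ => ?_
    rw [lintegral_tsum fun τ => (hmeas1 i j τ).aemeasurable]
    exact ENNReal.tsum_le_tsum fun τ => pairV hφ0 hφN hM.le hφM hN hm hmN (hS.mem _ i.2)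
      (hS.mem _ j.2) hδ hδ2 τ
  refine (Finset.sum_le_sum fun i _ => e3 i).trans ?_
  have e4 : ∑ i : S, ∑ j : S, ∑' τ : SL(2, ℤ), (ENNReal.ofReal (2 * M * bv δ) *
        (if Sc (i : MZ) (j : MZ) τ then 1 else 0) +
        ENNReal.ofReal (bv δ) * FV φ N (m ^ 2) δ Y (eta i j τ)) =
      ENNReal.ofReal (2 * M * bv δ) * (∑ g ∈ S, ∑ g' ∈ S, ∑' τ : SL(2, ℤ),
        (if Sc g g' τ then (1 : ℝ≥0∞) else 0)) +
      ENNReal.ofReal (bv δ) * ∑' x : S × S × SL(2, ℤ), FV φ N (m ^ 2) δ Y (eta x.1 x.2.1 x.2.2) := by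
    have f1 : ∑' x : S × S × SL(2, ℤ), FV φ N (m ^ 2) δ Y (eta x.1 x.2.1 x.2.2) =
        ∑ i : S, ∑ j : S, ∑' τ : SL(2, ℤ), FV φ N (m ^ 2) δ Y (eta i j τ) := by
      rw [ENNReal.tsum_prod', tsum_fintype]
      refine Finset.sum_congr rfl fun i _ => ?_
      rw [ENNReal.tsum_prod', tsum_fintype]
    have f2 : ∑ g ∈ S, ∑ g' ∈ S, ∑' τ : SL(2, ℤ), (if Sc g g' τ then (1 : ℝ≥0∞) else 0) =
        ∑ i : S, ∑ j : S, ∑' τ : SL(2, ℤ), (if Sc (i : MZ) (j : MZ) τ then (1 : ℝ≥0∞) else 0) := by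
      rw [← Finset.sum_coe_sort S]
      refine Finset.sum_congr rfl fun i _ => ?_
      rw [← Finset.sum_coe_sort S]
    rw [f1, f2, Finset.mul_sum, Finset.mul_sum, ← Finset.sum_add_distrib]
    refine Finset.sum_congr rfl fun i _ => ?_
    rw [Finset.mul_sum, Finset.mul_sum, ← Finset.sum_add_distrib]
    refine Finset.sum_congr rfl fun j _ => ?_
    rw [ENNReal.tsum_add, ENNReal.tsum_mul_left, ENNReal.tsum_mul_left]
  rw [e4]
  have h1 := scal_count hm hm hmN hmN hS hS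
  rw [Nat.gcd_self] at h1
  have h2 := FV_total hφ0 hφN hε hC hM hch hN hm hmN hS hδ hδ2 hY
  have h1' : ∑ g ∈ S, ∑ g' ∈ S, ∑' τ : SL(2, ℤ), (if Sc g g' τ then (1 : ℝ≥0∞) else 0) ≤
      ENNReal.ofReal (2 * sg m) := by
    refine h1.trans (le_of_eq ?_)
    rw [ENNReal.ofReal_mul (by norm_num), ENNReal.ofReal_natCast]
    unfold sg
    simp
  refine (add_le_add (mul_le_mul' le_rfl h1') (mul_le_mul' le_rfl h2)).trans (le_of_eq ?_)
  have hDr : (1 : ℝ) ≤ ((m ^ 2 : ℕ) : ℝ) := by exact_mod_cast Nat.one_le_pow 2 m hm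
  have hL0 : 0 ≤ Real.log (4 * (m ^ 2 : ℕ) * Y) := Real.log_nonneg (by nlinarith)
  rw [← ENNReal.ofReal_mul (by positivity), ← ENNReal.ofReal_mul (by positivity),
    ← ENNReal.ofReal_add (by positivity) (by positivity)]
  congr 1
  ring

end W4

end

end Pool.Agent.XE31
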