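import Pool.Agent.XE31.W4
import Pool.Agent.XE31.Q7
import Pool.Agent.XE31.V11

/-!
# The mean square of the Hecke eigenvalues for vector valued forms: the inequality
-/

set_option autoImplicit false
set_option linter.all false
set_option maxHeartbeats 400000

open UpperHalfPlane MeasureTheory Metric ModularGroup CongruenceSubgroup
open scoped MatrixGroups ENNReal Modular Topology NNReal

namespace Pool.Agent.XE31

open Pool.Agent.H369R2 Pool.Agent.N799.DT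

noncomputable section

namespace W5

open H1 H4 H5 H6 H7 H8 H9 K2 X3 Q1 Q2 Q3 Q4 Q5 Q6 G2 M1 R2 V2 V3 V7 W1 W2 W4

variable {N d : ℕ} {ρ : SL(2, ℤ) →* Matrix.unitaryGroup (Fin d) ℂ}

/-- the inequality for vectors, with the divisor function and the logarithm -/
theorem ineq {ε C M : ℝ} (hε : 0 < ε) (hC : 0 < C) (hN0 : 0 < N) (hρ : Gamma N ≤ ρ.ker)
    (hch : CH (fun τ => ‖chi ρ τ‖) N C ε M) (hM1 : 1 ≤ M) (hdM : (d : ℝ) ≤ M)
    (T : ℝ) (hT : 1 ≤ T)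
    (m : ℕ) (hm : 0 < m) (hmN : Nat.Coprime m N) (S : Finset MZ) (hS : Reps N m S)
    (k : ℕ) (κ : Fin k → ℝ) (φ : Fin k → VW N d) (hκ : ∀ i, 0 ≤ κ i) (hκ2 : ∀ i, κ i ≤ T ^ 2)
    (hφ : ∀ i, φ i ∈ EVV N d ρ (aK (κ i))) (hli : LinearIndependent ℂ φ)
    (Λ : Fin k → ℝ) (hΛ : ∀ i, ∀ j, ∀ z : ℍ, ∑ g ∈ S, (φ i j : ℍ → ℂ) (nm m g • z) =
        ((m * Λ i : ℝ) : ℂ) * (φ i j : ℍ → ℂ) z) :
    ∑ i, (Λ i) ^ 2 ≤ 256 * ((4 + C) * ((m ^ 2).divisors.card : ℝ) ^ 2 *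
      (M * (m ^ 2 : ℕ)) ^ ε * (M * T ^ 2 + ((m ^ 2 : ℕ) : ℝ)) *
      (1 + Real.log (4 * (m ^ 2 : ℕ) * (256 * N * T ^ 2)))) := by
  have : NeZero N := ⟨hN0.ne'⟩
  have hN1 : (1 : ℝ) ≤ N := by exact_mod_cast hN0
  have hT0 : 0 < T := by linarith
  have hM0 : 0 < M := by linarith
  obtain ⟨δ, hδd⟩ : ∃ δ : ℝ, δ = 1 / (8 * T) := ⟨_, rfl⟩
  have hδ : 0 < δ := by rw [hδd]; positivity
  have hδT : δ * T = 1 / 8 := by rw [hδd]; field_simp
  have hδ8 : δ ≤ 1 / 8 := by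
    have : δ * 1 ≤ δ * T := mul_le_mul_of_nonneg_left hT hδ.le
    linarith
  have hδ2 : δ ≤ 1 / 2 := by linarith
  obtain ⟨Y, hYd⟩ : ∃ Y : ℝ, Y = 256 * N * T ^ 2 := ⟨_, rfl⟩
  rw [← hYd]
  have hT2 : 1 ≤ T ^ 2 := one_le_pow₀ hT
  have hY256 : 256 ≤ Y := by rw [hYd]; nlinarith
  have hY1 : 1 ≤ Y := by linarith
  have hY5 : 5 ≤ Y := by linarith
  have hexp : Real.exp δ ≤ 2 := by
    have h1 : Real.exp δ ≤ Real.exp (1 / 8) := Real.exp_le_exp.2 hδ8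
    have h2 : Real.exp (1 / 8) ≤ 2 := by
      have h3 := Real.exp_bound_div_one_sub_of_interval (x := 1 / 8) (by norm_num) (by norm_num)
      refine h3.trans ?_
      norm_num
    linarith
  have ha : ∀ i, 1 / 2 ≤ aK (κ i) δ := by
    intro i
    apply aK_lower (hκ i) hδ
    have h1 : δ ^ 2 * (1 + κ i) ≤ δ ^ 2 * (T ^ 2 + T ^ 2) := by
      apply mul_le_mul_of_nonneg_left _ (sq_nonneg _)
      have := hκ2 i
      linarith
    have h2 : δ ^ 2 * (T ^ 2 + T ^ 2) = 2 * (δ * T) ^ 2 := by ring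
    rw [h2, hδT] at h1
    linarith
  have hbv := bv_small hδ hδ2
  have hbv0 : 0 < bv δ := bv_pos hδ
  have hprod : ∀ i, bv δ / 2 ≤ bv δ * aK (κ i) δ := by
    intro i
    have := mul_le_mul_of_nonneg_left (ha i) hbv0.le
    linarith
  have hY2 : ∀ i, 2 * (N ^ 2 * Real.exp δ / Y ^ 2) ≤ (bv δ * aK (κ i) δ) ^ 2 := by
    intro i
    have h1 : δ ^ 2 / 2 ≤ bv δ * aK (κ i) δ := (by linarith : δ ^ 2 / 2 ≤ bv δ / 2).trans (hprod i)
    have h2 : (δ ^ 2 / 2) ^ 2 ≤ (bv δ * aK (κ i) δ) ^ 2 :=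
      pow_le_pow_left₀ (by positivity) h1 2
    refine le_trans ?_ h2
    have h3 : (δ ^ 2 / 2) ^ 2 = 1 / (16384 * T ^ 4) := by
      rw [hδd]
      field_simp
      norm_num
    rw [h3, hYd]
    have h4 : 2 * ((N : ℝ) ^ 2 * Real.exp δ / (256 * N * T ^ 2) ^ 2) =
        Real.exp δ / 2 * (1 / (16384 * T ^ 4)) := by
      field_simp
      norm_num
    rw [h4]
    have h5 : 0 < 1 / (16384 * T ^ 4) := by positivity
    nlinarith
  have hΛ' : ∀ i j z, ∑ l : S, (((fun _ : S => (1 : ℝ)) l : ℝ) : ℂ) *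
      (φ i j : ℍ → ℂ) (nm m l • z) = ((m * Λ i : ℝ) : ℂ) * (φ i j : ℍ → ℂ) z := by
    intro i j z
    rw [← hΛ i j z, ← Finset.sum_coe_sort S]
    refine Finset.sum_congr rfl fun l _ => ?_
    simp
  have h1 := jointV hN0 hρ (c := fun _ : S => (1 : ℝ)) (fun _ => zero_le_one) (HP_S hm hS) hδ
    (fun i => aK (κ i)) φ hφ hli (fun i => m * Λ i) hΛ' (by linarith : Real.exp δ ≤ Y)
    (fun i => by have := ha i; exact (by linarith : (0 : ℝ) < aK (κ i) δ).ne') hY2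
  have h2 := W4.geoV (φ := fun τ => ‖chi ρ τ‖) (fun τ => norm_nonneg _)
    (fun τ τ' h => by
      show ‖chi ρ τ‖ = ‖chi ρ τ'‖
      unfold chi
      rw [mt_eq hρ h]) hε hC hM0 (fun τ => (V8.chi_le τ).trans hdM) hch hN0 hm hmN hS hδ hδ2 hY5
  simp only [ofReal_norm] at h2
  have h3 := h1.trans h2
  obtain ⟨D, hD⟩ : ∃ D : ℕ, D = m ^ 2 := ⟨_, rfl⟩
  have hD0 : 0 < D := by rw [hD]; positivity
  have hDr : (1 : ℝ) ≤ D := by exact_mod_cast hD0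
  have hDm : (D : ℝ) = (m : ℝ) ^ 2 := by rw [hD]; push_cast; ring
  rw [← hD] at h3 ⊢
  obtain ⟨L, hL⟩ : ∃ L : ℝ, L = 1 + Real.log (4 * D * Y) := ⟨_, rfl⟩
  have hL1 : 1 ≤ L := by
    rw [hL]
    have : 0 ≤ Real.log (4 * D * Y) := Real.log_nonneg (by nlinarith)
    linarith
  obtain ⟨dv, hd⟩ : ∃ dv : ℝ, dv = D.divisors.card := ⟨_, rfl⟩
  obtain ⟨P, hP⟩ : ∃ P : ℝ, P = (M * D) ^ ε := ⟨_, rfl⟩
  have hd1 : 1 ≤ dv := by
    rw [hd]
    exact_mod_cast Finset.card_pos.2 ⟨1, Nat.one_mem_divisors.2 hD0.ne'⟩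
  have hP1 : 1 ≤ P := by
    rw [hP]
    exact Real.one_le_rpow (one_le_mul_of_one_le_of_one_le hM1 hDr) hε.le
  rw [← hL, ← hd, ← hP] at h3
  rw [← hL, ← hd, ← hP]
  rw [← ENNReal.ofReal_sum_of_nonneg fun i _ => sq_nonneg _] at h3
  have hsg : (sg m : ℝ) ≤ dv * D := by
    have : sg m ≤ D.divisors.card * D := by
      unfold sg
      rw [← hD]
      calc ∑ e ∈ D.divisors, e ≤ ∑ _e ∈ D.divisors, D :=
            Finset.sum_le_sum fun e he => Nat.divisor_le he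
        _ = D.divisors.card * D := by rw [Finset.sum_const, smul_eq_mul]
    rw [hd]
    exact_mod_cast this
  have hsg0 : (0 : ℝ) ≤ sg m := Nat.cast_nonneg _
  obtain ⟨G, hG⟩ : ∃ G : ℝ, G = 4 * M * (sg m : ℝ) +
      dv ^ 2 * (C * P * (M * D + δ ^ 2 * (D : ℝ) ^ 2) * L) := ⟨_, rfl⟩
  rw [← hG] at h3
  have hG0 : 0 ≤ G := by rw [hG]; positivity
  rw [ENNReal.ofReal_le_ofReal_iff (by positivity)] at h3
  have h4 : ∑ i, (bv δ * aK (κ i) δ * (m * Λ i)) ^ 2 ≥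
      (bv δ / 2) ^ 2 * (D * ∑ i, (Λ i) ^ 2) := by
    rw [Finset.mul_sum, Finset.mul_sum]
    refine Finset.sum_le_sum fun i _ => ?_
    have e1 : (bv δ * aK (κ i) δ * (m * Λ i)) ^ 2 = (bv δ * aK (κ i) δ) ^ 2 * (D * (Λ i) ^ 2) := by
      rw [hDm]; ring
    rw [e1]
    exact mul_le_mul_of_nonneg_right (pow_le_pow_left₀ (by positivity) (hprod i) 2) (by positivity)
  obtain ⟨X, hX⟩ : ∃ X, X = ∑ i, (Λ i) ^ 2 := ⟨_, rfl⟩
  rw [← hX] at h4 ⊢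
  have hX0 : 0 ≤ X := by
    rw [hX]
    exact Finset.sum_nonneg fun i _ => sq_nonneg _
  have hDX : 0 ≤ D * X := by positivity
  have h6 : bv δ * (bv δ / 4 * (D * X)) ≤ bv δ * G := by
    calc bv δ * (bv δ / 4 * (D * X)) = (bv δ / 2) ^ 2 * (D * X) := by ring
      _ ≤ _ := h4
      _ ≤ bv δ * G := h3
  have h7 : bv δ / 4 * (D * X) ≤ G := le_of_mul_le_mul_left h6 hbv0
  have h8 : δ ^ 2 / 4 * (D * X) ≤ G := by
    refine le_trans ?_ h7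
    exact mul_le_mul_of_nonneg_right (by linarith) hDX
  have h9 : D * X ≤ 256 * T ^ 2 * G := by
    have e1 : δ ^ 2 * T ^ 2 = 1 / 64 := by
      calc δ ^ 2 * T ^ 2 = (δ * T) ^ 2 := by ring
        _ = 1 / 64 := by rw [hδT]; norm_num
    calc D * X = 256 * T ^ 2 * (δ ^ 2 / 4 * (D * X)) := by
          have : 256 * T ^ 2 * (δ ^ 2 / 4 * (D * X)) = 64 * (δ ^ 2 * T ^ 2) * (D * X) := by ring
          rw [this, e1]
          ring
      _ ≤ 256 * T ^ 2 * G := mul_le_mul_of_nonneg_left h8 (by positivity)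
  have hGle : G ≤ D * ((4 + C) * dv ^ 2 * P * (M + δ ^ 2 * D) * L) := by
    have hnD : M ≤ M + δ ^ 2 * D := le_add_of_nonneg_right (by positivity)
    have e1 : 4 * M * (sg m : ℝ) ≤ D * (4 * dv ^ 2 * P * (M + δ ^ 2 * D) * L) := by
      calc 4 * M * (sg m : ℝ) ≤ 4 * M * (dv * D) := by gcongr
        _ = D * (4 * (dv * 1) * 1 * M * 1) := by ring
        _ ≤ D * (4 * (dv * dv) * P * (M + δ ^ 2 * D) * L) := by
            gcongr
        _ = D * (4 * dv ^ 2 * P * (M + δ ^ 2 * D) * L) := by ring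
    have e2 : dv ^ 2 * (C * P * (M * D + δ ^ 2 * (D : ℝ) ^ 2) * L) =
        D * (C * dv ^ 2 * P * (M + δ ^ 2 * D) * L) := by
      ring
    rw [hG, e2]
    calc 4 * M * (sg m : ℝ) + D * (C * dv ^ 2 * P * (M + δ ^ 2 * D) * L)
        ≤ D * (4 * dv ^ 2 * P * (M + δ ^ 2 * D) * L) + D * (C * dv ^ 2 * P * (M + δ ^ 2 * D) * L) := by
          linarith
      _ = _ := by ring
  have e64 : δ ^ 2 * T ^ 2 = 1 / 64 := by
    calc δ ^ 2 * T ^ 2 = (δ * T) ^ 2 := by ring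
      _ = 1 / 64 := by rw [hδT]; norm_num
  have h10 : D * X ≤ D * (256 * ((4 + C) * dv ^ 2 * P * (M * T ^ 2 + D) * L)) := by
    calc D * X ≤ 256 * T ^ 2 * G := h9
      _ ≤ 256 * T ^ 2 * (D * ((4 + C) * dv ^ 2 * P * (M + δ ^ 2 * D) * L)) :=
          mul_le_mul_of_nonneg_left hGle (by positivity)
      _ = D * (256 * ((4 + C) * dv ^ 2 * P * (M * T ^ 2 + (δ ^ 2 * T ^ 2) * D) * L)) := by ring
      _ = D * (256 * ((4 + C) * dv ^ 2 * P * (M * T ^ 2 + 1 / 64 * D) * L)) := by rw [e64]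
      _ ≤ _ := by
          gcongr
          linarith
  exact le_of_mul_le_mul_left h10 (by linarith)

/-- vector valued cusp forms with Laplace eigenvalue `κ` -/
structure KForm (ρ : SL(2, ℤ) →* Matrix.unitaryGroup (Fin d) ℂ) (κ : ℝ) (F : Fin d → ℂ → ℂ) :
    Prop where
  lap : ∀ j, X1.LapK κ (F j)
  eqv : ∀ (γ : SL(2, ℤ)) (z : ℍ) (j : Fin d),
    F j ((γ • z : ℍ) : ℂ) = ∑ l, V2.mt ρ γ j l * F l (z : ℂ)
  sqint : ∀ j, IntegrableOn (fun w : ℂ => ‖F j w‖ ^ 2 / w.im ^ 2)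
    (UpperHalfPlane.coe '' ModularGroup.fd)
  cusp : ∀ (j : Fin d) (N : ℕ), 0 < N → Gamma N ≤ ρ.ker → ∀ (y : ℝ) (hy : 0 < y),
    ∫ x in (0 : ℝ)..N, F j ((⟨⟨x, y⟩, hy⟩ : ℍ) : ℂ) = 0

variable {κ : ℝ} {F : Fin d → ℂ → ℂ}

lemma KForm.cont (h : KForm ρ κ F) (j : Fin d) : Continuous (fun z : ℍ => F j z) :=
  lap_cont (h.lap j)

lemma KForm.sq_le (h : KForm ρ κ F) (j : Fin d) (γ : SL(2, ℤ)) (z : ℍ) :
    ‖F j ((γ • z : ℍ) : ℂ)‖ₑ ^ 2 ≤ (d : ℝ≥0∞) * ∑ l, ‖F l (z : ℂ)‖ₑ ^ 2 := by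
  have h1 : ‖F j ((γ • z : ℍ) : ℂ)‖ ^ 2 ≤ d * ∑ l, ‖F l (z : ℂ)‖ ^ 2 := by
    rw [h.eqv γ z j]
    have h2 : ‖∑ l, V2.mt ρ γ j l * F l (z : ℂ)‖ ≤ ∑ l, ‖F l (z : ℂ)‖ := by
      refine (norm_sum_le _ _).trans (Finset.sum_le_sum fun l _ => ?_)
      rw [norm_mul]
      exact mul_le_of_le_one_left (norm_nonneg _) (entry_le γ j l)
    calc ‖∑ l, V2.mt ρ γ j l * F l (z : ℂ)‖ ^ 2 ≤ (∑ l, ‖F l (z : ℂ)‖) ^ 2 := by gcongr
      _ ≤ (Finset.univ : Finset (Fin d)).card * ∑ l, ‖F l (z : ℂ)‖ ^ 2 :=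
          sq_sum_le_card_mul_sum_sq
      _ = _ := by rw [Finset.card_univ, Fintype.card_fin]
  rw [enorm_sq_eq]
  refine (ENNReal.ofReal_le_ofReal h1).trans (le_of_eq ?_)
  rw [ENNReal.ofReal_mul (by positivity), ENNReal.ofReal_natCast,
    ENNReal.ofReal_sum_of_nonneg fun i _ => by positivity]
  congr 1
  exact Finset.sum_congr rfl fun l _ => (enorm_sq_eq _).symm

lemma KForm.fd_fin (h : KForm ρ κ F) (j : Fin d) :
    ∫⁻ z in 𝒟ᵒ, ‖F j (z : ℍ)‖ₑ ^ 2 ≠ ∞ := by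
  rw [lint_coe (h.cont j) fun z => rfl]
  have h2 := (h.sqint j).2
  rw [hasFiniteIntegral_iff_enorm] at h2
  refine (lt_of_le_of_lt ?_ h2).ne
  refine (lintegral_mono_set (Set.image_mono ModularGroup.fdo_subset_fd)).trans ?_
  refine lintegral_mono fun w => ?_
  exact Real.ofReal_le_enorm _

lemma KForm.fin (h : KForm ρ κ F) (hN : 0 < N) (j : Fin d) :
    ∫⁻ z, ‖F j (z : ℍ)‖ₑ ^ 2 ∂(nu N) ≠ ∞ := by
  have : NeZero N := ⟨hN.ne'⟩
  rw [NU2.lint_nu]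
  have hfin : Finite (SL(2, ℤ) ⧸ Gamma N) := Subgroup.finite_quotient_of_finiteIndex
  have := Fintype.ofFinite (SL(2, ℤ) ⧸ Gamma N)
  rw [tsum_fintype]
  refine (ENNReal.sum_lt_top.2 fun g _ => ?_).ne
  refine lt_of_le_of_lt (lintegral_mono fun z => h.sq_le j g.out z) ?_
  rw [lintegral_const_mul _ (Finset.measurable_sum _ fun l _ =>
    (h.cont l).measurable.enorm.pow_const 2), lintegral_finsetSum _ fun l _ =>
    (h.cont l).measurable.enorm.pow_const 2]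
  refine ENNReal.mul_lt_top (ENNReal.natCast_lt_top d) (ENNReal.sum_lt_top.2 fun l _ => ?_)
  exact (h.fd_fin l).lt_top

lemma KForm.invN (h : KForm ρ κ F) (hρ : Gamma N ≤ ρ.ker) (j : Fin d) (γ : SL(2, ℤ))
    (hγ : γ ∈ Gamma N) (z : ℍ) : F j ((γ • z : ℍ) : ℂ) = F j (z : ℂ) := by
  classical
  have h1 : V2.mt ρ γ = 1 := by
    have h2 := hρ hγ
    rw [MonoidHom.mem_ker] at h2
    unfold V2.mt
    rw [h2]
    rfl
  rw [h.eqv γ z j, h1]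
  simp only [Matrix.one_apply, ite_mul, one_mul, zero_mul]
  rw [Finset.sum_ite_eq, if_pos (Finset.mem_univ _)]

/-- the vector of `LW` -/
def KForm.comp (h : KForm ρ κ F) (hN : 0 < N) (hρ : Gamma N ≤ ρ.ker) (j : Fin d) : LW N :=
  ⟨fun z : ℍ => F j z, h.cont j, fun γ hγ z => h.invN hρ j γ hγ z, h.fin hN j⟩

/-- the vector of `VW` -/
def KForm.toVW (h : KForm ρ κ F) (hN : 0 < N) (hρ : Gamma N ≤ ρ.ker) : VW N d :=
  WithLp.toLp 2 (fun j => h.comp hN hρ j)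

lemma KForm.toVW_apply (h : KForm ρ κ F) (hN : 0 < N) (hρ : Gamma N ≤ ρ.ker) (j : Fin d) (z : ℍ) :
    ((h.toVW hN hρ j : LW N) : ℍ → ℂ) z = F j z := rfl

lemma KForm.mem (h : KForm ρ κ F) (hN : 0 < N) (hρ : Gamma N ≤ ρ.ker) :
    h.toVW hN hρ ∈ EVV N d ρ (aK κ) := by
  refine ⟨fun γ z j => ?_, fun j => ⟨fun γ hγ z => ?_, fun R hR z => mvK (h.lap j) z R,
    fun g y hy => ?_⟩⟩
  · simp only [toVW_apply]
    exact h.eqv γ z j
  · simp only [toVW_apply]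
    exact h.invN hρ j γ hγ z
  · show ∫ x in (0 : ℝ)..N, F j ((g • pt (x, y) : ℍ) : ℂ) = 0
    have h1 : ∀ x : ℝ, F j ((g • pt (x, y) : ℍ) : ℂ) =
        ∑ l, V2.mt ρ g j l * F l ((⟨⟨x, y⟩, hy⟩ : ℍ) : ℂ) := by
      intro x
      rw [h.eqv g _ j, pt_eq hy]
    simp only [h1]
    rw [intervalIntegral.integral_finset_sum]
    · refine Finset.sum_eq_zero fun l _ => ?_
      rw [intervalIntegral.integral_const_mul, h.cusp l N hN hρ y hy, mul_zero]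
    · intro l _
      refine Continuous.intervalIntegrable ?_ _ _
      refine continuous_const.mul ?_
      have hc : Continuous (fun x : ℝ => (⟨⟨x, y⟩, hy⟩ : ℍ)) := by
        refine UpperHalfPlane.isEmbedding_coe.continuous_iff.2 ?_
        show Continuous fun x : ℝ => (⟨x, y⟩ : ℂ)
        have : (fun x : ℝ => (⟨x, y⟩ : ℂ)) = fun x : ℝ => (x : ℂ) + y * Complex.I := by
          funext x
          apply Complex.ext <;> simp
        rw [this]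
        fun_prop
      exact (h.cont l).comp hc

end W5

end

end Pool.Agent.XE31
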