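import Pool.Agent.XE31.W5
import Pool.Agent.XE31.V10
import Pool.Agent.XE31.Q8

/-!
# The mean square of the Hecke eigenvalues for each irreducible representation
-/

set_option autoImplicit false
set_option linter.all false
set_option maxHeartbeats 400000

open UpperHalfPlane MeasureTheory Metric ModularGroup CongruenceSubgroup
open scoped MatrixGroups ENNReal Modular Topology NNReal

namespace Pool.Agent.XE31

open Pool.Agent.H369R2 Pool.Agent.N799.DT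

noncomputable section

namespace W6

open H1 H4 H5 H6 H7 H8 H9 K2 X3 Q1 Q2 Q3 Q4 Q5 Q6 G2 M1 R2 V2 V3 V7 W1 W2 W4 W5

/-- the mean square of the eigenvalues of a Hecke operator -/
theorem main : ∀ ε : ℝ, 0 < ε → ∃ C : ℝ, 0 < C ∧ ∀ (d : ℕ)
    (ρ : SL(2, ℤ) →* Matrix.unitaryGroup (Fin d) ℂ) (N : ℕ), IsLevel ρ.ker N → Irr ρ →
    ∀ T : ℝ, 1 ≤ T → ∀ m : ℕ, 0 < m → Nat.Coprime m N →
    ∀ (k : ℕ) (κ : Fin k → ℝ) (F : Fin k → Fin d → ℂ → ℂ), (∀ i, 0 ≤ κ i) →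
      (∀ i, κ i ≤ T ^ 2) → (∀ i, KForm ρ (κ i) (F i)) →
      LinearIndependent ℂ (fun i => fun (z : ℍ) j => F i j z) →
      ∀ Λ : Fin k → ℝ, (∀ i, ∃ S : Finset MZ, Reps N m S ∧
        ∀ (j : Fin d) (z : ℍ), ∑ g ∈ S, F i j (mob g z) = ((m * Λ i : ℝ) : ℂ) * F i j z) →
      ∑ i, (Λ i) ^ 2 ≤ C * (d * m * T) ^ ε * (d * T ^ 2 + (m : ℝ) ^ 2) := by
  classical
  intro ε hε
  obtain ⟨e, he⟩ : ∃ e : ℝ, e = min (ε / 8) 1 := ⟨_, rfl⟩
  have he0 : 0 < e := by rw [he]; positivity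
  have he1 : e ≤ 1 := by rw [he]; exact min_le_right _ _
  have he8 : 8 * e ≤ ε := by
    have : e ≤ ε / 8 := by rw [he]; exact min_le_left _ _
    linarith
  obtain ⟨C₁, hC₁, hmain⟩ := W3.count_chi e he0
  obtain ⟨C₂, hC₂, hdiv⟩ := Pool.Agent.H369R2.divisor_bound e he0
  obtain ⟨C₀, hC₀, hlevN⟩ := V10.level_le e he0
  obtain ⟨A, hA, hlog⟩ := Q7.logfac e he0
  obtain ⟨C₃, hC₃⟩ : ∃ C₃ : ℝ, C₃ = max C₀ 1 := ⟨_, rfl⟩
  have hC₃1 : 1 ≤ C₃ := by rw [hC₃]; exact le_max_right _ _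
  have hC₃0 : 0 < C₃ := by linarith
  have hlC : 0 ≤ Real.log C₃ := Real.log_nonneg hC₃1
  refine ⟨256 * ((4 + C₁) * C₂ ^ 2 * (A + Real.log C₃) * C₃ * C₃ ^ e), by positivity, ?_⟩
  intro d ρ N hN hi T hT m hm hmN k κ F hκ hκ2 hF hli Λ hΛ
  have hT0 : 0 < T := by linarith
  have hmr : (1 : ℝ) ≤ m := by exact_mod_cast hm
  have hd1 : (1 : ℝ) ≤ d := by exact_mod_cast hi.1
  have hd0 : (0 : ℝ) < d := by linarith
  rcases Nat.eq_zero_or_pos k with hk | hk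
  · subst hk
    rw [Fin.sum_univ_zero]
    positivity
  obtain ⟨S, hS, _⟩ := hΛ ⟨0, hk⟩
  obtain ⟨M, hM⟩ : ∃ M : ℝ, M = C₃ * (d : ℝ) ^ (1 + e) := ⟨_, rfl⟩
  have hdd : (d : ℝ) ≤ (d : ℝ) ^ (1 + e) := by
    conv_lhs => rw [← Real.rpow_one (d : ℝ)]
    exact Real.rpow_le_rpow_of_exponent_le hd1 (by linarith)
  have hdM : (d : ℝ) ≤ M := by
    rw [hM]
    nlinarith
  have hM1 : 1 ≤ M := hd1.trans hdM
  have hM0 : 0 < M := by linarith
  have hNM : (N : ℝ) ≤ M := by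
    rw [hM]
    refine (hlevN N d ρ hi hN).trans ?_
    rw [hC₃]
    exact mul_le_mul_of_nonneg_right (le_max_left _ _) (by positivity)
  have hch : CH (fun τ => ‖chi ρ τ‖) N C₁ e M := by
    intro D hD hDN Y U hY hU s hs τ hτ
    exact hmain N d ρ hN.1 hN.2.1 hi M hNM D hD hDN Y U hY hU s hs τ hτ
  have hli' : LinearIndependent ℂ (fun i => (hF i).toVW hN.1 hN.2.1) :=
    LinearIndependent.of_comp (V11.ev N d) hli
  have h1 := W5.ineq he0 hC₁ hN.1 hN.2.1 hch hM1 hdM T hT m hm hmN S hS k κ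
    (fun i => (hF i).toVW hN.1 hN.2.1) hκ hκ2 (fun i => (hF i).mem hN.1 hN.2.1) hli' Λ (by
      intro i j z
      obtain ⟨S', hS', hz⟩ := hΛ i
      have h2 := indep hS hS' (fun g => F i j ((nm m g • z : ℍ) : ℂ)) (by
        intro γ hγ g hg
        show F i j ((nm m ((γ : MZ) * g) • z : ℍ) : ℂ) = F i j ((nm m g • z : ℍ) : ℂ)
        rw [nm_mul hm hg hγ, mul_smul (γ : SL(2, ℝ)) (nm m g) z]
        exact (hF i).invN hN.2.1 j γ hγ _)
      show ∑ g ∈ S, F i j ((nm m g • z : ℍ) : ℂ) = ((m * Λ i : ℝ) : ℂ) * F i j z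
      rw [h2, ← hz j z]
      refine Finset.sum_congr rfl fun g hg => ?_
      show F i j ((nm m g • z : ℍ) : ℂ) = _
      rw [mob_eq hm (hS'.mem g hg)])
  refine h1.trans ?_
  -- the level
  have hd2 : (d : ℝ) ^ (1 + e) ≤ (d : ℝ) ^ 2 := by
    rw [← Real.rpow_natCast (d : ℝ) 2]
    exact Real.rpow_le_rpow_of_exponent_le hd1 (by push_cast; linarith)
  have hNn : (N : ℝ) ≤ C₃ * (d : ℝ) ^ 2 := by
    refine hNM.trans ?_
    rw [hM]
    gcongr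
  have hL := hlog N m d T C₃ hN.1 hm hd1 hT hC₃1 hNn
  obtain ⟨Z, hZ⟩ : ∃ Z : ℝ, Z = d * m * T := ⟨_, rfl⟩
  have hZ1 : 1 ≤ Z := by
    rw [hZ]
    exact one_le_mul_of_one_le_of_one_le (one_le_mul_of_one_le_of_one_le hd1 hmr) hT
  have hZ0 : 0 < Z := by linarith
  have hm2 : ((m ^ 2 : ℕ) : ℝ) = (m : ℝ) ^ 2 := by push_cast; ring
  have hdZ : (d : ℝ) ^ (1 + e) * (m : ℝ) ^ 2 ≤ Z ^ 2 := by
    calc (d : ℝ) ^ (1 + e) * (m : ℝ) ^ 2 ≤ (d : ℝ) ^ 2 * (m : ℝ) ^ 2 := by gcongr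
      _ = (d : ℝ) ^ 2 * (m : ℝ) ^ 2 * 1 := by ring
      _ ≤ (d : ℝ) ^ 2 * (m : ℝ) ^ 2 * T ^ 2 := by
          apply mul_le_mul_of_nonneg_left _ (by positivity)
          exact one_le_pow₀ hT
      _ = Z ^ 2 := by rw [hZ]; ring
  have hmZ : ((m ^ 2 : ℕ) : ℝ) ≤ Z ^ 2 := by
    rw [hm2]
    refine le_trans ?_ hdZ
    exact le_mul_of_one_le_left (by positivity) (hd1.trans hdd)
  have hpow : ∀ x : ℝ, 0 ≤ x → x ≤ Z ^ 2 → x ^ e ≤ (Z ^ e) ^ 2 := by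
    intro x hx0 hx
    refine (Real.rpow_le_rpow hx0 hx he0.le).trans (le_of_eq ?_)
    rw [← Real.rpow_natCast Z 2, ← Real.rpow_natCast (Z ^ e) 2, ← Real.rpow_mul hZ0.le,
      ← Real.rpow_mul hZ0.le, mul_comm]
  have p1 := hpow _ (by positivity) hdZ
  have p2 := hpow _ (by positivity) hmZ
  have hdv := hdiv (m ^ 2) (pow_pos hm 2)
  rw [← hZ] at hL ⊢
  obtain ⟨z, hz⟩ : ∃ z : ℝ, z = Z ^ e := ⟨_, rfl⟩
  have hz1 : 1 ≤ z := by rw [hz]; exact Real.one_le_rpow hZ1 he0.le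
  have hz0 : 0 < z := by linarith
  have hdz : (d : ℝ) ^ (1 + e) ≤ d * z := by
    rw [Real.rpow_add hd0, Real.rpow_one, hz]
    gcongr
    rw [hZ]
    calc (d : ℝ) = d * 1 * 1 := by ring
      _ ≤ d * m * T := by gcongr
  rw [← hz] at hL p1 p2
  have hz8 : z ^ 8 ≤ Z ^ ε := by
    rw [hz, ← Real.rpow_natCast, ← Real.rpow_mul hZ0.le]
    apply Real.rpow_le_rpow_of_exponent_le hZ1
    push_cast
    linarith
  have hd2' : ((m ^ 2).divisors.card : ℝ) ≤ C₂ * z ^ 2 :=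
    hdv.trans (mul_le_mul_of_nonneg_left p2 hC₂.le)
  have hMe : (M * (m ^ 2 : ℕ)) ^ e ≤ C₃ ^ e * z ^ 2 := by
    rw [hM, hm2, mul_assoc, Real.mul_rpow hC₃0.le (by positivity)]
    gcongr
  have hMT : M * T ^ 2 + ((m ^ 2 : ℕ) : ℝ) ≤ C₃ * z * (d * T ^ 2 + (m : ℝ) ^ 2) := by
    have a1 : M * T ^ 2 ≤ C₃ * z * (d * T ^ 2) := by
      rw [hM]
      calc C₃ * (d : ℝ) ^ (1 + e) * T ^ 2 ≤ C₃ * (d * z) * T ^ 2 := by gcongr
        _ = _ := by ring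
    have a2 : ((m ^ 2 : ℕ) : ℝ) ≤ C₃ * z * (m : ℝ) ^ 2 := by
      rw [hm2]
      exact le_mul_of_one_le_left (by positivity) (one_le_mul_of_one_le_of_one_le hC₃1 hz1)
    calc M * T ^ 2 + ((m ^ 2 : ℕ) : ℝ) ≤ C₃ * z * (d * T ^ 2) + C₃ * z * (m : ℝ) ^ 2 :=
          add_le_add a1 a2
      _ = _ := by ring
  have hL0 : 0 ≤ 1 + Real.log (4 * (m ^ 2 : ℕ) * (256 * N * T ^ 2)) := by
    have hNr : (1 : ℝ) ≤ N := by exact_mod_cast hN.1
    have h1 : 1 ≤ 4 * ((m ^ 2 : ℕ) : ℝ) * (256 * N * T ^ 2) := by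
      rw [hm2]
      have a1 : 1 ≤ (m : ℝ) ^ 2 := one_le_pow₀ hmr
      have a2 : 1 ≤ T ^ 2 := one_le_pow₀ hT
      have a3 : 1 ≤ 256 * (N : ℝ) * T ^ 2 := by nlinarith
      nlinarith
    have := Real.log_nonneg h1
    linarith
  calc 256 * ((4 + C₁) * ((m ^ 2).divisors.card : ℝ) ^ 2 *
      (M * (m ^ 2 : ℕ)) ^ e * (M * T ^ 2 + ((m ^ 2 : ℕ) : ℝ)) *
      (1 + Real.log (4 * (m ^ 2 : ℕ) * (256 * N * T ^ 2))))
      ≤ 256 * ((4 + C₁) * (C₂ * z ^ 2) ^ 2 * (C₃ ^ e * z ^ 2) *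
        (C₃ * z * (d * T ^ 2 + (m : ℝ) ^ 2)) * ((A + Real.log C₃) * z)) := by
        gcongr
    _ = 256 * ((4 + C₁) * C₂ ^ 2 * (A + Real.log C₃) * C₃ * C₃ ^ e) * z ^ 8 *
        (d * T ^ 2 + (m : ℝ) ^ 2) := by ring
    _ ≤ _ := by gcongr

/-- the form `F` has exponent `α` at `p` -/
def HasExpV {d : ℕ} (N p : ℕ) (α : ℝ) (F : Fin d → ℂ → ℂ) : Prop :=
  ∀ j : ℕ, ∃ S : Finset MZ, Reps N (p ^ j) S ∧ ∀ (l : Fin d) (z : ℍ), ∑ g ∈ S, F l (mob g z) =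
    (((p : ℝ) ^ j * ∑ l ∈ Finset.Icc (-(j : ℤ)) j, (p : ℝ) ^ (α * l) : ℝ) : ℂ) * F l z

open R3 in
lemma HasExpV.toU {d N p : ℕ} {α : ℝ} {F : Fin d → ℂ → ℂ} (h : HasExpV N p α F) (j : ℕ) :
    ∃ S : Finset MZ, Reps N (p ^ j) S ∧ ∀ (l : Fin d) (z : ℍ), ∑ g ∈ S, F l (mob g z) =
    (((p : ℝ) ^ j * U ((p : ℝ) ^ α) j : ℝ) : ℂ) * F l z := by
  obtain ⟨S, hS, hz⟩ := h j
  refine ⟨S, hS, fun l z => ?_⟩
  rw [hz l z]
  have : ∑ l ∈ Finset.Icc (-(j : ℤ)) j, (p : ℝ) ^ (α * l) = U ((p : ℝ) ^ α) j := by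
    unfold U
    refine Finset.sum_congr rfl fun l _ => ?_
    rw [← Real.rpow_intCast, ← Real.rpow_mul (by positivity)]
  rw [this]

open R3 Q8 in
/-- the density theorem at one prime -/
theorem dens : ∀ ε : ℝ, 0 < ε → ∃ C : ℝ, 0 < C ∧ ∀ (d : ℕ)
    (ρ : SL(2, ℤ) →* Matrix.unitaryGroup (Fin d) ℂ) (N : ℕ), IsLevel ρ.ker N → Irr ρ →
    ∀ T : ℝ, 1 ≤ T → ∀ (k : ℕ) (κ : Fin k → ℝ) (F : Fin k → Fin d → ℂ → ℂ), (∀ i, 0 ≤ κ i) →
      (∀ i, κ i ≤ T ^ 2) → (∀ i, KForm ρ (κ i) (F i)) →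
      LinearIndependent ℂ (fun i => fun (z : ℍ) j => F i j z) →
      ∀ p : ℕ, p.Prime → ¬ p ∣ N →
      ∀ α : Fin k → ℝ, (∀ i, 0 ≤ α i) → (∀ i, HasExpV N p (α i) (F i)) →
      ∑ i, (d * T ^ 2) ^ (α i) ≤ C * (d * p * T) ^ ε * p * (d * T ^ 2) := by
  intro ε hε
  obtain ⟨C, hC, h⟩ := main (ε / 2) (by positivity)
  refine ⟨4 * C, by positivity, ?_⟩
  intro d ρ N hN hi T hT k κ f hκ hκ2 hf hli p hp hpN α hα hE
  have hT0 : 0 < T := by linarith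
  have hp2 : (2 : ℝ) ≤ p := by exact_mod_cast hp.two_le
  have hp1 : (1 : ℝ) < p := by linarith
  have hp0 : (0 : ℝ) < p := by linarith
  have hn1 : (1 : ℝ) ≤ d := by exact_mod_cast hi.1
  obtain ⟨n, hn⟩ : ∃ n : ℝ, n = d := ⟨_, rfl⟩
  obtain ⟨X, hX⟩ : ∃ X : ℝ, X = n * T ^ 2 := ⟨_, rfl⟩
  have hT2 : 1 ≤ T ^ 2 := one_le_pow₀ hT
  rw [← hn] at hn1
  have hX1 : 1 ≤ X := by rw [hX]; exact one_le_mul_of_one_le_of_one_le hn1 hT2
  have hX0 : 0 < X := by linarith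
  -- the exponent
  obtain ⟨j, hj1, hj2⟩ : ∃ j : ℕ, ((p : ℝ) ^ 2) ^ j ≤ X ∧ X < ((p : ℝ) ^ 2) ^ (j + 1) :=
    exists_nat_pow_near hX1 (by nlinarith)
  rw [← pow_mul] at hj1 hj2
  obtain ⟨V, hV⟩ : ∃ V : ℝ, V = (n * p * T) ^ ε := ⟨_, rfl⟩
  have hV1 : 1 ≤ n * p * T :=
    one_le_mul_of_one_le_of_one_le (one_le_mul_of_one_le_of_one_le hn1 hp1.le) hT
  have hpN' : Nat.Coprime p N := (Nat.Prime.coprime_iff_not_dvd hp).2 hpN
  have hlam : ∀ i, ∀ a : ℕ, ∃ S : Finset MZ, Reps N (p ^ a) S ∧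
      ∀ (l : Fin d) (z : ℍ), ∑ g ∈ S, f i l (mob g z) =
        ((((p ^ a : ℕ) : ℝ) * U ((p : ℝ) ^ α i) a : ℝ) : ℂ) * f i l z := by
    intro i a
    have := (hE i).toU a
    push_cast at this ⊢
    exact this
  -- the power of the product
  have hpw : ∀ a : ℕ, ((p : ℝ) ^ (2 * a)) ≤ p ^ 2 * X → (n * ((p ^ a : ℕ) : ℝ) * T) ^ (ε / 2) ≤ V := by
    intro a ha
    have k1 : (p : ℝ) ^ a ≤ p * (n * T) := by
      refine (sq_le_sq₀ (by positivity) (by positivity)).1 ?_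
      calc ((p : ℝ) ^ a) ^ 2 = p ^ (2 * a) := by ring
        _ ≤ p ^ 2 * X := ha
        _ = p ^ 2 * (n * T ^ 2) := by rw [hX]
        _ ≤ p ^ 2 * (n ^ 2 * T ^ 2) := by
            gcongr
            exact le_self_pow₀ hn1 (by norm_num)
        _ = (p * (n * T)) ^ 2 := by ring
    have k2 : n * ((p ^ a : ℕ) : ℝ) * T ≤ (n * p * T) ^ 2 := by
      push_cast
      calc n * (p : ℝ) ^ a * T ≤ n * (p * (n * T)) * T := by gcongr
        _ = 1 * (n * T * (p * (n * T))) := by ring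
        _ ≤ p * (n * T * (p * (n * T))) := mul_le_mul_of_nonneg_right hp1.le (by positivity)
        _ = (n * p * T) ^ 2 := by ring
    calc (n * ((p ^ a : ℕ) : ℝ) * T) ^ (ε / 2) ≤ ((n * p * T) ^ 2) ^ (ε / 2) :=
          Real.rpow_le_rpow (by positivity) k2 (by positivity)
      _ = V := by
          rw [hV, ← Real.rpow_natCast (n * p * T) 2, ← Real.rpow_mul (by linarith)]
          congr 1
          push_cast
          ring
  have m1 := h d ρ N hN hi T hT (p ^ j) (pow_pos hp.pos j) (hpN'.pow_left j) k κ f hκ hκ2 hf hli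
    (fun i => U ((p : ℝ) ^ α i) j) (fun i => hlam i j)
  have m2 := h d ρ N hN hi T hT (p ^ (j + 1)) (pow_pos hp.pos _) (hpN'.pow_left _) k κ f hκ hκ2 hf
    hli (fun i => U ((p : ℝ) ^ α i) (j + 1)) (fun i => hlam i (j + 1))
  rw [← hn] at m1 m2 ⊢
  rw [← hX] at m1 m2 ⊢
  rw [← hV]
  have hV0 : 0 < V := by rw [hV]; positivity
  obtain ⟨W, hW⟩ : ∃ W : ℝ, W = (p : ℝ) ^ (2 * (j + 1)) := ⟨_, rfl⟩
  have hWX : W ≤ p ^ 2 * X := by
    rw [hW]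
    calc (p : ℝ) ^ (2 * (j + 1)) = p ^ 2 * p ^ (2 * j) := by ring
      _ ≤ p ^ 2 * X := mul_le_mul_of_nonneg_left hj1 (by positivity)
  have hW0 : 0 < W := by rw [hW]; positivity
  have w1 := hpw j (hj1.trans (le_mul_of_one_le_left hX0.le (one_le_pow₀ hp1.le)))
  have w2 := hpw (j + 1) (by rw [← hW]; exact hWX)
  have sq1 : (((p ^ j : ℕ) : ℝ)) ^ 2 = (p : ℝ) ^ (2 * j) := by push_cast; ring
  have sq2 : (((p ^ (j + 1) : ℕ) : ℝ)) ^ 2 = W := by rw [hW]; push_cast; ring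
  rw [sq1] at m1
  rw [sq2] at m2
  have m1' : ∑ i, (U ((p : ℝ) ^ α i) j) ^ 2 ≤ 2 * C * V * X := by
    calc ∑ i, (U ((p : ℝ) ^ α i) j) ^ 2 ≤ C * (n * ((p ^ j : ℕ) : ℝ) * T) ^ (ε / 2) *
          (X + (p : ℝ) ^ (2 * j)) := m1
      _ ≤ C * V * (X + X) := by gcongr
      _ = _ := by ring
  have m2' : ∑ i, (U ((p : ℝ) ^ α i) (j + 1)) ^ 2 ≤ 2 * C * V * W := by
    calc ∑ i, (U ((p : ℝ) ^ α i) (j + 1)) ^ 2 ≤
          C * (n * ((p ^ (j + 1) : ℕ) : ℝ) * T) ^ (ε / 2) * (X + W) := m2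
      _ ≤ C * V * (W + W) := by
          gcongr
          rw [hW]
          exact hj2.le
      _ = _ := by ring
  have hterm : ∀ i, X ^ (α i) ≤ p * (U ((p : ℝ) ^ α i) j) ^ 2 +
      p * X / W * (U ((p : ℝ) ^ α i) (j + 1)) ^ 2 := by
    intro i
    have hq : 0 < (p : ℝ) ^ α i := Real.rpow_pos_of_pos hp0 _
    refine (numer hp1 hX1 (hα i) j hj1 hj2.le).trans ?_
    rw [← hW]
    have u1 := pow_le_pow_left₀ (by positivity) (U_ge hq j) 2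
    have u2 := pow_le_pow_left₀ (by positivity) (U_ge hq (j + 1)) 2
    have hpX : 0 ≤ p * X / W := by positivity
    exact add_le_add (mul_le_mul_of_nonneg_left u1 hp0.le) (mul_le_mul_of_nonneg_left u2 hpX)
  calc ∑ i, X ^ (α i) ≤ ∑ i, (p * (U ((p : ℝ) ^ α i) j) ^ 2 +
      p * X / W * (U ((p : ℝ) ^ α i) (j + 1)) ^ 2) := Finset.sum_le_sum fun i _ => hterm i
    _ = p * ∑ i, (U ((p : ℝ) ^ α i) j) ^ 2 +
        p * X / W * ∑ i, (U ((p : ℝ) ^ α i) (j + 1)) ^ 2 := by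
        rw [Finset.sum_add_distrib, Finset.mul_sum, Finset.mul_sum]
    _ ≤ p * (2 * C * V * X) + p * X / W * (2 * C * V * W) := by
        have hpX : 0 ≤ p * X / W := by positivity
        exact add_le_add (mul_le_mul_of_nonneg_left m1' hp0.le) (mul_le_mul_of_nonneg_left m2' hpX)
    _ = 4 * C * V * p * X := by
        field_simp
        ring

/-- the number of forms with a large exponent at a prime -/
theorem count : ∀ ε : ℝ, 0 < ε → ∃ C : ℝ, 0 < C ∧ ∀ (d : ℕ)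
    (ρ : SL(2, ℤ) →* Matrix.unitaryGroup (Fin d) ℂ) (N : ℕ), IsLevel ρ.ker N → Irr ρ →
    ∀ T : ℝ, 1 ≤ T → ∀ (k : ℕ) (κ : Fin k → ℝ) (F : Fin k → Fin d → ℂ → ℂ), (∀ i, 0 ≤ κ i) →
      (∀ i, κ i ≤ T ^ 2) → (∀ i, KForm ρ (κ i) (F i)) →
      LinearIndependent ℂ (fun i => fun (z : ℍ) j => F i j z) →
      ∀ P : ℕ, ∀ α : ℝ, 0 ≤ α → (∀ i, ∃ p : ℕ, p.Prime ∧ p ≤ P ∧ ¬ p ∣ N ∧
        ∃ a, α ≤ a ∧ HasExpV N p a (F i)) →
      (k : ℝ) ≤ C * (d * P * T) ^ ε * P ^ 2 * (d * T ^ 2) ^ (1 - α) := by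
  classical
  intro ε hε
  obtain ⟨C, hC, h⟩ := dens ε hε
  refine ⟨C, hC, ?_⟩
  intro d ρ N hN hi T hT k κ f hκ hκ2 hf hli P α hα hE
  choose q hq hqP hqN a ha hE using hE
  have hn1 : (1 : ℝ) ≤ d := by exact_mod_cast hi.1
  have hT2 : 1 ≤ T ^ 2 := one_le_pow₀ hT
  obtain ⟨X, hX⟩ : ∃ X : ℝ, X = d * T ^ 2 := ⟨_, rfl⟩
  have hX1 : 1 ≤ X := by rw [hX]; exact one_le_mul_of_one_le_of_one_le hn1 hT2
  have hX0 : 0 < X := by linarith
  have key : ∀ p ∈ Finset.Icc 1 P, ((Finset.univ.filter fun i => q i = p).card : ℝ) ≤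
      C * (d * P * T) ^ ε * P * X ^ (1 - α) := by
    intro p hp
    rw [Finset.mem_Icc] at hp
    obtain ⟨m, hm⟩ : ∃ m, m = (Finset.univ.filter fun i => q i = p).card := ⟨_, rfl⟩
    rcases Nat.eq_zero_or_pos m with h0 | h0
    · rw [← hm, h0]
      push_cast
      positivity
    · have hne : (Finset.univ.filter fun i => q i = p).Nonempty := by
        rw [← Finset.card_pos, ← hm]
        exact h0
      obtain ⟨i₀, hi₀⟩ := hne
      have hi₀' := (Finset.mem_filter.1 hi₀).2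
      obtain ⟨e⟩ : Nonempty (Fin m ≃ (Finset.univ.filter fun i => q i = p)) := by
        rw [hm]
        exact ⟨(Finset.equivFin _).symm⟩
      have he : ∀ i : Fin m, q (e i) = p := fun i => (Finset.mem_filter.1 (e i).2).2
      have hinj : Function.Injective fun i : Fin m => ((e i : Fin k)) :=
        Subtype.val_injective.comp e.injective
      have h1 := h d ρ N hN hi T hT m (fun i => κ (e i)) (fun i => f (e i)) (fun i => hκ _)
        (fun i => hκ2 _) (fun i => hf _) (hli.comp _ hinj) p (by rw [← hi₀']; exact hq i₀)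
        (by rw [← hi₀']; exact hqN i₀) (fun i => a (e i)) (fun i => hα.trans (ha _))
        (fun i => by have := hE (e i); rwa [he i] at this)
      rw [← hX] at h1
      have h3 : (m : ℝ) * X ^ α ≤ ∑ i : Fin m, X ^ (a (e i)) := by
        have : (m : ℝ) * X ^ α = ∑ _i : Fin m, X ^ α := by simp
        rw [this]
        exact Finset.sum_le_sum fun i _ => Real.rpow_le_rpow_of_exponent_le hX1 (ha _)
      have hpP : (p : ℝ) ≤ P := by exact_mod_cast hp.2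
      have h4 : (m : ℝ) * X ^ α ≤ C * (d * P * T) ^ ε * P * X := by
        refine h3.trans (h1.trans ?_)
        gcongr
      rw [← hm, Real.rpow_sub hX0, Real.rpow_one, mul_div_assoc', le_div_iff₀ (by positivity)]
      exact h4
  have h1 : (k : ℝ) = ∑ p ∈ Finset.Icc 1 P, ((Finset.univ.filter fun i => q i = p).card : ℝ) := by
    have h2 : (Finset.univ : Finset (Fin k)).card =
        ∑ p ∈ Finset.Icc 1 P, (Finset.univ.filter fun i => q i = p).card :=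
      Finset.card_eq_sum_card_fiberwise fun i _ => by
        rw [Finset.mem_coe, Finset.mem_Icc]
        exact ⟨(hq i).pos, hqP i⟩
    rw [Finset.card_univ, Fintype.card_fin] at h2
    exact_mod_cast h2
  rw [h1, ← hX]
  refine (Finset.sum_le_sum key).trans (le_of_eq ?_)
  rw [Finset.sum_const, Nat.card_Icc, nsmul_eq_mul]
  simp only [Nat.add_sub_cancel]
  ring

end W6

end

end Pool.Agent.XE31
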