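import Pool.Agent.N799.DT.Main

/-!
# The mean value property for arbitrary real eigenvalues: the differential equation
-/

set_option autoImplicit false

open UpperHalfPlane MeasureTheory Metric ModularGroup CongruenceSubgroup Set Filter
open scoped MatrixGroups ENNReal Modular Topology NNReal ComplexConjugate ContDiff

namespace Pool.Agent.XE31

open Pool.Agent.H369R2 Pool.Agent.N799.DT

noncomputable section

namespace X1

/-- smooth eigenfunctions of the hyperbolic Laplacian with eigenvalue `κ` -/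
structure LapK (κ : ℝ) (f : ℂ → ℂ) : Prop where
  smooth : ContDiffOn ℝ (⊤ : ℕ∞) f {w : ℂ | 0 < w.im}
  eq : ∀ z : ℍ, -((z.im : ℂ) ^ 2) *
      (deriv (fun s : ℝ => deriv (fun t : ℝ => f ((t : ℂ) + (z.im : ℂ) * Complex.I)) s) z.re
        + deriv (fun s : ℝ => deriv (fun t : ℝ => f ((z.re : ℂ) + (t : ℂ) * Complex.I)) s) z.im)
      = (κ : ℂ) * f (z : ℂ)

/-- the equation in logarithmic polar coordinates -/
def S_confK : Prop :=
  ∀ (κ : ℝ) (f : ℂ → ℂ), LapK κ f → ∀ z : ℍ,
    ContDiffOn ℝ (⊤ : ℕ∞) (fun p : ℝ × ℝ => pl f z p.1 p.2) {p | p.1 < 0} ∧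
    ∀ u θ : ℝ, u < 0 →
      deriv (fun s : ℝ => deriv (fun t : ℝ => pl f z t θ) s) u +
        deriv (fun s : ℝ => deriv (fun t : ℝ => pl f z u t) s) θ =
          -((κ / Real.sinh u ^ 2 : ℝ) : ℂ) * pl f z u θ

/-- the differential equation of the circle means -/
def S_meanK : Prop :=
  ∀ (κ : ℝ) (f : ℂ → ℂ), LapK κ f → ∀ z : ℍ, ∃ G G₁ : ℝ → ℂ,
    (∀ u : ℝ, u < 0 → G u = ∫ θ in (0 : ℝ)..(2 * Real.pi), pl f z u θ) ∧
    (∀ u : ℝ, u < 0 → HasDerivAt G (G₁ u) u) ∧
    (∀ u : ℝ, u < 0 →
      HasDerivAt G₁ (-((κ / Real.sinh u ^ 2 : ℝ) : ℂ) * G u) u) ∧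
    Filter.Tendsto G Filter.atBot (𝓝 (2 * Real.pi * f z)) ∧
    Filter.Tendsto G₁ Filter.atBot (𝓝 0)

/-- the equation in logarithmic polar coordinates -/
theorem confK : S_confK := by
  intro κ f hf z
  have hU : ContDiffOn ℝ (⊤ : ℕ∞) f Conf.U := hf.smooth
  constructor
  · have hg : ContDiffOn ℝ (⊤ : ℕ∞)
        (fun p : ℝ × ℝ => dc z (Complex.exp ((p.1 : ℂ) + (p.2 : ℂ) * Complex.I)))
        {p : ℝ × ℝ | p.1 < 0} := by
      unfold dc
      have he : ContDiff ℝ (⊤ : ℕ∞)
          (fun p : ℝ × ℝ => Complex.exp ((p.1 : ℂ) + (p.2 : ℂ) * Complex.I)) := by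
        have a1 : ContDiff ℝ (⊤ : ℕ∞) (fun p : ℝ × ℝ => ((p.1 : ℝ) : ℂ)) :=
          Complex.ofRealCLM.contDiff.comp contDiff_fst
        have a2 : ContDiff ℝ (⊤ : ℕ∞) (fun p : ℝ × ℝ => ((p.2 : ℝ) : ℂ)) :=
          Complex.ofRealCLM.contDiff.comp contDiff_snd
        exact ContDiff.cexp (a1.add (a2.mul contDiff_const))
      have b1 : ContDiff ℝ (⊤ : ℕ∞) (fun p : ℝ × ℝ => (z : ℂ) - conj (z : ℂ) *
          Complex.exp ((p.1 : ℂ) + (p.2 : ℂ) * Complex.I)) :=
        contDiff_const.sub (contDiff_const.mul he)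
      have b2 : ContDiff ℝ (⊤ : ℕ∞) (fun p : ℝ × ℝ => 1 -
          Complex.exp ((p.1 : ℂ) + (p.2 : ℂ) * Complex.I)) :=
        contDiff_const.sub he
      refine b1.contDiffOn.mul (b2.contDiffOn.inv ?_)
      intro p hp
      exact Conf.exp_ne (by simpa using hp)
    refine hU.comp hg ?_
    intro p hp
    exact Conf.mem_U z (by simpa using hp)
  · intro u θ hu
    set ζ : ℂ := (u : ℂ) + (θ : ℂ) * Complex.I with hζ
    have hre : ζ.re < 0 := by simpa [hζ] using hu
    obtain ⟨M, hM⟩ := Conf.diff_dL z hre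
    -- the horizontal direction
    have hx1 : ∀ t : ℝ, HasDerivAt (fun t : ℝ => (t : ℂ) + (θ : ℂ) * Complex.I) 1 t := fun t =>
      (Complex.ofRealCLM.hasDerivAt (x := t)).add_const _
    have hx := Conf.second f hU
      (fun t : ℝ => dc z (Complex.exp ((t : ℂ) + (θ : ℂ) * Complex.I)))
      (fun t : ℝ => Conf.dL z ((t : ℂ) + (θ : ℂ) * Complex.I)) M u
      (by
        filter_upwards [Iio_mem_nhds hu] with t ht
        exact Conf.mem_U z (by simpa using ht))
      (by
        filter_upwards [Iio_mem_nhds hu] with t ht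
        have h1 := (Conf.hasDeriv_L z (ζ := (t : ℂ) + (θ : ℂ) * Complex.I)
          (by simpa using ht)).comp_of_eq t (hx1 t) rfl
        rw [mul_one] at h1
        exact h1)
      (by
        have h1 := HasDerivAt.comp_of_eq u hM (hx1 u) rfl
        rw [mul_one] at h1
        exact h1)
    -- the vertical direction
    have hy1 : ∀ t : ℝ, HasDerivAt (fun t : ℝ => (u : ℂ) + (t : ℂ) * Complex.I) Complex.I t := by
      intro t
      have h1 := ((Complex.ofRealCLM.hasDerivAt (x := t)).mul_const Complex.I).const_add (u : ℂ)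
      simpa using h1
    have hy := Conf.second f hU
      (fun t : ℝ => dc z (Complex.exp ((u : ℂ) + (t : ℂ) * Complex.I)))
      (fun t : ℝ => Conf.dL z ((u : ℂ) + (t : ℂ) * Complex.I) * Complex.I) (-M) θ
      (by
        refine Filter.Eventually.of_forall fun t => ?_
        exact Conf.mem_U z (by simpa using hu))
      (by
        refine Filter.Eventually.of_forall fun t => ?_
        have h1 := (Conf.hasDeriv_L z (ζ := (u : ℂ) + (t : ℂ) * Complex.I)
          (by simpa using hu)).comp_of_eq t (hy1 t) rfl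
        exact h1)
      (by
        have h1 := (HasDerivAt.comp_of_eq θ hM (hy1 θ) rfl).mul_const Complex.I
        have h2 : M * Complex.I * Complex.I = -M := by
          rw [mul_assoc, Complex.I_mul_I]
          ring
        rw [h2] at h1
        exact h1)
    set w : ℂ := dc z (Complex.exp ζ) with hw
    have hwU : w ∈ Conf.U := Conf.mem_U z hre
    have hsum : deriv (fun s : ℝ => deriv (fun t : ℝ => pl f z t θ) s) u +
        deriv (fun s : ℝ => deriv (fun t : ℝ => pl f z u t) s) θ =
        ((‖Conf.dL z ζ‖ ^ 2 : ℝ) : ℂ) * (fderiv ℝ (fderiv ℝ f) w 1 1 +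
          fderiv ℝ (fderiv ℝ f) w Complex.I Complex.I) := by
      rw [← Conf.bilin]
      unfold pl
      rw [hx, hy]
      simp only [← hζ, map_neg]
      ring
    -- the equation at `w`
    have heq := hf.eq ⟨w, hwU⟩
    have hcx := Conf.second f hU (fun t : ℝ => (t : ℂ) + (w.im : ℂ) * Complex.I) (fun _ => 1) 0 w.re
      (by
        refine Filter.Eventually.of_forall fun t => ?_
        show 0 < Complex.im _
        simpa using (show 0 < w.im from hwU))
      (by
        refine Filter.Eventually.of_forall fun t => ?_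
        exact (Complex.ofRealCLM.hasDerivAt (x := t)).add_const _)
      (hasDerivAt_const _ _)
    have hcy := Conf.second f hU (fun t : ℝ => (w.re : ℂ) + (t : ℂ) * Complex.I)
      (fun _ => Complex.I) 0 w.im
      (by
        filter_upwards [Ioi_mem_nhds (show 0 < w.im from hwU)] with t ht
        show 0 < Complex.im _
        simpa using ht)
      (by
        refine Filter.Eventually.of_forall fun t => ?_
        have h1 := ((Complex.ofRealCLM.hasDerivAt (x := t)).mul_const Complex.I).const_add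
          (w.re : ℂ)
        simpa using h1)
      (hasDerivAt_const _ _)
    simp only [map_zero, add_zero, Complex.re_add_im] at hcx hcy
    have heq' : -((w.im : ℂ) ^ 2) * (fderiv ℝ (fderiv ℝ f) w 1 1 +
          fderiv ℝ (fderiv ℝ f) w Complex.I Complex.I) = (κ : ℂ) * f w := by
      rw [← hcx, ← hcy]
      exact heq
    rw [hsum, Conf.ratio z hre]
    have hre' : ζ.re = u := by simp [hζ]
    rw [hre', ← hw]
    show _ = _ * f w
    push_cast

    linear_combination (-(1 : ℂ) / Complex.sinh (u : ℂ) ^ 2) * heq'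


open Mean

theorem meanK (h : S_confK) : S_meanK := by
  intro κ f hL z
  obtain ⟨hs, heq⟩ := h κ f hL z
  set F : ℝ × ℝ → ℂ := fun p => pl f z p.1 p.2 with hF
  have hs' : ContDiffOn ℝ ∞ F HS := hs
  have hw : ∀ u θ : ℝ, F (u, θ) = Ph f z (Complex.exp (u + θ * Complex.I)) := fun _ _ => rfl
  have hp : ∀ u θ, F (u, θ + 2 * Real.pi) = F (u, θ) := by
    intro u θ
    rw [hw, hw]
    congr 1
    push_cast
    rw [show (u : ℂ) + (θ + 2 * Real.pi) * Complex.I = (u + θ * Complex.I) + 2 * Real.pi * Complex.I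
      by ring, Complex.exp_periodic]
  have hnorm : ∀ u θ : ℝ, ‖Complex.exp (u + θ * Complex.I)‖ = Real.exp u := by
    intro u θ
    rw [Complex.norm_exp]
    simp
  have hsm := Ph_smooth hL.smooth z
  have hpi : (0 : ℝ) < 2 * Real.pi := by positivity
  refine ⟨fun u => ∫ θ in (0 : ℝ)..(2 * Real.pi), F (u, θ),
    fun u => ∫ θ in (0 : ℝ)..(2 * Real.pi), Da F (u, θ), fun u _ => rfl,
    fun u hu => dint hs' hu, fun u hu => ?_, ?_, ?_⟩
  · have h1 := dint (Da_smooth hs') hu
    have h2 : ∫ θ in (0 : ℝ)..(2 * Real.pi), Da (Da F) (u, θ) =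
        -((κ / Real.sinh u ^ 2 : ℝ) : ℂ) *
          ∫ θ in (0 : ℝ)..(2 * Real.pi), F (u, θ) := by
      have h3 : ∀ θ, Da (Da F) (u, θ) =
          -((κ / Real.sinh u ^ 2 : ℝ) : ℂ) * F (u, θ) - Db (Db F) (u, θ) := by
        intro θ
        have h4 := heq u θ hu
        have h5 := deriv2A hs' hu θ
        have h6 := deriv2B hs' hu θ
        simp only [hF] at h5 h6
        rw [h5, h6] at h4
        rw [← h4]
        ring
      simp only [h3]
      rw [intervalIntegral.integral_sub, per hs' hp hu, sub_zero,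
        intervalIntegral.integral_const_mul]
      · exact (continuous_const.mul (slice hs' hu)).intervalIntegrable _ _
      · exact (slice (Db_smooth (Db_smooth hs')) hu).intervalIntegrable _ _
    rw [h2] at h1
    exact h1
  · rw [Metric.tendsto_nhds]
    intro ε hε
    have hcont := hsm.continuousAt
    rw [Metric.continuousAt_iff] at hcont
    obtain ⟨δ, hδ, hd⟩ := hcont (ε / (4 * Real.pi)) (by positivity)
    filter_upwards [Iio_mem_atBot 0, Iio_mem_atBot (Real.log δ)] with u hu hu2
    have h1 : (∫ θ in (0 : ℝ)..(2 * Real.pi), F (u, θ)) - 2 * Real.pi * f z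
        = ∫ θ in (0 : ℝ)..(2 * Real.pi), (F (u, θ) - f z) := by
      rw [intervalIntegral.integral_sub ((slice hs' hu).intervalIntegrable _ _)
        intervalIntegrable_const, intervalIntegral.integral_const, sub_zero, Complex.real_smul]
      push_cast
      ring
    rw [dist_eq_norm, h1]
    have h2 : ‖∫ θ in (0 : ℝ)..(2 * Real.pi), (F (u, θ) - f z)‖ ≤
        ε / (4 * Real.pi) * |2 * Real.pi - 0| := by
      refine intervalIntegral.norm_integral_le_of_norm_le_const fun θ _ => ?_
      rw [hw, ← Ph_zero f z, ← dist_eq_norm]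
      refine (hd ?_).le
      rw [dist_zero_right, hnorm]
      have : u < Real.log δ := hu2
      exact (Real.lt_log_iff_exp_lt hδ).1 this
    rw [sub_zero, abs_of_pos hpi] at h2
    have h3 : ε / (4 * Real.pi) * (2 * Real.pi) = ε / 2 := by
      field_simp
      norm_num
    rw [h3] at h2
    linarith
  · have hd1 : ContinuousAt (fderiv ℝ (Ph f z)) 0 := by
      have : ContDiffAt ℝ ∞ (fderiv ℝ (Ph f z)) 0 := hsm.fderiv_right (by rfl)
      exact this.continuousAt
    have hb : ∀ᶠ w in 𝓝 (0 : ℂ), ‖fderiv ℝ (Ph f z) w‖ < ‖fderiv ℝ (Ph f z) 0‖ + 1 :=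
      hd1.norm.eventually_lt continuousAt_const (by simp)
    have hdf : ∀ᶠ w in 𝓝 (0 : ℂ), DifferentiableAt ℝ (Ph f z) w := by
      have h1 : ContDiffAt ℝ 1 (Ph f z) 0 := hsm.of_le (by exact_mod_cast le_top)
      filter_upwards [h1.eventually (by simp)] with w hw
      exact hw.differentiableAt (by simp)
    obtain ⟨δ, hδ, hd⟩ := Metric.eventually_nhds_iff.1 (hb.and hdf)
    set C := ‖fderiv ℝ (Ph f z) 0‖ + 1 with hC
    have hlim : Tendsto (fun u : ℝ => C * Real.exp u * (2 * Real.pi)) atBot (𝓝 0) := by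
      have := (Real.tendsto_exp_atBot.const_mul C).mul_const (2 * Real.pi)
      simpa using this
    refine squeeze_zero_norm' ?_ hlim
    filter_upwards [Iio_mem_atBot 0, Iio_mem_atBot (Real.log δ)] with u hu hu2
    have h2 : ‖∫ θ in (0 : ℝ)..(2 * Real.pi), Da F (u, θ)‖ ≤
        C * Real.exp u * |2 * Real.pi - 0| := by
      refine intervalIntegral.norm_integral_le_of_norm_le_const fun θ _ => ?_
      have h3 : dist (Complex.exp (u + θ * Complex.I)) 0 < δ := by
        rw [dist_zero_right, hnorm]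
        have : u < Real.log δ := hu2
        exact (Real.lt_log_iff_exp_lt hδ).1 this
      obtain ⟨h4, h5⟩ := hd h3
      have h6 : HasDerivAt (fun t : ℝ => Complex.exp (t + θ * Complex.I))
          (Complex.exp (u + θ * Complex.I)) u := by
        have h7 : HasDerivAt (fun t : ℝ => (t : ℂ) + θ * Complex.I) 1 u :=
          (Complex.ofRealCLM.hasDerivAt (x := u)).add_const _
        simpa using h7.cexp
      have h8 := h5.hasFDerivAt.comp_hasDerivAt u h6
      have h9 : Da F (u, θ) = fderiv ℝ (Ph f z) (Complex.exp (u + θ * Complex.I))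
          (Complex.exp (u + θ * Complex.I)) := (hasA hs' hu θ).unique h8
      rw [h9]
      calc ‖fderiv ℝ (Ph f z) (Complex.exp (u + θ * Complex.I))
            (Complex.exp (u + θ * Complex.I))‖
          ≤ ‖fderiv ℝ (Ph f z) (Complex.exp (u + θ * Complex.I))‖ *
            ‖Complex.exp (u + θ * Complex.I)‖ := ContinuousLinearMap.le_opNorm _ _
        _ ≤ C * Real.exp u := by
            rw [hnorm]
            gcongr
    rwa [sub_zero, abs_of_pos hpi] at h2


end X1

end

end Pool.Agent.XE31
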