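import Pool.Agent.XE31.X1

/-!
# Uniqueness for the differential equation of the circle means
-/

set_option autoImplicit false

open UpperHalfPlane MeasureTheory Metric Set Filter
open scoped MatrixGroups ENNReal Modular Topology NNReal ComplexConjugate

namespace Pool.Agent.XE31

noncomputable section

namespace X2

variable {κ : ℝ} {D D₁ : ℝ → ℂ}

lemma q_bound (κ : ℝ) {u : ℝ} (hu : u ≤ -1) :
    ‖-((κ / Real.sinh u ^ 2 : ℝ) : ℂ)‖ ≤ 16 * |κ| * Real.exp (2 * u) := by
  rw [norm_neg, Complex.norm_real, Real.norm_eq_abs, abs_div,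
    abs_of_nonneg (sq_nonneg (Real.sinh u))]
  have h1 : Real.exp (2 * u) * Real.exp (-u) ^ 2 = 1 := by
    rw [← Real.exp_nat_mul, ← Real.exp_add]
    have : 2 * u + ((2 : ℕ) : ℝ) * -u = 0 := by push_cast; ring
    rw [this, Real.exp_zero]
  have h2 : Real.exp (-u) / 4 ≤ -Real.sinh u := by
    rw [Real.sinh_eq]
    have h3 : 2 * Real.exp u ≤ Real.exp (-u) := by
      have h4 : Real.exp (-u) = Real.exp u * Real.exp (-(2 * u)) := by
        rw [← Real.exp_add]; congr 1; ring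
      have h5 : (2 : ℝ) ≤ Real.exp (-(2 * u)) := by
        have := Real.add_one_le_exp (-(2 * u))
        linarith
      rw [h4]
      nlinarith [Real.exp_pos u]
    linarith
  have h4 : Real.exp (-u) ^ 2 / 16 ≤ Real.sinh u ^ 2 := by
    have := pow_le_pow_left₀ (by positivity) h2 2
    nlinarith
  have h5 : 0 < Real.exp (-u) ^ 2 / 16 := by positivity
  rw [div_le_iff₀ (h5.trans_le h4)]
  have h6 : |κ| = 16 * |κ| * Real.exp (2 * u) * (Real.exp (-u) ^ 2 / 16) := by
    linear_combination (-|κ|) * h1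
  calc |κ| = 16 * |κ| * Real.exp (2 * u) * (Real.exp (-u) ^ 2 / 16) := h6
    _ ≤ _ := mul_le_mul_of_nonneg_left h4 (by positivity)

/-- integration of an exponential bound from minus infinity -/
lemma int_bound {F F' : ℝ → ℂ} {u₀ c : ℝ} (hu₀ : u₀ < 0) (hF : ∀ u : ℝ, u < 0 → HasDerivAt F (F' u) u)
    (hl : Tendsto F atBot (𝓝 0)) (hb : ∀ u : ℝ, u ≤ u₀ → ‖F' u‖ ≤ 2 * c * Real.exp (2 * u))
    {t : ℝ} (ht : t ≤ u₀) (hc : 0 ≤ c) : ‖F t‖ ≤ c * Real.exp (2 * t) := by
  have key : ∀ s : ℝ, s < t → ‖F t‖ ≤ ‖F s‖ + c * Real.exp (2 * t) := by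
    intro s hs
    have h1 := image_norm_le_of_norm_deriv_right_le_deriv_boundary (f := F) (f' := F') (a := s)
      (b := t) (B := fun x => ‖F s‖ + c * (Real.exp (2 * x) - Real.exp (2 * s)))
      (B' := fun x => 2 * c * Real.exp (2 * x))
      (fun x hx => (hF x (by linarith [hx.2])).continuousAt.continuousWithinAt)
      (fun x hx => (hF x (by linarith [hx.2])).hasDerivWithinAt)
      (by simp)
      (fun x => by
        have h2 : HasDerivAt (fun x : ℝ => Real.exp (2 * x)) (Real.exp (2 * x) * 2) x := by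
          have := ((hasDerivAt_id x).const_mul 2).exp
          simpa using this
        have h3 := ((h2.sub_const (Real.exp (2 * s))).const_mul c).const_add ‖F s‖
        convert! h3 using 1
        ring)
      (fun x hx => hb x (by linarith [hx.2])) (right_mem_Icc.2 hs.le)
    refine h1.trans ?_
    have := mul_nonneg hc (Real.exp_pos (2 * s)).le
    linarith
  have hlim : Tendsto (fun s : ℝ => ‖F s‖ + c * Real.exp (2 * t)) atBot
      (𝓝 (c * Real.exp (2 * t))) := by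
    have := (hl.norm).add_const (c * Real.exp (2 * t))
    simpa using this
  refine ge_of_tendsto hlim ?_
  filter_upwards [Iio_mem_atBot t] with s hs
  exact key s hs

theorem uniq_near (h1 : ∀ u : ℝ, u < 0 → HasDerivAt D (D₁ u) u)
    (h2 : ∀ u : ℝ, u < 0 → HasDerivAt D₁ (-((κ / Real.sinh u ^ 2 : ℝ) : ℂ) * D u) u)
    (hl : Tendsto D atBot (𝓝 0)) (hl₁ : Tendsto D₁ atBot (𝓝 0)) :
    ∃ u₀ : ℝ, u₀ < 0 ∧ ∀ u : ℝ, u ≤ u₀ → D u = 0 := by
  -- the point `u₀`
  have ht : Tendsto (fun u : ℝ => 4 * |κ| * Real.exp (2 * u)) atBot (𝓝 0) := by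
    have h3 : Tendsto (fun u : ℝ => Real.exp (2 * u)) atBot (𝓝 0) :=
      Real.tendsto_exp_atBot.comp (tendsto_id.const_mul_atBot (by norm_num))
    simpa using h3.const_mul (4 * |κ|)
  obtain ⟨u₀, h3, h4⟩ := ((ht.eventually (gt_mem_nhds (show (0 : ℝ) < 1 / 2 by norm_num))).and
    (eventually_le_atBot (-1 : ℝ))).exists
  have hu₀ : u₀ < 0 := by linarith
  refine ⟨u₀, hu₀, ?_⟩
  have half : ∀ S : ℝ, 0 ≤ S → (∀ u : ℝ, u ≤ u₀ → ‖D u‖ ≤ S) → ∀ u : ℝ, u ≤ u₀ → ‖D u‖ ≤ S / 2 := by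
    intro S hS hD u hu
    have b1 : ∀ u : ℝ, u ≤ u₀ → ‖-((κ / Real.sinh u ^ 2 : ℝ) : ℂ) * D u‖ ≤
        2 * (8 * |κ| * S) * Real.exp (2 * u) := by
      intro u hu
      rw [norm_mul]
      have := mul_le_mul (q_bound κ (hu.trans h4)) (hD u hu) (norm_nonneg _) (by positivity)
      refine this.trans (le_of_eq ?_)
      ring
    have b2 : ∀ u : ℝ, u ≤ u₀ → ‖D₁ u‖ ≤ 2 * (4 * |κ| * S) * Real.exp (2 * u) := by
      intro u hu
      have := int_bound hu₀ h2 hl₁ b1 hu (by positivity)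
      refine this.trans (le_of_eq ?_)
      ring
    have b3 := int_bound hu₀ h1 hl b2 hu (by positivity)
    have b4 : Real.exp (2 * u) ≤ Real.exp (2 * u₀) := Real.exp_le_exp.2 (by linarith)
    have b5 : 4 * |κ| * S * Real.exp (2 * u) ≤ S * (4 * |κ| * Real.exp (2 * u₀)) := by
      have : 0 ≤ 4 * |κ| * S := by positivity
      nlinarith [mul_le_mul_of_nonneg_left b4 this]
    have b6 : S * (4 * |κ| * Real.exp (2 * u₀)) ≤ S * (1 / 2) :=
      mul_le_mul_of_nonneg_left h3.le hS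
    linarith
  -- boundedness
  obtain ⟨S, hS0, hS⟩ : ∃ S : ℝ, 0 ≤ S ∧ ∀ u : ℝ, u ≤ u₀ → ‖D u‖ ≤ S := by
    obtain ⟨A, hA⟩ := (hl.norm.eventually (gt_mem_nhds (show ‖(0 : ℂ)‖ < 1 by simp))).exists_forall_of_atBot
    have hc : ContinuousOn D (Icc A u₀) := fun x hx =>
      (h1 x (by linarith [hx.2])).continuousAt.continuousWithinAt
    obtain ⟨C, hC⟩ := isCompact_Icc.exists_bound_of_continuousOn hc
    refine ⟨max 1 C, le_max_of_le_left zero_le_one, fun u hu => ?_⟩
    rcases le_total u A with h | h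
    · exact (hA u h).le.trans (le_max_left _ _)
    · exact (hC u ⟨h, hu⟩).trans (le_max_right _ _)
  have hn : ∀ n : ℕ, ∀ u : ℝ, u ≤ u₀ → ‖D u‖ ≤ S * (1 / 2) ^ n := by
    intro n
    induction n with
    | zero => intro u hu; simpa using hS u hu
    | succ n ih =>
      intro u hu
      refine (half _ (by positivity) ih u hu).trans (le_of_eq ?_)
      rw [pow_succ]
      ring
  intro u hu
  have hlim : Tendsto (fun n : ℕ => S * (1 / 2 : ℝ) ^ n) atTop (𝓝 0) := by
    have := (tendsto_pow_atTop_nhds_zero_of_lt_one (by norm_num : (0 : ℝ) ≤ 1 / 2)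
      (by norm_num)).const_mul S
    simpa using this
  have := ge_of_tendsto' hlim fun n => hn n u hu
  exact norm_le_zero_iff.1 this

theorem uniq (h1 : ∀ u : ℝ, u < 0 → HasDerivAt D (D₁ u) u)
    (h2 : ∀ u : ℝ, u < 0 → HasDerivAt D₁ (-((κ / Real.sinh u ^ 2 : ℝ) : ℂ) * D u) u)
    (hl : Tendsto D atBot (𝓝 0)) (hl₁ : Tendsto D₁ atBot (𝓝 0)) :
    ∀ u : ℝ, u < 0 → D u = 0 := by
  obtain ⟨u₀, hu₀, h0⟩ := uniq_near h1 h2 hl hl₁
  intro t ht
  rcases le_total t u₀ with h | h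
  · exact h0 t h
  obtain ⟨a, ha⟩ : ∃ a, a = u₀ - 1 := ⟨_, rfl⟩
  have hD₁a : D₁ a = 0 := by
    have h3 : HasDerivAt D 0 a := by
      have h4 : D =ᶠ[𝓝 a] fun _ => 0 := by
        filter_upwards [Iio_mem_nhds (show a < u₀ by linarith)] with s hs
        exact h0 s (le_of_lt hs)
      exact (hasDerivAt_const a (0 : ℂ)).congr_of_eventuallyEq h4
    exact (h1 a (by linarith)).unique h3
  have hq : ContinuousOn (fun u : ℝ => -((κ / Real.sinh u ^ 2 : ℝ) : ℂ)) (Icc a t) := by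
    refine (Complex.continuous_ofReal.comp_continuousOn ?_).neg
    refine continuousOn_const.div (Real.continuous_sinh.continuousOn.pow 2) fun x hx => ?_
    have : Real.sinh x < 0 := Real.sinh_neg_iff.2 (by linarith [hx.2])
    exact pow_ne_zero 2 this.ne
  obtain ⟨C, hC⟩ := isCompact_Icc.exists_bound_of_continuousOn hq
  have hg := norm_le_gronwallBound_of_norm_deriv_right_le (f := fun u => (D u, D₁ u))
    (f' := fun u => (D₁ u, -((κ / Real.sinh u ^ 2 : ℝ) : ℂ) * D u)) (δ := 0) (K := max 1 C)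
    (ε := 0) (a := a) (b := t)
    (fun x hx => ((h1 x (by linarith [hx.2])).prodMk
      (h2 x (by linarith [hx.2]))).continuousAt.continuousWithinAt)
    (fun x hx => ((h1 x (by linarith [hx.2])).prodMk (h2 x (by linarith [hx.2]))).hasDerivWithinAt)
    (by rw [h0 a (by linarith), hD₁a]; simp)
    (fun x hx => by
      rw [add_zero, Prod.norm_mk, Prod.norm_mk, norm_mul]
      have hm : 0 ≤ max 1 C := le_max_of_le_left zero_le_one
      refine max_le ?_ ?_
      · calc ‖D₁ x‖ = 1 * ‖D₁ x‖ := (one_mul _).symm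
          _ ≤ max 1 C * max ‖D x‖ ‖D₁ x‖ :=
            mul_le_mul (le_max_left _ _) (le_max_right _ _) (norm_nonneg _) hm
      · exact mul_le_mul ((hC x ⟨hx.1, hx.2.le⟩).trans (le_max_right _ _)) (le_max_left _ _)
          (norm_nonneg _) hm) t ⟨by linarith, le_rfl⟩
  rw [gronwallBound_ε0_δ0, Prod.norm_mk] at hg
  exact norm_le_zero_iff.1 ((le_max_left _ _).trans hg)

end X2

end

end Pool.Agent.XE31
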